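import Pool.Agent.H57.BN.Base

set_option autoImplicit false

open MeasureTheory Filter Topology Metric Set
open scoped ENNReal NNReal ContDiff

namespace Pool.Agent.H57.BN

/-! Passing to the limit in `D`: gradients converge in `L²`, functions a.e. -/

/-- If the gradients of `y n : D` converge in `L²` to `g` and the functions converge a.e. to `f`, then
`(f,g)` is (the function and gradient of) an element of `D`, and `y n` converges to it. -/
theorem exists_of_tendsto {y : ℕ → D} {f : E4 → ℝ} {g : E4 → E4} (hg : MemLp g 2 volume)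
    (h2 : Tendsto (fun n => eLpNorm (fun p => gr (y n) p - g p) 2 volume) atTop (𝓝 0))
    (h4 : ∀ᵐ p ∂(volume : Measure E4), Tendsto (fun n => fn (y n) p) atTop (𝓝 (f p))) :
    ∃ x : D, fn x =ᵐ[volume] f ∧ gr x =ᵐ[volume] g ∧ Tendsto y atTop (𝓝 x) := by
  have h1 : Tendsto (fun n => gr (y n)) atTop (𝓝 (hg.toLp g)) :=
    (Lp.tendsto_Lp_iff_tendsto_eLpNorm (fun n => gr (y n)) g hg).mpr h2
  have hmem : hg.toLp g ∈ DD :=
    (Submodule.isClosed_topologicalClosure _).mem_of_tendsto h1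
      (Eventually.of_forall fun n => (y n).2)
  refine ⟨⟨hg.toLp g, hmem⟩, ?_, hg.coeFn_toLp, ?_⟩
  · have hy : Tendsto y atTop (𝓝 (⟨hg.toLp g, hmem⟩ : D)) := tendsto_subtype_rng.mpr h1
    obtain ⟨ψ, hψ, h3⟩ := exists_ae_subseq_Lp ((fn.continuous.tendsto _).comp hy)
    filter_upwards [h3, h4] with p hp hp4
    exact tendsto_nhds_unique hp (hp4.comp hψ.tendsto_atTop)
  · exact tendsto_subtype_rng.mpr h1

/-- the same, staying in `H Ω` -/
theorem exists_of_tendsto_H {Ω : Set E4} {y : ℕ → D} (hy : ∀ n, y n ∈ H Ω) {f : E4 → ℝ}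
    {g : E4 → E4} (hg : MemLp g 2 volume)
    (h2 : Tendsto (fun n => eLpNorm (fun p => gr (y n) p - g p) 2 volume) atTop (𝓝 0))
    (h4 : ∀ᵐ p ∂(volume : Measure E4), Tendsto (fun n => fn (y n) p) atTop (𝓝 (f p))) :
    ∃ x ∈ H Ω, fn x =ᵐ[volume] f ∧ gr x =ᵐ[volume] g ∧ Tendsto y atTop (𝓝 x) := by
  obtain ⟨x, h1, h3, h5⟩ := exists_of_tendsto hg h2 h4
  exact ⟨x, (isClosed_H Ω).mem_of_tendsto h5 (Eventually.of_forall hy), h1, h3, h5⟩

/-- for test functions -/
theorem exists_of_test {Ω : Set E4} {φ : ℕ → E4 → ℝ} (hφ : ∀ n, IsTest Ω (φ n)) {f : E4 → ℝ}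
    {g : E4 → E4} (hg : MemLp g 2 volume)
    (h2 : Tendsto (fun n => eLpNorm (fun p => gradient (φ n) p - g p) 2 volume) atTop (𝓝 0))
    (h4 : ∀ᵐ p ∂(volume : Measure E4), Tendsto (fun n => φ n p) atTop (𝓝 (f p))) :
    ∃ x ∈ H Ω, fn x =ᵐ[volume] f ∧ gr x =ᵐ[volume] g ∧
      Tendsto (fun n => toD (hφ n)) atTop (𝓝 x) := by
  apply exists_of_tendsto_H (fun n => toD_mem (hφ n)) hg
  · refine h2.congr fun n => ?_
    apply eLpNorm_congr_ae
    filter_upwards [gr_toD_ae (hφ n)] with p hp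
    rw [hp]
  · filter_upwards [h4, ae_all_iff.mpr fun n => fn_toD_ae (hφ n)] with p hp hp2
    exact hp.congr fun n => (hp2 n).symm

/-- dominated convergence in `L²`: if `G n → g` a.e. and `‖G n p‖ ≤ b p` with `b ∈ L²` then
`‖G n - g‖₂ → 0`. -/
theorem tendsto_eLpNorm_of_dom {F : Type*} [NormedAddCommGroup F] {r : ℝ≥0∞} (hr0 : r ≠ 0)
    (hr : r ≠ ⊤) {G : ℕ → E4 → F} {g : E4 → F} {b : E4 → ℝ}
    (hG : ∀ n, AEStronglyMeasurable (G n) (volume : Measure E4))
    (hg : AEStronglyMeasurable g (volume : Measure E4)) (hb : MemLp b r (volume : Measure E4))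
    (hbd : ∀ n, ∀ᵐ p ∂(volume : Measure E4), ‖G n p‖ ≤ b p)
    (hlim : ∀ᵐ p ∂(volume : Measure E4), Tendsto (fun n => G n p) atTop (𝓝 (g p))) :
    MemLp g r volume ∧ Tendsto (fun n => eLpNorm (fun p => G n p - g p) r volume) atTop (𝓝 0) := by
  have hgb : ∀ᵐ p ∂(volume : Measure E4), ‖g p‖ ≤ b p := by
    filter_upwards [hlim, ae_all_iff.mpr hbd] with p hp hp2
    exact le_of_tendsto hp.norm (Eventually.of_forall hp2)
  have hgm : MemLp g r volume := hb.of_le hg (by
    filter_upwards [hgb] with p hp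
    exact hp.trans (le_abs_self _))
  refine ⟨hgm, ?_⟩
  have hrpos : 0 < r.toReal := ENNReal.toReal_pos hr0 hr
  have h1 : ∀ n, eLpNorm (fun p => G n p - g p) r volume =
      (∫⁻ p, ‖G n p - g p‖ₑ ^ r.toReal) ^ (1 / r.toReal) := fun n =>
    eLpNorm_eq_lintegral_rpow_enorm_toReal hr0 hr
  simp_rw [h1]
  have h2 : Tendsto (fun n => ∫⁻ p, ‖G n p - g p‖ₑ ^ r.toReal) atTop (𝓝 (∫⁻ _ : E4, 0)) := by
    apply tendsto_lintegral_of_dominated_convergence' (fun p => (2 * ‖b p‖ₑ) ^ r.toReal)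
    · intro n
      exact ((hG n).sub hg).enorm.pow_const _
    · intro n
      filter_upwards [hbd n, hgb] with p hp hp2
      apply ENNReal.rpow_le_rpow _ hrpos.le
      calc ‖G n p - g p‖ₑ ≤ ‖G n p‖ₑ + ‖g p‖ₑ := enorm_sub_le
        _ ≤ ‖b p‖ₑ + ‖b p‖ₑ := by
            gcongr
            · rw [enorm_le_iff_norm_le, Real.norm_eq_abs]; exact hp.trans (le_abs_self _)
            · rw [enorm_le_iff_norm_le, Real.norm_eq_abs]; exact hp2.trans (le_abs_self _)
        _ = 2 * ‖b p‖ₑ := by ring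
    · have : MemLp (fun p => 2 * b p) r volume := hb.const_mul 2
      have h3 := this.2
      rw [eLpNorm_lt_top_iff_lintegral_rpow_enorm_lt_top hr0 hr] at h3
      refine ne_of_lt (lt_of_le_of_lt (le_of_eq ?_) h3)
      apply lintegral_congr
      intro p
      rw [enorm_mul]
      congr 2
      rw [Real.enorm_eq_ofReal (by norm_num)]
      norm_num
    · filter_upwards [hlim] with p hp
      have : Tendsto (fun n => ‖G n p - g p‖ₑ) atTop (𝓝 0) := by
        have h4 : Tendsto (fun n => G n p - g p) atTop (𝓝 0) := by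
          simpa using hp.sub_const (g p)
        simpa using h4.enorm
      have h5 := (ENNReal.continuous_rpow_const (y := r.toReal)).tendsto 0 |>.comp this
      rw [ENNReal.zero_rpow_of_pos hrpos] at h5
      exact h5
  rw [lintegral_zero] at h2
  have h6 := (ENNReal.continuous_rpow_const (y := 1 / r.toReal)).tendsto 0 |>.comp h2
  rw [ENNReal.zero_rpow_of_pos (one_div_pos.mpr hrpos)] at h6
  exact h6

end Pool.Agent.H57.BN
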