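import Pool.Agent.H57.BN.EigA

set_option autoImplicit false

open MeasureTheory Filter Topology Metric Set
open scoped ENNReal NNReal ContDiff

namespace Pool.Agent.H57.BN

theorem eig_norm_smul_sq (c : ℝ) (x : D) : ‖c • x‖ ^ 2 = c ^ 2 * ‖x‖ ^ 2 := by
  have h : ‖c • x‖ = |c| * ‖x‖ := norm_smul c x
  rw [h, mul_pow, sq_abs]

theorem eig_norm_fn_smul (c : ℝ) (x : D) : ‖fn (c • x)‖ = |c| * ‖fn x‖ := by
  rw [map_smul]
  exact norm_smul c (fn x)

/-- every nonzero element of `H B` can be normalised to `m2 = 1` -/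
theorem eig_exists_m2_one {x : D} (hx : x ∈ H B) (h0 : x ≠ 0) :
    ∃ y ∈ H B, m2 y = 1 ∧ ‖x‖ ^ 2 = m2 x * ‖y‖ ^ 2 := by
  have hm := m2_pos hx h0
  have hs : 0 < Real.sqrt (m2 x) := Real.sqrt_pos.2 hm
  refine ⟨(Real.sqrt (m2 x))⁻¹ • x, (H B).smul_mem _ hx, ?_, ?_⟩
  · rw [m2_smul, inv_pow, Real.sq_sqrt hm.le, inv_mul_cancel₀ hm.ne']
  · rw [eig_norm_smul_sq, inv_pow, Real.sq_sqrt hm.le, ← mul_assoc, mul_inv_cancel₀ hm.ne', one_mul]

theorem eig_Lam_set_nonempty : {s : ℝ | ∃ x ∈ H B, m2 x = 1 ∧ s = ‖x‖ ^ 2}.Nonempty := by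
  obtain ⟨x, hx, h0⟩ := eig_exists_ne_zero_B
  obtain ⟨y, hy, h1, _⟩ := eig_exists_m2_one hx h0
  exact ⟨_, y, hy, h1, rfl⟩

theorem eig_volB_pos : 0 < Real.sqrt (volume B).toReal := by
  apply Real.sqrt_pos.2
  exact ENNReal.toReal_pos (measure_ball_pos volume (0 : E4) one_pos).ne' eig_volume_B_lt_top.ne

theorem Lam_pos : 0 < Lam := by
  have hS := S_pos
  have hv := eig_volB_pos
  have h : S / Real.sqrt (volume B).toReal ≤ Lam := by
    apply le_csInf eig_Lam_set_nonempty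
    rintro s ⟨x, hx, h1, rfl⟩
    have h2 := m2_le hx
    rw [h1] at h2
    have h3 := S_le x
    rw [div_le_iff₀ hv]
    have h4 : 0 ≤ ‖fn x‖ ^ 2 := sq_nonneg _
    nlinarith
  exact lt_of_lt_of_le (by positivity) h

theorem Lam_le {x : D} (hx : x ∈ H B) : Lam * m2 x ≤ ‖x‖ ^ 2 := by
  by_cases h0 : x = 0
  · subst h0
    have : m2 (0 : D) = 0 := by
      have := m2_smul 0 (0 : D)
      simpa using this
    rw [this]
    simp
  · obtain ⟨y, hy, h1, h2⟩ := eig_exists_m2_one hx h0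
    have h3 : Lam ≤ ‖y‖ ^ 2 := csInf_le ⟨0, by rintro s ⟨z, _, _, rfl⟩; positivity⟩ ⟨y, hy, h1, rfl⟩
    rw [h2, mul_comm]
    exact mul_le_mul_of_nonneg_left h3 (m2_nonneg x)

theorem P_self (lam : ℝ) (x : D) : PB lam x x = P lam x := by
  unfold PB P m2
  rw [real_inner_self_eq_norm_sq]
  congr 2
  exact integral_congr_ae (Eventually.of_forall fun p => by simp only; ring)

theorem PB_comm (lam : ℝ) (x y : D) : PB lam x y = PB lam y x := by
  unfold PB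
  rw [real_inner_comm]
  congr 2
  exact integral_congr_ae (Eventually.of_forall fun p => by simp only; ring)

theorem P_smul (lam c : ℝ) (x : D) : P lam (c • x) = c ^ 2 * P lam x := by
  unfold P
  rw [eig_norm_smul_sq, m2_smul]
  ring

theorem eig_m2_add_smul {x y : D} (hx : x ∈ H B) (hy : y ∈ H B) (t : ℝ) :
    m2 (x + t • y) = m2 x + 2 * t * (∫ p, fn x p * fn y p) + t ^ 2 * m2 y := by
  unfold m2
  have e : ∫ p, fn (x + t • y) p ^ 2 =
      ∫ p, ((fn x p ^ 2 + 2 * t * (fn x p * fn y p)) + t ^ 2 * fn y p ^ 2) := by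
    apply integral_congr_ae
    filter_upwards [eig_fn_add_smul_ae x y t] with p hp
    rw [hp]
    ring
  have h1 : Integrable (fun p => fn x p ^ 2 + 2 * t * (fn x p * fn y p))
      (volume : Measure E4) :=
    (eig_integrable_sq_B hx).add ((integrable_mul_B hx hy).const_mul _)
  rw [e, integral_add h1 ((eig_integrable_sq_B hy).const_mul _),
    integral_add (eig_integrable_sq_B hx) ((integrable_mul_B hx hy).const_mul _),
    integral_const_mul, integral_const_mul]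

theorem eig_norm_add_smul_sq (x y : D) (t : ℝ) :
    ‖x + t • y‖ ^ 2 = ‖x‖ ^ 2 + 2 * t * inner ℝ x y + t ^ 2 * ‖y‖ ^ 2 := by
  have e1 : inner ℝ x (t • y) = t * inner ℝ x y := real_inner_smul_right x y t
  rw [norm_add_sq_real, e1, eig_norm_smul_sq]
  ring

theorem P_add_smul (lam : ℝ) {x y : D} (hx : x ∈ H B) (hy : y ∈ H B) (t : ℝ) :
    P lam (x + t • y) = P lam x + 2 * t * PB lam x y + t ^ 2 * P lam y := by
  unfold P PB
  rw [eig_norm_add_smul_sq, eig_m2_add_smul hx hy]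
  ring

theorem P_coer {lam : ℝ} (h0 : 0 < lam) (h1 : lam < Lam) {x : D} (hx : x ∈ H B) :
    (1 - lam / Lam) * ‖x‖ ^ 2 ≤ P lam x := by
  have hL := Lam_pos
  have h2 := Lam_le hx
  unfold P
  have h3 : lam * m2 x ≤ lam / Lam * ‖x‖ ^ 2 := by
    rw [div_mul_eq_mul_div, le_div_iff₀ hL]
    nlinarith
  linarith

theorem P_le {lam : ℝ} (h0 : 0 < lam) (x : D) : P lam x ≤ ‖x‖ ^ 2 := by
  unfold P
  have := mul_nonneg h0.le (m2_nonneg x)
  linarith

theorem eig_q_lower {lam : ℝ} (h0 : 0 < lam) (h1 : lam < Lam) {x : D} (hx : x ∈ H B) :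
    (1 - lam / Lam) * S * ‖fn x‖ ^ 2 ≤ P lam x := by
  have h2 := P_coer h0 h1 hx
  have h3 := S_le x
  have hL := Lam_pos
  have h4 : 0 < 1 - lam / Lam := by
    rw [sub_pos, div_lt_one hL]
    exact h1
  refine le_trans ?_ h2
  rw [mul_assoc]
  exact mul_le_mul_of_nonneg_left h3 h4.le

/-- every nonzero element of `H B` can be normalised in `L⁴` -/
theorem eig_exists_norm_one (lam : ℝ) {x : D} (hx : x ∈ H B) (h0 : x ≠ 0) :
    ∃ y ∈ H B, ‖fn y‖ = 1 ∧ P lam x = ‖fn x‖ ^ 2 * P lam y := by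
  have hm : 0 < ‖fn x‖ := norm_pos_iff.mpr (eig_fn_ne_zero h0)
  refine ⟨‖fn x‖⁻¹ • x, (H B).smul_mem _ hx, ?_, ?_⟩
  · rw [eig_norm_fn_smul, abs_of_pos (by positivity), inv_mul_cancel₀ hm.ne']
  · rw [P_smul, inv_pow, ← mul_assoc, mul_inv_cancel₀ (by positivity), one_mul]

theorem eig_q_set_nonempty (lam : ℝ) :
    {s : ℝ | ∃ x ∈ H B, ‖fn x‖ = 1 ∧ s = P lam x}.Nonempty := by
  obtain ⟨x, hx, h0⟩ := eig_exists_ne_zero_B
  obtain ⟨y, hy, h1, _⟩ := eig_exists_norm_one lam hx h0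
  exact ⟨_, y, hy, h1, rfl⟩

theorem eig_q_set_lower {lam : ℝ} (h0 : 0 < lam) (h1 : lam < Lam) :
    (1 - lam / Lam) * S ∈ lowerBounds {s : ℝ | ∃ x ∈ H B, ‖fn x‖ = 1 ∧ s = P lam x} := by
  rintro s ⟨x, hx, h2, rfl⟩
  have := eig_q_lower h0 h1 hx
  rwa [h2, one_pow, mul_one] at this

theorem q_pos {lam : ℝ} (h0 : 0 < lam) (h1 : lam < Lam) : 0 < q lam := by
  have hL := Lam_pos
  have hS := S_pos
  have h4 : 0 < 1 - lam / Lam := by
    rw [sub_pos, div_lt_one hL]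
    exact h1
  refine lt_of_lt_of_le (mul_pos h4 hS) ?_
  exact le_csInf (eig_q_set_nonempty lam) (eig_q_set_lower h0 h1)

theorem eig_P_zero (lam : ℝ) : P lam (0 : D) = 0 := by
  have := P_smul lam 0 (0 : D)
  simpa using this

theorem q_le {lam : ℝ} (h0 : 0 < lam) (h1 : lam < Lam) {x : D} (hx : x ∈ H B) :
    q lam * ‖fn x‖ ^ 2 ≤ P lam x := by
  by_cases hx0 : x = 0
  · subst hx0
    rw [eig_P_zero, map_zero, norm_zero]
    simp
  · obtain ⟨y, hy, h2, h3⟩ := eig_exists_norm_one lam hx hx0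
    have h4 : q lam ≤ P lam y := csInf_le ⟨_, eig_q_set_lower h0 h1⟩ ⟨y, hy, h2, rfl⟩
    rw [h3, mul_comm]
    exact mul_le_mul_of_nonneg_left h4 (sq_nonneg _)

/-- absolute values in `H B` do not change `P`, `m4`, `X` -/
theorem exists_abs_B {x : D} (hx : x ∈ H B) : ∃ y ∈ H B,
    (fn y =ᵐ[volume] fun p => |fn x p|) ∧ ‖y‖ = ‖x‖ ∧ ‖fn y‖ = ‖fn x‖ ∧ m2 y = m2 x ∧
      m4 y = m4 x ∧ (∀ lam, P lam y = P lam x) ∧ (∀ z, X y z = X x z) ∧ (∀ z, X z y = X z x) := by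
  obtain ⟨y, h1, h2, h3⟩ := exists_abs x
  have hm2 : m2 y = m2 x := by
    unfold m2
    apply integral_congr_ae
    filter_upwards [h1] with p hp
    rw [hp, sq_abs]
  have hm4 : m4 y = m4 x := by
    unfold m4
    apply integral_congr_ae
    filter_upwards [h1] with p hp
    rw [hp]
    exact Even.pow_abs (by decide) _
  refine ⟨y, h3 B isOpen_ball hx, h1, h2, ?_, hm2, hm4, ?_, ?_, ?_⟩
  · rw [m4_eq, m4_eq] at hm4
    exact (pow_left_inj₀ (norm_nonneg _) (norm_nonneg _) (by norm_num)).mp hm4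
  · intro lam
    unfold P
    rw [h2, hm2]
  · intro z
    unfold X
    apply integral_congr_ae
    filter_upwards [h1] with p hp
    rw [hp, sq_abs]
  · intro z
    unfold X
    apply integral_congr_ae
    filter_upwards [h1] with p hp
    rw [hp, sq_abs]

theorem exists_near_q {lam : ℝ} (h0 : 0 < lam) (h1 : lam < Lam) {s : ℝ} (hs : q lam < s) :
    ∃ x ∈ H B, ‖fn x‖ = 1 ∧ P lam x < s ∧ 0 ≤ᵐ[volume] (fn x : E4 → ℝ) := by
  obtain ⟨s', ⟨x, hx, hn, rfl⟩, hlt⟩ := exists_lt_of_csInf_lt (eig_q_set_nonempty lam) hs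
  obtain ⟨y, hy, hy1, _, hy3, _, _, hy6, _, _⟩ := exists_abs_B hx
  refine ⟨y, hy, by rw [hy3, hn], by rw [hy6]; exact hlt, ?_⟩
  filter_upwards [hy1] with p hp
  rw [hp]
  exact abs_nonneg _

end Pool.Agent.H57.BN
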