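import Pool.Agent.H57.BN.Limits
import Pool.Agent.H57.BN.Eig

set_option autoImplicit false

open MeasureTheory Filter Topology Metric Set
open scoped ENNReal NNReal ContDiff

namespace Pool.Agent.H57.BN

/-- `P(x) ≤ ∫x⁴`, `x ≠ 0` imply `P(x) ≥ q²` -/
theorem P_ge_q {lam : ℝ} (h0 : 0 < lam) (h1 : lam < Lam) {x : D} (hx : x ∈ H B) (hne : x ≠ 0)
    (hP : P lam x ≤ m4 x) : q lam ^ 2 ≤ P lam x := by
  have hq := q_pos h0 h1
  have h2 := q_le h0 h1 hx
  have hn : 0 < ‖fn x‖ := norm_pos_iff.mpr fun h => hne (fn_inj h)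
  have hPp : 0 < P lam x := lt_of_lt_of_le (by positivity) h2
  rw [m4_eq] at hP
  have h3 : (q lam * ‖fn x‖ ^ 2) ^ 2 ≤ P lam x ^ 2 := pow_le_pow_left₀ (by positivity) h2 2
  have h4 : q lam ^ 2 * P lam x ≤ P lam x * P lam x := by
    calc q lam ^ 2 * P lam x ≤ q lam ^ 2 * ‖fn x‖ ^ 4 :=
          mul_le_mul_of_nonneg_left hP (by positivity)
      _ = (q lam * ‖fn x‖ ^ 2) ^ 2 := by ring
      _ ≤ P lam x ^ 2 := h3
      _ = P lam x * P lam x := by ring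
  exact le_of_mul_le_mul_right h4 hPp

theorem bub_m2_zero : m2 (0 : D) = 0 := by
  have := m2_smul 0 (0 : D)
  simpa using this

/-- weakly vanishing sequences with `P(x_n) ≤ ∫x_n⁴` cost at least `S²`. -/
theorem bub {lam : ℝ} (h0 : 0 < lam) (h1 : lam < Lam) {x : ℕ → D} (hx : ∀ n, x n ∈ H B)
    (hw : WeakTo x 0) (hne : ∀ n, x n ≠ 0) (hP : ∀ n, P lam (x n) ≤ m4 (x n)) {ε : ℝ}
    (hε : 0 < ε) : ∀ᶠ n in atTop, S ^ 2 - ε ≤ P lam (x n) := by
  have hq := q_pos h0 h1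
  have hS := S_pos
  have hd : Tendsto (fun n => lam * m2 (x n)) atTop (𝓝 0) := by
    have := (tendsto_m2 hw hx).const_mul lam
    rwa [bub_m2_zero, mul_zero] at this
  have he : Tendsto (fun n => 2 * (lam * m2 (x n)) + (lam * m2 (x n)) ^ 2 / q lam ^ 2) atTop
      (𝓝 0) := by
    have := (hd.const_mul 2).add ((hd.pow 2).div_const (q lam ^ 2))
    simpa using this
  filter_upwards [he.eventually_lt_const hε] with n hn
  have hPq := P_ge_q h0 h1 (hx n) (hne n) (hP n)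
  have hPp : 0 < P lam (x n) := lt_of_lt_of_le (by positivity) hPq
  set d : ℝ := lam * m2 (x n) with hdef
  have hd0 : 0 ≤ d := mul_nonneg h0.le (m2_nonneg _)
  have h2 := S_le (x n)
  have h3 : ‖x n‖ ^ 2 = P lam (x n) + d := by
    unfold P
    ring
  rw [h3] at h2
  have h4 := hP n
  rw [m4_eq] at h4
  have h5 : (S * ‖fn (x n)‖ ^ 2) ^ 2 ≤ (P lam (x n) + d) ^ 2 :=
    pow_le_pow_left₀ (by positivity) h2 2
  have h6 : S ^ 2 * P lam (x n) ≤ (P lam (x n) + d) ^ 2 := by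
    calc S ^ 2 * P lam (x n) ≤ S ^ 2 * ‖fn (x n)‖ ^ 4 :=
          mul_le_mul_of_nonneg_left h4 (by positivity)
      _ = (S * ‖fn (x n)‖ ^ 2) ^ 2 := by ring
      _ ≤ _ := h5
  have h7 : d ^ 2 ≤ d ^ 2 / q lam ^ 2 * P lam (x n) := by
    rw [div_mul_eq_mul_div, le_div_iff₀ (by positivity)]
    exact mul_le_mul_of_nonneg_left hPq (by positivity)
  have h8 : S ^ 2 * P lam (x n) ≤ (P lam (x n) + 2 * d + d ^ 2 / q lam ^ 2) * P lam (x n) := by
    nlinarith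
  have h9 := le_of_mul_le_mul_right h8 hPp
  linarith

/-- weak limits: `P(x_n) = P(x) + ‖x_n - x‖² + o(1)` -/
theorem P_weak {lam : ℝ} {x : ℕ → D} (hx : ∀ n, x n ∈ H B) {y : D} (hw : WeakTo x y) :
    Tendsto (fun n => P lam (x n) - ‖x n - y‖ ^ 2) atTop (𝓝 (P lam y)) := by
  have h := hw.norm.sub ((tendsto_m2 hw hx).const_mul lam)
  have e : (fun n => P lam (x n) - ‖x n - y‖ ^ 2) =
      fun n => ‖x n‖ ^ 2 - ‖x n - y‖ ^ 2 - lam * m2 (x n) := by
    funext n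
    unfold P
    ring
  rw [e]
  exact h

end Pool.Agent.H57.BN
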