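import Pool.Agent.H57.BN.Fn

set_option autoImplicit false

open MeasureTheory Filter Topology Metric Set
open scoped ENNReal NNReal ContDiff

namespace Pool.Agent.H57.BN

/-! Hölder-type inequalities for elements of `L⁴(ℝ⁴)`. -/

/-- Cauchy-Schwarz for integrals -/
theorem hol_cs_integral {α : Type*} [MeasurableSpace α] {μ : Measure α} {a b : α → ℝ}
    (ha : Integrable (fun x => a x ^ 2) μ) (hb : Integrable (fun x => b x ^ 2) μ)
    (hab : Integrable (fun x => a x * b x) μ) :
    (∫ x, a x * b x ∂μ) ^ 2 ≤ (∫ x, a x ^ 2 ∂μ) * ∫ x, b x ^ 2 ∂μ := by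
  have h : ∀ t : ℝ, 0 ≤ (∫ x, b x ^ 2 ∂μ) * (t * t) + (2 * ∫ x, a x * b x ∂μ) * t +
      ∫ x, a x ^ 2 ∂μ := by
    intro t
    have e : ∫ x, (a x + t * b x) ^ 2 ∂μ = (∫ x, b x ^ 2 ∂μ) * (t * t) +
        (2 * ∫ x, a x * b x ∂μ) * t + ∫ x, a x ^ 2 ∂μ := by
      have e1 : (fun x => (a x + t * b x) ^ 2) =
          fun x => (t * t * b x ^ 2 + 2 * t * (a x * b x)) + a x ^ 2 := by
        funext x; ring
      have h3 : Integrable (fun x => t * t * b x ^ 2 + 2 * t * (a x * b x)) μ :=
        (hb.const_mul _).add (hab.const_mul _)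
      rw [e1, integral_add h3 ha, integral_add (hb.const_mul _) (hab.const_mul _),
        integral_const_mul, integral_const_mul]
      ring
    rw [← e]
    exact integral_nonneg fun x => sq_nonneg _
  have h2 := discrim_le_zero h
  unfold discrim at h2
  nlinarith

theorem hol_holderTriple_442 : ENNReal.HolderTriple 4 4 2 := by
  refine ⟨?_⟩
  have h4 : (4 : ℝ≥0∞) = 2 * 2 := by norm_num
  rw [h4, ENNReal.mul_inv (Or.inl (by norm_num)) (Or.inl (by norm_num)), ← mul_add,
    ENNReal.inv_two_add_inv_two, mul_one]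

theorem hol_memLp_mul_two (f g : L4) :
    MemLp (fun p => f p * g p) 2 (volume : Measure E4) := by
  haveI := hol_holderTriple_442
  exact MemLp.mul (Lp.memLp g) (Lp.memLp f)

theorem integrable_pow4 (f : L4) : Integrable (fun p => f p ^ 4) (volume : Measure E4) := by
  have h := (hol_memLp_mul_two f f).integrable_sq
  refine h.congr (Eventually.of_forall fun p => ?_)
  simp only
  ring

theorem norm4_eq (f : L4) : ‖f‖ ^ 4 = ∫ p, f p ^ 4 := by
  have h := (Lp.memLp f).eLpNorm_eq_integral_rpow_norm (by norm_num) (by norm_num)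
  have e4 : (4 : ℝ≥0∞).toReal = (4 : ℝ) := by norm_num
  have e1 : (fun p => ‖f p‖ ^ (4 : ℝ)) = fun p => f p ^ 4 := by
    funext p
    rw [show (4 : ℝ) = ((4 : ℕ) : ℝ) by norm_num, Real.rpow_natCast, Real.norm_eq_abs]
    exact Even.pow_abs (by decide) _
  rw [e4, e1] at h
  have h0 : 0 ≤ ∫ p, f p ^ 4 := integral_nonneg fun p => by positivity
  rw [Lp.norm_def, h, ENNReal.toReal_ofReal (by positivity), ← Real.rpow_natCast,
    ← Real.rpow_mul h0]
  norm_num

/-- four-fold Hölder -/
theorem integrable_mul4 (f g h k : L4) :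
    Integrable (fun p => f p * g p * h p * k p) (volume : Measure E4) := by
  have h1 := MemLp.integrable_mul (hol_memLp_mul_two f g) (hol_memLp_mul_two h k)
  refine h1.congr (Eventually.of_forall fun p => ?_)
  simp only [Pi.mul_apply]
  ring

theorem integrable_cube_mul (f g : L4) :
    Integrable (fun p => f p ^ 3 * g p) (volume : Measure E4) := by
  refine (integrable_mul4 f f f g).congr (Eventually.of_forall fun p => ?_)
  simp only
  ring

theorem hol_integral_sq_mul_sq_le (f g : L4) :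
    ∫ p, (f p * g p) ^ 2 ≤ (‖f‖ * ‖g‖) ^ 2 := by
  have hi : Integrable (fun p => f p ^ 2 * g p ^ 2) (volume : Measure E4) := by
    refine (integrable_mul4 f f g g).congr (Eventually.of_forall fun p => ?_)
    simp only
    ring
  have h1 : Integrable (fun p => (f p ^ 2) ^ 2) (volume : Measure E4) := by
    refine (integrable_pow4 f).congr (Eventually.of_forall fun p => ?_)
    simp only
    ring
  have h2 : Integrable (fun p => (g p ^ 2) ^ 2) (volume : Measure E4) := by
    refine (integrable_pow4 g).congr (Eventually.of_forall fun p => ?_)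
    simp only
    ring
  have h := hol_cs_integral h1 h2 hi
  have e1 : ∫ p, (f p ^ 2) ^ 2 = ‖f‖ ^ 4 := by
    rw [norm4_eq]
    exact integral_congr_ae (Eventually.of_forall fun p => by simp only; ring)
  have e2 : ∫ p, (g p ^ 2) ^ 2 = ‖g‖ ^ 4 := by
    rw [norm4_eq]
    exact integral_congr_ae (Eventually.of_forall fun p => by simp only; ring)
  rw [e1, e2] at h
  have e3 : ∫ p, (f p * g p) ^ 2 = ∫ p, f p ^ 2 * g p ^ 2 :=
    integral_congr_ae (Eventually.of_forall fun p => by simp only; ring)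
  rw [e3]
  have h0 : 0 ≤ ∫ p, f p ^ 2 * g p ^ 2 := integral_nonneg fun p => by positivity
  have e4 : ‖f‖ ^ 4 * ‖g‖ ^ 4 = ((‖f‖ * ‖g‖) ^ 2) ^ 2 := by ring
  rw [e4] at h
  exact le_of_sq_le_sq' h (by positivity)
where
  le_of_sq_le_sq' {a b : ℝ} (h : a ^ 2 ≤ b ^ 2) (hb : 0 ≤ b) : a ≤ b :=
    le_trans (le_abs_self a) (abs_le_of_sq_le_sq h hb)

theorem integral_abs_mul4 (f g h k : L4) :
    ∫ p, |f p * g p * h p * k p| ≤ ‖f‖ * ‖g‖ * ‖h‖ * ‖k‖ := by
  have hi := (integrable_mul4 f g h k).abs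
  have h1 : Integrable (fun p => |f p * g p| ^ 2) (volume : Measure E4) := by
    refine (hol_memLp_mul_two f g).integrable_sq.congr (Eventually.of_forall fun p => ?_)
    simp only [sq_abs]
  have h2 : Integrable (fun p => |h p * k p| ^ 2) (volume : Measure E4) := by
    refine (hol_memLp_mul_two h k).integrable_sq.congr (Eventually.of_forall fun p => ?_)
    simp only [sq_abs]
  have e : (fun p => |f p * g p * h p * k p|) = fun p => |f p * g p| * |h p * k p| := by
    funext p
    rw [← abs_mul]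
    congr 1
    ring
  rw [e] at hi ⊢
  have hc := hol_cs_integral h1 h2 hi
  have e1 : ∫ p, |f p * g p| ^ 2 ≤ (‖f‖ * ‖g‖) ^ 2 := by
    simp only [sq_abs]
    exact hol_integral_sq_mul_sq_le f g
  have e2 : ∫ p, |h p * k p| ^ 2 ≤ (‖h‖ * ‖k‖) ^ 2 := by
    simp only [sq_abs]
    exact hol_integral_sq_mul_sq_le h k
  have h0 : 0 ≤ ∫ p, |f p * g p| * |h p * k p| := integral_nonneg fun p => by positivity
  have h3 : (∫ p, |f p * g p| * |h p * k p|) ^ 2 ≤ (‖f‖ * ‖g‖ * ‖h‖ * ‖k‖) ^ 2 := by
    refine hc.trans ?_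
    calc (∫ p, |f p * g p| ^ 2) * ∫ p, |h p * k p| ^ 2
        ≤ (‖f‖ * ‖g‖) ^ 2 * (‖h‖ * ‖k‖) ^ 2 :=
          mul_le_mul e1 e2 (integral_nonneg fun p => by positivity) (by positivity)
      _ = (‖f‖ * ‖g‖ * ‖h‖ * ‖k‖) ^ 2 := by ring
  exact (le_abs_self _).trans (abs_le_of_sq_le_sq h3 (by positivity))

theorem abs_integral_cube_mul (f g : L4) : |∫ p, f p ^ 3 * g p| ≤ ‖f‖ ^ 3 * ‖g‖ := by
  refine abs_integral_le_integral_abs.trans ?_
  have e : (fun p => |f p ^ 3 * g p|) = fun p => |f p * f p * f p * g p| := by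
    funext p
    congr 1
    ring
  rw [e]
  refine (integral_abs_mul4 f f f g).trans (le_of_eq ?_)
  ring

/-- local `L²` integrability -/
theorem integrableOn_sq (f : L4) {E : Set E4} (hE : volume E < ⊤) :
    IntegrableOn (fun p => f p ^ 2) E (volume : Measure E4) := by
  haveI : IsFiniteMeasure ((volume : Measure E4).restrict E) := ⟨by simpa using hE⟩
  have h : MemLp f 2 ((volume : Measure E4).restrict E) :=
    ((Lp.memLp f).restrict E).mono_exponent (by norm_num)
  exact h.integrable_sq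

theorem setIntegral_sq_le (f : L4) {E : Set E4} (hEm : MeasurableSet E) (hE : volume E < ⊤) :
    ∫ p in E, f p ^ 2 ≤ Real.sqrt (volume E).toReal * ‖f‖ ^ 2 := by
  haveI : IsFiniteMeasure ((volume : Measure E4).restrict E) := ⟨by simpa using hE⟩
  have h1 : Integrable (fun p => (f p ^ 2) ^ 2) ((volume : Measure E4).restrict E) := by
    refine ((integrable_pow4 f).restrict (s := E)).congr (Eventually.of_forall fun p => ?_)
    simp only
    ring
  have h2 : Integrable (fun _ : E4 => (1 : ℝ) ^ 2) ((volume : Measure E4).restrict E) :=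
    integrable_const _
  have h3 : Integrable (fun p => (f p) ^ 2 * (1 : ℝ)) ((volume : Measure E4).restrict E) := by
    simp only [mul_one]
    exact integrableOn_sq f hE
  have hc := hol_cs_integral h1 h2 h3
  simp only [mul_one, one_pow] at hc
  have e1 : ∫ p in E, (f p ^ 2) ^ 2 ≤ ‖f‖ ^ 4 := by
    rw [norm4_eq]
    have e2 : ∫ p in E, (f p ^ 2) ^ 2 = ∫ p in E, f p ^ 4 :=
      integral_congr_ae (Eventually.of_forall fun p => by simp only; ring)
    rw [e2]
    exact setIntegral_le_integral (integrable_pow4 f) (Eventually.of_forall fun p => by positivity)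
  have e3 : ∫ _ in E, (1 : ℝ) ∂(volume : Measure E4) = (volume E).toReal := by
    simp [Measure.real]
  rw [e3] at hc
  have h4 : (∫ p in E, f p ^ 2) ^ 2 ≤ (Real.sqrt (volume E).toReal * ‖f‖ ^ 2) ^ 2 := by
    rw [mul_pow, Real.sq_sqrt ENNReal.toReal_nonneg]
    refine hc.trans ?_
    rw [mul_comm, ← pow_mul]
    exact mul_le_mul_of_nonneg_left e1 ENNReal.toReal_nonneg
  exact (le_abs_self _).trans (abs_le_of_sq_le_sq h4 (by positivity))

/-- if `f = 0` a.e. outside a set of finite measure then `f ∈ L^r` for `1 ≤ r ≤ 4` -/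
theorem memLp_of_support (f : L4) {E : Set E4} (hEm : MeasurableSet E) (hE : volume E < ⊤)
    (h0 : ∀ᵐ p ∂(volume : Measure E4), p ∉ E → f p = 0) {r : ℝ≥0∞} (hr : r ≤ 4) :
    MemLp f r (volume : Measure E4) := by
  haveI : IsFiniteMeasure ((volume : Measure E4).restrict E) := ⟨by simpa using hE⟩
  have h : MemLp f r ((volume : Measure E4).restrict E) :=
    ((Lp.memLp f).restrict E).mono_exponent hr
  rw [← memLp_indicator_iff_restrict hEm] at h
  refine MemLp.ae_eq ?_ h
  filter_upwards [h0] with p hp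
  by_cases hpE : p ∈ E
  · rw [indicator_of_mem hpE]
  · rw [indicator_of_notMem hpE, hp hpE]

/-- `u ∈ L⁴ ⇒ u³ ∈ L^{4/3}` -/
theorem memLp_cube (f : L4) :
    MemLp (fun p => f p ^ 3) (ENNReal.ofReal (4 / 3)) (volume : Measure E4) := by
  have hm : AEStronglyMeasurable (fun p => f p ^ 3) (volume : Measure E4) :=
    (Lp.aestronglyMeasurable f).pow 3
  rw [← integrable_norm_rpow_iff hm (by simp) (by simp)]
  refine (integrable_pow4 f).congr (Eventually.of_forall fun p => ?_)
  simp only
  rw [ENNReal.toReal_ofReal (by norm_num), norm_pow, ← Real.rpow_natCast ‖f p‖ 3,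
    ← Real.rpow_mul (norm_nonneg _)]
  have e : ((3 : ℕ) : ℝ) * (4 / 3) = ((4 : ℕ) : ℝ) := by norm_num
  rw [e, Real.rpow_natCast, Real.norm_eq_abs]
  exact (Even.pow_abs (by decide) _).symm

theorem hol_holderConj_43 : ENNReal.HolderTriple (ENNReal.ofReal (4 / 3)) 4 1 := by
  refine ⟨?_⟩
  have h4 : (4 : ℝ≥0∞) = ENNReal.ofReal 4 := by norm_num
  rw [h4, ← ENNReal.ofReal_inv_of_pos (by norm_num), ← ENNReal.ofReal_inv_of_pos (by norm_num),
    ← ENNReal.ofReal_add (by norm_num) (by norm_num)]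
  norm_num

/-- `L^{4/3}`–`L⁴` duality -/
theorem integrable_mul_43 {f : E4 → ℝ} (hf : MemLp f (ENNReal.ofReal (4 / 3)) volume) (g : L4) :
    Integrable (fun p => f p * g p) (volume : Measure E4) := by
  haveI := hol_holderConj_43
  exact MemLp.integrable_mul hf (Lp.memLp g)

end Pool.Agent.H57.BN
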