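import Pool.Agent.H57.BN.Base
import Pool.Agent.H57.BN.Hol

set_option autoImplicit false

open MeasureTheory Filter Topology Metric Set
open scoped ENNReal NNReal ContDiff

namespace Pool.Agent.H57.BN

theorem hardy_hasFDeriv_rho (p : E4) :
    HasFDerivAt (fun p : E4 => 1 - ‖p‖ ^ 2) (-((2:ℝ) • innerSL ℝ p)) p := by
  have h1 : HasFDerivAt (fun p : E4 => ‖p‖ ^ 2) ((2:ℝ) • innerSL ℝ p) p := by
    have := (hasStrictFDerivAt_norm_sq p).hasFDerivAt
    simpa [two_smul] using this
  exact h1.const_sub 1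

theorem hardy_grad_rho (p : E4) : gradient (fun p : E4 => 1 - ‖p‖ ^ 2) p = -((2:ℝ) • p) := by
  rw [gradient, (hardy_hasFDeriv_rho p).fderiv, map_neg, map_smul]
  congr 2
  rw [LinearIsometryEquiv.symm_apply_eq]
  ext v
  simp

theorem hardy_contDiff_rho : ContDiff ℝ ∞ (fun p : E4 => 1 - ‖p‖ ^ 2) :=
  contDiff_const.sub (contDiff_norm_sq ℝ)

theorem hardy_grad_mul {χ φ : E4 → ℝ} (hχ : Differentiable ℝ χ) (hφ : Differentiable ℝ φ)
    (p : E4) : gradient (fun p => χ p * φ p) p = χ p • gradient φ p + φ p • gradient χ p := by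
  rw [gradient, gradient, gradient, fderiv_fun_mul hχ.differentiableAt hφ.differentiableAt]
  simp [map_add]

theorem hardy_coord_contDiff (i : Fin 4) : ContDiff ℝ ∞ (fun p : E4 => p i) :=
  (EuclideanSpace.proj (𝕜 := ℝ) i : E4 →L[ℝ] ℝ).contDiff

theorem hardy_grad_coord (i : Fin 4) (p : E4) :
    gradient (fun p : E4 => p i) p i = 1 := by
  rw [gradient_coord]
  have h : fderiv ℝ (fun p : E4 => p i) p = (EuclideanSpace.proj (𝕜 := ℝ) i : E4 →L[ℝ] ℝ) :=
    (EuclideanSpace.proj (𝕜 := ℝ) i : E4 →L[ℝ] ℝ).hasFDerivAt.fderiv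
  rw [h]
  simp

theorem hardy_div (i : Fin 4) (p : E4) :
    gradient (fun p : E4 => (1 - ‖p‖ ^ 2) * p i) p i = (1 - ‖p‖ ^ 2) - 2 * p i ^ 2 := by
  rw [hardy_grad_mul (hardy_contDiff_rho.differentiable (by norm_num))
    ((hardy_coord_contDiff i).differentiable (by norm_num)) p, hardy_grad_rho]
  simp only [PiLp.add_apply, PiLp.smul_apply, PiLp.neg_apply, smul_eq_mul, hardy_grad_coord]
  ring

theorem hardy_norm_sq (p : E4) : ‖p‖ ^ 2 = ∑ i, p i ^ 2 := EuclideanSpace.real_norm_sq_eq p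

/-- integration by parts for the field `(1-|p|²) p` -/
theorem hardy_parts {w : E4 → ℝ} (hw : IsTest B w) :
    ∫ p, (1 - ‖p‖ ^ 2) * inner ℝ p (gradient (fun p => w p * w p) p) =
      - ∫ p, (4 * (1 - ‖p‖ ^ 2) - 2 * ‖p‖ ^ 2) * (w p * w p) := by
  have hw2 : IsTest univ (fun p => w p * w p) :=
    ⟨hw.smooth.mul hw.smooth, hw.comp.mul_left, subset_univ _⟩
  have hψ : ∀ i : Fin 4, ContDiff ℝ ∞ (fun p : E4 => (1 - ‖p‖ ^ 2) * p i) := fun i =>
    hardy_contDiff_rho.mul (hardy_coord_contDiff i)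
  have h1 : ∀ i : Fin 4, ∫ p, ((1 - ‖p‖ ^ 2) - 2 * p i ^ 2) * (w p * w p) =
      - ∫ p : E4, ((1 - ‖p‖ ^ 2) * p i) * (gradient (fun p => w p * w p) p i) := by
    intro i
    have := integral_test_parts hw2 ((hψ i).of_le (by norm_cast)) i
    simpa only [hardy_div] using this
  have hc2 : Continuous (fun p => w p * w p) := hw2.smooth.continuous
  have i1 : ∀ i : Fin 4, Integrable (fun p : E4 => ((1 - ‖p‖ ^ 2) - 2 * p i ^ 2) * (w p * w p))
      (volume : Measure E4) := by
    intro i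
    refine Continuous.integrable_of_hasCompactSupport ?_ (hw2.comp.mul_left)
    have : Continuous (fun p : E4 => p i) := (hardy_coord_contDiff i).continuous
    fun_prop
  have i2 : ∀ i : Fin 4, Integrable (fun p : E4 => ((1 - ‖p‖ ^ 2) * p i) *
      (gradient (fun p => w p * w p) p i)) (volume : Measure E4) := by
    intro i
    obtain ⟨c1, c2⟩ := hw2.grad_coord_cont i
    exact ((hψ i).continuous.mul c1).integrable_of_hasCompactSupport c2.mul_left
  have h2 : ∫ p, (1 - ‖p‖ ^ 2) * inner ℝ p (gradient (fun p => w p * w p) p) =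
      ∑ i : Fin 4, ∫ p : E4, ((1 - ‖p‖ ^ 2) * p i) * (gradient (fun p => w p * w p) p i) := by
    rw [← integral_finsetSum _ (fun i _ => i2 i)]
    refine integral_congr_ae (Eventually.of_forall fun p => ?_)
    simp only
    rw [PiLp.inner_apply, Finset.mul_sum]
    refine Finset.sum_congr rfl (fun i _ => ?_)
    simp
    ring
  have h3 : ∫ p, (4 * (1 - ‖p‖ ^ 2) - 2 * ‖p‖ ^ 2) * (w p * w p) =
      ∑ i : Fin 4, ∫ p : E4, ((1 - ‖p‖ ^ 2) - 2 * p i ^ 2) * (w p * w p) := by
    rw [← integral_finsetSum _ (fun i _ => i1 i)]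
    refine integral_congr_ae (Eventually.of_forall fun p => ?_)
    simp only
    rw [← Finset.sum_mul, Finset.sum_sub_distrib, ← Finset.mul_sum, ← hardy_norm_sq]
    simp only [Finset.sum_const, Finset.card_univ, Fintype.card_fin, nsmul_eq_mul]
    norm_num
  rw [h2, h3, ← Finset.sum_neg_distrib]
  refine Finset.sum_congr rfl (fun i _ => ?_)
  rw [h1 i, neg_neg]

/-- Hardy for test functions -/
theorem hardy_test {φ : E4 → ℝ} (hφ : IsTest B φ) :
    ∫⁻ p in B, ENNReal.ofReal (φ p ^ 2 / (1 - ‖p‖ ^ 2) ^ 2) ≤ ENNReal.ofReal (‖toD hφ‖ ^ 2) := by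
  set w : E4 → ℝ := fun p => φ p * (1 - ‖p‖ ^ 2)⁻¹ with hwdef
  have hsupp : tsupport w ⊆ tsupport φ := tsupport_mul_subset_left
  have hB : ∀ p ∈ B, 0 < 1 - ‖p‖ ^ 2 := by
    intro p hp
    have : ‖p‖ < 1 := by simpa using hp
    nlinarith [norm_nonneg p]
  have hw : IsTest B w := by
    refine ⟨?_, hφ.comp.mul_right, hsupp.trans hφ.supp⟩
    refine contDiff_iff_contDiffAt.2 (fun p => ?_)
    by_cases hp : p ∈ tsupport w
    · have hpB := hφ.supp (hsupp hp)
      exact hφ.smooth.contDiffAt.mul (hardy_contDiff_rho.contDiffAt.inv (hB p hpB).ne')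
    · exact contDiffAt_const.congr_of_eventuallyEq (notMem_tsupport_iff_eventuallyEq.1 hp)
  have hφw : φ = fun p => (1 - ‖p‖ ^ 2) * w p := by
    ext p
    by_cases hp : p ∈ B
    · simp only [hwdef]
      field_simp [(hB p hp).ne']
    · have : φ p = 0 := image_eq_zero_of_notMem_tsupport fun h' => hp (hφ.supp h')
      simp [hwdef, this]
  have hdw : Differentiable ℝ w := hw.smooth.differentiable (by norm_num)
  have hgφ : ∀ p, gradient φ p = (1 - ‖p‖ ^ 2) • gradient w p + w p • (-((2:ℝ) • p)) := by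
    intro p
    conv_lhs => rw [hφw]
    rw [hardy_grad_mul (hardy_contDiff_rho.differentiable (by norm_num)) hdw p, hardy_grad_rho]
  have hgw2 : ∀ p, gradient (fun p => w p * w p) p = (2 * w p) • gradient w p := by
    intro p
    rw [hardy_grad_mul hdw hdw p, ← add_smul]; ring_nf
  have cw := hw.smooth.continuous
  have cgw : Continuous (gradient w) := continuous_gradient (hw.smooth.of_le (by norm_cast))
  have cgφ : Continuous (gradient φ) := continuous_gradient (hφ.smooth.of_le (by norm_cast))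
  have kw : HasCompactSupport (fun p => w p * w p) := hw.comp.mul_left
  have cw2 : Continuous (fun p => w p * w p) := cw.mul cw
  have igφ : Integrable (fun p => ‖gradient φ p‖ ^ 2) (volume : Measure E4) :=
    (memLp_two_iff_integrable_sq_norm cgφ.aestronglyMeasurable).1 hφ.memGrad
  have i1 : Integrable (fun p : E4 => (1 - ‖p‖ ^ 2) * inner ℝ p (gradient (fun p => w p * w p) p))
      (volume : Measure E4) := by
    have hw2 : IsTest univ (fun p => w p * w p) :=
      ⟨hw.smooth.mul hw.smooth, hw.comp.mul_left, subset_univ _⟩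
    have cg2 : Continuous (gradient (fun p => w p * w p)) :=
      continuous_gradient (hw2.smooth.of_le (by norm_cast))
    refine Continuous.integrable_of_hasCompactSupport (by fun_prop) ?_
    have k1 : HasCompactSupport (gradient (fun p => w p * w p)) :=
      hasCompactSupport_gradient hw2.comp
    refine HasCompactSupport.mul_left ?_
    refine k1.mono (fun p hp => ?_)
    rw [Function.mem_support] at hp ⊢
    intro h0
    exact hp (by rw [h0, inner_zero_right])
  have i2 : Integrable (fun p : E4 => ‖p‖ ^ 2 * (w p * w p)) (volume : Measure E4) :=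
    Continuous.integrable_of_hasCompactSupport (by fun_prop) kw.mul_left
  have i3 : Integrable (fun p : E4 => (4 * (1 - ‖p‖ ^ 2) - 2 * ‖p‖ ^ 2) * (w p * w p))
      (volume : Measure E4) :=
    Continuous.integrable_of_hasCompactSupport (by fun_prop) kw.mul_left
  have i4 : Integrable (fun p : E4 => w p * w p) (volume : Measure E4) :=
    cw2.integrable_of_hasCompactSupport kw
  -- main identity
  have hpt : ∀ p, 0 ≤ ‖gradient φ p‖ ^ 2 +
      ((1 - ‖p‖ ^ 2) * inner ℝ p (gradient (fun p => w p * w p) p) - 3 * (‖p‖ ^ 2 * (w p * w p))) := by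
    intro p
    have h1 : 0 ≤ ‖gradient φ p + w p • p‖ ^ 2 := by positivity
    have h2 : ‖gradient φ p + w p • p‖ ^ 2 = ‖gradient φ p‖ ^ 2 +
        ((1 - ‖p‖ ^ 2) * inner ℝ p (gradient (fun p => w p * w p) p) -
          3 * (‖p‖ ^ 2 * (w p * w p))) := by
      rw [norm_add_sq_real, hgw2, real_inner_smul_right, real_inner_smul_right]
      have h3 : inner ℝ (gradient φ p) p = (1 - ‖p‖ ^ 2) * inner ℝ p (gradient w p) -
          2 * w p * ‖p‖ ^ 2 := by
        rw [hgφ, inner_add_left, real_inner_smul_left, real_inner_smul_left, inner_neg_left,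
          real_inner_smul_left, real_inner_self_eq_norm_sq, real_inner_comm]
        ring
      rw [h3, norm_smul, Real.norm_eq_abs, mul_pow, sq_abs]
      ring
    rw [← h2]; exact h1
  have hint := integral_nonneg (μ := (volume : Measure E4)) (f := fun p => ‖gradient φ p‖ ^ 2 +
      ((1 - ‖p‖ ^ 2) * inner ℝ p (gradient (fun p => w p * w p) p) - 3 * (‖p‖ ^ 2 * (w p * w p)))) hpt
  have hint2 : ∫ p, (‖gradient φ p‖ ^ 2 +
      ((1 - ‖p‖ ^ 2) * inner ℝ p (gradient (fun p => w p * w p) p) -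
        3 * (‖p‖ ^ 2 * (w p * w p)))) = (∫ p, ‖gradient φ p‖ ^ 2) -
        (∫ p, (4 * (1 - ‖p‖ ^ 2) - 2 * ‖p‖ ^ 2) * (w p * w p)) -
          3 * ∫ p, ‖p‖ ^ 2 * (w p * w p) := by
    have i5 : Integrable (fun p : E4 => (1 - ‖p‖ ^ 2) *
        inner ℝ p (gradient (fun p => w p * w p) p) - 3 * (‖p‖ ^ 2 * (w p * w p)))
        (volume : Measure E4) := i1.sub (i2.const_mul 3)
    rw [integral_add igφ i5, integral_sub i1 (i2.const_mul 3),
      integral_const_mul, hardy_parts hw]
    ring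
  have hfin : ∫ p, w p * w p ≤ ∫ p, ‖gradient φ p‖ ^ 2 := by
    have h5 : ∫ p, w p * w p ≤ (∫ p, (4 * (1 - ‖p‖ ^ 2) - 2 * ‖p‖ ^ 2) * (w p * w p)) +
        3 * ∫ p, ‖p‖ ^ 2 * (w p * w p) := by
      rw [← integral_const_mul, ← integral_add i3 (i2.const_mul 3)]
      refine integral_mono i4 (i3.add (i2.const_mul 3)) (fun p => ?_)
      simp only
      by_cases hp : p ∈ B
      · have h6 := hB p hp
        have h7 : 0 ≤ w p * w p := mul_self_nonneg _
        nlinarith [mul_nonneg h6.le h7]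
      · have h8 : w p = 0 := image_eq_zero_of_notMem_tsupport fun h' => hp (hw.supp h')
        simp [h8]
    have h9 : 0 ≤ (∫ p, ‖gradient φ p‖ ^ 2) -
        (∫ p, (4 * (1 - ‖p‖ ^ 2) - 2 * ‖p‖ ^ 2) * (w p * w p)) -
          3 * ∫ p, ‖p‖ ^ 2 * (w p * w p) := by
      rw [← hint2]; exact hint
    linarith
  have hnorm : ‖toD hφ‖ ^ 2 = ∫ p, ‖gradient φ p‖ ^ 2 := by
    rw [norm_sq]
    refine integral_congr_ae ?_
    filter_upwards [gr_toD_ae hφ] with p hp
    rw [hp]
  calc ∫⁻ p in B, ENNReal.ofReal (φ p ^ 2 / (1 - ‖p‖ ^ 2) ^ 2)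
      = ∫⁻ p in B, ENNReal.ofReal (w p * w p) := by
        refine setLIntegral_congr_fun measurableSet_ball (fun p _ => ?_)
        simp only [hwdef]
        congr 1
        rw [div_eq_mul_inv, ← inv_pow]; ring
    _ ≤ ∫⁻ p, ENNReal.ofReal (w p * w p) := setLIntegral_le_lintegral _ _
    _ = ENNReal.ofReal (∫ p, w p * w p) :=
        (ofReal_integral_eq_lintegral_ofReal i4
          (Eventually.of_forall fun p => mul_self_nonneg _)).symm
    _ ≤ ENNReal.ofReal (‖toD hφ‖ ^ 2) := by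
        rw [hnorm]; exact ENNReal.ofReal_le_ofReal hfin

/-- Hardy's inequality in the unit ball (test functions: vector field `p/(1-|p|²)`, whose divergence
minus square is `(4-3|p|²)/(1-|p|²)² ≥ 1/(1-|p|²)²`; general case by Fatou). -/
theorem hardy {x : D} (hx : x ∈ H B) :
    IntegrableOn (fun p => fn x p ^ 2 / (1 - ‖p‖ ^ 2) ^ 2) B (volume : Measure E4) ∧
    ∫ p in B, fn x p ^ 2 / (1 - ‖p‖ ^ 2) ^ 2 ≤ ‖x‖ ^ 2 := by
  obtain ⟨φ, hφ, hlim, h1, -⟩ := exists_test_ae hx
  have hm : Measurable (fn x) := (Lp.stronglyMeasurable (fn x)).measurable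
  have hmeas : ∀ f : E4 → ℝ, Measurable f →
      Measurable (fun p : E4 => f p ^ 2 / (1 - ‖p‖ ^ 2) ^ 2) := by
    intro f hf
    fun_prop
  have h3 : ∫⁻ p in B, ENNReal.ofReal (fn x p ^ 2 / (1 - ‖p‖ ^ 2) ^ 2) ≤
      ENNReal.ofReal (‖x‖ ^ 2) := by
    have h4 : Tendsto (fun n => ENNReal.ofReal (‖toD (hφ n)‖ ^ 2)) atTop
        (𝓝 (ENNReal.ofReal (‖x‖ ^ 2))) := ENNReal.tendsto_ofReal (hlim.norm.pow 2)
    rw [← h4.liminf_eq]
    refine le_trans ?_ (liminf_le_liminf (Eventually.of_forall fun n => hardy_test (hφ n)))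
    refine le_trans ?_ (lintegral_liminf_le (fun n => ?_))
    · refine lintegral_mono_ae (ae_restrict_of_ae ?_)
      filter_upwards [h1] with p hp
      exact ((ENNReal.tendsto_ofReal ((hp.pow 2).div_const _)).liminf_eq).ge
    · exact (hmeas _ (hφ n).smooth.continuous.measurable).ennreal_ofReal
  have hnn : ∀ p : E4, 0 ≤ fn x p ^ 2 / (1 - ‖p‖ ^ 2) ^ 2 := fun p => by positivity
  have hint : IntegrableOn (fun p => fn x p ^ 2 / (1 - ‖p‖ ^ 2) ^ 2) B (volume : Measure E4) := by
    refine ⟨(hmeas _ hm).aestronglyMeasurable, ?_⟩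
    rw [hasFiniteIntegral_iff_ofReal (Eventually.of_forall hnn)]
    exact h3.trans_lt ENNReal.ofReal_lt_top
  refine ⟨hint, ?_⟩
  rw [← ofReal_integral_eq_lintegral_ofReal hint (Eventually.of_forall hnn)] at h3
  exact (ENNReal.ofReal_le_ofReal_iff (by positivity)).1 h3

end Pool.Agent.H57.BN
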