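import Pool.Agent.H57.BN.Defs

set_option autoImplicit false

open MeasureTheory Filter Topology Metric Set
open scoped ENNReal NNReal ContDiff

namespace Pool.Agent.H57.BN

theorem volume_ball_E4 (x : E4) {r : ℝ} (hr : 0 ≤ r) :
    volume (ball x r) = ENNReal.ofReal (Real.pi ^ 2 / 2 * r ^ 4) := by
  rw [InnerProductSpace.volume_ball_of_dim_even (k := 2) (by simp) x]
  rw [← ENNReal.ofReal_pow hr, ← ENNReal.ofReal_mul (by positivity)]
  congr 1
  simp [Nat.factorial]
  ring

theorem volume_closedBall_E4 (x : E4) {r : ℝ} (hr : 0 ≤ r) :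
    volume (closedBall x r) = ENNReal.ofReal (Real.pi ^ 2 / 2 * r ^ 4) := by
  rw [Measure.addHaar_closedBall_eq_addHaar_ball, volume_ball_E4 x hr]

/-- Lebesgue differentiation, `|B_r| = π² r⁴ / 2` in `ℝ⁴`. -/
theorem leb_lower {u : E4 → ℝ} (hu : LocallyIntegrable u volume) {E : Set E4} {a : E4 → ℝ}
    (h : ∀ x ∈ E, ∀ᶠ r in 𝓝[>] (0:ℝ), a x ≤ 8 * (r ^ 4)⁻¹ * ∫ p in ball x r, u p) :
    ∀ᵐ x ∂(volume : Measure E4), x ∈ E → a x ≤ 4 * Real.pi ^ 2 * u x := by
  have h1 := IsUnifLocDoublingMeasure.ae_tendsto_average (volume : Measure E4) hu 1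
  filter_upwards [h1] with x hx hxE
  have h2 : Tendsto (fun r : ℝ => ⨍ y in closedBall x r, u y) (𝓝[>] (0:ℝ)) (𝓝 (u x)) := by
    refine hx (fun _ => x) (fun r => r) tendsto_id ?_
    filter_upwards [self_mem_nhdsWithin] with r hr
    rw [one_mul]
    exact mem_closedBall_self (le_of_lt hr)
  have h3 : Tendsto (fun r : ℝ => 4 * Real.pi ^ 2 * ⨍ y in closedBall x r, u y) (𝓝[>] (0:ℝ))
      (𝓝 (4 * Real.pi ^ 2 * u x)) := h2.const_mul _
  refine ge_of_tendsto h3 ?_
  filter_upwards [h x hxE, self_mem_nhdsWithin] with r hr hr0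
  have hr0' : (0:ℝ) < r := hr0
  refine hr.trans (le_of_eq ?_)
  rw [setAverage_eq, Measure.real, volume_closedBall_E4 x hr0'.le,
    ENNReal.toReal_ofReal (by positivity), smul_eq_mul]
  have e : ∫ y in closedBall x r, u y = ∫ y in ball x r, u y := by
    apply setIntegral_congr_set
    exact (ae_eq_of_subset_of_measure_ge ball_subset_closedBall
      (Measure.addHaar_closedBall_eq_addHaar_ball _ _ _).le
      measurableSet_ball.nullMeasurableSet measure_closedBall_lt_top.ne).symm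
  rw [e]
  have hpi : Real.pi ≠ 0 := Real.pi_ne_zero
  field_simp
  ring

end Pool.Agent.H57.BN
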