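import Pool.Agent.H57.BN.Comp

set_option autoImplicit false

open MeasureTheory Filter Topology Metric Set
open scoped ENNReal NNReal ContDiff

namespace Pool.Agent.H57.BN

theorem hasDerivAt_max_sq (t : ℝ) : HasDerivAt (fun t : ℝ => (max t 0) ^ 2) (2 * max t 0) t := by
  rcases lt_trichotomy t 0 with h | h | h
  · rw [max_eq_right h.le, mul_zero]
    have h1 : (fun t : ℝ => (max t 0) ^ 2) =ᶠ[𝓝 t] fun _ => 0 := by
      filter_upwards [gt_mem_nhds h] with s hs
      rw [max_eq_right hs.le]; norm_num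
    exact (hasDerivAt_const t (0:ℝ)).congr_of_eventuallyEq h1
  · subst h
    rw [max_self, mul_zero]
    rw [hasDerivAt_iff_isLittleO_nhds_zero]
    simp only [zero_add, max_self, smul_zero, sub_zero]
    have h1 : (fun h : ℝ => (max h 0) ^ 2 - 0 ^ 2) =O[𝓝 0] fun h : ℝ => h ^ 2 := by
      apply Asymptotics.IsBigO.of_bound 1
      filter_upwards with h
      rw [one_mul, Real.norm_eq_abs, Real.norm_eq_abs]
      apply abs_le_abs_of_nonneg
      · rw [zero_pow (by norm_num), sub_zero]; positivity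
      · rw [zero_pow (by norm_num), sub_zero]
        rcases le_total h 0 with h0 | h0
        · rw [max_eq_right h0, zero_pow (by norm_num)]; exact sq_nonneg h
        · rw [max_eq_left h0]
    have h2 : (fun h : ℝ => h ^ 2) =o[𝓝 0] fun h : ℝ => h := by
      simpa using (Asymptotics.isLittleO_pow_id (𝕜 := ℝ) (n := 2) (by norm_num))
    exact h1.trans_isLittleO h2
  · rw [max_eq_left h.le]
    have h1 : (fun t : ℝ => (max t 0) ^ 2) =ᶠ[𝓝 t] fun t => t ^ 2 := by
      filter_upwards [lt_mem_nhds h] with s hs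
      rw [max_eq_left hs.le]
    have h2 : HasDerivAt (fun t : ℝ => t ^ 2) (2 * t) t := by simpa using hasDerivAt_pow 2 t
    exact h2.congr_of_eventuallyEq h1

/-- smooth approximation of the positive part -/
noncomputable def Fe (ε t : ℝ) : ℝ := Real.sqrt ((max t 0) ^ 2 + ε ^ 2) - ε

theorem hasDerivAt_Fe {ε : ℝ} (hε : 0 < ε) (t : ℝ) :
    HasDerivAt (Fe ε) (max t 0 / Real.sqrt ((max t 0) ^ 2 + ε ^ 2)) t := by
  have h1 := ((hasDerivAt_max_sq t).add_const (ε ^ 2)).sqrt (by positivity)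
  have h2 := h1.sub_const ε
  rw [mul_div_mul_left _ _ (by norm_num : (2:ℝ) ≠ 0)] at h2
  exact h2

theorem contDiff_Fe {ε : ℝ} (hε : 0 < ε) : ContDiff ℝ 1 (Fe ε) := by
  rw [contDiff_one_iff_deriv]
  refine ⟨fun t => (hasDerivAt_Fe hε t).differentiableAt, ?_⟩
  have : deriv (Fe ε) = fun t => max t 0 / Real.sqrt ((max t 0) ^ 2 + ε ^ 2) := by
    ext t; exact (hasDerivAt_Fe hε t).deriv
  rw [this]
  apply Continuous.div (by fun_prop) (by fun_prop)
  intro t
  positivity

theorem abs_deriv_Fe_le {ε : ℝ} (hε : 0 < ε) (t : ℝ) : |deriv (Fe ε) t| ≤ 1 := by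
  rw [(hasDerivAt_Fe hε t).deriv, abs_of_nonneg (by positivity), div_le_one (by positivity)]
  apply Real.le_sqrt_of_sq_le
  nlinarith [sq_nonneg ε]

theorem Fe_zero {ε : ℝ} (hε : 0 < ε) : Fe ε 0 = 0 := by
  rw [Fe, max_self, zero_pow (by norm_num), zero_add, Real.sqrt_sq hε.le, sub_self]

theorem posPart_aux {Ω : Set E4} (hΩ : IsOpen Ω) {x : D} (hx : x ∈ H Ω) : ∃ y ∈ H Ω,
    (fn y =ᵐ[volume] fun p => max (fn x p) 0) ∧
    (gr y =ᵐ[volume] fun p => (if 0 < fn x p then (1:ℝ) else 0) • gr x p) := by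
  have hpos : ∀ n : ℕ, (0:ℝ) < 1 / ((n:ℝ) + 1) := fun n => by positivity
  have hlim0 : Tendsto (fun n : ℕ => 1 / ((n:ℝ) + 1)) atTop (𝓝 0) :=
    tendsto_one_div_add_atTop_nhds_zero_nat
  choose y hy1 hy2 hy3 using fun n : ℕ =>
    exists_comp (contDiff_Fe (hpos n)) (Fe_zero (hpos n)) (abs_deriv_Fe_le (hpos n)) x
  have hm : ∀ n, AEStronglyMeasurable (fun p => gr (y n) p) (volume : Measure E4) := fun n =>
    Lp.aestronglyMeasurable (gr (y n))
  have hset : AEStronglyMeasurable (fun p => (if 0 < fn x p then (1:ℝ) else 0))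
      (volume : Measure E4) := by
    have h1 : Measurable (fun t : ℝ => if 0 < t then (1:ℝ) else 0) :=
      Measurable.ite measurableSet_Ioi measurable_const measurable_const
    exact (h1.comp_aemeasurable (Lp.aestronglyMeasurable (fn x)).aemeasurable).aestronglyMeasurable
  obtain ⟨g1, g2⟩ := tendsto_eLpNorm_of_dom (r := 2) (by norm_num) (by norm_num)
    (G := fun n p => gr (y n) p)
    (g := fun p => (if 0 < fn x p then (1:ℝ) else 0) • gr x p) (b := fun p => ‖gr x p‖)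
    hm (hset.smul (Lp.aestronglyMeasurable (gr x))) (memLp_gr x).norm
    (by
      intro n
      filter_upwards [hy2 n] with p hp
      rw [hp, norm_smul, Real.norm_eq_abs]
      have := abs_deriv_Fe_le (hpos n) (fn x p)
      calc _ ≤ 1 * ‖gr x p‖ := by gcongr
        _ = _ := one_mul _)
    (by
      filter_upwards [ae_all_iff.mpr hy2] with p hp
      simp_rw [hp]
      apply Tendsto.smul_const
      simp_rw [fun n => (hasDerivAt_Fe (hpos n) (fn x p)).deriv]
      by_cases h : 0 < fn x p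
      · rw [if_pos h, max_eq_left h.le]
        have h1 : Tendsto (fun n : ℕ => fn x p / Real.sqrt ((fn x p) ^ 2 + (1 / ((n:ℝ) + 1)) ^ 2))
            atTop (𝓝 (fn x p / Real.sqrt ((fn x p) ^ 2 + 0 ^ 2))) := by
          apply Tendsto.div tendsto_const_nhds
          · exact (Real.continuous_sqrt.tendsto _).comp (tendsto_const_nhds.add (hlim0.pow 2))
          · have : 0 < (fn x p) ^ 2 + 0 ^ 2 := by positivity
            positivity
        convert h1 using 2
        rw [zero_pow (by norm_num), add_zero, Real.sqrt_sq h.le, div_self h.ne']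
      · rw [if_neg h, max_eq_right (not_lt.mp h)]
        simp)
  obtain ⟨z, hz, hz1, hz2, -⟩ := exists_of_tendsto_H (fun n => hy3 n Ω hΩ hx) g1 g2
    (f := fun p => max (fn x p) 0) (by
      filter_upwards [ae_all_iff.mpr hy1] with p hp
      simp_rw [hp]
      have h1 : Tendsto (fun n : ℕ => Real.sqrt ((max (fn x p) 0) ^ 2 + (1 / ((n:ℝ) + 1)) ^ 2) -
          1 / ((n:ℝ) + 1)) atTop (𝓝 (Real.sqrt ((max (fn x p) 0) ^ 2 + 0 ^ 2) - 0)) :=
        ((Real.continuous_sqrt.tendsto _).comp (tendsto_const_nhds.add (hlim0.pow 2))).sub hlim0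
      have h2 : Real.sqrt ((max (fn x p) 0) ^ 2 + 0 ^ 2) - 0 = max (fn x p) 0 := by
        rw [zero_pow (by norm_num), add_zero, sub_zero, Real.sqrt_sq (le_max_right _ _)]
      rw [h2] at h1
      exact h1)
  exact ⟨z, hz, hz1, hz2⟩

/-- positive part: `C¹` approximation `F_ε(t) = √(t²+ε²) - ε` for `t > 0`, `0` for `t ≤ 0`. -/
theorem exists_posPart (x : D) : ∃ y : D,
    (fn y =ᵐ[volume] fun p => max (fn x p) 0) ∧
    (gr y =ᵐ[volume] fun p => (if 0 < fn x p then (1:ℝ) else 0) • gr x p) ∧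
    (∀ Ω : Set E4, IsOpen Ω → x ∈ H Ω → y ∈ H Ω) := by
  obtain ⟨y, -, h1, h2⟩ := posPart_aux isOpen_univ (mem_H_univ x)
  refine ⟨y, h1, h2, ?_⟩
  intro Ω hΩ hx
  obtain ⟨y', hy', h1', -⟩ := posPart_aux hΩ hx
  have : y = y' := D_ext (h1.trans h1'.symm)
  rw [this]
  exact hy'

/-- both parts at once -/
theorem exists_parts (x : D) : ∃ y z : D, x = y - z ∧
    (fn y =ᵐ[volume] fun p => max (fn x p) 0) ∧
    (fn z =ᵐ[volume] fun p => max (-fn x p) 0) ∧
    (gr y =ᵐ[volume] fun p => (if 0 < fn x p then (1:ℝ) else 0) • gr x p) ∧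
    (gr z =ᵐ[volume] fun p => -((if fn x p < 0 then (1:ℝ) else 0) • gr x p)) ∧
    (∀ Ω : Set E4, IsOpen Ω → x ∈ H Ω → y ∈ H Ω ∧ z ∈ H Ω) := by
  obtain ⟨y, hy1, hy2, hy3⟩ := exists_posPart x
  obtain ⟨z, hz1, hz2, hz3⟩ := exists_posPart (-x)
  have hneg : fn (-x) =ᵐ[volume] fun p => -fn x p := by
    rw [map_neg]; exact Lp.coeFn_neg _
  have hgneg : gr (-x) =ᵐ[volume] fun p => -gr x p := by
    have : gr (-x) = - gr x := rfl
    rw [this]; exact Lp.coeFn_neg _
  have hz1' : fn z =ᵐ[volume] fun p => max (-fn x p) 0 := by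
    filter_upwards [hz1, hneg] with p h1 h2
    rw [h1, h2]
  refine ⟨y, z, ?_, hy1, hz1', hy2, ?_, ?_⟩
  · apply D_ext
    rw [map_sub]
    filter_upwards [Lp.coeFn_sub (fn y) (fn z), hy1, hz1'] with p h1 h2 h3
    rw [h1, Pi.sub_apply, h2, h3]
    rcases le_total (fn x p) 0 with h | h
    · rw [max_eq_right h, max_eq_left (by linarith)]; ring
    · rw [max_eq_left h, max_eq_right (by linarith)]; ring
  · filter_upwards [hz2, hneg, hgneg] with p h1 h2 h3
    rw [h1, h2, h3]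
    by_cases h : fn x p < 0
    · rw [if_pos (by linarith), if_pos h, smul_neg]
    · rw [if_neg (by linarith [not_lt.mp h]), if_neg h]; simp
  · intro Ω hΩ hx
    exact ⟨hy3 Ω hΩ hx, hz3 Ω hΩ ((H Ω).neg_mem hx)⟩

/-- the gradient vanishes a.e. on the zero set (`u = u⁺ - (-u)⁺`). -/
theorem gr_zero (x : D) : ∀ᵐ p ∂(volume : Measure E4), fn x p = 0 → gr x p = 0 := by
  obtain ⟨y, z, hx, -, -, hy, hz, -⟩ := exists_parts x
  have h1 : gr x =ᵐ[volume] fun p => gr y p - gr z p := by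
    have : gr x = gr y - gr z := by
      conv_lhs => rw [hx]
      rfl
    rw [this]
    exact Lp.coeFn_sub _ _
  filter_upwards [h1, hy, hz] with p h2 h3 h4 h0
  rw [h2, h3, h4, h0]
  simp

/-- absolute value -/
theorem exists_abs (x : D) : ∃ y : D, (fn y =ᵐ[volume] fun p => |fn x p|) ∧ ‖y‖ = ‖x‖ ∧
    (∀ Ω : Set E4, IsOpen Ω → x ∈ H Ω → y ∈ H Ω) := by
  obtain ⟨y, z, hx, hy1, hz1, hy, hz, hH⟩ := exists_parts x
  refine ⟨y + z, ?_, ?_, ?_⟩
  · rw [map_add]
    filter_upwards [Lp.coeFn_add (fn y) (fn z), hy1, hz1] with p h1 h2 h3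
    rw [h1, Pi.add_apply, h2, h3]
    rcases le_total (fn x p) 0 with h | h
    · rw [max_eq_right h, max_eq_left (by linarith), abs_of_nonpos h]; ring
    · rw [max_eq_left h, max_eq_right (by linarith), abs_of_nonneg h]; ring
  · have h1 : gr (y + z) =ᵐ[volume] fun p => gr y p + gr z p := by
      have : gr (y + z) = gr y + gr z := rfl
      rw [this]; exact Lp.coeFn_add _ _
    have h2 : ‖y + z‖ ^ 2 = ‖x‖ ^ 2 := by
      rw [norm_sq, norm_sq]
      apply integral_congr_ae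
      filter_upwards [h1, hy, hz, gr_zero x] with p h2 h3 h4 h5
      rw [h2, h3, h4]
      rcases lt_trichotomy (fn x p) 0 with h | h | h
      · rw [if_neg (by linarith), if_pos h]; simp
      · rw [h5 h]; simp
      · rw [if_pos h, if_neg (by linarith)]; simp
    exact (sq_eq_sq₀ (norm_nonneg _) (norm_nonneg _)).mp h2
  · intro Ω hΩ hxΩ
    exact (H Ω).add_mem (hH Ω hΩ hxΩ).1 (hH Ω hΩ hxΩ).2

/-- negative part `y = u⁻` with `⟪x, y⟫ = -‖y‖²`. -/
theorem exists_negPart (x : D) : ∃ y : D, (fn y =ᵐ[volume] fun p => max (-fn x p) 0) ∧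
    inner ℝ x y = -‖y‖ ^ 2 ∧ (∀ Ω : Set E4, IsOpen Ω → x ∈ H Ω → y ∈ H Ω) := by
  obtain ⟨y, z, hx, hy1, hz1, hy, hz, hH⟩ := exists_parts x
  refine ⟨z, hz1, ?_, fun Ω hΩ hxΩ => (hH Ω hΩ hxΩ).2⟩
  rw [inner_eq, norm_sq, ← integral_neg]
  apply integral_congr_ae
  filter_upwards [hz] with p h4
  rw [h4]
  by_cases h : fn x p < 0
  · rw [if_pos h, one_smul, norm_neg, inner_neg_right, real_inner_self_eq_norm_sq]
  · rw [if_neg h, zero_smul]; simp

end Pool.Agent.H57.BN
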