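import Pool.Agent.H57.BN.Base
import Pool.Agent.H57.BN.Hol
import Pool.Agent.H57.BN.PosPart

set_option autoImplicit false

open MeasureTheory Filter Topology Metric Set
open scoped ENNReal NNReal ContDiff

namespace Pool.Agent.H57.BN

/-- Solving `-Δw = f` in `H Ω` for `f ∈ L^{4/3}`. -/
theorem exists_riesz (Ω : Set E4) {f : E4 → ℝ} (hf : MemLp f (ENNReal.ofReal (4 / 3)) volume) :
    ∃ w ∈ H Ω, ∀ φ ∈ H Ω, inner ℝ w φ = ∫ p, f p * fn φ p := by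
  obtain ⟨T, hT⟩ := exists_pairing hf
  have hc : CompleteSpace ↥(H Ω) := (isClosed_H Ω).completeSpace_coe
  let ℓ : ↥(H Ω) →L[ℝ] ℝ := (T.comp fn).comp (H Ω).subtypeL
  refine ⟨((InnerProductSpace.toDual ℝ ↥(H Ω)).symm ℓ : ↥(H Ω)), Subtype.coe_prop _,
    fun φ hφ => ?_⟩
  have h1 : inner ℝ ((InnerProductSpace.toDual ℝ ↥(H Ω)).symm ℓ) (⟨φ, hφ⟩ : ↥(H Ω)) =
      ℓ ⟨φ, hφ⟩ := InnerProductSpace.toDual_symm_apply
  have h2 : ℓ ⟨φ, hφ⟩ = T (fn φ) := rfl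
  rw [h2, hT] at h1
  have h3 : inner ℝ ((InnerProductSpace.toDual ℝ ↥(H Ω)).symm ℓ) (⟨φ, hφ⟩ : ↥(H Ω)) =
      inner ℝ ((InnerProductSpace.toDual ℝ ↥(H Ω)).symm ℓ : D) φ := rfl
  rw [← h3, h1]
  refine integral_congr_ae (Eventually.of_forall fun p => ?_)
  simp only
  ring

/-- `f ≥ 0 ⇒ w ≥ 0` (test with the negative part). -/
theorem riesz_nonneg {Ω : Set E4} (hΩ : IsOpen Ω) {f : E4 → ℝ}
    (hf : MemLp f (ENNReal.ofReal (4 / 3)) volume) (hf0 : 0 ≤ᵐ[volume] f) {w : D} (hw : w ∈ H Ω)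
    (h : ∀ φ ∈ H Ω, inner ℝ w φ = ∫ p, f p * fn φ p) : 0 ≤ᵐ[volume] (fn w : E4 → ℝ) := by
  obtain ⟨y, hy, hwy, hyΩ⟩ := exists_negPart w
  have h1 := h y (hyΩ Ω hΩ hw)
  have h2 : 0 ≤ ∫ p, f p * fn y p := by
    refine integral_nonneg_of_ae ?_
    filter_upwards [hf0, hy] with p hp hp2
    rw [hp2]
    exact mul_nonneg hp (le_max_right _ _)
  rw [← h1, hwy] at h2
  have h3 : ‖y‖ = 0 := by
    have : ‖y‖ ^ 2 = 0 := le_antisymm (by linarith) (by positivity)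
    exact pow_eq_zero_iff (by norm_num) |>.1 this
  have h4 : fn y = 0 := by
    rw [norm_eq_zero.1 h3, map_zero]
  rw [h4] at hy
  filter_upwards [hy, Lp.coeFn_zero ℝ 4 (volume : Measure E4)] with p hp hp2
  rw [hp2] at hp
  have h5 : max (-fn w p) 0 = 0 := by
    rw [← hp]; rfl
  have h6 : -fn w p ≤ 0 := by
    rw [← h5]; exact le_max_left _ _
  change (0 : ℝ) ≤ fn w p
  linarith

end Pool.Agent.H57.BN
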