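import Pool.Agent.H57.BN.KB
import Pool.Agent.H57.BN.LebDiff
import Pool.Agent.H57.BN.Riesz

set_option autoImplicit false

open MeasureTheory Filter Topology Metric Set
open scoped ENNReal NNReal ContDiff

namespace Pool.Agent.H57.BN

/-- kernel lower bound in the unit ball -/
theorem kerB {w : D} (hw : w ∈ H B) {f : E4 → ℝ} (hf : MemLp f (ENNReal.ofReal (4 / 3)) volume)
    (hf0 : 0 ≤ᵐ[volume] f) (h : ∀ φ ∈ H B, inner ℝ w φ = ∫ p, f p * fn φ p) :
    ∀ᵐ x ∂(volume : Measure E4), x ∈ B →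
      (1 / (80 * Real.pi ^ 2)) * (1 - ‖x‖ ^ 2) * ∫ p in B, f p * (1 - ‖p‖ ^ 2) ≤ fn w x := by
  have hloc : LocallyIntegrable (fn w : E4 → ℝ) volume :=
    (memLp_fn w).locallyIntegrable (by norm_num)
  have hfin : IsFiniteMeasure ((volume : Measure E4).restrict B) :=
    ⟨by rw [Measure.restrict_apply_univ]; exact measure_ball_lt_top⟩
  have hfB : Integrable f ((volume : Measure E4).restrict B) :=
    (hf.restrict B).integrable fact_one_le_43.out
  have hgB : Integrable (fun p => f p * (1 - ‖p‖ ^ 2)) ((volume : Measure E4).restrict B) := by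
    refine hfB.mul_bdd (c := 1) ?_ ?_
    · exact (by fun_prop : Continuous fun p : E4 => 1 - ‖p‖ ^ 2).aestronglyMeasurable
    · filter_upwards [ae_restrict_mem measurableSet_ball] with p hp
      have h1 : ‖p‖ < 1 := mem_ball_zero_iff.1 hp
      have h2 := norm_nonneg p
      rw [Real.norm_eq_abs, abs_le]
      constructor <;> nlinarith
  set I : ℝ := ∫ p in B, f p * (1 - ‖p‖ ^ 2) with hI
  have key : ∀ x ∈ B, ∀ᶠ r in 𝓝[>] (0:ℝ),
      (1 - ‖x‖ ^ 2) / 20 * I ≤ 8 * (r ^ 4)⁻¹ * ∫ p in ball x r, fn w p := by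
    intro x hxB
    have hx : ‖x‖ < 1 := mem_ball_zero_iff.1 hxB
    have hx0 := norm_nonneg x
    have hx2 : 0 < 1 - ‖x‖ ^ 2 := by nlinarith
    have h1 : ∀ᶠ r in 𝓝[>] (0:ℝ), r < (1 - ‖x‖) / 2 :=
      mem_nhdsWithin_of_mem_nhds (Iio_mem_nhds (by linarith))
    filter_upwards [h1, self_mem_nhdsWithin] with r hr1 hr0
    have hr : 0 < r := hr0
    have hrx : 2 * r < 1 - ‖x‖ := by linarith
    obtain ⟨k, hkH, hkf, hk⟩ := exists_KB hx hr hrx
    rw [← hk w hw, real_inner_comm, h k hkH]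
    have hint : Integrable (fun p => f p * fn k p) volume := (memLp_fn k).integrable_mul hf |>.congr
      (Eventually.of_forall fun p => mul_comm _ _)
    have e1 : ∫ p, f p * fn k p = ∫ p in B, f p * Kf r x p := by
      rw [← integral_indicator measurableSet_ball]
      refine integral_congr_ae ?_
      filter_upwards [hkf] with p hp
      rw [hp]
      by_cases hpB : p ∈ B
      · rw [indicator_of_mem hpB, indicator_of_mem hpB]
      · rw [indicator_of_notMem hpB, indicator_of_notMem hpB, mul_zero]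
    have hint2 : Integrable (fun p => f p * Kf r x p) ((volume : Measure E4).restrict B) := by
      refine hint.restrict.congr ?_
      filter_upwards [ae_restrict_of_ae hkf, ae_restrict_mem measurableSet_ball] with p hp hpB
      rw [hp, indicator_of_mem hpB]
    rw [e1, hI, ← integral_const_mul]
    refine integral_mono_ae (hgB.const_mul _) hint2 ?_
    filter_upwards [ae_restrict_of_ae hf0, ae_restrict_mem measurableSet_ball] with p hp hpB
    have hp1 : ‖p‖ < 1 := mem_ball_zero_iff.1 hpB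
    have h2 := mul_le_mul_of_nonneg_left (Kf_lower hx hr hrx hp1) hp
    calc (1 - ‖x‖ ^ 2) / 20 * (f p * (1 - ‖p‖ ^ 2)) =
          f p * ((1 - ‖x‖ ^ 2) * (1 - ‖p‖ ^ 2) / 20) := by ring
      _ ≤ _ := h2
  have h3 := leb_lower hloc (E := B) (a := fun x => (1 - ‖x‖ ^ 2) / 20 * I) key
  filter_upwards [h3] with x hx hxB
  have h4 := hx hxB
  have hpi : 0 < Real.pi ^ 2 := by positivity
  have h5 : (1 / (80 * Real.pi ^ 2)) * (1 - ‖x‖ ^ 2) * I =
      (1 / (4 * Real.pi ^ 2)) * ((1 - ‖x‖ ^ 2) / 20 * I) := by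
    field_simp
    ring
  rw [h5]
  calc (1 / (4 * Real.pi ^ 2)) * ((1 - ‖x‖ ^ 2) / 20 * I) ≤
        (1 / (4 * Real.pi ^ 2)) * (4 * Real.pi ^ 2 * fn w x) :=
        mul_le_mul_of_nonneg_left h4 (by positivity)
    _ = fn w x := by field_simp

end Pool.Agent.H57.BN
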