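import Pool.Agent.H57.BN.Cvx
import Pool.Agent.H57.BN.KerB
import Pool.Agent.H57.BN.Hardy

set_option autoImplicit false

open MeasureTheory Filter Topology Metric Set
open scoped ENNReal NNReal ContDiff

namespace Pool.Agent.H57.BN

/-- `4t² ≤ (2/k) tρ + k (t²/ρ² + t⁴)` -/
theorem amgm_cost {t ρ k : ℝ} (ht : 0 ≤ t) (hρ : 0 < ρ) (hk : 0 < k) :
    4 * t ^ 2 ≤ 2 / k * (t * ρ) + k * (t ^ 2 / ρ ^ 2 + t ^ 4) := by
  have e : 2 / k * (t * ρ) + k * (t ^ 2 / ρ ^ 2 + t ^ 4) - 4 * t ^ 2 =
      k * (t / ρ - t ^ 2) ^ 2 + 2 * (t * (ρ - k * t) ^ 2 / (k * ρ)) := by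
    field_simp
    ring
  have h : 0 ≤ k * (t / ρ - t ^ 2) ^ 2 + 2 * (t * (ρ - k * t) ^ 2 / (k * ρ)) := by positivity
  linarith

theorem rho_pos {p : E4} (hp : p ∈ B) : 0 < 1 - ‖p‖ ^ 2 := by
  rw [mem_ball_zero_iff] at hp
  have := norm_nonneg p
  nlinarith

theorem integrableOn_mul_rho {f : E4 → ℝ} (hf : IntegrableOn f B (volume : Measure E4)) :
    IntegrableOn (fun p => f p * (1 - ‖p‖ ^ 2)) B (volume : Measure E4) := by
  refine Integrable.mono' hf.abs ?_ ?_
  · refine hf.aestronglyMeasurable.mul ?_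
    have : Continuous fun p : E4 => 1 - ‖p‖ ^ 2 := by fun_prop
    exact this.aestronglyMeasurable
  · refine (ae_restrict_iff' measurableSet_ball).2 (Eventually.of_forall fun p hp => ?_)
    have h1 := rho_pos hp
    have h2 : 1 - ‖p‖ ^ 2 ≤ 1 := by
      have : 0 ≤ ‖p‖ ^ 2 := by positivity
      linarith
    rw [norm_mul, Real.norm_eq_abs, Real.norm_eq_abs, abs_of_pos h1]
    exact mul_le_of_le_one_right (abs_nonneg _) h2

/-- Cost of vanishing on a set, nonnegative case with small energy. -/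
theorem cost_aux {lam : ℝ} (h0 : 0 < lam) (h1 : lam < Lam) (hq : q lam < S) :
    ∃ c : ℝ, 0 < c ∧ ∀ x ∈ H B, ‖fn x‖ = 1 → 0 ≤ᵐ[volume] (fn x : E4 → ℝ) →
      P lam x < (q lam + S) / 2 →
      q lam + c * (volume (B ∩ {p | fn x p = 0})).toReal ≤ P lam x := by
  have hqp := q_pos h0 h1
  have hS : 0 < S := hqp.trans hq
  have hr : 0 < 1 - lam / Lam := by
    have : lam / Lam < 1 := by
      rw [div_lt_one (h0.trans h1)]
      exact h1
    linarith
  set K : ℝ := (q lam + S) / 2 / (1 - lam / Lam) with hK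
  have hKp : 0 < K := by positivity
  set s : ℝ := (S - q lam) / (2 * lam) with hs
  have hsp : 0 < s := by
    have : 0 < S - q lam := by linarith
    positivity
  set k : ℝ := s / (K + 1) with hk
  have hkp : 0 < k := by positivity
  set c₁ : ℝ := 1 / (80 * Real.pi ^ 2) * (lam * (k * s)) with hc₁
  have hc₁p : 0 < c₁ := by
    have := Real.pi_pos
    positivity
  refine ⟨c₁ ^ 2, by positivity, fun x hx hn hx0 hP => ?_⟩
  have hBfin : (volume B : ℝ≥0∞) < ⊤ := measure_ball_lt_top
  have hBm : MeasurableSet (B : Set E4) := measurableSet_ball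
  have hout := fn_outside hBm hx
  -- bounds for the norm and the mass
  have hnorm : ‖x‖ ^ 2 ≤ K := by
    have := P_coer h0 h1 hx
    rw [hK, le_div_iff₀ hr]
    linarith
  have hm2 : s ≤ m2 x := by
    have hSle := S_le x
    rw [hn] at hSle
    have : P lam x = ‖x‖ ^ 2 - lam * m2 x := rfl
    rw [hs, div_le_iff₀ (by positivity)]
    nlinarith
  -- integrability
  have i1 : Integrable (fn x) (volume : Measure E4) := by
    have := memLp_of_support (fn x) hBm hBfin hout (r := 1) (by norm_num)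
    exact memLp_one_iff_integrable.1 this
  have i1B : IntegrableOn (fn x) B (volume : Measure E4) := i1.integrableOn
  have i2 : IntegrableOn (fun p => fn x p ^ 2) B (volume : Measure E4) :=
    integrableOn_sq (fn x) hBfin
  have i4 : IntegrableOn (fun p => fn x p ^ 4) B (volume : Measure E4) :=
    (integrable_pow4 (fn x)).integrableOn
  obtain ⟨iH, hH⟩ := hardy hx
  have iρ := integrableOn_mul_rho i1B
  -- lower bound for the weighted mass
  have hJ : k * s ≤ ∫ p in B, fn x p * (1 - ‖p‖ ^ 2) := by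
    have e1 : m2 x = ∫ p in B, fn x p ^ 2 := by
      rw [m2]
      refine (setIntegral_eq_integral_of_ae_compl_eq_zero ?_).symm
      filter_upwards [hout] with p hp hpB
      rw [hp hpB]; norm_num
    have iHA : IntegrableOn (fun p => fn x p ^ 2 / (1 - ‖p‖ ^ 2) ^ 2 + fn x p ^ 4) B
        (volume : Measure E4) := iH.add i4
    have iK : IntegrableOn (fun p => k * (fn x p ^ 2 / (1 - ‖p‖ ^ 2) ^ 2 + fn x p ^ 4)) B
        (volume : Measure E4) := iHA.const_mul k
    have iR : IntegrableOn (fun p => 2 / k * (fn x p * (1 - ‖p‖ ^ 2))) B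
        (volume : Measure E4) := iρ.const_mul (2 / k)
    have e2 : ∫ p in B, 4 * fn x p ^ 2 ≤ ∫ p in B, (2 / k * (fn x p * (1 - ‖p‖ ^ 2)) +
        k * (fn x p ^ 2 / (1 - ‖p‖ ^ 2) ^ 2 + fn x p ^ 4)) := by
      refine integral_mono_ae (i2.const_mul 4) (iR.add iK) ?_
      have hx0' : ∀ᵐ p ∂((volume : Measure E4).restrict B), 0 ≤ fn x p := ae_restrict_of_ae hx0
      filter_upwards [hx0', ae_restrict_mem hBm] with p hp hpB
      exact amgm_cost hp (rho_pos hpB) hkp
    have e3 : ∫ p in B, (2 / k * (fn x p * (1 - ‖p‖ ^ 2)) +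
        k * (fn x p ^ 2 / (1 - ‖p‖ ^ 2) ^ 2 + fn x p ^ 4)) =
        2 / k * (∫ p in B, fn x p * (1 - ‖p‖ ^ 2)) +
        k * ((∫ p in B, fn x p ^ 2 / (1 - ‖p‖ ^ 2) ^ 2) + ∫ p in B, fn x p ^ 4) := by
      rw [integral_add iR iK, integral_const_mul, integral_const_mul, integral_add iH i4]
    rw [integral_const_mul, ← e1, e3] at e2
    have e4 : ∫ p in B, fn x p ^ 4 ≤ 1 := by
      have : ∫ p in B, fn x p ^ 4 ≤ ∫ p, fn x p ^ 4 :=
        setIntegral_le_integral (integrable_pow4 (fn x)) (Eventually.of_forall fun p => by positivity)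
      rw [← norm4_eq, hn] at this
      linarith
    have e5 : k * ((∫ p in B, fn x p ^ 2 / (1 - ‖p‖ ^ 2) ^ 2) + ∫ p in B, fn x p ^ 4) ≤
        k * (K + 1) := mul_le_mul_of_nonneg_left (by linarith) hkp.le
    have e6 : k * (K + 1) = s := by rw [hk]; field_simp
    have e7 : 3 * s ≤ 2 / k * (∫ p in B, fn x p * (1 - ‖p‖ ^ 2)) := by linarith
    have e8 : 3 * s * k ≤ 2 * (∫ p in B, fn x p * (1 - ‖p‖ ^ 2)) := by
      have := mul_le_mul_of_nonneg_right e7 hkp.le
      have e9 : 2 / k * (∫ p in B, fn x p * (1 - ‖p‖ ^ 2)) * k =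
          2 * (∫ p in B, fn x p * (1 - ‖p‖ ^ 2)) := by field_simp
      linarith
    have e10 : 0 < k * s := by positivity
    linarith
  -- the right-hand side `lam x + q x^3`
  set f : E4 → ℝ := fun p => lam * fn x p + q lam * fn x p ^ 3 with hfdef
  have hf43 : MemLp (fn x) (ENNReal.ofReal (4 / 3)) (volume : Measure E4) := by
    refine memLp_of_support (fn x) hBm hBfin hout ?_
    have h4 : (4 : ℝ≥0∞) = ENNReal.ofReal 4 := by norm_num
    rw [h4]
    exact ENNReal.ofReal_le_ofReal (by norm_num)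
  have hf : MemLp f (ENNReal.ofReal (4 / 3)) volume :=
    (hf43.const_mul lam).add ((memLp_cube (fn x)).const_mul (q lam))
  have hf0 : 0 ≤ᵐ[volume] f := by
    filter_upwards [hx0] with p hp
    have hp' : 0 ≤ fn x p := hp
    change 0 ≤ lam * fn x p + q lam * fn x p ^ 3
    positivity
  have ifB : IntegrableOn f B (volume : Measure E4) := by
    have : IsFiniteMeasure ((volume : Measure E4).restrict B) := ⟨by simpa using hBfin⟩
    have := (hf.restrict B).mono_exponent (p := 1) (by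
      rw [ENNReal.one_le_ofReal]; norm_num)
    exact memLp_one_iff_integrable.1 this
  obtain ⟨w, hw, hwf⟩ := exists_riesz B hf
  have hker := kerB hw hf hf0 hwf
  have hfJ : lam * (k * s) ≤ ∫ p in B, f p * (1 - ‖p‖ ^ 2) := by
    calc lam * (k * s) ≤ lam * ∫ p in B, fn x p * (1 - ‖p‖ ^ 2) :=
          mul_le_mul_of_nonneg_left hJ h0.le
      _ = ∫ p in B, lam * (fn x p * (1 - ‖p‖ ^ 2)) := (integral_const_mul _ _).symm
      _ ≤ ∫ p in B, f p * (1 - ‖p‖ ^ 2) := by
          refine integral_mono_ae (iρ.const_mul _) (integrableOn_mul_rho ifB) ?_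
          have hx0' : ∀ᵐ p ∂((volume : Measure E4).restrict B), 0 ≤ fn x p := ae_restrict_of_ae hx0
          filter_upwards [hx0', ae_restrict_mem hBm] with p hp hpB
          have h3 := rho_pos hpB
          have h4 : 0 ≤ q lam * fn x p ^ 3 * (1 - ‖p‖ ^ 2) := by positivity
          change lam * (fn x p * (1 - ‖p‖ ^ 2)) ≤
            (lam * fn x p + q lam * fn x p ^ 3) * (1 - ‖p‖ ^ 2)
          nlinarith
  have hwlow : ∀ᵐ p ∂(volume : Measure E4), p ∈ B → c₁ * (1 - ‖p‖ ^ 2) ≤ fn w p := by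
    filter_upwards [hker] with p hp hpB
    refine le_trans ?_ (hp hpB)
    have h3 := rho_pos hpB
    have hpi := Real.pi_pos
    calc c₁ * (1 - ‖p‖ ^ 2) = 1 / (80 * Real.pi ^ 2) * (1 - ‖p‖ ^ 2) * (lam * (k * s)) := by
          rw [hc₁]; ring
      _ ≤ _ := mul_le_mul_of_nonneg_left hfJ (by positivity)
  -- the difference
  have hh : x - w ∈ H B := (H B).sub_mem hx hw
  have hcvx := cvx_q h0 h1 hx hn hh
  have hPB : PB lam x (x - w) - q lam * ∫ p, fn x p ^ 3 * fn (x - w) p = ‖x - w‖ ^ 2 := by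
    have i5 := integrable_mul_B hx hh
    have i6 := integrable_cube_mul (fn x) (fn (x - w))
    have e1 : ∫ p, f p * fn (x - w) p = lam * (∫ p, fn x p * fn (x - w) p) +
        q lam * ∫ p, fn x p ^ 3 * fn (x - w) p := by
      have : ∫ p, f p * fn (x - w) p = ∫ p, (lam * (fn x p * fn (x - w) p) +
          q lam * (fn x p ^ 3 * fn (x - w) p)) := by
        refine integral_congr_ae (Eventually.of_forall fun p => ?_)
        simp only [hfdef]
        ring
      rw [this, integral_add (i5.const_mul _) (i6.const_mul _), integral_const_mul,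
        integral_const_mul]
    have e2 := hwf (x - w) hh
    rw [e1] at e2
    rw [PB, ← real_inner_self_eq_norm_sq, inner_sub_left]
    linarith
  rw [hPB] at hcvx
  have hPq : 0 ≤ P lam x - q lam := by
    have := q_le h0 h1 hx
    rw [hn] at this
    linarith
  have hnh : ‖x - w‖ ^ 2 ≤ P lam x - q lam := by
    rcases eq_or_lt_of_le (norm_nonneg (x - w)) with h | h
    · rw [← h]; simpa using hPq
    · have h2 : 0 < ‖x - w‖ ^ 2 := by positivity
      rw [sq] at hcvx
      exact le_of_mul_le_mul_right hcvx h2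
  -- Hardy on the zero set
  obtain ⟨iH2, hH2⟩ := hardy hh
  set Z : Set E4 := B ∩ {p | fn x p = 0} with hZ
  have hZm : MeasurableSet Z :=
    hBm.inter ((Lp.stronglyMeasurable (fn x)).measurable (measurableSet_singleton 0))
  have hZfin : volume Z < ⊤ := lt_of_le_of_lt (measure_mono inter_subset_left) hBfin
  have hZ1 : c₁ ^ 2 * (volume Z).toReal ≤
      ∫ p in Z, fn (x - w) p ^ 2 / (1 - ‖p‖ ^ 2) ^ 2 := by
    have e1 : c₁ ^ 2 * (volume Z).toReal = ∫ _ in Z, c₁ ^ 2 ∂(volume : Measure E4) := by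
      rw [setIntegral_const, smul_eq_mul, mul_comm]; rfl
    rw [e1]
    refine integral_mono_ae (integrableOn_const hZfin.ne) (iH2.mono_set inter_subset_left) ?_
    have hsub : (fn (x - w) : E4 → ℝ) =ᵐ[volume] fun p => fn x p - fn w p := by
      rw [map_sub]
      exact Lp.coeFn_sub _ _
    have ha := ae_restrict_of_ae (s := Z) hsub
    have hb := ae_restrict_of_ae (s := Z) hwlow
    filter_upwards [ha, hb, ae_restrict_mem hZm] with p hp1 hp2 hp3
    have h3 := rho_pos hp3.1
    have h4 := hp2 hp3.1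
    have h5 : fn x p = 0 := hp3.2
    rw [le_div_iff₀ (by positivity), hp1, h5, zero_sub, neg_sq, ← mul_pow]
    exact pow_le_pow_left₀ (by positivity) h4 2
  have hZ2 : ∫ p in Z, fn (x - w) p ^ 2 / (1 - ‖p‖ ^ 2) ^ 2 ≤
      ∫ p in B, fn (x - w) p ^ 2 / (1 - ‖p‖ ^ 2) ^ 2 :=
    setIntegral_mono_set iH2 (Eventually.of_forall fun p => by positivity)
      (inter_subset_left.eventuallyLE)
  linarith

/-- Cost of vanishing on a set. -/
theorem cost {lam : ℝ} (h0 : 0 < lam) (h1 : lam < Lam) (hq : q lam < S) :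
    ∃ c : ℝ, 0 < c ∧ ∀ x ∈ H B, ‖fn x‖ = 1 →
      q lam + c * (volume (B ∩ {p | fn x p = 0})).toReal ≤ P lam x := by
  obtain ⟨c, hc, hcost⟩ := cost_aux h0 h1 hq
  have hBfin : (volume B : ℝ≥0∞) < ⊤ := measure_ball_lt_top
  set V : ℝ := (volume B).toReal + 1 with hV
  have hVp : 0 < V := by
    have : 0 ≤ (volume B).toReal := ENNReal.toReal_nonneg
    linarith
  have hSq : 0 < S - q lam := by linarith
  refine ⟨min c ((S - q lam) / 2 / V), lt_min hc (by positivity), fun x hx hn => ?_⟩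
  have hvol : 0 ≤ (volume (B ∩ {p | fn x p = 0})).toReal := ENNReal.toReal_nonneg
  by_cases hP : P lam x < (q lam + S) / 2
  · obtain ⟨y, hy, hyx, -, hyn, -, -, hyP, -, -⟩ := exists_abs_B hx
    have e1 := hcost y hy (by rw [hyn, hn]) (by
      filter_upwards [hyx] with p hp
      change (0 : ℝ) ≤ fn y p
      rw [hp]; exact abs_nonneg _) (by rw [hyP]; exact hP)
    rw [hyP] at e1
    have e2 : volume (B ∩ {p | fn y p = 0}) = volume (B ∩ {p | fn x p = 0}) := by
      refine measure_congr ?_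
      filter_upwards [hyx] with p hp
      have : (p ∈ B ∩ {p | fn y p = 0}) = (p ∈ B ∩ {p | fn x p = 0}) := by
        simp only [mem_inter_iff, Set.mem_ofPred_eq, hp, abs_eq_zero]
      exact this
    rw [e2] at e1
    have e3 := mul_le_mul_of_nonneg_right (min_le_left c ((S - q lam) / 2 / V)) hvol
    linarith
  · have e1 : (volume (B ∩ {p | fn x p = 0})).toReal ≤ V := by
      have : (volume (B ∩ {p | fn x p = 0})).toReal ≤ (volume B).toReal :=
        ENNReal.toReal_mono hBfin.ne (measure_mono inter_subset_left)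
      linarith
    have e2 := mul_le_mul_of_nonneg_right (min_le_right c ((S - q lam) / 2 / V)) hvol
    have e3 : (S - q lam) / 2 / V * (volume (B ∩ {p | fn x p = 0})).toReal ≤
        (S - q lam) / 2 / V * V := mul_le_mul_of_nonneg_left e1 (by positivity)
    have e4 : (S - q lam) / 2 / V * V = (S - q lam) / 2 := by field_simp
    have e5 := not_lt.1 hP
    linarith

end Pool.Agent.H57.BN
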