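import Pool.Agent.H57.BN.Gain
import Pool.Agent.H57.BN.Cost

set_option autoImplicit false

open MeasureTheory Filter Topology Metric Set
open scoped ENNReal NNReal ContDiff

namespace Pool.Agent.H57.BN

/-- normalisation -/
theorem key_normalize {x : D} (hx : x ∈ H B) (h0 : x ≠ 0) : ∃ y ∈ H B, ‖fn y‖ = 1 ∧
    (∀ lam : ℝ, P lam x ^ 2 / m4 x = P lam y ^ 2) ∧
    (∀ᵐ p ∂(volume : Measure E4), fn y p = 0 ↔ fn x p = 0) := by
  have hne : fn x ≠ 0 := fun h => h0 (fn_inj h)
  have hpos : 0 < ‖fn x‖ := norm_pos_iff.mpr hne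
  refine ⟨‖fn x‖⁻¹ • x, (H B).smul_mem _ hx, ?_, ?_, ?_⟩
  · rw [map_smul, norm_smul, norm_inv, norm_norm, inv_mul_cancel₀ hpos.ne']
  · intro lam
    rw [P_smul, m4_eq, mul_pow]
    field_simp
  · have h1 : fn (‖fn x‖⁻¹ • x) =ᵐ[volume] fun p => ‖fn x‖⁻¹ * fn x p := by
      rw [map_smul]; exact Lp.coeFn_smul _ _
    filter_upwards [h1] with p hp
    rw [hp, mul_eq_zero]
    constructor
    · rintro (h | h)
      · exact absurd h (by positivity)
      · exact h
    · intro h; exact Or.inr h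

/-- KEY: segregated pairs have energy strictly above the threshold. -/
theorem key {lam : ℝ} (h0 : 0 < lam) (h1 : lam < Lam) (hq : q lam < S) :
    ∃ θ0 : ℝ, 0 < θ0 ∧ θ0 < lam ∧ ∀ θ : ℝ, 0 < θ → θ ≤ θ0 → ∀ x ∈ H B, ∀ y ∈ H B, x ≠ 0 → y ≠ 0 →
      (∀ᵐ p ∂(volume : Measure E4), fn x p * fn y p = 0) →
      q lam ^ 2 + S ^ 2 < P lam x ^ 2 / m4 x + P θ y ^ 2 / m4 y := by
  obtain ⟨C, θ1, hC, hθ1, hgain⟩ := gain
  obtain ⟨c, hc, hcost⟩ := cost h0 h1 hq
  have hS := S_pos
  have hqp := q_pos h0 h1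
  set s := Real.sqrt (q lam * c / (2 * S * C)) with hs
  have hs0 : 0 < s := Real.sqrt_pos.mpr (by positivity)
  refine ⟨min θ1 (min (lam / 2) s), by positivity, ?_, ?_⟩
  · exact lt_of_le_of_lt ((min_le_right _ _).trans (min_le_left _ _)) (by linarith)
  intro θ hθ hθ0 x hx y hy hx0 hy0 hxy
  obtain ⟨u, hu, hu1, hu2, hu3⟩ := key_normalize hx hx0
  obtain ⟨v, hv, hv1, hv2, hv3⟩ := key_normalize hy hy0
  rw [hu2, hv2]
  have g1 := hgain θ hθ (hθ0.trans (min_le_left _ _)) v hv hv1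
  have g2 := hcost u hu hu1
  have hθs : θ ≤ s := hθ0.trans ((min_le_right _ _).trans (min_le_right _ _))
  have hθlam : θ ≤ lam / 2 := hθ0.trans ((min_le_right _ _).trans (min_le_left _ _))
  have hθ2 : θ ^ 2 ≤ q lam * c / (2 * S * C) := by
    have := Real.sq_sqrt (show 0 ≤ q lam * c / (2 * S * C) by positivity)
    rw [← hs] at this
    nlinarith
  set a := (volume {p | fn v p ≠ 0}).toReal with ha
  set a' := (volume (B ∩ {p | fn u p = 0})).toReal with ha'
  -- `v ≠ 0` on a set of positive finite measure contained in `B ∩ {u = 0}`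
  have hfin : volume (B ∩ {p | fn u p = 0}) < ⊤ :=
    lt_of_le_of_lt (measure_mono inter_subset_left) measure_ball_lt_top
  have hsub : volume {p | fn v p ≠ 0} ≤ volume (B ∩ {p | fn u p = 0}) := by
    apply measure_mono_ae
    filter_upwards [fn_outside measurableSet_ball hv, hxy, hu3, hv3] with p h2 h3 h4 h5 h6
    have h7 : fn v p ≠ 0 := h6
    refine ⟨?_, ?_⟩
    · by_contra hB
      exact h7 (h2 hB)
    · have h8 : fn y p ≠ 0 := fun h => h7 (h5.mpr h)
      have h9 : fn x p = 0 := by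
        rcases mul_eq_zero.mp h3 with h | h
        · exact h
        · exact absurd h h8
      exact h4.mpr h9
  have haa : a ≤ a' := ENNReal.toReal_mono hfin.ne hsub
  have ha0 : 0 < a := by
    rw [ha]
    apply ENNReal.toReal_pos
    · intro h
      have : fn v =ᵐ[volume] (0 : E4 → ℝ) := by
        rw [EventuallyEq, ae_iff]
        exact h
      have h2 : fn v = 0 := Lp.ext (this.trans (Lp.coeFn_zero ℝ 4 _).symm)
      rw [h2, norm_zero] at hv1
      exact zero_ne_one hv1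
    · exact (lt_of_le_of_lt hsub hfin).ne
  have hPv : 0 ≤ P θ v := by
    have h2 := P_coer hθ (by linarith) hv
    have h3 : 0 ≤ 1 - θ / Lam := by
      rw [sub_nonneg, div_le_one Lam_pos]; linarith
    have := mul_nonneg h3 (sq_nonneg ‖v‖)
    linarith
  have hPu2 : q lam ^ 2 + 2 * q lam * (c * a) ≤ P lam u ^ 2 := by
    have h2 : q lam + c * a ≤ P lam u := by
      have : c * a ≤ c * a' := by gcongr
      linarith
    have h3 : (q lam + c * a) ^ 2 ≤ P lam u ^ 2 := by
      apply pow_le_pow_left₀ (by positivity) h2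
    nlinarith [sq_nonneg (c * a)]
  have hPv2 : S ^ 2 - 2 * S * (C * θ ^ 2 * a) ≤ P θ v ^ 2 := by
    by_cases h2 : 0 ≤ S - C * θ ^ 2 * a
    · have h3 : (S - C * θ ^ 2 * a) ^ 2 ≤ P θ v ^ 2 := pow_le_pow_left₀ h2 g1 2
      nlinarith [sq_nonneg (C * θ ^ 2 * a)]
    · push Not at h2
      nlinarith [sq_nonneg (P θ v)]
  have hfinal : S * (C * θ ^ 2 * a) < q lam * (c * a) := by
    have h2 : S * C * θ ^ 2 ≤ q lam * c / 2 := by
      have h3 : S * C * θ ^ 2 ≤ S * C * (q lam * c / (2 * S * C)) := by gcongr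
      have h4 : S * C * (q lam * c / (2 * S * C)) = q lam * c / 2 := by field_simp
      linarith
    have h5 : 0 < q lam * c := by positivity
    nlinarith
  linarith

end Pool.Agent.H57.BN
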