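import Pool.Agent.H57.BN.Eig

set_option autoImplicit false

open MeasureTheory Filter Topology Metric Set
open scoped ENNReal NNReal ContDiff

namespace Pool.Agent.H57.BN

/-- from a nonnegative quadratic polynomial to its discriminant -/
theorem cvx_sq_le_of_quadratic {a b c : ℝ} (h : ∀ t : ℝ, 0 ≤ a + 2 * t * b + t ^ 2 * c) :
    b ^ 2 ≤ a * c := by
  have h1 : ∀ t : ℝ, 0 ≤ c * (t * t) + (2 * b) * t + a := by
    intro t
    have := h t
    nlinarith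
  have h2 := discrim_le_zero h1
  unfold discrim at h2
  nlinarith

/-- For `‖x‖₄ = 1`: `(1 + t ∫ x³φ)² ≤ ‖x + tφ‖₄²` (Hölder). -/
theorem norm4_add_smul {x : D} (hx : ‖fn x‖ = 1) (φ : D) (t : ℝ) :
    (1 + t * ∫ p, fn x p ^ 3 * fn φ p) ^ 2 ≤ ‖fn (x + t • φ)‖ ^ 2 := by
  have h1 : ∫ p, fn x p ^ 3 * fn (x + t • φ) p = 1 + t * ∫ p, fn x p ^ 3 * fn φ p := by
    have hae : (fn (x + t • φ) : E4 → ℝ) =ᵐ[volume] fun p => fn x p + t * fn φ p := by
      rw [map_add, map_smul]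
      filter_upwards [Lp.coeFn_add (fn x) (t • fn φ), Lp.coeFn_smul t (fn φ)] with p hp hp'
      rw [hp, Pi.add_apply, hp', Pi.smul_apply, smul_eq_mul]
    have e1 : ∫ p, fn x p ^ 3 * fn (x + t • φ) p =
        ∫ p, (fn x p ^ 4 + t * (fn x p ^ 3 * fn φ p)) := by
      apply integral_congr_ae
      filter_upwards [hae] with p hp
      rw [hp]
      ring
    rw [e1, integral_add (integrable_pow4 _) ((integrable_cube_mul _ _).const_mul _),
      integral_const_mul, ← norm4_eq, hx]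
    norm_num
  rw [← h1]
  have h2 := abs_integral_cube_mul (fn x) (fn (x + t • φ))
  rw [hx, one_pow, one_mul] at h2
  rw [← sq_abs]
  exact pow_le_pow_left₀ (abs_nonneg _) h2 2

/-- The almost-equation for near-minimizers of the Sobolev quotient. -/
theorem cvx_S {x : D} (hx : ‖fn x‖ = 1) (φ : D) :
    (inner ℝ x φ - S * ∫ p, fn x p ^ 3 * fn φ p) ^ 2 ≤ (‖x‖ ^ 2 - S) * ‖φ‖ ^ 2 := by
  set I : ℝ := ∫ p, fn x p ^ 3 * fn φ p with hI
  have hS := S_pos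
  have key : ∀ t : ℝ, 0 ≤ (‖x‖ ^ 2 - S) + 2 * t * (inner ℝ x φ - S * I) + t ^ 2 * ‖φ‖ ^ 2 := by
    intro t
    have h1 := S_le (x + t • φ)
    have h2 := norm4_add_smul hx φ t
    have h3 : ‖x + t • φ‖ ^ 2 = ‖x‖ ^ 2 + 2 * t * inner ℝ x φ + t ^ 2 * ‖φ‖ ^ 2 := by
      have e1 : inner ℝ x (t • φ) = t * inner ℝ x φ := real_inner_smul_right x φ t
      have e2 : ‖t • φ‖ = |t| * ‖φ‖ := norm_smul t φ
      rw [norm_add_sq_real, e1, e2, mul_pow, sq_abs]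
      ring
    rw [← hI] at h2
    have h4 : S * (1 + t * I) ^ 2 ≤ S * ‖fn (x + t • φ)‖ ^ 2 :=
      mul_le_mul_of_nonneg_left h2 hS.le
    have h5 : 0 ≤ S * (t * I) ^ 2 := by positivity
    nlinarith
  exact cvx_sq_le_of_quadratic key

/-- The almost-equation for near-minimizers of `P lam`. -/
theorem cvx_q {lam : ℝ} (h0 : 0 < lam) (h1 : lam < Lam) {x : D} (hx : x ∈ H B)
    (hn : ‖fn x‖ = 1) {φ : D} (hφ : φ ∈ H B) :
    (PB lam x φ - q lam * ∫ p, fn x p ^ 3 * fn φ p) ^ 2 ≤ (P lam x - q lam) * ‖φ‖ ^ 2 := by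
  set I : ℝ := ∫ p, fn x p ^ 3 * fn φ p with hI
  have hq := q_pos h0 h1
  have key : ∀ t : ℝ, 0 ≤ (P lam x - q lam) + 2 * t * (PB lam x φ - q lam * I) +
      t ^ 2 * ‖φ‖ ^ 2 := by
    intro t
    have hm : x + t • φ ∈ H B := (H B).add_mem hx ((H B).smul_mem t hφ)
    have h2 := q_le h0 h1 hm
    have h3 := norm4_add_smul hn φ t
    rw [← hI] at h3
    rw [P_add_smul lam hx hφ t] at h2
    have h4 : q lam * (1 + t * I) ^ 2 ≤ q lam * ‖fn (x + t • φ)‖ ^ 2 :=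
      mul_le_mul_of_nonneg_left h3 hq.le
    have h5 : 0 ≤ q lam * (t * I) ^ 2 := by positivity
    have h6 : t ^ 2 * P lam φ ≤ t ^ 2 * ‖φ‖ ^ 2 :=
      mul_le_mul_of_nonneg_left (P_le h0 φ) (sq_nonneg t)
    nlinarith
  exact cvx_sq_le_of_quadratic key

end Pool.Agent.H57.BN
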