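import Pool.Agent.H57.BN.Limits
import Pool.Agent.H57.BN.Cvx

set_option autoImplicit false

open MeasureTheory Filter Topology Metric Set
open scoped ENNReal NNReal ContDiff

namespace Pool.Agent.H57.BN

/-- `q lam` is attained when `q lam < S`. -/
theorem exists_min {lam : ℝ} (h0 : 0 < lam) (h1 : lam < Lam) (hq : q lam < S) :
    ∃ x ∈ H B, ‖fn x‖ = 1 ∧ P lam x = q lam ∧ 0 ≤ᵐ[volume] (fn x : E4 → ℝ) := by
  have hqp := q_pos h0 h1
  have hL := Lam_pos
  have hk : 0 < 1 - lam / Lam := by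
    rw [sub_pos, div_lt_one hL]
    exact h1
  have hex : ∀ n : ℕ, ∃ x ∈ H B, ‖fn x‖ = 1 ∧ P lam x < q lam + 1 / ((n : ℝ) + 1) ∧
      0 ≤ᵐ[volume] (fn x : E4 → ℝ) := fun n =>
    exists_near_q h0 h1 (by
      have : (0 : ℝ) < 1 / ((n : ℝ) + 1) := by positivity
      linarith)
  choose x hx hn hP hpos using hex
  have hPlim : Tendsto (fun n => P lam (x n)) atTop (𝓝 (q lam)) := by
    have h2 : Tendsto (fun n : ℕ => q lam + 1 / ((n : ℝ) + 1)) atTop (𝓝 (q lam + 0)) :=
      tendsto_one_div_add_atTop_nhds_zero_nat.const_add _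
    rw [add_zero] at h2
    refine tendsto_of_tendsto_of_tendsto_of_le_of_le tendsto_const_nhds h2 (fun n => ?_)
      fun n => (hP n).le
    have := q_le h0 h1 (hx n)
    rwa [hn n, one_pow, mul_one] at this
  have hbd : ∀ n, ‖x n‖ ≤ Real.sqrt ((q lam + 1) / (1 - lam / Lam)) := by
    intro n
    apply Real.le_sqrt_of_sq_le
    rw [le_div_iff₀ hk, mul_comm]
    refine (P_coer h0 h1 (hx n)).trans ((hP n).le.trans ?_)
    have : 1 / ((n : ℝ) + 1) ≤ 1 := by
      rw [div_le_one (by positivity)]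
      have : (0 : ℝ) ≤ n := Nat.cast_nonneg n
      linarith
    linarith
  obtain ⟨ψ, hψ, y, hy⟩ := exists_weak_subseq hbd
  have hxψ : ∀ n, (x ∘ ψ) n ∈ H B := fun n => hx (ψ n)
  have hyB : y ∈ H B := hy.mem hxψ
  have hPψ : Tendsto (fun n => P lam ((x ∘ ψ) n)) atTop (𝓝 (q lam)) :=
    hPlim.comp hψ.tendsto_atTop
  -- the equation of the weak limit
  have heq : ∀ φ ∈ H B, PB lam y φ = q lam * ∫ p, fn y p ^ 3 * fn φ p := by
    intro φ hφ
    have h2 := tendsto_PB lam hy hxψ hφ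
    have h3 := (tendsto_cube hy φ).const_mul (q lam)
    have h4 : Tendsto (fun n => (PB lam ((x ∘ ψ) n) φ -
        q lam * ∫ p, fn ((x ∘ ψ) n) p ^ 3 * fn φ p) ^ 2) atTop (𝓝 0) := by
      have h5 : Tendsto (fun n => (P lam ((x ∘ ψ) n) - q lam) * ‖φ‖ ^ 2) atTop (𝓝 0) := by
        have := (hPψ.sub_const (q lam)).mul_const (‖φ‖ ^ 2)
        simpa using this
      refine squeeze_zero (fun n => sq_nonneg _) (fun n => ?_) h5
      exact cvx_q h0 h1 (hxψ n) (hn (ψ n)) hφ
    have h6 := (h2.sub h3).pow 2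
    have h7 := tendsto_nhds_unique h6 h4
    have h8 := pow_eq_zero_iff (n := 2) (by norm_num) |>.mp h7
    linarith
  have hm4 : m4 y ≤ 1 := hy.m4_le fun ε hε => Eventually.of_forall fun n => by
    rw [m4_eq]
    show ‖fn (x (ψ n))‖ ^ 4 ≤ 1 + ε
    rw [hn (ψ n)]
    linarith
  have hyne : y ≠ 0 := by
    rintro rfl
    have h2 : Tendsto (fun n => lam * m2 ((x ∘ ψ) n)) atTop (𝓝 0) := by
      have := (tendsto_m2 hy hxψ).const_mul lam
      have h3 : m2 (0 : D) = 0 := by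
        have := m2_smul 0 (0 : D)
        simpa using this
      rwa [h3, mul_zero] at this
    have h3 : S ≤ q lam := by
      have h4 := hPψ.add h2
      rw [add_zero] at h4
      refine ge_of_tendsto h4 (Eventually.of_forall fun n => ?_)
      have h5 := S_le ((x ∘ ψ) n)
      have h6 : ‖fn ((x ∘ ψ) n)‖ = 1 := hn (ψ n)
      rw [h6, one_pow, mul_one] at h5
      have h7 : P lam ((x ∘ ψ) n) + lam * m2 ((x ∘ ψ) n) = ‖(x ∘ ψ) n‖ ^ 2 := by
        unfold P
        ring
      rw [h7]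
      exact h5
    linarith
  have hPy : P lam y = q lam * m4 y := by
    have := heq y hyB
    rw [P_self] at this
    rw [this]
    have e : (∫ p, fn y p ^ 3 * fn y p) = m4 y := by
      unfold m4
      exact integral_congr_ae (Eventually.of_forall fun p => by simp only; ring)
    rw [e]
  have hnorm : 0 < ‖fn y‖ := norm_pos_iff.mpr fun h => hyne (fn_inj h)
  have hge : 1 ≤ ‖fn y‖ ^ 2 := by
    have h2 := q_le h0 h1 hyB
    rw [hPy, m4_eq] at h2
    have h3 : q lam * ‖fn y‖ ^ 2 * 1 ≤ q lam * ‖fn y‖ ^ 2 * ‖fn y‖ ^ 2 := by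
      nlinarith
    exact le_of_mul_le_mul_left h3 (by positivity)
  rw [m4_eq] at hm4
  have hone : ‖fn y‖ ^ 4 = 1 := by
    apply le_antisymm hm4
    have : ‖fn y‖ ^ 4 = (‖fn y‖ ^ 2) ^ 2 := by ring
    rw [this]
    exact one_le_pow₀ hge
  refine ⟨y, hyB, ?_, ?_, ?_⟩
  · exact (pow_eq_one_iff_of_nonneg (norm_nonneg _) (by norm_num)).mp hone
  · rw [hPy, m4_eq, hone, mul_one]
  · exact hy.fn_nonneg fun n => hpos (ψ n)

/-- minimizers, scaled to `‖x‖₄² = q`, solve the equation: -/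
theorem min_eq {lam : ℝ} (h0 : 0 < lam) (h1 : lam < Lam) {x : D} (hx : x ∈ H B)
    (h4 : m4 x = q lam ^ 2) (hP : P lam x = q lam ^ 2) {φ : D} (hφ : φ ∈ H B) :
    PB lam x φ = ∫ p, fn x p ^ 3 * fn φ p := by
  have hq := q_pos h0 h1
  set c : ℝ := (Real.sqrt (q lam))⁻¹ with hc
  have hs : 0 < Real.sqrt (q lam) := Real.sqrt_pos.2 hq
  have hc0 : 0 < c := by positivity
  have hc2 : c ^ 2 * q lam = 1 := by
    rw [hc, inv_pow, Real.sq_sqrt hq.le, inv_mul_cancel₀ hq.ne']
  have hyB : c • x ∈ H B := (H B).smul_mem _ hx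
  have hn : ‖fn (c • x)‖ = 1 := by
    have h5 : ‖fn (c • x)‖ ^ 4 = 1 := by
      rw [← m4_eq, m4_smul, h4]
      have : c ^ 4 * q lam ^ 2 = (c ^ 2 * q lam) ^ 2 := by ring
      rw [this, hc2, one_pow]
    exact (pow_eq_one_iff_of_nonneg (norm_nonneg _) (by norm_num)).mp h5
  have hPy : P lam (c • x) = q lam := by
    rw [P_smul, hP]
    have : c ^ 2 * q lam ^ 2 = (c ^ 2 * q lam) * q lam := by ring
    rw [this, hc2, one_mul]
  have h5 := cvx_q h0 h1 hyB hn hφ
  rw [hPy, sub_self, zero_mul] at h5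
  have h6 : PB lam (c • x) φ - q lam * ∫ p, fn (c • x) p ^ 3 * fn φ p = 0 := by
    have := le_antisymm h5 (sq_nonneg _)
    exact (pow_eq_zero_iff (n := 2) (by norm_num)).mp this
  have e1 : PB lam (c • x) φ = c * PB lam x φ := by
    unfold PB
    have e2 : inner ℝ (c • x) φ = c * inner ℝ x φ := real_inner_smul_left x φ c
    have e3 : ∫ p, fn (c • x) p * fn φ p = c * ∫ p, fn x p * fn φ p := by
      rw [← integral_const_mul]
      apply integral_congr_ae
      filter_upwards [eig_fn_smul_ae c x] with p hp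
      rw [hp]
      ring
    rw [e2, e3]
    ring
  have e4 : ∫ p, fn (c • x) p ^ 3 * fn φ p = c ^ 3 * ∫ p, fn x p ^ 3 * fn φ p := by
    rw [← integral_const_mul]
    apply integral_congr_ae
    filter_upwards [eig_fn_smul_ae c x] with p hp
    rw [hp]
    ring
  rw [e1, e4] at h6
  set I : ℝ := ∫ p, fn x p ^ 3 * fn φ p with hI
  have h7 : c * (PB lam x φ - I) = 0 := by
    have : q lam * (c ^ 3 * I) = c * ((c ^ 2 * q lam) * I) := by ring
    rw [this, hc2, one_mul] at h6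
    linarith
  rcases mul_eq_zero.mp h7 with h8 | h8
  · exact absurd h8 hc0.ne'
  · linarith

end Pool.Agent.H57.BN
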