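import Pool.Agent.H57.BN.Cvx
import Pool.Agent.H57.BN.KerB
import Pool.Agent.H57.BN.Min

set_option autoImplicit false

open MeasureTheory Filter Topology Metric Set
open scoped ENNReal NNReal ContDiff

namespace Pool.Agent.H57.BN

theorem minpos_rho {p : E4} (hp : p ∈ B) : 0 < 1 - ‖p‖ ^ 2 := by
  rw [mem_ball_zero_iff] at hp
  have := norm_nonneg p
  nlinarith

/-- nonnegative nonzero solutions of the scalar equation are positive a.e. (`kerB`) -/
theorem sol_pos {lam : ℝ} (h0 : 0 < lam) {x : D} (hx : x ∈ H B) (hne : x ≠ 0)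
    (hx0 : 0 ≤ᵐ[volume] (fn x : E4 → ℝ))
    (he : ∀ φ ∈ H B, PB lam x φ = ∫ p, fn x p ^ 3 * fn φ p) :
    ∀ᵐ p ∂(volume : Measure E4), p ∈ B → 0 < fn x p := by
  have hBfin : (volume B : ℝ≥0∞) < ⊤ := measure_ball_lt_top
  have hBm : MeasurableSet (B : Set E4) := measurableSet_ball
  have hout := fn_outside hBm hx
  set f : E4 → ℝ := fun p => lam * fn x p + fn x p ^ 3 with hfdef
  have hf43 : MemLp (fn x) (ENNReal.ofReal (4 / 3)) (volume : Measure E4) := by
    refine memLp_of_support (fn x) hBm hBfin hout ?_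
    have h4 : (4 : ℝ≥0∞) = ENNReal.ofReal 4 := by norm_num
    rw [h4]
    exact ENNReal.ofReal_le_ofReal (by norm_num)
  have hf : MemLp f (ENNReal.ofReal (4 / 3)) volume :=
    (hf43.const_mul lam).add (memLp_cube (fn x))
  have hf0 : 0 ≤ᵐ[volume] f := by
    filter_upwards [hx0] with p hp
    have hp' : 0 ≤ fn x p := hp
    change 0 ≤ lam * fn x p + fn x p ^ 3
    positivity
  have hwf : ∀ φ ∈ H B, inner ℝ x φ = ∫ p, f p * fn φ p := by
    intro φ hφ
    have i5 := integrable_mul_B hx hφ
    have i6 := integrable_cube_mul (fn x) (fn φ)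
    have e1 : ∫ p, f p * fn φ p = lam * (∫ p, fn x p * fn φ p) +
        ∫ p, fn x p ^ 3 * fn φ p := by
      have : ∫ p, f p * fn φ p = ∫ p, (lam * (fn x p * fn φ p) + fn x p ^ 3 * fn φ p) := by
        refine integral_congr_ae (Eventually.of_forall fun p => ?_)
        simp only [hfdef]
        ring
      rw [this, integral_add (i5.const_mul _) i6, integral_const_mul]
    have e2 := he φ hφ
    rw [PB] at e2
    rw [e1]
    linarith
  have hker := kerB hx hf hf0 hwf
  have ifB : IntegrableOn f B (volume : Measure E4) := by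
    have : IsFiniteMeasure ((volume : Measure E4).restrict B) := ⟨by simpa using hBfin⟩
    have := (hf.restrict B).mono_exponent (p := 1) (by
      rw [ENNReal.one_le_ofReal]; norm_num)
    exact memLp_one_iff_integrable.1 this
  have ifρ : IntegrableOn (fun p => f p * (1 - ‖p‖ ^ 2)) B (volume : Measure E4) := by
    refine Integrable.mono' ifB.abs ?_ ?_
    · refine ifB.aestronglyMeasurable.mul ?_
      have : Continuous fun p : E4 => 1 - ‖p‖ ^ 2 := by fun_prop
      exact this.aestronglyMeasurable
    · refine (ae_restrict_iff' measurableSet_ball).2 (Eventually.of_forall fun p hp => ?_)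
      have h1 := minpos_rho hp
      have h2 : 1 - ‖p‖ ^ 2 ≤ 1 := by
        have : 0 ≤ ‖p‖ ^ 2 := by positivity
        linarith
      rw [norm_mul, Real.norm_eq_abs, Real.norm_eq_abs, abs_of_pos h1]
      exact mul_le_of_le_one_right (abs_nonneg _) h2
  have hnn : 0 ≤ᵐ[(volume : Measure E4).restrict B] fun p => f p * (1 - ‖p‖ ^ 2) := by
    have h1 := ae_restrict_of_ae (s := B) hf0
    filter_upwards [h1, ae_restrict_mem hBm] with p hp hpB
    have h3 := minpos_rho hpB
    have hp' : 0 ≤ f p := hp
    change 0 ≤ f p * (1 - ‖p‖ ^ 2)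
    positivity
  have hI0 : 0 ≤ ∫ p in B, f p * (1 - ‖p‖ ^ 2) := integral_nonneg_of_ae hnn
  have hI : 0 < ∫ p in B, f p * (1 - ‖p‖ ^ 2) := by
    rcases eq_or_lt_of_le hI0 with h | h
    · exfalso
      have h1 := (setIntegral_eq_zero_iff_of_nonneg_ae hnn ifρ).1 h.symm
      rw [EventuallyEq, ae_restrict_iff' hBm] at h1
      apply hne
      apply D_ext
      rw [map_zero]
      filter_upwards [h1, hout, hx0, Lp.coeFn_zero ℝ 4 (volume : Measure E4)] with p hp1 hp2 hp3 hp4
      rw [hp4]
      change fn x p = 0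
      by_cases hpB : p ∈ B
      · have h2 : f p * (1 - ‖p‖ ^ 2) = 0 := hp1 hpB
        have h3 := minpos_rho hpB
        have h4 : f p = 0 := by
          rcases mul_eq_zero.1 h2 with h | h
          · exact h
          · exact absurd h h3.ne'
        have h5 : 0 ≤ fn x p := hp3
        have h6 : lam * fn x p + fn x p ^ 3 = 0 := h4
        have h7 : 0 ≤ fn x p ^ 3 := by positivity
        have h8 : lam * fn x p ≤ 0 := by linarith
        have h9 : fn x p ≤ 0 := by
          by_contra hcon
          push Not at hcon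
          have := mul_pos h0 hcon
          linarith
        exact le_antisymm h9 h5
      · exact hp2 hpB
    · exact h
  filter_upwards [hker] with p hp hpB
  have h3 := minpos_rho hpB
  have hpi := Real.pi_pos
  have h4 : 0 < (1 / (80 * Real.pi ^ 2)) * (1 - ‖p‖ ^ 2) * ∫ p in B, f p * (1 - ‖p‖ ^ 2) := by
    positivity
  exact lt_of_lt_of_le h4 (hp hpB)

/-- `q` is strictly decreasing where `q < S` -/
theorem q_strict {lam th : ℝ} (h0 : 0 < th) (h1 : th < lam) (h2 : lam < Lam) (hq : q lam < S) :
    q lam < q th := by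
  rcases lt_or_ge (q th) S with h | h
  · obtain ⟨x, hx, hn, hP, -⟩ := exists_min h0 (h1.trans h2) h
    have hne : x ≠ 0 := by
      rintro rfl
      rw [map_zero, norm_zero] at hn
      exact zero_ne_one hn
    have h3 := m2_pos hx hne
    have h4 := q_le (h0.trans h1) h2 hx
    rw [hn] at h4
    have h5 : P lam x = P th x - (lam - th) * m2 x := by
      unfold P
      ring
    have h6 : 0 < (lam - th) * m2 x := mul_pos (by linarith) h3
    linarith
  · exact lt_of_lt_of_le hq h

end Pool.Agent.H57.BN
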