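import Pool.Agent.H57.BN.AsymB
import Pool.Agent.H57.BN.Bub
import Pool.Agent.H57.BN.MinPos
import Pool.Agent.H57.BN.Key

set_option autoImplicit false

open MeasureTheory Filter Topology Metric Set
open scoped ENNReal NNReal ContDiff

namespace Pool.Agent.H57.BN

theorem asym_quot_le {P m : ℝ} (h0 : 0 ≤ P) (h1 : P ≤ m) : P ^ 2 / m ≤ P := by
  rcases eq_or_lt_of_le (h0.trans h1) with h2 | h2
  · rw [← h2, div_zero]
    exact h0
  · rw [div_le_iff₀ h2]
    nlinarith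

/-- the weak limits of the ground states -/
theorem asym_aux {lam th : ℝ} (h0 : 0 < lam) (h1 : lam < Lam) (h2 : 0 < th) (h3 : th < lam)
    (hkey : ∀ x ∈ H B, ∀ y ∈ H B, x ≠ 0 → y ≠ 0 →
      (∀ᵐ p ∂(volume : Measure E4), fn x p * fn y p = 0) →
      q lam ^ 2 + S ^ 2 < P lam x ^ 2 / m4 x + P th y ^ 2 / m4 y)
    {b : ℕ → ℝ} (hb : ∀ n, 0 < b n) (hb' : Tendsto b atTop atTop) {x y : ℕ → D}
    (hg : ∀ n, IsGS lam th (b n) (x n) (y n)) {u v : D} (hu : WeakTo x u) (hv : WeakTo y v) :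
    v = 0 ∧ u ∈ H B ∧ Tendsto x atTop (𝓝 u) ∧ u ≠ 0 ∧ 0 ≤ᵐ[volume] (fn u : E4 → ℝ) ∧
      P lam u = q lam ^ 2 ∧ m4 u = q lam ^ 2 := by
  have hthL : th < Lam := h3.trans h1
  have hS := S_pos
  have hqS := q_lt_S h0
  have hq := q_pos h0 h1
  have hqt := q_strict h2 h3 h1 hqS
  obtain ⟨huB, hvB, hu0, hv0, huv, hPu, hPv⟩ := gs_weak h0 h1 h2 h3 hb hb' hg hu hv
  obtain ⟨C, hC, hbd⟩ := gs_bdd h0 h1 h2 h3
  have hK : ∀ n, P lam (x n) + P th (y n) < q lam ^ 2 + S ^ 2 := fun n =>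
    (hbd (b n) (x n) (y n) (hb n) (hg n)).2.2.2
  have hxB : ∀ n, x n ∈ H B := fun n => (hg n).hx
  have hyB : ∀ n, y n ∈ H B := fun n => (hg n).hy
  have hxne : ∀ n, x n ≠ 0 := fun n => (hg n).nx
  have hyne : ∀ n, y n ≠ 0 := fun n => (hg n).ny
  have hPx : ∀ n, P lam (x n) ≤ m4 (x n) := fun n => (hg n).P_x_le (hb n)
  have hPy : ∀ n, P th (y n) ≤ m4 (y n) := fun n => (hg n).P_y_le (hb n)
  have hwx := P_weak (lam := lam) hxB hu
  have hwy := P_weak (lam := th) hyB hv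
  by_cases hu' : u = 0
  · exfalso
    subst hu'
    by_cases hv' : v = 0
    · subst hv'
      have he : 0 < (S ^ 2 - q lam ^ 2) / 2 := by nlinarith
      have e1 := bub h0 h1 hxB hu hxne hPx he
      have e2 := bub h2 hthL hyB hv hyne hPy he
      obtain ⟨n, hn1, hn2⟩ := (e1.and e2).exists
      have := hK n
      linarith
    · have hqv := P_ge_q h2 hthL hvB hv' hPv
      have he : 0 < (q th ^ 2 - q lam ^ 2) / 2 := by nlinarith
      have e1 := bub h0 h1 hxB hu hxne hPx he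
      have e2 := hwy.eventually_const_lt (show P th v - (q th ^ 2 - q lam ^ 2) / 2 < P th v by
        linarith)
      obtain ⟨n, hn1, hn2⟩ := (e1.and e2).exists
      have h4 := hK n
      have h5 := sq_nonneg ‖y n - v‖
      linarith
  · by_cases hv' : v = 0
    · subst hv'
      have hqu := P_ge_q h0 h1 huB hu' hPu
      have hPu2 : P lam u ≤ q lam ^ 2 := by
        refine le_of_forall_pos_le_add fun ε hε => ?_
        have e1 := bub h2 hthL hyB hv hyne hPy (half_pos hε)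
        have e2 := hwx.eventually_const_lt (show P lam u - ε / 2 < P lam u by linarith)
        obtain ⟨n, hn1, hn2⟩ := (e1.and e2).exists
        have h4 := hK n
        have h5 := sq_nonneg ‖x n - u‖
        linarith
      have hPu3 : P lam u = q lam ^ 2 := le_antisymm hPu2 hqu
      have hconv : Tendsto (fun n => ‖x n - u‖ ^ 2) atTop (𝓝 0) := by
        rw [Metric.tendsto_atTop]
        intro ε hε
        have e1 := bub h2 hthL hyB hv hyne hPy (half_pos hε)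
        have e2 := hwx.eventually_const_lt (show P lam u - ε / 2 < P lam u by linarith)
        obtain ⟨N, hN⟩ := eventually_atTop.1 (e1.and e2)
        refine ⟨N, fun n hn => ?_⟩
        obtain ⟨hn1, hn2⟩ := hN n hn
        have h4 := hK n
        rw [Real.dist_eq, sub_zero, abs_of_nonneg (sq_nonneg _)]
        linarith
      have hconv2 : Tendsto x atTop (𝓝 u) := by
        rw [tendsto_iff_norm_sub_tendsto_zero]
        have h4 := hconv.sqrt
        rw [Real.sqrt_zero] at h4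
        refine h4.congr fun n => ?_
        exact Real.sqrt_sq (norm_nonneg _)
      refine ⟨rfl, huB, hconv2, hu', hu0, hPu3, le_antisymm ?_ (hPu3 ▸ hPu)⟩
      have h4 := q_le h0 h1 huB
      rw [hPu3] at h4
      have h5 : ‖fn u‖ ^ 2 ≤ q lam := by
        have : q lam * ‖fn u‖ ^ 2 ≤ q lam * q lam := by
          rw [← sq]
          exact h4
        exact le_of_mul_le_mul_left this hq
      rw [m4_eq]
      calc ‖fn u‖ ^ 4 = (‖fn u‖ ^ 2) ^ 2 := by ring
        _ ≤ _ := pow_le_pow_left₀ (by positivity) h5 2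
    · exfalso
      have h4 := hkey u huB v hvB hu' hv' huv
      have hPu0 : 0 ≤ P lam u := by
        have := P_ge_q h0 h1 huB hu' hPu
        exact le_trans (sq_nonneg _) this
      have hPv0 : 0 ≤ P th v := by
        have := P_ge_q h2 hthL hvB hv' hPv
        exact le_trans (sq_nonneg _) this
      have h5 := asym_quot_le hPu0 hPu
      have h6 := asym_quot_le hPv0 hPv
      have h7 : P lam u + P th v ≤ q lam ^ 2 + S ^ 2 := by
        refine le_of_tendsto (hwx.add hwy) (Eventually.of_forall fun n => ?_)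
        have h8 := hK n
        have h9 := sq_nonneg ‖x n - u‖
        have h10 := sq_nonneg ‖y n - v‖
        linarith
      linarith

/-- the asymptotic behaviour of ground states -/
theorem asym {lam : ℝ} (h0 : 0 < lam) (h1 : lam < Lam) :
    ∃ θ0 : ℝ, 0 < θ0 ∧ θ0 < lam ∧ ∀ th : ℝ, 0 < th → th ≤ θ0 → ∀ b : ℕ → ℝ, (∀ n, 0 < b n) →
    Tendsto b atTop atTop → ∀ x y : ℕ → D, (∀ n, IsGS lam th (b n) (x n) (y n)) →
    ∃ ψ : ℕ → ℕ, StrictMono ψ ∧ ∃ u ∈ H B, Tendsto (fun n => x (ψ n)) atTop (𝓝 u) ∧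
      WeakTo (y ∘ ψ) 0 ∧ u ≠ 0 ∧ 0 ≤ᵐ[volume] (fn u : E4 → ℝ) ∧ P lam u = q lam ^ 2 ∧
      m4 u = q lam ^ 2 := by
  obtain ⟨θ0, hθ, hθ', hkey⟩ := key h0 h1 (q_lt_S h0)
  refine ⟨θ0, hθ, hθ', ?_⟩
  intro th h2 hth b hb hb' x y hg
  have h3 : th < lam := lt_of_le_of_lt hth hθ'
  obtain ⟨C, hC, hbd⟩ := gs_bdd h0 h1 h2 h3
  obtain ⟨ψ1, hψ1, u, hu⟩ := exists_weak_subseq (x := x) (C := C) fun n =>
    (hbd (b n) (x n) (y n) (hb n) (hg n)).1
  obtain ⟨ψ2, hψ2, v, hv⟩ := exists_weak_subseq (x := y ∘ ψ1) (C := C) fun n =>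
    (hbd (b (ψ1 n)) (x (ψ1 n)) (y (ψ1 n)) (hb _) (hg _)).2.1
  have hu2 : WeakTo ((x ∘ ψ1) ∘ ψ2) u := hu.comp hψ2
  have hmono : StrictMono (ψ1 ∘ ψ2) := hψ1.comp hψ2
  obtain ⟨hv0, huB, hconv, hu', hu0, hPu, hmu⟩ := asym_aux h0 h1 h2 h3
    (fun x hx y hy hne hne' hxy => hkey th h2 hth x hx y hy hne hne' hxy)
    (b := b ∘ (ψ1 ∘ ψ2)) (fun n => hb _) (hb'.comp hmono.tendsto_atTop)
    (x := (x ∘ ψ1) ∘ ψ2) (y := (y ∘ ψ1) ∘ ψ2) (fun n => hg _) hu2 hv
  refine ⟨ψ1 ∘ ψ2, hmono, u, huB, hconv, ?_, hu', hu0, hPu, hmu⟩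
  subst hv0
  exact hv

end Pool.Agent.H57.BN
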