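import Pool.Agent.H57.BN.Pow
import Pool.Agent.H57.BN.Cvx

set_option autoImplicit false

open MeasureTheory Filter Topology Metric Set
open scoped ENNReal NNReal ContDiff

namespace Pool.Agent.H57.BN

/-- equation of the extremal -/
theorem ext_eq {U : D} (h1 : ‖fn U‖ = 1) (hS : ‖U‖ ^ 2 = S) (φ : D) :
    inner ℝ U φ = ∫ p, (S * fn U p ^ 3) * fn φ p := by
  have h := cvx_S h1 φ
  rw [hS, sub_self, zero_mul] at h
  have h2 : inner ℝ U φ - S * ∫ p, fn U p ^ 3 * fn φ p = 0 := by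
    have h3 := sq_nonneg (inner ℝ U φ - S * ∫ p, fn U p ^ 3 * fn φ p)
    exact pow_eq_zero_iff (two_ne_zero) |>.mp (le_antisymm h h3)
  have h4 : ∫ p, (S * fn U p ^ 3) * fn φ p = S * ∫ p, fn U p ^ 3 * fn φ p := by
    rw [← integral_const_mul]
    apply integral_congr_ae
    filter_upwards with p
    ring
  rw [h4]
  linarith

/-- the mass outside large balls is small -/
theorem ext_tail (f : L4) {τ : ℝ} (hτ : 0 < τ) : ∃ n : ℕ,
    ∫ p in (ball (0:E4) n)ᶜ, f p ^ 4 ≤ τ := by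
  have hI := integrable_pow4 f
  have h1 : Tendsto (fun n : ℕ => ∫ p in ball (0:E4) n, f p ^ 4) atTop
      (𝓝 (∫ p in ⋃ n : ℕ, ball (0:E4) n, f p ^ 4)) :=
    tendsto_setIntegral_of_monotone (fun n => measurableSet_ball)
      (fun n m hnm => ball_subset_ball (by exact_mod_cast hnm)) hI.integrableOn
  rw [iUnion_ball_nat, setIntegral_univ] at h1
  have h2 : ∀ᶠ n : ℕ in atTop, (∫ p, f p ^ 4) - τ < ∫ p in ball (0:E4) n, f p ^ 4 :=
    h1.eventually (lt_mem_nhds (by linarith))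
  obtain ⟨n, hn⟩ := h2.exists
  refine ⟨n, ?_⟩
  have h3 := integral_add_compl (measurableSet_ball (x := (0:E4)) (ε := (n:ℝ))) hI
  linarith

/-- uniform bound of the truncated powers -/
theorem ext_bound {U : D} (h1 : ‖fn U‖ = 1) (hS : ‖U‖ ^ 2 = S)
    (h0 : 0 ≤ᵐ[volume] (fn U : E4 → ℝ)) {γ : ℝ} (hγ : 0 < γ) (hγ1 : γ ≤ 1) :
    ∃ K : ℝ, 0 < K ∧ ∀ ε : ℝ, 0 < ε →
      MemLp (fun p => (fn U p + ε) ^ ((1 + γ) / 2) - ε ^ ((1 + γ) / 2)) 4 volume ∧
      ∫ p, ((fn U p + ε) ^ ((1 + γ) / 2) - ε ^ ((1 + γ) / 2)) ^ 4 ≤ K := by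
  have hSp := S_pos
  set κ : ℝ := 4 * γ / (1 + γ) ^ 2 with hκ
  have hκ0 : 0 < κ := by positivity
  have hIU := integrable_pow4 (fn U)
  have hU1 : ∫ p, fn U p ^ 4 = 1 := by rw [← norm4_eq, h1]; norm_num
  obtain ⟨n, hn⟩ := ext_tail (fn U) (τ := κ ^ 2 / 4) (by positivity)
  set R : Set E4 := ball (0:E4) n with hR
  have hRm : MeasurableSet R := measurableSet_ball
  have hRt : volume R < ⊤ := measure_ball_lt_top
  set K0 : ℝ := (volume R).toReal + 2 with hK0
  have hK0p : 0 < K0 := by positivity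
  refine ⟨(2 * K0 / κ) ^ 2, by positivity, ?_⟩
  intro ε hε
  have hf : MemLp (fun p => S * fn U p ^ 3) (ENNReal.ofReal (4 / 3)) volume :=
    (memLp_cube (fn U)).const_mul S
  have hf0 : 0 ≤ᵐ[volume] (fun p => S * fn U p ^ 3) := by
    filter_upwards [h0] with p hp
    exact mul_nonneg hSp.le (pow_nonneg hp 3)
  obtain ⟨hG, hI, hle⟩ := pow_test hf hf0 h0 (ext_eq h1 hS) hγ hγ1 hε
  refine ⟨hG, ?_⟩
  set G : E4 → ℝ := fun p => (fn U p + ε) ^ ((1 + γ) / 2) - ε ^ ((1 + γ) / 2) with hGdef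
  have hIG : Integrable (fun p => G p ^ 4) volume := by
    have h2 := hG.integrable_norm_pow (p := 4) (by norm_num)
    refine h2.congr ?_
    filter_upwards with p
    rw [Real.norm_eq_abs]
    exact Even.pow_abs (by decide) _
  set XX : ℝ := Real.sqrt (∫ p, G p ^ 4) with hXX
  have hX0 : 0 ≤ XX := Real.sqrt_nonneg _
  have hIG0 : 0 ≤ ∫ p, G p ^ 4 := integral_nonneg fun p => by positivity
  have hX2 : XX ^ 2 = ∫ p, G p ^ 4 := Real.sq_sqrt hIG0
  -- remove the constant S
  have hI2 : Integrable (fun p => fn U p ^ 3 * ((fn U p + ε) ^ γ - ε ^ γ)) volume := by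
    have h2 := hI.const_mul S⁻¹
    refine h2.congr ?_
    filter_upwards with p
    field_simp
  have hle2 : κ * XX ≤ ∫ p, fn U p ^ 3 * ((fn U p + ε) ^ γ - ε ^ γ) := by
    have h2 : ∫ p, S * fn U p ^ 3 * ((fn U p + ε) ^ γ - ε ^ γ) =
        S * ∫ p, fn U p ^ 3 * ((fn U p + ε) ^ γ - ε ^ γ) := by
      rw [← integral_const_mul]
      apply integral_congr_ae
      filter_upwards with p
      ring
    rw [h2] at hle
    have h3 : S * (κ * XX) ≤ S * ∫ p, fn U p ^ 3 * ((fn U p + ε) ^ γ - ε ^ γ) := by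
      calc S * (κ * XX) = κ * S * XX := by ring
        _ ≤ _ := hle
    exact le_of_mul_le_mul_left h3 hSp
  -- the inner part
  have hin : ∫ p in R, fn U p ^ 3 * ((fn U p + ε) ^ γ - ε ^ γ) ≤ K0 := by
    have : IsFiniteMeasure (volume.restrict R) := ⟨by
      rw [Measure.restrict_apply_univ]; exact hRt⟩
    have h2 : ∫ p in R, fn U p ^ 3 * ((fn U p + ε) ^ γ - ε ^ γ) ≤
        ∫ p in R, (1 + 2 * fn U p ^ 4) := by
      apply integral_mono_ae hI2.restrict
        ((integrable_const 1).add (hIU.const_mul 2).restrict)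
      apply ae_restrict_of_ae
      filter_upwards [h0] with p hp
      have hp' : 0 ≤ fn U p := hp
      have h3 : (fn U p + ε) ^ γ ≤ fn U p ^ γ + ε ^ γ :=
        Real.rpow_add_le_add_rpow hp' hε.le hγ.le hγ1
      have h4 : fn U p ^ γ ≤ 1 + fn U p := by
        rcases le_total (fn U p) 1 with h | h
        · have := Real.rpow_le_one hp' h hγ.le
          linarith
        · have h5 := Real.rpow_le_rpow_of_exponent_le h hγ1
          rw [Real.rpow_one] at h5
          linarith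
      have h5 : fn U p ^ 3 ≤ 1 + fn U p ^ 4 := by
        rcases le_total (fn U p) 1 with h | h
        · have h6 : fn U p ^ 3 ≤ 1 := pow_le_one₀ hp' h
          have h7 : 0 ≤ fn U p ^ 4 := by positivity
          linarith
        · have h6 : fn U p ^ 3 ≤ fn U p ^ 4 := pow_le_pow_right₀ h (by norm_num)
          linarith
      have h6 : 0 ≤ fn U p ^ 3 := by positivity
      calc fn U p ^ 3 * ((fn U p + ε) ^ γ - ε ^ γ) ≤ fn U p ^ 3 * (1 + fn U p) := by
            apply mul_le_mul_of_nonneg_left _ h6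
            linarith
        _ = fn U p ^ 3 + fn U p ^ 4 := by ring
        _ ≤ 1 + 2 * fn U p ^ 4 := by linarith
    rw [integral_add (integrable_const 1) (hIU.const_mul 2).restrict, integral_const_mul] at h2
    have h3 : ∫ p in R, (1:ℝ) = (volume R).toReal := by
      rw [setIntegral_const, measureReal_def]
      simp
    have h4 : ∫ p in R, fn U p ^ 4 ≤ ∫ p, fn U p ^ 4 :=
      setIntegral_le_integral hIU (Eventually.of_forall fun p => by
        show 0 ≤ fn U p ^ 4
        positivity)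
    rw [h3] at h2
    rw [hU1] at h4
    linarith
  -- the outer part
  have hout : ∫ p in Rᶜ, fn U p ^ 3 * ((fn U p + ε) ^ γ - ε ^ γ) ≤ κ / 2 * XX := by
    rcases hX0.eq_or_lt with hX | hX
    · -- `G = 0`
      rw [← hX, mul_zero]
      have h2 : ∫ p, G p ^ 4 = 0 := by rw [← hX2, ← hX]; norm_num
      have h3 : (fun p => G p ^ 4) =ᵐ[volume] 0 :=
        (integral_eq_zero_iff_of_nonneg (fun p => by positivity) hIG).mp h2
      apply integral_nonpos_of_ae
      apply ae_restrict_of_ae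
      filter_upwards [h3, h0] with p h4 hp
      have hp' : 0 ≤ fn U p := hp
      have h5 : G p = 0 := by
        have h6 : G p ^ 4 = 0 := h4
        exact pow_eq_zero_iff (by norm_num) |>.mp h6
      have h7 := pow_ineq hp' hε hγ hγ1
      have h8 : G p ^ 2 = ((fn U p + ε) ^ ((1 + γ) / 2) - ε ^ ((1 + γ) / 2)) ^ 2 := rfl
      rw [← h8, h5] at h7
      have h9 : fn U p ^ 3 * ((fn U p + ε) ^ γ - ε ^ γ) =
          fn U p ^ 2 * (fn U p * ((fn U p + ε) ^ γ - ε ^ γ)) := by ring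
      show fn U p ^ 3 * ((fn U p + ε) ^ γ - ε ^ γ) ≤ 0
      rw [h9]
      have h10 : fn U p * ((fn U p + ε) ^ γ - ε ^ γ) ≤ 0 := by simpa using h7
      exact mul_nonpos_of_nonneg_of_nonpos (sq_nonneg _) h10
    · set s : ℝ := κ / (2 * XX) with hs
      have hs0 : 0 < s := by positivity
      have h2 : ∫ p in Rᶜ, fn U p ^ 3 * ((fn U p + ε) ^ γ - ε ^ γ) ≤
          ∫ p in Rᶜ, (1 / (2 * s) * fn U p ^ 4 + s / 2 * G p ^ 4) := by
        apply integral_mono_ae hI2.restrict
          ((hIU.const_mul _).restrict.add (hIG.const_mul _).restrict)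
        apply ae_restrict_of_ae
        filter_upwards [h0] with p hp
        have hp' : 0 ≤ fn U p := hp
        have h7 := pow_ineq hp' hε hγ hγ1
        have h8 : G p ^ 2 = ((fn U p + ε) ^ ((1 + γ) / 2) - ε ^ ((1 + γ) / 2)) ^ 2 := rfl
        rw [← h8] at h7
        have h9 : fn U p ^ 3 * ((fn U p + ε) ^ γ - ε ^ γ) =
            fn U p ^ 2 * (fn U p * ((fn U p + ε) ^ γ - ε ^ γ)) := by ring
        show fn U p ^ 3 * ((fn U p + ε) ^ γ - ε ^ γ) ≤ 1 / (2 * s) * fn U p ^ 4 + s / 2 * G p ^ 4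
        rw [h9]
        refine (mul_le_mul_of_nonneg_left h7 (sq_nonneg _)).trans ?_
        have h10 : 0 ≤ (fn U p ^ 2 - s * G p ^ 2) ^ 2 / (2 * s) := by positivity
        have h11 : (fn U p ^ 2 - s * G p ^ 2) ^ 2 / (2 * s) =
            1 / (2 * s) * fn U p ^ 4 + s / 2 * G p ^ 4 - fn U p ^ 2 * G p ^ 2 := by
          field_simp
          ring
        linarith
      rw [integral_add (hIU.const_mul _).restrict (hIG.const_mul _).restrict, integral_const_mul,
        integral_const_mul] at h2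
      have h3 : ∫ p in Rᶜ, G p ^ 4 ≤ XX ^ 2 := by
        rw [hX2]
        exact setIntegral_le_integral hIG (Eventually.of_forall fun p => by
          show 0 ≤ G p ^ 4
          positivity)
      have h4 : 1 / (2 * s) * ∫ p in Rᶜ, fn U p ^ 4 ≤ 1 / (2 * s) * (κ ^ 2 / 4) :=
        mul_le_mul_of_nonneg_left hn (by positivity)
      have h5 : s / 2 * ∫ p in Rᶜ, G p ^ 4 ≤ s / 2 * XX ^ 2 :=
        mul_le_mul_of_nonneg_left h3 (by positivity)
      have h6 : 1 / (2 * s) * (κ ^ 2 / 4) = κ / 4 * XX := by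
        rw [hs]; field_simp
      have h7 : s / 2 * XX ^ 2 = κ / 4 * XX := by
        rw [hs]; field_simp; ring
      linarith
  have hsplit := integral_add_compl hRm hI2
  have hfin : κ * XX ≤ K0 + κ / 2 * XX := by linarith
  have hX : XX ≤ 2 * K0 / κ := by
    rw [le_div_iff₀ hκ0]
    linarith
  calc ∫ p, G p ^ 4 = XX ^ 2 := hX2.symm
    _ ≤ (2 * K0 / κ) ^ 2 := pow_le_pow_left₀ hX0 hX 2

/-- `U ∈ L^{2+2γ}` for every `γ ∈ (0,1]`:
`(4γ/(1+γ)²) ‖G_ε‖₄² ≤ ∫ U³ φ_ε ≤ ∫_{B_R} U^{3+γ} + ‖U‖²_{L⁴(B_R^c)} ‖G_ε‖₄²`, `ε → 0`. -/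
theorem ext_Lq {U : D} (h1 : ‖fn U‖ = 1) (hS : ‖U‖ ^ 2 = S)
    (h0 : 0 ≤ᵐ[volume] (fn U : E4 → ℝ)) {γ : ℝ} (hγ : 0 < γ) (hγ1 : γ ≤ 1) :
    Integrable (fun p => fn U p ^ (2 + 2 * γ)) volume := by
  obtain ⟨K, hK, hb⟩ := ext_bound h1 hS h0 hγ hγ1
  have hUm : Measurable (fn U : E4 → ℝ) := (Lp.stronglyMeasurable (fn U)).measurable
  have hm : Measurable (fun p => fn U p ^ (2 + 2 * γ)) := hUm.pow_const _
  refine ⟨hm.aestronglyMeasurable, ?_⟩
  set e : ℕ → ℝ := fun n => 1 / ((n:ℝ) + 1) with he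
  have he0 : ∀ n, 0 < e n := fun n => by positivity
  have het : Tendsto e atTop (𝓝 0) := tendsto_one_div_add_atTop_nhds_zero_nat
  set G : ℕ → E4 → ℝ := fun n p => (fn U p + e n) ^ ((1 + γ) / 2) - e n ^ ((1 + γ) / 2) with hG
  have hGm : ∀ n, Measurable (fun p => ENNReal.ofReal (G n p ^ 4)) := by
    intro n
    apply Measurable.ennreal_ofReal
    exact (((hUm.add_const _).pow_const _).sub_const _).pow_const 4
  have hlim : ∀ᵐ p ∂(volume : Measure E4),
      Tendsto (fun n => ENNReal.ofReal (G n p ^ 4)) atTop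
        (𝓝 (ENNReal.ofReal (fn U p ^ (2 + 2 * γ)))) := by
    filter_upwards [h0] with p hp
    have hp' : 0 ≤ fn U p := hp
    apply ENNReal.tendsto_ofReal
    have h2 : Tendsto (fun n => fn U p + e n) atTop (𝓝 (fn U p)) := by
      have := het.const_add (fn U p)
      simpa using this
    have h3 : Tendsto (fun n => (fn U p + e n) ^ ((1 + γ) / 2)) atTop
        (𝓝 (fn U p ^ ((1 + γ) / 2))) :=
      h2.rpow_const (Or.inr (by positivity))
    have h4 : Tendsto (fun n => e n ^ ((1 + γ) / 2)) atTop (𝓝 ((0:ℝ) ^ ((1 + γ) / 2))) :=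
      het.rpow_const (Or.inr (by positivity))
    rw [Real.zero_rpow (by positivity)] at h4
    have h5 := (h3.sub h4).pow 4
    rw [sub_zero] at h5
    have h6 : (fn U p ^ ((1 + γ) / 2)) ^ 4 = fn U p ^ (2 + 2 * γ) := by
      rw [← Real.rpow_natCast, ← Real.rpow_mul hp']
      congr 1
      push_cast
      ring
    rw [← h6]
    exact h5
  have hFatou : ∫⁻ p, ENNReal.ofReal (fn U p ^ (2 + 2 * γ)) ≤ ENNReal.ofReal K := by
    calc ∫⁻ p, ENNReal.ofReal (fn U p ^ (2 + 2 * γ))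
        = ∫⁻ p, liminf (fun n => ENNReal.ofReal (G n p ^ 4)) atTop := by
          apply lintegral_congr_ae
          filter_upwards [hlim] with p hp
          exact hp.liminf_eq.symm
      _ ≤ liminf (fun n => ∫⁻ p, ENNReal.ofReal (G n p ^ 4)) atTop :=
          lintegral_liminf_le hGm
      _ ≤ ENNReal.ofReal K := by
          have h2 : ∀ n, ∫⁻ p, ENNReal.ofReal (G n p ^ 4) ≤ ENNReal.ofReal K := by
            intro n
            obtain ⟨h3, h4⟩ := hb (e n) (he0 n)
            have hIG : Integrable (fun p => G n p ^ 4) volume := by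
              have h5 := h3.integrable_norm_pow (p := 4) (by norm_num)
              refine h5.congr ?_
              filter_upwards with p
              rw [Real.norm_eq_abs]
              exact Even.pow_abs (by decide) _
            rw [← ofReal_integral_eq_lintegral_ofReal hIG
              (Eventually.of_forall fun p => by
                show 0 ≤ G n p ^ 4
                positivity)]
            exact ENNReal.ofReal_le_ofReal h4
          refine (liminf_le_liminf (Eventually.of_forall h2)).trans ?_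
          rw [liminf_const]
  rw [hasFiniteIntegral_iff_ofReal]
  · exact hFatou.trans_lt ENNReal.ofReal_lt_top
  · filter_upwards [h0] with p hp
    exact Real.rpow_nonneg hp _

/-- growth of `∫_{B_R} U²` is slower than any power -/
theorem ext_growth {U : D} (h1 : ‖fn U‖ = 1) (hS : ‖U‖ ^ 2 = S)
    (h0 : 0 ≤ᵐ[volume] (fn U : E4 → ℝ)) {γ : ℝ} (hγ : 0 < γ) (hγ1 : γ ≤ 1) :
    ∃ C : ℝ, 0 < C ∧ ∀ R : ℝ, 1 ≤ R → ∫ p in ball (0:E4) R, fn U p ^ 2 ≤ C * R ^ (4 * γ) := by
  have hI := ext_Lq h1 hS h0 hγ hγ1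
  set J : ℝ := ∫ p, fn U p ^ (2 + 2 * γ) with hJ
  have hJ0 : 0 ≤ J := by
    apply integral_nonneg_of_ae
    filter_upwards [h0] with p hp
    exact Real.rpow_nonneg hp _
  set κ : ℝ := (volume (ball (0:E4) 1)).toReal with hκ
  have hκ0 : 0 ≤ κ := ENNReal.toReal_nonneg
  refine ⟨J + κ + 1, by positivity, ?_⟩
  intro R hR
  have hR0 : 0 < R := by linarith
  have hBt : volume (ball (0:E4) R) < ⊤ := measure_ball_lt_top
  have : IsFiniteMeasure (volume.restrict (ball (0:E4) R)) := ⟨by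
    rw [Measure.restrict_apply_univ]; exact hBt⟩
  have h2 : ∫ p in ball (0:E4) R, fn U p ^ 2 ≤
      ∫ p in ball (0:E4) R, (R ^ (4 * γ) * fn U p ^ (2 + 2 * γ) + (R ^ 4)⁻¹) := by
    apply integral_mono_ae (integrableOn_sq (fn U) hBt)
      ((hI.const_mul _).restrict.add (integrable_const _))
    apply ae_restrict_of_ae
    filter_upwards [h0] with p hp
    have hp' : 0 ≤ fn U p := hp
    show fn U p ^ 2 ≤ R ^ (4 * γ) * fn U p ^ (2 + 2 * γ) + (R ^ 4)⁻¹
    rcases le_total (fn U p ^ 2) ((R ^ 4)⁻¹) with h | h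
    · have h3 : 0 ≤ R ^ (4 * γ) * fn U p ^ (2 + 2 * γ) := by positivity
      linarith
    · have h3 : R ^ (4 * γ) * fn U p ^ (2 + 2 * γ) = fn U p ^ 2 * (R ^ 4 * fn U p ^ 2) ^ γ := by
        rcases hp'.eq_or_lt with hz | hz
        · rw [← hz]
          rw [Real.zero_rpow (by positivity)]
          simp
        · rw [Real.mul_rpow (by positivity) (by positivity), ← Real.rpow_natCast R 4,
            ← Real.rpow_mul hR0.le, ← Real.rpow_natCast (fn U p) 2, ← Real.rpow_mul hp',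
            Real.rpow_add hz]
          push_cast
          ring
      have h4 : 1 ≤ R ^ 4 * fn U p ^ 2 := by
        have h5 : R ^ 4 * (R ^ 4)⁻¹ = 1 := mul_inv_cancel₀ (by positivity)
        calc (1:ℝ) = R ^ 4 * (R ^ 4)⁻¹ := h5.symm
          _ ≤ R ^ 4 * fn U p ^ 2 := mul_le_mul_of_nonneg_left h (by positivity)
      have h5 : 1 ≤ (R ^ 4 * fn U p ^ 2) ^ γ := Real.one_le_rpow h4 hγ.le
      have h6 : 0 ≤ (R ^ 4)⁻¹ := by positivity
      rw [h3]
      nlinarith [sq_nonneg (fn U p)]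
  rw [integral_add (hI.const_mul _).restrict (integrable_const _), integral_const_mul,
    setIntegral_const, measureReal_def, smul_eq_mul] at h2
  have h3 : ∫ p in ball (0:E4) R, fn U p ^ (2 + 2 * γ) ≤ J :=
    setIntegral_le_integral hI (by
      filter_upwards [h0] with p hp
      exact Real.rpow_nonneg hp _)
  have h4 : (volume (ball (0:E4) R)).toReal * (R ^ 4)⁻¹ = κ := by
    rw [Measure.addHaar_ball _ _ hR0.le, ENNReal.toReal_mul, ENNReal.toReal_ofReal (by positivity)]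
    have h7 : Module.finrank ℝ E4 = 4 := by simp
    rw [h7, hκ]
    field_simp
  rw [h4] at h2
  have h5 : 1 ≤ R ^ (4 * γ) := Real.one_le_rpow hR (by positivity)
  have h6 : R ^ (4 * γ) * ∫ p in ball (0:E4) R, fn U p ^ (2 + 2 * γ) ≤ R ^ (4 * γ) * J :=
    mul_le_mul_of_nonneg_left h3 (by positivity)
  nlinarith

end Pool.Agent.H57.BN
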