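import Pool.Agent.H57.BN.Base

set_option autoImplicit false

open MeasureTheory Filter Topology Metric Set
open scoped ENNReal NNReal ContDiff

namespace Pool.Agent.H57.BN

/-- change of variables for the scaling -/
theorem integral_scale (f : E4 → ℝ) (z : E4) {r : ℝ} (hr : 0 < r) :
    ∫ p, f (z + r • p) = (r ^ 4)⁻¹ * ∫ p, f p := by
  have h1 := Measure.integral_comp_smul (volume : Measure E4) (fun p => f (z + p)) r
  have h2 : ∫ p, f (z + p) = ∫ p, f p := integral_add_left_eq_self f z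
  rw [h2] at h1
  simp only [finrank_euclideanSpace, Fintype.card_fin, smul_eq_mul] at h1
  rw [h1, abs_of_pos (by positivity)]

theorem setIntegral_scale (f : E4 → ℝ) (z c : E4) {r ρ : ℝ} (hr : 0 < r) :
    ∫ p in ball c ρ, f (z + r • p) = (r ^ 4)⁻¹ * ∫ p in ball (z + r • c) (r * ρ), f p := by
  rw [← integral_indicator measurableSet_ball, ← integral_indicator measurableSet_ball,
    ← integral_scale _ z hr]
  congr 1
  ext p
  have h1 : p ∈ ball c ρ ↔ z + r • p ∈ ball (z + r • c) (r * ρ) := by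
    rw [mem_ball, mem_ball, dist_add_left, dist_smul₀, Real.norm_eq_abs, abs_of_pos hr]
    exact (mul_lt_mul_iff_right₀ hr).symm
  by_cases hp : p ∈ ball c ρ
  · rw [indicator_of_mem hp, indicator_of_mem (h1.1 hp)]
  · rw [indicator_of_notMem hp, indicator_of_notMem (fun h => hp (h1.2 h))]

theorem scale_lintegral (f : E4 → ℝ≥0∞) (z : E4) {r : ℝ} (hr : 0 < r) :
    ∫⁻ p, f (z + r • p) = ENNReal.ofReal ((r ^ 4)⁻¹) * ∫⁻ p, f p := by
  have h0 : ∫⁻ p, f (z + p) = ∫⁻ p, f p := lintegral_add_left_eq_self f z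
  have h1 : ∫⁻ p, f (z + r • p) = ∫⁻ p, f (z + p) ∂(Measure.map (fun p : E4 => r • p) volume) := by
    have : MeasurableEmbedding (fun p : E4 => r • p) :=
      (Homeomorph.smulOfNeZero r hr.ne').measurableEmbedding
    rw [this.lintegral_map]
  rw [h1, Measure.map_addHaar_smul _ hr.ne', lintegral_smul_measure, h0]
  simp only [finrank_euclideanSpace, Fintype.card_fin, smul_eq_mul]
  rw [abs_of_pos (by positivity)]

theorem volume_scale (s : Set E4) (z : E4) {r : ℝ} (hr : 0 < r) :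
    volume {p : E4 | z + r • p ∈ s} = ENNReal.ofReal ((r ^ 4)⁻¹) * volume s := by
  have h1 : {p : E4 | z + r • p ∈ s} = (fun p : E4 => r • p) ⁻¹' ((fun p => z + p) ⁻¹' s) := rfl
  rw [h1, Measure.addHaar_preimage_smul _ hr.ne', measure_preimage_add]
  simp only [finrank_euclideanSpace, Fintype.card_fin]
  rw [abs_of_pos (by positivity)]

theorem scale_grad {φ : E4 → ℝ} (hφ : Differentiable ℝ φ) (z : E4) (r : ℝ) (p : E4) :
    gradient (fun p => r * φ (z + r • p)) p = (r ^ 2) • gradient φ (z + r • p) := by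
  have h1 : HasFDerivAt (fun p : E4 => z + r • p) (r • ContinuousLinearMap.id ℝ E4) p :=
    ((hasFDerivAt_id p).const_smul r).const_add z
  have h2 : HasFDerivAt φ (fderiv ℝ φ (z + r • p)) (z + r • p) := (hφ _).hasFDerivAt
  have h3 : HasFDerivAt (fun p : E4 => r * φ (z + r • p))
      (r • (fderiv ℝ φ (z + r • p)).comp (r • ContinuousLinearMap.id ℝ E4)) p :=
    (h2.comp p h1).const_mul r
  rw [gradient, h3.fderiv, gradient, ← map_smul]
  congr 1
  ext v
  simp [sq, mul_assoc]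

theorem scale_test {Ω : Set E4} {φ : E4 → ℝ} (hφ : IsTest Ω φ) (z : E4) {r : ℝ} (hr : 0 < r) :
    IsTest {p | z + r • p ∈ Ω} (fun p => r * φ (z + r • p)) := by
  let e : E4 ≃ₜ E4 := (Homeomorph.smulOfNeZero r hr.ne').trans (Homeomorph.addLeft z)
  have he : ∀ p, e p = z + r • p := fun p => rfl
  refine ⟨?_, ?_, ?_⟩
  · have h1 : ContDiff ℝ ∞ (fun p : E4 => z + r • p) := by fun_prop
    exact contDiff_const.mul (hφ.smooth.comp h1)
  · have h1 : HasCompactSupport (φ ∘ e) := hφ.comp.comp_homeomorph e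
    exact HasCompactSupport.mul_left h1
  · have h1 : tsupport (fun p => r * φ (z + r • p)) ⊆ tsupport (φ ∘ e) := tsupport_mul_subset_right
    refine h1.trans ?_
    have h2 : tsupport (φ ∘ e) ⊆ e ⁻¹' tsupport φ := by
      exact tsupport_comp_subset_preimage φ e.continuous
    intro p hp
    exact hφ.supp (h2 hp)

/-- scaled element from a test function -/
theorem scale_test_norm {Ω : Set E4} {φ ψ : E4 → ℝ} (hφ : IsTest Ω φ) (hψ : IsTest Ω ψ) (z : E4)
    {r : ℝ} (hr : 0 < r) :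
    ‖toD (scale_test hφ z hr) - toD (scale_test hψ z hr)‖ = ‖toD hφ - toD hψ‖ := by
  have hdφ : Differentiable ℝ φ := hφ.smooth.differentiable (by norm_num)
  have hdψ : Differentiable ℝ ψ := hψ.smooth.differentiable (by norm_num)
  have h1 : ‖toD (scale_test hφ z hr) - toD (scale_test hψ z hr)‖ ^ 2 = ‖toD hφ - toD hψ‖ ^ 2 := by
    rw [norm_sq, norm_sq]
    have e1 : ∫ p, ‖gr (toD (scale_test hφ z hr) - toD (scale_test hψ z hr)) p‖ ^ 2 =
        ∫ p, (fun p => r ^ 4 * ‖gradient φ p - gradient ψ p‖ ^ 2) (z + r • p) := by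
      refine integral_congr_ae ?_
      have h2 : gr (toD (scale_test hφ z hr) - toD (scale_test hψ z hr)) =ᵐ[volume]
          (gr (toD (scale_test hφ z hr)) : E4 → E4) - gr (toD (scale_test hψ z hr)) :=
        Lp.coeFn_sub _ _
      filter_upwards [h2, gr_toD_ae (scale_test hφ z hr), gr_toD_ae (scale_test hψ z hr)] with
        p h3 h4 h5
      rw [h3, Pi.sub_apply, h4, h5, scale_grad hdφ, scale_grad hdψ, ← smul_sub, norm_smul,
        Real.norm_eq_abs, mul_pow, sq_abs]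
      ring
    have e2 : ∫ p, ‖gr (toD hφ - toD hψ) p‖ ^ 2 = ∫ p, ‖gradient φ p - gradient ψ p‖ ^ 2 := by
      refine integral_congr_ae ?_
      have h2 : gr (toD hφ - toD hψ) =ᵐ[volume]
          (gr (toD hφ) : E4 → E4) - gr (toD hψ) := Lp.coeFn_sub _ _
      filter_upwards [h2, gr_toD_ae hφ, gr_toD_ae hψ] with p h3 h4 h5
      rw [h3, Pi.sub_apply, h4, h5]
    rw [e1, integral_scale (fun p => r ^ 4 * ‖gradient φ p - gradient ψ p‖ ^ 2) z hr,
      integral_const_mul, e2]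
    field_simp
  exact (sq_eq_sq₀ (norm_nonneg _) (norm_nonneg _)).1 h1

theorem scale_test_norm' {Ω : Set E4} {φ : E4 → ℝ} (hφ : IsTest Ω φ) (z : E4)
    {r : ℝ} (hr : 0 < r) : ‖toD (scale_test hφ z hr)‖ = ‖toD hφ‖ := by
  have hdφ : Differentiable ℝ φ := hφ.smooth.differentiable (by norm_num)
  have h1 : ‖toD (scale_test hφ z hr)‖ ^ 2 = ‖toD hφ‖ ^ 2 := by
    rw [norm_sq, norm_sq]
    have e1 : ∫ p, ‖gr (toD (scale_test hφ z hr)) p‖ ^ 2 =
        ∫ p, (fun p => r ^ 4 * ‖gradient φ p‖ ^ 2) (z + r • p) := by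
      refine integral_congr_ae ?_
      filter_upwards [gr_toD_ae (scale_test hφ z hr)] with p h4
      rw [h4, scale_grad hdφ, norm_smul, Real.norm_eq_abs, mul_pow, sq_abs]
      ring
    have e2 : ∫ p, ‖gr (toD hφ) p‖ ^ 2 = ∫ p, ‖gradient φ p‖ ^ 2 := by
      refine integral_congr_ae ?_
      filter_upwards [gr_toD_ae hφ] with p h4
      rw [h4]
    rw [e1, integral_scale (fun p => r ^ 4 * ‖gradient φ p‖ ^ 2) z hr, integral_const_mul, e2]
    field_simp
  exact (sq_eq_sq₀ (norm_nonneg _) (norm_nonneg _)).1 h1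

theorem scale_aux {Ω : Set E4} {x : D} (hx : x ∈ H Ω) (z : E4) {r : ℝ} (hr : 0 < r) :
    ∃ y : D, (fn y =ᵐ[volume] fun p => r * fn x (z + r • p)) ∧ ‖y‖ = ‖x‖ ∧ ‖fn y‖ = ‖fn x‖ ∧
      y ∈ H {p | z + r • p ∈ Ω} := by
  obtain ⟨φ, hφ, hlim, h1, -⟩ := exists_test_ae hx
  let y : ℕ → D := fun n => toD (scale_test (hφ n) z hr)
  have hcau : CauchySeq y := by
    rw [Metric.cauchySeq_iff]
    intro ε hε
    obtain ⟨N, hN⟩ := Metric.cauchySeq_iff.1 hlim.cauchySeq ε hε
    refine ⟨N, fun m hm n hn => ?_⟩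
    have := hN m hm n hn
    rw [dist_eq_norm] at this ⊢
    rw [scale_test_norm (hφ m) (hφ n) z hr]
    exact this
  obtain ⟨u, hu⟩ := cauchySeq_tendsto_of_complete hcau
  obtain ⟨ψ, hψ, h2⟩ := exists_ae_subseq_Lp ((fn.continuous.tendsto u).comp hu)
  have hq : ∀ {P : E4 → Prop}, (∀ᵐ p ∂(volume : Measure E4), P p) →
      ∀ᵐ p ∂(volume : Measure E4), P (z + r • p) := by
    intro P hP
    rw [ae_iff] at hP ⊢
    have h3 := volume_scale {a | ¬ P a} z hr
    rw [hP, mul_zero] at h3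
    exact h3
  have hfn : fn u =ᵐ[volume] fun p => r * fn x (z + r • p) := by
    filter_upwards [h2, hq h1, ae_all_iff.2 fun n => fn_toD_ae (scale_test (hφ n) z hr)] with
      p h3 h4 h5
    have h6 : Tendsto (fun n => r * φ (ψ n) (z + r • p)) atTop (𝓝 (r * fn x (z + r • p))) :=
      (h4.comp hψ.tendsto_atTop).const_mul r
    refine tendsto_nhds_unique h3 (h6.congr fun n => ?_)
    simp only [Function.comp_apply, y]
    rw [h5]
  refine ⟨u, hfn, ?_, ?_, ?_⟩
  · have h3 : Tendsto (fun n => ‖y n‖) atTop (𝓝 ‖u‖) := hu.norm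
    have h4 : Tendsto (fun n => ‖y n‖) atTop (𝓝 ‖x‖) :=
      hlim.norm.congr (fun n => (scale_test_norm' (hφ n) z hr).symm)
    exact tendsto_nhds_unique h3 h4
  · have h3 : m4 u = m4 x := by
      rw [m4, m4]
      have e1 : ∫ p, fn u p ^ 4 = ∫ p, (fun p => r ^ 4 * fn x p ^ 4) (z + r • p) := by
        refine integral_congr_ae ?_
        filter_upwards [hfn] with p hp
        rw [hp]; ring
      rw [e1, integral_scale (fun p => r ^ 4 * fn x p ^ 4) z hr, integral_const_mul]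
      field_simp
    rw [m4_eq, m4_eq] at h3
    exact (pow_left_inj₀ (norm_nonneg _) (norm_nonneg _) (by norm_num)).1 h3
  · exact mem_H_iff_seq.2 ⟨_, fun n => scale_test (hφ n) z hr, hu⟩

/-- the scaling `u ↦ r u(z + r ·)` is an isometry of `D` preserving the `L⁴` norm. -/
theorem exists_scale (x : D) (z : E4) {r : ℝ} (hr : 0 < r) :
    ∃ y : D, (fn y =ᵐ[volume] fun p => r * fn x (z + r • p)) ∧ ‖y‖ = ‖x‖ ∧ ‖fn y‖ = ‖fn x‖ ∧
      ∀ Ω : Set E4, x ∈ H Ω → y ∈ H {p | z + r • p ∈ Ω} := by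
  obtain ⟨y, h1, h2, h3, -⟩ := scale_aux (mem_H_univ x) z hr
  refine ⟨y, h1, h2, h3, fun Ω hx => ?_⟩
  obtain ⟨y', h1', -, -, h4'⟩ := scale_aux hx z hr
  have : y = y' := D_ext (h1.trans h1'.symm)
  rw [this]
  exact h4'

end Pool.Agent.H57.BN
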