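import Pool.Agent.H57.BN.CutE
import Pool.Agent.H57.BN.Scale
import Pool.Agent.H57.BN.Lq

set_option autoImplicit false

open MeasureTheory Filter Topology Metric Set
open scoped ENNReal NNReal ContDiff

namespace Pool.Agent.H57.BN

/-- If the conclusion of `bn` fails, then by scaling, for all `R > 0` and `x ∈ H (ball 0 R)`:
`S‖x‖₄² ≤ ‖x‖² - (c/R²) ∫x²`, `c = θ r²`. -/
theorem bn_scale {θ r : ℝ} (hθ : 0 < θ) (hr : 0 < r)
    (hno : ∀ x ∈ H (ball (0:E4) r), S * ‖fn x‖ ^ 2 ≤ ‖x‖ ^ 2 - θ * m2 x) {R : ℝ} (hR : 0 < R)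
    {x : D} (hx : x ∈ H (ball (0:E4) R)) :
    S * ‖fn x‖ ^ 2 ≤ ‖x‖ ^ 2 - θ * r ^ 2 / R ^ 2 * m2 x := by
  have _ := hθ
  set s : ℝ := R / r with hs
  have hs0 : 0 < s := by positivity
  obtain ⟨y, h1, h2, h3, h4⟩ := exists_scale x 0 hs0
  have h5 : {p : E4 | 0 + s • p ∈ ball (0:E4) R} = ball (0:E4) r := by
    ext p
    simp only [zero_add, mem_setOf_eq, mem_ball_zero_iff, norm_smul, Real.norm_eq_abs,
      abs_of_pos hs0]
    rw [hs, div_mul_eq_mul_div, div_lt_iff₀ hr]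
    exact mul_lt_mul_iff_right₀ hR
  have hy : y ∈ H (ball (0:E4) r) := by
    have := h4 _ hx
    rwa [h5] at this
  have h6 := hno y hy
  have h7 : m2 y = r ^ 2 / R ^ 2 * m2 x := by
    have e1 : m2 y = ∫ p, (fun p => s ^ 2 * fn x p ^ 2) (0 + s • p) := by
      rw [m2]
      refine integral_congr_ae ?_
      filter_upwards [h1] with p hp
      rw [hp]; ring
    rw [e1, integral_scale (fun p => s ^ 2 * fn x p ^ 2) 0 hs0, integral_const_mul, ← m2, hs]
    field_simp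
  rw [h2, h3, h7] at h6
  calc S * ‖fn x‖ ^ 2 ≤ ‖x‖ ^ 2 - θ * (r ^ 2 / R ^ 2 * m2 x) := h6
    _ = _ := by ring

/-- ... and, testing with `χU`: `g(R) ≤ C (g(2R) - g(R))`, `g(R) = ∫_{B_R} U²`. -/
theorem bn_growth {θ r : ℝ} (hθ : 0 < θ) (hr : 0 < r)
    (hno : ∀ x ∈ H (ball (0:E4) r), S * ‖fn x‖ ^ 2 ≤ ‖x‖ ^ 2 - θ * m2 x) {U : D}
    (h1 : ‖fn U‖ = 1) (hS : ‖U‖ ^ 2 = S) : ∃ C : ℝ, 0 < C ∧ ∀ R : ℝ, 0 < R →
    ∫ p in ball (0:E4) R, fn U p ^ 2 ≤
      C * ((∫ p in ball (0:E4) (2 * R), fn U p ^ 2) - ∫ p in ball (0:E4) R, fn U p ^ 2) := by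
  obtain ⟨K, hK, hcut⟩ := exists_cutoff
  refine ⟨4 * K ^ 2 / (θ * r ^ 2), by positivity, fun R hR => ?_⟩
  obtain ⟨χ, c1, c2, c3, c4, c5, c6, c7, c8, c9⟩ := hcut 0 R hR
  obtain ⟨y, z, y1, z1, e1, -, -, hint, -, hsup⟩ := cut_energy c1 c2 c4 U
  have hyH : y ∈ H (ball (0:E4) (2 * R)) := (hsup _ c3).1
  have hsc := bn_scale hθ hr hno (by positivity : 0 < 2 * R) hyH
  -- the equation
  have heq : inner ℝ U z = S * ∫ p, fn U p ^ 3 * fn z p := by
    have h3 := cvx_S h1 z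
    rw [hS, sub_self, zero_mul] at h3
    have h4 := pow_eq_zero_iff (n := 2) (by norm_num) |>.mp (le_antisymm h3 (sq_nonneg _))
    linarith
  have h5 : ∫ p, fn U p ^ 3 * fn z p ≤ ‖fn y‖ ^ 2 := by
    have h6 : ∫ p, fn U p ^ 3 * fn z p = ∫ p, (fn y p * fn U p) ^ 2 := by
      refine integral_congr_ae ?_
      filter_upwards [y1, z1] with p hp hp'
      rw [hp, hp']; ring
    rw [h6]
    have := hol_integral_sq_mul_sq_le (fn y) (fn U)
    rwa [h1, mul_one] at this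
  have hSp := S_pos
  -- bound of the gradient term
  have i1 : IntegrableOn (fun p => fn U p ^ 2) (ball (0:E4) R) volume :=
    integrableOn_sq _ measure_ball_lt_top
  have i2 : IntegrableOn (fun p => fn U p ^ 2) (ball (0:E4) (2 * R)) volume :=
    integrableOn_sq _ measure_ball_lt_top
  have j1 := (integrable_indicator_iff measurableSet_ball).2 i1
  have j2 := (integrable_indicator_iff measurableSet_ball).2 i2
  have hgrad : ∫ p, ‖gradient χ p‖ ^ 2 * fn U p ^ 2 ≤ (K / R) ^ 2 *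
      ((∫ p in ball (0:E4) (2 * R), fn U p ^ 2) - ∫ p in ball (0:E4) R, fn U p ^ 2) := by
    rw [← integral_indicator measurableSet_ball, ← integral_indicator measurableSet_ball,
      ← integral_sub j2 j1, ← integral_const_mul]
    refine integral_mono hint ((j2.sub j1).const_mul _) (fun p => ?_)
    simp only
    by_cases hp : p ∈ ball (0:E4) R
    · have hp2 : p ∈ ball (0:E4) (2 * R) := ball_subset_ball (by linarith) hp
      rw [indicator_of_mem hp, indicator_of_mem hp2, c9 p hp]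
      simp
    · rw [indicator_of_notMem hp, sub_zero]
      by_cases hp2 : p ∈ ball (0:E4) (2 * R)
      · rw [indicator_of_mem hp2]
        have := c7 p
        gcongr
      · rw [indicator_of_notMem hp2, c8 p hp2]
        simp
  have hm2 : ∫ p in ball (0:E4) R, fn U p ^ 2 ≤ m2 y := by
    have j3 : Integrable (fun p => fn y p ^ 2) (volume : Measure E4) := by
      have h7 : MemLp (fn y) 2 (volume : Measure E4) :=
        memLp_of_support (fn y) (E := ball (0:E4) (2 * R)) measurableSet_ball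
          measure_ball_lt_top (fn_outside measurableSet_ball hyH) (by norm_num)
      exact h7.integrable_sq
    rw [← integral_indicator measurableSet_ball, m2]
    refine integral_mono_ae j1 j3 ?_
    filter_upwards [y1] with p hp
    by_cases hpR : p ∈ ball (0:E4) R
    · rw [indicator_of_mem hpR, hp, c5 p hpR, one_mul]
    · rw [indicator_of_notMem hpR]
      positivity
  have hfin : θ * r ^ 2 / (2 * R) ^ 2 * m2 y ≤ ∫ p, ‖gradient χ p‖ ^ 2 * fn U p ^ 2 := by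
    have h8 : S * ∫ p, fn U p ^ 3 * fn z p ≤ S * ‖fn y‖ ^ 2 := by gcongr
    rw [e1, heq] at hsc
    linarith
  have h9 : m2 y ≤ (2 * R) ^ 2 / (θ * r ^ 2) * ∫ p, ‖gradient χ p‖ ^ 2 * fn U p ^ 2 := by
    rw [div_mul_eq_mul_div, div_le_iff₀ (by positivity)] at hfin
    rw [div_mul_eq_mul_div, le_div_iff₀ (by positivity)]
    linarith
  calc ∫ p in ball (0:E4) R, fn U p ^ 2 ≤ m2 y := hm2
    _ ≤ (2 * R) ^ 2 / (θ * r ^ 2) * ∫ p, ‖gradient χ p‖ ^ 2 * fn U p ^ 2 := h9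
    _ ≤ (2 * R) ^ 2 / (θ * r ^ 2) * ((K / R) ^ 2 *
      ((∫ p in ball (0:E4) (2 * R), fn U p ^ 2) - ∫ p in ball (0:E4) R, fn U p ^ 2)) := by
        gcongr
    _ = _ := by
        field_simp
        ring

end Pool.Agent.H57.BN
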