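import Pool.Agent.H57.BN.Ext
import Pool.Agent.H57.BN.BNs

set_option autoImplicit false

open MeasureTheory Filter Topology Metric Set
open scoped ENNReal NNReal ContDiff

namespace Pool.Agent.H57.BN

theorem bnl_pos {U : D} (h1 : ‖fn U‖ = 1) : ∃ n : ℕ, 0 < ∫ p in ball (0:E4) (2 ^ n), fn U p ^ 2 := by
  by_contra hcon
  push Not at hcon
  have h2 : ∀ n : ℕ, ∀ᵐ p ∂(volume : Measure E4), p ∈ ball (0:E4) (2 ^ n) → fn U p = 0 := by
    intro n
    have h3 : ∫ p in ball (0:E4) (2 ^ n), fn U p ^ 2 = 0 :=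
      le_antisymm (hcon n) (integral_nonneg fun p => by positivity)
    rw [integral_eq_zero_iff_of_nonneg_ae (Eventually.of_forall fun p => by positivity)
      (integrableOn_sq _ measure_ball_lt_top)] at h3
    have h4 := (ae_restrict_iff' measurableSet_ball).1 h3
    filter_upwards [h4] with p hp hpn
    exact pow_eq_zero_iff (two_ne_zero) |>.1 (hp hpn)
  have h5 : fn U = 0 := by
    refine Lp.ext ?_
    filter_upwards [ae_all_iff.2 h2, Lp.coeFn_zero ℝ 4 (volume : Measure E4)] with p hp hp0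
    rw [hp0, Pi.zero_apply]
    obtain ⟨n, hn⟩ := pow_unbounded_of_one_lt ‖p‖ (show (1:ℝ) < 2 by norm_num)
    exact hp n (by simpa using hn)
  rw [h5, norm_zero] at h1
  exact zero_ne_one h1

/-- Brezis–Nirenberg, `N = 4`. -/
theorem bn {θ r : ℝ} (hθ : 0 < θ) (hr : 0 < r) :
    ∃ x ∈ H (ball (0:E4) r), ‖fn x‖ = 1 ∧ ‖x‖ ^ 2 - θ * m2 x < S := by
  by_contra hcon
  push Not at hcon
  have hno : ∀ x ∈ H (ball (0:E4) r), S * ‖fn x‖ ^ 2 ≤ ‖x‖ ^ 2 - θ * m2 x := by
    intro x hx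
    by_cases hx0 : fn x = 0
    · have : x = 0 := fn_inj hx0
      subst this
      have e : m2 (0 : D) = 0 := by
        rw [m2]
        have h0 : fn (0 : D) =ᵐ[volume] (0 : E4 → ℝ) := by
          rw [map_zero]; exact Lp.coeFn_zero _ _ _
        have : ∫ p, fn (0 : D) p ^ 2 = ∫ _ : E4, (0:ℝ) := by
          refine integral_congr_ae ?_
          filter_upwards [h0] with p hp
          rw [hp]; simp
        rw [this]; simp
      rw [e, hx0, norm_zero, norm_zero]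
      simp
    · have hn : 0 < ‖fn x‖ := norm_pos_iff.2 hx0
      set c : ℝ := ‖fn x‖⁻¹ with hc
      have hc0 : 0 < c := by positivity
      have h1 : ‖fn (c • x)‖ = 1 := by
        rw [map_smul, norm_smul, Real.norm_eq_abs, abs_of_pos hc0, hc, inv_mul_cancel₀ hn.ne']
      have h2 := hcon (c • x) ((H _).smul_mem c hx) h1
      have h3 : m2 (c • x) = c ^ 2 * m2 x := by
        rw [m2, m2, ← integral_const_mul]
        have h0 : fn (c • x) =ᵐ[volume] c • fn x := by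
          rw [map_smul]; exact Lp.coeFn_smul _ _
        refine integral_congr_ae ?_
        filter_upwards [h0] with p hp
        rw [hp, Pi.smul_apply, smul_eq_mul]; ring
      have h4 : ‖c • x‖ ^ 2 = c ^ 2 * ‖x‖ ^ 2 := by
        rw [norm_smul, Real.norm_eq_abs, mul_pow, sq_abs]
      rw [h3, h4] at h2
      have h5 : c ^ 2 * ‖fn x‖ ^ 2 = 1 := by
        rw [hc, ← mul_pow, inv_mul_cancel₀ hn.ne', one_pow]
      have h6 : S * (c ^ 2 * ‖fn x‖ ^ 2) ≤ c ^ 2 * (‖x‖ ^ 2 - θ * m2 x) := by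
        rw [h5]; linarith
      have h7 : c ^ 2 * (S * ‖fn x‖ ^ 2) ≤ c ^ 2 * (‖x‖ ^ 2 - θ * m2 x) := by linarith
      exact le_of_mul_le_mul_left h7 (by positivity)
  obtain ⟨U, h1, hS, h0⟩ := exists_extremal
  obtain ⟨C, hC, hg⟩ := bn_growth hθ hr hno h1 hS
  obtain ⟨n0, hn0⟩ := bnl_pos h1
  set g : ℝ → ℝ := fun R => ∫ p in ball (0:E4) R, fn U p ^ 2 with hgdef
  set a : ℝ := 1 + 1 / C with ha
  have ha1 : 1 < a := by
    have : 0 < 1 / C := by positivity
    linarith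
  have hstep : ∀ R : ℝ, 0 < R → a * g R ≤ g (2 * R) := by
    intro R hR
    have h2 := hg R hR
    have h3 : g R ≤ C * (g (2 * R) - g R) := h2
    have h4 : (1 / C) * g R ≤ g (2 * R) - g R := by
      rw [one_div, inv_mul_le_iff₀ hC]; exact h3
    rw [ha, add_mul, one_mul]
    linarith
  have hpow : ∀ k : ℕ, a ^ k * g (2 ^ n0) ≤ g (2 ^ (n0 + k)) := by
    intro k
    induction k with
    | zero => simp
    | succ k ih =>
      have h2 := hstep (2 ^ (n0 + k)) (by positivity)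
      have h3 : a * (a ^ k * g (2 ^ n0)) ≤ a * g (2 ^ (n0 + k)) :=
        mul_le_mul_of_nonneg_left ih (by linarith)
      calc a ^ (k + 1) * g (2 ^ n0) = a * (a ^ k * g (2 ^ n0)) := by ring
        _ ≤ a * g (2 ^ (n0 + k)) := h3
        _ ≤ g (2 * 2 ^ (n0 + k)) := h2
        _ = g (2 ^ (n0 + (k + 1))) := by congr 1; ring
  -- choose γ
  obtain ⟨γ, hγ, hγ1, hγa⟩ : ∃ γ : ℝ, 0 < γ ∧ γ ≤ 1 ∧ (2:ℝ) ^ (4 * γ) < a := by
    have h2 : Tendsto (fun γ : ℝ => (2:ℝ) ^ (4 * γ)) (𝓝[>] 0) (𝓝 1) := by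
      have h3 : Continuous (fun γ : ℝ => (2:ℝ) ^ (4 * γ)) :=
        Continuous.rpow continuous_const (by fun_prop) (fun _ => Or.inl (by norm_num))
      have h4 := h3.tendsto 0
      simp only [mul_zero, Real.rpow_zero] at h4
      exact h4.mono_left nhdsWithin_le_nhds
    have h5 : ∀ᶠ γ : ℝ in 𝓝[>] 0, γ < 1 :=
      nhdsWithin_le_nhds (gt_mem_nhds (by norm_num))
    obtain ⟨γ, h6, h7, h8⟩ := ((h2.eventually_lt_const ha1).and (h5.and self_mem_nhdsWithin)).exists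
    exact ⟨γ, h8, h7.le, h6⟩
  obtain ⟨C', hC', hgr⟩ := ext_growth h1 hS h0 hγ hγ1
  set b : ℝ := (2:ℝ) ^ (4 * γ) with hb
  have hb0 : 0 < b := by positivity
  have hub : ∀ k : ℕ, g (2 ^ (n0 + k)) ≤ C' * b ^ n0 * b ^ k := by
    intro k
    have h2 := hgr (2 ^ (n0 + k)) (one_le_pow₀ (by norm_num))
    refine h2.trans (le_of_eq ?_)
    rw [hb, ← Real.rpow_natCast (2:ℝ) (n0 + k), ← Real.rpow_mul (by norm_num),
      mul_comm ((n0 + k : ℕ) : ℝ), Real.rpow_mul (by norm_num), Real.rpow_natCast, pow_add]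
    ring
  have hratio : 1 < a / b := by rw [lt_div_iff₀ hb0]; linarith
  have hlim := tendsto_pow_atTop_atTop_of_one_lt hratio
  have hG : 0 < g (2 ^ n0) := hn0
  obtain ⟨k, hk⟩ := (hlim.eventually_gt_atTop (C' * b ^ n0 / g (2 ^ n0))).exists
  rw [div_lt_iff₀ hG, div_pow, div_mul_eq_mul_div, lt_div_iff₀ (by positivity)] at hk
  have := hpow k
  have := hub k
  linarith

theorem q_lt_S {lam : ℝ} (h0 : 0 < lam) : q lam < S := by
  obtain ⟨x, hx, h1, h2⟩ := bn h0 (r := 1) one_pos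
  by_cases hbd : BddBelow {s : ℝ | ∃ x ∈ H B, ‖fn x‖ = 1 ∧ s = P lam x}
  · have h3 : q lam ≤ P lam x := csInf_le hbd ⟨x, hx, h1, rfl⟩
    exact h3.trans_lt h2
  · have h3 : q lam = 0 := Real.sInf_of_not_bddBelow hbd
    rw [h3]
    exact S_pos

end Pool.Agent.H57.BN
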