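import Pool.Agent.H57.BN.Eig

set_option autoImplicit false

open MeasureTheory Filter Topology Metric Set
open scoped ENNReal NNReal ContDiff

namespace Pool.Agent.H57.BN

theorem P_pos_of_ne {lam : ℝ} (h0 : 0 < lam) (h1 : lam < Lam) {x : D} (hx : x ∈ H B)
    (hne : x ≠ 0) : 0 < P lam x := by
  refine lt_of_lt_of_le ?_ (P_coer h0 h1 hx)
  have h2 : lam / Lam < 1 := by
    rw [div_lt_one (h0.trans h1)]
    exact h1
  have h3 : 0 < ‖x‖ := norm_pos_iff.2 hne
  have h4 : 0 < 1 - lam / Lam := by linarith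
  positivity

theorem P_nonneg_B {lam : ℝ} (h0 : 0 < lam) (h1 : lam < Lam) {x : D} (hx : x ∈ H B) :
    0 ≤ P lam x := by
  refine le_trans ?_ (P_coer h0 h1 hx)
  have h2 : lam / Lam < 1 := by
    rw [div_lt_one (h0.trans h1)]
    exact h1
  have h4 : 0 < 1 - lam / Lam := by linarith
  positivity

theorem X_smul_smul (s t : ℝ) (x y : D) : X (s • x) (t • y) = s ^ 2 * t ^ 2 * X x y := by
  rw [X, X, ← integral_const_mul]
  refine integral_congr_ae ?_
  rw [map_smul, map_smul]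
  filter_upwards [Lp.coeFn_smul s (fn x), Lp.coeFn_smul t (fn y)] with p h1 h2
  rw [h1, h2, Pi.smul_apply, Pi.smul_apply, smul_eq_mul, smul_eq_mul]
  ring

theorem m4_nonneg' (x : D) : 0 ≤ m4 x := by
  rw [m4_eq]; positivity

theorem m4_zero' : m4 (0 : D) = 0 := by
  rw [m4_eq, map_zero, norm_zero]; norm_num

/-- On `N_b`: `m4 x · m4 y > (b X)²`. -/
theorem Nb_det {lam th b : ℝ} (h0 : 0 < lam) (h1 : lam < Lam) (h2 : 0 < th) (h3 : th < Lam)
    (hb : 0 < b) {z : D × D} (hz : z ∈ Nb lam th b) :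
    (b * X z.1 z.2) ^ 2 < m4 z.1 * m4 z.2 := by
  obtain ⟨hz1, hz2, hn1, hn2, e1, e2⟩ := hz
  have p1 := P_pos_of_ne h0 h1 hz1 hn1
  have p2 := P_pos_of_ne h2 h3 hz2 hn2
  have hX : 0 ≤ b * X z.1 z.2 := mul_nonneg hb.le (X_nonneg _ _)
  have q1 : b * X z.1 z.2 < m4 z.1 := by linarith
  have q2 : b * X z.1 z.2 < m4 z.2 := by linarith
  rw [sq]
  exact mul_lt_mul'' q1 q2 hX hX

/-- `A` is a lower bound on `N_b` -/
theorem A_le {lam th b : ℝ} (h0 : 0 < lam) (h1 : lam < Lam) (h2 : 0 < th) (h3 : th < Lam)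
    (hb : 0 < b) {z : D × D} (hz : z ∈ Nb lam th b) : A lam th b ≤ (P lam z.1 + P th z.2) / 4 := by
  refine csInf_le ⟨0, ?_⟩ ⟨z, hz, rfl⟩
  rintro _ ⟨w, hw, rfl⟩
  have p1 := P_nonneg_B h0 h1 hw.1
  have p2 := P_nonneg_B h2 h3 hw.2.1
  simp only
  positivity

theorem A_nonneg {lam th b : ℝ} (h0 : 0 < lam) (h1 : lam < Lam) (h2 : 0 < th) (h3 : th < Lam)
    (hb : 0 < b) : 0 ≤ A lam th b := by
  refine Real.sInf_nonneg ?_
  rintro _ ⟨w, hw, rfl⟩
  have p1 := P_nonneg_B h0 h1 hw.1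
  have p2 := P_nonneg_B h2 h3 hw.2.1
  simp only
  positivity

/-- scaling to `N_b` -/
theorem exists_scale_Nb {lam th b : ℝ} (h0 : 0 < lam) (h1 : lam < Lam) (h2 : 0 < th) (h3 : th < Lam)
    (hb : 0 < b) {x y : D} (hx : x ∈ H B) (hy : y ∈ H B)
    (hdet : (b * X x y) ^ 2 < m4 x * m4 y) :
    ∃ z ∈ Nb lam th b, (P lam z.1 + P th z.2) * (m4 x * m4 y - (b * X x y) ^ 2) =
      P lam x ^ 2 * m4 y + 2 * P lam x * P th y * (b * X x y) + P th y ^ 2 * m4 x := by
  have hxne : x ≠ 0 := by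
    rintro rfl
    rw [m4_zero', zero_mul] at hdet
    exact absurd hdet (not_lt.2 (sq_nonneg _))
  have hyne : y ≠ 0 := by
    rintro rfl
    rw [m4_zero', mul_zero] at hdet
    exact absurd hdet (not_lt.2 (sq_nonneg _))
  have p1 := P_pos_of_ne h0 h1 hx hxne
  have p2 := P_pos_of_ne h2 h3 hy hyne
  have m1 := m4_pos hxne
  have m2' := m4_pos hyne
  have hX : 0 ≤ b * X x y := mul_nonneg hb.le (X_nonneg _ _)
  set Δ : ℝ := m4 x * m4 y - (b * X x y) ^ 2 with hΔ
  have hΔp : 0 < Δ := by linarith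
  set a : ℝ := (P lam x * m4 y + P th y * (b * X x y)) / Δ with ha
  set c : ℝ := (P th y * m4 x + P lam x * (b * X x y)) / Δ with hc
  have hap : 0 < a := by
    have : 0 < P lam x * m4 y + P th y * (b * X x y) := by positivity
    positivity
  have hcp : 0 < c := by
    have : 0 < P th y * m4 x + P lam x * (b * X x y) := by positivity
    positivity
  have haΔ : a * Δ = P lam x * m4 y + P th y * (b * X x y) := by
    rw [ha]; field_simp
  have hcΔ : c * Δ = P th y * m4 x + P lam x * (b * X x y) := by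
    rw [hc]; field_simp
  have ea : P lam x = a * m4 x - c * (b * X x y) := by
    have : P lam x * Δ = (a * m4 x - c * (b * X x y)) * Δ := by
      calc P lam x * Δ = (a * Δ) * m4 x - (c * Δ) * (b * X x y) := by
            rw [haΔ, hcΔ, hΔ]; ring
        _ = _ := by ring
    exact mul_right_cancel₀ hΔp.ne' this
  have ec : P th y = c * m4 y - a * (b * X x y) := by
    have : P th y * Δ = (c * m4 y - a * (b * X x y)) * Δ := by
      calc P th y * Δ = (c * Δ) * m4 y - (a * Δ) * (b * X x y) := by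
            rw [haΔ, hcΔ, hΔ]; ring
        _ = _ := by ring
    exact mul_right_cancel₀ hΔp.ne' this
  have hsa : Real.sqrt a ^ 2 = a := Real.sq_sqrt hap.le
  have hsc : Real.sqrt c ^ 2 = c := Real.sq_sqrt hcp.le
  have hsa4 : Real.sqrt a ^ 4 = a ^ 2 := by
    calc Real.sqrt a ^ 4 = (Real.sqrt a ^ 2) ^ 2 := by ring
      _ = a ^ 2 := by rw [hsa]
  have hsc4 : Real.sqrt c ^ 4 = c ^ 2 := by
    calc Real.sqrt c ^ 4 = (Real.sqrt c ^ 2) ^ 2 := by ring
      _ = c ^ 2 := by rw [hsc]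
  have hsane : Real.sqrt a ≠ 0 := (Real.sqrt_pos.2 hap).ne'
  have hscne : Real.sqrt c ≠ 0 := (Real.sqrt_pos.2 hcp).ne'
  refine ⟨(Real.sqrt a • x, Real.sqrt c • y), ⟨Submodule.smul_mem _ _ hx,
    Submodule.smul_mem _ _ hy, smul_ne_zero hsane hxne, smul_ne_zero hscne hyne, ?_, ?_⟩, ?_⟩
  · simp only
    rw [P_smul, m4_smul, X_smul_smul, hsa, hsc, hsa4]
    conv_lhs => rw [ea]
    ring
  · simp only
    rw [P_smul, m4_smul, X_smul_smul, hsa, hsc, hsc4]
    conv_lhs => rw [ec]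
    ring
  · simp only
    rw [P_smul, P_smul, hsa, hsc]
    calc (a * P lam x + c * P th y) * Δ = (a * Δ) * P lam x + (c * Δ) * P th y := by ring
      _ = _ := by rw [haΔ, hcΔ]; ring

/-- projecting on `N_b`: for all `x, y ∈ H B` -/
theorem star {lam th b : ℝ} (h0 : 0 < lam) (h1 : lam < Lam) (h2 : 0 < th) (h3 : th < Lam)
    (hb : 0 < b) {x y : D} (hx : x ∈ H B) (hy : y ∈ H B) :
    4 * A lam th b * (m4 x * m4 y - (b * X x y) ^ 2) ≤
      P lam x ^ 2 * m4 y + 2 * P lam x * P th y * (b * X x y) + P th y ^ 2 * m4 x := by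
  by_cases hdet : (b * X x y) ^ 2 < m4 x * m4 y
  · obtain ⟨z, hz, hz2⟩ := exists_scale_Nb h0 h1 h2 h3 hb hx hy hdet
    rw [← hz2]
    have hA := A_le h0 h1 h2 h3 hb hz
    have hΔ : 0 ≤ m4 x * m4 y - (b * X x y) ^ 2 := by linarith
    refine mul_le_mul_of_nonneg_right ?_ hΔ
    linarith
  · have hA := A_nonneg h0 h1 h2 h3 hb
    have hΔ : m4 x * m4 y - (b * X x y) ^ 2 ≤ 0 := by linarith [not_lt.1 hdet]
    have l : 4 * A lam th b * (m4 x * m4 y - (b * X x y) ^ 2) ≤ 0 :=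
      mul_nonpos_of_nonneg_of_nonpos (by positivity) hΔ
    refine l.trans ?_
    have p1 := P_nonneg_B h0 h1 hx
    have p2 := P_nonneg_B h2 h3 hy
    have m1 := m4_nonneg' x
    have m2' := m4_nonneg' y
    have hX : 0 ≤ b * X x y := mul_nonneg hb.le (X_nonneg _ _)
    positivity

/-- a bump function as a test function in the ball -/
theorem isTest_bump {c : E4} (f : ContDiffBump c) (hf : ‖c‖ + f.rOut < 1) :
    IsTest B (f : E4 → ℝ) := by
  refine ⟨f.contDiff, f.hasCompactSupport, ?_⟩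
  rw [f.tsupport_eq]
  intro p hp
  rw [mem_closedBall, dist_eq_norm] at hp
  rw [mem_ball_zero_iff]
  calc ‖p‖ = ‖c + (p - c)‖ := by congr 1; abel
    _ ≤ ‖c‖ + ‖p - c‖ := norm_add_le _ _
    _ < 1 := by linarith

theorem toD_bump_ne {c : E4} (f : ContDiffBump c) (h : IsTest B (f : E4 → ℝ)) : toD h ≠ 0 := by
  intro h0
  have h1 := fn_toD_ae h
  rw [h0, map_zero] at h1
  have h2 : (f : E4 → ℝ) =ᵐ[volume] (fun _ => (0 : ℝ)) := by
    refine h1.symm.trans ?_
    exact Lp.coeFn_zero ℝ 4 (volume : Measure E4)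
  have h3 := (Continuous.ae_eq_iff_eq (volume : Measure E4) f.continuous continuous_const).1 h2
  have h4 : f c = 1 := f.one_of_mem_closedBall (mem_closedBall_self f.rIn_pos.le)
  have h5 : f c = 0 := congrFun h3 c
  rw [h4] at h5
  exact one_ne_zero h5

theorem Nb_nonempty {lam th b : ℝ} (h0 : 0 < lam) (h1 : lam < Lam) (h2 : 0 < th) (h3 : th < Lam)
    (hb : 0 < b) : (Nb lam th b).Nonempty := by
  set c : E4 := EuclideanSpace.single 0 (1 / 2 : ℝ) with hc
  have hcn : ‖c‖ = 1 / 2 := by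
    rw [hc, PiLp.norm_single]; norm_num
  let f : ContDiffBump c := ⟨1 / 8, 1 / 4, by norm_num, by norm_num⟩
  let g : ContDiffBump (-c) := ⟨1 / 8, 1 / 4, by norm_num, by norm_num⟩
  have hf : IsTest B (f : E4 → ℝ) := isTest_bump f (by rw [hcn]; change (1 : ℝ) / 2 + 1 / 4 < 1; norm_num)
  have hg : IsTest B (g : E4 → ℝ) := isTest_bump g
    (by rw [norm_neg, hcn]; change (1 : ℝ) / 2 + 1 / 4 < 1; norm_num)
  have hX : X (toD hf) (toD hg) = 0 := by
    rw [X]
    have : ∫ p, fn (toD hf) p ^ 2 * fn (toD hg) p ^ 2 = ∫ _ : E4, (0 : ℝ) := by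
      refine integral_congr_ae ?_
      filter_upwards [fn_toD_ae hf, fn_toD_ae hg] with p e1 e2
      rw [e1, e2]
      by_cases hp : p ∈ ball c (1 / 4)
      · have hp2 : p ∉ Function.support (g : E4 → ℝ) := by
          rw [g.support_eq]
          intro hp3
          rw [mem_ball, dist_eq_norm] at hp
          have hp3' : ‖p - (-c)‖ < 1 / 4 := by
            rw [← dist_eq_norm]; exact mem_ball.1 hp3
          have h4 : ‖(2 : ℝ) • c‖ < 1 / 2 := by
            calc ‖(2 : ℝ) • c‖ = ‖(p - (-c)) - (p - c)‖ := by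
                  congr 1
                  rw [two_smul]; abel
              _ ≤ ‖p - (-c)‖ + ‖p - c‖ := norm_sub_le _ _
              _ < 1 / 2 := by linarith
          rw [norm_smul, hcn] at h4
          norm_num at h4
        rw [Function.notMem_support.1 hp2]
        ring
      · have hp2 : p ∉ Function.support (f : E4 → ℝ) := by
          rw [f.support_eq]; exact hp
        rw [Function.notMem_support.1 hp2]
        ring
    rw [this, integral_zero]
  have hdet : (b * X (toD hf) (toD hg)) ^ 2 < m4 (toD hf) * m4 (toD hg) := by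
    rw [hX]
    have m1 := m4_pos (toD_bump_ne f hf)
    have m2' := m4_pos (toD_bump_ne g hg)
    rw [mul_zero, zero_pow two_ne_zero]
    exact mul_pos m1 m2'
  obtain ⟨z, hz, -⟩ := exists_scale_Nb h0 h1 h2 h3 hb (toD_mem hf) (toD_mem hg) hdet
  exact ⟨z, hz⟩

end Pool.Agent.H57.BN
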