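import Pool.Agent.H57.BN.Avg
import Pool.Agent.H57.BN.BNl
import Pool.Agent.H57.BN.Min
import Pool.Agent.H57.BN.Star

set_option autoImplicit false

open MeasureTheory Filter Topology Metric Set
open scoped ENNReal NNReal ContDiff

namespace Pool.Agent.H57.BN

/-- the real inequality behind `A_lt` -/
theorem strict_real {q S θ m β Q : ℝ} (hq : 0 < q) (hS : 0 < S) (hθ : 0 < θ) (hm : 0 < m)
    (hβ0 : 0 ≤ β) (hβ : β ≤ θ / 8 * m) (hQ0 : 0 ≤ Q) (hQ : Q ≤ S - θ / 2 * m)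
    (hm1 : θ * m ≤ S) (hm2 : S * θ * m < 24 * q ^ 2) :
    q ^ 4 + 2 * q ^ 2 * Q * β + Q ^ 2 * q ^ 2 < (q ^ 2 + S ^ 2) * (q ^ 2 - β ^ 2) := by
  have hθm : 0 < θ * m := mul_pos hθ hm
  set t : ℝ := θ * m with ht
  have hβt : β ≤ t / 8 := by
    have : θ / 8 * m = t / 8 := by rw [ht]; ring
    linarith
  have hQt : Q ≤ S - t / 2 := by
    have : θ / 2 * m = t / 2 := by rw [ht]; ring
    linarith
  have hst : S * t < 24 * q ^ 2 := by
    have : S * θ * m = S * t := by rw [ht]; ring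
    linarith
  have h1 : Q + β ≤ S - 3 / 8 * t := by linarith
  have h2 : 0 ≤ Q + β := by linarith
  have h3 : (Q + β) ^ 2 ≤ (S - 3 / 8 * t) ^ 2 := pow_le_pow_left₀ h2 h1 2
  have h4 : 39 / 64 * (t * S) ≤ S ^ 2 - (Q + β) ^ 2 := by nlinarith
  have h5 : β ^ 2 ≤ (t / 8) ^ 2 := pow_le_pow_left₀ hβ0 hβt 2
  have h6 : S ^ 2 * β ^ 2 ≤ S ^ 2 * (t / 8) ^ 2 := mul_le_mul_of_nonneg_left h5 (sq_nonneg S)
  have hSt : 0 < S * t := mul_pos hS hθm
  have h7 : S ^ 2 * (t / 8) ^ 2 < 24 / 64 * q ^ 2 * (S * t) := by nlinarith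
  have h8 : q ^ 2 * (39 / 64 * (t * S)) ≤ q ^ 2 * (S ^ 2 - (Q + β) ^ 2) :=
    mul_le_mul_of_nonneg_left h4 (sq_nonneg q)
  have hq2 : 0 < q ^ 2 := by positivity
  have h9 : 0 < q ^ 2 * (S * t) := mul_pos hq2 hSt
  nlinarith

/-- strict upper bound for the least energy -/
theorem A_lt {lam th b : ℝ} (h0 : 0 < lam) (h1 : lam < Lam) (h2 : 0 < th) (h3 : th < Lam)
    (hb : 0 < b) : 4 * A lam th b < q lam ^ 2 + S ^ 2 := by
  have hq := q_pos h0 h1
  have hS := S_pos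
  obtain ⟨x0, hx0B, hx0n, hx0P, -⟩ := exists_min h0 h1 (q_lt_S h0)
  set c : ℝ := Real.sqrt (q lam) with hc
  have hc2 : c ^ 2 = q lam := Real.sq_sqrt hq.le
  set x : D := c • x0 with hx
  have hxB : x ∈ H B := (H B).smul_mem _ hx0B
  have hxP : P lam x = q lam ^ 2 := by
    rw [hx, P_smul, hc2, hx0P]; ring
  have hx4 : m4 x = q lam ^ 2 := by
    rw [hx, m4_smul, m4_eq, hx0n]
    have : c ^ 4 = (c ^ 2) ^ 2 := by ring
    rw [this, hc2]; ring
  obtain ⟨C, hC, hav⟩ := avg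
  have hκt : volume (ball (0:E4) 1) ≠ ⊤ := measure_ball_lt_top.ne
  set κ : ℝ := Real.sqrt (volume (ball (0:E4) 1)).toReal with hκ
  have hκ0 : 0 ≤ κ := Real.sqrt_nonneg _
  -- choice of the radius
  have hex : ∃ r : ℝ, 0 < r ∧ r ≤ 1 / 8 ∧ b * (C * r * ‖x‖ ^ 2) ≤ th / 8 ∧
      th * (κ * r) ≤ S ∧ S * th * (κ * r) < 24 * q lam ^ 2 := by
    set a1 : ℝ := b * (C * ‖x‖ ^ 2) + 1 with ha1
    set a2 : ℝ := th * κ + 1 with ha2
    set a3 : ℝ := S * th * κ + 1 with ha3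
    have h4 : 0 < a1 := by positivity
    have h5 : 0 < a2 := by positivity
    have h6 : 0 < a3 := by positivity
    refine ⟨min (1 / 8) (min (th / 8 / a1) (min (S / a2) (q lam ^ 2 / a3))), ?_, min_le_left _ _,
      ?_, ?_, ?_⟩
    · positivity
    · have h7 : min (1 / 8) (min (th / 8 / a1) (min (S / a2) (q lam ^ 2 / a3))) ≤ th / 8 / a1 :=
        (min_le_right _ _).trans (min_le_left _ _)
      rw [le_div_iff₀ h4] at h7
      have h8 : 0 < min (1 / 8) (min (th / 8 / a1) (min (S / a2) (q lam ^ 2 / a3))) := by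
        positivity
      rw [ha1] at h7
      nlinarith
    · have h7 : min (1 / 8) (min (th / 8 / a1) (min (S / a2) (q lam ^ 2 / a3))) ≤ S / a2 :=
        ((min_le_right _ _).trans (min_le_right _ _)).trans (min_le_left _ _)
      rw [le_div_iff₀ h5] at h7
      have h8 : 0 < min (1 / 8) (min (th / 8 / a1) (min (S / a2) (q lam ^ 2 / a3))) := by
        positivity
      rw [ha2] at h7
      nlinarith
    · have h7 : min (1 / 8) (min (th / 8 / a1) (min (S / a2) (q lam ^ 2 / a3))) ≤ q lam ^ 2 / a3 :=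
        ((min_le_right _ _).trans (min_le_right _ _)).trans (min_le_right _ _)
      rw [le_div_iff₀ h6] at h7
      have h8 : 0 < min (1 / 8) (min (th / 8 / a1) (min (S / a2) (q lam ^ 2 / a3))) := by
        positivity
      have h9 : 0 < q lam ^ 2 := by positivity
      rw [ha3] at h7
      nlinarith
  obtain ⟨r, hr, hr8, hr1, hr2, hr3⟩ := hex
  obtain ⟨v, hv, hvn, hvlt⟩ := bn (half_pos h2) hr
  obtain ⟨y, hyB, hyn, hyf, hym, hyX⟩ := hav x hxB r hr hr8 v hv
  -- `m2 v` is small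
  set m : ℝ := m2 v with hmdef
  have hvB : v ∈ H B := H_mono (ball_subset_ball (by linarith)) hv
  have hfy : ‖fn y‖ = 1 := by rw [hyf, hvn]
  have hy0 : y ≠ 0 := by
    intro h
    rw [h, map_zero, norm_zero] at hfy
    exact zero_ne_one hfy
  have hm : 0 < m := by
    rw [← hym]
    exact m2_pos hyB hy0
  have hmr : m ≤ κ * r := by
    have h4 : ∫ p in ball (0:E4) r, fn v p ^ 2 = ∫ p, fn v p ^ 2 := by
      rw [← integral_indicator measurableSet_ball]
      apply integral_congr_ae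
      filter_upwards [fn_outside measurableSet_ball hv] with p hp
      by_cases h : p ∈ ball (0:E4) r
      · rw [indicator_of_mem h]
      · rw [indicator_of_notMem h, hp h]; simp
    have h5 := setIntegral_sq_le (fn v) (E := ball (0:E4) r) measurableSet_ball measure_ball_lt_top
    rw [h4, hvn] at h5
    have h6 : Real.sqrt (volume (ball (0:E4) r)).toReal ≤ κ * r := by
      rw [Measure.addHaar_ball _ _ hr.le, ENNReal.toReal_mul, ENNReal.toReal_ofReal (by positivity)]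
      have h7 : Module.finrank ℝ E4 = 4 := by simp
      rw [h7]
      have h8 : r ^ 4 * (volume (ball (0:E4) 1)).toReal ≤ r ^ 2 * (volume (ball (0:E4) 1)).toReal := by
        apply mul_le_mul_of_nonneg_right _ ENNReal.toReal_nonneg
        have : r ^ 2 ≤ 1 := by nlinarith
        nlinarith [sq_nonneg r]
      refine (Real.sqrt_le_sqrt h8).trans (le_of_eq ?_)
      rw [Real.sqrt_mul (sq_nonneg r), Real.sqrt_sq hr.le, hκ]
      ring
    have h9 : m = ∫ p, fn v p ^ 2 := rfl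
    rw [h9]
    linarith
  set β : ℝ := b * X x y with hβdef
  have hβ0 : 0 ≤ β := mul_nonneg hb.le (X_nonneg x y)
  have hβ : β ≤ th / 8 * m := by
    calc β ≤ b * (C * r * ‖x‖ ^ 2 * m) := mul_le_mul_of_nonneg_left hyX hb.le
      _ = (b * (C * r * ‖x‖ ^ 2)) * m := by ring
      _ ≤ th / 8 * m := mul_le_mul_of_nonneg_right hr1 hm.le
  have hQ0 : 0 ≤ P th y := by
    refine le_trans ?_ (P_coer h2 h3 hyB)
    have hL := Lam_pos
    have : 0 ≤ 1 - th / Lam := by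
      rw [sub_nonneg, div_le_one hL]
      exact h3.le
    positivity
  have hQ : P th y ≤ S - th / 2 * m := by
    rw [P, hym, hyn]
    linarith
  have hm1 : th * m ≤ S := (mul_le_mul_of_nonneg_left hmr h2.le).trans hr2
  have hm2 : S * th * m < 24 * q lam ^ 2 :=
    (mul_le_mul_of_nonneg_left hmr (mul_pos hS h2).le).trans_lt hr3
  have hsr := strict_real hq hS h2 hm hβ0 hβ hQ0 hQ hm1 hm2
  have hst := star h0 h1 h2 h3 hb hxB hyB
  have hy4 : m4 y = 1 := by rw [m4_eq, hfy]; norm_num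
  rw [hx4, hy4, hxP, ← hβdef] at hst
  set Q : ℝ := P th y with hQdef
  have h4 : 4 * A lam th b * (q lam ^ 2 - β ^ 2) < (q lam ^ 2 + S ^ 2) * (q lam ^ 2 - β ^ 2) := by
    calc 4 * A lam th b * (q lam ^ 2 - β ^ 2) = 4 * A lam th b * (q lam ^ 2 * 1 - β ^ 2) := by ring
      _ ≤ (q lam ^ 2) ^ 2 * 1 + 2 * q lam ^ 2 * Q * β + Q ^ 2 * q lam ^ 2 := hst
      _ = q lam ^ 4 + 2 * q lam ^ 2 * Q * β + Q ^ 2 * q lam ^ 2 := by ring
      _ < _ := hsr
  have h5 : 0 < q lam ^ 2 - β ^ 2 := by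
    have h6 : 0 ≤ q lam ^ 4 + 2 * q lam ^ 2 * Q * β + Q ^ 2 * q lam ^ 2 := by positivity
    have h7 : 0 < (q lam ^ 2 + S ^ 2) * (q lam ^ 2 - β ^ 2) := h6.trans_lt hsr
    have h8 : 0 < q lam ^ 2 + S ^ 2 := by positivity
    exact (pos_iff_pos_of_mul_pos h7).mp h8
  exact lt_of_mul_lt_mul_right h4 h5.le

end Pool.Agent.H57.BN
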