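import Pool.Agent.H57.BN.MinSeq
import Pool.Agent.H57.BN.Strict

set_option autoImplicit false

open MeasureTheory Filter Topology Metric Set
open scoped ENNReal NNReal ContDiff

namespace Pool.Agent.H57.BN

theorem IsGS.mem_Nb {lam th b : ℝ} {x y : D} (h : IsGS lam th b x y) : (x, y) ∈ Nb lam th b := by
  refine ⟨h.hx, h.hy, h.nx, h.ny, ?_, ?_⟩
  · have h1 := h.sol.1 x h.hx
    rw [P_self] at h1
    simp only
    rw [h1]
    have e1 : (∫ p, fn x p ^ 3 * fn x p) = m4 x := by
      unfold m4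
      exact integral_congr_ae (Eventually.of_forall fun p => by simp only; ring)
    have e2 : (∫ p, fn x p * fn y p ^ 2 * fn x p) = X x y := by
      unfold X
      exact integral_congr_ae (Eventually.of_forall fun p => by simp only; ring)
    rw [e1, e2]
  · have h1 := h.sol.2 y h.hy
    rw [P_self] at h1
    simp only
    rw [h1]
    have e1 : (∫ p, fn y p ^ 3 * fn y p) = m4 y := by
      unfold m4
      exact integral_congr_ae (Eventually.of_forall fun p => by simp only; ring)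
    have e2 : (∫ p, fn x p ^ 2 * fn y p * fn y p) = X x y := by
      unfold X
      exact integral_congr_ae (Eventually.of_forall fun p => by simp only; ring)
    rw [e1, e2]

theorem IsGS.P_x_le {lam th b : ℝ} {x y : D} (hb : 0 < b) (h : IsGS lam th b x y) :
    P lam x ≤ m4 x := by
  have h1 := h.mem_Nb.2.2.2.2.1
  have h2 := mul_nonneg hb.le (X_nonneg x y)
  simp only at h1
  linarith

theorem IsGS.P_y_le {lam th b : ℝ} {x y : D} (hb : 0 < b) (h : IsGS lam th b x y) :
    P th y ≤ m4 y := by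
  have h1 := h.mem_Nb.2.2.2.2.2
  have h2 := mul_nonneg hb.le (X_nonneg x y)
  simp only at h1
  linarith

/-- bounds along ground states -/
theorem gs_bdd {lam th : ℝ} (h0 : 0 < lam) (h1 : lam < Lam) (h2 : 0 < th) (h3 : th < lam) :
    ∃ C : ℝ, 0 < C ∧ ∀ (b : ℝ) (x y : D), 0 < b → IsGS lam th b x y →
      ‖x‖ ≤ C ∧ ‖y‖ ≤ C ∧ b * X x y ≤ C ∧ P lam x + P th y < q lam ^ 2 + S ^ 2 := by
  have hL := Lam_pos
  have hS := S_pos
  have hthL : th < Lam := h3.trans h1
  have hk1 : 0 < 1 - lam / Lam := by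
    rw [sub_pos, div_lt_one hL]
    exact h1
  have hk2 : 0 < 1 - th / Lam := by
    rw [sub_pos, div_lt_one hL]
    exact hthL
  set K : ℝ := q lam ^ 2 + S ^ 2 with hK
  have hK0 : 0 < K := by positivity
  have hc1 : 0 ≤ Real.sqrt (K / (1 - lam / Lam)) := Real.sqrt_nonneg _
  have hc2 : 0 ≤ Real.sqrt (K / (1 - th / Lam)) := Real.sqrt_nonneg _
  have hc3 : 0 ≤ (K / (1 - lam / Lam) / S) ^ 2 := sq_nonneg _
  refine ⟨1 + Real.sqrt (K / (1 - lam / Lam)) + Real.sqrt (K / (1 - th / Lam)) +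
    (K / (1 - lam / Lam) / S) ^ 2, by positivity, ?_⟩
  intro b x y hb h
  have hA := A_lt h0 h1 h2 hthL hb
  have hen := h.en
  have hsum : P lam x + P th y < K := by
    rw [← hen] at hA
    linarith
  have hcx := P_coer h0 h1 h.hx
  have hcy := P_coer h2 hthL h.hy
  have hPx : 0 ≤ P lam x := le_trans (by positivity) hcx
  have hPy : 0 ≤ P th y := le_trans (by positivity) hcy
  have hx2 : ‖x‖ ^ 2 ≤ K / (1 - lam / Lam) := by
    rw [le_div_iff₀ hk1, mul_comm]
    linarith
  have hy2 : ‖y‖ ^ 2 ≤ K / (1 - th / Lam) := by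
    rw [le_div_iff₀ hk2, mul_comm]
    linarith
  have hxn : ‖x‖ ≤ Real.sqrt (K / (1 - lam / Lam)) := Real.le_sqrt_of_sq_le hx2
  have hyn : ‖y‖ ≤ Real.sqrt (K / (1 - th / Lam)) := Real.le_sqrt_of_sq_le hy2
  have hX : b * X x y ≤ (K / (1 - lam / Lam) / S) ^ 2 := by
    have h4 := h.mem_Nb.2.2.2.2.1
    simp only at h4
    have h5 : b * X x y ≤ m4 x := by linarith
    refine h5.trans ?_
    rw [m4_eq]
    have h6 := S_le x
    have h7 : ‖fn x‖ ^ 2 ≤ K / (1 - lam / Lam) / S := by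
      rw [le_div_iff₀ hS, mul_comm]
      exact h6.trans hx2
    calc ‖fn x‖ ^ 4 = (‖fn x‖ ^ 2) ^ 2 := by ring
      _ ≤ _ := pow_le_pow_left₀ (by positivity) h7 2
  exact ⟨by linarith, by linarith, by linarith, hsum⟩

end Pool.Agent.H57.BN
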