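import Pool.Agent.H57.BN.Rellich

set_option autoImplicit false

open MeasureTheory Filter Topology Metric Set
open scoped ENNReal NNReal ContDiff

namespace Pool.Agent.H57.BN

/-- the quadrilinear form -/
noncomputable def limQ (u v w z : D) : ℝ := ∫ p, fn u p * fn v p * fn w p * fn z p

theorem limQ_bd (u v w z : D) : |limQ u v w z| ≤ ‖fn u‖ * ‖fn v‖ * ‖fn w‖ * ‖fn z‖ :=
  (abs_integral_le_integral_abs).trans (integral_abs_mul4 _ _ _ _)

theorem limQ_sub_first (u u' v w z : D) : limQ (u - u') v w z = limQ u v w z - limQ u' v w z := by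
  rw [limQ, limQ, limQ, ← integral_sub (integrable_mul4 _ _ _ _) (integrable_mul4 _ _ _ _)]
  have h1 : fn (u - u') =ᵐ[volume] fn u - fn u' := by
    rw [map_sub]; exact Lp.coeFn_sub _ _
  refine integral_congr_ae ?_
  filter_upwards [h1] with p hp
  rw [hp, Pi.sub_apply]; ring

theorem limQ_sub_last (u v w z z' : D) : limQ u v w (z - z') = limQ u v w z - limQ u v w z' := by
  rw [limQ, limQ, limQ, ← integral_sub (integrable_mul4 _ _ _ _) (integrable_mul4 _ _ _ _)]
  have h1 : fn (z - z') =ᵐ[volume] fn z - fn z' := by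
    rw [map_sub]; exact Lp.coeFn_sub _ _
  refine integral_congr_ae ?_
  filter_upwards [h1] with p hp
  rw [hp, Pi.sub_apply]; ring

theorem limQ_comm12 (u v w z : D) : limQ u v w z = limQ v u w z := by
  rw [limQ, limQ]; congr 1; ext p; ring

theorem limQ_comm13 (u v w z : D) : limQ u v w z = limQ w v u z := by
  rw [limQ, limQ]; congr 1; ext p; ring

theorem limQ_test {d v w : ℕ → D} (hd : WeakTo d 0) {C : ℝ} (hv : ∀ n, ‖fn (v n)‖ ≤ C)
    (hw : ∀ n, ‖fn (w n)‖ ≤ C) {φ : E4 → ℝ} (hφ : IsTest univ φ) :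
    Tendsto (fun n => limQ (d n) (v n) (w n) (toD hφ)) atTop (𝓝 0) := by
  -- bound for the test function
  obtain ⟨M, hM⟩ : ∃ M : ℝ, ∀ p, |φ p| ≤ M := by
    obtain ⟨M, hM⟩ := hφ.comp.exists_bound_of_continuous hφ.smooth.continuous
    exact ⟨M, fun p => by simpa using hM p⟩
  have hM0 : 0 ≤ M := (abs_nonneg _).trans (hM 0)
  obtain ⟨R, hR⟩ : ∃ R : ℝ, tsupport φ ⊆ ball (0 : E4) R := by
    obtain ⟨R, hR⟩ := hφ.comp.isBounded.subset_ball (0 : E4)
    exact ⟨R, hR⟩
  have hrel := rellich hd R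
  have hrel' : Tendsto (fun n => ∫ p in ball (0 : E4) R, fn (d n) p ^ 2) atTop (𝓝 0) := by
    refine hrel.congr (fun n => integral_congr_ae (ae_restrict_of_ae ?_))
    have h0 : fn (0 : D) =ᵐ[volume] (0 : E4 → ℝ) := by
      rw [map_zero]; exact Lp.coeFn_zero _ _ _
    filter_upwards [h0] with p hp
    rw [hp]; simp
  have hC0 : 0 ≤ C := (norm_nonneg _).trans (hv 0)
  -- main bound
  have hbd : ∀ η : ℝ, 0 < η → ∀ n, |limQ (d n) (v n) (w n) (toD hφ)| ≤
      M ^ 2 / (2 * η) * (∫ p in ball (0 : E4) R, fn (d n) p ^ 2) + η / 2 * C ^ 4 := by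
    intro η hη n
    have h1 : Integrable (fun p => indicator (ball (0 : E4) R) (fun p => fn (d n) p ^ 2) p)
        (volume : Measure E4) :=
      (integrable_indicator_iff measurableSet_ball).2
        (integrableOn_sq (fn (d n)) measure_ball_lt_top)
    have h2 : Integrable (fun p => fn (v n) p * fn (v n) p * fn (w n) p * fn (w n) p)
        (volume : Measure E4) := integrable_mul4 _ _ _ _
    have h3 : ∫ p, fn (v n) p * fn (v n) p * fn (w n) p * fn (w n) p ≤ C ^ 4 := by
      calc ∫ p, fn (v n) p * fn (v n) p * fn (w n) p * fn (w n) p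
          ≤ |limQ (v n) (v n) (w n) (w n)| := le_abs_self _
        _ ≤ ‖fn (v n)‖ * ‖fn (v n)‖ * ‖fn (w n)‖ * ‖fn (w n)‖ := limQ_bd _ _ _ _
        _ ≤ C * C * C * C := by
          have := hv n
          have := hw n
          gcongr
        _ = C ^ 4 := by ring
    calc |limQ (d n) (v n) (w n) (toD hφ)|
        ≤ ∫ p, |fn (d n) p * fn (v n) p * fn (w n) p * fn (toD hφ) p| :=
          abs_integral_le_integral_abs
      _ ≤ ∫ p, (M ^ 2 / (2 * η) * indicator (ball (0 : E4) R) (fun p => fn (d n) p ^ 2) p +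
            η / 2 * (fn (v n) p * fn (v n) p * fn (w n) p * fn (w n) p)) := by
          refine integral_mono_ae (integrable_mul4 _ _ _ _).abs
            ((h1.const_mul _).add (h2.const_mul _)) ?_
          filter_upwards [fn_toD_ae hφ] with p hp
          rw [hp]
          by_cases hpR : p ∈ ball (0 : E4) R
          · rw [indicator_of_mem hpR]
            have h4 : |fn (d n) p * fn (v n) p * fn (w n) p * φ p| ≤
                |fn (d n) p| * |fn (v n) p * fn (w n) p| * M := by
              rw [mul_assoc (fn (d n) p), abs_mul, abs_mul]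
              gcongr
              exact hM p
            refine h4.trans ?_
            have h5 : M ^ 2 / (2 * η) * fn (d n) p ^ 2 +
                η / 2 * (fn (v n) p * fn (v n) p * fn (w n) p * fn (w n) p) -
                |fn (d n) p| * |fn (v n) p * fn (w n) p| * M =
                (M * |fn (d n) p| - η * |fn (v n) p * fn (w n) p|) ^ 2 / (2 * η) := by
              have h6 : fn (d n) p ^ 2 = |fn (d n) p| ^ 2 := (sq_abs _).symm
              have h7 : fn (v n) p * fn (v n) p * fn (w n) p * fn (w n) p =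
                  |fn (v n) p * fn (w n) p| ^ 2 := by rw [sq_abs]; ring
              rw [h6, h7]
              field_simp
              ring
            have h8 : 0 ≤ (M * |fn (d n) p| - η * |fn (v n) p * fn (w n) p|) ^ 2 / (2 * η) := by
              positivity
            linarith
          · have h4 : φ p = 0 := by
              by_contra hne
              exact hpR (hR (subset_tsupport _ hne))
            rw [indicator_of_notMem hpR, h4]
            have h7 : fn (v n) p * fn (v n) p * fn (w n) p * fn (w n) p =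
                (fn (v n) p * fn (w n) p) ^ 2 := by ring
            rw [h7]
            simp only [mul_zero, abs_zero, zero_add]
            positivity
      _ = M ^ 2 / (2 * η) * (∫ p in ball (0 : E4) R, fn (d n) p ^ 2) +
            η / 2 * ∫ p, fn (v n) p * fn (v n) p * fn (w n) p * fn (w n) p := by
          rw [integral_add (h1.const_mul _) (h2.const_mul _), integral_const_mul,
            integral_const_mul, integral_indicator measurableSet_ball]
      _ ≤ _ := by gcongr
  rw [Metric.tendsto_atTop]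
  intro ε hε
  set η : ℝ := ε / (C ^ 4 + 1) with hηdef
  have hη : 0 < η := by positivity
  have h9 : η / 2 * C ^ 4 ≤ ε / 2 := by
    rw [hηdef, div_div, div_mul_eq_mul_div, div_le_div_iff₀ (by positivity) (by norm_num)]
    nlinarith [pow_nonneg hC0 4]
  have h10 : Tendsto (fun n => M ^ 2 / (2 * η) * (∫ p in ball (0 : E4) R, fn (d n) p ^ 2)) atTop
      (𝓝 0) := by
    have := hrel'.const_mul (M ^ 2 / (2 * η))
    rwa [MulZeroClass.mul_zero] at this
  obtain ⟨N, hN⟩ := (Metric.tendsto_atTop.1 h10) (ε / 2) (by positivity)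
  refine ⟨N, fun n hn => ?_⟩
  have h11 := hN n hn
  rw [Real.dist_eq, sub_zero] at h11 ⊢
  have h12 := hbd η hη n
  have h13 := le_abs_self (M ^ 2 / (2 * η) * (∫ p in ball (0 : E4) R, fn (d n) p ^ 2))
  linarith

theorem limQ_tendsto {d v w : ℕ → D} (hd : WeakTo d 0) {C : ℝ} (hv : ∀ n, ‖fn (v n)‖ ≤ C)
    (hw : ∀ n, ‖fn (w n)‖ ≤ C) (φ : D) :
    Tendsto (fun n => limQ (d n) (v n) (w n) φ) atTop (𝓝 0) := by
  have hC0 : 0 ≤ C := (norm_nonneg _).trans (hv 0)
  obtain ⟨C', hC'0, hC'⟩ := hd.bdd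
  have hd' : ∀ n, ‖fn (d n)‖ ≤ ‖fn‖ * C' := fun n =>
    (fn.le_opNorm _).trans (by have := hC' n; gcongr)
  have hφ : φ ∈ H univ := by rw [H_univ]; trivial
  obtain ⟨f, hf, hlim⟩ := mem_H_iff_seq.1 hφ
  rw [Metric.tendsto_atTop]
  intro ε hε
  set K : ℝ := ‖fn‖ * C' * C * C * ‖fn‖ with hK
  have hK0 : 0 ≤ K := by positivity
  have h1 : ∀ᶠ k in atTop, ‖toD (hf k) - φ‖ < ε / (2 * (K + 1)) := by
    have := (Metric.tendsto_atTop.1 hlim) (ε / (2 * (K + 1))) (by positivity)
    obtain ⟨N, hN⟩ := this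
    filter_upwards [eventually_ge_atTop N] with k hk
    have := hN k hk
    rwa [dist_eq_norm] at this
  obtain ⟨k, hk⟩ := h1.exists
  have h2 := limQ_test hd hv hw (hf k)
  obtain ⟨N, hN⟩ := (Metric.tendsto_atTop.1 h2) (ε / 2) (by positivity)
  refine ⟨N, fun n hn => ?_⟩
  have h3 := hN n hn
  rw [Real.dist_eq, sub_zero] at h3 ⊢
  have h4 : |limQ (d n) (v n) (w n) (toD (hf k) - φ)| ≤ K * ‖toD (hf k) - φ‖ := by
    refine (limQ_bd _ _ _ _).trans ?_
    have h5 := hv n
    have h6 := hw n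
    have h7 := hd' n
    have h8 : ‖fn (toD (hf k) - φ)‖ ≤ ‖fn‖ * ‖toD (hf k) - φ‖ := fn.le_opNorm _
    calc ‖fn (d n)‖ * ‖fn (v n)‖ * ‖fn (w n)‖ * ‖fn (toD (hf k) - φ)‖
        ≤ (‖fn‖ * C') * C * C * (‖fn‖ * ‖toD (hf k) - φ‖) := by gcongr
      _ = _ := by rw [hK]; ring
  rw [limQ_sub_last] at h4
  have h9 : K * ‖toD (hf k) - φ‖ ≤ ε / 2 := by
    have h10 : K * ‖toD (hf k) - φ‖ ≤ K * (ε / (2 * (K + 1))) := by gcongr
    refine h10.trans ?_
    rw [← mul_div_assoc, div_le_div_iff₀ (by positivity) (by norm_num)]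
    nlinarith
  have h11 := abs_sub_abs_le_abs_sub (limQ (d n) (v n) (w n) φ) (limQ (d n) (v n) (w n) (toD (hf k)))
  rw [abs_sub_comm] at h11
  linarith

theorem limQ_gen {x x' x'' : ℕ → D} {y y' y'' : D} (h : WeakTo x y) (h' : WeakTo x' y')
    (h'' : WeakTo x'' y'') (φ : D) :
    Tendsto (fun n => limQ (x n) (x' n) (x'' n) φ) atTop (𝓝 (limQ y y' y'' φ)) := by
  have hsub : ∀ {u : ℕ → D} {v : D}, WeakTo u v → WeakTo (fun n => u n - v) 0 := by
    intro u v huv z
    have h1 := (huv z).sub_const (inner ℝ v z)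
    rw [sub_self] at h1
    have h2 : inner ℝ (0 : D) z = 0 := inner_zero_left z
    rw [h2]
    refine h1.congr (fun n => ?_)
    rw [inner_sub_left]
  have hbd : ∀ {u : ℕ → D} {v : D}, WeakTo u v → ∃ C : ℝ, 0 < C ∧ ∀ n, ‖fn (u n)‖ ≤ C := by
    intro u v huv
    obtain ⟨C, hC0, hC⟩ := huv.bdd
    refine ⟨‖fn‖ * C + 1, by positivity, fun n => ?_⟩
    refine (fn.le_opNorm _).trans ?_
    have : ‖fn‖ * ‖u n‖ ≤ ‖fn‖ * C := by have := hC n; gcongr
    linarith
  obtain ⟨C0, hC0, h0b⟩ := hbd h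
  obtain ⟨C1, hC1, h1b⟩ := hbd h'
  obtain ⟨C2, hC2, h2b⟩ := hbd h''
  set C : ℝ := C0 + C1 + C2 + ‖fn y‖ + ‖fn y'‖ with hCdef
  have hy0 := norm_nonneg (fn y)
  have hy1 := norm_nonneg (fn y')
  have t1 : Tendsto (fun n => limQ (x n - y) (x' n) (x'' n) φ) atTop (𝓝 0) :=
    limQ_tendsto (C := C) (hsub h) (fun n => (h1b n).trans (by rw [hCdef]; linarith))
      (fun n => (h2b n).trans (by rw [hCdef]; linarith)) φ
  have t2 : Tendsto (fun n => limQ (x' n - y') y (x'' n) φ) atTop (𝓝 0) :=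
    limQ_tendsto (C := C) (v := fun _ => y) (hsub h') (fun n => by rw [hCdef]; linarith)
      (fun n => (h2b n).trans (by rw [hCdef]; linarith)) φ
  have t3 : Tendsto (fun n => limQ (x'' n - y'') y' y φ) atTop (𝓝 0) :=
    limQ_tendsto (C := C) (v := fun _ => y') (w := fun _ => y) (hsub h'')
      (fun n => by rw [hCdef]; linarith) (fun n => by rw [hCdef]; linarith) φ
  have t4 := ((t1.add t2).add t3).add_const (limQ y y' y'' φ)
  simp only [add_zero, zero_add] at t4
  refine t4.congr (fun n => ?_)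
  rw [limQ_sub_first, limQ_sub_first, limQ_sub_first, limQ_comm12 (x' n) y, limQ_comm12 y' y,
    limQ_comm13 (x'' n) y' y, limQ_comm13 y'' y' y]
  ring

/-- `u_n³ → u³` against functions of `D` (test functions first: local `L³` convergence from
`rellich` and the `L⁴` bound; then density). -/
theorem tendsto_cube {x : ℕ → D} {y : D} (h : WeakTo x y) (φ : D) :
    Tendsto (fun n => ∫ p, fn (x n) p ^ 3 * fn φ p) atTop (𝓝 (∫ p, fn y p ^ 3 * fn φ p)) := by
  have h1 := limQ_gen h h h φ
  have h2 : ∀ u : D, limQ u u u φ = ∫ p, fn u p ^ 3 * fn φ p := by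
    intro u
    rw [limQ]; congr 1; ext p; ring
  simpa only [h2] using h1

theorem tendsto_mixed {x x' : ℕ → D} {y y' : D} (h : WeakTo x y) (h' : WeakTo x' y') (φ : D) :
    Tendsto (fun n => ∫ p, fn (x n) p * fn (x' n) p ^ 2 * fn φ p) atTop
      (𝓝 (∫ p, fn y p * fn y' p ^ 2 * fn φ p)) := by
  have h1 := limQ_gen h h' h' φ
  have h2 : ∀ u v : D, limQ u v v φ = ∫ p, fn u p * fn v p ^ 2 * fn φ p := by
    intro u v
    rw [limQ]; congr 1; ext p; ring
  simpa only [h2] using h1

end Pool.Agent.H57.BN
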