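import Pool.Agent.H57.BN.Rellich

set_option autoImplicit false

open MeasureTheory Filter Topology Metric Set
open scoped ENNReal NNReal ContDiff

namespace Pool.Agent.H57.BN

theorem limC_meas (x : D) : Measurable (fn x) := (Lp.stronglyMeasurable (fn x)).measurable

/-- `rellich` in terms of `lintegral` -/
theorem limC_rellich {x : ℕ → D} {y : D} (h : WeakTo x y) (R : ℝ) :
    Tendsto (fun n => ∫⁻ p in ball (0 : E4) R, ENNReal.ofReal ((fn (x n) p - fn y p) ^ 2))
      atTop (𝓝 0) := by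
  have h1 := ENNReal.tendsto_ofReal (rellich h R)
  rw [ENNReal.ofReal_zero] at h1
  refine h1.congr (fun n => ?_)
  rw [ofReal_integral_eq_lintegral_ofReal]
  · have h2 := integrableOn_sq (fn (x n - y)) (E := ball (0 : E4) R) measure_ball_lt_top
    have h3 : fn (x n - y) =ᵐ[volume] fn (x n) - fn y := by
      rw [map_sub]; exact Lp.coeFn_sub _ _
    refine h2.congr (ae_restrict_of_ae ?_)
    filter_upwards [h3] with p hp
    rw [hp]; rfl
  · exact Eventually.of_forall (fun p => by positivity)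

theorem exists_ae_subseq {x : ℕ → D} {y : D} (h : WeakTo x y) : ∃ ψ : ℕ → ℕ, StrictMono ψ ∧
    ∀ᵐ p ∂(volume : Measure E4), Tendsto (fun n => fn (x (ψ n)) p) atTop (𝓝 (fn y p)) := by
  have h1 : ∀ k : ℕ, ∀ᶠ n in atTop,
      ∫⁻ p in ball (0 : E4) k, ENNReal.ofReal ((fn (x n) p - fn y p) ^ 2) ≤ (2⁻¹ : ℝ≥0∞) ^ k :=
    fun k => (ENNReal.tendsto_nhds_zero.1 (limC_rellich h k)) _
      (ENNReal.pow_pos (by simp) k)
  obtain ⟨ψ, hψ, h2⟩ := extraction_forall_of_eventually' (P := fun k n =>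
      ∫⁻ p in ball (0 : E4) k, ENNReal.ofReal ((fn (x n) p - fn y p) ^ 2) ≤ (2⁻¹ : ℝ≥0∞) ^ k)
    (fun k => by
      obtain ⟨N, hN⟩ := eventually_atTop.1 (h1 k)
      exact ⟨N, hN⟩)
  refine ⟨ψ, hψ, ?_⟩
  have h3 : ∀ R : ℕ, ∀ᵐ p ∂(volume : Measure E4), p ∈ ball (0 : E4) R →
      Tendsto (fun n => fn (x (ψ n)) p) atTop (𝓝 (fn y p)) := by
    intro R
    have hm : ∀ n, Measurable (fun p => ENNReal.ofReal ((fn (x (ψ (n + R))) p - fn y p) ^ 2)) :=
      fun n => ((((limC_meas _).sub (limC_meas _)).pow_const 2).ennreal_ofReal)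
    have h4 : ∫⁻ p in ball (0 : E4) R, ∑' n, ENNReal.ofReal ((fn (x (ψ (n + R))) p - fn y p) ^ 2)
        ≠ ⊤ := by
      rw [lintegral_tsum (fun n => (hm n).aemeasurable)]
      have h5 : ∑' n, ∫⁻ p in ball (0 : E4) R,
          ENNReal.ofReal ((fn (x (ψ (n + R))) p - fn y p) ^ 2) ≤ ∑' n : ℕ, (2⁻¹ : ℝ≥0∞) ^ n := by
        refine ENNReal.tsum_le_tsum (fun n => ?_)
        refine (lintegral_mono_set (ball_subset_ball (by
          push_cast; linarith [(Nat.cast_nonneg n : (0:ℝ) ≤ n)] :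
          (R : ℝ) ≤ ((n + R : ℕ) : ℝ)))).trans ?_
        refine (h2 (n + R)).trans ?_
        rw [pow_add]
        exact mul_le_of_le_one_right' (pow_le_one' (by simp) _)
      refine ne_top_of_le_ne_top ?_ h5
      rw [ENNReal.tsum_geometric, ENNReal.one_sub_inv_two, inv_inv]
      norm_num
    have h6 := ae_lt_top (Measurable.ennreal_tsum hm) h4
    rw [ae_restrict_iff' measurableSet_ball] at h6
    filter_upwards [h6] with p hp hpR
    have h7 := ENNReal.tendsto_atTop_zero_of_tsum_ne_top (hp hpR).ne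
    have h8 : Tendsto (fun n => (fn (x (ψ (n + R))) p - fn y p) ^ 2) atTop (𝓝 0) := by
      have h9 := (ENNReal.tendsto_toReal (ENNReal.zero_ne_top)).comp h7
      simp only [ENNReal.toReal_zero] at h9
      refine h9.congr (fun n => ?_)
      simp only [Function.comp_apply]
      rw [ENNReal.toReal_ofReal (by positivity)]
    have h10 : Tendsto (fun n => fn (x (ψ (n + R))) p - fn y p) atTop (𝓝 0) := by
      have h11 := h8.sqrt
      rw [Real.sqrt_zero] at h11
      refine squeeze_zero_norm (fun n => ?_) h11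
      rw [Real.sqrt_sq_eq_abs, Real.norm_eq_abs]
    have h12 : Tendsto (fun n => fn (x (ψ (n + R))) p) atTop (𝓝 (fn y p)) :=
      tendsto_sub_nhds_zero_iff.1 h10
    exact (tendsto_add_atTop_iff_nat (f := fun n => fn (x (ψ n)) p) R).1 h12
  filter_upwards [ae_all_iff.2 h3] with p hp
  obtain ⟨R, hR⟩ := exists_nat_gt ‖p‖
  exact hp R (by simpa using hR)

theorem WeakTo.fn_nonneg {x : ℕ → D} {y : D} (h : WeakTo x y)
    (hx : ∀ n, 0 ≤ᵐ[volume] (fn (x n) : E4 → ℝ)) : 0 ≤ᵐ[volume] (fn y : E4 → ℝ) := by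
  obtain ⟨ψ, hψ, h1⟩ := exists_ae_subseq h
  filter_upwards [h1, ae_all_iff.2 hx] with p hp hx'
  exact ge_of_tendsto' hp (fun n => hx' (ψ n))

/-- Fatou in `L⁴` -/
theorem WeakTo.m4_le {x : ℕ → D} {y : D} (h : WeakTo x y) {c : ℝ}
    (hc : ∀ ε > 0, ∀ᶠ n in atTop, m4 (x n) ≤ c + ε) : m4 y ≤ c := by
  obtain ⟨ψ, hψ, h1⟩ := exists_ae_subseq h
  refine le_of_forall_pos_le_add (fun ε hε => ?_)
  have h2 : ∀ z : D, ENNReal.ofReal (m4 z) = ∫⁻ p, ENNReal.ofReal (fn z p ^ 4) := fun z =>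
    ofReal_integral_eq_lintegral_ofReal (integrable_pow4 (fn z))
      (Eventually.of_forall fun p => by positivity)
  have h3 : ∫⁻ p, ENNReal.ofReal (fn y p ^ 4) ≤
      liminf (fun n => ∫⁻ p, ENNReal.ofReal (fn (x (ψ n)) p ^ 4)) atTop := by
    refine le_trans ?_ (lintegral_liminf_le
      (fun n => ((limC_meas (x (ψ n))).pow_const 4).ennreal_ofReal))
    refine lintegral_mono_ae ?_
    filter_upwards [h1] with p hp
    exact ((ENNReal.tendsto_ofReal (hp.pow 4)).liminf_eq).ge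
  have h4 : liminf (fun n => ∫⁻ p, ENNReal.ofReal (fn (x (ψ n)) p ^ 4)) atTop ≤
      ENNReal.ofReal (c + ε) := by
    refine liminf_le_of_frequently_le' (Eventually.frequently ?_)
    filter_upwards [hψ.tendsto_atTop.eventually (hc ε hε)] with n hn
    rw [← h2]
    exact ENNReal.ofReal_le_ofReal hn
  have h5 : 0 ≤ c + ε := by
    obtain ⟨n, hn⟩ := (hc ε hε).exists
    exact (integral_nonneg (fun p => by positivity) : 0 ≤ m4 (x n)).trans hn
  have h6 := h3.trans h4
  rw [← h2] at h6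
  exact (ENNReal.ofReal_le_ofReal_iff h5).1 h6

/-- Fatou for products: `∫ u_n² v_n² → 0` implies `uv = 0` a.e. -/
theorem WeakTo.mul_zero {x x' : ℕ → D} {y y' : D} (h : WeakTo x y) (h' : WeakTo x' y')
    (hX : Tendsto (fun n => X (x n) (x' n)) atTop (𝓝 0)) :
    ∀ᵐ p ∂(volume : Measure E4), fn y p * fn y' p = 0 := by
  obtain ⟨ψ, hψ, h1⟩ := exists_ae_subseq h
  obtain ⟨χ, hχ, h1'⟩ := exists_ae_subseq (h'.comp hψ)
  have h2 : ∀ z z' : D, ENNReal.ofReal (X z z') = ∫⁻ p, ENNReal.ofReal (fn z p ^ 2 * fn z' p ^ 2) := by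
    intro z z'
    refine ofReal_integral_eq_lintegral_ofReal ?_ (Eventually.of_forall fun p => by positivity)
    refine (integrable_mul4 (fn z) (fn z) (fn z') (fn z')).congr (Eventually.of_forall fun p => ?_)
    simp only; ring
  have h3 : ∫⁻ p, ENNReal.ofReal (fn y p ^ 2 * fn y' p ^ 2) ≤
      liminf (fun n => ∫⁻ p, ENNReal.ofReal (fn (x (ψ (χ n))) p ^ 2 * fn (x' (ψ (χ n))) p ^ 2))
        atTop := by
    refine le_trans ?_ (lintegral_liminf_le
      (fun n => (((limC_meas _).pow_const 2).mul ((limC_meas _).pow_const 2)).ennreal_ofReal))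
    refine lintegral_mono_ae ?_
    filter_upwards [h1, h1'] with p hp hp'
    have h4 : Tendsto (fun n => fn (x (ψ (χ n))) p) atTop (𝓝 (fn y p)) :=
      hp.comp hχ.tendsto_atTop
    have h5 : Tendsto (fun n => fn (x' (ψ (χ n))) p) atTop (𝓝 (fn y' p)) := hp'
    exact ((ENNReal.tendsto_ofReal ((h4.pow 2).mul (h5.pow 2))).liminf_eq).ge
  have h4 : liminf (fun n => ∫⁻ p, ENNReal.ofReal (fn (x (ψ (χ n))) p ^ 2 * fn (x' (ψ (χ n))) p ^ 2))
        atTop = 0 := by
    have h5 : Tendsto (fun n => ENNReal.ofReal (X (x (ψ (χ n))) (x' (ψ (χ n))))) atTop (𝓝 0) := by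
      have := (ENNReal.tendsto_ofReal hX).comp ((hψ.comp hχ).tendsto_atTop)
      rw [ENNReal.ofReal_zero] at this
      exact this
    simp only [h2] at h5
    exact h5.liminf_eq
  rw [h4, nonpos_iff_eq_zero, lintegral_eq_zero_iff] at h3
  · filter_upwards [h3] with p hp
    have h6 : fn y p ^ 2 * fn y' p ^ 2 ≤ 0 := ENNReal.ofReal_eq_zero.1 hp
    have h7 : (fn y p * fn y' p) ^ 2 = 0 := le_antisymm (by rw [mul_pow]; exact h6) (by positivity)
    exact pow_eq_zero_iff (two_ne_zero) |>.1 h7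
  · exact (((limC_meas _).pow_const 2).mul ((limC_meas _).pow_const 2)).ennreal_ofReal

end Pool.Agent.H57.BN
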