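import Pool.Agent.H57.BN.AsymA
import Pool.Agent.H57.BN.Limits

set_option autoImplicit false

open MeasureTheory Filter Topology Metric Set
open scoped ENNReal NNReal ContDiff

namespace Pool.Agent.H57.BN

/-- properties of weak limits of ground states for `b_n → ∞` -/
theorem gs_weak {lam th : ℝ} (h0 : 0 < lam) (h1 : lam < Lam) (h2 : 0 < th) (h3 : th < lam)
    {b : ℕ → ℝ} (hb : ∀ n, 0 < b n) (hb' : Tendsto b atTop atTop) {x y : ℕ → D}
    (hg : ∀ n, IsGS lam th (b n) (x n) (y n)) {u v : D} (hu : WeakTo x u) (hv : WeakTo y v) :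
    u ∈ H B ∧ v ∈ H B ∧ 0 ≤ᵐ[volume] (fn u : E4 → ℝ) ∧ 0 ≤ᵐ[volume] (fn v : E4 → ℝ) ∧
    (∀ᵐ p ∂(volume : Measure E4), fn u p * fn v p = 0) ∧ P lam u ≤ m4 u ∧ P th v ≤ m4 v := by
  have hxB : ∀ n, x n ∈ H B := fun n => (hg n).hx
  have hyB : ∀ n, y n ∈ H B := fun n => (hg n).hy
  have huB : u ∈ H B := hu.mem hxB
  have hvB : v ∈ H B := hv.mem hyB
  have hu0 : 0 ≤ᵐ[volume] (fn u : E4 → ℝ) := hu.fn_nonneg fun n => (hg n).x0
  have hv0 : 0 ≤ᵐ[volume] (fn v : E4 → ℝ) := hv.fn_nonneg fun n => (hg n).y0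
  obtain ⟨C, hC, hbd⟩ := gs_bdd h0 h1 h2 h3
  have hX : Tendsto (fun n => X (x n) (y n)) atTop (𝓝 0) := by
    have h4 : Tendsto (fun n => C / b n) atTop (𝓝 0) := hb'.const_div_atTop C
    refine squeeze_zero (fun n => X_nonneg _ _) (fun n => ?_) h4
    rw [le_div_iff₀ (hb n), mul_comm]
    exact (hbd (b n) (x n) (y n) (hb n) (hg n)).2.2.1
  refine ⟨huB, hvB, hu0, hv0, hu.mul_zero hv hX, ?_, ?_⟩
  · have h4 := tendsto_PB lam hu hxB huB
    have h5 := tendsto_cube hu u
    have h6 : PB lam u u ≤ ∫ p, fn u p ^ 3 * fn u p := by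
      refine le_of_tendsto_of_tendsto h4 h5 (Eventually.of_forall fun n => ?_)
      simp only
      rw [(hg n).sol.1 u huB]
      have h7 : 0 ≤ ∫ p, fn (x n) p * fn (y n) p ^ 2 * fn u p := by
        apply integral_nonneg_of_ae
        filter_upwards [(hg n).x0, hu0] with p hp hp'
        have e1 : 0 ≤ fn (x n) p := hp
        have e2 : 0 ≤ fn u p := hp'
        simp only [Pi.zero_apply]
        positivity
      have h8 := mul_nonneg (hb n).le h7
      linarith
    rw [P_self] at h6
    refine h6.trans (le_of_eq ?_)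
    unfold m4
    exact integral_congr_ae (Eventually.of_forall fun p => by simp only; ring)
  · have h4 := tendsto_PB th hv hyB hvB
    have h5 := tendsto_cube hv v
    have h6 : PB th v v ≤ ∫ p, fn v p ^ 3 * fn v p := by
      refine le_of_tendsto_of_tendsto h4 h5 (Eventually.of_forall fun n => ?_)
      simp only
      rw [(hg n).sol.2 v hvB]
      have h7 : 0 ≤ ∫ p, fn (x n) p ^ 2 * fn (y n) p * fn v p := by
        apply integral_nonneg_of_ae
        filter_upwards [(hg n).y0, hv0] with p hp hp'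
        have e1 : 0 ≤ fn (y n) p := hp
        have e2 : 0 ≤ fn v p := hp'
        simp only [Pi.zero_apply]
        positivity
      have h8 := mul_nonneg (hb n).le h7
      linarith
    rw [P_self] at h6
    refine h6.trans (le_of_eq ?_)
    unfold m4
    exact integral_congr_ae (Eventually.of_forall fun p => by simp only; ring)

end Pool.Agent.H57.BN
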