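import Pool.Agent.H57.BN.Hardy
import Pool.Agent.H57.BN.Scale
import Pool.Agent.H57.BN.Eig

set_option autoImplicit false

open MeasureTheory Filter Topology Metric Set
open scoped ENNReal NNReal ContDiff

namespace Pool.Agent.H57.BN

/-- the shell of centres -/
def avgShell (r : ℝ) : Set E4 := ball (0:E4) (1 - r) \ closedBall (0:E4) (1 - 3 * r)

theorem avgShell_meas (r : ℝ) : MeasurableSet (avgShell r) :=
  measurableSet_ball.diff measurableSet_closedBall

theorem avgShell_vol {r : ℝ} (hr : 0 < r) (hr8 : r ≤ 1 / 8) :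
    ENNReal.ofReal r * volume (ball (0:E4) 1) ≤ volume (avgShell r) := by
  have h1 : volume (ball (0:E4) (1 - r)) = ENNReal.ofReal ((1 - r) ^ 4) * volume (ball (0:E4) 1) := by
    rw [Measure.addHaar_ball _ _ (by linarith)]
    simp
  have h2 : volume (closedBall (0:E4) (1 - 3 * r)) =
      ENNReal.ofReal ((1 - 3 * r) ^ 4) * volume (ball (0:E4) 1) := by
    rw [Measure.addHaar_closedBall _ _ (by linarith)]
    simp
  have h3 : volume (avgShell r) = volume (ball (0:E4) (1 - r)) -
      volume (closedBall (0:E4) (1 - 3 * r)) := by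
    apply measure_sdiff
    · exact closedBall_subset_ball (by linarith)
    · exact measurableSet_closedBall.nullMeasurableSet
    · exact (measure_closedBall_lt_top).ne
  rw [h3, h1, h2, ← ENNReal.sub_mul (fun _ _ => measure_ball_lt_top.ne),
    ← ENNReal.ofReal_sub _ (by positivity)]
  gcongr
  have h4 : (0:ℝ) ≤ 1 - 3 * r := by linarith
  have h5 : (1 - r) ^ 4 - (1 - 3 * r) ^ 4 =
      2 * r * ((1 - r) + (1 - 3 * r)) * ((1 - r) ^ 2 + (1 - 3 * r) ^ 2) := by ring
  rw [h5]
  have h6 : 1 ≤ ((1 - r) + (1 - 3 * r)) := by linarith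
  have h7 : 1 / 2 ≤ ((1 - r) ^ 2 + (1 - 3 * r) ^ 2) := by nlinarith
  have h8 : 1 / 2 ≤ ((1 - r) + (1 - 3 * r)) * ((1 - r) ^ 2 + (1 - 3 * r) ^ 2) := by nlinarith
  nlinarith

/-- square integrability of functions supported in a ball -/
theorem avg_sq {v : D} {r : ℝ} (hv : v ∈ H (ball (0:E4) r)) :
    Integrable (fun p => fn v p ^ 2) volume := by
  have h1 : MemLp (fn v) 2 (volume : Measure E4) :=
    memLp_of_support (fn v) (E := ball (0:E4) r) measurableSet_ball measure_ball_lt_top
      (fn_outside measurableSet_ball hv) (by norm_num)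
  exact h1.integrable_sq

/-- Averaging over translations into the shell `1 - 3r < |z| < 1 - r`:
`∫_z ∫ u(p)² v(p-z)² dp dz ≤ (∫ v²) ∫_{1-4r<|p|<1} u² ≤ (∫ v²) (8r)² ‖∇u‖²` (Hardy), shell volume `≥ c r`. -/
theorem avg : ∃ C : ℝ, 0 < C ∧ ∀ u ∈ H B, ∀ r : ℝ, 0 < r → r ≤ 1 / 8 → ∀ v ∈ H (ball (0:E4) r),
    ∃ y ∈ H B, ‖y‖ = ‖v‖ ∧ ‖fn y‖ = ‖fn v‖ ∧ m2 y = m2 v ∧ X u y ≤ C * r * ‖u‖ ^ 2 * m2 v := by
  have hκ0 : volume (ball (0:E4) 1) ≠ 0 := (measure_ball_pos volume (0:E4) one_pos).ne'
  have hκ1 : volume (ball (0:E4) 1) ≠ ⊤ := measure_ball_lt_top.ne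
  set κ : ℝ := (volume (ball (0:E4) 1)).toReal with hκdef
  have hκ : 0 < κ := ENNReal.toReal_pos hκ0 hκ1
  have hκe : volume (ball (0:E4) 1) = ENNReal.ofReal κ := (ENNReal.ofReal_toReal hκ1).symm
  refine ⟨64 / κ, by positivity, ?_⟩
  intro u hu r hr hr8 v hv
  have hIv := avg_sq hv
  obtain ⟨hHI, hHle⟩ := hardy hu
  -- measurable representatives
  set U : E4 → ℝ≥0∞ := B.indicator (fun p => ENNReal.ofReal (fn u p ^ 2)) with hU
  set V : E4 → ℝ≥0∞ := (ball (0:E4) r).indicator (fun p => ENNReal.ofReal (fn v p ^ 2)) with hV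
  have hUm : Measurable U :=
    (((Lp.stronglyMeasurable (fn u)).measurable.pow_const 2).ennreal_ofReal).indicator
      measurableSet_ball
  have hVm : Measurable V :=
    (((Lp.stronglyMeasurable (fn v)).measurable.pow_const 2).ennreal_ofReal).indicator
      measurableSet_ball
  have hUae : ∀ᵐ p ∂(volume : Measure E4), ENNReal.ofReal (fn u p ^ 2) = U p := by
    filter_upwards [fn_outside measurableSet_ball hu] with p hp
    by_cases h : p ∈ B
    · rw [hU, indicator_of_mem h]
    · rw [hU, indicator_of_notMem h, hp h]; simp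
  have hVae : ∀ᵐ p ∂(volume : Measure E4), ENNReal.ofReal (fn v p ^ 2) = V p := by
    filter_upwards [fn_outside measurableSet_ball hv] with p hp
    by_cases h : p ∈ ball (0:E4) r
    · rw [hV, indicator_of_mem h]
    · rw [hV, indicator_of_notMem h, hp h]; simp
  have hVint : ∫⁻ p, V p = ENNReal.ofReal (m2 v) := by
    rw [m2, ofReal_integral_eq_lintegral_ofReal hIv (Eventually.of_forall fun p => sq_nonneg _)]
    exact lintegral_congr_ae (hVae.mono fun p hp => hp.symm)
  set f : E4 → ℝ≥0∞ := fun z => ∫⁻ p, U p * V (-z + p) with hf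
  have hmeas : Measurable (fun w : E4 × E4 => U w.2 * V (-w.1 + w.2)) := by
    apply (hUm.comp measurable_snd).mul
    apply hVm.comp
    exact (measurable_fst.neg).add measurable_snd
  have hfm : Measurable f := hmeas.lintegral_prod_right'
  -- upper bound for the total integral
  have hshell : ∀ p : E4, ∫⁻ z in avgShell r, V (-z + p) ≤
      (closedBall (0:E4) (1 - 4 * r))ᶜ.indicator (fun _ => ∫⁻ q, V q) p := by
    intro p
    by_cases hp : p ∈ (closedBall (0:E4) (1 - 4 * r))ᶜ
    · rw [indicator_of_mem hp]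
      refine (setLIntegral_le_lintegral _ _).trans (le_of_eq ?_)
      have h1 : ∀ z : E4, -z + p = p - z := fun z => by abel
      simp only [h1]
      exact lintegral_sub_left_eq_self V p
    · rw [indicator_of_notMem hp]
      rw [notMem_compl_iff, mem_closedBall_zero_iff] at hp
      rw [nonpos_iff_eq_zero]
      have h2 : ∀ z ∈ avgShell r, V (-z + p) = 0 := by
        intro z hz
        rw [hV]
        apply indicator_of_notMem
        rw [mem_ball_zero_iff, not_lt]
        have h3 : 1 - 3 * r < ‖z‖ := by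
          have := hz.2
          rw [mem_closedBall_zero_iff, not_le] at this
          exact this
        have h4 : ‖z‖ ≤ ‖-z + p‖ + ‖p‖ := by
          have h5 : z = -((-z + p) - p) := by abel
          calc ‖z‖ = ‖-((-z + p) - p)‖ := by rw [← h5]
            _ = ‖(-z + p) - p‖ := norm_neg _
            _ ≤ ‖-z + p‖ + ‖p‖ := norm_sub_le _ _
        linarith
      rw [setLIntegral_congr_fun (avgShell_meas r) h2]
      simp
  have hUshell : ∫⁻ p, U p * (closedBall (0:E4) (1 - 4 * r))ᶜ.indicator (fun _ => ∫⁻ q, V q) p ≤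
      ENNReal.ofReal (64 * r ^ 2 * ‖u‖ ^ 2) * ∫⁻ q, V q := by
    have h1 : ∀ p : E4, U p * (closedBall (0:E4) (1 - 4 * r))ᶜ.indicator (fun _ => ∫⁻ q, V q) p ≤
        (B.indicator (fun p => ENNReal.ofReal (64 * r ^ 2) *
          ENNReal.ofReal (fn u p ^ 2 / (1 - ‖p‖ ^ 2) ^ 2)) p) * ∫⁻ q, V q := by
      intro p
      by_cases hp : p ∈ (closedBall (0:E4) (1 - 4 * r))ᶜ
      · rw [indicator_of_mem hp]
        gcongr
        by_cases hpB : p ∈ B
        · rw [hU, indicator_of_mem hpB, indicator_of_mem hpB,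
            ← ENNReal.ofReal_mul (by positivity)]
          apply ENNReal.ofReal_le_ofReal
          rw [mem_ball_zero_iff] at hpB
          rw [mem_compl_iff, mem_closedBall_zero_iff, not_le] at hp
          have h2 : 0 < 1 - ‖p‖ ^ 2 := by nlinarith [norm_nonneg p]
          have h3 : 1 - ‖p‖ ^ 2 ≤ 8 * r := by nlinarith [norm_nonneg p]
          have h4 : (1 - ‖p‖ ^ 2) ^ 2 ≤ 64 * r ^ 2 := by nlinarith
          rw [mul_div_assoc', le_div_iff₀ (by positivity)]
          have h5 : 0 ≤ fn u p ^ 2 := sq_nonneg _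
          nlinarith
        · rw [hU, indicator_of_notMem hpB]
          exact bot_le
      · rw [indicator_of_notMem hp, mul_zero]
        exact bot_le
    refine (lintegral_mono h1).trans ?_
    have h6 : Measurable (B.indicator (fun p : E4 => ENNReal.ofReal (64 * r ^ 2) *
          ENNReal.ofReal (fn u p ^ 2 / (1 - ‖p‖ ^ 2) ^ 2))) := by
      refine Measurable.indicator ?_ measurableSet_ball
      apply Measurable.const_mul
      apply Measurable.ennreal_ofReal
      apply Measurable.div
      · exact (Lp.stronglyMeasurable (fn u)).measurable.pow_const 2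
      · exact ((measurable_const.sub (measurable_norm.pow_const 2)).pow_const 2)
    rw [lintegral_mul_const _ h6, lintegral_indicator measurableSet_ball,
      lintegral_const_mul' _ _ ENNReal.ofReal_ne_top,
      ← ofReal_integral_eq_lintegral_ofReal hHI
        (Eventually.of_forall fun p => div_nonneg (sq_nonneg _) (sq_nonneg _)),
      ← ENNReal.ofReal_mul (by positivity)]
    gcongr
  have htotal : ∫⁻ z in avgShell r, f z ≤ ENNReal.ofReal (64 * r ^ 2 * ‖u‖ ^ 2 * m2 v) := by
    have h1 : ∫⁻ z in avgShell r, f z = ∫⁻ p, ∫⁻ z in avgShell r, U p * V (-z + p) := by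
      rw [hf]
      exact lintegral_lintegral_swap (f := fun (z p : E4) => U p * V (-z + p)) hmeas.aemeasurable
    rw [h1]
    have h2 : ∀ p : E4, ∫⁻ z in avgShell r, U p * V (-z + p) = U p * ∫⁻ z in avgShell r, V (-z + p) := by
      intro p
      apply lintegral_const_mul
      exact hVm.comp (measurable_neg.add_const p)
    simp only [h2]
    refine (lintegral_mono fun p => mul_le_mul_right (hshell p) (U p)).trans ?_
    refine hUshell.trans (le_of_eq ?_)
    rw [hVint, ← ENNReal.ofReal_mul (by positivity)]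
  -- choose a good centre
  have hvol := avgShell_vol hr hr8
  have hvol0 : volume (avgShell r) ≠ 0 := by
    have h1 : 0 < ENNReal.ofReal r * volume (ball (0:E4) 1) := by
      apply ENNReal.mul_pos
      · exact (ENNReal.ofReal_pos.mpr hr).ne'
      · exact hκ0
    exact (h1.trans_le hvol).ne'
  have hvol1 : volume (avgShell r) ≠ ⊤ :=
    ((measure_mono sdiff_subset).trans_lt measure_ball_lt_top).ne
  obtain ⟨z, hz, hfz⟩ := exists_le_setLAverage hvol0 hvol1 hfm.aemeasurable
  have hm2 : 0 ≤ m2 v := m2_nonneg v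
  have hfz2 : f z ≤ ENNReal.ofReal (64 / κ * r * ‖u‖ ^ 2 * m2 v) := by
    refine hfz.trans ?_
    rw [setLAverage_eq]
    apply ENNReal.div_le_of_le_mul
    refine htotal.trans ?_
    have h1 : ENNReal.ofReal (64 * r ^ 2 * ‖u‖ ^ 2 * m2 v) =
        ENNReal.ofReal (64 / κ * r * ‖u‖ ^ 2 * m2 v) * (ENNReal.ofReal r * volume (ball (0:E4) 1)) := by
      rw [hκe, ← ENNReal.ofReal_mul hr.le, ← ENNReal.ofReal_mul (by positivity)]
      congr 1
      field_simp
    rw [h1]
    gcongr
  -- the translated function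
  obtain ⟨y, hy, hyn, hyf, hyH⟩ := exists_scale v (-z) one_pos
  simp only [one_smul, one_mul] at hy hyH
  have hyB : y ∈ H B := by
    apply H_mono _ (hyH _ hv)
    intro p hp
    have h1 : ‖-z + p‖ < r := by simpa using hp
    have h2 : ‖z‖ < 1 - r := by simpa using hz.1
    have h3 : ‖p‖ ≤ ‖z‖ + ‖-z + p‖ := by
      have h4 : p = z + (-z + p) := by abel
      calc ‖p‖ = ‖z + (-z + p)‖ := by rw [← h4]
        _ ≤ ‖z‖ + ‖-z + p‖ := norm_add_le _ _
    rw [mem_ball_zero_iff]
    linarith
  refine ⟨y, hyB, hyn, hyf, ?_, ?_⟩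
  · rw [m2, m2]
    rw [integral_congr_ae (hy.mono fun p hp => by
      show fn y p ^ 2 = fn v (-z + p) ^ 2
      rw [hp])]
    exact integral_add_left_eq_self (fun p => fn v p ^ 2) (-z)
  · have hXm : AEStronglyMeasurable (fun p => fn u p ^ 2 * fn y p ^ 2) (volume : Measure E4) := by
      exact ((Lp.aestronglyMeasurable (fn u)).pow 2).mul ((Lp.aestronglyMeasurable (fn y)).pow 2)
    rw [X, integral_eq_lintegral_of_nonneg_ae (Eventually.of_forall fun p => by positivity) hXm]
    apply ENNReal.toReal_le_of_le_ofReal (by positivity)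
    refine (le_of_eq ?_).trans hfz2
    rw [hf]
    apply lintegral_congr_ae
    have hshift : ∀ᵐ p ∂(volume : Measure E4), ENNReal.ofReal (fn v (-z + p) ^ 2) = V (-z + p) :=
      (measurePreserving_add_left (volume : Measure E4) (-z)).quasiMeasurePreserving.ae hVae
    filter_upwards [hUae, hshift, hy] with p h1 h2 h3
    rw [h3, ENNReal.ofReal_mul (sq_nonneg _), h1, h2]

end Pool.Agent.H57.BN
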