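import Pool.Agent.H57.BN.Fn

set_option autoImplicit false

open MeasureTheory Filter Topology Metric Set
open scoped ENNReal NNReal ContDiff

namespace Pool.Agent.H57.BN

/-! Basic API for `D`, `H Ω`, `fn`, `gr`. -/

theorem isClosed_H (Ω : Set E4) : IsClosed (H Ω : Set D) :=
  Submodule.isClosed_topologicalClosure _

theorem toD_mem {Ω : Set E4} {φ : E4 → ℝ} (h : IsTest Ω φ) : toD h ∈ H Ω :=
  Submodule.le_topologicalClosure _ (Submodule.subset_span ⟨φ, h, rfl⟩)

/-- elements of `H Ω` are limits of test functions (test functions are closed under `+`, `•`). -/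
theorem mem_H_iff_seq {Ω : Set E4} {x : D} : x ∈ H Ω ↔
    ∃ φ : ℕ → E4 → ℝ, ∃ h : ∀ n, IsTest Ω (φ n), Tendsto (fun n => toD (h n)) atTop (𝓝 x) := by
  constructor
  · intro hx
    rw [H_eq, ← SetLike.mem_coe, Submodule.topologicalClosure_coe, mem_closure_iff_seq_limit] at hx
    obtain ⟨u, hu, hlim⟩ := hx
    choose φ hφ using hu
    refine ⟨fun n => (φ n).1, fun n => (φ n).2, ?_⟩
    convert hlim using 1
    ext1 n
    exact hφ n
  · rintro ⟨φ, h, hlim⟩
    exact (isClosed_H Ω).mem_of_tendsto hlim (Eventually.of_forall fun n => toD_mem (h n))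

theorem H_univ : H univ = ⊤ := by
  rw [H_eq, eq_top_iff]
  intro x _
  exact dense_toDL x

theorem mem_H_univ (x : D) : x ∈ H univ := by
  rw [H_univ]; trivial

theorem H_mono {Ω Ω' : Set E4} (h : Ω ⊆ Ω') : H Ω ≤ H Ω' := by
  intro x hx
  rw [mem_H_iff_seq] at hx ⊢
  obtain ⟨φ, hφ, hlim⟩ := hx
  exact ⟨φ, fun n => (hφ n).mono h, hlim⟩

theorem inner_eq (x y : D) : inner ℝ x y = ∫ p, inner ℝ (gr x p) (gr y p) :=
  L2.inner_def _ _

theorem norm_sq (x : D) : ‖x‖ ^ 2 = ∫ p, ‖gr x p‖ ^ 2 := by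
  rw [← real_inner_self_eq_norm_sq, inner_eq]
  congr 1
  ext1 p
  exact real_inner_self_eq_norm_sq _

theorem m4_eq (x : D) : m4 x = ‖fn x‖ ^ 4 := by
  have h1 := Lp.norm_def (fn x)
  have h2 := (Lp.memLp (fn x)).eLpNorm_eq_integral_rpow_norm (by norm_num) (by norm_num)
  rw [h1, h2, ENNReal.toReal_ofReal (by positivity), m4, ← Real.rpow_natCast, ← Real.rpow_mul (by positivity)]
  norm_num
  congr 1
  ext1 p
  rw [← abs_pow, abs_of_nonneg (a := fn x p ^ 4) (by positivity)]

theorem memLp_fn (x : D) : MemLp (fn x) 4 (volume : Measure E4) := Lp.memLp _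

theorem memLp_gr (x : D) : MemLp (gr x) 2 (volume : Measure E4) := Lp.memLp _

/-- `4` and `4/3` are Hölder conjugate -/
instance holderConj_4 : ENNReal.HolderConjugate 4 (ENNReal.ofReal (4 / 3)) := by
  have h : Real.HolderConjugate 4 (4 / 3) := by
    rw [Real.holderConjugate_iff]; norm_num
  have := h.ennrealOfReal
  simpa using this

instance fact_one_le_43 : Fact ((1:ℝ≥0∞) ≤ ENNReal.ofReal (4 / 3)) := ⟨by
  rw [ENNReal.one_le_ofReal]; norm_num⟩

/-- `f ↦ ∫ f g` is a continuous linear functional on `L⁴`, `g ∈ L^{4/3}` -/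
theorem exists_pairing {g : E4 → ℝ} (hg : MemLp g (ENNReal.ofReal (4 / 3)) volume) :
    ∃ T : L4 →L[ℝ] ℝ, ∀ f : L4, T f = ∫ p, f p * g p := by
  refine ⟨((ContinuousLinearMap.mul ℝ ℝ).lpPairing volume 4 (ENNReal.ofReal (4 / 3))).flip
    (hg.toLp g), fun f => ?_⟩
  rw [ContinuousLinearMap.flip_apply, ContinuousLinearMap.lpPairing_eq_integral]
  apply integral_congr_ae
  filter_upwards [hg.coeFn_toLp] with p hp
  rw [hp]; rfl

theorem gradient_coord (φ : E4 → ℝ) (p : E4) (i : Fin 4) :
    gradient φ p i = fderiv ℝ φ p (EuclideanSpace.single i 1) := by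
  have h1 : inner ℝ (gradient φ p) (EuclideanSpace.single i (1:ℝ)) =
      fderiv ℝ φ p (EuclideanSpace.single i 1) := by
    rw [gradient]
    exact InnerProductSpace.toDual_symm_apply
  rw [← h1, EuclideanSpace.inner_single_right]
  simp

theorem integral_test_parts {φ ψ : E4 → ℝ} (hφ : IsTest univ φ) (hψ : ContDiff ℝ 1 ψ) (i : Fin 4) :
    ∫ p, gradient ψ p i * φ p = - ∫ p, ψ p * (gradient φ p i) := by
  simp only [gradient_coord]
  have c1 : Continuous (fderiv ℝ ψ) := hψ.continuous_fderiv (by norm_num)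
  have c2 : Continuous (fderiv ℝ φ) := (hφ.smooth.of_le (by norm_cast)).continuous_fderiv (n := 1) (by norm_num)
  have c3 := hφ.smooth.continuous
  have c4 := hψ.continuous
  have k1 : HasCompactSupport (fun p => fderiv ℝ φ p (EuclideanSpace.single i 1)) :=
    hφ.comp.fderiv_apply (𝕜 := ℝ) _
  have := integral_mul_fderiv_eq_neg_fderiv_mul_of_integrable (μ := (volume : Measure E4))
    (f := φ) (g := ψ) (v := EuclideanSpace.single i 1) ?_ ?_ ?_ ?_ ?_
  · calc ∫ p, fderiv ℝ ψ p (EuclideanSpace.single i 1) * φ p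
        = ∫ p, φ p * fderiv ℝ ψ p (EuclideanSpace.single i 1) := by
          congr 1; ext1 p; ring
      _ = - ∫ p, fderiv ℝ φ p (EuclideanSpace.single i 1) * ψ p := this
      _ = _ := by congr 2; ext1 p; ring
  · exact ((c2.clm_apply continuous_const).mul c4).integrable_of_hasCompactSupport k1.mul_right
  · exact (c3.mul (c1.clm_apply continuous_const)).integrable_of_hasCompactSupport hφ.comp.mul_right
  · exact (c3.mul c4).integrable_of_hasCompactSupport hφ.comp.mul_right
  · intro x _; exact hφ.differentiable x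
  · intro x _; exact hψ.differentiable (by norm_num) x

theorem memLp_43_of_cont {g : E4 → ℝ} (hg : Continuous g) (hc : HasCompactSupport g)
    {r : ℝ≥0∞} : MemLp g r (volume : Measure E4) := hg.memLp_of_hasCompactSupport hc

theorem IsTest.grad_coord_cont {Ω : Set E4} {φ : E4 → ℝ} (h : IsTest Ω φ) (i : Fin 4) :
    Continuous (fun p => gradient φ p i) ∧ HasCompactSupport (fun p => gradient φ p i) := by
  constructor
  · have := continuous_gradient (h.smooth.of_le (by norm_cast) : ContDiff ℝ 1 φ)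
    fun_prop
  · exact (hasCompactSupport_gradient h.comp).comp_left (g := fun v : E4 => v i) rfl

/-- integration by parts: the gradient is determined by the function. -/
theorem integral_gr_test (x : D) {φ : E4 → ℝ} (h : IsTest univ φ) (i : Fin 4) :
    ∫ p, gr x p i * φ p = - ∫ p, fn x p * (gradient φ p i) := by
  obtain ⟨ψ, hψ, hlim⟩ := mem_H_iff_seq.mp (mem_H_univ x)
  -- left-hand side
  have cv : Continuous (fun p => φ p • (EuclideanSpace.single i (1:ℝ) : E4)) :=
    h.smooth.continuous.smul continuous_const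
  have kv : HasCompactSupport (fun p => φ p • (EuclideanSpace.single i (1:ℝ) : E4)) :=
    h.comp.smul_right
  have mv : MemLp (fun p => φ p • (EuclideanSpace.single i (1:ℝ) : E4)) 2 volume :=
    cv.memLp_of_hasCompactSupport kv
  have hL : ∀ y : D, inner ℝ (gr y) (mv.toLp _) = ∫ p, gr y p i * φ p := by
    intro y
    rw [L2.inner_def]
    apply integral_congr_ae
    filter_upwards [mv.coeFn_toLp] with p hp
    rw [hp, inner_smul_right, EuclideanSpace.inner_single_right]
    simp [mul_comm]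
  obtain ⟨T, hT⟩ := exists_pairing (memLp_43_of_cont (r := ENNReal.ofReal (4 / 3))
    (h.grad_coord_cont i).1 (h.grad_coord_cont i).2)
  have key : ∀ n, inner ℝ (gr (toD (hψ n))) (mv.toLp _) = - T (fn (toD (hψ n))) := by
    intro n
    rw [hL, hT]
    have e1 : ∫ p, gr (toD (hψ n)) p i * φ p = ∫ p, gradient (ψ n) p i * φ p := by
      apply integral_congr_ae
      filter_upwards [gr_toD_ae (hψ n)] with p hp
      rw [hp]
    have e2 : ∫ p, fn (toD (hψ n)) p * gradient φ p i = ∫ p, ψ n p * gradient φ p i := by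
      apply integral_congr_ae
      filter_upwards [fn_toD_ae (hψ n)] with p hp
      rw [hp]
    rw [e1, e2]
    exact integral_test_parts h ((hψ n).smooth.of_le (by norm_cast)) i
  have l1 : Tendsto (fun n => inner ℝ (gr (toD (hψ n))) (mv.toLp _)) atTop
      (𝓝 (inner ℝ (gr x) (mv.toLp _))) := by
    have : Tendsto (fun n => gr (toD (hψ n))) atTop (𝓝 (gr x)) :=
      (continuous_subtype_val.tendsto x).comp hlim
    exact this.inner tendsto_const_nhds
  have l2 : Tendsto (fun n => - T (fn (toD (hψ n)))) atTop (𝓝 (- T (fn x))) :=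
    (((T.continuous.comp fn.continuous).tendsto x).comp hlim).neg
  have := tendsto_nhds_unique l1 (l2.congr fun n => (key n).symm)
  rw [hL, hT] at this
  exact this

theorem fn_inj {x : D} (h : fn x = 0) : x = 0 := by
  have h1 : ∀ (φ : E4 → ℝ) (_ : IsTest univ φ) (i : Fin 4), ∫ p, gr x p i * φ p = 0 := by
    intro φ hφ i
    rw [integral_gr_test x hφ i, h]
    have : ∫ p, (0 : L4) p * gradient φ p i = ∫ _ : E4, (0:ℝ) := by
      apply integral_congr_ae
      filter_upwards [Lp.coeFn_zero ℝ 4 (volume : Measure E4)] with p hp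
      rw [hp]; simp
    rw [this]; simp
  have h2 : ∀ i : Fin 4, ∀ᵐ p ∂(volume : Measure E4), gr x p i = 0 := by
    intro i
    have hm : MemLp (fun p => gr x p i) 2 (volume : Measure E4) := by
      have := (memLp_gr x)
      exact this.eval_piLp i
    apply ae_eq_zero_of_integral_contDiff_smul_eq_zero (hm.locallyIntegrable (by norm_num))
    intro g hg hc
    have := h1 g ⟨hg, hc, subset_univ _⟩ i
    simpa [mul_comm] using this
  have h3 : gr x = 0 := by
    apply Lp.ext
    filter_upwards [Lp.coeFn_zero E4 2 (volume : Measure E4), ae_all_iff.mpr h2] with p hp hp2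
    rw [hp]
    ext i
    simpa using hp2 i
  exact Subtype.ext h3

/-- extensionality through the functions -/
theorem D_ext {x y : D} (h : fn x =ᵐ[volume] fn y) : x = y := by
  have h1 : fn x = fn y := Lp.ext h
  have h2 : fn (x - y) = 0 := by rw [map_sub, h1, sub_self]
  exact sub_eq_zero.mp (fn_inj h2)

/-- convergence in `Lp` gives an a.e. convergent subsequence -/
theorem exists_ae_subseq_Lp {F : Type*} [NormedAddCommGroup F] {r : ℝ≥0∞} [Fact (1 ≤ r)]
    {f : ℕ → Lp F r (volume : Measure E4)} {g : Lp F r (volume : Measure E4)}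
    (h : Tendsto f atTop (𝓝 g)) :
    ∃ ψ : ℕ → ℕ, StrictMono ψ ∧ ∀ᵐ p ∂(volume : Measure E4),
      Tendsto (fun n => f (ψ n) p) atTop (𝓝 (g p)) := by
  have h1 := tendstoInMeasure_of_tendsto_Lp h
  obtain ⟨ψ, hψ, h2⟩ := h1.exists_seq_tendsto_ae
  exact ⟨ψ, hψ, h2⟩

/-- approximation by test functions with a.e. convergence -/
theorem exists_test_ae {Ω : Set E4} {x : D} (hx : x ∈ H Ω) :
    ∃ φ : ℕ → E4 → ℝ, ∃ h : ∀ n, IsTest Ω (φ n), Tendsto (fun n => toD (h n)) atTop (𝓝 x) ∧
      (∀ᵐ p ∂(volume : Measure E4), Tendsto (fun n => φ n p) atTop (𝓝 (fn x p))) ∧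
      (∀ᵐ p ∂(volume : Measure E4), Tendsto (fun n => gradient (φ n) p) atTop (𝓝 (gr x p))) := by
  obtain ⟨φ, h, hlim⟩ := mem_H_iff_seq.mp hx
  obtain ⟨ψ, hψ, h1⟩ := exists_ae_subseq_Lp ((fn.continuous.tendsto x).comp hlim)
  have hlim2 : Tendsto (fun n => toD (h (ψ n))) atTop (𝓝 x) := hlim.comp hψ.tendsto_atTop
  obtain ⟨ψ', hψ', h2⟩ := exists_ae_subseq_Lp ((continuous_subtype_val.tendsto x).comp hlim2)
  refine ⟨fun n => φ (ψ (ψ' n)), fun n => h _, hlim2.comp hψ'.tendsto_atTop, ?_, ?_⟩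
  · filter_upwards [h1, ae_all_iff.mpr fun n => fn_toD_ae (h n)] with p hp hp2
    refine (hp.comp hψ'.tendsto_atTop).congr fun n => ?_
    exact hp2 _
  · filter_upwards [h2, ae_all_iff.mpr fun n => gr_toD_ae (h n)] with p hp hp2
    refine hp.congr fun n => ?_
    exact hp2 _

theorem fn_outside {Ω : Set E4} (hΩ : MeasurableSet Ω) {x : D} (hx : x ∈ H Ω) :
    ∀ᵐ p ∂(volume : Measure E4), p ∉ Ω → fn x p = 0 := by
  obtain ⟨φ, h, -, h1, -⟩ := exists_test_ae hx
  filter_upwards [h1] with p hp hpΩ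
  refine tendsto_nhds_unique hp (tendsto_const_nhds.congr fun n => ?_)
  exact (image_eq_zero_of_notMem_tsupport fun h' => hpΩ ((h n).supp h')).symm

theorem gr_outside {Ω : Set E4} (hΩ : MeasurableSet Ω) {x : D} (hx : x ∈ H Ω) :
    ∀ᵐ p ∂(volume : Measure E4), p ∉ Ω → gr x p = 0 := by
  obtain ⟨φ, h, -, -, h1⟩ := exists_test_ae hx
  filter_upwards [h1] with p hp hpΩ
  refine tendsto_nhds_unique hp (tendsto_const_nhds.congr fun n => ?_)
  have : fderiv ℝ (φ n) p = 0 := by
    by_contra hne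
    exact hpΩ ((h n).supp (tsupport_fderiv_subset ℝ (subset_tsupport _ hne)))
  rw [gradient, this, map_zero]

end Pool.Agent.H57.BN
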