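import Pool.Agent.H57.BN.Bridge

set_option autoImplicit false

open MeasureTheory Filter Topology Metric Set
open scoped ENNReal NNReal ContDiff

namespace Pool.Agent.H57.BN

open Plain (mu H01)

/-- relation between an element of `H_0^1` and an element of `H B` -/
def Rel (U : H01) (x : D) : Prop := x ∈ H B ∧ fn x =ᵐ[mu] U.u ∧ gr x =ᵐ[mu] U.g

theorem brs_exists (U : H01) : ∃ x, Rel U x := by
  obtain ⟨x, hx, h1, h2⟩ := ofH01 U
  exact ⟨x, hx, h1, h2⟩

theorem brs_exists' {x : D} (hx : x ∈ H B) : ∃ U : H01, Rel U x := by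
  obtain ⟨U, h1, h2⟩ := toH01 hx
  exact ⟨U, hx, by rw [h1], by rw [h2]⟩

theorem Rel.nonzero {U : H01} {x : D} (h : Rel U x) : U.Nonzero ↔ x ≠ 0 := by
  obtain ⟨hx, h1, h2⟩ := h
  unfold H01.Nonzero
  rw [not_iff_not]
  constructor
  · intro h0
    apply fn_inj
    rw [Lp.eq_zero_iff_ae_eq_zero]
    have h3 : ∀ᵐ p ∂mu, fn x p = 0 := by
      filter_upwards [h0, h1] with p hp hp1
      rw [hp1, hp]
    have h4 : ∀ᵐ p ∂(volume : Measure E4), p ∈ B → fn x p = 0 :=
      (ae_restrict_iff' eig_measurableSet_B).mp h3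
    filter_upwards [h4, fn_outside eig_measurableSet_B hx] with p hp hp1
    by_cases hpB : p ∈ B
    · exact hp hpB
    · exact hp1 hpB
  · rintro rfl
    rw [map_zero] at h1
    filter_upwards [h1, ae_mu (Lp.coeFn_zero ℝ 4 (volume : Measure E4))] with p hp hp1
    rw [← hp, hp1]
    rfl

theorem brs_int_norm_gr (x : D) : Integrable (fun p => ‖gr x p‖ ^ 2) mu := by
  have h := ((memLp_gr x).restrict B).integrable_norm_pow (by norm_num)
  exact_mod_cast h

theorem brs_int_sq {x : D} (hx : x ∈ H B) : Integrable (fun p => fn x p ^ 2) mu :=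
  (eig_integrable_sq_B hx).restrict

theorem brs_quad_integrable {x : D} (hx : x ∈ H B) (l : ℝ) :
    Integrable (fun p => ‖gr x p‖ ^ 2 + l * fn x p ^ 2) mu :=
  (brs_int_norm_gr x).add ((brs_int_sq hx).const_mul l)

theorem brs_quad_aux {x : D} (hx : x ∈ H B) (lam : ℝ) :
    ∫ p, (‖gr x p‖ ^ 2 + (-lam) * fn x p ^ 2) ∂mu = P lam x := by
  rw [integral_add (brs_int_norm_gr x) ((brs_int_sq hx).const_mul _), integral_const_mul,
    int_norm_gr hx, int_m2 hx]
  unfold P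
  ring

theorem Rel.quad {U : H01} {x : D} (h : Rel U x) (lam : ℝ) : Plain.quad (-lam) U = P lam x := by
  obtain ⟨hx, h1, h2⟩ := h
  unfold Plain.quad
  rw [← brs_quad_aux hx]
  apply integral_congr_ae
  filter_upwards [h1, h2] with p hp hp2
  rw [hp, hp2]

theorem brs_int_X (x y : D) : Integrable (fun p => fn x p ^ 2 * fn y p ^ 2) (volume : Measure E4) := by
  refine (integrable_mul4 (fn x) (fn x) (fn y) (fn y)).congr (Eventually.of_forall fun p => ?_)
  simp only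
  ring

theorem brs_X_eq {x : D} (hx : x ∈ H B) (y : D) :
    ∫ p, fn x p ^ 2 * fn y p ^ 2 ∂mu = X x y :=
  int_B2 hx y (fun s t => s ^ 2 * t ^ 2) (by intro s; norm_num)

theorem brs_m4_eq {x : D} (hx : x ∈ H B) : ∫ p, fn x p ^ 4 ∂mu = m4 x :=
  int_B hx (fun s => s ^ 4) (by norm_num)

theorem brs_neh {U V : H01} {x y : D} (h : Rel U x) (h' : Rel V y) (b : ℝ) :
    ∫ p, (1 * U.u p ^ 4 + (-b) * U.u p ^ 2 * V.u p ^ 2) ∂mu = m4 x - b * X x y := by
  obtain ⟨hx, h1, h2⟩ := h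
  obtain ⟨hy, h3, h4⟩ := h'
  have e : ∫ p, (1 * U.u p ^ 4 + (-b) * U.u p ^ 2 * V.u p ^ 2) ∂mu =
      ∫ p, (fn x p ^ 4 + (-b) * (fn x p ^ 2 * fn y p ^ 2)) ∂mu := by
    apply integral_congr_ae
    filter_upwards [h1, h3] with p hp hp2
    rw [hp, hp2]
    ring
  rw [e, integral_add (integrable_pow4 (fn x)).restrict ((brs_int_X x y).restrict.const_mul _),
    integral_const_mul, brs_X_eq hx, brs_m4_eq hx]
  ring

theorem brs_neh' {U V : H01} {x y : D} (h : Rel U x) (h' : Rel V y) (b : ℝ) :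
    ∫ p, (1 * V.u p ^ 4 + (-b) * U.u p ^ 2 * V.u p ^ 2) ∂mu = m4 y - b * X x y := by
  obtain ⟨hx, h1, h2⟩ := h
  obtain ⟨hy, h3, h4⟩ := h'
  have e : ∫ p, (1 * V.u p ^ 4 + (-b) * U.u p ^ 2 * V.u p ^ 2) ∂mu =
      ∫ p, (fn y p ^ 4 + (-b) * (fn x p ^ 2 * fn y p ^ 2)) ∂mu := by
    apply integral_congr_ae
    filter_upwards [h1, h3] with p hp hp2
    rw [hp, hp2]
    ring
  rw [e, integral_add (integrable_pow4 (fn y)).restrict ((brs_int_X x y).restrict.const_mul _),
    integral_const_mul, brs_X_eq hx, brs_m4_eq hy]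
  ring

theorem Rel.energy {U V : H01} {x y : D} (h : Rel U x) (h' : Rel V y) (lam th b : ℝ) :
    Plain.energy (-lam) (-th) 1 1 (-b) U V =
      (P lam x + P th y) / 2 - (m4 x - 2 * b * X x y + m4 y) / 4 := by
  obtain ⟨hx, h1, h2⟩ := h
  obtain ⟨hy, h3, h4⟩ := h'
  unfold Plain.energy
  have e1 : ∫ p, (‖U.g p‖ ^ 2 + (-lam) * U.u p ^ 2 + ‖V.g p‖ ^ 2 + (-th) * V.u p ^ 2) ∂mu =
      P lam x + P th y := by
    rw [← brs_quad_aux hx, ← brs_quad_aux hy,
      ← integral_add (brs_quad_integrable hx _) (brs_quad_integrable hy _)]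
    apply integral_congr_ae
    filter_upwards [h1, h2, h3, h4] with p hp hp2 hp3 hp4
    rw [hp, hp2, hp3, hp4]
    ring
  have e2 : ∫ p, (1 * U.u p ^ 4 + 2 * (-b) * U.u p ^ 2 * V.u p ^ 2 + 1 * V.u p ^ 4) ∂mu =
      m4 x - 2 * b * X x y + m4 y := by
    have e : ∫ p, (1 * U.u p ^ 4 + 2 * (-b) * U.u p ^ 2 * V.u p ^ 2 + 1 * V.u p ^ 4) ∂mu =
        ∫ p, ((fn x p ^ 4 + (2 * (-b)) * (fn x p ^ 2 * fn y p ^ 2)) + fn y p ^ 4) ∂mu := by
      apply integral_congr_ae
      filter_upwards [h1, h3] with p hp hp2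
      rw [hp, hp2]
      ring
    have i1 : Integrable (fun p => fn x p ^ 4 + (2 * (-b)) * (fn x p ^ 2 * fn y p ^ 2)) mu :=
      (integrable_pow4 (fn x)).restrict.add ((brs_int_X x y).restrict.const_mul _)
    rw [e, integral_add i1 (integrable_pow4 (fn y)).restrict,
      integral_add (integrable_pow4 (fn x)).restrict ((brs_int_X x y).restrict.const_mul _),
      integral_const_mul, brs_X_eq hx, brs_m4_eq hy, brs_m4_eq hx]
    ring
  rw [e1, e2]
  ring

theorem Rel.nehari {U V : H01} {x y : D} (h : Rel U x) (h' : Rel V y) (lam th b : ℝ) :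
    Plain.Nehari (-lam) (-th) 1 1 (-b) U V ↔ (x, y) ∈ Nb lam th b := by
  unfold Plain.Nehari Nb
  rw [h.quad lam, h'.quad th, brs_neh h h' b, brs_neh' h h' b, h.nonzero, h'.nonzero]
  simp only [mem_ofPred_eq, sub_eq_zero]
  constructor
  · rintro ⟨a1, a2, a3, a4⟩
    exact ⟨h.1, h'.1, a1, a2, a3, a4⟩
  · rintro ⟨-, -, a1, a2, a3, a4⟩
    exact ⟨a1, a2, a3, a4⟩

theorem brs_energy_Nb {U V : H01} {x y : D} (h : Rel U x) (h' : Rel V y) {lam th b : ℝ}
    (hN : (x, y) ∈ Nb lam th b) :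
    Plain.energy (-lam) (-th) 1 1 (-b) U V = (P lam x + P th y) / 4 := by
  rw [h.energy h']
  obtain ⟨-, -, -, -, a3, a4⟩ := hN
  simp only at a3 a4
  linarith

theorem least_eq (lam th b : ℝ) : Plain.least (-lam) (-th) 1 1 (-b) = A lam th b := by
  unfold Plain.least A
  congr 1
  ext s
  constructor
  · rintro ⟨U, V, hN, rfl⟩
    obtain ⟨x, hx⟩ := brs_exists U
    obtain ⟨y, hy⟩ := brs_exists V
    have hN' := (hx.nehari hy lam th b).mp hN
    exact ⟨(x, y), hN', (brs_energy_Nb hx hy hN').symm⟩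
  · rintro ⟨⟨x, y⟩, hN, rfl⟩
    obtain ⟨U, hU⟩ := brs_exists' (show x ∈ H B from hN.1)
    obtain ⟨V, hV⟩ := brs_exists' (show y ∈ H B from hN.2.1)
    exact ⟨U, V, (hU.nehari hV lam th b).mpr hN, (brs_energy_Nb hU hV hN).symm⟩

/-- continuity of `φ ↦ ∫ a b c φ` -/
theorem brs_cont4 (a b c : L4) : Continuous fun φ : D => ∫ p, a p * b p * c p * fn φ p := by
  have hlin : ∀ f g : L4, (∫ p, a p * b p * c p * (f + g) p) =
      (∫ p, a p * b p * c p * f p) + ∫ p, a p * b p * c p * g p := by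
    intro f g
    rw [← integral_add (integrable_mul4 a b c f) (integrable_mul4 a b c g)]
    apply integral_congr_ae
    filter_upwards [Lp.coeFn_add f g] with p hp
    rw [hp, Pi.add_apply]
    ring
  have hsm : ∀ (r : ℝ) (f : L4), (∫ p, a p * b p * c p * (r • f) p) =
      r * ∫ p, a p * b p * c p * f p := by
    intro r f
    rw [← integral_const_mul]
    apply integral_congr_ae
    filter_upwards [Lp.coeFn_smul r f] with p hp
    rw [hp, Pi.smul_apply, smul_eq_mul]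
    ring
  let T : L4 →ₗ[ℝ] ℝ :=
    { toFun := fun f => ∫ p, a p * b p * c p * f p
      map_add' := hlin
      map_smul' := fun r f => by simpa using hsm r f }
  let T' : L4 →L[ℝ] ℝ := T.mkContinuous (‖a‖ * ‖b‖ * ‖c‖) (fun f => by
    show ‖∫ p, a p * b p * c p * f p‖ ≤ _
    rw [Real.norm_eq_abs]
    exact abs_integral_le_integral_abs.trans (integral_abs_mul4 a b c f))
  exact T'.continuous.comp fn.continuous

theorem brs_cont_mul {x : D} (hx : x ∈ H B) : Continuous fun φ : D => ∫ p, fn x p * fn φ p := by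
  have hm : MemLp (fn x) (ENNReal.ofReal (4 / 3)) (volume : Measure E4) := by
    refine memLp_of_support (fn x) eig_measurableSet_B eig_volume_B_lt_top
      (fn_outside eig_measurableSet_B hx) ?_
    have h4 : (4 : ℝ≥0∞) = ENNReal.ofReal 4 := by norm_num
    rw [h4]
    exact ENNReal.ofReal_le_ofReal (by norm_num)
  obtain ⟨T, hT⟩ := exists_pairing hm
  have : (fun φ : D => ∫ p, fn x p * fn φ p) = fun φ : D => T (fn φ) := by
    funext φ
    rw [hT]
    exact integral_congr_ae (Eventually.of_forall fun p => by simp only; ring)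
  rw [this]
  exact T.continuous.comp fn.continuous

theorem brs_cont_PB {x : D} (hx : x ∈ H B) (lam : ℝ) : Continuous fun φ : D => PB lam x φ := by
  unfold PB
  exact (continuous_const.inner continuous_id).sub (continuous_const.mul (brs_cont_mul hx))

theorem brs_ext {T₁ T₂ : D → ℝ} (h1 : Continuous T₁) (h2 : Continuous T₂)
    (h : ∀ (φ : E4 → ℝ) (hφ : IsTest B φ), T₁ (toD hφ) = T₂ (toD hφ)) : ∀ φ ∈ H B, T₁ φ = T₂ φ := by
  intro φ hφ
  obtain ⟨ψ, hψ, hlim⟩ := mem_H_iff_seq.mp hφ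
  have t1 := (h1.tendsto φ).comp hlim
  have t2 := (h2.tendsto φ).comp hlim
  exact tendsto_nhds_unique t1 (t2.congr fun n => (h _ (hψ n)).symm)

/-- the left-hand side for test functions -/
theorem brs_lhs {U : H01} {x : D} (h : Rel U x) (lam : ℝ) {φ : E4 → ℝ} (hφ : IsTest B φ) :
    ∫ p, (inner ℝ (U.g p) (gradient φ p) + (-lam) * U.u p * φ p) ∂mu = PB lam x (toD hφ) := by
  obtain ⟨hx, h1, h2⟩ := h
  have e : ∫ p, (inner ℝ (U.g p) (gradient φ p) + (-lam) * U.u p * φ p) ∂mu =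
      ∫ p, (inner ℝ (gr x p) (gr (toD hφ) p) + (-lam) * (fn x p * fn (toD hφ) p)) ∂mu := by
    apply integral_congr_ae
    filter_upwards [h1, h2, ae_mu (fn_toD_ae hφ), ae_mu (gr_toD_ae hφ)] with p hp hp2 hp3 hp4
    rw [hp, hp2, hp3, hp4]
    ring
  have i1 : Integrable (fun p => inner ℝ (gr x p) (gr (toD hφ) p)) mu :=
    (L2.integrable_inner (gr x) (gr (toD hφ))).restrict
  have i2 : Integrable (fun p => fn x p * fn (toD hφ) p) mu :=
    (integrable_mul_B hx (toD_mem hφ)).restrict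
  rw [e, integral_add i1 (i2.const_mul _), integral_const_mul, int_gr hx,
    int_B2 hx (toD hφ) (fun s t => s * t) (by intro s; ring)]
  unfold PB
  ring

theorem brs_cube_eq {x : D} (hx : x ∈ H B) (φ : D) :
    ∫ p, fn x p ^ 3 * fn φ p ∂mu = ∫ p, fn x p ^ 3 * fn φ p :=
  int_B2 hx φ (fun s t => s ^ 3 * t) (by intro s; norm_num)

theorem brs_int_a (x y φ : D) :
    Integrable (fun p => fn x p * fn y p ^ 2 * fn φ p) (volume : Measure E4) := by
  refine (integrable_mul4 (fn x) (fn y) (fn y) (fn φ)).congr (Eventually.of_forall fun p => ?_)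
  simp only
  ring

theorem brs_rhs {U V : H01} {x y : D} (h : Rel U x) (h' : Rel V y) (b : ℝ) {φ : E4 → ℝ}
    (hφ : IsTest B φ) :
    ∫ p, (1 * U.u p ^ 3 + (-b) * U.u p * V.u p ^ 2) * φ p ∂mu =
      (∫ p, fn x p ^ 3 * fn (toD hφ) p) - b * ∫ p, fn x p * fn y p ^ 2 * fn (toD hφ) p := by
  obtain ⟨hx, h1, h2⟩ := h
  obtain ⟨hy, h3, h4⟩ := h'
  have e : ∫ p, (1 * U.u p ^ 3 + (-b) * U.u p * V.u p ^ 2) * φ p ∂mu =
      ∫ p, (fn x p ^ 3 * fn (toD hφ) p + (-b) * (fn x p * fn y p ^ 2 * fn (toD hφ) p)) ∂mu := by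
    apply integral_congr_ae
    filter_upwards [h1, h3, ae_mu (fn_toD_ae hφ)] with p hp hp2 hp3
    rw [hp, hp2, hp3]
    ring
  rw [e, integral_add (integrable_cube_mul (fn x) (fn (toD hφ))).restrict
    ((brs_int_a x y (toD hφ)).restrict.const_mul _), integral_const_mul, brs_cube_eq hx,
    int_B3 hx y (toD hφ) (fun s t r => s * t ^ 2 * r) (by intro s t; ring)]
  ring

theorem brs_rhs' {U V : H01} {x y : D} (h : Rel U x) (h' : Rel V y) (b : ℝ) {φ : E4 → ℝ}
    (hφ : IsTest B φ) :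
    ∫ p, (1 * V.u p ^ 3 + (-b) * U.u p ^ 2 * V.u p) * φ p ∂mu =
      (∫ p, fn y p ^ 3 * fn (toD hφ) p) - b * ∫ p, fn x p ^ 2 * fn y p * fn (toD hφ) p := by
  have h3 := brs_rhs h' h b hφ
  have e1 : ∫ p, (1 * V.u p ^ 3 + (-b) * U.u p ^ 2 * V.u p) * φ p ∂mu =
      ∫ p, (1 * V.u p ^ 3 + (-b) * V.u p * U.u p ^ 2) * φ p ∂mu :=
    integral_congr_ae (Eventually.of_forall fun p => by simp only; ring)
  have e2 : ∫ p, fn x p ^ 2 * fn y p * fn (toD hφ) p = ∫ p, fn y p * fn x p ^ 2 * fn (toD hφ) p :=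
    integral_congr_ae (Eventually.of_forall fun p => by simp only; ring)
  rw [e1, e2, h3]

theorem brs_cont_cube (x : D) : Continuous fun φ : D => ∫ p, fn x p ^ 3 * fn φ p := by
  have h := brs_cont4 (fn x) (fn x) (fn x)
  refine h.congr fun φ => ?_
  exact integral_congr_ae (Eventually.of_forall fun p => by simp only; ring)

theorem brs_cont_a (x y : D) : Continuous fun φ : D => ∫ p, fn x p * fn y p ^ 2 * fn φ p := by
  have h := brs_cont4 (fn x) (fn y) (fn y)
  refine h.congr fun φ => ?_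
  exact integral_congr_ae (Eventually.of_forall fun p => by simp only; ring)

theorem brs_cont_b (x y : D) : Continuous fun φ : D => ∫ p, fn x p ^ 2 * fn y p * fn φ p := by
  have h := brs_cont4 (fn x) (fn x) (fn y)
  refine h.congr fun φ => ?_
  exact integral_congr_ae (Eventually.of_forall fun p => by simp only; ring)

theorem Rel.solution {U V : H01} {x y : D} (h : Rel U x) (h' : Rel V y) (lam th b : ℝ) :
    Plain.IsSolution (-lam) (-th) 1 1 (-b) U V ↔ IsSol lam th b x y := by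
  constructor
  · intro hs
    refine ⟨brs_ext (brs_cont_PB h.1 lam)
      ((brs_cont_cube x).sub (continuous_const.mul (brs_cont_a x y))) fun φ hφ => ?_,
      brs_ext (brs_cont_PB h'.1 th)
      ((brs_cont_cube y).sub (continuous_const.mul (brs_cont_b x y))) fun φ hφ => ?_⟩
    · have h1 := (hs φ (brg_isTest' hφ)).1
      rw [brs_lhs h lam hφ, brs_rhs h h' b hφ] at h1
      exact h1
    · have h1 := (hs φ (brg_isTest' hφ)).2
      rw [brs_lhs h' th hφ, brs_rhs' h h' b hφ] at h1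
      exact h1
  · rintro ⟨h1, h2⟩ φ hφ
    have hφ' := brg_isTest hφ
    rw [brs_lhs h lam hφ', brs_rhs h h' b hφ', brs_lhs h' th hφ', brs_rhs' h h' b hφ']
    exact ⟨h1 _ (toD_mem hφ'), h2 _ (toD_mem hφ')⟩

theorem brs_rhs_sc {U : H01} {x : D} (h : Rel U x) {φ : E4 → ℝ} (hφ : IsTest B φ) :
    ∫ p, (1 : ℝ) * |U.u p| ^ 2 * U.u p * φ p ∂mu = ∫ p, fn x p ^ 3 * fn (toD hφ) p := by
  obtain ⟨hx, h1, h2⟩ := h
  rw [← brs_cube_eq hx]
  apply integral_congr_ae
  filter_upwards [h1, ae_mu (fn_toD_ae hφ)] with p hp hp2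
  rw [hp, hp2, sq_abs]
  ring

theorem Rel.scalar {U : H01} {x : D} (h : Rel U x) (lam : ℝ) :
    Plain.IsScalarSolution (-lam) 1 U ↔
      ∀ φ ∈ H B, PB lam x φ = ∫ p, fn x p ^ 3 * fn φ p := by
  constructor
  · intro hs
    refine brs_ext (brs_cont_PB h.1 lam) (brs_cont_cube x) fun φ hφ => ?_
    have h1 := hs φ (brg_isTest' hφ)
    rw [brs_lhs h lam hφ, brs_rhs_sc h hφ] at h1
    exact h1
  · intro h1 φ hφ
    have hφ' := brg_isTest hφ
    rw [brs_lhs h lam hφ', brs_rhs_sc h hφ']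
    exact h1 _ (toD_mem hφ')

theorem Rel.scalarEnergy {U : H01} {x : D} (h : Rel U x) (lam : ℝ) :
    Plain.scalarEnergy (-lam) 1 U = P lam x / 2 - m4 x / 4 := by
  have h1 := h.quad lam
  obtain ⟨hx, h2, h3⟩ := h
  unfold Plain.scalarEnergy
  unfold Plain.quad at h1
  have e : ∫ p, (1 : ℝ) * U.u p ^ 4 ∂mu = m4 x := by
    rw [← brs_m4_eq hx]
    apply integral_congr_ae
    filter_upwards [h2] with p hp
    rw [hp, one_mul]
  rw [h1, e]
  ring

theorem Rel.pos {U : H01} {x : D} (h : Rel U x) :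
    U.Pos ↔ ∀ᵐ p ∂(volume : Measure E4), p ∈ B → 0 < fn x p := by
  obtain ⟨hx, h1, h2⟩ := h
  unfold H01.Pos
  rw [← ae_restrict_iff' eig_measurableSet_B]
  constructor
  · intro h3
    filter_upwards [h1, h3] with p hp hp2
    rw [hp]
    exact hp2
  · intro h3
    filter_upwards [h1, h3] with p hp hp2
    rw [← hp]
    exact hp2

end Pool.Agent.H57.BN
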