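import Mathlib

set_option autoImplicit false

/-!
# The objects of MP_3ae6da_an for `N = 4` and `Ω` = the open unit ball of `ℝ⁴`

(`N = 4`: `2* = 4`, `p = 2`.)  All functions are only looked at inside the ball.
-/

open MeasureTheory Filter Topology Metric Set
open scoped ContDiff

namespace Pool.Agent.H57.BN.Plain

/-- `ℝ⁴` -/
abbrev E4 : Type := EuclideanSpace ℝ (Fin 4)

/-- `Ω`, the open unit ball of `ℝ⁴` -/
abbrev Om : Set E4 := ball (0 : E4) 1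

/-- Lebesgue measure on `Ω` -/
noncomputable abbrev mu : Measure E4 := (volume : Measure E4).restrict Om

/-- `C_c^∞(Ω)` -/
def IsTest (φ : E4 → ℝ) : Prop :=
  ContDiff ℝ ∞ φ ∧ HasCompactSupport φ ∧ tsupport φ ⊆ Om

/-- An element of `H_0^1(Ω)`: a function `u ∈ L²(Ω)` together with its weak gradient `g ∈ L²(Ω;ℝ⁴)`,
which is the limit in `H¹(Ω)` of functions in `C_c^∞(Ω)`. -/
structure H01 where
  u : E4 → ℝ
  g : E4 → E4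
  memu : MemLp u 2 mu
  memg : MemLp g 2 mu
  approx : ∃ φ : ℕ → E4 → ℝ, (∀ n, IsTest (φ n)) ∧
    Tendsto (fun n => ∫ p, (φ n p - u p) ^ 2 ∂mu) atTop (𝓝 0) ∧
    Tendsto (fun n => ∫ p, ‖gradient (φ n) p - g p‖ ^ 2 ∂mu) atTop (𝓝 0)

/-- `u ≢ 0` -/
def H01.Nonzero (U : H01) : Prop := ¬ (∀ᵐ p ∂mu, U.u p = 0)

/-- `u > 0` (almost everywhere in `Ω`) -/
def H01.Pos (U : H01) : Prop := ∀ᵐ p ∂mu, 0 < U.u p

/-- first Dirichlet eigenvalue of `-Δ` on `Ω` -/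
noncomputable def firstEigenvalue : ℝ :=
  sInf {s : ℝ | ∃ U : H01, ∫ p, U.u p ^ 2 ∂mu = 1 ∧ s = ∫ p, ‖U.g p‖ ^ 2 ∂mu}

/-- `∫ (|∇u|² + l u²)` -/
noncomputable def quad (l : ℝ) (U : H01) : ℝ := ∫ p, (‖U.g p‖ ^ 2 + l * U.u p ^ 2) ∂mu

/-- the energy `E_β(u,v)` -/
noncomputable def energy (l1 l2 m1 m2 β : ℝ) (U V : H01) : ℝ :=
  (1 / 2) * ∫ p, (‖U.g p‖ ^ 2 + l1 * U.u p ^ 2 + ‖V.g p‖ ^ 2 + l2 * V.u p ^ 2) ∂mu -
  (1 / 4) * ∫ p, (m1 * U.u p ^ 4 + 2 * β * U.u p ^ 2 * V.u p ^ 2 + m2 * V.u p ^ 4) ∂mu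

/-- the set `N_β`: both functions nonzero, `∂_u E_β(u,v)u = 0 = ∂_v E_β(u,v)v`. -/
def Nehari (l1 l2 m1 m2 β : ℝ) (U V : H01) : Prop :=
  U.Nonzero ∧ V.Nonzero ∧
  quad l1 U - ∫ p, (m1 * U.u p ^ 4 + β * U.u p ^ 2 * V.u p ^ 2) ∂mu = 0 ∧
  quad l2 V - ∫ p, (m2 * V.u p ^ 4 + β * U.u p ^ 2 * V.u p ^ 2) ∂mu = 0

/-- `A_β` -/
noncomputable def least (l1 l2 m1 m2 β : ℝ) : ℝ :=
  sInf {s : ℝ | ∃ U V : H01, Nehari l1 l2 m1 m2 β U V ∧ s = energy l1 l2 m1 m2 β U V}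

/-- weak solution of `-Δu + l1 u = m1 u³ + β u v²`, `-Δv + l2 v = m2 v³ + β u² v`, `u, v ∈ H_0^1(Ω)` -/
def IsSolution (l1 l2 m1 m2 β : ℝ) (U V : H01) : Prop :=
  ∀ φ : E4 → ℝ, IsTest φ →
    ∫ p, (inner ℝ (U.g p) (gradient φ p) + l1 * U.u p * φ p) ∂mu =
      ∫ p, (m1 * U.u p ^ 3 + β * U.u p * V.u p ^ 2) * φ p ∂mu ∧
    ∫ p, (inner ℝ (V.g p) (gradient φ p) + l2 * V.u p * φ p) ∂mu =
      ∫ p, (m2 * V.u p ^ 3 + β * U.u p ^ 2 * V.u p) * φ p ∂mu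

/-- a positive ground state: a solution, both components positive, with energy `A_β` -/
def IsPosGroundState (l1 l2 m1 m2 β : ℝ) (U V : H01) : Prop :=
  IsSolution l1 l2 m1 m2 β U V ∧ U.Pos ∧ V.Pos ∧
  energy l1 l2 m1 m2 β U V = least l1 l2 m1 m2 β

/-- weak solution of the scalar equation `-Δu + l u = m |u|² u` -/
def IsScalarSolution (l m : ℝ) (U : H01) : Prop :=
  ∀ φ : E4 → ℝ, IsTest φ →
    ∫ p, (inner ℝ (U.g p) (gradient φ p) + l * U.u p * φ p) ∂mu =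
      ∫ p, m * |U.u p| ^ 2 * U.u p * φ p ∂mu

/-- energy of the scalar equation -/
noncomputable def scalarEnergy (l m : ℝ) (U : H01) : ℝ :=
  (1 / 2) * ∫ p, (‖U.g p‖ ^ 2 + l * U.u p ^ 2) ∂mu - (1 / 4) * ∫ p, m * U.u p ^ 4 ∂mu

/-- positive least energy solution of the scalar equation -/
def IsPosLeastEnergy (l m : ℝ) (U : H01) : Prop :=
  IsScalarSolution l m U ∧ U.Pos ∧
  ∀ W : H01, IsScalarSolution l m W → W.Nonzero → scalarEnergy l m U ≤ scalarEnergy l m W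

/-- strong convergence in `H_0^1(Ω)` -/
def StrongTo (U : ℕ → H01) (W : H01) : Prop :=
  Tendsto (fun n => ∫ p, ((U n).u p - W.u p) ^ 2 ∂mu) atTop (𝓝 0) ∧
  Tendsto (fun n => ∫ p, ‖(U n).g p - W.g p‖ ^ 2 ∂mu) atTop (𝓝 0)

/-- weak convergence to zero in `H_0^1(Ω)` -/
def WeakToZero (U : ℕ → H01) : Prop :=
  ∀ W : H01, Tendsto (fun n => ∫ p, (inner ℝ ((U n).g p) (W.g p) + (U n).u p * W.u p) ∂mu) atTop (𝓝 0)

/-- alternative (i) for the sequence `(U n, V n)` -/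
def AltOne (l1 m1 : ℝ) (U V : ℕ → H01) : Prop :=
  (∃ W : H01, IsPosLeastEnergy l1 m1 W ∧ StrongTo U W) ∧ WeakToZero V

/-- The negated form of Q1 of MP_3ae6da_an, in a strong form: `N = 4`, `Ω` the unit ball,
`μ₁ = μ₂ = 1`, any `λ₁ ∈ (-λ₁(Ω), 0)` and every `λ₂ < 0` close enough to zero. -/
def Statement : Prop :=
  0 < firstEigenvalue ∧
  ∀ l1 : ℝ, -firstEigenvalue < l1 → l1 < 0 → ∃ th : ℝ, 0 < th ∧ th < firstEigenvalue ∧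
    ∀ l2 : ℝ, -th ≤ l2 → l2 < 0 →
      (∀ β : ℝ, β < 0 → ∃ U V : H01, IsPosGroundState l1 l2 1 1 β U V) ∧
      ∀ β : ℕ → ℝ, (∀ n, β n < 0) → Tendsto β atTop atBot →
        ∀ U V : ℕ → H01, (∀ n, IsPosGroundState l1 l2 1 1 (β n) (U n) (V n)) →
          ∃ ψ : ℕ → ℕ, StrictMono ψ ∧ AltOne l1 1 (U ∘ ψ) (V ∘ ψ)

end Pool.Agent.H57.BN.Plain
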