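import Pool.Agent.H57.BN.Eig
import Pool.Agent.H57.BN.Plain

set_option autoImplicit false

open MeasureTheory Filter Topology Metric Set
open scoped ENNReal NNReal ContDiff

namespace Pool.Agent.H57.BN

open Plain (mu H01)

theorem brg_isTest {φ : E4 → ℝ} (h : Plain.IsTest φ) : IsTest B φ := ⟨h.1, h.2.1, h.2.2⟩

theorem brg_isTest' {φ : E4 → ℝ} (h : IsTest B φ) : Plain.IsTest φ := ⟨h.smooth, h.comp, h.supp⟩

theorem brg_int_eq {F : Type*} [NormedAddCommGroup F] [NormedSpace ℝ F] {f : E4 → F}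
    (h : ∀ᵐ p ∂(volume : Measure E4), p ∉ B → f p = 0) :
    ∫ p, f p ∂mu = ∫ p, f p :=
  setIntegral_eq_integral_of_ae_compl_eq_zero h

/-- integrals over the ball = integrals over `ℝ⁴` for functions of `H B` -/
theorem int_B {x : D} (hx : x ∈ H B) (f : ℝ → ℝ) (h0 : f 0 = 0) :
    ∫ p, f (fn x p) ∂mu = ∫ p, f (fn x p) := by
  apply brg_int_eq
  filter_upwards [fn_outside eig_measurableSet_B hx] with p hp hpB
  rw [hp hpB, h0]

theorem int_B2 {x : D} (hx : x ∈ H B) (y : D) (f : ℝ → ℝ → ℝ) (h0 : ∀ s, f 0 s = 0) :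
    ∫ p, f (fn x p) (fn y p) ∂mu = ∫ p, f (fn x p) (fn y p) := by
  apply brg_int_eq
  filter_upwards [fn_outside eig_measurableSet_B hx] with p hp hpB
  rw [hp hpB, h0]

theorem int_B3 {x : D} (hx : x ∈ H B) (y z : D) (f : ℝ → ℝ → ℝ → ℝ) (h0 : ∀ s t, f 0 s t = 0) :
    ∫ p, f (fn x p) (fn y p) (fn z p) ∂mu = ∫ p, f (fn x p) (fn y p) (fn z p) := by
  apply brg_int_eq
  filter_upwards [fn_outside eig_measurableSet_B hx] with p hp hpB
  rw [hp hpB, h0]

theorem int_gr {x : D} (hx : x ∈ H B) (y : D) :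
    ∫ p, inner ℝ (gr x p) (gr y p) ∂mu = inner ℝ x y := by
  rw [inner_eq]
  apply brg_int_eq
  filter_upwards [gr_outside eig_measurableSet_B hx] with p hp hpB
  rw [hp hpB, inner_zero_left]

theorem int_norm_gr {x : D} (hx : x ∈ H B) : ∫ p, ‖gr x p‖ ^ 2 ∂mu = ‖x‖ ^ 2 := by
  rw [norm_sq]
  apply brg_int_eq
  filter_upwards [gr_outside eig_measurableSet_B hx] with p hp hpB
  rw [hp hpB, norm_zero]
  norm_num

theorem int_m2 {x : D} (hx : x ∈ H B) : ∫ p, fn x p ^ 2 ∂mu = m2 x :=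
  int_B hx (fun s => s ^ 2) (by norm_num)

theorem ae_mu {p : E4 → Prop} (h : ∀ᵐ x ∂(volume : Measure E4), p x) : ∀ᵐ x ∂mu, p x :=
  ae_restrict_of_ae h

theorem brg_fn_sub (x y : D) : fn (x - y) =ᵐ[volume] fun p => fn x p - fn y p := by
  rw [map_sub]
  filter_upwards [Lp.coeFn_sub (fn x) (fn y)] with p hp
  rw [hp, Pi.sub_apply]

theorem brg_gr_sub (x y : D) : gr (x - y) =ᵐ[volume] fun p => gr x p - gr y p := by
  have h : gr (x - y) = gr x - gr y := rfl
  rw [h]
  filter_upwards [Lp.coeFn_sub (gr x) (gr y)] with p hp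
  rw [hp, Pi.sub_apply]

/-- elements of `H B` give elements of `H_0^1` -/
theorem toH01 {x : D} (hx : x ∈ H B) : ∃ U : H01, U.u = fn x ∧ U.g = gr x := by
  obtain ⟨φ, h, hlim⟩ := mem_H_iff_seq.mp hx
  refine ⟨⟨fn x, gr x, (eig_memLp_two_B hx).restrict _, (memLp_gr x).restrict _, φ,
    fun n => brg_isTest' (h n), ?_, ?_⟩, rfl, rfl⟩
  · have h0 : Tendsto (fun n => fn (toD (h n) - x)) atTop (𝓝 (fn 0)) := by
      refine (fn.continuous.tendsto 0).comp ?_
      rw [← sub_self x]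
      exact hlim.sub_const x
    have h1 : Tendsto (fun n => Real.sqrt (volume B).toReal * ‖fn (toD (h n) - x)‖ ^ 2) atTop (𝓝 0) := by
      have h2 := (h0.norm.pow 2).const_mul (Real.sqrt (volume B).toReal)
      simpa using h2
    refine squeeze_zero (fun n => integral_nonneg fun p => sq_nonneg _) (fun n => ?_) h1
    have hm : toD (h n) - x ∈ H B := (H B).sub_mem (toD_mem (h n)) hx
    refine le_trans (le_of_eq ?_) (m2_le hm)
    rw [← int_m2 hm]
    apply integral_congr_ae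
    filter_upwards [ae_mu (brg_fn_sub (toD (h n)) x), ae_mu (fn_toD_ae (h n))] with p hp hp2
    rw [hp, hp2]
  · have h1 : Tendsto (fun n => ‖toD (h n) - x‖ ^ 2) atTop (𝓝 0) := by
      have h0 : Tendsto (fun n => toD (h n) - x) atTop (𝓝 0) := by
        rw [← sub_self x]
        exact hlim.sub_const x
      simpa using h0.norm.pow 2
    refine h1.congr fun n => ?_
    have hm : toD (h n) - x ∈ H B := (H B).sub_mem (toD_mem (h n)) hx
    rw [← int_norm_gr hm]
    apply integral_congr_ae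
    filter_upwards [ae_mu (brg_gr_sub (toD (h n)) x), ae_mu (gr_toD_ae (h n))] with p hp hp2
    rw [hp, hp2]

theorem brg_gradient_outside {φ : E4 → ℝ} (h : IsTest B φ) {p : E4} (hp : p ∉ B) :
    gradient φ p = 0 := by
  have : fderiv ℝ φ p = 0 := by
    by_contra hne
    exact hp (h.supp (tsupport_fderiv_subset ℝ (subset_tsupport _ hne)))
  rw [gradient, this, map_zero]

/-- elements of `H_0^1` come from elements of `H B` -/
theorem ofH01 (U : H01) : ∃ x ∈ H B, fn x =ᵐ[mu] U.u ∧ gr x =ᵐ[mu] U.g := by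
  obtain ⟨φ, hφ, hu, hg⟩ := U.approx
  have h : ∀ n, IsTest B (φ n) := fun n => brg_isTest (hφ n)
  have mG : MemLp (B.indicator U.g) 2 (volume : Measure E4) :=
    (memLp_indicator_iff_restrict eig_measurableSet_B).mpr U.memg
  set G : LV := mG.toLp _ with hGdef
  have hGae : G =ᵐ[volume] B.indicator U.g := mG.coeFn_toLp
  have key : ∀ n, ‖gradLp (h n) - G‖ ^ 2 = ∫ p, ‖gradient (φ n) p - U.g p‖ ^ 2 ∂mu := by
    intro n
    rw [← real_inner_self_eq_norm_sq, L2.inner_def]
    have e1 : ∫ p, inner ℝ ((gradLp (h n) - G : LV) p) ((gradLp (h n) - G : LV) p) =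
        ∫ p, ‖gradient (φ n) p - B.indicator U.g p‖ ^ 2 := by
      apply integral_congr_ae
      have hh : gradLp (h n) =ᵐ[volume] gradient (φ n) := (h n).memGrad.coeFn_toLp
      filter_upwards [Lp.coeFn_sub (gradLp (h n)) G, hGae, hh] with p hp hp1 hp2
      rw [hp, Pi.sub_apply, hp1, hp2, real_inner_self_eq_norm_sq]
    rw [e1, ← brg_int_eq (f := fun p => ‖gradient (φ n) p - B.indicator U.g p‖ ^ 2)]
    · apply setIntegral_congr_fun eig_measurableSet_B
      intro p hp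
      simp only [indicator_of_mem hp]
    · refine Eventually.of_forall fun p hp => ?_
      rw [indicator_of_notMem hp, brg_gradient_outside (h n) hp]
      simp
  have lim1 : Tendsto (fun n => gradLp (h n)) atTop (𝓝 G) := by
    rw [tendsto_iff_norm_sub_tendsto_zero]
    have h2 : Tendsto (fun n => ‖gradLp (h n) - G‖ ^ 2) atTop (𝓝 0) :=
      hg.congr fun n => (key n).symm
    have h3 := h2.sqrt
    rw [Real.sqrt_zero] at h3
    exact h3.congr fun n => Real.sqrt_sq (norm_nonneg _)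
  have hGmem : G ∈ DD := by
    have hc : IsClosed (DD : Set LV) := Submodule.isClosed_topologicalClosure _
    exact hc.mem_of_tendsto lim1 (Eventually.of_forall fun n => (toD (h n)).2)
  set x : D := ⟨G, hGmem⟩ with hx
  have lim2 : Tendsto (fun n => toD (h n)) atTop (𝓝 x) := by
    rw [tendsto_subtype_rng]
    exact lim1
  have hxH : x ∈ H B := mem_H_iff_seq.mpr ⟨φ, h, lim2⟩
  refine ⟨x, hxH, ?_, ?_⟩
  · -- functions
    have hsub : ∀ n, MemLp (φ n) 2 mu := fun n =>
      (((h n).smooth.continuous).memLp_of_hasCompactSupport (h n).comp).restrict _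
    have lim3 : Tendsto (fun n => (hsub n).toLp (φ n)) atTop (𝓝 (U.memu.toLp U.u)) := by
      rw [tendsto_iff_norm_sub_tendsto_zero]
      have h2 : Tendsto (fun n => ‖(hsub n).toLp (φ n) - U.memu.toLp U.u‖ ^ 2) atTop (𝓝 0) := by
        refine hu.congr fun n => ?_
        rw [← real_inner_self_eq_norm_sq, L2.inner_def]
        apply integral_congr_ae
        filter_upwards [Lp.coeFn_sub ((hsub n).toLp (φ n)) (U.memu.toLp U.u),
          (hsub n).coeFn_toLp, U.memu.coeFn_toLp] with p hp hp1 hp2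
        rw [hp, Pi.sub_apply, hp1, hp2, real_inner_self_eq_norm_sq, Real.norm_eq_abs, sq_abs]
      have h3 := h2.sqrt
      rw [Real.sqrt_zero] at h3
      exact h3.congr fun n => Real.sqrt_sq (norm_nonneg _)
    obtain ⟨ψ, hψ, h1⟩ := (tendstoInMeasure_of_tendsto_Lp lim3).exists_seq_tendsto_ae
    obtain ⟨ψ', hψ', h2⟩ := exists_ae_subseq_Lp (((fn.continuous.tendsto x).comp lim2).comp hψ.tendsto_atTop)
    filter_upwards [h1, ae_mu h2, ae_all_iff.mpr fun n => (hsub n).coeFn_toLp,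
      U.memu.coeFn_toLp, ae_mu (ae_all_iff.mpr fun n => fn_toD_ae (h n))] with p hp hp2 hp3 hp4 hp5
    have t1 := hp.comp hψ'.tendsto_atTop
    rw [hp4] at t1
    refine tendsto_nhds_unique hp2 (t1.congr fun n => ?_)
    simp only [Function.comp_apply]
    rw [hp3, hp5]
  · filter_upwards [ae_mu hGae, ae_restrict_mem eig_measurableSet_B] with p hp hpB
    show G p = U.g p
    rw [hp, indicator_of_mem hpB]

theorem brg_m2_congr {U : H01} {x : D} (hx : x ∈ H B) (h : fn x =ᵐ[mu] U.u) :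
    ∫ p, U.u p ^ 2 ∂mu = m2 x := by
  rw [← int_m2 hx]
  apply integral_congr_ae
  filter_upwards [h] with p hp
  rw [hp]

theorem brg_gr_congr {U : H01} {x : D} (hx : x ∈ H B) (h : gr x =ᵐ[mu] U.g) :
    ∫ p, ‖U.g p‖ ^ 2 ∂mu = ‖x‖ ^ 2 := by
  rw [← int_norm_gr hx]
  apply integral_congr_ae
  filter_upwards [h] with p hp
  rw [hp]

theorem Lam_eq : Plain.firstEigenvalue = Lam := by
  unfold Plain.firstEigenvalue Lam
  congr 1
  ext s
  constructor
  · rintro ⟨U, h1, rfl⟩
    obtain ⟨x, hx, h2, h3⟩ := ofH01 U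
    exact ⟨x, hx, by rw [← brg_m2_congr hx h2, h1], brg_gr_congr hx h3⟩
  · rintro ⟨x, hx, h1, rfl⟩
    obtain ⟨U, h2, h3⟩ := toH01 hx
    exact ⟨U, by rw [h2, int_m2 hx, h1], by rw [h3, int_norm_gr hx]⟩

end Pool.Agent.H57.BN
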