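import Pool.Agent.H57.BN.MemC1

set_option autoImplicit false

open MeasureTheory Filter Topology Metric Set
open scoped ENNReal NNReal ContDiff

namespace Pool.Agent.H57.BN

theorem gradient_comp_C1 {F : ℝ → ℝ} (hF : ContDiff ℝ 1 F) {φ : E4 → ℝ} (hφ : Differentiable ℝ φ)
    (p : E4) : gradient (fun p => F (φ p)) p = deriv F (φ p) • gradient φ p := by
  have h1 : HasDerivAt F (deriv F (φ p)) (φ p) :=
    (hF.differentiable (by norm_num) _).hasDerivAt
  have h2 := h1.comp_hasFDerivAt p (hφ p).hasFDerivAt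
  rw [gradient, gradient]
  have h3 : fderiv ℝ (fun p => F (φ p)) p = deriv F (φ p) • fderiv ℝ φ p := h2.fderiv
  rw [h3, map_smulₛₗ]
  simp

theorem comp_aux {F : ℝ → ℝ} (hF : ContDiff ℝ 1 F) (h0 : F 0 = 0) {L : ℝ}
    (hL : ∀ t, |deriv F t| ≤ L) {Ω : Set E4} (hΩ : IsOpen Ω) {x : D} (hx : x ∈ H Ω) :
    ∃ y ∈ H Ω, (fn y =ᵐ[volume] fun p => F (fn x p)) ∧
    (gr y =ᵐ[volume] fun p => deriv F (fn x p) • gr x p) := by
  have hL0 : 0 ≤ L := (abs_nonneg _).trans (hL 0)
  have hdF : Continuous (deriv F) := hF.continuous_deriv (by norm_num)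
  obtain ⟨φ, hφ, hlim, hae, hgae⟩ := exists_test_ae hx
  have hex : ∀ n, ∃ y ∈ H Ω, fn y =ᵐ[volume] (fun p => F (φ n p)) ∧
      gr y =ᵐ[volume] gradient (fun p => F (φ n p)) := by
    intro n
    have hsub : Function.support (fun p => F (φ n p)) ⊆ Function.support (φ n) := by
      intro p hp h
      exact hp (by show F (φ n p) = 0; rw [h, h0])
    apply mem_of_C1 hΩ (hF.comp ((hφ n).smooth.of_le (by norm_cast)))
    · exact (hφ n).comp.comp_left h0
    · exact (closure_mono hsub).trans (hφ n).supp
  choose y hy hy1 hy2 using hex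
  have hgr : ∀ n, gr (y n) =ᵐ[volume] fun p => deriv F (φ n p) • gradient (φ n) p := by
    intro n
    filter_upwards [hy2 n] with p hp
    rw [hp, gradient_comp_C1 hF (hφ n).differentiable]
  have hmeas : AEStronglyMeasurable (fun p => deriv F (fn x p) • gr x p) (volume : Measure E4) :=
    (hdF.comp_aestronglyMeasurable (Lp.aestronglyMeasurable (fn x))).smul
      (Lp.aestronglyMeasurable (gr x))
  have hg : MemLp (fun p => deriv F (fn x p) • gr x p) 2 (volume : Measure E4) := by
    refine ((memLp_gr x).const_smul L).of_le hmeas (Eventually.of_forall fun p => ?_)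
    show ‖deriv F (fn x p) • gr x p‖ ≤ ‖L • gr x p‖
    rw [norm_smul, norm_smul]
    gcongr
    rw [Real.norm_eq_abs, Real.norm_eq_abs]
    exact (hL _).trans (le_abs_self L)
  -- first error term
  have e1 : Tendsto (fun n => eLpNorm (fun p => gradient (φ n) p - gr x p) 2 volume) atTop (𝓝 0) := by
    have h1 : Tendsto (fun n => gr (toD (hφ n))) atTop (𝓝 (gr x)) :=
      (continuous_subtype_val.tendsto x).comp hlim
    have h2 := (Lp.tendsto_Lp_iff_tendsto_eLpNorm' _ _).mp h1
    refine h2.congr fun n => eLpNorm_congr_ae ?_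
    filter_upwards [gr_toD_ae (hφ n)] with p hp
    simp [hp]
  have e1' : Tendsto (fun n => eLpNorm (fun p => deriv F (φ n p) • (gradient (φ n) p - gr x p)) 2
      volume) atTop (𝓝 0) := by
    have h3 : Tendsto (fun n => ENNReal.ofReal L * eLpNorm (fun p => gradient (φ n) p - gr x p) 2
        volume) atTop (𝓝 0) := by
      have := ENNReal.Tendsto.const_mul (a := ENNReal.ofReal L) e1 (Or.inr ENNReal.ofReal_ne_top)
      simpa using this
    refine tendsto_of_tendsto_of_tendsto_of_le_of_le tendsto_const_nhds h3 (fun n => zero_le) ?_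
    intro n
    apply eLpNorm_le_mul_eLpNorm_of_ae_le_mul
    refine Eventually.of_forall fun p => ?_
    rw [norm_smul]
    gcongr
    exact hL _
  -- second error term
  have e2 : Tendsto (fun n => eLpNorm (fun p => deriv F (φ n p) • gr x p -
      deriv F (fn x p) • gr x p) 2 volume) atTop (𝓝 0) := by
    refine (tendsto_eLpNorm_of_dom (r := 2) (by norm_num) (by norm_num)
      (G := fun n p => deriv F (φ n p) • gr x p) (b := fun p => L * ‖gr x p‖) ?_ hmeas
      ((memLp_gr x).norm.const_mul L) ?_ ?_).2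
    · intro n
      exact (hdF.comp_aestronglyMeasurable (hφ n).smooth.continuous.aestronglyMeasurable).smul
        (Lp.aestronglyMeasurable (gr x))
    · intro n
      refine Eventually.of_forall fun p => ?_
      rw [norm_smul]
      gcongr
      exact hL _
    · filter_upwards [hae] with p hp
      exact ((hdF.tendsto _).comp hp).smul_const _
  have hfin : Tendsto (fun n => eLpNorm (fun p => gr (y n) p - deriv F (fn x p) • gr x p) 2 volume)
      atTop (𝓝 0) := by
    have h3 := e1'.add e2
    rw [add_zero] at h3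
    refine tendsto_of_tendsto_of_tendsto_of_le_of_le tendsto_const_nhds h3 (fun n => zero_le) ?_
    intro n
    have h4 : eLpNorm (fun p => gr (y n) p - deriv F (fn x p) • gr x p) 2 volume =
        eLpNorm ((fun p => deriv F (φ n p) • (gradient (φ n) p - gr x p)) +
          (fun p => deriv F (φ n p) • gr x p - deriv F (fn x p) • gr x p)) 2 volume := by
      apply eLpNorm_congr_ae
      filter_upwards [hgr n] with p hp
      rw [Pi.add_apply, hp, smul_sub]
      abel
    beta_reduce
    rw [h4]
    have m1 : AEStronglyMeasurable (fun p => deriv F (φ n p)) (volume : Measure E4) :=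
      hdF.comp_aestronglyMeasurable (hφ n).smooth.continuous.aestronglyMeasurable
    have m2 : AEStronglyMeasurable (gradient (φ n)) (volume : Measure E4) :=
      (continuous_gradient ((hφ n).smooth.of_le (by norm_cast))).aestronglyMeasurable
    exact eLpNorm_add_le (m1.smul (m2.sub (Lp.aestronglyMeasurable (gr x))))
      ((m1.smul (Lp.aestronglyMeasurable (gr x))).sub hmeas) (by norm_num)
  obtain ⟨z, hz, hz1, hz2, -⟩ := exists_of_tendsto_H hy hg hfin (f := fun p => F (fn x p)) (by
    filter_upwards [hae, ae_all_iff.mpr hy1] with p hp hp2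
    refine ((hF.continuous.tendsto _).comp hp).congr fun n => ?_
    exact (hp2 n).symm)
  exact ⟨z, hz, hz1, hz2⟩

/-- Chain rule for `C¹` functions `F` with bounded derivative and `F 0 = 0`.
(Approximate `x` by test functions `φ_n`, a.e. convergent subsequence; `F ∘ φ_n` is `C¹` with compact
support; `F'(φ_n)∇φ_n → F'(u)∇u` in `L²` by dominated convergence.) -/
theorem exists_comp {F : ℝ → ℝ} (hF : ContDiff ℝ 1 F) (h0 : F 0 = 0) {L : ℝ}
    (hL : ∀ t, |deriv F t| ≤ L) (x : D) : ∃ y : D,
    (fn y =ᵐ[volume] fun p => F (fn x p)) ∧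
    (gr y =ᵐ[volume] fun p => deriv F (fn x p) • gr x p) ∧
    (∀ Ω : Set E4, IsOpen Ω → x ∈ H Ω → y ∈ H Ω) := by
  obtain ⟨y, -, h1, h2⟩ := comp_aux hF h0 hL isOpen_univ (mem_H_univ x)
  refine ⟨y, h1, h2, ?_⟩
  intro Ω hΩ hx
  obtain ⟨y', hy', h1', -⟩ := comp_aux hF h0 hL hΩ hx
  have : y = y' := D_ext (h1.trans h1'.symm)
  rw [this]
  exact hy'

end Pool.Agent.H57.BN
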