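import Pool.Agent.H57.BN.Base
import Pool.Agent.H57.BN.Approx

set_option autoImplicit false

open MeasureTheory Filter Topology Metric Set
open scoped ENNReal NNReal ContDiff

namespace Pool.Agent.H57.BN

instance holderTriple_442 : ENNReal.HolderTriple 4 4 2 := by
  refine ⟨?_⟩
  have h : (4:ℝ≥0∞) = 2 * 2 := by norm_num
  rw [h, ENNReal.mul_inv (by norm_num) (by norm_num), ← mul_add, ENNReal.inv_two_add_inv_two,
    mul_one]

theorem cut_gradient_mul {χ φ : E4 → ℝ} (hχ : Differentiable ℝ χ) (hφ : Differentiable ℝ φ)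
    (p : E4) : gradient (fun p => χ p * φ p) p = χ p • gradient φ p + φ p • gradient χ p := by
  rw [gradient, gradient, gradient, fderiv_fun_mul hχ.differentiableAt hφ.differentiableAt]
  simp [map_add]

theorem cut_grad_bd {χ : E4 → ℝ} (hχ : ContDiff ℝ ∞ χ) (hc : HasCompactSupport χ) :
    Continuous (gradient χ) ∧ HasCompactSupport (gradient χ) :=
  ⟨continuous_gradient (hχ.of_le (by norm_cast)), hasCompactSupport_gradient hc⟩

theorem cut_bd {χ : E4 → ℝ} (hχ : ContDiff ℝ ∞ χ) (hc : HasCompactSupport χ) :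
    ∃ M : ℝ, 0 ≤ M ∧ ∀ p, |χ p| ≤ M := by
  obtain ⟨M, hM⟩ := hc.exists_bound_of_continuous hχ.continuous
  exact ⟨M, (norm_nonneg _).trans (hM 0), fun p => by simpa using hM p⟩

theorem cut_memLp {χ : E4 → ℝ} (hχ : ContDiff ℝ ∞ χ) (hc : HasCompactSupport χ) (x : D) :
    MemLp (fun p => χ p • gr x p + fn x p • gradient χ p) 2 (volume : Measure E4) := by
  obtain ⟨M, hM0, hM⟩ := cut_bd hχ hc
  obtain ⟨g1, g2⟩ := cut_grad_bd hχ hc
  refine MemLp.add ?_ ?_
  · refine (memLp_gr x).of_le_mul (c := M)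
      (hχ.continuous.aestronglyMeasurable.smul (memLp_gr x).1) (Eventually.of_forall fun p => ?_)
    rw [norm_smul, Real.norm_eq_abs]
    have := hM p
    gcongr
  · have h4 : MemLp (gradient χ) 4 (volume : Measure E4) := g1.memLp_of_hasCompactSupport g2
    exact h4.smul (r := 2) (memLp_fn x)

theorem cut_aux {χ : E4 → ℝ} (hχ : ContDiff ℝ ∞ χ) (hc : HasCompactSupport χ) {Ω : Set E4} {x : D}
    (hx : x ∈ H Ω) :
    ∃ y : D, (fn y =ᵐ[volume] fun p => χ p * fn x p) ∧
      (gr y =ᵐ[volume] fun p => χ p • gr x p + fn x p • gradient χ p) ∧ y ∈ H Ω ∧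
      (∀ U : Set E4, tsupport χ ⊆ U → y ∈ H U) := by
  obtain ⟨φ, hφ, hlim, h1, -⟩ := exists_test_ae hx
  obtain ⟨M, hM0, hM⟩ := cut_bd hχ hc
  obtain ⟨g1, g2⟩ := cut_grad_bd hχ hc
  have hdχ : Differentiable ℝ χ := hχ.differentiable (by norm_num)
  have hdφ : ∀ n, Differentiable ℝ (φ n) := fun n => (hφ n).smooth.differentiable (by norm_num)
  have ht : ∀ n, IsTest Ω (fun p => χ p * φ n p) := fun n =>
    ⟨hχ.mul (hφ n).smooth, (hφ n).comp.mul_left,
      (tsupport_mul_subset_right (f := χ) (g := φ n)).trans (hφ n).supp⟩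
  have h4 : MemLp (gradient χ) 4 (volume : Measure E4) := g1.memLp_of_hasCompactSupport g2
  -- convergence of gradients
  have hgr : Tendsto (fun n => eLpNorm (fun p => gradient (φ n) p - gr x p) 2 volume) atTop
      (𝓝 0) := by
    have h5 : Tendsto (fun n => gr (toD (hφ n))) atTop (𝓝 (gr x)) :=
      (continuous_subtype_val.tendsto x).comp hlim
    rw [Lp.tendsto_Lp_iff_tendsto_eLpNorm'] at h5
    refine h5.congr (fun n => eLpNorm_congr_ae ?_)
    filter_upwards [gr_toD_ae (hφ n)] with p hp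
    rw [Pi.sub_apply, hp]
  have hfn : Tendsto (fun n => eLpNorm (fun p => φ n p - fn x p) 4 volume) atTop (𝓝 0) := by
    have h5 : Tendsto (fun n => fn (toD (hφ n))) atTop (𝓝 (fn x)) :=
      (fn.continuous.tendsto x).comp hlim
    rw [Lp.tendsto_Lp_iff_tendsto_eLpNorm'] at h5
    refine h5.congr (fun n => eLpNorm_congr_ae ?_)
    filter_upwards [fn_toD_ae (hφ n)] with p hp
    rw [Pi.sub_apply, hp]
  have hconv : Tendsto (fun n => eLpNorm (fun p => gradient (fun p => χ p * φ n p) p -
      (χ p • gr x p + fn x p • gradient χ p)) 2 volume) atTop (𝓝 0) := by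
    have hb : ∀ n, eLpNorm (fun p => gradient (fun p => χ p * φ n p) p -
      (χ p • gr x p + fn x p • gradient χ p)) 2 volume ≤
        ENNReal.ofReal M * eLpNorm (fun p => gradient (φ n) p - gr x p) 2 volume +
        eLpNorm (fun p => φ n p - fn x p) 4 volume * eLpNorm (gradient χ) 4 volume := by
      intro n
      have m1 : AEStronglyMeasurable (fun p => gradient (φ n) p - gr x p)
          (volume : Measure E4) :=
        ((continuous_gradient ((hφ n).smooth.of_le (by norm_cast))).aestronglyMeasurable).sub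
          (memLp_gr x).1
      have m2 : AEStronglyMeasurable (fun p => φ n p - fn x p) (volume : Measure E4) :=
        ((hφ n).smooth.continuous.aestronglyMeasurable).sub (memLp_fn x).1
      have e1 : (fun p => gradient (fun p => χ p * φ n p) p -
          (χ p • gr x p + fn x p • gradient χ p)) =
          (fun p => χ p • (gradient (φ n) p - gr x p)) +
          (fun p => φ n p - fn x p) • gradient χ := by
        ext1 p
        rw [cut_gradient_mul hdχ (hdφ n) p, Pi.add_apply, Pi.smul_apply', smul_sub, sub_smul]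
        abel
      rw [e1]
      refine (eLpNorm_add_le (hχ.continuous.aestronglyMeasurable.smul m1)
        (m2.smul g1.aestronglyMeasurable) (by norm_num)).trans ?_
      refine add_le_add ?_ ?_
      · refine (eLpNorm_le_mul_eLpNorm_of_ae_le_mul (c := M)
          (Eventually.of_forall fun p => ?_) 2)
        rw [Pi.smul_apply', norm_smul, Real.norm_eq_abs]
        have := hM p
        gcongr
      · exact eLpNorm_smul_le_mul_eLpNorm g1.aestronglyMeasurable m2
    have hz : Tendsto (fun n => ENNReal.ofReal M *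
        eLpNorm (fun p => gradient (φ n) p - gr x p) 2 volume +
        eLpNorm (fun p => φ n p - fn x p) 4 volume * eLpNorm (gradient χ) 4 volume) atTop
        (𝓝 0) := by
      have a1 := ENNReal.Tendsto.const_mul (a := ENNReal.ofReal M) hgr
        (Or.inr ENNReal.ofReal_ne_top)
      have a2 := ENNReal.Tendsto.mul_const (b := eLpNorm (gradient χ) 4 volume) hfn
        (Or.inr h4.eLpNorm_ne_top)
      have a3 := a1.add a2
      simpa using a3
    exact tendsto_of_tendsto_of_tendsto_of_le_of_le tendsto_const_nhds hz (fun n => zero_le) hb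
  obtain ⟨y, hy, hy1, hy2, hy3⟩ := exists_of_test ht (f := fun p => χ p * fn x p)
    (cut_memLp hχ hc x) hconv (by
      filter_upwards [h1] with p hp
      exact hp.const_mul _)
  refine ⟨y, hy1, hy2, hy, fun U hU => ?_⟩
  have ht' : ∀ n, IsTest U (fun p => χ p * φ n p) := fun n =>
    ⟨hχ.mul (hφ n).smooth, (hφ n).comp.mul_left,
      (tsupport_mul_subset_left (f := χ) (g := φ n)).trans hU⟩
  exact mem_H_iff_seq.2 ⟨_, ht', hy3⟩

/-- Leibniz rule for multiplication by a smooth function with compact support. -/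
theorem exists_cut {χ : E4 → ℝ} (hχ : ContDiff ℝ ∞ χ) (hc : HasCompactSupport χ) (x : D) :
    ∃ y : D, (fn y =ᵐ[volume] fun p => χ p * fn x p) ∧
      (gr y =ᵐ[volume] fun p => χ p • gr x p + fn x p • gradient χ p) ∧
      (∀ Ω : Set E4, x ∈ H Ω → y ∈ H Ω) ∧
      (∀ U : Set E4, tsupport χ ⊆ U → y ∈ H U) := by
  obtain ⟨y, h1, h2, -, h3⟩ := cut_aux hχ hc (mem_H_univ x)
  refine ⟨y, h1, h2, fun Ω hx => ?_, h3⟩
  obtain ⟨y', h1', -, h3', -⟩ := cut_aux hχ hc hx
  have : y = y' := D_ext (h1.trans h1'.symm)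
  rw [this]
  exact h3'

end Pool.Agent.H57.BN
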