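import Pool.Agent.H57.BN.Fn

set_option autoImplicit false

open MeasureTheory Filter Topology Metric Set
open scoped ENNReal NNReal ContDiff

namespace Pool.Agent.H57.BN

/-- Smooth cutoffs at all scales: scale `ContDiffBump`. -/
theorem exists_cutoff : ∃ C : ℝ, 0 < C ∧ ∀ (z : E4) (r : ℝ), 0 < r → ∃ χ : E4 → ℝ,
    ContDiff ℝ ∞ χ ∧ HasCompactSupport χ ∧ tsupport χ ⊆ ball z (2 * r) ∧
    (∀ p, 0 ≤ χ p ∧ χ p ≤ 1) ∧ (∀ p ∈ ball z r, χ p = 1) ∧ (∀ p, p ∉ ball z (2 * r) → χ p = 0) ∧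
    (∀ p, ‖gradient χ p‖ ≤ C / r) ∧ (∀ p, p ∉ ball z (2 * r) → gradient χ p = 0) ∧
    (∀ p ∈ ball z r, gradient χ p = 0) := by
  let η : ContDiffBump (0 : E4) := ⟨1, 3 / 2, by norm_num, by norm_num⟩
  have hηs : ContDiff ℝ ∞ (η : E4 → ℝ) := η.contDiff
  have hηc : HasCompactSupport (η : E4 → ℝ) := η.hasCompactSupport
  have hc1 : Continuous (fderiv ℝ (η : E4 → ℝ)) :=
    (hηs.of_le (by norm_cast)).continuous_fderiv (n := 1) (by norm_num)
  have hc2 : HasCompactSupport (fderiv ℝ (η : E4 → ℝ)) := hηc.fderiv ℝ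
  obtain ⟨C0, hC0⟩ := hc2.exists_bound_of_continuous hc1
  have hC00 : 0 ≤ C0 := (norm_nonneg _).trans (hC0 0)
  refine ⟨C0 + 1, by positivity, ?_⟩
  intro z r hr
  let T : E4 → E4 := fun p => r⁻¹ • (p - z)
  have hT : ContDiff ℝ ∞ T := (contDiff_id.sub contDiff_const).const_smul _
  have hnorm : ∀ p, ‖T p‖ = r⁻¹ * ‖p - z‖ := by
    intro p
    simp only [T, norm_smul, norm_inv, Real.norm_eq_abs, abs_of_pos hr]
  have hsupp : Function.support (fun p => η (T p)) ⊆ closedBall z (3 / 2 * r) := by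
    intro p hp
    have h1 : T p ∈ Function.support (η : E4 → ℝ) := hp
    rw [η.support_eq, mem_ball, dist_zero_right, hnorm] at h1
    rw [mem_closedBall, dist_eq_norm]
    have h2 : r⁻¹ * ‖p - z‖ < 3 / 2 := h1
    rw [inv_mul_lt_iff₀ hr] at h2
    linarith
  have hts : tsupport (fun p => η (T p)) ⊆ closedBall z (3 / 2 * r) :=
    closure_minimal hsupp isClosed_closedBall
  have hsub : closedBall z (3 / 2 * r) ⊆ ball z (2 * r) := closedBall_subset_ball (by linarith)
  have hcs : HasCompactSupport (fun p => η (T p)) :=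
    HasCompactSupport.of_support_subset_isCompact (isCompact_closedBall _ _) hsupp
  have hfd : ∀ p, fderiv ℝ (fun p => η (T p)) p =
      (fderiv ℝ (η : E4 → ℝ) (T p)).comp (r⁻¹ • ContinuousLinearMap.id ℝ E4) := by
    intro p
    have h1 : HasFDerivAt T (r⁻¹ • ContinuousLinearMap.id ℝ E4) p :=
      ((hasFDerivAt_id p).sub_const z).const_smul r⁻¹
    have h2 : HasFDerivAt (η : E4 → ℝ) (fderiv ℝ (η : E4 → ℝ) (T p)) (T p) :=
      (hηs.differentiable (by norm_cast) _).hasFDerivAt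
    exact (h2.comp p h1).fderiv
  refine ⟨fun p => η (T p), hηs.comp hT, hcs, hts.trans hsub, ?_, ?_, ?_, ?_, ?_, ?_⟩
  · intro p
    exact ⟨η.nonneg, η.le_one⟩
  · intro p hp
    apply η.one_of_mem_closedBall
    rw [mem_closedBall, dist_zero_right, hnorm]
    rw [mem_ball, dist_eq_norm] at hp
    show r⁻¹ * ‖p - z‖ ≤ 1
    rw [inv_mul_le_iff₀ hr]
    linarith
  · intro p hp
    by_contra hne
    exact hp (hsub (hsupp hne))
  · intro p
    rw [gradient, LinearIsometryEquiv.norm_map, hfd]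
    calc ‖(fderiv ℝ (η : E4 → ℝ) (T p)).comp (r⁻¹ • ContinuousLinearMap.id ℝ E4)‖
        ≤ ‖fderiv ℝ (η : E4 → ℝ) (T p)‖ * ‖r⁻¹ • ContinuousLinearMap.id ℝ E4‖ :=
          ContinuousLinearMap.opNorm_comp_le _ _
      _ ≤ C0 * r⁻¹ := by
          apply mul_le_mul (hC0 _) _ (norm_nonneg _) hC00
          rw [norm_smul, norm_inv, Real.norm_eq_abs, abs_of_pos hr]
          have : ‖ContinuousLinearMap.id ℝ E4‖ ≤ 1 := ContinuousLinearMap.norm_id_le
          nlinarith [inv_pos.mpr hr]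
      _ ≤ (C0 + 1) / r := by
          rw [div_eq_mul_inv]
          nlinarith [inv_pos.mpr hr]
  · intro p hp
    have : fderiv ℝ (fun p => η (T p)) p = 0 := by
      by_contra hne
      exact hp (hsub (hts (tsupport_fderiv_subset ℝ (subset_tsupport _ hne))))
    rw [gradient, this, map_zero]
  · intro p hp
    have : fderiv ℝ (fun p => η (T p)) p = 0 := by
      have h1 : (fun p => η (T p)) =ᶠ[𝓝 p] fun _ => (1:ℝ) := by
        filter_upwards [isOpen_ball.mem_nhds hp] with y hy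
        apply η.one_of_mem_closedBall
        rw [mem_closedBall, dist_zero_right, hnorm]
        rw [mem_ball, dist_eq_norm] at hy
        show r⁻¹ * ‖y - z‖ ≤ 1
        rw [inv_mul_le_iff₀ hr]
        linarith
      rw [h1.fderiv_eq]
      simp
    rw [gradient, this, map_zero]

end Pool.Agent.H57.BN
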