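import Pool.Agent.H57.BN.Cut
import Pool.Agent.H57.BN.Cutoff

set_option autoImplicit false

open MeasureTheory Filter Topology Metric Set
open scoped ENNReal NNReal ContDiff

namespace Pool.Agent.H57.BN

theorem cutE_toLp_sq {F : E4 → E4} (hF : MemLp F 2 (volume : Measure E4)) :
    ‖hF.toLp F‖ ^ 2 = ∫ p, ‖F p‖ ^ 2 := by
  rw [← real_inner_self_eq_norm_sq, L2.inner_def]
  refine integral_congr_ae ?_
  filter_upwards [hF.coeFn_toLp] with p hp
  rw [hp]
  exact real_inner_self_eq_norm_sq _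

theorem cutE_toLp {F : E4 → E4} (hF : MemLp F 2 (volume : Measure E4)) :
    ‖hF.toLp F‖ = Real.sqrt (∫ p, ‖F p‖ ^ 2) := by
  rw [← cutE_toLp_sq hF, Real.sqrt_sq (norm_nonneg _)]

theorem cutE_norm {a : D} {b : D} {χ : E4 → ℝ} (hm : AEStronglyMeasurable χ (volume : Measure E4))
    (h01 : ∀ p, |χ p| ≤ 1) {G G' : E4 → E4}
    (hG : MemLp G 2 (volume : Measure E4)) (hG'm : AEStronglyMeasurable G' (volume : Measure E4))
    (hG' : ∀ᵐ p ∂(volume : Measure E4), ‖G' p‖ ≤ ‖G p‖)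
    (h : gr a =ᵐ[volume] fun p => χ p • gr b p + G' p) :
    ‖a‖ ≤ ‖b‖ + Real.sqrt (∫ p, ‖G p‖ ^ 2) := by
  have hF : MemLp (fun p => χ p • gr b p) 2 (volume : Measure E4) := by
    refine (memLp_gr b).of_le (hm.smul (memLp_gr b).1) (Eventually.of_forall fun p => ?_)
    rw [norm_smul, Real.norm_eq_abs]
    exact mul_le_of_le_one_left (norm_nonneg _) (h01 p)
  have hG2 : MemLp G' 2 (volume : Measure E4) := hG.of_le hG'm hG'
  have h1 : gr a = hF.toLp _ + hG2.toLp G' := by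
    refine Lp.ext ?_
    filter_upwards [h, hF.coeFn_toLp, hG2.coeFn_toLp, Lp.coeFn_add (hF.toLp _) (hG2.toLp G')] with
      p h1 h2 h3 h4
    rw [h1, h4, Pi.add_apply, h2, h3]
  have h2 : ‖a‖ = ‖gr a‖ := rfl
  have h3 : ‖hF.toLp _‖ ≤ ‖gr b‖ := by
    refine Lp.norm_le_norm_of_ae_le ?_
    filter_upwards [hF.coeFn_toLp] with p hp
    rw [hp, norm_smul, Real.norm_eq_abs]
    exact mul_le_of_le_one_left (norm_nonneg _) (h01 p)
  have h4 : ‖hG2.toLp G'‖ ≤ ‖hG.toLp G‖ := by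
    refine Lp.norm_le_norm_of_ae_le ?_
    filter_upwards [hG2.coeFn_toLp, hG.coeFn_toLp, hG'] with p hp hp' hp''
    rw [hp, hp']
    exact hp''
  rw [← cutE_toLp hG, h2, h1]
  exact (norm_add_le _ _).trans (add_le_add h3 h4)

/-- The localized energy identity: `y = χu`, `z = χ²u`:
`‖∇(χu)‖² = ⟪u, χ²u⟫ + ∫ |∇χ|² u²`, for cutoffs with `0 ≤ χ ≤ 1`. -/
theorem cut_energy {χ : E4 → ℝ} (hχ : ContDiff ℝ ∞ χ) (hc : HasCompactSupport χ)
    (h01 : ∀ p, 0 ≤ χ p ∧ χ p ≤ 1) (x : D) :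
    ∃ y z : D, (fn y =ᵐ[volume] fun p => χ p * fn x p) ∧
      (fn z =ᵐ[volume] fun p => χ p ^ 2 * fn x p) ∧
      ‖y‖ ^ 2 = inner ℝ x z + ∫ p, ‖gradient χ p‖ ^ 2 * fn x p ^ 2 ∧
      ‖y‖ ≤ ‖x‖ + Real.sqrt (∫ p, ‖gradient χ p‖ ^ 2 * fn x p ^ 2) ∧
      ‖z‖ ≤ ‖y‖ + Real.sqrt (∫ p, ‖gradient χ p‖ ^ 2 * fn x p ^ 2) ∧
      Integrable (fun p => ‖gradient χ p‖ ^ 2 * fn x p ^ 2) volume ∧
      (∀ Ω : Set E4, x ∈ H Ω → y ∈ H Ω ∧ z ∈ H Ω) ∧
      (∀ U : Set E4, tsupport χ ⊆ U → y ∈ H U ∧ z ∈ H U) := by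
  have hχ2 : ContDiff ℝ ∞ (fun p => χ p * χ p) := hχ.mul hχ
  have hc2 : HasCompactSupport (fun p => χ p * χ p) := hc.mul_left
  obtain ⟨y, y1, y2, y3, y4⟩ := exists_cut hχ hc x
  obtain ⟨z, z1, z2, z3, z4⟩ := exists_cut hχ2 hc2 x
  obtain ⟨g1, g2⟩ := cut_grad_bd hχ hc
  have hdχ : Differentiable ℝ χ := hχ.differentiable (by norm_num)
  have hG : MemLp (fun p => fn x p • gradient χ p) 2 (volume : Measure E4) := by
    have h4 : MemLp (gradient χ) 4 (volume : Measure E4) := g1.memLp_of_hasCompactSupport g2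
    exact h4.smul (r := 2) (memLp_fn x)
  have hGeq : ∀ p, ‖fn x p • gradient χ p‖ ^ 2 = ‖gradient χ p‖ ^ 2 * fn x p ^ 2 := by
    intro p
    rw [norm_smul, Real.norm_eq_abs, mul_pow, sq_abs, mul_comm]
  have hint : Integrable (fun p => ‖gradient χ p‖ ^ 2 * fn x p ^ 2) (volume : Measure E4) := by
    have h1 := (memLp_two_iff_integrable_sq_norm hG.1).1 hG
    simpa only [hGeq] using h1
  have habs : ∀ p, |χ p| ≤ 1 := fun p => abs_le.2 ⟨by linarith [(h01 p).1], (h01 p).2⟩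
  have z2' : gr z =ᵐ[volume] fun p => χ p • gr y p + χ p • (fn x p • gradient χ p) := by
    filter_upwards [z2, y2] with p hz hy
    rw [hz, hy, cut_gradient_mul hdχ hdχ p]
    module
  refine ⟨y, z, y1, ?_, ?_, ?_, ?_, hint, fun Ω hx => ⟨y3 Ω hx, z3 Ω hx⟩,
    fun U hU => ⟨y4 U hU, z4 U ?_⟩⟩
  · filter_upwards [z1] with p hp
    rw [hp]; ring
  · have i1 : Integrable (fun p => inner ℝ (gr x p) (gr z p)) (volume : Measure E4) :=
      L2.integrable_inner _ _
    rw [norm_sq, inner_eq, ← integral_add i1 hint]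
    refine integral_congr_ae ?_
    filter_upwards [y2, z2] with p hy hz
    rw [hy, hz, cut_gradient_mul hdχ hdχ p, ← real_inner_self_eq_norm_sq,
      ← real_inner_self_eq_norm_sq (gradient χ p)]
    have e1 : ∀ (a b : E4) (c d : ℝ), inner ℝ (c • a + d • b) (c • a + d • b) =
        inner ℝ a ((c * c) • a + d • (c • b + c • b)) + inner ℝ b b * d ^ 2 := by
      intro a b c d
      simp only [inner_add_left, inner_add_right, real_inner_smul_left, real_inner_smul_right,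
        smul_add]
      rw [real_inner_comm a b]
      ring
    exact e1 _ _ _ _
  · have h1 := cutE_norm (a := y) (b := x) (G' := fun p => fn x p • gradient χ p) hχ.continuous.aestronglyMeasurable habs hG hG.1
      (Eventually.of_forall fun p => le_refl ‖fn x p • gradient χ p‖) y2
    simpa only [hGeq] using h1
  · have h1 := cutE_norm (a := z) (b := y) (G' := fun p => χ p • (fn x p • gradient χ p)) hχ.continuous.aestronglyMeasurable habs hG
      (hχ.continuous.aestronglyMeasurable.smul hG.1)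
      (Eventually.of_forall fun p => by
        rw [norm_smul, Real.norm_eq_abs]
        exact mul_le_of_le_one_left (norm_nonneg _) (habs p)) z2'
    simpa only [hGeq] using h1
  · exact (tsupport_mul_subset_left (f := χ) (g := χ)).trans hU

end Pool.Agent.H57.BN
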