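import Mathlib

set_option autoImplicit false

/-!
# MP_3ae6da_an: basic objects

`E4 = ℝ⁴`, `IsTest Ω φ`: smooth functions with compact support in `Ω`;
`LV = L²(ℝ⁴;ℝ⁴)`, `L4 = L⁴(ℝ⁴)`;
`D` = closure in `LV` of the gradients of test functions (so `D = D^{1,2}(ℝ⁴)`, a Hilbert space with
norm `‖∇u‖₂`), `gr x : LV` the gradient of `x : D`;
`H Ω` = closure in `D` of the test functions with support in `Ω`.
-/

open MeasureTheory Filter Topology Metric Set
open scoped ENNReal NNReal ContDiff

namespace Pool.Agent.H57.BN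

abbrev E4 : Type := EuclideanSpace ℝ (Fin 4)

instance fact_one_le_four : Fact ((1:ℝ≥0∞) ≤ 4) := ⟨by norm_num⟩

abbrev LV : Type := Lp E4 2 (volume : Measure E4)
abbrev L4 : Type := Lp ℝ 4 (volume : Measure E4)

/-- smooth functions with compact support contained in `Ω` -/
structure IsTest (Ω : Set E4) (φ : E4 → ℝ) : Prop where
  smooth : ContDiff ℝ ∞ φ
  comp : HasCompactSupport φ
  supp : tsupport φ ⊆ Ω

theorem IsTest.mono {Ω Ω' : Set E4} {φ : E4 → ℝ} (h : IsTest Ω φ) (hΩ : Ω ⊆ Ω') : IsTest Ω' φ :=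
  ⟨h.smooth, h.comp, h.supp.trans hΩ⟩

theorem continuous_gradient {φ : E4 → ℝ} (h : ContDiff ℝ 1 φ) : Continuous (gradient φ) := by
  have h1 : Continuous (fderiv ℝ φ) := h.continuous_fderiv (by norm_num)
  exact (InnerProductSpace.toDual ℝ E4).symm.continuous.comp h1

theorem hasCompactSupport_gradient {φ : E4 → ℝ} (h : HasCompactSupport φ) :
    HasCompactSupport (gradient φ) := by
  have h1 : HasCompactSupport (fderiv ℝ φ) := h.fderiv ℝ
  exact h1.comp_left (g := (InnerProductSpace.toDual ℝ E4).symm) (by simp)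

theorem IsTest.memGrad {Ω : Set E4} {φ : E4 → ℝ} (h : IsTest Ω φ) :
    MemLp (gradient φ) 2 (volume : Measure E4) :=
  (continuous_gradient (h.smooth.of_le (by norm_cast))).memLp_of_hasCompactSupport
    (hasCompactSupport_gradient h.comp)

theorem IsTest.mem4 {Ω : Set E4} {φ : E4 → ℝ} (h : IsTest Ω φ) :
    MemLp φ 4 (volume : Measure E4) :=
  h.smooth.continuous.memLp_of_hasCompactSupport h.comp

/-- the gradient of a test function as an element of `L²(ℝ⁴;ℝ⁴)` -/
noncomputable def gradLp {Ω : Set E4} {φ : E4 → ℝ} (h : IsTest Ω φ) : LV :=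
  h.memGrad.toLp (gradient φ)

/-- the closed subspace `{∇u : u ∈ D^{1,2}(ℝ⁴)}` of `L²(ℝ⁴;ℝ⁴)` -/
noncomputable def DD : Submodule ℝ LV :=
  (Submodule.span ℝ {x : LV | ∃ φ : E4 → ℝ, ∃ h : IsTest univ φ, x = gradLp h}).topologicalClosure

/-- the Hilbert space `D^{1,2}(ℝ⁴)` (an element is identified with its gradient) -/
abbrev D : Type := ↥DD

noncomputable instance : CompleteSpace D :=
  (Submodule.isClosed_topologicalClosure _).completeSpace_coe

/-- the gradient of `x : D` -/
noncomputable abbrev gr (x : D) : LV := x.1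

/-- a test function as an element of `D` -/
noncomputable def toD {Ω : Set E4} {φ : E4 → ℝ} (h : IsTest Ω φ) : D :=
  ⟨gradLp h, Submodule.le_topologicalClosure _
    (Submodule.subset_span ⟨φ, h.mono (subset_univ _), rfl⟩)⟩

/-- `D₀^{1,2}(Ω)`: the closure of the test functions with support in `Ω` -/
noncomputable def H (Ω : Set E4) : Submodule ℝ D :=
  (Submodule.span ℝ {x : D | ∃ φ : E4 → ℝ, ∃ h : IsTest Ω φ, x = toD h}).topologicalClosure

/-- the open unit ball of `ℝ⁴` -/
abbrev B : Set E4 := ball (0 : E4) 1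

end Pool.Agent.H57.BN
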