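import Pool.Agent.H57.BN.Base
import Pool.Agent.H57.BN.Hol
import Pool.Agent.H57.BN.PosPart

set_option autoImplicit false

open MeasureTheory Filter Topology Metric Set
open scoped ENNReal NNReal ContDiff

namespace Pool.Agent.H57.BN

/-! The Sobolev constant. -/

theorem sc_exists_ne_zero : ∃ x : D, x ≠ 0 := by
  let f : ContDiffBump (0 : E4) := ⟨1 / 4, 1 / 2, by norm_num, by norm_num⟩
  have hf : IsTest univ (f : E4 → ℝ) := ⟨f.contDiff, f.hasCompactSupport, subset_univ _⟩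
  refine ⟨toD hf, fun h => ?_⟩
  have h1 := fn_toD_ae hf
  rw [h, map_zero] at h1
  have h2 : (f : E4 → ℝ) =ᵐ[volume] 0 := h1.symm.trans (Lp.coeFn_zero _ _ _)
  have h3 : volume (ball (0 : E4) (1 / 4)) = 0 := by
    refine measure_mono_null ?_ h2
    intro p hp
    simp only [mem_compl_iff, mem_setOf_eq, Pi.zero_apply]
    rw [f.one_of_mem_closedBall (ball_subset_closedBall hp)]
    norm_num
  exact (measure_ball_pos volume (0 : E4) (by norm_num : (0 : ℝ) < 1 / 4)).ne' h3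

theorem sc_norm_one {x : D} (h0 : x ≠ 0) :
    ∃ y : D, ‖fn y‖ = 1 ∧ ‖x‖ ^ 2 = ‖fn x‖ ^ 2 * ‖y‖ ^ 2 := by
  have hm : 0 < ‖fn x‖ := norm_pos_iff.mpr fun h => h0 (fn_inj h)
  refine ⟨‖fn x‖⁻¹ • x, ?_, ?_⟩
  · have h1 : ‖fn (‖fn x‖⁻¹ • x)‖ = |‖fn x‖⁻¹| * ‖fn x‖ := by
      rw [map_smul]
      exact norm_smul _ _
    rw [h1, abs_of_pos (by positivity), inv_mul_cancel₀ hm.ne']
  · have h1 : ‖‖fn x‖⁻¹ • x‖ = |‖fn x‖⁻¹| * ‖x‖ := norm_smul _ _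
    rw [h1, mul_pow, sq_abs, inv_pow, ← mul_assoc, mul_inv_cancel₀ (by positivity), one_mul]

theorem sc_nonempty : {s : ℝ | ∃ x : D, ‖fn x‖ = 1 ∧ s = ‖x‖ ^ 2}.Nonempty := by
  obtain ⟨x, hx⟩ := sc_exists_ne_zero
  obtain ⟨y, hy, _⟩ := sc_norm_one hx
  exact ⟨_, y, hy, rfl⟩

theorem S_pos : 0 < S := by
  have hK : 0 < ‖fn‖ + 1 := by positivity
  have h : 1 / (‖fn‖ + 1) ^ 2 ≤ S := by
    apply le_csInf sc_nonempty
    rintro s ⟨x, hx, rfl⟩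
    have h1 : ‖fn x‖ ≤ ‖fn‖ * ‖x‖ := fn.le_opNorm x
    rw [hx] at h1
    rw [div_le_iff₀ (by positivity), ← mul_pow]
    have h2 : 1 ≤ ‖x‖ * (‖fn‖ + 1) := by
      have := norm_nonneg x
      nlinarith
    exact one_le_pow₀ h2
  exact lt_of_lt_of_le (by positivity) h

theorem S_le (x : D) : S * ‖fn x‖ ^ 2 ≤ ‖x‖ ^ 2 := by
  by_cases hx : x = 0
  · subst hx
    rw [map_zero, norm_zero]
    simp
  · obtain ⟨y, hy, h1⟩ := sc_norm_one hx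
    have h2 : S ≤ ‖y‖ ^ 2 := csInf_le ⟨0, by rintro s ⟨z, _, rfl⟩; positivity⟩ ⟨y, hy, rfl⟩
    rw [h1, mul_comm]
    exact mul_le_mul_of_nonneg_left h2 (sq_nonneg _)

theorem exists_near_S {s : ℝ} (hs : S < s) :
    ∃ x : D, ‖fn x‖ = 1 ∧ ‖x‖ ^ 2 < s ∧ 0 ≤ᵐ[volume] (fn x : E4 → ℝ) := by
  obtain ⟨s', ⟨x, hx, rfl⟩, hlt⟩ := exists_lt_of_csInf_lt sc_nonempty hs
  obtain ⟨y, h1, h2, _⟩ := exists_abs x
  refine ⟨y, ?_, by rw [h2]; exact hlt, ?_⟩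
  · have h3 : ‖fn y‖ ^ 4 = 1 ^ 4 := by
      rw [norm4_eq, ← hx, norm4_eq]
      apply integral_congr_ae
      filter_upwards [h1] with p hp
      rw [hp]
      exact Even.pow_abs (by decide) _
    exact (pow_left_inj₀ (norm_nonneg _) zero_le_one (by norm_num)).mp h3
  · filter_upwards [h1] with p hp
    rw [hp]
    exact abs_nonneg _

end Pool.Agent.H57.BN
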