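import Pool.Agent.H57.BN.Base
import Pool.Agent.H57.BN.Hol
import Pool.Agent.H57.BN.PosPart
import Pool.Agent.H57.BN.SConst

set_option autoImplicit false

open MeasureTheory Filter Topology Metric Set
open scoped ENNReal NNReal ContDiff

namespace Pool.Agent.H57.BN

/-! First eigenvalue of the ball, the forms `P lam`. -/

theorem eig_measurableSet_B : MeasurableSet B := measurableSet_ball

theorem eig_volume_B_lt_top : volume B < ⊤ := measure_ball_lt_top

theorem eig_memLp_two_B {x : D} (hx : x ∈ H B) : MemLp (fn x) 2 (volume : Measure E4) :=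
  memLp_of_support (fn x) eig_measurableSet_B eig_volume_B_lt_top (fn_outside eig_measurableSet_B hx)
    (by norm_num)

theorem integrable_mul_B {x y : D} (hx : x ∈ H B) (hy : y ∈ H B) :
    Integrable (fun p => fn x p * fn y p) (volume : Measure E4) :=
  MemLp.integrable_mul (eig_memLp_two_B hx) (eig_memLp_two_B hy)

theorem eig_integrable_sq_B {x : D} (hx : x ∈ H B) :
    Integrable (fun p => fn x p ^ 2) (volume : Measure E4) :=
  (eig_memLp_two_B hx).integrable_sq

theorem eig_fn_smul_ae (c : ℝ) (x : D) :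
    (fn (c • x) : E4 → ℝ) =ᵐ[volume] fun p => c * fn x p := by
  rw [map_smul]
  filter_upwards [Lp.coeFn_smul c (fn x)] with p hp
  rw [hp, Pi.smul_apply, smul_eq_mul]

theorem eig_fn_add_smul_ae (x y : D) (t : ℝ) :
    (fn (x + t • y) : E4 → ℝ) =ᵐ[volume] fun p => fn x p + t * fn y p := by
  rw [map_add, map_smul]
  filter_upwards [Lp.coeFn_add (fn x) (t • fn y), Lp.coeFn_smul t (fn y)] with p hp hp'
  rw [hp, Pi.add_apply, hp', Pi.smul_apply, smul_eq_mul]

theorem m2_nonneg (x : D) : 0 ≤ m2 x := integral_nonneg fun p => by positivity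

theorem m2_smul (c : ℝ) (x : D) : m2 (c • x) = c ^ 2 * m2 x := by
  unfold m2
  rw [← integral_const_mul]
  apply integral_congr_ae
  filter_upwards [eig_fn_smul_ae c x] with p hp
  rw [hp]
  ring

theorem m4_smul (c : ℝ) (x : D) : m4 (c • x) = c ^ 4 * m4 x := by
  unfold m4
  rw [← integral_const_mul]
  apply integral_congr_ae
  filter_upwards [eig_fn_smul_ae c x] with p hp
  rw [hp]
  ring

theorem eig_fn_ne_zero {x : D} (hx : x ≠ 0) : fn x ≠ 0 := fun h => hx (fn_inj h)

theorem m4_pos {x : D} (hx : x ≠ 0) : 0 < m4 x := by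
  rw [m4_eq]
  have := norm_pos_iff.mpr (eig_fn_ne_zero hx)
  positivity

theorem m2_pos {x : D} (hxB : x ∈ H B) (hx : x ≠ 0) : 0 < m2 x := by
  refine lt_of_le_of_ne (m2_nonneg x) fun h => eig_fn_ne_zero hx ?_
  have h1 : (fun p => fn x p ^ 2) =ᵐ[volume] 0 :=
    (integral_eq_zero_iff_of_nonneg (fun p => by positivity) (eig_integrable_sq_B hxB)).mp h.symm
  rw [Lp.eq_zero_iff_ae_eq_zero]
  filter_upwards [h1] with p hp
  simpa using hp

/-- `∫_B u² ≤ |B|^{1/2} ‖u‖₄²` -/
theorem m2_le {x : D} (hx : x ∈ H B) :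
    m2 x ≤ Real.sqrt (volume B).toReal * ‖fn x‖ ^ 2 := by
  refine le_trans (le_of_eq ?_) (setIntegral_sq_le (fn x) eig_measurableSet_B eig_volume_B_lt_top)
  unfold m2
  rw [← integral_indicator eig_measurableSet_B]
  apply integral_congr_ae
  filter_upwards [fn_outside eig_measurableSet_B hx] with p hp
  by_cases hpB : p ∈ B
  · rw [indicator_of_mem hpB]
  · rw [indicator_of_notMem hpB, hp hpB]
    norm_num

theorem X_nonneg (x y : D) : 0 ≤ X x y := integral_nonneg fun p => by positivity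

theorem X_le (x y : D) : X x y ≤ ‖fn x‖ ^ 2 * ‖fn y‖ ^ 2 := by
  have h := hol_integral_sq_mul_sq_le (fn x) (fn y)
  rw [mul_pow] at h
  refine le_trans (le_of_eq ?_) h
  unfold X
  exact integral_congr_ae (Eventually.of_forall fun p => by simp only; ring)

/-- `H B` contains a nonzero element -/
theorem eig_exists_ne_zero_B : ∃ x ∈ H B, x ≠ 0 := by
  let f : ContDiffBump (0 : E4) := ⟨1 / 4, 1 / 2, by norm_num, by norm_num⟩
  have hf : IsTest B (f : E4 → ℝ) := by
    refine ⟨f.contDiff, f.hasCompactSupport, ?_⟩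
    rw [f.tsupport_eq]
    exact closedBall_subset_ball (by norm_num)
  refine ⟨toD hf, toD_mem hf, fun h => ?_⟩
  have h1 := fn_toD_ae hf
  rw [h, map_zero] at h1
  have h2 : (f : E4 → ℝ) =ᵐ[volume] 0 := h1.symm.trans (Lp.coeFn_zero _ _ _)
  have h3 : volume (ball (0 : E4) (1 / 4)) = 0 := by
    refine measure_mono_null ?_ h2
    intro p hp
    simp only [mem_compl_iff, mem_setOf_eq, Pi.zero_apply]
    rw [f.one_of_mem_closedBall (ball_subset_closedBall hp)]
    norm_num
  exact (measure_ball_pos volume (0 : E4) (by norm_num : (0 : ℝ) < 1 / 4)).ne' h3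

end Pool.Agent.H57.BN
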