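import Pool.Agent.H57.BN.Eig

set_option autoImplicit false

open MeasureTheory Filter Topology Metric Set
open scoped ENNReal NNReal ContDiff

namespace Pool.Agent.H57.BN

theorem fn_add_smul_ae (x φ : D) (t : ℝ) :
    fn (x + t • φ) =ᵐ[volume] fun p => fn x p + t * fn φ p := by
  rw [map_add, map_smul]
  filter_upwards [Lp.coeFn_add (fn x) (t • fn φ), Lp.coeFn_smul t (fn φ)] with p h1 h2
  rw [h1, Pi.add_apply, h2, Pi.smul_apply, smul_eq_mul]

theorem integrable_sq_sq (f g : L4) :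
    Integrable (fun p => f p ^ 2 * g p ^ 2) (volume : Measure E4) := by
  refine (integrable_mul4 f f g g).congr (Eventually.of_forall fun p => ?_)
  simp only
  ring

/-- expansions -/
theorem m4_add_smul (x φ : D) (t : ℝ) : m4 (x + t • φ) = m4 x + 4 * t * (∫ p, fn x p ^ 3 * fn φ p) +
    6 * t ^ 2 * X x φ + 4 * t ^ 3 * (∫ p, fn φ p ^ 3 * fn x p) + t ^ 4 * m4 φ := by
  have i0 := integrable_pow4 (fn x)
  have i1 := integrable_cube_mul (fn x) (fn φ)
  have i2 := integrable_sq_sq (fn x) (fn φ)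
  have i3 := integrable_cube_mul (fn φ) (fn x)
  have i4 := integrable_pow4 (fn φ)
  have e : m4 (x + t • φ) = ∫ p, ((((fn x p ^ 4 + 4 * t * (fn x p ^ 3 * fn φ p)) +
      6 * t ^ 2 * (fn x p ^ 2 * fn φ p ^ 2)) + 4 * t ^ 3 * (fn φ p ^ 3 * fn x p)) +
      t ^ 4 * fn φ p ^ 4) := by
    rw [m4]
    refine integral_congr_ae ?_
    filter_upwards [fn_add_smul_ae x φ t] with p hp
    rw [hp]; ring
  have j1 : Integrable (fun p => fn x p ^ 4 + 4 * t * (fn x p ^ 3 * fn φ p)) volume :=
    i0.add (i1.const_mul _)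
  have j2 : Integrable (fun p => (fn x p ^ 4 + 4 * t * (fn x p ^ 3 * fn φ p)) +
      6 * t ^ 2 * (fn x p ^ 2 * fn φ p ^ 2)) volume := j1.add (i2.const_mul _)
  have j3 : Integrable (fun p => ((fn x p ^ 4 + 4 * t * (fn x p ^ 3 * fn φ p)) +
      6 * t ^ 2 * (fn x p ^ 2 * fn φ p ^ 2)) + 4 * t ^ 3 * (fn φ p ^ 3 * fn x p)) volume :=
    j2.add (i3.const_mul _)
  rw [e, integral_add j3 (i4.const_mul _), integral_add j2 (i3.const_mul _),
    integral_add j1 (i2.const_mul _), integral_add i0 (i1.const_mul _)]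
  simp only [integral_const_mul]
  rfl

theorem X_add_smul (x y φ : D) (t : ℝ) : X (x + t • φ) y = X x y +
    2 * t * (∫ p, fn x p * fn y p ^ 2 * fn φ p) + t ^ 2 * X φ y := by
  have i0 := integrable_sq_sq (fn x) (fn y)
  have i1 : Integrable (fun p => fn x p * fn y p ^ 2 * fn φ p) (volume : Measure E4) := by
    refine (integrable_mul4 (fn x) (fn y) (fn y) (fn φ)).congr (Eventually.of_forall fun p => ?_)
    simp only
    ring
  have i2 := integrable_sq_sq (fn φ) (fn y)
  have e : X (x + t • φ) y = ∫ p, ((fn x p ^ 2 * fn y p ^ 2 +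
      2 * t * (fn x p * fn y p ^ 2 * fn φ p)) + t ^ 2 * (fn φ p ^ 2 * fn y p ^ 2)) := by
    rw [X]
    refine integral_congr_ae ?_
    filter_upwards [fn_add_smul_ae x φ t] with p hp
    rw [hp]; ring
  have j1 : Integrable (fun p => fn x p ^ 2 * fn y p ^ 2 +
      2 * t * (fn x p * fn y p ^ 2 * fn φ p)) volume := i0.add (i1.const_mul _)
  rw [e, integral_add j1 (i2.const_mul _), integral_add i0 (i1.const_mul _)]
  simp only [integral_const_mul]
  rfl

theorem X_comm (x y : D) : X x y = X y x := by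
  rw [X, X]
  refine integral_congr_ae (Eventually.of_forall fun p => ?_)
  simp only
  ring

end Pool.Agent.H57.BN
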