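import Pool.Agent.H57.BN.Limits
import Pool.Agent.H57.BN.Cvx
import Pool.Agent.H57.BN.CutE

set_option autoImplicit false

open MeasureTheory Filter Topology Metric Set
open scoped ENNReal NNReal ContDiff

namespace Pool.Agent.H57.BN

theorem extA_local {x : ℕ → D} (h : WeakTo x 0) (h1 : ∀ n, ‖fn (x n)‖ = 1)
    (hS : Tendsto (fun n => ‖x n‖ ^ 2) atTop (𝓝 S)) (z : E4)
    (hz : ∀ n, ∫ p in ball z 1, fn (x n) p ^ 4 ≤ 1 / 4) :
    Tendsto (fun n => ∫ p in ball z (1 / 2), fn (x n) p ^ 4) atTop (𝓝 0) := by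
  obtain ⟨C, hC0, hcut⟩ := exists_cutoff
  obtain ⟨χ, hχ, hc, hsup, h01, hone, hzero, hgr, hgr0, -⟩ := hcut z (1 / 2) (by norm_num)
  have hr : (2 : ℝ) * (1 / 2) = 1 := by norm_num
  rw [hr] at hsup
  simp only [hr] at hzero hgr0
  choose y w hy hw e1 e2 e3 e4 e5 e6 using fun n => cut_energy hχ hc h01 (x n)
  set G : ℕ → ℝ := fun n => ∫ p, ‖gradient χ p‖ ^ 2 * fn (x n) p ^ 2 with hG
  have hG0 : ∀ n, 0 ≤ G n := fun n => integral_nonneg fun p => by positivity
  obtain ⟨R, hR⟩ : ∃ R : ℝ, ball z 1 ⊆ ball (0 : E4) R := ⟨1 + ‖z‖, by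
    intro p hp
    rw [mem_ball, dist_eq_norm] at hp ⊢
    have : ‖p - 0‖ ≤ ‖p - z‖ + ‖z‖ := by
      calc ‖p - 0‖ = ‖(p - z) + z‖ := by congr 1; abel
        _ ≤ _ := norm_add_le _ _
    linarith⟩
  have hfn0 : ∀ᵐ p ∂(volume : Measure E4), fn (0 : D) p = 0 := by
    rw [map_zero]
    filter_upwards [Lp.coeFn_zero ℝ 4 (volume : Measure E4)] with p hp
    rw [hp]; rfl
  have hGlim : Tendsto G atTop (𝓝 0) := by
    have h2 := (rellich h R).const_mul ((C / (1 / 2)) ^ 2)
    rw [mul_zero] at h2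
    refine squeeze_zero hG0 (fun n => ?_) h2
    have hsq : IntegrableOn (fun p => fn (x n) p ^ 2) (ball (0 : E4) R) volume :=
      integrableOn_sq _ measure_ball_lt_top
    have e : ∫ p in ball (0 : E4) R, (fn (x n) p - fn (0 : D) p) ^ 2 =
        ∫ p in ball (0 : E4) R, fn (x n) p ^ 2 := by
      refine integral_congr_ae (ae_restrict_of_ae ?_)
      filter_upwards [hfn0] with p hp
      rw [hp, sub_zero]
    rw [e, ← integral_const_mul, ← integral_indicator measurableSet_ball]
    refine integral_mono (e4 n) ((integrable_indicator_iff measurableSet_ball).2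
      (hsq.const_mul _)) (fun p => ?_)
    by_cases hp : p ∈ ball (0 : E4) R
    · simp only [indicator_of_mem hp]
      have := hgr p
      gcongr
    · have hp' : p ∉ ball z 1 := fun hq => hp (hR hq)
      simp only [indicator_of_notMem hp, hgr0 p hp', norm_zero]
      simp
  -- bounds
  obtain ⟨M, hM0, hM⟩ := h.bdd
  obtain ⟨K, hK⟩ : ∃ K : ℝ, ∀ n, ‖w n‖ ≤ K := by
    obtain ⟨K, hK⟩ := hGlim.sqrt.bddAbove_range
    refine ⟨M + K + K, fun n => ?_⟩
    have hk : Real.sqrt (G n) ≤ K := hK ⟨n, rfl⟩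
    have := e2 n
    have := e3 n
    have := hM n
    linarith
  have hSp := S_pos
  -- the cubic term
  have hcub : ∀ n, ∫ p, fn (x n) p ^ 3 * fn (w n) p ≤ 1 / 2 * ‖fn (y n)‖ ^ 2 := by
    intro n
    have i1 : Integrable (fun p => (fn (x n) p ^ 2) ^ 2) ((volume : Measure E4).restrict (ball z 1)) :=
      ((integrable_pow4 (fn (x n))).restrict (s := ball z 1)).congr
        (Eventually.of_forall fun p => by simp only; ring)
    have i2' : Integrable (fun p => (fn (y n) p ^ 2) ^ 2) (volume : Measure E4) :=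
      (integrable_pow4 (fn (y n))).congr (Eventually.of_forall fun p => by simp only; ring)
    have i2 : Integrable (fun p => (fn (y n) p ^ 2) ^ 2) ((volume : Measure E4).restrict (ball z 1)) :=
      i2'.restrict
    have i3' : Integrable (fun p => fn (x n) p ^ 2 * fn (y n) p ^ 2) (volume : Measure E4) :=
      (integrable_mul4 (fn (x n)) (fn (x n)) (fn (y n)) (fn (y n))).congr
        (Eventually.of_forall fun p => by simp only; ring)
    have hcs := hol_cs_integral i1 i2 i3'.restrict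
    have s1 : ∫ p, fn (x n) p ^ 3 * fn (w n) p = ∫ p in ball z 1, fn (x n) p ^ 2 * fn (y n) p ^ 2 := by
      rw [← integral_indicator measurableSet_ball]
      refine integral_congr_ae ?_
      filter_upwards [hy n, hw n] with p hp hp'
      by_cases hpb : p ∈ ball z 1
      · rw [indicator_of_mem hpb, hp, hp']; ring
      · rw [indicator_of_notMem hpb, hp', hzero p hpb]; ring
    have s2 : ∫ p in ball z 1, (fn (x n) p ^ 2) ^ 2 ≤ 1 / 4 := by
      refine le_trans (le_of_eq ?_) (hz n)
      refine integral_congr_ae (Eventually.of_forall fun p => ?_)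
      simp only; ring
    have s3 : ∫ p in ball z 1, (fn (y n) p ^ 2) ^ 2 ≤ ‖fn (y n)‖ ^ 4 := by
      rw [norm4_eq]
      refine le_trans (setIntegral_le_integral i2' (Eventually.of_forall fun p => by positivity))
        (le_of_eq ?_)
      refine integral_congr_ae (Eventually.of_forall fun p => ?_)
      simp only; ring
    rw [s1]
    have s4 : (∫ p in ball z 1, fn (x n) p ^ 2 * fn (y n) p ^ 2) ^ 2 ≤
        (1 / 2 * ‖fn (y n)‖ ^ 2) ^ 2 := by
      refine hcs.trans ?_
      calc (∫ p in ball z 1, (fn (x n) p ^ 2) ^ 2) * ∫ p in ball z 1, (fn (y n) p ^ 2) ^ 2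
          ≤ 1 / 4 * ‖fn (y n)‖ ^ 4 := by
            refine mul_le_mul s2 s3 (integral_nonneg fun p => by positivity) (by norm_num)
        _ = (1 / 2 * ‖fn (y n)‖ ^ 2) ^ 2 := by ring
    exact (le_abs_self _).trans (abs_le_of_sq_le_sq s4 (by positivity))
  -- main inequality
  have hmain : ∀ n, S * (1 / 2) * ‖fn (y n)‖ ^ 2 ≤ Real.sqrt ((‖x n‖ ^ 2 - S) * K ^ 2) + G n := by
    intro n
    have c1 := cvx_S (h1 n) (w n)
    have hxS : S ≤ ‖x n‖ ^ 2 := by
      have := S_le (x n)
      rwa [h1 n, one_pow, mul_one] at this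
    have c2 : (inner ℝ (x n) (w n) - S * ∫ p, fn (x n) p ^ 3 * fn (w n) p) ^ 2 ≤
        (‖x n‖ ^ 2 - S) * K ^ 2 := by
      refine c1.trans (mul_le_mul_of_nonneg_left ?_ (by linarith))
      exact pow_le_pow_left₀ (norm_nonneg _) (hK n) 2
    have c3 := Real.le_sqrt_of_sq_le c2
    have c4 := S_le (y n)
    have c5 := mul_le_mul_of_nonneg_left (hcub n) hSp.le
    have c6 := e1 n
    have c7 : G n = ∫ p, ‖gradient χ p‖ ^ 2 * fn (x n) p ^ 2 := rfl
    rw [← c7] at c6
    linarith
  have hlim1 : Tendsto (fun n => Real.sqrt ((‖x n‖ ^ 2 - S) * K ^ 2) + G n) atTop (𝓝 0) := by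
    have a1 : Tendsto (fun n => (‖x n‖ ^ 2 - S) * K ^ 2) atTop (𝓝 ((S - S) * K ^ 2)) :=
      (hS.sub_const S).mul_const _
    rw [sub_self, zero_mul] at a1
    have a2 := a1.sqrt.add hGlim
    rwa [Real.sqrt_zero, add_zero] at a2
  have hy0 : Tendsto (fun n => ‖fn (y n)‖ ^ 2) atTop (𝓝 0) := by
    have a3 := hlim1.const_mul (S * (1 / 2))⁻¹
    rw [mul_zero] at a3
    refine squeeze_zero (fun n => by positivity) (fun n => ?_) a3
    rw [← div_eq_inv_mul, le_div_iff₀ (by positivity)]
    have := hmain n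
    linarith
  have hy4 := hy0.pow 2
  rw [show (0 : ℝ) ^ 2 = 0 by norm_num] at hy4
  refine squeeze_zero (fun n => integral_nonneg fun p => by positivity) (fun n => ?_) hy4
  have e : (‖fn (y n)‖ ^ 2) ^ 2 = ∫ p, fn (y n) p ^ 4 := by
    rw [← norm4_eq]; ring
  rw [e]
  refine le_trans (le_of_eq ?_) (setIntegral_le_integral (s := ball z (1 / 2))
    (integrable_pow4 (fn (y n))) (Eventually.of_forall fun p => by positivity))
  refine setIntegral_congr_ae measurableSet_ball ?_
  filter_upwards [hy n] with p hp hpb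
  rw [hp, hone p hpb, one_mul]

/-- The weak limit of a normalised minimizing sequence is not zero: if `x_n ⇀ 0`, test the
almost-equation with `χ²x_n` (`χ` a cutoff supported in a unit ball, `= 1` on the ball of radius `1/2`):
`‖∇(χx_n)‖² ≤ S ∫χ²x_n⁴ + o(1) ≤ S (1/4)^{1/2} ‖χx_n‖₄² + o(1)`; so `x_n → 0` in `L⁴` of every ball of
radius `1/2`, hence of `B(0,2)`. -/
theorem weak_ne_zero {x : ℕ → D} {y : D} (h : WeakTo x y) (h1 : ∀ n, ‖fn (x n)‖ = 1)
    (hS : Tendsto (fun n => ‖x n‖ ^ 2) atTop (𝓝 S))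
    (hz : ∀ n, ∀ z : E4, ∫ p in ball z 1, fn (x n) p ^ 4 ≤ 1 / 4)
    (h2 : ∀ n, 1 / 4 ≤ ∫ p in ball (0:E4) 2, fn (x n) p ^ 4) : y ≠ 0 := by
  rintro rfl
  obtain ⟨t, -, htf, ht⟩ := (isCompact_closedBall (0 : E4) 2).finite_cover_balls
    (e := 1 / 2) (by norm_num)
  have hsum : Tendsto (fun n => ∑ z ∈ htf.toFinset, ∫ p in ball z (1 / 2), fn (x n) p ^ 4)
      atTop (𝓝 0) := by
    have := tendsto_finsetSum (htf.toFinset) (fun z _ => extA_local h h1 hS z (fun n => hz n z))
    simpa using this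
  have hle : ∀ n, (1 / 4 : ℝ) ≤ ∑ z ∈ htf.toFinset, ∫ p in ball z (1 / 2), fn (x n) p ^ 4 := by
    intro n
    refine (h2 n).trans ?_
    have hi := integrable_pow4 (fn (x n))
    have e : ∑ z ∈ htf.toFinset, ∫ p in ball z (1 / 2), fn (x n) p ^ 4 =
        ∫ p, ∑ z ∈ htf.toFinset, (ball z (1 / 2)).indicator (fun p => fn (x n) p ^ 4) p := by
      rw [integral_finsetSum]
      · refine Finset.sum_congr rfl (fun z _ => ?_)
        rw [integral_indicator measurableSet_ball]
      · intro z _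
        exact hi.indicator measurableSet_ball
    rw [e, ← integral_indicator measurableSet_ball]
    refine integral_mono (hi.indicator measurableSet_ball)
      (integrable_finsetSum _ fun z _ => hi.indicator measurableSet_ball) (fun p => ?_)
    by_cases hp : p ∈ ball (0 : E4) 2
    · simp only [indicator_of_mem hp]
      have hp' := ht (ball_subset_closedBall hp)
      simp only [mem_iUnion] at hp'
      obtain ⟨z, hzt, hpz⟩ := hp'
      have h3 : (ball z (1 / 2)).indicator (fun p => fn (x n) p ^ 4) p = fn (x n) p ^ 4 :=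
        indicator_of_mem hpz _
      rw [← h3]
      refine Finset.single_le_sum (f := fun z => (ball z (1 / 2)).indicator (fun p => fn (x n) p ^ 4) p)
        (fun z _ => ?_) (htf.mem_toFinset.2 hzt)
      exact indicator_nonneg (fun p _ => by positivity) p
    · simp only [indicator_of_notMem hp]
      refine Finset.sum_nonneg (fun z _ => indicator_nonneg (fun p _ => by positivity) p)
  have := ge_of_tendsto' hsum hle
  norm_num at this

end Pool.Agent.H57.BN
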