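import Pool.Agent.H57.BN.Levy
import Pool.Agent.H57.BN.ExtA

set_option autoImplicit false

open MeasureTheory Filter Topology Metric Set
open scoped ENNReal NNReal ContDiff

namespace Pool.Agent.H57.BN

theorem ext_norm_abs {x y : D} (h : fn y =ᵐ[volume] fun p => |fn x p|) : ‖fn y‖ = ‖fn x‖ := by
  have h1 : m4 y = m4 x := by
    rw [m4, m4]
    refine integral_congr_ae ?_
    filter_upwards [h] with p hp
    rw [hp]
    exact Even.pow_abs (by decide) _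
  rw [m4_eq, m4_eq] at h1
  exact (pow_left_inj₀ (norm_nonneg _) (norm_nonneg _) (by norm_num)).1 h1

/-- The Sobolev constant is attained. -/
theorem exists_extremal : ∃ U : D, ‖fn U‖ = 1 ∧ ‖U‖ ^ 2 = S ∧ 0 ≤ᵐ[volume] (fn U : E4 → ℝ) := by
  have hSp := S_pos
  have hex : ∀ n : ℕ, ∃ x : D, ‖fn x‖ = 1 ∧ ‖x‖ ^ 2 < S + 1 / ((n : ℝ) + 1) ∧
      (∀ z : E4, ∫ p in ball z 1, fn x p ^ 4 ≤ 1 / 4) ∧
      1 / 4 ≤ ∫ p in ball (0:E4) 2, fn x p ^ 4 := by
    intro n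
    obtain ⟨v, hv1, hv2, -⟩ := exists_near_S (s := S + 1 / ((n : ℝ) + 1)) (by
      have : (0 : ℝ) < 1 / ((n : ℝ) + 1) := by positivity
      linarith)
    obtain ⟨x, hx1, hx2, hx3, hx4⟩ := levy hv1
    exact ⟨x, hx1, by rw [hx2]; exact hv2, hx3, hx4⟩
  choose x hn hP hz hz2 using hex
  have hlim : Tendsto (fun n => ‖x n‖ ^ 2) atTop (𝓝 S) := by
    have h2 : Tendsto (fun n : ℕ => S + 1 / ((n : ℝ) + 1)) atTop (𝓝 (S + 0)) :=
      tendsto_one_div_add_atTop_nhds_zero_nat.const_add _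
    rw [add_zero] at h2
    refine tendsto_of_tendsto_of_tendsto_of_le_of_le tendsto_const_nhds h2 (fun n => ?_)
      fun n => (hP n).le
    have := S_le (x n)
    rwa [hn n, one_pow, mul_one] at this
  have hbd : ∀ n, ‖x n‖ ≤ Real.sqrt (S + 1) := by
    intro n
    apply Real.le_sqrt_of_sq_le
    refine (hP n).le.trans ?_
    have : 1 / ((n : ℝ) + 1) ≤ 1 := by
      rw [div_le_one (by positivity)]
      have : (0 : ℝ) ≤ n := Nat.cast_nonneg n
      linarith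
    linarith
  obtain ⟨ψ, hψ, y, hy⟩ := exists_weak_subseq hbd
  have hlimψ : Tendsto (fun n => ‖(x ∘ ψ) n‖ ^ 2) atTop (𝓝 S) := hlim.comp hψ.tendsto_atTop
  have hyne : y ≠ 0 := weak_ne_zero hy (fun n => hn (ψ n)) hlimψ (fun n => hz (ψ n))
    (fun n => hz2 (ψ n))
  -- the equation
  have heq : ∀ φ : D, inner ℝ y φ = S * ∫ p, fn y p ^ 3 * fn φ p := by
    intro φ
    have h2 := hy φ
    have h3 := (tendsto_cube hy φ).const_mul S
    have h4 : Tendsto (fun n => (inner ℝ ((x ∘ ψ) n) φ -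
        S * ∫ p, fn ((x ∘ ψ) n) p ^ 3 * fn φ p) ^ 2) atTop (𝓝 0) := by
      have h5 : Tendsto (fun n => (‖(x ∘ ψ) n‖ ^ 2 - S) * ‖φ‖ ^ 2) atTop (𝓝 0) := by
        have := (hlimψ.sub_const S).mul_const (‖φ‖ ^ 2)
        simpa using this
      refine squeeze_zero (fun n => sq_nonneg _) (fun n => ?_) h5
      exact cvx_S (hn (ψ n)) φ
    have h6 := (h2.sub h3).pow 2
    have h7 := tendsto_nhds_unique h6 h4
    have h8 := pow_eq_zero_iff (n := 2) (by norm_num) |>.mp h7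
    linarith
  have hm4 : m4 y ≤ 1 := hy.m4_le fun ε hε => Eventually.of_forall fun n => by
    rw [m4_eq]
    show ‖fn (x (ψ n))‖ ^ 4 ≤ 1 + ε
    rw [hn (ψ n)]
    linarith
  have hnsq : ‖y‖ ^ 2 = S * m4 y := by
    have e1 : ∫ p, fn y p ^ 3 * fn y p = m4 y := by
      rw [m4]
      refine integral_congr_ae (Eventually.of_forall fun p => ?_)
      simp only
      ring
    rw [← real_inner_self_eq_norm_sq, heq y, e1]
  have hnorm : 0 < ‖fn y‖ := norm_pos_iff.mpr fun h => hyne (fn_inj h)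
  have hge : 1 ≤ ‖fn y‖ ^ 2 := by
    have h2 := S_le y
    rw [hnsq, m4_eq] at h2
    have h3 : S * ‖fn y‖ ^ 2 * 1 ≤ S * ‖fn y‖ ^ 2 * ‖fn y‖ ^ 2 := by nlinarith
    exact le_of_mul_le_mul_left h3 (by positivity)
  rw [m4_eq] at hm4 hnsq
  have hone : ‖fn y‖ ^ 4 = 1 := by
    apply le_antisymm hm4
    have : ‖fn y‖ ^ 4 = (‖fn y‖ ^ 2) ^ 2 := by ring
    rw [this]
    exact one_le_pow₀ hge
  have hone' : ‖fn y‖ = 1 := (pow_eq_one_iff_of_nonneg (norm_nonneg _) (by norm_num)).mp hone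
  obtain ⟨U, hU1, hU2, -⟩ := exists_abs y
  refine ⟨U, by rw [ext_norm_abs hU1, hone'], by rw [hU2, hnsq, hone, mul_one], ?_⟩
  filter_upwards [hU1] with p hp
  rw [hp]
  exact abs_nonneg _

end Pool.Agent.H57.BN
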