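import Pool.Agent.H57.BN.Sob

set_option autoImplicit false

/-!
`fn x : L4` is the function whose gradient is `gr x`, for `x : D`.
`m2 x = ∫ u²`, `m4 x = ∫ u⁴`, `P lam x = ‖∇u‖² - lam ∫ u²` and its bilinear form `PB`,
`S` = Sobolev constant, `Lam` = first Dirichlet eigenvalue of the unit ball `B`,
`q lam = inf P/‖u‖₄²` over `H B`, `Nb` = the set `N_β` (with `β = -b`), `A` = the infimum of the energy.
CAUTION: `m2 x` is a Bochner integral (`= 0` if `u ∉ L²`): use it only for `x ∈ H B` or when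
`{u ≠ 0}` has finite measure.
-/

open MeasureTheory Filter Topology Metric Set
open scoped ENNReal NNReal ContDiff

namespace Pool.Agent.H57.BN

/-- the function of `x : D` -/
noncomputable def fn : D →L[ℝ] L4 := Classical.choose exists_fn

theorem fn_toD_univ {φ : E4 → ℝ} (h : IsTest univ φ) : fn (toD h) = h.mem4.toLp φ :=
  Classical.choose_spec exists_fn φ h

theorem fn_toD {Ω : Set E4} {φ : E4 → ℝ} (h : IsTest Ω φ) : fn (toD h) = h.mem4.toLp φ :=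
  fn_toD_univ (h.mono (subset_univ _))

theorem fn_toD_ae {Ω : Set E4} {φ : E4 → ℝ} (h : IsTest Ω φ) : fn (toD h) =ᵐ[volume] φ := by
  rw [fn_toD h]; exact h.mem4.coeFn_toLp

theorem gr_toD_ae {Ω : Set E4} {φ : E4 → ℝ} (h : IsTest Ω φ) :
    gr (toD h) =ᵐ[volume] gradient φ :=
  h.memGrad.coeFn_toLp

noncomputable def m2 (x : D) : ℝ := ∫ p, fn x p ^ 2
noncomputable def m4 (x : D) : ℝ := ∫ p, fn x p ^ 4
/-- `∫ u² v²` -/
noncomputable def X (x y : D) : ℝ := ∫ p, fn x p ^ 2 * fn y p ^ 2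
/-- the quadratic form `‖∇u‖² - lam ∫ u²` -/
noncomputable def P (lam : ℝ) (x : D) : ℝ := ‖x‖ ^ 2 - lam * m2 x
/-- its bilinear form -/
noncomputable def PB (lam : ℝ) (x y : D) : ℝ := inner ℝ x y - lam * ∫ p, fn x p * fn y p

/-- best Sobolev constant -/
noncomputable def S : ℝ := sInf {s : ℝ | ∃ x : D, ‖fn x‖ = 1 ∧ s = ‖x‖ ^ 2}
/-- first Dirichlet eigenvalue of the unit ball -/
noncomputable def Lam : ℝ := sInf {s : ℝ | ∃ x ∈ H B, m2 x = 1 ∧ s = ‖x‖ ^ 2}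
noncomputable def q (lam : ℝ) : ℝ := sInf {s : ℝ | ∃ x ∈ H B, ‖fn x‖ = 1 ∧ s = P lam x}

/-- the set `N_β`, `β = -b`, for `μ₁ = μ₂ = 1`, `λ₁ = -lam`, `λ₂ = -th` on the unit ball -/
def Nb (lam th b : ℝ) : Set (D × D) :=
  {z | z.1 ∈ H B ∧ z.2 ∈ H B ∧ z.1 ≠ 0 ∧ z.2 ≠ 0 ∧
    P lam z.1 = m4 z.1 - b * X z.1 z.2 ∧ P th z.2 = m4 z.2 - b * X z.1 z.2}
/-- `A_β` (on `N_β` the energy is `(P(x)+P(y))/4`) -/
noncomputable def A (lam th b : ℝ) : ℝ :=
  sInf ((fun z : D × D => (P lam z.1 + P th z.2) / 4) '' Nb lam th b)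

/-- weak solutions of the system, `β = -b` -/
def IsSol (lam th b : ℝ) (x y : D) : Prop :=
  (∀ φ ∈ H B, PB lam x φ =
    (∫ p, fn x p ^ 3 * fn φ p) - b * ∫ p, fn x p * fn y p ^ 2 * fn φ p) ∧
  (∀ φ ∈ H B, PB th y φ =
    (∫ p, fn y p ^ 3 * fn φ p) - b * ∫ p, fn x p ^ 2 * fn y p * fn φ p)

/-- weak convergence in `D` -/
def WeakTo (x : ℕ → D) (y : D) : Prop :=
  ∀ z : D, Tendsto (fun n => inner ℝ (x n) z) atTop (𝓝 (inner ℝ y z))

end Pool.Agent.H57.BN
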