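import Pool.Agent.H57.BN.Defs

set_option autoImplicit false

open MeasureTheory Filter Topology Metric Set
open scoped ENNReal NNReal ContDiff

namespace Pool.Agent.H57.BN

theorem quartic_aux {K c0 c1 c2 c3 c4 s : ℝ} (hs : 0 < s) (h2 : |c2| ≤ K) (h3 : |c3| ≤ K)
    (h4 : |c4| ≤ K)
    (h : ∀ t : ℝ, 0 ≤ c0 + c1 * t + c2 * t ^ 2 + c3 * t ^ 3 + c4 * t ^ 4) :
    |c1| * s ≤ c0 + K * s ^ 2 + K * s ^ 3 + K * s ^ 4 := by
  have e2 := abs_le.1 h2
  have e3 := abs_le.1 h3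
  have e4 := abs_le.1 h4
  have hs2 : 0 < s ^ 2 := by positivity
  have hs3 : 0 < s ^ 3 := by positivity
  have hs4 : 0 < s ^ 4 := by positivity
  rcases abs_cases c1 with ⟨h5, _⟩ | ⟨h5, _⟩
  · have := h (-s)
    rw [h5]
    nlinarith [mul_le_mul_of_nonneg_right e2.2 hs2.le, mul_le_mul_of_nonneg_right e3.1 hs3.le,
      mul_le_mul_of_nonneg_right e4.2 hs4.le]
  · have := h s
    rw [h5]
    nlinarith [mul_le_mul_of_nonneg_right e2.2 hs2.le, mul_le_mul_of_nonneg_right e3.2 hs3.le,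
      mul_le_mul_of_nonneg_right e4.2 hs4.le]

/-- a nonnegative quartic polynomial with bounded coefficients has `|p'(0)| ≤ C √p(0)` -/
theorem quartic {K : ℝ} (hK : 0 < K) : ∃ C : ℝ, 0 < C ∧ ∀ c0 c1 c2 c3 c4 : ℝ, c0 ≤ K → |c2| ≤ K →
    |c3| ≤ K → |c4| ≤ K → (∀ t : ℝ, 0 ≤ c0 + c1 * t + c2 * t ^ 2 + c3 * t ^ 3 + c4 * t ^ 4) →
    |c1| ≤ C * Real.sqrt c0 := by
  refine ⟨1 + K + K * Real.sqrt K + K * K, by positivity, ?_⟩
  intro c0 c1 c2 c3 c4 h0 h2 h3 h4 h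
  have hc0 : 0 ≤ c0 := by simpa using h 0
  rcases hc0.eq_or_lt with hz | hz
  · rw [← hz, Real.sqrt_zero, mul_zero]
    by_contra hcon
    push Not at hcon
    set s : ℝ := min 1 (|c1| / (6 * K)) with hsdef
    have hs : 0 < s := lt_min one_pos (by positivity)
    have h1 := quartic_aux hs h2 h3 h4 h
    rw [← hz] at h1
    have hs1 : s ≤ 1 := min_le_left _ _
    have hs2 : s ≤ |c1| / (6 * K) := min_le_right _ _
    have hs2' : s * (6 * K) ≤ |c1| := (le_div_iff₀ (by positivity)).1 hs2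
    have h2' : s ^ 3 ≤ s ^ 2 := by nlinarith [sq_nonneg s]
    have h3' : s ^ 4 ≤ s ^ 2 := by nlinarith [sq_nonneg s, pow_pos hs 3, h2']
    have h4' : |c1| * s ≤ 3 * K * s ^ 2 := by nlinarith [h2', h3']
    nlinarith [mul_pos hcon hs]
  · set s := Real.sqrt c0 with hsdef
    have hs : 0 < s := Real.sqrt_pos.2 hz
    have hss : s ^ 2 = c0 := Real.sq_sqrt hc0
    have h1 := quartic_aux hs h2 h3 h4 h
    have hsK : s ≤ Real.sqrt K := Real.sqrt_le_sqrt h0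
    have hs3 : s ^ 3 ≤ Real.sqrt K * s ^ 2 := by nlinarith [sq_nonneg s]
    have hs4 : s ^ 4 ≤ K * s ^ 2 := by nlinarith [sq_nonneg s]
    have h5 : |c1| * s ≤ (1 + K + K * Real.sqrt K + K * K) * s * s := by
      nlinarith [mul_le_mul_of_nonneg_left hs3 hK.le, mul_le_mul_of_nonneg_left hs4 hK.le]
    exact le_of_mul_le_mul_right h5 hs

end Pool.Agent.H57.BN
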