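import Pool.Agent.H57.BN.Star
import Pool.Agent.H57.BN.Quartic
import Pool.Agent.H57.BN.Expand

set_option autoImplicit false

open MeasureTheory Filter Topology Metric Set
open scoped ENNReal NNReal ContDiff

namespace Pool.Agent.H57.BN

/-- abstract form of the estimate -/
private theorem ps_core {R d0 : ℝ} (hR : 1 ≤ R) (hd0 : 0 < d0) : ∃ C : ℝ, 0 < C ∧
    ∀ P Q a m X b p1 p2 x1 x2 a1 a2 a3 a4 A e : ℝ,
      |P| ≤ R → |Q| ≤ R → |a| ≤ R → |m| ≤ R → |X| ≤ R → |b| ≤ R → |p1| ≤ R → |p2| ≤ R →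
      |x1| ≤ R → |x2| ≤ R → |a1| ≤ R → |a2| ≤ R → |a3| ≤ R → |a4| ≤ R → |A| ≤ R →
      P = a - b * X → Q = m - b * X → (P + Q) / 4 - A = e → 0 ≤ e → e ≤ 1 →
      d0 ≤ a * m - (b * X) ^ 2 →
      (∀ t : ℝ, 4 * A * ((a + 4 * t * a1 + 6 * t ^ 2 * a2 + 4 * t ^ 3 * a3 + t ^ 4 * a4) * m
          - (b * (X + 2 * t * x1 + t ^ 2 * x2)) ^ 2)
        ≤ (P + 2 * t * p1 + t ^ 2 * p2) ^ 2 * m
          + 2 * (P + 2 * t * p1 + t ^ 2 * p2) * Q * (b * (X + 2 * t * x1 + t ^ 2 * x2))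
          + Q ^ 2 * (a + 4 * t * a1 + 6 * t ^ 2 * a2 + 4 * t ^ 3 * a3 + t ^ 4 * a4)) →
      |p1 - (a1 - b * x1)| ≤ C * Real.sqrt e := by
  obtain ⟨C, hC, hq⟩ := quartic (K := 72 * R ^ 5) (by positivity)
  have hR0 : 0 < R := by linarith
  refine ⟨(C * (2 * R) + 32 * R ^ 4) / (4 * d0), by positivity, ?_⟩
  intro P Q a m X b p1 p2 x1 x2 a1 a2 a3 a4 A e hP hQ ha hm hX hb hp1 hp2 hx1 hx2 ha1 ha2 ha3 ha4 hA
    eP eQ he he0 he1 hd hF
  have mul2 : ∀ {u v M N : ℝ}, |u| ≤ M → |v| ≤ N → |u * v| ≤ M * N := by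
    intro u v M N hu hv
    rw [abs_mul]
    exact mul_le_mul hu hv (abs_nonneg _) ((abs_nonneg _).trans hu)
  have add2 : ∀ {u v M N : ℝ}, |u| ≤ M → |v| ≤ N → |u + v| ≤ M + N := by
    intro u v M N hu hv
    exact (abs_add_le u v).trans (add_le_add hu hv)
  have sub2 : ∀ {u v M N : ℝ}, |u| ≤ M → |v| ≤ N → |u - v| ≤ M + N := by
    intro u v M N hu hv
    exact (abs_sub u v).trans (add_le_add hu hv)
  have cst : ∀ {u M : ℝ} (c : ℝ), 0 ≤ c → |u| ≤ M → |c * u| ≤ c * M := by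
    intro u M c hc hu
    rw [abs_mul, abs_of_nonneg hc]
    exact mul_le_mul_of_nonneg_left hu hc
  -- powers
  have r34 : R ^ 3 ≤ R ^ 5 := pow_le_pow_right₀ hR (by norm_num)
  have r45 : R ^ 4 ≤ R ^ 5 := pow_le_pow_right₀ hR (by norm_num)
  have r25 : R ^ 2 ≤ R ^ 5 := pow_le_pow_right₀ hR (by norm_num)
  set D := a * m - (b * X) ^ 2 with hD
  have hDpos : 0 < D := lt_of_lt_of_le hd0 hd
  have hDle : D ≤ R ^ 2 := by
    have h1 : |a * m| ≤ R * R := mul2 ha hm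
    have h2 := le_abs_self (a * m)
    have h3 : 0 ≤ (b * X) ^ 2 := sq_nonneg _
    nlinarith
  have hc := hq (4 * e * D)
    (4 * D * (p1 - (a1 - b * x1)) + 16 * e * (a1 * m - b * (b * X) * x1))
    ((4 * (p1 * p1) + 2 * (P * p2)) * m + 2 * (Q * b) * (P * x2 + 4 * (p1 * x1) + p2 * X)
      + 6 * (Q * Q * a2) - 4 * A * (6 * (a2 * m) - b * b * (4 * (x1 * x1) + 2 * (X * x2))))
    (4 * (p1 * p2) * m + 2 * (Q * b) * (2 * (p1 * x2) + 2 * (p2 * x1))
      + 4 * (Q * Q * a3) - 4 * A * (4 * (a3 * m) - b * b * (4 * (x1 * x2))))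
    (p2 * p2 * m + 2 * (Q * b) * (p2 * x2) + Q * Q * a4 - 4 * A * (a4 * m - b * b * (x2 * x2)))
    ?_ ?_ ?_ ?_ ?_
  · -- conclusion
    set g := p1 - (a1 - b * x1) with hg
    have h1 : Real.sqrt (4 * e * D) ≤ 2 * R * Real.sqrt e := by
      have : Real.sqrt (4 * e * D) ≤ Real.sqrt ((2 * R) ^ 2 * e) := by
        apply Real.sqrt_le_sqrt
        nlinarith
      rw [Real.sqrt_mul (by positivity : (0:ℝ) ≤ (2 * R) ^ 2), Real.sqrt_sq (by positivity)] at this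
      exact this
    have h2 : e ≤ Real.sqrt e := by
      rw [Real.le_sqrt he0 he0]
      nlinarith
    have h3 : |a1 * m - b * (b * X) * x1| ≤ 2 * R ^ 4 := by
      have i1 : |a1 * m| ≤ R * R := mul2 ha1 hm
      have i2 : |b * (b * X) * x1| ≤ R * (R * R) * R := mul2 (mul2 hb (mul2 hb hX)) hx1
      have i3 := sub2 i1 i2
      have i4 : R ^ 2 ≤ R ^ 4 := pow_le_pow_right₀ hR (by norm_num)
      calc |a1 * m - b * (b * X) * x1| ≤ R * R + R * (R * R) * R := i3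
        _ = R ^ 2 + R ^ 4 := by ring
        _ ≤ 2 * R ^ 4 := by linarith
    have h4 : |4 * D * g| ≤ C * (2 * R * Real.sqrt e) + 32 * R ^ 4 * Real.sqrt e := by
      have i1 : 4 * D * g = (4 * D * g + 16 * e * (a1 * m - b * (b * X) * x1))
          - 16 * e * (a1 * m - b * (b * X) * x1) := by ring
      rw [i1]
      refine (abs_sub _ _).trans (add_le_add ?_ ?_)
      · exact hc.trans (mul_le_mul_of_nonneg_left h1 hC.le)
      · rw [abs_mul, abs_of_nonneg (by positivity : (0:ℝ) ≤ 16 * e)]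
        calc 16 * e * |a1 * m - b * (b * X) * x1| ≤ 16 * e * (2 * R ^ 4) :=
              mul_le_mul_of_nonneg_left h3 (by positivity)
          _ = 32 * R ^ 4 * e := by ring
          _ ≤ 32 * R ^ 4 * Real.sqrt e := mul_le_mul_of_nonneg_left h2 (by positivity)
    have h5 : 4 * d0 * |g| ≤ |4 * D * g| := by
      rw [abs_mul, abs_of_pos (by positivity : (0:ℝ) < 4 * D)]
      exact mul_le_mul_of_nonneg_right (by linarith) (abs_nonneg _)
    rw [div_mul_eq_mul_div, le_div_iff₀ (by positivity)]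
    calc |g| * (4 * d0) = 4 * d0 * |g| := by ring
      _ ≤ _ := h5.trans h4
      _ = _ := by ring
  · -- c0
    have h7 : e * D ≤ 1 * R ^ 2 := mul_le_mul he1 hDle hDpos.le zero_le_one
    have := pow_pos hR0 5
    linarith
  · -- c2
    have := sub2 (add2 (add2 (mul2 (add2 (cst 4 (by norm_num) (mul2 hp1 hp1))
        (cst 2 (by norm_num) (mul2 hP hp2))) hm)
        (mul2 (cst 2 (by norm_num) (mul2 hQ hb)) (add2 (add2 (mul2 hP hx2)
          (cst 4 (by norm_num) (mul2 hp1 hx1))) (mul2 hp2 hX))))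
        (cst 6 (by norm_num) (mul2 (mul2 hQ hQ) ha2)))
        (mul2 (cst 4 (by norm_num) hA) (sub2 (cst 6 (by norm_num) (mul2 ha2 hm))
          (mul2 (mul2 hb hb) (add2 (cst 4 (by norm_num) (mul2 hx1 hx1))
            (cst 2 (by norm_num) (mul2 hX hx2))))))
    refine this.trans ?_
    have e1 : (4 * (R * R) + 2 * (R * R)) * R + 2 * (R * R) * (R * R + 4 * (R * R) + R * R)
        + 6 * (R * R * R) + 4 * R * (6 * (R * R) + R * R * (4 * (R * R) + 2 * (R * R)))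
        = 36 * R ^ 3 + 12 * R ^ 4 + 24 * R ^ 5 := by ring
    rw [e1]
    have := pow_pos hR0 5
    linarith
  · -- c3
    have := sub2 (add2 (add2 (mul2 (cst 4 (by norm_num) (mul2 hp1 hp2)) hm)
        (mul2 (cst 2 (by norm_num) (mul2 hQ hb)) (add2 (cst 2 (by norm_num) (mul2 hp1 hx2))
          (cst 2 (by norm_num) (mul2 hp2 hx1)))))
        (cst 4 (by norm_num) (mul2 (mul2 hQ hQ) ha3)))
        (mul2 (cst 4 (by norm_num) hA) (sub2 (cst 4 (by norm_num) (mul2 ha3 hm))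
          (mul2 (mul2 hb hb) (cst 4 (by norm_num) (mul2 hx1 hx2)))))
    refine this.trans ?_
    have e1 : 4 * (R * R) * R + 2 * (R * R) * (2 * (R * R) + 2 * (R * R))
        + 4 * (R * R * R) + 4 * R * (4 * (R * R) + R * R * (4 * (R * R)))
        = 24 * R ^ 3 + 8 * R ^ 4 + 16 * R ^ 5 := by ring
    rw [e1]
    have := pow_pos hR0 5
    linarith
  · -- c4
    have := sub2 (add2 (add2 (mul2 (mul2 hp2 hp2) hm)
        (mul2 (cst 2 (by norm_num) (mul2 hQ hb)) (mul2 hp2 hx2)))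
        (mul2 (mul2 hQ hQ) ha4))
        (mul2 (cst 4 (by norm_num) hA) (sub2 (mul2 ha4 hm)
          (mul2 (mul2 hb hb) (mul2 hx2 hx2))))
    refine this.trans ?_
    have e1 : R * R * R + 2 * (R * R) * (R * R) + R * R * R
        + 4 * R * (R * R + R * R * (R * R)) = 6 * R ^ 3 + 2 * R ^ 4 + 4 * R ^ 5 := by ring
    rw [e1]
    have := pow_pos hR0 5
    linarith
  · -- positivity of the quartic
    intro t
    have h := hF t
    have hA' : A = (P + Q) / 4 - e := by linarith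
    have key : 4 * e * D
        + (4 * D * (p1 - (a1 - b * x1)) + 16 * e * (a1 * m - b * (b * X) * x1)) * t
        + ((4 * (p1 * p1) + 2 * (P * p2)) * m + 2 * (Q * b) * (P * x2 + 4 * (p1 * x1) + p2 * X)
          + 6 * (Q * Q * a2) - 4 * A * (6 * (a2 * m) - b * b * (4 * (x1 * x1) + 2 * (X * x2))))
          * t ^ 2
        + (4 * (p1 * p2) * m + 2 * (Q * b) * (2 * (p1 * x2) + 2 * (p2 * x1))
          + 4 * (Q * Q * a3) - 4 * A * (4 * (a3 * m) - b * b * (4 * (x1 * x2)))) * t ^ 3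
        + (p2 * p2 * m + 2 * (Q * b) * (p2 * x2) + Q * Q * a4
          - 4 * A * (a4 * m - b * b * (x2 * x2))) * t ^ 4
        = ((P + 2 * t * p1 + t ^ 2 * p2) ^ 2 * m
          + 2 * (P + 2 * t * p1 + t ^ 2 * p2) * Q * (b * (X + 2 * t * x1 + t ^ 2 * x2))
          + Q ^ 2 * (a + 4 * t * a1 + 6 * t ^ 2 * a2 + 4 * t ^ 3 * a3 + t ^ 4 * a4))
          - 4 * A * ((a + 4 * t * a1 + 6 * t ^ 2 * a2 + 4 * t ^ 3 * a3 + t ^ 4 * a4) * m
          - (b * (X + 2 * t * x1 + t ^ 2 * x2)) ^ 2) := by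
      rw [hA', hD, eP, eQ]
      ring
    rw [key]
    linarith

private theorem fn_smul_ae (c : ℝ) (x : D) : (fn (c • x) : E4 → ℝ) =ᵐ[volume] fun p => c * fn x p := by
  rw [map_smul]
  filter_upwards [Lp.coeFn_smul c (fn x)] with p hp
  rw [hp]
  rfl

private theorem int_smul (c : ℝ) (φ : D) (f : E4 → ℝ) :
    ∫ p, f p * fn (c • φ) p = c * ∫ p, f p * fn φ p := by
  rw [← integral_const_mul]
  apply integral_congr_ae
  filter_upwards [fn_smul_ae c φ] with p hp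
  rw [hp]
  ring

private theorem PB_smul_right (lam c : ℝ) (x φ : D) : PB lam x (c • φ) = c * PB lam x φ := by
  unfold PB
  rw [int_smul]
  have := real_inner_smul_right x φ c
  rw [this]
  ring

private theorem X_abs_le (x y : D) : |X x y| ≤ ‖fn x‖ ^ 2 * ‖fn y‖ ^ 2 := by
  rw [abs_of_nonneg (X_nonneg x y)]
  exact X_le x y

private theorem int_xyy (x y φ : D) :
    |∫ p, fn x p * fn y p ^ 2 * fn φ p| ≤ ‖fn x‖ * ‖fn y‖ * ‖fn y‖ * ‖fn φ‖ := by
  refine le_trans ?_ (integral_abs_mul4 (fn x) (fn y) (fn y) (fn φ))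
  refine (abs_integral_le_integral_abs).trans ?_
  apply le_of_eq
  congr 1
  funext p
  congr 1
  ring

private theorem ps_one {lam th b : ℝ} (h0 : 0 < lam) (h1 : lam < Lam) (h2 : 0 < th) (h3 : th < Lam)
    (hb : 0 < b) : ∃ C : ℝ, 0 < C ∧ ∀ z ∈ Nb lam th b,
    (P lam z.1 + P th z.2) / 4 ≤ A lam th b + 1 → ∀ φ ∈ H B,
    |PB lam z.1 φ - ((∫ p, fn z.1 p ^ 3 * fn φ p) - b * ∫ p, fn z.1 p * fn z.2 p ^ 2 * fn φ p)| ≤
      C * Real.sqrt ((P lam z.1 + P th z.2) / 4 - A lam th b) * ‖φ‖ := by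
  have hLam := Lam_pos
  have hA0 := A_nonneg h0 h1 h2 h3 hb
  have hc1 : 0 < 1 - lam / Lam := by
    rw [sub_pos, div_lt_one hLam]; exact h1
  have hc2 : 0 < 1 - th / Lam := by
    rw [sub_pos, div_lt_one hLam]; exact h3
  set E := 4 * (A lam th b + 1) with hE
  have hE0 : 0 < E := by positivity
  set Mx := Real.sqrt (E / (1 - lam / Lam)) with hMx
  set My := Real.sqrt (E / (1 - th / Lam)) with hMy
  have hMx0 : 0 ≤ Mx := Real.sqrt_nonneg _
  have hMy0 : 0 ≤ My := Real.sqrt_nonneg _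
  set T := 1 + ‖(fn : D →L[ℝ] L4)‖ * (1 + Mx + My) with hT
  have hT1 : 1 ≤ T := by
    have : 0 ≤ ‖(fn : D →L[ℝ] L4)‖ * (1 + Mx + My) := by positivity
    linarith
  set R := T ^ 4 + E / (1 - lam / Lam) + E / (1 - th / Lam) + b + A lam th b + 2 with hR
  have hT4 : 1 ≤ T ^ 4 := one_le_pow₀ hT1
  have hq1 := q_pos h0 h1
  have hq2 := q_pos h2 h3
  have hEx : 0 < E / (1 - lam / Lam) := by positivity
  have hEy : 0 < E / (1 - th / Lam) := by positivity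
  have hR1 : 1 ≤ R := by linarith
  have hTR : T ^ 4 ≤ R := by linarith
  obtain ⟨C, hC, hcore⟩ := ps_core hR1 (d0 := q lam ^ 2 * q th ^ 2) (by positivity)
  refine ⟨C, hC, ?_⟩
  rintro ⟨x, y⟩ hz hen φ hφ
  obtain ⟨hx, hy, hx0, hy0, e1, e2⟩ := id hz
  simp only at hx hy hx0 hy0 e1 e2 hen ⊢
  have hPx0 : 0 ≤ P lam x := le_trans (by positivity) (P_coer h0 h1 hx)
  have hPy0 : 0 ≤ P th y := le_trans (by positivity) (P_coer h2 h3 hy)
  have hPxE : P lam x ≤ E := by linarith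
  have hPyE : P th y ≤ E := by linarith
  have hnx2 : ‖x‖ ^ 2 ≤ E / (1 - lam / Lam) := by
    rw [le_div_iff₀ hc1]
    calc ‖x‖ ^ 2 * (1 - lam / Lam) = (1 - lam / Lam) * ‖x‖ ^ 2 := by ring
      _ ≤ _ := (P_coer h0 h1 hx).trans hPxE
  have hny2 : ‖y‖ ^ 2 ≤ E / (1 - th / Lam) := by
    rw [le_div_iff₀ hc2]
    calc ‖y‖ ^ 2 * (1 - th / Lam) = (1 - th / Lam) * ‖y‖ ^ 2 := by ring
      _ ≤ _ := (P_coer h2 h3 hy).trans hPyE
  have hnx : ‖x‖ ≤ Mx := Real.le_sqrt_of_sq_le hnx2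
  have hny : ‖y‖ ≤ My := Real.le_sqrt_of_sq_le hny2
  have hN0 : 0 ≤ ‖(fn : D →L[ℝ] L4)‖ := fn.opNorm_nonneg
  have hfx : ‖fn x‖ ≤ T := by
    refine (fn.le_opNorm x).trans ?_
    have : ‖(fn : D →L[ℝ] L4)‖ * ‖x‖ ≤ ‖(fn : D →L[ℝ] L4)‖ * (1 + Mx + My) :=
      mul_le_mul_of_nonneg_left (by linarith) hN0
    linarith
  have hfy : ‖fn y‖ ≤ T := by
    refine (fn.le_opNorm y).trans ?_
    have : ‖(fn : D →L[ℝ] L4)‖ * ‖y‖ ≤ ‖(fn : D →L[ℝ] L4)‖ * (1 + Mx + My) :=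
      mul_le_mul_of_nonneg_left (by linarith) hN0
    linarith
  -- the estimate for unit vectors
  have main : ∀ ψ ∈ H B, ‖ψ‖ = 1 →
      |PB lam x ψ - ((∫ p, fn x p ^ 3 * fn ψ p) - b * ∫ p, fn x p * fn y p ^ 2 * fn ψ p)| ≤
      C * Real.sqrt ((P lam x + P th y) / 4 - A lam th b) := by
    intro ψ hψ hψ1
    have hfψ : ‖fn ψ‖ ≤ T := by
      refine (fn.le_opNorm ψ).trans ?_
      rw [hψ1]
      have : ‖(fn : D →L[ℝ] L4)‖ * 1 ≤ ‖(fn : D →L[ℝ] L4)‖ * (1 + Mx + My) :=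
        mul_le_mul_of_nonneg_left (by linarith) hN0
      linarith
    have hPψ : P lam ψ ≤ 1 := by
      have := P_le h0 ψ
      rw [hψ1] at this
      linarith
    have hPψ0 : 0 ≤ P lam ψ := le_trans (by positivity) (P_coer h0 h1 hψ)
    have hT0 : 0 ≤ T := by linarith
    have bd4 : ∀ u v w k : ℝ, 0 ≤ u → 0 ≤ v → 0 ≤ w → 0 ≤ k → u ≤ T → v ≤ T → w ≤ T → k ≤ T →
        u * v * w * k ≤ R := by
      intro u v w k hu hv hw hk hu' hv' hw' hk'
      refine le_trans ?_ hTR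
      calc u * v * w * k ≤ T * T * T * T := by gcongr
        _ = T ^ 4 := by ring
    have m4bd : ∀ u : D, ‖fn u‖ ≤ T → |m4 u| ≤ R := by
      intro u hu
      rw [m4_eq, abs_of_nonneg (by positivity)]
      have := bd4 _ _ _ _ (norm_nonneg (fn u)) (norm_nonneg (fn u)) (norm_nonneg (fn u))
        (norm_nonneg (fn u)) hu hu hu hu
      calc ‖fn u‖ ^ 4 = ‖fn u‖ * ‖fn u‖ * ‖fn u‖ * ‖fn u‖ := by ring
        _ ≤ R := this
    have Xbd : ∀ u v : D, ‖fn u‖ ≤ T → ‖fn v‖ ≤ T → |X u v| ≤ R := by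
      intro u v hu hv
      refine (X_abs_le u v).trans ?_
      have := bd4 _ _ _ _ (norm_nonneg (fn u)) (norm_nonneg (fn u)) (norm_nonneg (fn v))
        (norm_nonneg (fn v)) hu hu hv hv
      calc ‖fn u‖ ^ 2 * ‖fn v‖ ^ 2 = ‖fn u‖ * ‖fn u‖ * ‖fn v‖ * ‖fn v‖ := by ring
        _ ≤ R := this
    have cbd : ∀ u v : D, ‖fn u‖ ≤ T → ‖fn v‖ ≤ T → |∫ p, fn u p ^ 3 * fn v p| ≤ R := by
      intro u v hu hv
      refine (abs_integral_cube_mul (fn u) (fn v)).trans ?_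
      have := bd4 _ _ _ _ (norm_nonneg (fn u)) (norm_nonneg (fn u)) (norm_nonneg (fn u))
        (norm_nonneg (fn v)) hu hu hu hv
      calc ‖fn u‖ ^ 3 * ‖fn v‖ = ‖fn u‖ * ‖fn u‖ * ‖fn u‖ * ‖fn v‖ := by ring
        _ ≤ R := this
    have hp1 : |PB lam x ψ| ≤ R := by
      have hsq : PB lam x ψ ^ 2 ≤ P lam x := by
        have hnn : ∀ t : ℝ, 0 ≤ P lam ψ * (t * t) + 2 * PB lam x ψ * t + P lam x := by
          intro t
          have k1 := P_add_smul lam hx hψ t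
          have k2 : 0 ≤ P lam (x + t • ψ) :=
            le_trans (by positivity) (P_coer h0 h1 ((H B).add_mem hx ((H B).smul_mem t hψ)))
          rw [k1] at k2
          linarith
        have := discrim_le_zero hnn
        unfold discrim at this
        nlinarith
      have h5 : |PB lam x ψ| ≤ 1 + PB lam x ψ ^ 2 := by
        rw [abs_le]
        constructor <;> nlinarith [sq_nonneg (PB lam x ψ - 1), sq_nonneg (PB lam x ψ + 1)]
      have h6 : P lam x ≤ E / (1 - lam / Lam) := (P_le h0 x).trans hnx2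
      linarith
    refine hcore (P lam x) (P th y) (m4 x) (m4 y) (X x y) b (PB lam x ψ) (P lam ψ)
      (∫ p, fn x p * fn y p ^ 2 * fn ψ p) (X ψ y) (∫ p, fn x p ^ 3 * fn ψ p) (X x ψ)
      (∫ p, fn ψ p ^ 3 * fn x p) (m4 ψ) (A lam th b) ((P lam x + P th y) / 4 - A lam th b)
      ?_ ?_ (m4bd x hfx) (m4bd y hfy) (Xbd x y hfx hfy) ?_ hp1 ?_ ?_ (Xbd ψ y hfψ hfy)
      (cbd x ψ hfx hfψ) (Xbd x ψ hfx hfψ) (cbd ψ x hfψ hfx) (m4bd ψ hfψ) ?_ e1 e2 rfl ?_ ?_ ?_ ?_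
    · rw [abs_of_nonneg hPx0]
      have := (P_le h0 x).trans hnx2
      linarith
    · rw [abs_of_nonneg hPy0]
      have := (P_le h2 y).trans hny2
      linarith
    · rw [abs_of_pos hb]; linarith
    · rw [abs_of_nonneg hPψ0]; linarith
    · refine (int_xyy x y ψ).trans ?_
      exact bd4 _ _ _ _ (norm_nonneg (fn x)) (norm_nonneg (fn y)) (norm_nonneg (fn y))
        (norm_nonneg (fn ψ)) hfx hfy hfy hfψ
    · rw [abs_of_nonneg hA0]; linarith
    · have := A_le h0 h1 h2 h3 hb hz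
      simp only at this
      linarith
    · linarith
    · -- lower bound for the determinant
      have hX0 := X_nonneg x y
      have ha : 0 < m4 x := m4_pos hx0
      have hm : 0 < m4 y := m4_pos hy0
      have hqx := q_le h0 h1 hx
      have hqy := q_le h2 h3 hy
      have key : ∀ {Q s P' : ℝ}, 0 < Q → 0 ≤ s → 0 < s ^ 4 → Q * s ^ 2 ≤ P' → P' ≤ s ^ 4 →
          Q ^ 2 ≤ P' ∧ Q ^ 2 ≤ s ^ 4 := by
        intro Q s P' hQ hs hs4 k1 k2
        have hs0 : 0 < s := by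
          rcases hs.lt_or_eq with h | h
          · exact h
          · rw [← h] at hs4; simp at hs4
        have k3 : Q * s ^ 2 ≤ s ^ 2 * s ^ 2 := by
          have : s ^ 2 * s ^ 2 = s ^ 4 := by ring
          linarith
        have k4 : Q ≤ s ^ 2 := le_of_mul_le_mul_right k3 (by positivity)
        have k5 : Q * Q ≤ Q * s ^ 2 := mul_le_mul_of_nonneg_left k4 hQ.le
        constructor
        · nlinarith
        · nlinarith
      rw [m4_eq] at ha hm
      have bX : 0 ≤ b * X x y := mul_nonneg hb.le hX0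
      have kx := key hq1 (norm_nonneg (fn x)) ha hqx (by rw [← m4_eq]; linarith)
      have ky := key hq2 (norm_nonneg (fn y)) hm hqy (by rw [← m4_eq]; linarith)
      rw [← m4_eq] at kx ky
      have e3 : m4 x * m4 y - (b * X x y) ^ 2 = P lam x * m4 y + P th y * (b * X x y) := by
        rw [e1, e2]; ring
      rw [e3]
      have k6 : q lam ^ 2 * q th ^ 2 ≤ P lam x * m4 y :=
        mul_le_mul kx.1 ky.2 (by positivity) hPx0
      have k7 : 0 ≤ P th y * (b * X x y) := mul_nonneg hPy0 bX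
      linarith
    · intro t
      have hst := star h0 h1 h2 h3 hb ((H B).add_mem hx ((H B).smul_mem t hψ)) hy
      rw [m4_add_smul, X_add_smul, P_add_smul lam hx hψ t] at hst
      exact hst
  by_cases hφ0 : φ = 0
  · subst hφ0
    have z1 : PB lam x 0 = 0 := by
      have := PB_smul_right lam 0 x 0
      simpa using this
    have z2 : ∫ p, fn x p ^ 3 * fn (0:D) p = 0 := by
      simp
    have z3 : ∫ p, fn x p * fn y p ^ 2 * fn (0:D) p = 0 := by
      simp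
    rw [z1, z2, z3]
    simp
  · have hn : 0 < ‖φ‖ := norm_pos_iff.2 hφ0
    have := main (‖φ‖⁻¹ • φ) ((H B).smul_mem _ hφ) (by
      rw [norm_smul, norm_inv, norm_norm, inv_mul_cancel₀ hn.ne'])
    rw [PB_smul_right, int_smul ‖φ‖⁻¹ φ (fun p => fn x p ^ 3),
      int_smul ‖φ‖⁻¹ φ (fun p => fn x p * fn y p ^ 2)] at this
    have e4 : ‖φ‖⁻¹ * PB lam x φ - (‖φ‖⁻¹ * (∫ p, fn x p ^ 3 * fn φ p)
        - b * (‖φ‖⁻¹ * ∫ p, fn x p * fn y p ^ 2 * fn φ p))
        = ‖φ‖⁻¹ * (PB lam x φ - ((∫ p, fn x p ^ 3 * fn φ p)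
          - b * ∫ p, fn x p * fn y p ^ 2 * fn φ p)) := by ring
    rw [e4, abs_mul, abs_of_pos (inv_pos.2 hn), inv_mul_le_iff₀ hn] at this
    linarith

private theorem Nb_symm {lam th b : ℝ} {x y : D} (h : (x, y) ∈ Nb lam th b) :
    (y, x) ∈ Nb th lam b := by
  obtain ⟨k1, k2, k3, k4, k5, k6⟩ := h
  simp only at k1 k2 k3 k4 k5 k6
  refine ⟨k2, k1, k4, k3, ?_, ?_⟩
  · simp only
    rw [k6, X_comm x y]
  · simp only
    rw [k5, X_comm x y]

private theorem A_symm (lam th b : ℝ) : A lam th b = A th lam b := by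
  unfold A
  congr 1
  ext s
  constructor
  · rintro ⟨⟨x, y⟩, h, rfl⟩
    exact ⟨(y, x), Nb_symm h, by simp only; ring⟩
  · rintro ⟨⟨x, y⟩, h, rfl⟩
    exact ⟨(y, x), Nb_symm h, by simp only; ring⟩

/-- Points of `N_b` with energy close to `A` are almost critical for the full energy. -/
theorem ps_bound {lam th b : ℝ} (h0 : 0 < lam) (h1 : lam < Lam) (h2 : 0 < th) (h3 : th < Lam)
    (hb : 0 < b) : ∃ C : ℝ, 0 < C ∧ ∀ z ∈ Nb lam th b,
    (P lam z.1 + P th z.2) / 4 ≤ A lam th b + 1 → ∀ φ ∈ H B,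
    |PB lam z.1 φ - ((∫ p, fn z.1 p ^ 3 * fn φ p) - b * ∫ p, fn z.1 p * fn z.2 p ^ 2 * fn φ p)| ≤
      C * Real.sqrt ((P lam z.1 + P th z.2) / 4 - A lam th b) * ‖φ‖ ∧
    |PB th z.2 φ - ((∫ p, fn z.2 p ^ 3 * fn φ p) - b * ∫ p, fn z.1 p ^ 2 * fn z.2 p * fn φ p)| ≤
      C * Real.sqrt ((P lam z.1 + P th z.2) / 4 - A lam th b) * ‖φ‖ := by
  obtain ⟨C1, hC1, k1⟩ := ps_one h0 h1 h2 h3 hb
  obtain ⟨C2, hC2, k2⟩ := ps_one h2 h3 h0 h1 hb
  refine ⟨C1 + C2, by positivity, ?_⟩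
  rintro ⟨x, y⟩ hz hen φ hφ
  have r1 := k1 (x, y) hz hen φ hφ
  have r2 := k2 (y, x) (Nb_symm hz) (by
    rw [← A_symm]
    simp only at hen ⊢
    linarith) φ hφ
  simp only at r1 r2 ⊢
  rw [← A_symm lam th b, add_comm (P th y) (P lam x)] at r2
  have e5 : ∫ p, fn y p * fn x p ^ 2 * fn φ p = ∫ p, fn x p ^ 2 * fn y p * fn φ p := by
    congr 1
    funext p
    ring
  rw [e5] at r2
  have hs : 0 ≤ Real.sqrt ((P lam x + P th y) / 4 - A lam th b) * ‖φ‖ :=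
    mul_nonneg (Real.sqrt_nonneg _) (norm_nonneg _)
  constructor
  · refine r1.trans ?_
    rw [mul_assoc, mul_assoc]
    exact mul_le_mul_of_nonneg_right (by linarith) hs
  · refine r2.trans ?_
    rw [mul_assoc, mul_assoc]
    exact mul_le_mul_of_nonneg_right (by linarith) hs

end Pool.Agent.H57.BN
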