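import Pool.Agent.H57.BN.MinSeq
import Pool.Agent.H57.BN.Strict
import Pool.Agent.H57.BN.PS
import Pool.Agent.H57.BN.Bub
import Pool.Agent.H57.BN.MinPos

set_option autoImplicit false

open MeasureTheory Filter Topology Metric Set
open scoped ENNReal NNReal ContDiff Classical

namespace Pool.Agent.H57.BN

private theorem gs_P_nonneg {lam : ℝ} (h0 : 0 < lam) (h1 : lam < Lam) {x : D} (hx : x ∈ H B) :
    0 ≤ P lam x := by
  have hLam := Lam_pos
  have hc1 : 0 < 1 - lam / Lam := by
    rw [sub_pos, div_lt_one hLam]; exact h1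
  exact le_trans (by positivity) (P_coer h0 h1 hx)

/-- lower bounds for the energy along weakly convergent sequences -/
private theorem gs_low {lam : ℝ} (h0 : 0 < lam) (h1 : lam < Lam) {x : ℕ → D}
    (hx : ∀ n, x n ∈ H B) (hne : ∀ n, x n ≠ 0) (hP : ∀ n, P lam (x n) ≤ m4 (x n)) {u : D}
    (hu : WeakTo x u) : ∀ ε > 0, ∀ᶠ n in atTop, (if u = 0 then S ^ 2 else P lam u) - ε ≤
      P lam (x n) := by
  intro ε hε
  by_cases h : u = 0
  · rw [if_pos h]
    subst h
    exact bub h0 h1 hx hu hne hP hε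
  · rw [if_neg h]
    have h2 := P_weak (lam := lam) hx hu
    have h3 : ∀ᶠ n in atTop, P lam u - ε < P lam (x n) - ‖x n - u‖ ^ 2 :=
      h2.eventually (lt_mem_nhds (by linarith))
    filter_upwards [h3] with n hn
    have : 0 ≤ ‖x n - u‖ ^ 2 := by positivity
    linarith

private theorem gs_aux {lam th b : ℝ} (h0 : 0 < lam) (h1 : lam < Lam) (h2 : 0 < th) (h3 : th < lam)
    (hb : 0 < b) {x y : ℕ → D} {u v : D} (hN : ∀ n, (x n, y n) ∈ Nb lam th b)
    (hx0 : ∀ n, 0 ≤ᵐ[volume] (fn (x n) : E4 → ℝ)) (hy0 : ∀ n, 0 ≤ᵐ[volume] (fn (y n) : E4 → ℝ))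
    (hE : Tendsto (fun n => (P lam (x n) + P th (y n)) / 4) atTop (𝓝 (A lam th b)))
    (hu : WeakTo x u) (hv : WeakTo y v) : IsGS lam th b u v := by
  have h3' : th < Lam := h3.trans h1
  have hxB : ∀ n, x n ∈ H B := fun n => (hN n).1
  have hyB : ∀ n, y n ∈ H B := fun n => (hN n).2.1
  have hxn : ∀ n, x n ≠ 0 := fun n => (hN n).2.2.1
  have hyn : ∀ n, y n ≠ 0 := fun n => (hN n).2.2.2.1
  have ePx : ∀ n, P lam (x n) = m4 (x n) - b * X (x n) (y n) := fun n => (hN n).2.2.2.2.1
  have ePy : ∀ n, P th (y n) = m4 (y n) - b * X (x n) (y n) := fun n => (hN n).2.2.2.2.2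
  have hX : ∀ n, 0 ≤ b * X (x n) (y n) := fun n => mul_nonneg hb.le (X_nonneg _ _)
  have huB : u ∈ H B := hu.mem hxB
  have hvB : v ∈ H B := hv.mem hyB
  obtain ⟨C, hC, hps⟩ := ps_bound h0 h1 h2 h3' hb
  have evE : ∀ᶠ n in atTop, (P lam (x n) + P th (y n)) / 4 ≤ A lam th b + 1 :=
    (hE.eventually (gt_mem_nhds (by linarith : A lam th b < A lam th b + 1))).mono
      fun n hn => hn.le
  have hsq : ∀ φ : D, Tendsto (fun n => C * Real.sqrt ((P lam (x n) + P th (y n)) / 4
      - A lam th b) * ‖φ‖) atTop (𝓝 0) := by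
    intro φ
    have k1 := (hE.sub_const (A lam th b)).sqrt
    rw [sub_self, Real.sqrt_zero] at k1
    have k2 := (k1.const_mul C).mul_const ‖φ‖
    simpa using k2
  have hsol : IsSol lam th b u v := by
    constructor
    · intro φ hφ
      have t1 := ((tendsto_PB lam hu hxB hφ).sub
        ((tendsto_cube hu φ).sub ((tendsto_mixed hu hv φ).const_mul b)))
      have t2 : Tendsto (fun n => PB lam (x n) φ - ((∫ p, fn (x n) p ^ 3 * fn φ p)
          - b * ∫ p, fn (x n) p * fn (y n) p ^ 2 * fn φ p)) atTop (𝓝 0) := by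
        refine squeeze_zero_norm' ?_ (hsq φ)
        filter_upwards [evE] with n hn
        exact (hps (x n, y n) (hN n) hn φ hφ).1
      have := tendsto_nhds_unique t1 t2
      linarith
    · intro φ hφ
      have t1 := ((tendsto_PB th hv hyB hφ).sub
        ((tendsto_cube hv φ).sub ((tendsto_mixed hv hu φ).const_mul b)))
      have t2 : Tendsto (fun n => PB th (y n) φ - ((∫ p, fn (y n) p ^ 3 * fn φ p)
          - b * ∫ p, fn (y n) p * fn (x n) p ^ 2 * fn φ p)) atTop (𝓝 0) := by
        refine squeeze_zero_norm' ?_ (hsq φ)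
        filter_upwards [evE] with n hn
        have k := (hps (x n, y n) (hN n) hn φ hφ).2
        have e5 : ∫ p, fn (y n) p * fn (x n) p ^ 2 * fn φ p
            = ∫ p, fn (x n) p ^ 2 * fn (y n) p * fn φ p := by
          congr 1
          funext p
          ring
        rw [e5]
        exact k
      have := tendsto_nhds_unique t1 t2
      have e5 : ∫ p, fn v p * fn u p ^ 2 * fn φ p = ∫ p, fn u p ^ 2 * fn v p * fn φ p := by
        congr 1
        funext p
        ring
      rw [e5] at this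
      linarith
  -- Nehari identities for the limit
  have ePu : P lam u = m4 u - b * X u v := by
    have := hsol.1 u huB
    rw [P_self] at this
    rw [this]
    have e6 : ∫ p, fn u p ^ 3 * fn u p = m4 u := by
      unfold m4
      refine integral_congr_ae (Eventually.of_forall fun p => ?_)
      show _ = _
      ring
    have e7 : ∫ p, fn u p * fn v p ^ 2 * fn u p = X u v := by
      unfold X
      congr 1
      funext p
      ring
    rw [e6, e7]
  have ePv : P th v = m4 v - b * X u v := by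
    have := hsol.2 v hvB
    rw [P_self] at this
    rw [this]
    have e6 : ∫ p, fn v p ^ 3 * fn v p = m4 v := by
      unfold m4
      refine integral_congr_ae (Eventually.of_forall fun p => ?_)
      show _ = _
      ring
    have e7 : ∫ p, fn u p ^ 2 * fn v p * fn v p = X u v := by
      unfold X
      congr 1
      funext p
      ring
    rw [e6, e7]
  have hXuv : 0 ≤ b * X u v := mul_nonneg hb.le (X_nonneg _ _)
  -- energy bound
  have lowx := gs_low h0 h1 hxB hxn (fun n => by rw [ePx]; linarith [hX n]) hu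
  have lowy := gs_low h2 h3' hyB hyn (fun n => by rw [ePy]; linarith [hX n]) hv
  have low : (if u = 0 then S ^ 2 else P lam u) + (if v = 0 then S ^ 2 else P th v) ≤
      4 * A lam th b := by
    refine le_of_forall_pos_le_add fun ε hε => ?_
    have hε2 : 0 < ε / 2 := by positivity
    have k : ((if u = 0 then S ^ 2 else P lam u) - ε / 2
        + ((if v = 0 then S ^ 2 else P th v) - ε / 2)) / 4 ≤ A lam th b := by
      refine ge_of_tendsto hE ?_
      filter_upwards [lowx _ hε2, lowy _ hε2] with n k1 k2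
      linarith
    linarith
  have hA := A_lt h0 h1 h2 h3' hb
  have hqS := q_lt_S h0
  have hq0 := q_pos h0 h1
  have hqq : q lam ^ 2 < S ^ 2 := by nlinarith
  have hqth := q_strict h2 h3 h1 hqS
  have hqth2 : q lam ^ 2 < q th ^ 2 := by nlinarith
  by_cases hu0 : u = 0
  · rw [if_pos hu0] at low
    by_cases hv0 : v = 0
    · rw [if_pos hv0] at low
      exfalso
      linarith
    · rw [if_neg hv0] at low
      exfalso
      have := P_ge_q h2 h3' hvB hv0 (by rw [ePv]; linarith)
      linarith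
  · rw [if_neg hu0] at low
    have hPu := P_ge_q h0 h1 huB hu0 (by rw [ePu]; linarith)
    by_cases hv0 : v = 0
    · rw [if_pos hv0] at low
      exfalso
      linarith
    · rw [if_neg hv0] at low
      have hmem : (u, v) ∈ Nb lam th b := ⟨huB, hvB, hu0, hv0, ePu, ePv⟩
      have hle := A_le h0 h1 h2 h3' hb hmem
      simp only at hle
      exact ⟨huB, hvB, hu0, hv0, hu.fn_nonneg hx0, hv.fn_nonneg hy0, hsol, by linarith⟩

/-- Existence of ground states for every `b > 0`. -/
theorem exists_gs {lam th b : ℝ} (h0 : 0 < lam) (h1 : lam < Lam) (h2 : 0 < th) (h3 : th < lam)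
    (hb : 0 < b) : ∃ x y : D, IsGS lam th b x y := by
  have h3' : th < Lam := h3.trans h1
  obtain ⟨x, y, hN, hx0, hy0, hE⟩ := exists_minseq h0 h1 h2 h3' hb
  have hLam := Lam_pos
  have hc1 : 0 < 1 - lam / Lam := by
    rw [sub_pos, div_lt_one hLam]; exact h1
  have hc2 : 0 < 1 - th / Lam := by
    rw [sub_pos, div_lt_one hLam]; exact h3'
  obtain ⟨M, hM⟩ := hE.bddAbove_range
  have hM' : ∀ n, (P lam (x n) + P th (y n)) / 4 ≤ M := fun n => hM ⟨n, rfl⟩
  have hPx : ∀ n, 0 ≤ P lam (x n) := fun n => gs_P_nonneg h0 h1 (hN n).1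
  have hPy : ∀ n, 0 ≤ P th (y n) := fun n => gs_P_nonneg h2 h3' (hN n).2.1
  have hbx : ∀ n, ‖x n‖ ≤ Real.sqrt (4 * M / (1 - lam / Lam)) := by
    intro n
    apply Real.le_sqrt_of_sq_le
    rw [le_div_iff₀ hc1]
    calc ‖x n‖ ^ 2 * (1 - lam / Lam) = (1 - lam / Lam) * ‖x n‖ ^ 2 := by ring
      _ ≤ P lam (x n) := P_coer h0 h1 (hN n).1
      _ ≤ 4 * M := by linarith [hM' n, hPy n]
  have hby : ∀ n, ‖y n‖ ≤ Real.sqrt (4 * M / (1 - th / Lam)) := by
    intro n
    apply Real.le_sqrt_of_sq_le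
    rw [le_div_iff₀ hc2]
    calc ‖y n‖ ^ 2 * (1 - th / Lam) = (1 - th / Lam) * ‖y n‖ ^ 2 := by ring
      _ ≤ P th (y n) := P_coer h2 h3' (hN n).2.1
      _ ≤ 4 * M := by linarith [hM' n, hPx n]
  obtain ⟨ψ, hψ, u, hu⟩ := exists_weak_subseq hbx
  obtain ⟨χ, hχ, v, hv⟩ := exists_weak_subseq (x := y ∘ ψ) (fun n => hby (ψ n))
  have hu' : WeakTo (fun n => x (ψ (χ n))) u := hu.comp hχ
  have hv' : WeakTo (fun n => y (ψ (χ n))) v := hv
  exact ⟨u, v, gs_aux h0 h1 h2 h3 hb (fun n => hN (ψ (χ n))) (fun n => hx0 (ψ (χ n)))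
    (fun n => hy0 (ψ (χ n))) (hE.comp ((hψ.comp hχ).tendsto_atTop)) hu' hv'⟩

end Pool.Agent.H57.BN
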