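import Pool.Agent.H57.BN.PoincC
import Pool.Agent.H57.BN.Base
import Pool.Agent.H57.BN.Hol

set_option autoImplicit false

open MeasureTheory Filter Topology Metric Set
open scoped ENNReal NNReal ContDiff

namespace Pool.Agent.H57.BN

/-- local `L¹` norm against the global `L^q` norm -/
theorem poinc_lint {F : Type} [NormedAddCommGroup F] {q : ℝ≥0∞} (hq : 1 ≤ q) (ρ : ℝ) :
    ∃ K : ℝ≥0∞, K ≠ ⊤ ∧ ∀ f : Lp F q (volume : Measure E4),
      ∫⁻ p in ball (0:E4) ρ, ‖f p‖ₑ ≤ ‖f‖ₑ * K := by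
  refine ⟨(volume.restrict (ball (0:E4) ρ)) Set.univ ^ (1 / (1:ℝ≥0∞).toReal - 1 / q.toReal), ?_, ?_⟩
  · rw [Measure.restrict_apply_univ]
    apply ENNReal.rpow_ne_top_of_nonneg
    · rcases eq_or_ne q ⊤ with h | h
      · rw [h]; simp
      · have h1 : 1 ≤ q.toReal := by
          have := ENNReal.toReal_mono h hq
          simpa using this
        have h2 : 1 / q.toReal ≤ 1 := by
          rw [div_le_one (by linarith)]
          exact h1
        simp only [ENNReal.toReal_one, div_one]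
        linarith
    · exact measure_ball_lt_top.ne
  · intro f
    have h1 := eLpNorm_le_eLpNorm_mul_rpow_measure_univ hq
      ((Lp.aestronglyMeasurable f).mono_measure
        (Measure.restrict_le_self (μ := (volume : Measure E4)) (s := ball (0:E4) ρ)))
    rw [eLpNorm_one_eq_lintegral_enorm] at h1
    refine h1.trans ?_
    gcongr
    rw [Lp.enorm_def]
    exact eLpNorm_mono_measure _ Measure.restrict_le_self

/-- the version for functions of `D` vanishing on `Z` -/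
theorem poinc_zero {ρ : ℝ} (hρ : 0 < ρ) : ∃ C : ℝ, 0 < C ∧ ∀ x : D, ∀ Z : Set E4,
    MeasurableSet Z → Z ⊆ ball (0:E4) ρ →
    (∀ᵐ p ∂(volume : Measure E4), p ∈ Z → fn x p = 0) →
    (volume Z).toReal * ∫ p in ball (0:E4) ρ, |fn x p| ≤ C * ∫ p in ball (0:E4) ρ, ‖gr x p‖ := by
  obtain ⟨C, hC, hP⟩ := poinc_C1 hρ
  refine ⟨C, hC, ?_⟩
  intro x Z hZ hZB hZ0
  obtain ⟨K1, hK1, hL1⟩ := poinc_lint (F := ℝ) (q := 4) (by norm_num) ρ
  obtain ⟨K2, hK2, hL2⟩ := poinc_lint (F := E4) (q := 2) (by norm_num) ρ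
  have hxu : x ∈ H univ := by rw [H_univ]; trivial
  obtain ⟨φ, hφ, hlim⟩ := mem_H_iff_seq.mp hxu
  have hB : volume (ball (0:E4) ρ) ≠ ⊤ := measure_ball_lt_top.ne
  have hZt : volume Z ≤ volume (ball (0:E4) ρ) := measure_mono hZB
  set A : ℝ≥0∞ := ∫⁻ p in ball (0:E4) ρ, ‖fn x p‖ₑ with hA
  set Gx : ℝ≥0∞ := ∫⁻ p in ball (0:E4) ρ, ‖gr x p‖ₑ with hGx
  have hAtop : A ≠ ⊤ := by
    refine ((hL1 (fn x)).trans_lt ?_).ne
    exact ENNReal.mul_lt_top enorm_lt_top (lt_top_iff_ne_top.mpr hK1)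
  have hGtop : Gx ≠ ⊤ := by
    refine ((hL2 (gr x)).trans_lt ?_).ne
    exact ENNReal.mul_lt_top enorm_lt_top (lt_top_iff_ne_top.mpr hK2)
  -- the inequality with an error term
  have hstep : ∀ n, volume Z * A ≤ ENNReal.ofReal C * (Gx + ‖gr (toD (hφ n)) - gr x‖ₑ * K2) +
      (volume (ball (0:E4) ρ) * (‖fn (toD (hφ n)) - fn x‖ₑ * K1) +
        volume (ball (0:E4) ρ) * (‖fn (toD (hφ n)) - fn x‖ₑ * K1)) := by
    intro n
    have hφc : Continuous (φ n) := (hφ n).smooth.continuous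
    have hφ1 : ContDiff ℝ 1 (φ n) := (hφ n).smooth.of_le (by norm_cast)
    have hxm : Measurable (fn x : E4 → ℝ) := (Lp.stronglyMeasurable (fn x)).measurable
    have hdm : Measurable (fun p => ‖φ n p - fn x p‖ₑ) := (hφc.measurable.sub hxm).enorm
    -- the local error
    have herr : ∫⁻ p in ball (0:E4) ρ, ‖φ n p - fn x p‖ₑ ≤ ‖fn (toD (hφ n)) - fn x‖ₑ * K1 := by
      refine (le_of_eq ?_).trans (hL1 (fn (toD (hφ n)) - fn x))
      apply lintegral_congr_ae
      apply ae_restrict_of_ae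
      filter_upwards [Lp.coeFn_sub (fn (toD (hφ n))) (fn x), fn_toD_ae (hφ n)] with p h1 h2
      rw [h1, Pi.sub_apply, h2]
    have hgerr : ∫⁻ p in ball (0:E4) ρ, ENNReal.ofReal ‖gradient (φ n) p‖ ≤
        Gx + ‖gr (toD (hφ n)) - gr x‖ₑ * K2 := by
      have h1 : ∫⁻ p in ball (0:E4) ρ, ENNReal.ofReal ‖gradient (φ n) p‖ ≤
          ∫⁻ p in ball (0:E4) ρ, (‖gr x p‖ₑ + ‖(gr (toD (hφ n)) - gr x : LV) p‖ₑ) := by
        apply lintegral_mono_ae
        apply ae_restrict_of_ae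
        filter_upwards [Lp.coeFn_sub (gr (toD (hφ n))) (gr x), gr_toD_ae (hφ n)] with p h1 h2
        rw [h1, Pi.sub_apply, h2, ofReal_norm]
        have h3 : gradient (φ n) p = gr x p + (gradient (φ n) p - gr x p) := by abel
        calc ‖gradient (φ n) p‖ₑ = ‖gr x p + (gradient (φ n) p - gr x p)‖ₑ := by rw [← h3]
          _ ≤ _ := enorm_add_le _ _
      refine h1.trans ?_
      rw [lintegral_add_left (Lp.stronglyMeasurable (gr x)).enorm]
      gcongr
      exact hL2 _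
    have hprod : volume Z * A = ∫⁻ p in ball (0:E4) ρ, ∫⁻ p' in Z, ‖fn x p‖ₑ := by
      simp only [setLIntegral_const]
      rw [lintegral_mul_const _ hxm.enorm, mul_comm]
    rw [hprod]
    have hpt : ∫⁻ p in ball (0:E4) ρ, ∫⁻ p' in Z, ‖fn x p‖ₑ ≤
        ∫⁻ p in ball (0:E4) ρ, ∫⁻ p' in Z, (ENNReal.ofReal |φ n p - φ n p'| +
          (‖φ n p - fn x p‖ₑ + ‖φ n p' - fn x p'‖ₑ)) := by
      apply lintegral_mono
      intro p
      apply lintegral_mono_ae
      have hZ1 : ∀ᵐ p' ∂(volume.restrict Z), p' ∈ Z := ae_restrict_mem hZ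
      filter_upwards [hZ1, ae_restrict_of_ae hZ0] with p' h1 h2
      have h3 : fn x p' = 0 := h2 h1
      have h4 : fn x p = (φ n p - φ n p') + (-(φ n p - fn x p) + (φ n p' - fn x p')) := by
        rw [h3]; ring
      calc ‖fn x p‖ₑ = ‖(φ n p - φ n p') + (-(φ n p - fn x p) + (φ n p' - fn x p'))‖ₑ := by
            rw [← h4]
        _ ≤ ‖φ n p - φ n p'‖ₑ + ‖-(φ n p - fn x p) + (φ n p' - fn x p')‖ₑ := enorm_add_le _ _
        _ ≤ ‖φ n p - φ n p'‖ₑ + (‖-(φ n p - fn x p)‖ₑ + ‖φ n p' - fn x p'‖ₑ) := by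
            gcongr
            exact enorm_add_le _ _
        _ = _ := by
            rw [enorm_neg, Real.enorm_eq_ofReal_abs (φ n p - φ n p')]
    refine hpt.trans ?_
    have hm1 : Measurable (fun z : E4 × E4 => ENNReal.ofReal |φ n z.1 - φ n z.2|) := by
      apply Measurable.ennreal_ofReal
      apply Continuous.measurable
      fun_prop
    have hsplit : ∀ p : E4, ∫⁻ p' in Z, (ENNReal.ofReal |φ n p - φ n p'| +
          (‖φ n p - fn x p‖ₑ + ‖φ n p' - fn x p'‖ₑ)) =
        (∫⁻ p' in Z, ENNReal.ofReal |φ n p - φ n p'|) +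
          (‖φ n p - fn x p‖ₑ * volume Z + ∫⁻ p' in Z, ‖φ n p' - fn x p'‖ₑ) := by
      intro p
      have hm2 : Measurable (fun p' : E4 => ENNReal.ofReal |φ n p - φ n p'|) :=
        hm1.comp (measurable_const.prodMk measurable_id)
      rw [lintegral_add_left hm2, lintegral_add_left measurable_const, setLIntegral_const]
    simp only [hsplit]
    have hm3 : Measurable (fun p : E4 => ∫⁻ p' in Z, ENNReal.ofReal |φ n p - φ n p'|) :=
      hm1.lintegral_prod_right'
    rw [lintegral_add_left hm3, lintegral_add_left (hdm.mul_const _), lintegral_mul_const _ hdm,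
      setLIntegral_const]
    gcongr ?_ + (?_ + ?_)
    · calc ∫⁻ p in ball (0:E4) ρ, ∫⁻ p' in Z, ENNReal.ofReal |φ n p - φ n p'|
          ≤ ∫⁻ p in ball (0:E4) ρ, ∫⁻ p' in ball (0:E4) ρ, ENNReal.ofReal |φ n p - φ n p'| := by
            apply lintegral_mono
            intro p
            exact lintegral_mono_set hZB
        _ ≤ ENNReal.ofReal C * ∫⁻ p in ball (0:E4) ρ, ENNReal.ofReal ‖gradient (φ n) p‖ :=
            hP _ hφ1
        _ ≤ _ := by gcongr
    · rw [mul_comm]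
      gcongr
    · rw [mul_comm]
      gcongr
      exact (lintegral_mono_set hZB).trans herr
  -- the limit
  have hfnlim : Tendsto (fun n => ‖fn (toD (hφ n)) - fn x‖ₑ) atTop (𝓝 0) := by
    have h1 : Tendsto (fun n => fn (toD (hφ n)) - fn x) atTop (𝓝 (fn x - fn x)) :=
      ((fn.continuous.tendsto x).comp hlim).sub tendsto_const_nhds
    have h2 := h1.enorm
    simpa using h2
  have hgrlim : Tendsto (fun n => ‖gr (toD (hφ n)) - gr x‖ₑ) atTop (𝓝 0) := by
    have h0 : Tendsto (fun n => gr (toD (hφ n))) atTop (𝓝 (gr x)) :=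
      (continuous_subtype_val.tendsto x).comp hlim
    have h1 : Tendsto (fun n => gr (toD (hφ n)) - gr x) atTop (𝓝 (gr x - gr x)) :=
      h0.sub tendsto_const_nhds
    have h2 := h1.enorm
    simpa using h2
  have hfinal : volume Z * A ≤ ENNReal.ofReal C * Gx := by
    have hT : Tendsto (fun n => ENNReal.ofReal C * (Gx + ‖gr (toD (hφ n)) - gr x‖ₑ * K2) +
      (volume (ball (0:E4) ρ) * (‖fn (toD (hφ n)) - fn x‖ₑ * K1) +
        volume (ball (0:E4) ρ) * (‖fn (toD (hφ n)) - fn x‖ₑ * K1))) atTop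
        (𝓝 (ENNReal.ofReal C * (Gx + 0 * K2) +
          (volume (ball (0:E4) ρ) * (0 * K1) + volume (ball (0:E4) ρ) * (0 * K1)))) := by
      have ha : Tendsto (fun n => ‖gr (toD (hφ n)) - gr x‖ₑ * K2) atTop (𝓝 (0 * K2)) :=
        ENNReal.Tendsto.mul_const hgrlim (Or.inr hK2)
      have hb : Tendsto (fun n => ‖fn (toD (hφ n)) - fn x‖ₑ * K1) atTop (𝓝 (0 * K1)) :=
        ENNReal.Tendsto.mul_const hfnlim (Or.inr hK1)
      have hc : Tendsto (fun n => volume (ball (0:E4) ρ) * (‖fn (toD (hφ n)) - fn x‖ₑ * K1)) atTop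
          (𝓝 (volume (ball (0:E4) ρ) * (0 * K1))) :=
        ENNReal.Tendsto.const_mul hb (Or.inr hB)
      have hd : Tendsto (fun n => ENNReal.ofReal C * (Gx + ‖gr (toD (hφ n)) - gr x‖ₑ * K2)) atTop
          (𝓝 (ENNReal.ofReal C * (Gx + 0 * K2))) :=
        ENNReal.Tendsto.const_mul (tendsto_const_nhds.add ha) (Or.inr ENNReal.ofReal_ne_top)
      exact hd.add (hc.add hc)
    have h1 := ge_of_tendsto' hT hstep
    simpa using h1
  -- back to real integrals
  have hA2 : ∫ p in ball (0:E4) ρ, |fn x p| = A.toReal := by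
    rw [integral_eq_lintegral_of_nonneg_ae (Eventually.of_forall fun p => abs_nonneg _)
      ((Lp.aestronglyMeasurable (fn x)).norm.mono_measure Measure.restrict_le_self)]
    congr 1
    apply lintegral_congr
    intro p
    rw [Real.enorm_eq_ofReal_abs]
  have hG2 : ∫ p in ball (0:E4) ρ, ‖gr x p‖ = Gx.toReal := by
    rw [integral_eq_lintegral_of_nonneg_ae (Eventually.of_forall fun p => norm_nonneg _)
      ((Lp.aestronglyMeasurable (gr x)).norm.mono_measure Measure.restrict_le_self)]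
    congr 1
    apply lintegral_congr
    intro p
    rw [ofReal_norm]
  rw [hA2, hG2, ← ENNReal.toReal_mul]
  have h2 : C * Gx.toReal = (ENNReal.ofReal C * Gx).toReal := by
    rw [ENNReal.toReal_mul, ENNReal.toReal_ofReal hC.le]
  rw [h2]
  apply ENNReal.toReal_mono _ hfinal
  exact ENNReal.mul_ne_top ENNReal.ofReal_ne_top hGtop

end Pool.Agent.H57.BN
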