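import Pool.Agent.H57.BN.LogT
import Pool.Agent.H57.BN.Poinc

set_option autoImplicit false

open MeasureTheory Filter Topology Metric Set
open scoped ENNReal NNReal ContDiff

namespace Pool.Agent.H57.BN

/-- zero set alternative on a ball of radius `ρ < 1` -/
theorem smp_alt {x : D} (hx : x ∈ H B) (hx0 : 0 ≤ᵐ[volume] (fn x : E4 → ℝ)) {y : D}
    {b : ℝ} (hb : 0 < b)
    (hs : ∀ φ ∈ H B, 0 ≤ᵐ[volume] (fn φ : E4 → ℝ) →
      0 ≤ inner ℝ x φ + b * ∫ p, fn x p * fn y p ^ 2 * fn φ p) {ρ : ℝ} (hρ : 0 < ρ) (hρ1 : ρ < 1)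
    (hZ : volume {p | p ∈ ball (0:E4) ρ ∧ fn x p = 0} ≠ 0) :
    ∀ᵐ p ∂(volume : Measure E4), p ∈ ball (0:E4) ρ → fn x p = 0 := by
  obtain ⟨C, hC, hP⟩ := poinc_zero hρ
  obtain ⟨C1, hC1, hL⟩ := log_test hx hx0 hb hs hρ hρ1
  have hxm : Measurable (fn x : E4 → ℝ) := (Lp.stronglyMeasurable (fn x)).measurable
  set Z : Set E4 := {p | p ∈ ball (0:E4) ρ ∧ fn x p = 0} with hZdef
  have hZm : MeasurableSet Z := measurableSet_ball.inter (hxm (measurableSet_singleton (0:ℝ)))
  have hZB : Z ⊆ ball (0:E4) ρ := fun p hp => hp.1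
  have hB : volume (ball (0:E4) ρ) < ⊤ := measure_ball_lt_top
  have hZt : volume Z ≠ ⊤ := ((measure_mono hZB).trans_lt hB).ne
  have hz : 0 < (volume Z).toReal := ENNReal.toReal_pos hZ hZt
  by_contra hcon
  -- a set of positive measure on which `x` is bounded below
  have hex : ∃ k : ℕ, volume {p | p ∈ ball (0:E4) ρ ∧ (1:ℝ) / (k + 1) ≤ fn x p} ≠ 0 := by
    by_contra h
    push Not at h
    apply hcon
    have h1 : ∀ᵐ p ∂(volume : Measure E4), ∀ k : ℕ,
        ¬ (p ∈ ball (0:E4) ρ ∧ (1:ℝ) / (k + 1) ≤ fn x p) := by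
      rw [ae_all_iff]
      intro k
      rw [ae_iff]
      simpa using h k
    filter_upwards [h1, hx0] with p h2 h3 h4
    by_contra h5
    have h6 : 0 < fn x p := lt_of_le_of_ne h3 (Ne.symm h5)
    obtain ⟨k, hk⟩ := exists_nat_one_div_lt h6
    exact h2 k ⟨h4, hk.le⟩
  obtain ⟨k, hk⟩ := hex
  set δ : ℝ := (1:ℝ) / (k + 1) with hδdef
  have hδ : 0 < δ := by positivity
  set E : Set E4 := {p | p ∈ ball (0:E4) ρ ∧ δ ≤ fn x p} with hEdef
  have hEm : MeasurableSet E := measurableSet_ball.inter (hxm measurableSet_Ici)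
  have hEB : E ⊆ ball (0:E4) ρ := fun p hp => hp.1
  have hEt : volume E ≠ ⊤ := ((measure_mono hEB).trans_lt hB).ne
  have hm : 0 < (volume E).toReal := ENNReal.toReal_pos hk hEt
  set K : ℝ := C * ((volume (ball (0:E4) ρ)).toReal + C1) with hK
  set T : ℝ := K / ((volume Z).toReal * (volume E).toReal) + 1 with hT
  have hK0 : 0 < K := by positivity
  have hT0 : 0 < T := by positivity
  set ε : ℝ := δ / Real.exp T with hε
  have hε0 : 0 < ε := by positivity
  obtain ⟨l, hl, hlg⟩ := hL ε hε0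
  have hl0 : ∀ᵐ p ∂(volume : Measure E4), p ∈ Z → fn l p = 0 := by
    filter_upwards [hl] with p h1 h2
    rw [h1, h2.2]
    simp
  have h1 := hP l Z hZm hZB hl0
  -- gradient side
  have hIg2 : Integrable (fun p => ‖gr l p‖ ^ 2) (volume.restrict (ball (0:E4) ρ)) :=
    ((memLp_gr l).integrable_norm_pow (by norm_num)).restrict
  have hfinB : IsFiniteMeasure (volume.restrict (ball (0:E4) ρ)) := ⟨by
    rw [Measure.restrict_apply_univ]; exact hB⟩
  have hIg1 : Integrable (fun p => 1 + ‖gr l p‖ ^ 2) (volume.restrict (ball (0:E4) ρ)) :=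
    (integrable_const 1).add hIg2
  have h2 : ∫ p in ball (0:E4) ρ, ‖gr l p‖ ≤ (volume (ball (0:E4) ρ)).toReal + C1 := by
    have h3 : ∫ p in ball (0:E4) ρ, ‖gr l p‖ ≤ ∫ p in ball (0:E4) ρ, (1 + ‖gr l p‖ ^ 2) := by
      apply integral_mono_of_nonneg (Eventually.of_forall fun p => norm_nonneg _) hIg1
      refine Eventually.of_forall fun p => ?_
      show ‖gr l p‖ ≤ 1 + ‖gr l p‖ ^ 2
      nlinarith [norm_nonneg (gr l p), sq_nonneg (‖gr l p‖ - 1)]
    rw [integral_add (integrable_const 1) hIg2] at h3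
    have h4 : ∫ p in ball (0:E4) ρ, (1:ℝ) = (volume (ball (0:E4) ρ)).toReal := by
      rw [setIntegral_const, measureReal_def]
      simp
    rw [h4] at h3
    linarith
  -- function side
  have hIl : Integrable (fun p => |fn l p|) (volume.restrict (ball (0:E4) ρ)) := by
    have h3 : MemLp (fn l) 4 (volume.restrict (ball (0:E4) ρ)) := (memLp_fn l).restrict _
    have h4 : Integrable (fn l) (volume.restrict (ball (0:E4) ρ)) := h3.integrable (by norm_num)
    exact h4.abs
  have hlog : T ≤ Real.log (1 + δ / ε) := by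
    have h3 : δ / ε = Real.exp T := by
      rw [hε]
      field_simp
    rw [h3, Real.le_log_iff_exp_le (by positivity)]
    linarith [Real.exp_pos T]
  have h5 : (volume E).toReal * T ≤ ∫ p in ball (0:E4) ρ, |fn l p| := by
    have h6 : ∫ p in ball (0:E4) ρ, E.indicator (fun _ => T) p ≤ ∫ p in ball (0:E4) ρ, |fn l p| := by
      apply integral_mono_ae ((integrable_const T).indicator hEm) hIl
      apply ae_restrict_of_ae
      filter_upwards [hl] with p h7
      by_cases hp : p ∈ E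
      · rw [indicator_of_mem hp]
        show T ≤ |fn l p|
        rw [h7]
        have h8 : δ / ε ≤ fn x p / ε := div_le_div_of_nonneg_right hp.2 hε0.le
        have h9 : Real.log (1 + δ / ε) ≤ Real.log (1 + fn x p / ε) := by
          apply Real.log_le_log (by positivity)
          linarith
        exact (hlog.trans h9).trans (le_abs_self _)
      · rw [indicator_of_notMem hp]
        exact abs_nonneg _
    refine le_trans (le_of_eq ?_) h6
    rw [integral_indicator hEm, Measure.restrict_restrict hEm,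
      inter_eq_left.mpr hEB, setIntegral_const, measureReal_def, smul_eq_mul]
  have h10 : (volume Z).toReal * ((volume E).toReal * T) ≤ K := by
    calc (volume Z).toReal * ((volume E).toReal * T)
        ≤ (volume Z).toReal * ∫ p in ball (0:E4) ρ, |fn l p| :=
          mul_le_mul_of_nonneg_left h5 hz.le
      _ ≤ C * ∫ p in ball (0:E4) ρ, ‖gr l p‖ := h1
      _ ≤ K := mul_le_mul_of_nonneg_left h2 hC.le
  have h11 : (volume Z).toReal * ((volume E).toReal * T) =
      K + (volume Z).toReal * (volume E).toReal := by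
    rw [hT]
    field_simp
  have h12 : 0 < (volume Z).toReal * (volume E).toReal := by positivity
  linarith

/-- Strong maximum principle with the potential `b v²`. -/
theorem smp {x : D} (hx : x ∈ H B) (hne : x ≠ 0) (hx0 : 0 ≤ᵐ[volume] (fn x : E4 → ℝ)) {y : D}
    {b : ℝ} (hb : 0 < b)
    (hs : ∀ φ ∈ H B, 0 ≤ᵐ[volume] (fn φ : E4 → ℝ) →
      0 ≤ inner ℝ x φ + b * ∫ p, fn x p * fn y p ^ 2 * fn φ p) :
    ∀ᵐ p ∂(volume : Measure E4), p ∈ B → 0 < fn x p := by
  set ρ : ℕ → ℝ := fun n => 1 - 1 / ((n:ℝ) + 2) with hρdef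
  have hρ0 : ∀ n, 0 < ρ n := by
    intro n
    have h1 : (1:ℝ) / ((n:ℝ) + 2) < 1 := by
      rw [div_lt_one (by positivity)]
      have : (0:ℝ) ≤ n := Nat.cast_nonneg n
      linarith
    simp only [hρdef]
    linarith
  have hρ1 : ∀ n, ρ n < 1 := by
    intro n
    have h1 : (0:ℝ) < 1 / ((n:ℝ) + 2) := by positivity
    simp only [hρdef]
    linarith
  have hρmono : ∀ n m : ℕ, n ≤ m → ρ n ≤ ρ m := by
    intro n m hnm
    have h1 : (n:ℝ) ≤ m := by exact_mod_cast hnm
    have h2 : (1:ℝ) / ((m:ℝ) + 2) ≤ 1 / ((n:ℝ) + 2) := by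
      apply one_div_le_one_div_of_le (by positivity)
      linarith
    simp only [hρdef]
    linarith
  have hcover : ∀ p : E4, p ∈ B → ∀ n : ℕ, ∃ m, n ≤ m ∧ p ∈ ball (0:E4) (ρ m) := by
    intro p hp n
    have h1 : ‖p‖ < 1 := by simpa using hp
    obtain ⟨k, hk⟩ := exists_nat_one_div_lt (sub_pos.mpr h1)
    refine ⟨max n k, le_max_left _ _, ?_⟩
    rw [mem_ball_zero_iff]
    have h2 : (k:ℝ) ≤ ((max n k : ℕ) : ℝ) := by exact_mod_cast le_max_right n k
    have h3 : (1:ℝ) / (((max n k : ℕ) : ℝ) + 2) ≤ 1 / ((k:ℝ) + 1) := by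
      apply one_div_le_one_div_of_le (by positivity)
      linarith
    simp only [hρdef]
    linarith
  by_cases hall : ∀ n, volume {p | p ∈ ball (0:E4) (ρ n) ∧ fn x p = 0} = 0
  · have h1 : ∀ᵐ p ∂(volume : Measure E4), ∀ n : ℕ, ¬ (p ∈ ball (0:E4) (ρ n) ∧ fn x p = 0) := by
      rw [ae_all_iff]
      intro n
      rw [ae_iff]
      simpa using hall n
    filter_upwards [h1, hx0] with p h2 h3 h4
    obtain ⟨m, -, hm⟩ := hcover p h4 0
    refine lt_of_le_of_ne h3 ?_
    intro h5
    exact h2 m ⟨hm, h5.symm⟩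
  · exfalso
    push Not at hall
    obtain ⟨n, hn⟩ := hall
    have h1 : ∀ m, n ≤ m → ∀ᵐ p ∂(volume : Measure E4), p ∈ ball (0:E4) (ρ m) → fn x p = 0 := by
      intro m hm
      apply smp_alt hx hx0 hb hs (hρ0 m) (hρ1 m)
      intro h2
      apply hn
      refine measure_mono_null ?_ h2
      intro p hp
      exact ⟨ball_subset_ball (hρmono n m hm) hp.1, hp.2⟩
    have h2 : ∀ᵐ p ∂(volume : Measure E4), ∀ m, n ≤ m → p ∈ ball (0:E4) (ρ m) → fn x p = 0 := by
      rw [ae_all_iff]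
      intro m
      by_cases hm : n ≤ m
      · filter_upwards [h1 m hm] with p h3 _
        exact h3
      · exact Eventually.of_forall fun p h3 => absurd h3 hm
    apply hne
    apply fn_inj
    apply Lp.ext
    filter_upwards [h2, fn_outside measurableSet_ball hx, Lp.coeFn_zero ℝ 4 (volume : Measure E4)]
      with p h3 h4 h5
    rw [h5, Pi.zero_apply]
    by_cases hp : p ∈ B
    · obtain ⟨m, hm1, hm2⟩ := hcover p hp n
      exact h3 m hm1 hm2
    · exact h4 hp

end Pool.Agent.H57.BN
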