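import Pool.Agent.H57.BN.MinSeq
import Pool.Agent.H57.BN.SMP

set_option autoImplicit false

open MeasureTheory Filter Topology Metric Set
open scoped ENNReal NNReal ContDiff

namespace Pool.Agent.H57.BN

theorem gspos_aux {l b : ℝ} (hl : 0 < l) {x y : D} (hx0 : 0 ≤ᵐ[volume] (fn x : E4 → ℝ))
    (he : ∀ φ ∈ H B, PB l x φ =
      (∫ p, fn x p ^ 3 * fn φ p) - b * ∫ p, fn x p * fn y p ^ 2 * fn φ p) :
    ∀ φ ∈ H B, 0 ≤ᵐ[volume] (fn φ : E4 → ℝ) →
      0 ≤ inner ℝ x φ + b * ∫ p, fn x p * fn y p ^ 2 * fn φ p := by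
  intro φ hφ hφ0
  have h1 := he φ hφ
  rw [PB] at h1
  have h2 : 0 ≤ ∫ p, fn x p ^ 3 * fn φ p := by
    apply integral_nonneg_of_ae
    filter_upwards [hx0, hφ0] with p h3 h4
    exact mul_nonneg (pow_nonneg h3 3) h4
  have h5 : 0 ≤ ∫ p, fn x p * fn φ p := by
    apply integral_nonneg_of_ae
    filter_upwards [hx0, hφ0] with p h3 h4
    exact mul_nonneg h3 h4
  have h6 : 0 ≤ l * ∫ p, fn x p * fn φ p := mul_nonneg hl.le h5
  linarith

theorem IsGS.pos {lam th b : ℝ} (h0 : 0 < lam) (h2 : 0 < th) (hb : 0 < b) {x y : D}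
    (h : IsGS lam th b x y) :
    (∀ᵐ p ∂(volume : Measure E4), p ∈ B → 0 < fn x p) ∧
    (∀ᵐ p ∂(volume : Measure E4), p ∈ B → 0 < fn y p) := by
  constructor
  · exact smp h.hx h.nx h.x0 hb (gspos_aux h0 h.x0 h.sol.1)
  · refine smp h.hy h.ny h.y0 (y := x) hb (gspos_aux h2 h.y0 ?_)
    intro φ hφ
    rw [h.sol.2 φ hφ]
    congr 2
    apply integral_congr_ae
    filter_upwards with p
    ring

end Pool.Agent.H57.BN
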