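import Pool.Agent.H57.BN.KerR
import Pool.Agent.H57.BN.Cvx

set_option autoImplicit false

open MeasureTheory Filter Topology Metric Set
open scoped ENNReal NNReal ContDiff

namespace Pool.Agent.H57.BN

/-- `w` = solution of `-Δw = S v³` in `D`; `‖v - w‖² ≤ ‖v‖² - S`. -/
theorem exists_w {v : D} (hv : ‖fn v‖ = 1) (hv0 : 0 ≤ᵐ[volume] (fn v : E4 → ℝ)) : ∃ w : D,
    (∀ φ : D, inner ℝ w φ = ∫ p, (S * fn v p ^ 3) * fn φ p) ∧ 0 ≤ᵐ[volume] (fn w : E4 → ℝ) ∧
    ‖v - w‖ ^ 2 ≤ ‖v‖ ^ 2 - S := by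
  have hf : MemLp (fun p => S * fn v p ^ 3) (ENNReal.ofReal (4 / 3)) volume :=
    (memLp_cube (fn v)).const_mul S
  obtain ⟨w, hw, h⟩ := exists_riesz univ hf
  have h' : ∀ φ : D, inner ℝ w φ = ∫ p, (S * fn v p ^ 3) * fn φ p := fun φ => h φ (mem_H_univ φ)
  have hf0 : 0 ≤ᵐ[volume] (fun p => S * fn v p ^ 3) := by
    filter_upwards [hv0] with p hp
    have h1 : 0 ≤ fn v p := hp
    have := S_pos
    show 0 ≤ S * fn v p ^ 3
    positivity
  refine ⟨w, h', riesz_nonneg isOpen_univ hf hf0 hw h, ?_⟩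
  have h1 := cvx_S hv (v - w)
  have h2 : S * ∫ p, fn v p ^ 3 * fn (v - w) p = inner ℝ w (v - w) := by
    rw [h', ← integral_const_mul]
    congr 1
    ext1 p
    ring
  rw [h2, ← inner_sub_left, real_inner_self_eq_norm_sq] at h1
  have h3 : 0 ≤ ‖v‖ ^ 2 - S := by
    have := S_le v
    rw [hv] at this
    linarith
  by_cases h0 : ‖v - w‖ ^ 2 = 0
  · rw [h0]; exact h3
  · have hpos : 0 < ‖v - w‖ ^ 2 := lt_of_le_of_ne (by positivity) (Ne.symm h0)
    have h4 : ‖v - w‖ ^ 2 * ‖v - w‖ ^ 2 ≤ (‖v‖ ^ 2 - S) * ‖v - w‖ ^ 2 := by nlinarith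
    exact le_of_mul_le_mul_right h4 hpos

theorem norm_fn_le (x : D) : ‖fn x‖ ≤ ‖x‖ / Real.sqrt S := by
  have h1 := S_le x
  have hS := S_pos
  rw [le_div_iff₀ (Real.sqrt_pos.mpr hS)]
  have h2 : (‖fn x‖ * Real.sqrt S) ^ 2 ≤ ‖x‖ ^ 2 := by
    rw [mul_pow, Real.sq_sqrt hS.le]; linarith
  exact abs_le_of_sq_le_sq' h2 (norm_nonneg _) |>.2

/-- If `|{v ≠ 0}| ≤ 1` then `∫_{B(z,R)} v³ ≤ C_R √δ`: on `B(z,R) \ {v ≠ 0}` (measure `≥ 1`)
`v - w = -w ≤ -c ∫_{B(z,R)} v³` by `kerR`, and `‖v - w‖₄ ≤ S^{-1/2} √δ`. -/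
theorem jbound {R : ℝ} (hR : 1 ≤ R) : ∃ C : ℝ, 0 < C ∧ ∀ v : D, ‖fn v‖ = 1 →
    0 ≤ᵐ[volume] (fn v : E4 → ℝ) → volume {p | fn v p ≠ 0} ≤ 1 → ∀ z : E4,
    ∫ p in ball z R, fn v p ^ 3 ≤ C * Real.sqrt (‖v‖ ^ 2 - S) := by
  have hS := S_pos
  have hR0 : 0 < R := by linarith
  set c : ℝ := 1 / (16 * Real.pi ^ 2 * R ^ 2) * S with hc
  have hc0 : 0 < c := by positivity
  refine ⟨1 / (c * Real.sqrt S), by positivity, ?_⟩
  intro v hv hv0 hvol z
  obtain ⟨w, hw, hw0, hvw⟩ := exists_w hv hv0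
  set J : ℝ := ∫ p in ball z R, fn v p ^ 3 with hJ
  have hJ0 : 0 ≤ J := by
    apply integral_nonneg_of_ae
    filter_upwards [ae_restrict_of_ae hv0] with p hp
    have : 0 ≤ fn v p := hp
    show 0 ≤ fn v p ^ 3
    positivity
  have hf : MemLp (fun p => S * fn v p ^ 3) (ENNReal.ofReal (4 / 3)) volume :=
    (memLp_cube (fn v)).const_mul S
  have hf0 : 0 ≤ᵐ[volume] (fun p => S * fn v p ^ 3) := by
    filter_upwards [hv0] with p hp
    have h1 : 0 ≤ fn v p := hp
    show 0 ≤ S * fn v p ^ 3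
    positivity
  have hker := kerR hR0 hf hf0 hw z
  have hcJ : (1 / (16 * Real.pi ^ 2 * R ^ 2)) * ∫ p in ball z R, S * fn v p ^ 3 = c * J := by
    rw [integral_const_mul, hc, hJ]; ring
  rw [hcJ] at hker
  set A' : Set E4 := ball z R ∩ {p | fn v p = 0} with hA'
  have hmeas0 : MeasurableSet {p : E4 | fn v p = 0} :=
    (Lp.stronglyMeasurable (fn v)).measurable (measurableSet_singleton 0)
  have hA'm : MeasurableSet A' := measurableSet_ball.inter hmeas0
  have hvolA : 1 ≤ volume A' := by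
    have h1 : volume (ball z R) ≤ volume A' + volume {p : E4 | fn v p ≠ 0} := by
      refine le_trans (measure_mono ?_) (measure_union_le _ _)
      intro p hp
      by_cases h : fn v p = 0
      · exact Or.inl ⟨hp, h⟩
      · exact Or.inr h
    have h2 : (2:ℝ≥0∞) ≤ volume (ball z R) := by
      rw [volume_ball_E4 z hR0.le]
      rw [show (2:ℝ≥0∞) = ENNReal.ofReal 2 by simp]
      apply ENNReal.ofReal_le_ofReal
      have h3 : (9:ℝ) ≤ Real.pi ^ 2 := by nlinarith [Real.pi_gt_three]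
      have h4 : 1 ≤ R ^ 4 := one_le_pow₀ hR
      nlinarith
    have h3 : (2:ℝ≥0∞) ≤ volume A' + 1 := h2.trans (h1.trans (by gcongr))
    have h4 : (1:ℝ≥0∞) + 1 ≤ volume A' + 1 := by
      rw [show (1:ℝ≥0∞) + 1 = 2 by norm_num]; exact h3
    exact (ENNReal.add_le_add_iff_right ENNReal.one_ne_top).mp h4
  have hvolA' : volume A' < ⊤ :=
    lt_of_le_of_lt (measure_mono inter_subset_left) measure_ball_lt_top
  have hint := integrable_pow4 (fn (v - w))
  have h5 : (c * J) ^ 4 ≤ ‖fn (v - w)‖ ^ 4 := by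
    rw [norm4_eq]
    calc (c * J) ^ 4 ≤ (volume A').toReal * (c * J) ^ 4 := by
          have : 1 ≤ (volume A').toReal := by
            rw [← ENNReal.toReal_one]
            exact ENNReal.toReal_mono hvolA'.ne hvolA
          nlinarith [show 0 ≤ (c * J) ^ 4 by positivity]
      _ = ∫ _ in A', (c * J) ^ 4 := by
          rw [setIntegral_const]; simp [measureReal_def]
      _ ≤ ∫ p in A', fn (v - w) p ^ 4 := by
          apply setIntegral_mono_ae_restrict
          · exact integrableOn_const (hs := hvolA'.ne)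
          · exact hint.integrableOn
          · rw [EventuallyLE, ae_restrict_iff' hA'm]
            have hsub : fn (v - w) =ᵐ[volume] fun p => fn v p - fn w p := by
              rw [map_sub]; exact Lp.coeFn_sub _ _
            filter_upwards [hker, hsub] with p h6 h7 h8
            have h9 := h6 h8.1
            have h10 : fn v p = 0 := h8.2
            rw [h7, h10, zero_sub]
            have : (-fn w p) ^ 4 = fn w p ^ 4 := by ring
            rw [this]
            exact pow_le_pow_left₀ (by positivity) h9 4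
      _ ≤ ∫ p, fn (v - w) p ^ 4 := by
          apply setIntegral_le_integral hint
          exact Eventually.of_forall fun p => by positivity
  have h6 : c * J ≤ ‖fn (v - w)‖ :=
    le_of_pow_le_pow_left₀ (by norm_num) (norm_nonneg _) h5
  have h7 : ‖v - w‖ ≤ Real.sqrt (‖v‖ ^ 2 - S) := Real.le_sqrt_of_sq_le hvw
  have h8 := norm_fn_le (v - w)
  have h9 : c * J ≤ Real.sqrt (‖v‖ ^ 2 - S) / Real.sqrt S := by
    refine h6.trans (h8.trans ?_)
    gcongr
  have hsS : 0 < Real.sqrt S := Real.sqrt_pos.mpr hS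
  rw [le_div_iff₀ hsS] at h9
  rw [div_mul_eq_mul_div, one_mul, le_div_iff₀ (by positivity)]
  linarith
  
end Pool.Agent.H57.BN
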