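import Pool.Agent.H57.BN.Defs

set_option autoImplicit false

open MeasureTheory Filter Topology Metric Set
open scoped ENNReal NNReal ContDiff

namespace Pool.Agent.H57.BN

theorem sqrt_sub_ge {x d : ℝ} (hx : 0 ≤ x) (hd : 0 ≤ d) :
    Real.sqrt x - d ≤ Real.sqrt (x - d ^ 2) := by
  have h := Real.sqrt_nonneg x
  rcases le_or_gt (Real.sqrt x) d with h1 | h1
  · exact le_trans (by linarith) (Real.sqrt_nonneg _)
  · apply Real.le_sqrt_of_sq_le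
    have := Real.sq_sqrt hx
    nlinarith

theorem iter_aux {c : ℝ} (hc : 0 < c) (k : ℕ) : ∀ δ : ℝ, 0 < δ → ∃ ε : ℝ, 0 < ε ∧
    ∀ a : ℕ → ℝ, c ≤ a 0 → (∀ j, Real.sqrt (a j) - ε ≤ a (j + 1)) →
      c ^ ((1 / 2 : ℝ) ^ k) - δ ≤ a k := by
  induction k with
  | zero =>
    intro δ hδ
    refine ⟨1, one_pos, ?_⟩
    intro a h0 _
    simp only [pow_zero, Real.rpow_one]
    linarith
  | succ k ih =>
    intro δ hδ
    obtain ⟨ε, hε, h⟩ := ih ((δ / 2) ^ 2) (by positivity)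
    refine ⟨min ε (δ / 2), lt_min hε (by positivity), ?_⟩
    intro a h0 ha
    have h1 : c ^ ((1 / 2 : ℝ) ^ k) - (δ / 2) ^ 2 ≤ a k := by
      refine h a h0 ?_
      intro j
      have := ha j
      have := min_le_left ε (δ / 2)
      linarith
    have h2 := ha k
    have h3 := min_le_right ε (δ / 2)
    have h4 : Real.sqrt (c ^ ((1 / 2 : ℝ) ^ k)) - δ / 2 ≤
        Real.sqrt (c ^ ((1 / 2 : ℝ) ^ k) - (δ / 2) ^ 2) :=
      sqrt_sub_ge (Real.rpow_nonneg hc.le _) (by positivity)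
    have h5 := Real.sqrt_le_sqrt h1
    have h6 : Real.sqrt (c ^ ((1 / 2 : ℝ) ^ k)) = c ^ ((1 / 2 : ℝ) ^ (k + 1)) := by
      rw [Real.sqrt_eq_rpow, ← Real.rpow_mul hc.le, pow_succ]
    rw [← h6]
    linarith

/-- real iteration: `a_{k+1} ≥ √a_k - ε` with `a_0 ≥ c` pushes `a_k` above `1 - κ`. -/
theorem iter_sqrt {c κ : ℝ} (hc : 0 < c) (hκ : 0 < κ) : ∃ k : ℕ, ∃ ε : ℝ, 0 < ε ∧
    ∀ a : ℕ → ℝ, c ≤ a 0 → (∀ j, Real.sqrt (a j) - ε ≤ a (j + 1)) → 1 - κ ≤ a k := by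
  have h1 : Tendsto (fun k : ℕ => c ^ ((1 / 2 : ℝ) ^ k)) atTop (𝓝 1) := by
    have h2 : Tendsto (fun k : ℕ => (1 / 2 : ℝ) ^ k) atTop (𝓝 0) :=
      tendsto_pow_atTop_nhds_zero_of_lt_one (by norm_num) (by norm_num)
    have h3 : Tendsto (fun x : ℝ => c ^ x) (𝓝 0) (𝓝 (c ^ (0 : ℝ))) :=
      (Real.continuousAt_const_rpow hc.ne').tendsto
    rw [Real.rpow_zero] at h3
    exact h3.comp h2
  have h4 : ∀ᶠ k : ℕ in atTop, 1 - κ / 2 < c ^ ((1 / 2 : ℝ) ^ k) :=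
    h1.eventually (lt_mem_nhds (by linarith))
  obtain ⟨k, hk⟩ := h4.exists
  obtain ⟨ε, hε, h⟩ := iter_aux hc k (κ / 2) (by positivity)
  refine ⟨k, ε, hε, ?_⟩
  intro a h0 ha
  have := h a h0 ha
  linarith

end Pool.Agent.H57.BN
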