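import Pool.Agent.H57.BN.CutE
import Pool.Agent.H57.BN.Cvx

set_option autoImplicit false

open MeasureTheory Filter Topology Metric Set
open scoped ENNReal NNReal ContDiff

namespace Pool.Agent.H57.BN

/-- the square is integrable and has integral at most one if the support has measure at most one -/
theorem locStep_sq {v : D} (hv : ‖fn v‖ = 1) (hvol : volume {p | fn v p ≠ 0} ≤ 1) :
    Integrable (fun p => fn v p ^ 2) volume ∧ ∫ p, fn v p ^ 2 ≤ 1 := by
  have hm : MeasurableSet {p | fn v p ≠ 0} :=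
    (Lp.stronglyMeasurable (fn v)).measurable (measurableSet_singleton (0:ℝ)).compl
  have hfin : volume {p | fn v p ≠ 0} < ⊤ := hvol.trans_lt ENNReal.one_lt_top
  have hsub : Function.support (fun p => fn v p ^ 2) ⊆ {p | fn v p ≠ 0} := by
    intro p hp
    simp only [Function.mem_support, ne_eq] at hp
    intro h0
    exact hp (by simp [h0])
  have h1 := integrableOn_sq (fn v) hfin
  have h2 : Integrable (fun p => fn v p ^ 2) volume :=
    (integrableOn_iff_integrable_of_support_subset hsub).mp h1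
  refine ⟨h2, ?_⟩
  have h3 : ∫ p in {p | fn v p ≠ 0}, fn v p ^ 2 = ∫ p, fn v p ^ 2 := by
    apply setIntegral_eq_integral_of_forall_compl_eq_zero
    intro p hp
    have h4 : fn v p = 0 := by
      by_contra h0
      exact hp h0
    simp [h4]
  rw [← h3]
  have h5 := setIntegral_sq_le (fn v) hm hfin
  rw [hv] at h5
  have h6 : Real.sqrt (volume {p | fn v p ≠ 0}).toReal ≤ 1 := by
    rw [Real.sqrt_le_one]
    have h7 : (volume {p | fn v p ≠ 0}).toReal ≤ (1 : ℝ≥0∞).toReal :=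
      ENNReal.toReal_mono ENNReal.one_ne_top hvol
    simpa using h7
  linarith

/-- One step: `√M(r) ≤ M(2r) + C/r² + C√δ`, `M(r) = ∫_{B(z,r)} v⁴`
(almost-equation `cvx_S` tested with `χ²v`, and `cut_energy`). -/
theorem loc_step : ∃ C : ℝ, 0 < C ∧ ∀ v : D, ‖fn v‖ = 1 → ‖v‖ ^ 2 ≤ 2 * S →
    volume {p | fn v p ≠ 0} ≤ 1 → ∀ (z : E4) (r : ℝ), 1 ≤ r →
    Real.sqrt (∫ p in ball z r, fn v p ^ 4) ≤
      (∫ p in ball z (2 * r), fn v p ^ 4) + C / r ^ 2 + C * Real.sqrt (‖v‖ ^ 2 - S) := by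
  obtain ⟨C1, hC1, hcut⟩ := exists_cutoff
  have hS := S_pos
  have hs2 : 0 ≤ Real.sqrt (2 * S) := Real.sqrt_nonneg _
  refine ⟨(C1 ^ 2 + Real.sqrt (2 * S) + 2 * C1) / S, by positivity, ?_⟩
  intro v hv1 hv2 hvol z r hr
  have hr0 : 0 < r := by linarith
  obtain ⟨χ, hχs, hχc, -, h01, hone, hzero, hgrad, -, -⟩ := hcut z r hr0
  obtain ⟨y, w, hy, hw, hyn, hy2, hw2, hint, -, -⟩ := cut_energy hχs hχc h01 v
  obtain ⟨hI2, hI2le⟩ := locStep_sq hv1 hvol
  set G : ℝ := ∫ p, ‖gradient χ p‖ ^ 2 * fn v p ^ 2 with hGdef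
  have hG : G ≤ (C1 / r) ^ 2 := by
    have h1 : G ≤ ∫ p, (C1 / r) ^ 2 * fn v p ^ 2 := by
      apply integral_mono hint (hI2.const_mul _)
      intro p
      have h2 : ‖gradient χ p‖ ^ 2 ≤ (C1 / r) ^ 2 :=
        pow_le_pow_left₀ (norm_nonneg _) (hgrad p) 2
      exact mul_le_mul_of_nonneg_right h2 (sq_nonneg _)
    rw [integral_const_mul] at h1
    have h3 : (C1 / r) ^ 2 * ∫ p, fn v p ^ 2 ≤ (C1 / r) ^ 2 * 1 :=
      mul_le_mul_of_nonneg_left hI2le (sq_nonneg _)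
    linarith
  have hGs : Real.sqrt G ≤ C1 := by
    have h1 : Real.sqrt G ≤ C1 / r := Real.sqrt_le_iff.mpr ⟨by positivity, hG⟩
    have h2 : C1 / r ≤ C1 := div_le_self hC1.le hr
    linarith
  have hδ : 0 ≤ ‖v‖ ^ 2 - S := by
    have := S_le v
    rw [hv1] at this
    linarith
  have hvn : ‖v‖ ≤ Real.sqrt (2 * S) := Real.le_sqrt_of_sq_le hv2
  have hwn : ‖w‖ ≤ Real.sqrt (2 * S) + 2 * C1 := by linarith
  have h1 := cvx_S hv1 w
  have h2 : inner ℝ v w - S * ∫ p, fn v p ^ 3 * fn w p ≤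
      Real.sqrt (‖v‖ ^ 2 - S) * ‖w‖ := by
    refine (le_abs_self _).trans ?_
    apply abs_le_of_sq_le_sq _ (by positivity)
    rw [mul_pow, Real.sq_sqrt hδ]
    exact h1
  have h3 : ∫ p, fn v p ^ 3 * fn w p ≤ ∫ p in ball z (2 * r), fn v p ^ 4 := by
    rw [← integral_indicator measurableSet_ball]
    apply integral_mono_ae (integrable_cube_mul (fn v) (fn w))
      ((integrable_pow4 (fn v)).indicator measurableSet_ball)
    filter_upwards [hw] with p hp
    rw [hp]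
    by_cases hpb : p ∈ ball z (2 * r)
    · rw [indicator_of_mem hpb]
      have h4 : χ p ^ 2 ≤ 1 := by
        have := h01 p
        nlinarith
      have h5 : 0 ≤ fn v p ^ 4 := by positivity
      nlinarith
    · rw [indicator_of_notMem hpb, hzero p hpb]
      simp
  have h4 : S * ‖fn y‖ ^ 2 ≤ ‖y‖ ^ 2 := S_le y
  have h5 : Real.sqrt (∫ p in ball z r, fn v p ^ 4) ≤ ‖fn y‖ ^ 2 := by
    apply Real.sqrt_le_iff.mpr
    refine ⟨by positivity, ?_⟩
    have h6 : (‖fn y‖ ^ 2) ^ 2 = ∫ p, fn y p ^ 4 := by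
      rw [← norm4_eq]; ring
    rw [h6, ← integral_indicator measurableSet_ball]
    apply integral_mono_ae ((integrable_pow4 (fn v)).indicator measurableSet_ball)
      (integrable_pow4 (fn y))
    filter_upwards [hy] with p hp
    rw [hp]
    by_cases hpb : p ∈ ball z r
    · rw [indicator_of_mem hpb, hone p hpb, one_mul]
    · rw [indicator_of_notMem hpb]
      positivity
  set M1 : ℝ := Real.sqrt (∫ p in ball z r, fn v p ^ 4) with hM1
  set M2 : ℝ := ∫ p in ball z (2 * r), fn v p ^ 4 with hM2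
  set d : ℝ := Real.sqrt (‖v‖ ^ 2 - S) with hd
  have hd0 : 0 ≤ d := Real.sqrt_nonneg _
  have h7 : S * M1 ≤ S * M2 + d * (Real.sqrt (2 * S) + 2 * C1) + C1 ^ 2 / r ^ 2 := by
    have h8 : S * M1 ≤ S * ‖fn y‖ ^ 2 := mul_le_mul_of_nonneg_left h5 hS.le
    have h9 : S * ∫ p, fn v p ^ 3 * fn w p ≤ S * M2 := mul_le_mul_of_nonneg_left h3 hS.le
    have h10 : d * ‖w‖ ≤ d * (Real.sqrt (2 * S) + 2 * C1) := mul_le_mul_of_nonneg_left hwn hd0
    have h11 : (C1 / r) ^ 2 = C1 ^ 2 / r ^ 2 := by rw [div_pow]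
    linarith
  have h12 : M1 ≤ M2 + d * ((Real.sqrt (2 * S) + 2 * C1) / S) + (C1 ^ 2 / S) / r ^ 2 := by
    have h13 : M1 = (S * M1) / S := by field_simp
    rw [h13]
    have h14 : (S * M1) / S ≤ (S * M2 + d * (Real.sqrt (2 * S) + 2 * C1) + C1 ^ 2 / r ^ 2) / S :=
      div_le_div_of_nonneg_right h7 hS.le
    refine h14.trans (le_of_eq ?_)
    field_simp
  have h15 : d * ((Real.sqrt (2 * S) + 2 * C1) / S) ≤
      (C1 ^ 2 + Real.sqrt (2 * S) + 2 * C1) / S * d := by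
    rw [mul_comm]
    apply mul_le_mul_of_nonneg_right _ hd0
    apply div_le_div_of_nonneg_right _ hS.le
    nlinarith [sq_nonneg C1]
  have h16 : (C1 ^ 2 / S) / r ^ 2 ≤ (C1 ^ 2 + Real.sqrt (2 * S) + 2 * C1) / S / r ^ 2 := by
    apply div_le_div_of_nonneg_right _ (by positivity)
    apply div_le_div_of_nonneg_right _ hS.le
    linarith
  linarith

end Pool.Agent.H57.BN
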