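import Pool.Agent.H57.BN.NonVan
import Pool.Agent.H57.BN.LocStep
import Pool.Agent.H57.BN.Iter

set_option autoImplicit false

open MeasureTheory Filter Topology Metric Set
open scoped ENNReal NNReal ContDiff

namespace Pool.Agent.H57.BN

/-- Localization of near-minimizers with support of measure at most one. -/
theorem loc {κ : ℝ} (hκ : 0 < κ) : ∃ δ0 R : ℝ, 0 < δ0 ∧ 1 ≤ R ∧ ∀ v : D, ‖fn v‖ = 1 →
    ‖v‖ ^ 2 - S ≤ δ0 → volume {p | fn v p ≠ 0} ≤ 1 →
    ∃ z : E4, 1 - κ ≤ ∫ p in ball z R, fn v p ^ 4 := by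
  obtain ⟨c0, hc0, -, hnv⟩ := nonvan
  obtain ⟨C, hC, hstep⟩ := loc_step
  obtain ⟨k, ε, hε, hit⟩ := iter_sqrt hc0 hκ
  have hS := S_pos
  set r0 : ℝ := 1 + 2 * C / ε with hr0
  have hr01 : 1 ≤ r0 := by
    have : 0 ≤ 2 * C / ε := by positivity
    linarith
  have h2k : ∀ j : ℕ, (1 : ℝ) ≤ 2 ^ j := fun j => one_le_pow₀ (by norm_num)
  refine ⟨min S ((ε / (2 * C)) ^ 2), r0 * 2 ^ k, lt_min hS (by positivity), ?_, ?_⟩
  · nlinarith [h2k k]
  intro v hv1 hv2 hvol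
  have hδS : ‖v‖ ^ 2 ≤ 2 * S := by
    have := hv2.trans (min_le_left _ _)
    linarith
  have hδ : Real.sqrt (‖v‖ ^ 2 - S) ≤ ε / (2 * C) := by
    rw [Real.sqrt_le_left (by positivity)]
    exact hv2.trans (min_le_right _ _)
  have hδ' : C * Real.sqrt (‖v‖ ^ 2 - S) ≤ ε / 2 := by
    calc C * Real.sqrt (‖v‖ ^ 2 - S) ≤ C * (ε / (2 * C)) := by gcongr
      _ = ε / 2 := by field_simp
  obtain ⟨z, hz⟩ := hnv v hv1 hδS hvol
  refine ⟨z, hit (fun j => ∫ p in ball z (r0 * 2 ^ j), fn v p ^ 4) ?_ ?_⟩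
  · refine hz.trans ?_
    simp only [pow_zero, mul_one]
    exact setIntegral_mono_set (integrable_pow4 (fn v)).integrableOn
      (Eventually.of_forall fun p => by positivity)
      (LE.le.eventuallyLE (ball_subset_ball hr01))
  · intro j
    set r : ℝ := r0 * 2 ^ j with hr
    have hrr0 : r0 ≤ r := by nlinarith [h2k j]
    have hr1 : 1 ≤ r := hr01.trans hrr0
    have h1 := hstep v hv1 hδS hvol z r hr1
    have e : r0 * 2 ^ (j + 1) = 2 * r := by rw [hr, pow_succ]; ring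
    rw [e]
    have h2 : C / r ^ 2 ≤ ε / 2 := by
      rw [div_le_iff₀ (by positivity)]
      have h3 : 2 * C / ε ≤ r ^ 2 := by
        have : 2 * C / ε ≤ r := by linarith
        nlinarith
      have h4 : 2 * C ≤ r ^ 2 * ε := by rwa [div_le_iff₀ hε] at h3
      linarith
    linarith

end Pool.Agent.H57.BN
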