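import Pool.Agent.H57.BN.L83
import Pool.Agent.H57.BN.JB
import Pool.Agent.H57.BN.Loc
import Pool.Agent.H57.BN.Scale

set_option autoImplicit false

open MeasureTheory Filter Topology Metric Set
open scoped ENNReal NNReal ContDiff

namespace Pool.Agent.H57.BN

/-- if the support has measure at most one, `∫ v² ≤ ‖v‖₄²`. -/
theorem gain_m2_le (v : D) (hs : volume {p | fn v p ≠ 0} ≤ 1) : m2 v ≤ ‖fn v‖ ^ 2 := by
  set E : Set E4 := {p | fn v p ≠ 0} with hEdef
  have hmv : Measurable (fn v : E4 → ℝ) := (Lp.stronglyMeasurable (fn v)).measurable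
  have hEm : MeasurableSet E := hmv (measurableSet_singleton (0:ℝ)).compl
  have hE : volume E < ⊤ := lt_of_le_of_lt hs (by norm_num)
  have h1 := setIntegral_sq_le (fn v) hEm hE
  have h2 : m2 v = ∫ p in E, fn v p ^ 2 := by
    unfold m2
    rw [← integral_indicator hEm]
    congr 1
    ext p
    by_cases hp : p ∈ E
    · rw [indicator_of_mem hp]
    · rw [indicator_of_notMem hp]
      have : fn v p = 0 := by
        by_contra h
        exact hp h
      rw [this]; norm_num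
  rw [h2]
  refine h1.trans ?_
  have h3 : Real.sqrt (volume E).toReal ≤ 1 := by
    rw [Real.sqrt_le_one]
    exact ENNReal.toReal_mono (by norm_num) hs
  nlinarith [sq_nonneg ‖fn v‖]

/-- Scale-invariant gain bound. -/
theorem gain_unit : ∃ C t0 : ℝ, 0 < C ∧ 0 < t0 ∧ ∀ v : D, ‖fn v‖ = 1 →
    volume {p | fn v p ≠ 0} ≤ 1 → ∀ t : ℝ, 0 < t → t ≤ t0 →
    S - C * t ^ 2 ≤ ‖v‖ ^ 2 - t * m2 v := by
  have hS := S_pos
  obtain ⟨δ0, R, hδ0, hR, hloc⟩ := loc (κ := 1 / 16) (by norm_num)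
  obtain ⟨C1, hC1, hJ⟩ := jbound hR
  obtain ⟨C2, hC2, hL⟩ := l83
  refine ⟨(C2 * (C1 + 1)) ^ 2, min δ0 1, by positivity, lt_min hδ0 one_pos, ?_⟩
  intro v0 hv0 hs0 t ht htt
  obtain ⟨v, hfv, hnv, -⟩ := exists_abs v0
  have hv : ‖fn v‖ = 1 := by
    have h1 : ‖fn v‖ ^ 4 = ‖fn v0‖ ^ 4 := by
      rw [norm4_eq, norm4_eq]
      apply integral_congr_ae
      filter_upwards [hfv] with p hp
      rw [hp]
      exact Even.pow_abs (by decide) _
    rw [hv0] at h1
    exact (pow_left_inj₀ (norm_nonneg _) (by norm_num) (by norm_num)).1 h1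
  have hvnn : 0 ≤ᵐ[volume] (fn v : E4 → ℝ) := by
    filter_upwards [hfv] with p hp
    rw [hp]
    exact abs_nonneg _
  have hs : volume {p | fn v p ≠ 0} ≤ 1 := by
    refine le_trans (le_of_eq ?_) hs0
    apply measure_congr
    filter_upwards [hfv] with p hp
    apply propext
    show fn v p ≠ 0 ↔ fn v0 p ≠ 0
    rw [hp]
    exact abs_ne_zero
  have hm2 : m2 v = m2 v0 := by
    unfold m2
    apply integral_congr_ae
    filter_upwards [hfv] with p hp
    rw [hp]
    exact sq_abs _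
  rw [← hm2, ← hnv]
  clear hm2 hnv hfv hs0 hv0
  have hm0 := m2_nonneg v
  have hm1 : m2 v ≤ 1 := by
    have := gain_m2_le v hs
    rwa [hv, one_pow] at this
  have hSl : S ≤ ‖v‖ ^ 2 := by
    have := S_le v
    rwa [hv, one_pow, mul_one] at this
  by_cases hcase : t * m2 v ≤ ‖v‖ ^ 2 - S
  · have : 0 ≤ (C2 * (C1 + 1)) ^ 2 * t ^ 2 := by positivity
    linarith
  · rw [not_le] at hcase
    have hδt : ‖v‖ ^ 2 - S ≤ t := by nlinarith
    have hδδ : ‖v‖ ^ 2 - S ≤ δ0 := hδt.trans (htt.trans (min_le_left _ _))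
    obtain ⟨z, hz⟩ := hloc v hv hδδ hs
    obtain ⟨w, hw, hw0, hvw⟩ := exists_w hv hvnn
    have hz' : 15 / 16 ≤ ∫ p in ball z R, fn v p ^ 4 := by
      refine le_trans (le_of_eq ?_) hz
      norm_num
    have h1 := hL v w hv hvnn hs hw0 hw z R hz'
    have h2 := hJ v hv hvnn hs z
    set δ := ‖v‖ ^ 2 - S with hδ
    have hδ1 : 0 ≤ δ := by rw [hδ]; linarith
    have hδle1 : δ ≤ 1 := hδt.trans (htt.trans (min_le_right _ _))
    have hδs : δ ≤ Real.sqrt δ := by
      apply Real.le_sqrt_of_sq_le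
      nlinarith
    have h3 : m2 v ≤ C2 * (C1 + 1) * Real.sqrt δ := by
      refine h1.trans ?_
      have : (∫ p in ball z R, fn v p ^ 3) + ‖v - w‖ ^ 2 ≤ (C1 + 1) * Real.sqrt δ := by linarith
      calc C2 * ((∫ p in ball z R, fn v p ^ 3) + ‖v - w‖ ^ 2)
          ≤ C2 * ((C1 + 1) * Real.sqrt δ) := mul_le_mul_of_nonneg_left this hC2.le
        _ = C2 * (C1 + 1) * Real.sqrt δ := by ring
    have h4 : m2 v ^ 2 ≤ (C2 * (C1 + 1)) ^ 2 * (t * m2 v) := by
      have h5 : m2 v ^ 2 ≤ (C2 * (C1 + 1) * Real.sqrt δ) ^ 2 := pow_le_pow_left₀ hm0 h3 2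
      rw [mul_pow, Real.sq_sqrt hδ1] at h5
      refine h5.trans ?_
      exact mul_le_mul_of_nonneg_left hcase.le (by positivity)
    have h6 : m2 v ≤ (C2 * (C1 + 1)) ^ 2 * t := by
      rcases hm0.eq_or_lt with h0 | h0
      · rw [← h0]; positivity
      · have : m2 v * m2 v ≤ ((C2 * (C1 + 1)) ^ 2 * t) * m2 v := by nlinarith
        exact le_of_mul_le_mul_right this h0
    have h7 : t * m2 v ≤ (C2 * (C1 + 1)) ^ 2 * t ^ 2 := by
      calc t * m2 v ≤ t * ((C2 * (C1 + 1)) ^ 2 * t) := mul_le_mul_of_nonneg_left h6 ht.le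
        _ = _ := by ring
    linarith

/-- Gain bound on the ball (scaling with `r⁴ = |{y ≠ 0}|`). -/
theorem gain : ∃ C θ0 : ℝ, 0 < C ∧ 0 < θ0 ∧ ∀ θ : ℝ, 0 < θ → θ ≤ θ0 → ∀ y ∈ H B, ‖fn y‖ = 1 →
    S - C * θ ^ 2 * (volume {p | fn y p ≠ 0}).toReal ≤ P θ y := by
  obtain ⟨C, t0, hC, ht0, hg⟩ := gain_unit
  have hVB : volume B < ⊤ := eig_volume_B_lt_top
  set VB : ℝ := (volume B).toReal with hVBdef
  have hVB0 : 0 ≤ VB := ENNReal.toReal_nonneg
  refine ⟨C, t0 / (1 + VB), hC, by positivity, ?_⟩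
  intro θ hθ hθ0 y hyB hy
  set V := volume {p | fn y p ≠ 0} with hV
  have hVle : V ≤ volume B := by
    apply measure_mono_ae
    filter_upwards [fn_outside eig_measurableSet_B hyB] with p hp h
    show p ∈ B
    by_contra hpB
    exact h (hp hpB)
  have hVtop : V < ⊤ := lt_of_le_of_lt hVle hVB
  have hV0 : V ≠ 0 := by
    intro h
    have h1 : fn y = 0 := by
      rw [Lp.eq_zero_iff_ae_eq_zero]
      exact h
    rw [h1, norm_zero] at hy
    norm_num at hy
  set W : ℝ := V.toReal with hW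
  have hW0 : 0 < W := ENNReal.toReal_pos hV0 hVtop.ne
  have hWle : W ≤ VB := ENNReal.toReal_mono hVB.ne hVle
  set r : ℝ := W ^ (1 / 4 : ℝ) with hr
  have hr0 : 0 < r := Real.rpow_pos_of_pos hW0 _
  have hr4 : r ^ 4 = W := by
    rw [hr, ← Real.rpow_natCast, ← Real.rpow_mul hW0.le]
    norm_num
  obtain ⟨v, hfv, hnv, hnfv, -⟩ := exists_scale y 0 hr0
  have hs : volume {p | fn v p ≠ 0} ≤ 1 := by
    have h1 : volume {p | fn v p ≠ 0} = volume {p : E4 | (0 : E4) + r • p ∈ {p | fn y p ≠ 0}} := by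
      apply measure_congr
      filter_upwards [hfv] with p hp
      apply propext
      show fn v p ≠ 0 ↔ fn y (0 + r • p) ≠ 0
      rw [hp]
      constructor
      · intro h h'
        exact h (by rw [h', mul_zero])
      · intro h h'
        rcases mul_eq_zero.1 h' with h'' | h''
        · exact hr0.ne' h''
        · exact h h''
    rw [h1, volume_scale _ 0 hr0, hr4]
    have : volume {p | fn y p ≠ 0} = ENNReal.ofReal W := (ENNReal.ofReal_toReal hVtop.ne).symm
    rw [this, ← ENNReal.ofReal_mul (by positivity), inv_mul_cancel₀ hW0.ne', ENNReal.ofReal_one]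
  have hm : m2 y = r ^ 2 * m2 v := by
    have h1 : m2 v = ∫ p, (fun p => r ^ 2 * fn y p ^ 2) (0 + r • p) := by
      unfold m2
      apply integral_congr_ae
      filter_upwards [hfv] with p hp
      rw [hp]; ring
    rw [h1, integral_scale (fun p => r ^ 2 * fn y p ^ 2) 0 hr0, integral_const_mul]
    unfold m2
    field_simp
  have h1 := hg v (by rw [hnfv, hy]) hs (θ * r ^ 2) (by positivity) ?_
  · have h2 : P θ y = ‖v‖ ^ 2 - θ * r ^ 2 * m2 v := by
      unfold P
      rw [hnv, hm]; ring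
    rw [h2]
    refine le_trans (le_of_eq ?_) h1
    rw [← hr4]; ring
  · have h3 : r ^ 2 ≤ 1 + VB := by
      have : (r ^ 2) ^ 2 ≤ (1 + VB) ^ 2 := by
        have : (r ^ 2) ^ 2 = W := by rw [← hr4]; ring
        rw [this]
        nlinarith
      exact abs_le_of_sq_le_sq' this (by positivity) |>.2
    calc θ * r ^ 2 ≤ (t0 / (1 + VB)) * (1 + VB) :=
          mul_le_mul hθ0 h3 (by positivity) (by positivity)
      _ = t0 := by field_simp

end Pool.Agent.H57.BN
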