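import Pool.Agent.H57.BN.Base

set_option autoImplicit false

open MeasureTheory Filter Topology Metric Set
open scoped ENNReal NNReal ContDiff

namespace Pool.Agent.H57.BN

/-- denominator of the harmonic correction -/
noncomputable def Dn (x p : E4) : ℝ := ‖x‖ ^ 2 * ‖p‖ ^ 2 - 2 * inner ℝ x p + 1

theorem Dn_eq (x p : E4) : Dn x p = ‖p - x‖ ^ 2 + (1 - ‖x‖ ^ 2) * (1 - ‖p‖ ^ 2) := by
  rw [Dn, norm_sub_sq_real, real_inner_comm]
  ring

theorem Dn_pos {x p : E4} (hx : ‖x‖ < 1) (hp : ‖p‖ ≤ 1) : 0 < Dn x p := by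
  have h1 := real_inner_le_norm x p
  have h2 : ‖x‖ * ‖p‖ < 1 := by
    calc ‖x‖ * ‖p‖ ≤ ‖x‖ * 1 := mul_le_mul_of_nonneg_left hp (norm_nonneg _)
      _ < 1 := by linarith
  have h3 : 0 < (1 - ‖x‖ * ‖p‖) ^ 2 := pow_pos (by linarith) 2
  rw [Dn]
  nlinarith

theorem Dn_contDiff (x : E4) : ContDiff ℝ ∞ (Dn x) := by
  unfold Dn
  exact ((contDiff_const.mul (contDiff_norm_sq ℝ)).sub (contDiff_const.mul
    (contDiff_const.inner ℝ contDiff_id))).add contDiff_const

theorem isOpen_Dn (x : E4) : IsOpen {p | 0 < Dn x p} :=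
  isOpen_lt continuous_const (Dn_contDiff x).continuous

theorem Dn_inv_C (x : E4) : ContDiffOn ℝ ∞ (fun p => (Dn x p)⁻¹) {p | 0 < Dn x p} :=
  (Dn_contDiff x).contDiffOn.inv fun _ hp => ne_of_gt hp

theorem Dn_hasFDerivAt (x p : E4) :
    HasFDerivAt (Dn x) (innerSL ℝ ((2 * ‖x‖ ^ 2) • p - (2 : ℝ) • x)) p := by
  have h1 : HasFDerivAt (fun p : E4 => ‖p‖ ^ 2) (2 • (innerSL ℝ p)) p := by
    have := (hasStrictFDerivAt_norm_sq p).hasFDerivAt
    exact this
  have h2 : HasFDerivAt (fun p : E4 => inner ℝ x p) (innerSL ℝ x) p := (innerSL ℝ x).hasFDerivAt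
  have h3 := ((h1.const_mul (‖x‖ ^ 2)).sub (h2.const_mul 2)).add_const (1 : ℝ)
  refine HasFDerivAt.congr_fderiv h3 ?_
  ext v
  simp only [sub_apply, smul_apply, innerSL_apply_apply,
    smul_eq_mul, inner_sub_left, inner_smul_left, nsmul_eq_mul]
  simp
  ring

/-- the gradient of `1 / Dn x ·` -/
noncomputable def DV (x p : E4) : E4 := (-(Dn x p ^ 2)⁻¹) • ((2 * ‖x‖ ^ 2) • p - (2 : ℝ) • x)

theorem Dn_inv_gradient {x p : E4} (hp : Dn x p ≠ 0) :
    HasGradientAt (fun p => (Dn x p)⁻¹) (DV x p) p := by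
  have h1 := (hasDerivAt_inv hp).comp_hasFDerivAt p (Dn_hasFDerivAt x p)
  rw [hasGradientAt_iff_hasFDerivAt]
  refine HasFDerivAt.congr_fderiv h1 ?_
  ext v
  simp [DV]

/-- norm of the gradient of `Dn` -/
theorem Dn_grad_sq (x p : E4) : ‖(2 * ‖x‖ ^ 2) • p - (2 : ℝ) • x‖ ^ 2 = 4 * ‖x‖ ^ 2 * Dn x p := by
  rw [norm_sub_sq_real, norm_smul, norm_smul, inner_smul_left, inner_smul_right, Dn,
    real_inner_comm x p]
  simp
  ring

theorem DV_hasFDerivAt {x p : E4} (hp : Dn x p ≠ 0) (b : E4) :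
    HasFDerivAt (fun p => inner ℝ b (DV x p))
      ((2 * (Dn x p ^ 3)⁻¹ * inner ℝ b ((2 * ‖x‖ ^ 2) • p - (2 : ℝ) • x)) •
        (innerSL ℝ ((2 * ‖x‖ ^ 2) • p - (2 : ℝ) • x)) -
        ((Dn x p ^ 2)⁻¹ * (2 * ‖x‖ ^ 2)) • innerSL ℝ b) p := by
  have h1 : HasDerivAt (fun t : ℝ => -(t ^ 2)⁻¹) (2 * (Dn x p ^ 3)⁻¹) (Dn x p) := by
    have h2 := ((hasDerivAt_pow 2 (Dn x p)).inv (pow_ne_zero 2 hp)).neg
    refine h2.congr_deriv ?_
    simp only [Nat.cast_ofNat, Nat.add_one_sub_one, pow_one]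
    field_simp
  have h3 := h1.comp_hasFDerivAt p (Dn_hasFDerivAt x p)
  have h4 : HasFDerivAt (fun p : E4 => inner ℝ b ((2 * ‖x‖ ^ 2) • p - (2 : ℝ) • x))
      ((2 * ‖x‖ ^ 2) • innerSL ℝ b) p := by
    have h5 : (fun p : E4 => inner ℝ b ((2 * ‖x‖ ^ 2) • p - (2 : ℝ) • x)) =
        fun p => (2 * ‖x‖ ^ 2) * inner ℝ b p - 2 * inner ℝ b x := by
      ext p
      rw [inner_sub_right, inner_smul_right, inner_smul_right]
    rw [h5]
    exact ((innerSL ℝ b).hasFDerivAt.const_mul _).sub_const _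
  have h6 := h3.mul h4
  have h7 : (fun p => inner ℝ b (DV x p)) = fun p : E4 => (-(Dn x p ^ 2)⁻¹) *
      inner ℝ b ((2 * ‖x‖ ^ 2) • p - (2 : ℝ) • x) := by
    ext p
    rw [DV, inner_smul_right]
  rw [h7]
  refine HasFDerivAt.congr_fderiv h6 ?_
  ext v
  simp only [add_apply, sub_apply,
    smul_apply, innerSL_apply_apply, smul_eq_mul, Function.comp]
  ring

theorem Kelvin_int {f g : E4 → ℝ} (hf : ContinuousOn f B) (hg : Continuous g)
    (hgc : HasCompactSupport g) (hgs : tsupport g ⊆ B) : Integrable (fun p => f p * g p) := by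
  have hc : Continuous (fun p => f p * g p) := by
    refine continuous_iff_continuousAt.2 fun p => ?_
    by_cases hp : p ∈ tsupport g
    · exact ((hf p (hgs hp)).continuousAt (isOpen_ball.mem_nhds (hgs hp))).mul hg.continuousAt
    · have h1 : (fun p => f p * g p) =ᶠ[𝓝 p] fun _ => 0 := by
        filter_upwards [(isClosed_tsupport g).isOpen_compl.mem_nhds hp] with q hq
        rw [image_eq_zero_of_notMem_tsupport hq, mul_zero]
      exact (continuousAt_const.congr h1.symm)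
  exact hc.integrable_of_hasCompactSupport hgc.mul_left

/-- `1 / Dn x ·` is harmonic in the ball: weak form -/
theorem Dn_harm {x : E4} (hx : ‖x‖ < 1) {φ : E4 → ℝ} (h : IsTest B φ) :
    ∫ p, inner ℝ (gradient (fun p => (Dn x p)⁻¹) p) (gradient φ p) = 0 := by
  set b := EuclideanSpace.basisFun (Fin 4) ℝ with hb
  have hDB : ∀ p ∈ B, Dn x p ≠ 0 := fun p hp => (Dn_pos hx (mem_ball_zero_iff.1 hp).le).ne'
  have hC1 : ContDiff ℝ 1 φ := h.smooth.of_le (by norm_cast)
  have hdiff : Differentiable ℝ φ := hC1.differentiable (by norm_num)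
  have hw : ∀ i, ∀ p ∈ B, DifferentiableAt ℝ (fun p => inner ℝ (b i) (DV x p)) p :=
    fun i p hp => (DV_hasFDerivAt (hDB p hp) (b i)).differentiableAt
  have e1 : ∀ p, inner ℝ (gradient (fun p => (Dn x p)⁻¹) p) (gradient φ p) =
      ∑ i, inner ℝ (b i) (DV x p) * fderiv ℝ φ p (b i) := by
    intro p
    by_cases hp : p ∈ B
    · rw [(Dn_inv_gradient (hDB p hp)).gradient, ← b.sum_inner_mul_inner]
      refine Finset.sum_congr rfl fun i _ => ?_
      rw [real_inner_comm (b i) (DV x p), ← inner_gradient_left, real_inner_comm (b i) (gradient φ p)]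
    · have hp1 : p ∉ tsupport φ := fun h1 => hp (h.supp h1)
      have h2 : fderiv ℝ φ p = 0 := by
        have := (tsupport_fderiv_subset ℝ (f := φ))
        exact image_eq_zero_of_notMem_tsupport fun h3 => hp1 (this h3)
      simp [gradient, h2]
  have hcont : ∀ i, ContinuousOn (fun p => inner ℝ (b i) (DV x p)) B := fun i p hp =>
    (hw i p hp).continuousAt.continuousWithinAt
  have i1 : ∀ i, Integrable (fun p => inner ℝ (b i) (DV x p) * fderiv ℝ φ p (b i)) := by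
    intro i
    refine Kelvin_int (hcont i) ?_ ?_ ?_
    · exact (hC1.continuous_fderiv (by norm_num)).clm_apply continuous_const
    · exact h.comp.fderiv_apply ℝ (b i)
    · exact (tsupport_fderiv_apply_subset ℝ (b i)).trans h.supp
  have hfd : ∀ i, ∀ p ∈ B, fderiv ℝ (fun p => inner ℝ (b i) (DV x p)) p (b i) =
      2 * (Dn x p ^ 3)⁻¹ * (inner ℝ ((2 * ‖x‖ ^ 2) • p - (2 : ℝ) • x) (b i) *
        inner ℝ (b i) ((2 * ‖x‖ ^ 2) • p - (2 : ℝ) • x)) - (Dn x p ^ 2)⁻¹ * (2 * ‖x‖ ^ 2) := by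
    intro i p hp
    rw [(DV_hasFDerivAt (hDB p hp) (b i)).fderiv]
    simp only [sub_apply, smul_apply, innerSL_apply_apply, smul_eq_mul]
    rw [real_inner_self_eq_norm_sq, b.norm_eq_one i]
    ring
  have i2 : ∀ i, Integrable (fun p => fderiv ℝ (fun p => inner ℝ (b i) (DV x p)) p (b i) * φ p) := by
    intro i
    refine Kelvin_int ?_ h.smooth.continuous h.comp h.supp
    refine ContinuousOn.congr ?_ (hfd i)
    have c1 : Continuous (Dn x) := (Dn_contDiff x).continuous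
    have c2 : Continuous fun p : E4 => (2 * ‖x‖ ^ 2) • p - (2 : ℝ) • x := by fun_prop
    have c3 : Continuous fun p : E4 => (inner ℝ ((2 * ‖x‖ ^ 2) • p - (2 : ℝ) • x) (b i) *
        inner ℝ (b i) ((2 * ‖x‖ ^ 2) • p - (2 : ℝ) • x)) :=
      (c2.inner continuous_const).mul (continuous_const.inner c2)
    have c4 : ContinuousOn (fun p => (Dn x p ^ 3)⁻¹) B :=
      (c1.pow 3).continuousOn.inv₀ fun p hp => pow_ne_zero 3 (hDB p hp)
    have c5 : ContinuousOn (fun p => (Dn x p ^ 2)⁻¹) B :=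
      (c1.pow 2).continuousOn.inv₀ fun p hp => pow_ne_zero 2 (hDB p hp)
    exact ((continuousOn_const.mul c4).mul c3.continuousOn).sub (c5.mul continuousOn_const)
  have e2 : ∀ i, ∫ p, inner ℝ (b i) (DV x p) * fderiv ℝ φ p (b i) =
      -∫ p, fderiv ℝ (fun p => inner ℝ (b i) (DV x p)) p (b i) * φ p := by
    intro i
    refine integral_mul_fderiv_eq_neg_fderiv_mul_of_integrable (i2 i) (i1 i) ?_ ?_ ?_
    · exact Kelvin_int (hcont i) h.smooth.continuous h.comp h.supp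
    · exact fun p hp => hw i p (h.supp hp)
    · exact fun p _ => hdiff p
  simp only [e1]
  rw [integral_finsetSum _ fun i _ => i1 i]
  simp only [e2]
  rw [Finset.sum_neg_distrib, ← integral_finsetSum _ fun i _ => i2 i, neg_eq_zero]
  refine integral_eq_zero_of_ae (Eventually.of_forall fun p => ?_)
  show ∑ i, (fderiv ℝ (fun p => inner ℝ (b i) (DV x p)) p) (b i) * φ p = 0
  rw [← Finset.sum_mul]
  by_cases hp : p ∈ B
  · rw [Finset.sum_congr rfl fun i _ => hfd i p hp, Finset.sum_sub_distrib, ← Finset.mul_sum,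
      b.sum_inner_mul_inner, real_inner_self_eq_norm_sq, Dn_grad_sq]
    have := hDB p hp
    simp only [Finset.sum_const, Finset.card_univ, Fintype.card_fin, nsmul_eq_mul]
    rw [mul_eq_zero]
    left
    field_simp
    norm_num
  · rw [image_eq_zero_of_notMem_tsupport fun h1 => hp (h.supp h1), mul_zero]

end Pool.Agent.H57.BN
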