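import Pool.Agent.H57.BN.MemC1

set_option autoImplicit false

open MeasureTheory Filter Topology Metric Set
open scoped ENNReal NNReal ContDiff

namespace Pool.Agent.H57.BN

/-- dominated convergence in `L^p` -/
theorem mb_tendsto_eLpNorm_dom {E : Type*} [NormedAddCommGroup E] {p : ℝ≥0∞} (hp0 : p ≠ 0)
    (hp : p ≠ (⊤ : ℝ≥0∞)) {F : ℕ → E4 → E} {G : E4 → E} {g : E4 → ℝ}
    (hF : ∀ n, AEStronglyMeasurable (F n) (volume : Measure E4))
    (hG : AEStronglyMeasurable G (volume : Measure E4)) (hg : MemLp g p (volume : Measure E4))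
    (hb : ∀ n, ∀ᵐ x ∂(volume : Measure E4), ‖F n x - G x‖ ≤ g x)
    (hl : ∀ᵐ x ∂(volume : Measure E4), Tendsto (fun n => F n x) atTop (𝓝 (G x))) :
    Tendsto (fun n => eLpNorm (F n - G) p (volume : Measure E4)) atTop (𝓝 0) := by
  have hpp : 0 < p.toReal := ENNReal.toReal_pos hp0 hp
  have h1 : Tendsto (fun n => ∫⁻ x, ‖(F n - G) x‖ₑ ^ p.toReal ∂(volume : Measure E4)) atTop
      (𝓝 (∫⁻ _, 0 ∂(volume : Measure E4))) := by
    refine tendsto_lintegral_of_dominated_convergence' (fun x => ‖g x‖ₑ ^ p.toReal) ?_ ?_ ?_ ?_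
    · intro n
      exact ((hF n).sub hG).enorm.pow_const _
    · intro n
      filter_upwards [hb n] with x hx
      refine ENNReal.rpow_le_rpow ?_ hpp.le
      have : ‖(F n - G) x‖ ≤ ‖g x‖ := by
        rw [Pi.sub_apply, Real.norm_eq_abs]
        exact hx.trans (le_abs_self _)
      exact enorm_le_iff_norm_le.2 this
    · exact (lintegral_rpow_enorm_lt_top_of_eLpNorm_lt_top hp0 hp hg.2).ne
    · filter_upwards [hl] with x hx
      have h2 : Tendsto (fun n => ‖(F n - G) x‖ₑ) atTop (𝓝 0) := by
        have h3 : Tendsto (fun n => F n x - G x) atTop (𝓝 0) := by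
          have := hx.sub_const (G x)
          simpa using this
        have := h3.enorm
        simpa using this
      have h4 := (ENNReal.continuous_rpow_const (y := p.toReal)).tendsto 0 |>.comp h2
      simpa [ENNReal.zero_rpow_of_pos hpp, Function.comp_def] using h4
  rw [lintegral_zero] at h1
  have h5 := (ENNReal.continuous_rpow_const (y := 1 / p.toReal)).tendsto 0 |>.comp h1
  have h6 : (0 : ℝ≥0∞) ^ (1 / p.toReal) = 0 := ENNReal.zero_rpow_of_pos (by positivity)
  rw [h6] at h5
  refine h5.congr fun n => ?_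
  rw [eLpNorm_eq_lintegral_rpow_enorm_toReal hp0 hp]
  rfl

/-- the truncation functions -/
noncomputable def mbTrunc (e t : ℝ) : ℝ := ∫ s in (0:ℝ)..t, Real.smoothTransition (s / e - 1)

theorem mbTrunc_cont (e : ℝ) : Continuous fun s : ℝ => Real.smoothTransition (s / e - 1) :=
  Real.smoothTransition.continuous.comp ((continuous_id.div_const e).sub continuous_const)

theorem mbTrunc_hasDerivAt (e t : ℝ) :
    HasDerivAt (mbTrunc e) (Real.smoothTransition (t / e - 1)) t :=
  ((mbTrunc_cont e).integral_hasStrictDerivAt 0 t).hasDerivAt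

theorem mbTrunc_contDiff (e : ℝ) : ContDiff ℝ 1 (mbTrunc e) := by
  rw [contDiff_one_iff_deriv]
  refine ⟨fun t => (mbTrunc_hasDerivAt e t).differentiableAt, ?_⟩
  have : deriv (mbTrunc e) = fun s : ℝ => Real.smoothTransition (s / e - 1) := by
    funext t
    exact (mbTrunc_hasDerivAt e t).deriv
  rw [this]
  exact mbTrunc_cont e

theorem mbTrunc_zero {e t : ℝ} (he : 0 < e) (ht : t ≤ e) : mbTrunc e t = 0 := by
  unfold mbTrunc
  have : ∫ s in (0:ℝ)..t, Real.smoothTransition (s / e - 1) = ∫ s in (0:ℝ)..t, (0:ℝ) := by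
    apply intervalIntegral.integral_congr
    intro s hs
    simp only
    apply Real.smoothTransition.zero_of_nonpos
    have h1 : s ≤ e := by
      rw [Set.mem_uIcc] at hs
      rcases hs with hs | hs
      · exact hs.2.trans ht
      · exact hs.2.trans he.le
    have : s / e ≤ 1 := (div_le_one he).2 h1
    linarith
  rw [this]
  simp

theorem mbTrunc_sub_le {e s t : ℝ} (hst : s ≤ t) : 0 ≤ mbTrunc e t - mbTrunc e s ∧
    mbTrunc e t - mbTrunc e s ≤ t - s := by
  have hint : ∀ a b : ℝ, IntervalIntegrable (fun s : ℝ => Real.smoothTransition (s / e - 1))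
      volume a b := fun a b => (mbTrunc_cont e).intervalIntegrable a b
  have h1 : mbTrunc e t - mbTrunc e s = ∫ r in s..t, Real.smoothTransition (r / e - 1) := by
    unfold mbTrunc
    rw [intervalIntegral.integral_interval_sub_left (hint _ _) (hint _ _)]
  rw [h1]
  constructor
  · exact intervalIntegral.integral_nonneg hst fun u _ => Real.smoothTransition.nonneg _
  · have := intervalIntegral.integral_mono_on hst (hint s t)
      ((continuous_const (y := (1:ℝ))).intervalIntegrable s t) fun u _ =>
        Real.smoothTransition.le_one (u / e - 1)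
    simpa using this

theorem mbTrunc_nonneg {e t : ℝ} (ht : 0 ≤ t) : 0 ≤ mbTrunc e t := by
  have := (mbTrunc_sub_le (e := e) ht).1
  simpa [mbTrunc] using this

theorem mbTrunc_le {e t : ℝ} (ht : 0 ≤ t) : mbTrunc e t ≤ t := by
  have := (mbTrunc_sub_le (e := e) ht).2
  simpa [mbTrunc] using this

theorem mb_le_trunc {e t : ℝ} (he : 0 < e) (ht : 0 ≤ t) : t - 2 * e ≤ mbTrunc e t := by
  rcases le_total t (2 * e) with h | h
  · linarith [mbTrunc_nonneg (e := e) ht]
  · have hint : ∀ a b : ℝ, IntervalIntegrable (fun s : ℝ => Real.smoothTransition (s / e - 1))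
        volume a b := fun a b => (mbTrunc_cont e).intervalIntegrable a b
    have h1 : mbTrunc e t - mbTrunc e (2 * e) = ∫ r in (2*e)..t, Real.smoothTransition (r / e - 1) := by
      unfold mbTrunc
      rw [intervalIntegral.integral_interval_sub_left (hint _ _) (hint _ _)]
    have h2 : ∫ r in (2*e)..t, Real.smoothTransition (r / e - 1) = ∫ r in (2*e)..t, (1:ℝ) := by
      apply intervalIntegral.integral_congr
      intro s hs
      simp only
      apply Real.smoothTransition.one_of_one_le
      rw [Set.uIcc_of_le h] at hs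
      have : 2 ≤ s / e := by
        rw [le_div_iff₀ he]; exact hs.1
      linarith
    rw [h2] at h1
    simp at h1
    linarith [mbTrunc_nonneg (e := e) (t := 2 * e) (by linarith)]

theorem mbTrunc_tendsto {t : ℝ} (ht : 0 ≤ t) :
    Tendsto (fun n : ℕ => mbTrunc (1 / ((n:ℝ) + 1)) t) atTop (𝓝 t) := by
  have h1 : Tendsto (fun n : ℕ => t - 2 * (1 / ((n:ℝ) + 1))) atTop (𝓝 (t - 2 * 0)) :=
    tendsto_const_nhds.sub (tendsto_one_div_add_atTop_nhds_zero_nat.const_mul 2)
  rw [mul_zero, sub_zero] at h1
  exact tendsto_of_tendsto_of_tendsto_of_le_of_le h1 tendsto_const_nhds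
    (fun n => mb_le_trunc (by positivity) ht) (fun n => mbTrunc_le ht)

theorem mb_smooth_tendsto {t : ℝ} (ht : 0 < t) :
    Tendsto (fun n : ℕ => Real.smoothTransition (t / (1 / ((n:ℝ) + 1)) - 1)) atTop (𝓝 1) := by
  obtain ⟨N, hN⟩ := exists_nat_gt (2 / t)
  refine tendsto_const_nhds.congr' ?_
  filter_upwards [eventually_ge_atTop N] with n hn
  symm
  apply Real.smoothTransition.one_of_one_le
  have h1 : (N:ℝ) ≤ n := by exact_mod_cast hn
  have h2 : 2 < t * N := by
    rw [div_lt_iff₀ ht] at hN
    linarith
  have h3 : t / (1 / ((n:ℝ) + 1)) = t * (n + 1) := by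
    field_simp
  rw [h3]
  nlinarith

/-- A function which is `C¹` near the closed ball, positive inside and zero on the sphere, extended by
zero, belongs to `H B`: `F_ε ∘ f` with `F_ε(t) = (t-ε)²/t` for `t > ε`, `0` for `t ≤ ε`, is `C¹` with
compact support in `B` (after multiplication by the indicator of `B`), `F_ε' = 1 - ε²/t² ∈ [0,1]`, and
dominated convergence. -/
theorem mem_of_pos_ball {f : E4 → ℝ} {U : Set E4} (hU : IsOpen U) (hB : closedBall 0 1 ⊆ U)
    (hf : ContDiffOn ℝ 1 f U) (hpos : ∀ p ∈ ball (0 : E4) 1, 0 < f p)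
    (h0 : ∀ p ∈ sphere (0 : E4) 1, f p = 0) :
    ∃ x ∈ H B, fn x =ᵐ[volume] indicator B f ∧ gr x =ᵐ[volume] indicator B (gradient f) := by
  have hBU : B ⊆ U := ball_subset_closedBall.trans hB
  have hBo : IsOpen B := isOpen_ball
  have hat : ∀ p ∈ B, ContDiffAt ℝ 1 f p := fun p hp => hf.contDiffAt (hU.mem_nhds (hBU hp))
  have hfc : ContinuousOn f (closedBall (0:E4) 1) := hf.continuousOn.mono hB
  have hgc : ContinuousOn (gradient f) (closedBall (0:E4) 1) := by
    have h1 : ContinuousOn (fderiv ℝ f) (closedBall (0:E4) 1) :=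
      (hf.continuousOn_fderiv_of_isOpen hU le_rfl).mono hB
    exact (InnerProductSpace.toDual ℝ E4).symm.continuous.comp_continuousOn h1
  obtain ⟨C0, hC0⟩ := (isCompact_closedBall (0:E4) 1).exists_bound_of_continuousOn hfc
  obtain ⟨C1, hC1⟩ := (isCompact_closedBall (0:E4) 1).exists_bound_of_continuousOn hgc
  let e : ℕ → ℝ := fun n => 1 / ((n:ℝ) + 1)
  have he : ∀ n, 0 < e n := fun n => by positivity
  let g : ℕ → E4 → ℝ := fun n => indicator B (fun p => mbTrunc (e n) (f p))
  let G : ℕ → E4 → E4 := fun n =>
    indicator B (fun p => Real.smoothTransition (f p / e n - 1) • gradient f p)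
  let K : ℕ → Set E4 := fun n => closedBall (0:E4) 1 ∩ f ⁻¹' (Ici (e n))
  have hKc : ∀ n, IsClosed (K n) := fun n =>
    hfc.preimage_isClosed_of_isClosed isClosed_closedBall isClosed_Ici
  have hKk : ∀ n, IsCompact (K n) := fun n =>
    (isCompact_closedBall (0:E4) 1).of_isClosed_subset (hKc n) inter_subset_left
  have hKB : ∀ n, K n ⊆ B := by
    intro n p hp
    rcases (mem_closedBall.1 hp.1).lt_or_eq with h | h
    · exact h
    · exfalso
      have h1 : f p = 0 := h0 p h
      have h2 : e n ≤ f p := hp.2
      linarith [he n]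
  have hgK : ∀ n, ∀ p, p ∉ K n → g n p = 0 := by
    intro n p hp
    by_cases hpB : p ∈ B
    · have h1 : f p < e n := by
        by_contra h
        exact hp ⟨ball_subset_closedBall hpB, not_lt.1 h⟩
      simp only [g, indicator_of_mem hpB]
      exact mbTrunc_zero (he n) h1.le
    · exact indicator_of_notMem hpB _
  have hg1 : ∀ n, ∀ p ∈ B, g n =ᶠ[𝓝 p] (mbTrunc (e n)) ∘ f := by
    intro n p hp
    filter_upwards [hBo.mem_nhds hp] with y hy
    exact indicator_of_mem hy _
  have hg2 : ∀ n, ∀ p, p ∉ K n → g n =ᶠ[𝓝 p] fun _ => 0 := by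
    intro n p hp
    filter_upwards [(hKc n).isOpen_compl.mem_nhds hp] with y hy
    exact hgK n y hy
  have hgsm : ∀ n, ContDiff ℝ 1 (g n) := by
    intro n
    rw [contDiff_iff_contDiffAt]
    intro p
    by_cases hp : p ∈ B
    · exact ((mbTrunc_contDiff (e n)).contDiffAt.comp p (hat p hp)).congr_of_eventuallyEq
        (hg1 n p hp)
    · exact contDiffAt_const.congr_of_eventuallyEq (hg2 n p fun h => hp (hKB n h))
  have hgcs : ∀ n, HasCompactSupport (g n) := fun n =>
    HasCompactSupport.intro (hKk n) (hgK n)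
  have hgts : ∀ n, tsupport (g n) ⊆ B := by
    intro n
    refine (closure_minimal ?_ (hKc n)).trans (hKB n)
    intro p hp
    by_contra h
    exact hp (hgK n p h)
  have hgrad : ∀ n, gradient (g n) = G n := by
    intro n
    funext p
    by_cases hp : p ∈ B
    · have h1 : HasFDerivAt ((mbTrunc (e n)) ∘ f)
          ((Real.smoothTransition (f p / e n - 1)) • fderiv ℝ f p) p :=
        HasDerivAt.comp_hasFDerivAt p (mbTrunc_hasDerivAt (e n) (f p))
          ((hat p hp).differentiableAt one_ne_zero).hasFDerivAt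
      have h2 : fderiv ℝ (g n) p = (Real.smoothTransition (f p / e n - 1)) • fderiv ℝ f p := by
        rw [(hg1 n p hp).fderiv_eq]
        exact h1.fderiv
      simp only [G, indicator_of_mem hp]
      unfold gradient
      rw [h2, map_smul]
    · have h2 : fderiv ℝ (g n) p = 0 := by
        rw [(hg2 n p fun h => hp (hKB n h)).fderiv_eq]
        simp
      simp only [G, indicator_of_notMem hp]
      unfold gradient
      rw [h2, map_zero]
  -- the approximations
  choose x hxH hxf hxg using fun n => mem_of_C1 hBo (hgsm n) (hgcs n) (hgts n)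
  -- limits
  have hvol : volume B ≠ (⊤ : ℝ≥0∞) := measure_ball_lt_top.ne
  have hbd : ∀ C : ℝ, ∀ r : ℝ≥0∞, MemLp (indicator B (fun _ : E4 => C)) r (volume : Measure E4) :=
    fun C r => memLp_indicator_const r measurableSet_ball C (Or.inr hvol)
  have hfB : AEStronglyMeasurable (indicator B f) (volume : Measure E4) := by
    rw [aestronglyMeasurable_indicator_iff measurableSet_ball]
    exact (hfc.mono ball_subset_closedBall).aestronglyMeasurable measurableSet_ball
  have hGB : AEStronglyMeasurable (indicator B (gradient f)) (volume : Measure E4) := by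
    rw [aestronglyMeasurable_indicator_iff measurableSet_ball]
    exact (hgc.mono ball_subset_closedBall).aestronglyMeasurable measurableSet_ball
  have hf4 : MemLp (indicator B f) 4 (volume : Measure E4) := by
    refine (hbd C0 4).mono hfB (ae_of_all _ fun p => ?_)
    by_cases hp : p ∈ B
    · simp only [indicator_of_mem hp]
      exact (hC0 p (ball_subset_closedBall hp)).trans (le_abs_self _)
    · simp [indicator_of_notMem hp]
  have hG2 : MemLp (indicator B (gradient f)) 2 (volume : Measure E4) := by
    refine (hbd C1 2).mono hGB (ae_of_all _ fun p => ?_)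
    by_cases hp : p ∈ B
    · simp only [indicator_of_mem hp]
      exact (hC1 p (ball_subset_closedBall hp)).trans (le_abs_self _)
    · simp [indicator_of_notMem hp]
  have hg4 : ∀ n, MemLp (g n) 4 (volume : Measure E4) := fun n =>
    (hgsm n).continuous.memLp_of_hasCompactSupport (hgcs n)
  have hGn : ∀ n, MemLp (G n) 2 (volume : Measure E4) := by
    intro n
    rw [← hgrad n]
    exact (continuous_gradient (hgsm n)).memLp_of_hasCompactSupport
      (hasCompactSupport_gradient (hgcs n))
  have lim4 : Tendsto (fun n => eLpNorm (g n - indicator B f) 4 (volume : Measure E4)) atTop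
      (𝓝 0) := by
    refine mb_tendsto_eLpNorm_dom (by norm_num) (by norm_num) (fun n => (hg4 n).1) hfB (hbd C0 4)
      (fun n => ae_of_all _ fun p => ?_) (ae_of_all _ fun p => ?_)
    · by_cases hp : p ∈ B
      · simp only [g, indicator_of_mem hp]
        have h1 := hC0 p (ball_subset_closedBall hp)
        have h2 := mbTrunc_nonneg (e := e n) (hpos p hp).le
        have h3 := mbTrunc_le (e := e n) (hpos p hp).le
        rw [Real.norm_eq_abs] at h1 ⊢
        rw [abs_of_nonneg (hpos p hp).le] at h1
        rw [abs_le]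
        constructor <;> linarith
      · simp [g, indicator_of_notMem hp]
    · by_cases hp : p ∈ B
      · simp only [g, indicator_of_mem hp]
        exact mbTrunc_tendsto (hpos p hp).le
      · simp only [g, indicator_of_notMem hp]
        exact tendsto_const_nhds
  have lim2 : Tendsto (fun n => eLpNorm (G n - indicator B (gradient f)) 2
      (volume : Measure E4)) atTop (𝓝 0) := by
    refine mb_tendsto_eLpNorm_dom (by norm_num) (by norm_num) (fun n => (hGn n).1) hGB (hbd C1 2)
      (fun n => ae_of_all _ fun p => ?_) (ae_of_all _ fun p => ?_)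
    · by_cases hp : p ∈ B
      · simp only [G, indicator_of_mem hp]
        have h1 := hC1 p (ball_subset_closedBall hp)
        have h2 : Real.smoothTransition (f p / e n - 1) • gradient f p - gradient f p
            = (Real.smoothTransition (f p / e n - 1) - 1) • gradient f p := by
          rw [sub_smul, one_smul]
        rw [h2, norm_smul]
        have h3 : ‖Real.smoothTransition (f p / e n - 1) - 1‖ ≤ 1 := by
          rw [Real.norm_eq_abs, abs_le]
          constructor <;> linarith [Real.smoothTransition.nonneg (f p / e n - 1),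
            Real.smoothTransition.le_one (f p / e n - 1)]
        calc _ ≤ 1 * ‖gradient f p‖ := mul_le_mul_of_nonneg_right h3 (norm_nonneg _)
          _ ≤ C1 := by rw [one_mul]; exact h1
      · simp [G, indicator_of_notMem hp]
    · by_cases hp : p ∈ B
      · simp only [G, indicator_of_mem hp]
        have := (mb_smooth_tendsto (hpos p hp)).smul_const (gradient f p)
        rw [one_smul] at this
        exact this
      · simp only [G, indicator_of_notMem hp]
        exact tendsto_const_nhds
  -- convergence in `LV`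
  have h2 : Tendsto (fun n => gr (x n)) atTop (𝓝 (hG2.toLp _)) := by
    have h3 := (Lp.tendsto_Lp_iff_tendsto_eLpNorm'' G hGn _ hG2).2 lim2
    refine h3.congr fun n => ?_
    apply Lp.ext
    refine (hGn n).coeFn_toLp.trans ?_
    rw [← hgrad n]
    exact (hxg n).symm
  have hmem : hG2.toLp _ ∈ DD := by
    refine (Submodule.isClosed_topologicalClosure _).mem_of_tendsto h2 ?_
    exact Eventually.of_forall fun n => (x n).2
  let y : D := ⟨hG2.toLp _, hmem⟩
  have hxy : Tendsto x atTop (𝓝 y) := by
    rw [tendsto_subtype_rng]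
    exact h2
  refine ⟨y, (isClosed_H B).mem_of_tendsto hxy (Eventually.of_forall hxH), ?_, ?_⟩
  · have h3 : Tendsto (fun n => fn (x n)) atTop (𝓝 (fn y)) := (fn.continuous.tendsto y).comp hxy
    have h4 : Tendsto (fun n => fn (x n)) atTop (𝓝 (hf4.toLp _)) := by
      have h5 := (Lp.tendsto_Lp_iff_tendsto_eLpNorm'' g hg4 _ hf4).2 lim4
      refine h5.congr fun n => ?_
      apply Lp.ext
      exact (hg4 n).coeFn_toLp.trans (hxf n).symm
    have h6 : fn y = hf4.toLp _ := tendsto_nhds_unique h3 h4
    rw [h6]
    exact hf4.coeFn_toLp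
  · exact hG2.coeFn_toLp

end Pool.Agent.H57.BN
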