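import Pool.Agent.H57.BN.PhiEq
import Pool.Agent.H57.BN.Kelvin
import Pool.Agent.H57.BN.MemBall

set_option autoImplicit false

open MeasureTheory Filter Topology Metric Set
open scoped ENNReal NNReal ContDiff

namespace Pool.Agent.H57.BN

/-- the (mollified) Green function of the unit ball -/
noncomputable def Kf (r : ℝ) (x p : E4) : ℝ := Phi r (p - x) - (Dn x p)⁻¹

theorem Kf_lower {x p : E4} {r : ℝ} (hx : ‖x‖ < 1) (hr : 0 < r) (hrx : 2 * r < 1 - ‖x‖)
    (hp : ‖p‖ < 1) : (1 - ‖x‖ ^ 2) * (1 - ‖p‖ ^ 2) / 20 ≤ Kf r x p := by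
  have hx0 := norm_nonneg x
  have hp0 := norm_nonneg p
  have hx2 : 0 < 1 - ‖x‖ ^ 2 := by nlinarith
  have hp2 : 0 < 1 - ‖p‖ ^ 2 := by nlinarith
  set s : ℝ := (1 - ‖x‖ ^ 2) * (1 - ‖p‖ ^ 2) with hs
  have hs0 : 0 < s := mul_pos hx2 hp2
  have hs1 : s ≤ 1 := by
    have h1 : 1 - ‖x‖ ^ 2 ≤ 1 := by nlinarith
    have h2 : 1 - ‖p‖ ^ 2 ≤ 1 := by nlinarith
    calc s ≤ 1 * 1 := mul_le_mul h1 h2 hp2.le (by norm_num)
      _ = 1 := by norm_num
  have hD : Dn x p = ‖p - x‖ ^ 2 + s := Dn_eq x p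
  have ha0 : 0 ≤ ‖p - x‖ := norm_nonneg _
  have ha2 : ‖p - x‖ ≤ 2 := (norm_sub_le p x).trans (by linarith)
  rw [Kf, hD]
  rcases le_or_gt r ‖p - x‖ with h | h
  · have h1 : Phi r (p - x) = (‖p - x‖ ^ 2)⁻¹ := if_pos h
    have ha : 0 < ‖p - x‖ := lt_of_lt_of_le hr h
    rw [h1]
    have h2 : (‖p - x‖ ^ 2)⁻¹ - (‖p - x‖ ^ 2 + s)⁻¹ = s / (‖p - x‖ ^ 2 * (‖p - x‖ ^ 2 + s)) := by
      field_simp
      ring
    rw [h2]
    refine div_le_div_of_nonneg_left hs0.le (by positivity) ?_
    have h3 : ‖p - x‖ ^ 2 ≤ 4 := by nlinarith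
    have h4 : 0 < ‖p - x‖ ^ 2 := by positivity
    nlinarith
  · have h1 := Phi_lower hr (p - x)
    rw [max_eq_right h.le] at h1
    have h2 : ‖p‖ < ‖x‖ + r := by
      calc ‖p‖ = ‖(p - x) + x‖ := by rw [sub_add_cancel]
        _ ≤ ‖p - x‖ + ‖x‖ := norm_add_le _ _
        _ < ‖x‖ + r := by linarith
    have h3 : 2 * r ≤ 1 - ‖x‖ ^ 2 := by nlinarith
    have h4 : r ≤ 1 - ‖p‖ ^ 2 := by nlinarith
    have h5 : 2 * r ^ 2 ≤ s := by
      calc 2 * r ^ 2 = (2 * r) * r := by ring
        _ ≤ s := mul_le_mul h3 h4 hr.le hx2.le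
    have h6 : (‖p - x‖ ^ 2 + s)⁻¹ ≤ s⁻¹ := inv_anti₀ hs0 (by nlinarith)
    have h7 : 2 * s⁻¹ ≤ (r ^ 2)⁻¹ := by
      rw [← div_eq_mul_inv, div_le_iff₀ hs0, ← div_eq_inv_mul, le_div_iff₀ (by positivity)]
      linarith
    have h8 : s / 20 ≤ s⁻¹ := by
      have h9 : 1 ≤ s⁻¹ := (one_le_inv₀ hs0).2 hs1
      linarith
    linarith

theorem Kf_sphere {x p : E4} {r : ℝ} (hx : ‖x‖ < 1) (hr : 0 < r) (hrx : 2 * r < 1 - ‖x‖)
    (hp : ‖p‖ = 1) : Kf r x p = 0 := by
  have h1 : r ≤ ‖p - x‖ := by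
    have h2 := norm_sub_norm_le p x
    rw [hp] at h2
    linarith
  have h3 : Phi r (p - x) = (‖p - x‖ ^ 2)⁻¹ := if_pos h1
  rw [Kf, h3, Dn_eq, hp]
  simp

theorem Kf_grad {x p : E4} {r : ℝ} (hr : 0 < r) (hp : Dn x p ≠ 0) :
    HasGradientAt (Kf r x) (gradient (Phi r) (p - x) - gradient (fun p => (Dn x p)⁻¹) p) p := by
  have h1 : HasGradientAt (Phi r) (gradient (Phi r) (p - x)) (p - x) :=
    (Phi_grad hr (p - x)).differentiableAt.hasGradientAt
  have h2 : HasGradientAt (fun p => (Dn x p)⁻¹) (gradient (fun p => (Dn x p)⁻¹) p) p :=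
    (Dn_inv_gradient hp).differentiableAt.hasGradientAt
  rw [hasGradientAt_iff_hasFDerivAt] at h1 h2 ⊢
  have h3 := h1.comp p ((hasFDerivAt_id p).sub_const x)
  rw [map_sub]
  have h4 := h3.sub h2
  exact h4

theorem exists_KB {x : E4} {r : ℝ} (hx : ‖x‖ < 1) (hr : 0 < r) (hrx : 2 * r < 1 - ‖x‖) :
    ∃ k ∈ H B, (fn k =ᵐ[volume] indicator B (Kf r x)) ∧
      ∀ φ ∈ H B, inner ℝ k φ = 8 * (r ^ 4)⁻¹ * ∫ p in ball x r, fn φ p := by
  have hB : closedBall (0 : E4) 1 ⊆ {p | 0 < Dn x p} := fun p hp =>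
    Dn_pos hx (mem_closedBall_zero_iff.1 hp)
  have hf : ContDiffOn ℝ 1 (Kf r x) {p | 0 < Dn x p} := by
    refine ContDiffOn.sub ?_ ((Dn_inv_C x).of_le (by norm_cast))
    exact ((Phi_C1 hr).comp (contDiff_id.sub contDiff_const)).contDiffOn
  have hpos : ∀ p ∈ ball (0 : E4) 1, 0 < Kf r x p := by
    intro p hp
    have hp1 : ‖p‖ < 1 := mem_ball_zero_iff.1 hp
    refine lt_of_lt_of_le ?_ (Kf_lower hx hr hrx hp1)
    have hx0 := norm_nonneg x
    have hp0 := norm_nonneg p
    have hx2 : 0 < 1 - ‖x‖ ^ 2 := by nlinarith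
    have hp2 : 0 < 1 - ‖p‖ ^ 2 := by nlinarith
    positivity
  obtain ⟨k, hkH, hkf, hkg⟩ := mem_of_pos_ball (isOpen_Dn x) hB hf hpos
    (fun p hp => Kf_sphere hx hr hrx (mem_sphere_zero_iff_norm.1 hp))
  refine ⟨k, hkH, hkf, ?_⟩
  -- for test functions
  have htest : ∀ (φ : E4 → ℝ) (h : IsTest B φ),
      inner ℝ k (toD h) = 8 * (r ^ 4)⁻¹ * ∫ p in ball x r, fn (toD h) p := by
    intro φ h
    have hC1 : ContDiff ℝ 1 φ := h.smooth.of_le (by norm_cast)
    have hgc : Continuous (gradient φ) := continuous_gradient hC1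
    have hgs : HasCompactSupport (gradient φ) := hasCompactSupport_gradient h.comp
    have hgz : ∀ p, p ∉ B → gradient φ p = 0 := by
      intro p hp
      have : fderiv ℝ φ p = 0 := by
        by_contra hne
        exact hp (h.supp (tsupport_fderiv_subset ℝ (subset_tsupport _ hne)))
      rw [gradient, this, map_zero]
    have hts : tsupport (gradient φ) ⊆ B := by
      refine subset_trans ?_ h.supp
      refine closure_minimal (fun p hp => ?_) (isClosed_tsupport φ)
      by_contra hcon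
      refine hp ?_
      have : fderiv ℝ φ p = 0 := by
        by_contra hne
        exact hcon (tsupport_fderiv_subset ℝ (subset_tsupport _ hne))
      rw [gradient, this, map_zero]
    rw [inner_eq]
    have e1 : ∫ p, inner ℝ (gr k p) (gr (toD h) p) =
        ∫ p, (inner ℝ (gradient (Phi r) (p - x)) (gradient φ p) -
          inner ℝ (gradient (fun p => (Dn x p)⁻¹) p) (gradient φ p)) := by
      refine integral_congr_ae ?_
      filter_upwards [hkg, gr_toD_ae h] with p hp1 hp2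
      rw [hp1, hp2]
      by_cases hpB : p ∈ B
      · rw [indicator_of_mem hpB, (Kf_grad hr (hB (ball_subset_closedBall hpB)).ne').gradient,
          inner_sub_left]
      · rw [indicator_of_notMem hpB, hgz p hpB]
        simp
    have i1 : Integrable (fun p => inner ℝ (gradient (Phi r) (p - x)) (gradient φ p)) := by
      refine Continuous.integrable_of_hasCompactSupport ?_ ?_
      · exact ((continuous_gradient (Phi_C1 hr)).comp (continuous_id.sub continuous_const)).inner hgc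
      · refine HasCompactSupport.intro hgs.isCompact fun p hp => ?_
        rw [image_eq_zero_of_notMem_tsupport hp, inner_zero_right]
    have i2 : Integrable (fun p => inner ℝ (gradient (fun p => (Dn x p)⁻¹) p) (gradient φ p)) := by
      refine Continuous.integrable_of_hasCompactSupport ?_ ?_
      · refine continuous_iff_continuousAt.2 fun p => ?_
        by_cases hp : p ∈ tsupport (gradient φ)
        · have hpB : p ∈ B := hts hp
          have h5 : ContinuousOn (gradient fun p => (Dn x p)⁻¹) {p | 0 < Dn x p} := by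
            have h6 : ContinuousOn (fderiv ℝ fun p => (Dn x p)⁻¹) {p | 0 < Dn x p} :=
              (Dn_inv_C x).continuousOn_fderiv_of_isOpen (isOpen_Dn x) (by norm_cast)
            exact (InnerProductSpace.toDual ℝ E4).symm.continuous.comp_continuousOn h6
          exact (h5.continuousAt ((isOpen_Dn x).mem_nhds (hB (ball_subset_closedBall hpB)))).inner
            hgc.continuousAt
        · have h7 : (fun p => inner ℝ (gradient (fun p => (Dn x p)⁻¹) p) (gradient φ p))
              =ᶠ[𝓝 p] fun _ => 0 := by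
            filter_upwards [(isClosed_tsupport (gradient φ)).isOpen_compl.mem_nhds hp] with q hq
            rw [image_eq_zero_of_notMem_tsupport hq, inner_zero_right]
          exact continuousAt_const.congr h7.symm
      · refine HasCompactSupport.intro hgs.isCompact fun p hp => ?_
        rw [image_eq_zero_of_notMem_tsupport hp, inner_zero_right]
    rw [e1, integral_sub i1 i2, Dn_harm hx h, sub_zero, Phi_eq hr x (h.mono (subset_univ _))]
    congr 1
    refine integral_congr_ae ?_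
    have h9 : fn (toD h) =ᵐ[volume.restrict (ball x r)] φ := ae_restrict_of_ae (fn_toD_ae h)
    exact h9.symm
  intro φ hφ
  obtain ⟨ψ, hψ, hlim⟩ := mem_H_iff_seq.1 hφ
  have hind : MemLp (indicator (ball x r) fun _ : E4 => (1 : ℝ)) (ENNReal.ofReal (4 / 3))
      (volume : Measure E4) :=
    memLp_indicator_const _ measurableSet_ball 1 (Or.inr measure_ball_lt_top.ne)
  obtain ⟨T, hT⟩ := exists_pairing hind
  have hT2 : ∀ y : D, T (fn y) = ∫ p in ball x r, fn y p := by
    intro y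
    rw [hT, ← integral_indicator measurableSet_ball]
    refine integral_congr_ae (Eventually.of_forall fun p => ?_)
    by_cases hp : p ∈ ball x r
    · simp [indicator_of_mem hp]
    · simp [indicator_of_notMem hp]
  have l1 : Tendsto (fun n => inner ℝ k (toD (hψ n))) atTop (𝓝 (inner ℝ k φ)) :=
    tendsto_const_nhds.inner hlim
  have l2 : Tendsto (fun n => 8 * (r ^ 4)⁻¹ * T (fn (toD (hψ n)))) atTop
      (𝓝 (8 * (r ^ 4)⁻¹ * T (fn φ))) :=
    (((T.continuous.comp fn.continuous).tendsto φ).comp hlim).const_mul _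
  rw [← hT2]
  refine tendsto_nhds_unique l1 (l2.congr fun n => ?_)
  rw [hT2, htest]

end Pool.Agent.H57.BN
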