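import Pool.Agent.H57.BN.MemC1
import Pool.Agent.H57.BN.Cutoff
import Pool.Agent.H57.BN.Hol

set_option autoImplicit false

open MeasureTheory Filter Topology Metric Set
open scoped ENNReal NNReal ContDiff

namespace Pool.Agent.H57.BN

theorem gradient_mul_eq {χ f : E4 → ℝ} {p : E4} (hχ : DifferentiableAt ℝ χ p)
    (hf : DifferentiableAt ℝ f p) :
    gradient (fun p => χ p * f p) p = χ p • gradient f p + f p • gradient χ p := by
  have h : fderiv ℝ (fun p => χ p * f p) p = χ p • fderiv ℝ f p + f p • fderiv ℝ χ p :=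
    fderiv_fun_mul hχ hf
  simp only [gradient]
  rw [h, map_add, map_smulₛₗ, map_smulₛₗ]
  simp

/-- the `L⁴` norm of a field bounded by `C/r` and supported in `B_{2r}` -/
theorem eLpNorm_four_of_scale {C r : ℝ} (hr : 0 < r) {G : E4 → E4}
    (hb : ∀ p, ‖G p‖ ≤ C / r) (h0 : ∀ p, p ∉ ball (0 : E4) (2 * r) → G p = 0) :
    eLpNorm G 4 (volume : Measure E4) ≤
      ENNReal.ofReal (2 * C) * (volume (ball (0 : E4) 1)) ^ (1 / 4 : ℝ) := by
  have hC : 0 ≤ C := by
    have := (norm_nonneg _).trans (hb 0)
    rwa [le_div_iff₀ hr, zero_mul] at this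
  have h1 : G = (ball (0 : E4) (2 * r)).indicator G := by
    funext p
    by_cases hp : p ∈ ball (0 : E4) (2 * r)
    · rw [indicator_of_mem hp]
    · rw [indicator_of_notMem hp, h0 p hp]
  rw [h1, eLpNorm_indicator_eq_eLpNorm_restrict measurableSet_ball]
  refine (eLpNorm_le_of_ae_bound (C := C / r) (Eventually.of_forall hb)).trans ?_
  rw [Measure.restrict_apply_univ, Measure.addHaar_ball _ _ (by positivity)]
  have e1 : Module.finrank ℝ E4 = 4 := by simp
  have e2 : (ENNReal.toReal 4)⁻¹ = (1 / 4 : ℝ) := by norm_num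
  rw [e1, e2, ENNReal.mul_rpow_of_nonneg _ _ (by norm_num)]
  have e3 : ENNReal.ofReal ((2 * r) ^ 4) ^ (1 / 4 : ℝ) = ENNReal.ofReal (2 * r) := by
    rw [ENNReal.ofReal_rpow_of_nonneg (by positivity) (by norm_num), ← Real.rpow_natCast,
      ← Real.rpow_mul (by positivity)]
    norm_num
  rw [e3, mul_right_comm, ← ENNReal.ofReal_mul (by positivity)]
  have e4 : 2 * r * (C / r) = 2 * C := by field_simp
  rw [e4]

/-- A `C¹` function on `ℝ⁴` in `L⁴` with gradient in `L²` belongs to `D`
(cut off: `∫ |∇χ_R|² f² ≤ C R⁻² ∫_{B_{2R} \ B_R} f² ≤ C' (∫_{B_{2R} \ B_R} f⁴)^{1/2} → 0`). -/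
theorem mem_of_C1_L4 {f : E4 → ℝ} (hf : ContDiff ℝ 1 f) (h4 : MemLp f 4 volume)
    (h2 : MemLp (gradient f) 2 volume) :
    ∃ x : D, fn x =ᵐ[volume] f ∧ gr x =ᵐ[volume] gradient f := by
  obtain ⟨C, hC, hcut⟩ := exists_cutoff
  have hr : ∀ n : ℕ, (0 : ℝ) < (n : ℝ) + 1 := fun n => by positivity
  choose χ hs hc ht h01 h1 h0 hg hg0 hg1 using fun n : ℕ => hcut 0 _ (hr n)
  have hfd : Differentiable ℝ f := hf.differentiable (by norm_num)
  have hχd : ∀ n, Differentiable ℝ (χ n) := fun n => (hs n).differentiable (by norm_cast)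
  have hprod : ∀ n, ContDiff ℝ 1 (fun p => χ n p * f p) := fun n =>
    ((hs n).of_le (by norm_cast)).mul hf
  have hgp : ∀ n p, gradient (fun p => χ n p * f p) p = χ n p • gradient f p +
      f p • gradient (χ n) p := fun n p => gradient_mul_eq (hχd n p) (hfd p)
  choose y _hy hy1 hy2 using fun n => mem_of_C1 isOpen_univ (hprod n) ((hc n).mul_right)
    (subset_univ _)
  have hev : ∀ p : E4, ∀ᶠ n : ℕ in atTop, p ∈ ball (0 : E4) ((n : ℝ) + 1) := by
    intro p
    obtain ⟨N, hN⟩ := exists_nat_gt ‖p‖
    filter_upwards [eventually_ge_atTop N] with n hn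
    rw [mem_ball, dist_zero_right]
    have : (N : ℝ) ≤ n := by exact_mod_cast hn
    linarith
  have hgc : Continuous (gradient f) := continuous_gradient hf
  have hgχ : ∀ n, Continuous (gradient (χ n)) := fun n =>
    continuous_gradient ((hs n).of_le (by norm_cast))
  -- first part
  obtain ⟨-, hA⟩ := tendsto_eLpNorm_of_dom (r := 2) (by norm_num) (by norm_num)
    (G := fun n p => χ n p • gradient f p) (g := gradient f) (b := fun p => ‖gradient f p‖)
    (fun n => ((hs n).continuous.smul hgc).aestronglyMeasurable) hgc.aestronglyMeasurable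
    h2.norm (fun n => Eventually.of_forall fun p => by
      rw [norm_smul, Real.norm_eq_abs, abs_of_nonneg (h01 n p).1]
      exact mul_le_of_le_one_left (norm_nonneg _) (h01 n p).2)
    (Eventually.of_forall fun p => by
      refine tendsto_const_nhds.congr' ?_
      filter_upwards [hev p] with n hn
      rw [h1 n p hn, one_smul])
  -- second part
  obtain ⟨-, hB⟩ := tendsto_eLpNorm_of_dom (r := 4) (by norm_num) (by norm_num)
    (G := fun (n : ℕ) p => ((ball (0 : E4) ((n : ℝ) + 1))ᶜ).indicator f p) (g := fun _ => (0 : ℝ))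
    (b := fun p => ‖f p‖)
    (fun n => (hf.continuous.aestronglyMeasurable).indicator measurableSet_ball.compl)
    aestronglyMeasurable_const
    h4.norm (fun n => Eventually.of_forall fun p => norm_indicator_le_norm_self _ _)
    (Eventually.of_forall fun p => by
      refine tendsto_const_nhds.congr' ?_
      filter_upwards [hev p] with n hn
      exact (indicator_of_notMem (show p ∉ (ball (0 : E4) ((n : ℝ) + 1))ᶜ from fun h => h hn) f).symm)
  simp only [sub_zero] at hB
  have hB2 : Tendsto (fun n => eLpNorm (fun p => f p • gradient (χ n) p) 2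
      (volume : Measure E4)) atTop (𝓝 0) := by
    have hK : ENNReal.ofReal (2 * C) * (volume (ball (0 : E4) 1)) ^ (1 / 4 : ℝ) ≠ ⊤ := by
      refine ENNReal.mul_ne_top ENNReal.ofReal_ne_top ?_
      exact ENNReal.rpow_ne_top_of_nonneg (by norm_num) measure_ball_lt_top.ne
    have hlim := ENNReal.Tendsto.mul_const hB (Or.inr hK)
    rw [zero_mul] at hlim
    refine tendsto_of_tendsto_of_tendsto_of_le_of_le tendsto_const_nhds hlim
      (fun n => zero_le) fun n => ?_
    have e : (fun p => f p • gradient (χ n) p) =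
        (fun p => ((ball (0 : E4) ((n : ℝ) + 1))ᶜ).indicator f p) • gradient (χ n) := by
      funext p
      rw [Pi.smul_apply']
      by_cases hp : p ∈ ball (0 : E4) ((n : ℝ) + 1)
      · rw [hg1 n p hp, smul_zero, smul_zero]
      · rw [indicator_of_mem (show p ∈ (ball (0 : E4) ((n : ℝ) + 1))ᶜ from hp)]
    have := hol_holderTriple_442
    simp only [e]
    refine (eLpNorm_smul_le_mul_eLpNorm (p := 4) (q := 4) (r := 2)
      (hgχ n).aestronglyMeasurable
      ((hf.continuous.aestronglyMeasurable).indicator measurableSet_ball.compl)).trans ?_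
    gcongr
    exact eLpNorm_four_of_scale (hr n) (hg n) (hg0 n)
  obtain ⟨x, hx1, hx2, -⟩ := exists_of_tendsto (y := y) (f := f) (g := gradient f) h2
    (by
      have hlim := hA.add hB2
      rw [add_zero] at hlim
      refine tendsto_of_tendsto_of_tendsto_of_le_of_le tendsto_const_nhds hlim
        (fun n => zero_le) fun n => ?_
      have e : eLpNorm (fun p => gr (y n) p - gradient f p) 2 (volume : Measure E4) =
          eLpNorm ((fun p => χ n p • gradient f p - gradient f p) +
            fun p => f p • gradient (χ n) p) 2 (volume : Measure E4) := by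
        apply eLpNorm_congr_ae
        filter_upwards [hy2 n] with p hp
        rw [hp, hgp, Pi.add_apply]
        abel
      simp only [e]
      refine eLpNorm_add_le ?_ ?_ (by norm_num)
      · exact (((hs n).continuous.smul hgc).sub hgc).aestronglyMeasurable
      · exact (hf.continuous.smul (hgχ n)).aestronglyMeasurable)
    (by
      filter_upwards [ae_all_iff.mpr hy1] with p hp
      refine tendsto_const_nhds.congr' ?_
      filter_upwards [hev p] with n hn
      rw [hp n, h1 n p hn, one_mul])
  exact ⟨x, hx1, hx2⟩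

end Pool.Agent.H57.BN
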