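import Pool.Agent.H57.BN.PhiEq
import Pool.Agent.H57.BN.MemL4
import Pool.Agent.H57.BN.LebDiff
import Pool.Agent.H57.BN.Riesz

set_option autoImplicit false

open MeasureTheory Filter Topology Metric Set
open scoped ENNReal NNReal ContDiff

namespace Pool.Agent.H57.BN

theorem kerR_max_lower {r : ℝ} (hr : 0 < r) : ∃ c : ℝ, 0 < c ∧ ∀ z : E4,
    c * (1 + ‖z‖) ≤ max ‖z‖ r := by
  refine ⟨r / (1 + r), by positivity, fun z => ?_⟩
  rw [div_mul_eq_mul_div, div_le_iff₀ (by positivity)]
  rcases le_total ‖z‖ r with h | h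
  · rw [max_eq_right h]; nlinarith
  · rw [max_eq_left h]; nlinarith [norm_nonneg z]

/-- decay at infinity gives integrability -/
theorem memLp_of_decay {F : Type*} [NormedAddCommGroup F] {G : E4 → F} (hG : Continuous G)
    {K : ℝ} {k j : ℕ} (hk : j ≠ 0) (hkj : 4 < k * j) (hb : ∀ p, ‖G p‖ ≤ K * ((1 + ‖p‖) ^ k)⁻¹) :
    MemLp G (j : ℝ≥0∞) (volume : Measure E4) := by
  rw [← integrable_norm_rpow_iff hG.aestronglyMeasurable (by exact_mod_cast hk) (by simp)]
  have h1 : Integrable (fun p : E4 => K ^ j * (1 + ‖p‖) ^ (-((k * j : ℕ) : ℝ))) volume := by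
    apply Integrable.const_mul
    apply integrable_one_add_norm
    simp only [finrank_euclideanSpace, Fintype.card_fin]
    exact_mod_cast hkj
  refine h1.mono' ?_ (Eventually.of_forall fun p => ?_)
  · exact (hG.norm.rpow_const fun _ => Or.inr (by simp)).aestronglyMeasurable
  · rw [ENNReal.toReal_natCast, Real.rpow_natCast, norm_pow, norm_norm,
      Real.rpow_neg (by positivity), Real.rpow_natCast, pow_mul, ← inv_pow, ← mul_pow]
    exact pow_le_pow_left₀ (norm_nonneg _) (hb p) j

theorem memLp_Phi {r : ℝ} (hr : 0 < r) : MemLp (Phi r) 4 (volume : Measure E4) := by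
  obtain ⟨c, hc, hm⟩ := kerR_max_lower hr
  refine memLp_of_decay (Phi_C1 hr).continuous (K := 2 * (c ^ 2)⁻¹) (k := 2) (j := 4)
    (by norm_num) (by norm_num) fun p => ?_
  have h1 := Phi_upper hr p
  have h2 : 0 ≤ Phi r p := le_trans (by positivity) (Phi_lower hr p)
  rw [Real.norm_of_nonneg h2]
  refine h1.trans ?_
  rw [mul_assoc, ← mul_inv, ← mul_pow]
  have := hm p
  gcongr

theorem gradient_Phi {r : ℝ} (hr : 0 < r) (z : E4) : gradient (Phi r) z = PV r z :=
  (Phi_grad hr z).gradient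

theorem memLp_grad_Phi {r : ℝ} (hr : 0 < r) :
    MemLp (gradient (Phi r)) 2 (volume : Measure E4) := by
  obtain ⟨c, hc, hm⟩ := kerR_max_lower hr
  refine memLp_of_decay (continuous_gradient (Phi_C1 hr)) (K := 2 * (c ^ 3)⁻¹) (k := 3) (j := 2)
    (by norm_num) (by norm_num) fun p => ?_
  rw [gradient_Phi hr, PV, norm_smul, norm_mul, norm_neg, Real.norm_ofNat,
    Real.norm_of_nonneg (by positivity)]
  have h0 : 0 < max ‖p‖ r := lt_max_of_lt_right hr
  calc 2 * ((max ‖p‖ r) ^ 4)⁻¹ * ‖p‖ ≤ 2 * ((max ‖p‖ r) ^ 4)⁻¹ * max ‖p‖ r := by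
        have := le_max_left ‖p‖ r
        gcongr
    _ = 2 * ((max ‖p‖ r) ^ 3)⁻¹ := by field_simp
    _ ≤ 2 * ((c * (1 + ‖p‖)) ^ 3)⁻¹ := by
        have := hm p
        gcongr
    _ = _ := by rw [mul_pow, mul_inv]; ring

theorem gradient_Phi_sub {r : ℝ} (_hr : 0 < r) (x p : E4) :
    gradient (fun p => Phi r (p - x)) p = gradient (Phi r) (p - x) := by
  rw [gradient, gradient, fderiv_comp_sub]

/-- the element of `D` given by `Φ_r(· - x)`, and its weak equation -/
theorem exists_PhiD {r : ℝ} (hr : 0 < r) (x : E4) : ∃ Y : D,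
    (fn Y =ᵐ[volume] fun p => Phi r (p - x)) ∧
    ∀ w : D, inner ℝ w Y = 8 * (r ^ 4)⁻¹ * ∫ p in ball x r, fn w p := by
  have hC1 : ContDiff ℝ 1 (fun p => Phi r (p - x)) :=
    (Phi_C1 hr).comp (contDiff_id.sub contDiff_const)
  have hmp : MeasurePreserving (fun p : E4 => p - x) volume volume :=
    measurePreserving_sub_right volume x
  have h4 : MemLp (fun p => Phi r (p - x)) 4 (volume : Measure E4) :=
    (memLp_Phi hr).comp_measurePreserving hmp
  have hg : gradient (fun p => Phi r (p - x)) = fun p => gradient (Phi r) (p - x) :=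
    funext fun p => gradient_Phi_sub hr x p
  have h2 : MemLp (gradient fun p => Phi r (p - x)) 2 (volume : Measure E4) := by
    rw [hg]
    exact (memLp_grad_Phi hr).comp_measurePreserving hmp
  obtain ⟨Y, hY1, hY2⟩ := mem_of_C1_L4 hC1 h4 h2
  refine ⟨Y, hY1, fun w => ?_⟩
  obtain ⟨φ, hφ, hlim⟩ := mem_H_iff_seq.mp (mem_H_univ w)
  have hfin : volume (ball x r) < ⊤ := measure_ball_lt_top
  have hind : MemLp ((ball x r).indicator fun _ => (1 : ℝ)) (ENNReal.ofReal (4 / 3))
      (volume : Measure E4) := memLp_indicator_const _ measurableSet_ball _ (Or.inr hfin.ne)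
  obtain ⟨T, hT⟩ := exists_pairing hind
  have hT' : ∀ u : L4, T u = ∫ p in ball x r, u p := by
    intro u
    rw [hT, ← integral_indicator measurableSet_ball]
    refine integral_congr_ae (Eventually.of_forall fun p => ?_)
    by_cases hp : p ∈ ball x r
    · simp only [indicator_of_mem hp, mul_one]
    · simp only [indicator_of_notMem hp, mul_zero]
  have key : ∀ n, inner ℝ (toD (hφ n)) Y = 8 * (r ^ 4)⁻¹ * T (fn (toD (hφ n))) := by
    intro n
    rw [inner_eq, hT']
    have e1 : ∫ p in ball x r, fn (toD (hφ n)) p = ∫ p in ball x r, φ n p := by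
      apply integral_congr_ae
      exact ae_restrict_of_ae (fn_toD_ae (hφ n))
    rw [e1, ← Phi_eq hr x ((hφ n).mono (subset_univ _))]
    apply integral_congr_ae
    filter_upwards [gr_toD_ae (hφ n), hY2] with p hp hp2
    rw [hp, hp2, hg, real_inner_comm]
  have l1 : Tendsto (fun n => inner ℝ (toD (hφ n)) Y) atTop (𝓝 (inner ℝ w Y)) :=
    hlim.inner tendsto_const_nhds
  have l2 : Tendsto (fun n => 8 * (r ^ 4)⁻¹ * T (fn (toD (hφ n)))) atTop
      (𝓝 (8 * (r ^ 4)⁻¹ * T (fn w))) :=
    (((T.continuous.comp fn.continuous).tendsto w).comp hlim).const_mul _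
  rw [← hT' (fn w)]
  exact tendsto_nhds_unique l1 (l2.congr fun n => (key n).symm)

/-- kernel lower bound in the whole space -/
theorem kerR {R : ℝ} (hR : 0 < R) {w : D} {f : E4 → ℝ}
    (hf : MemLp f (ENNReal.ofReal (4 / 3)) volume) (hf0 : 0 ≤ᵐ[volume] f)
    (h : ∀ φ : D, inner ℝ w φ = ∫ p, f p * fn φ p) (z : E4) :
    ∀ᵐ x ∂(volume : Measure E4), x ∈ ball z R →
      (1 / (16 * Real.pi ^ 2 * R ^ 2)) * ∫ p in ball z R, f p ≤ fn w x := by
  have hloc : LocallyIntegrable (fn w) (volume : Measure E4) :=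
    (memLp_fn w).locallyIntegrable (by norm_num)
  have hfi : IntegrableOn f (ball z R) (volume : Measure E4) := by
    have : IsFiniteMeasure ((volume : Measure E4).restrict (ball z R)) :=
      ⟨by simpa using measure_ball_lt_top⟩
    exact (hf.restrict (ball z R)).integrable (by
      rw [ENNReal.one_le_ofReal]; norm_num)
  have key : ∀ x ∈ ball z R, ∀ᶠ r in 𝓝[>] (0:ℝ),
      (fun _ : E4 => (1 / (4 * R ^ 2)) * ∫ p in ball z R, f p) x ≤
        8 * (r ^ 4)⁻¹ * ∫ p in ball x r, fn w p := by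
    intro x hx
    have h2R : (0:ℝ) < 2 * R := by positivity
    filter_upwards [self_mem_nhdsWithin, mem_nhdsWithin_of_mem_nhds (gt_mem_nhds h2R)] with r hr hrR
    have hr0 : (0:ℝ) < r := hr
    obtain ⟨Y, hY, hY2⟩ := exists_PhiD hr0 x
    rw [← hY2 w, h Y]
    have hint : Integrable (fun p => f p * fn Y p) (volume : Measure E4) := integrable_mul_43 hf _
    have hnn : 0 ≤ᵐ[volume] fun p => f p * fn Y p := by
      filter_upwards [hf0, hY] with p hp hp2
      rw [hp2]
      exact mul_nonneg hp (le_trans (by positivity) (Phi_lower hr0 _))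
    refine le_trans ?_ (setIntegral_le_integral (s := ball z R) hint hnn)
    rw [← integral_const_mul]
    refine integral_mono_ae (hfi.const_mul _) hint.integrableOn ?_
    have hY' : ∀ᵐ p ∂(volume : Measure E4), 0 ≤ f p ∧ fn Y p = Phi r (p - x) := by
      filter_upwards [hf0, hY] with p hp hp2 using ⟨hp, hp2⟩
    filter_upwards [ae_restrict_of_ae hY', ae_restrict_mem measurableSet_ball] with p hp hpz
    rw [hp.2, mul_comm]
    refine mul_le_mul_of_nonneg_left ?_ hp.1
    refine le_trans ?_ (Phi_lower hr0 (p - x))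
    rw [← one_div]
    have h3 : ‖p - x‖ < 2 * R := by
      rw [← dist_eq_norm]
      rw [mem_ball] at hx hpz
      have := dist_triangle_right p x z
      linarith
    have h4 : max ‖p - x‖ r ≤ 2 * R := max_le h3.le (le_of_lt hrR)
    have h5 : 0 < max ‖p - x‖ r := lt_max_of_lt_right hr0
    refine one_div_le_one_div_of_le (by positivity) ?_
    calc (max ‖p - x‖ r) ^ 2 ≤ (2 * R) ^ 2 := by gcongr
      _ = 4 * R ^ 2 := by ring
  filter_upwards [leb_lower hloc key] with x hx hxE
  have h6 := hx hxE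
  have hpi : 0 < Real.pi ^ 2 := by positivity
  have e : (1 / (16 * Real.pi ^ 2 * R ^ 2)) * ∫ p in ball z R, f p =
      ((1 / (4 * R ^ 2)) * ∫ p in ball z R, f p) / (4 * Real.pi ^ 2) := by
    field_simp
    ring
  rw [e, div_le_iff₀ (by positivity)]
  linarith

end Pool.Agent.H57.BN
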