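import Pool.Agent.H57.BN.W83

set_option autoImplicit false

open MeasureTheory Filter Topology Metric Set
open scoped ENNReal NNReal ContDiff

namespace Pool.Agent.H57.BN

/-- Cauchy–Schwarz -/
theorem l83_cs {μ : Measure E4} {f g : E4 → ℝ} (hfm : AEStronglyMeasurable f μ)
    (hgm : AEStronglyMeasurable g μ) (hf : Integrable (fun p => f p ^ 2) μ)
    (hg : Integrable (fun p => g p ^ 2) μ) :
    Integrable (fun p => f p * g p) μ ∧
    ∫ p, f p * g p ∂μ ≤ Real.sqrt (∫ p, f p ^ 2 ∂μ) * Real.sqrt (∫ p, g p ^ 2 ∂μ) := by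
  have hf2 : MemLp f 2 μ := (memLp_two_iff_integrable_sq hfm).2 hf
  have hg2 : MemLp g 2 μ := (memLp_two_iff_integrable_sq hgm).2 hg
  have hfg : Integrable (fun p => f p * g p) μ := hf2.integrable_mul hg2
  refine ⟨hfg, ?_⟩
  have hA : 0 ≤ ∫ p, f p ^ 2 ∂μ := integral_nonneg fun p => sq_nonneg _
  have hB : 0 ≤ ∫ p, g p ^ 2 ∂μ := integral_nonneg fun p => sq_nonneg _
  have key : ∀ t : ℝ, 0 ≤ (∫ p, f p ^ 2 ∂μ) * (t * t) + (2 * ∫ p, f p * g p ∂μ) * t +
      ∫ p, g p ^ 2 ∂μ := by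
    intro t
    have h1 : ∫ p, (t * f p + g p) ^ 2 ∂μ = (∫ p, f p ^ 2 ∂μ) * (t * t) +
        (2 * ∫ p, f p * g p ∂μ) * t + ∫ p, g p ^ 2 ∂μ := by
      have h2 : (fun p => (t * f p + g p) ^ 2) =
          fun p => (t * t) * f p ^ 2 + (2 * t) * (f p * g p) + g p ^ 2 := by
        funext p; ring
      have i1 : Integrable (fun p => (t * t) * f p ^ 2) μ := hf.const_mul _
      have i2 : Integrable (fun p => (2 * t) * (f p * g p)) μ := hfg.const_mul _
      have i12 : Integrable (fun p => (t * t) * f p ^ 2 + (2 * t) * (f p * g p)) μ := i1.add i2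
      rw [h2, integral_add i12 hg, integral_add i1 i2, integral_const_mul,
        integral_const_mul]
      ring
    rw [← h1]
    exact integral_nonneg fun p => sq_nonneg _
  have hd := discrim_le_zero key
  unfold discrim at hd
  rw [← Real.sqrt_mul hA]
  apply Real.le_sqrt_of_sq_le
  nlinarith

/-- The `L²` bound: with `X = ‖w‖_{8/3}`, `Y = ‖v‖_{8/3}`, `J = ∫_{B(z,R)} v³`, mass `≤ 1/16` outside:
`∫ v³ w^{1/3} ≤ (J^{1/2} + Y/4) X^{1/3}`, `Y ≤ X + ‖v-w‖₄`, `∫ v² ≤ Y²`. -/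
theorem l83 : ∃ C : ℝ, 0 < C ∧ ∀ v w : D, ‖fn v‖ = 1 → 0 ≤ᵐ[volume] (fn v : E4 → ℝ) →
    volume {p | fn v p ≠ 0} ≤ 1 → 0 ≤ᵐ[volume] (fn w : E4 → ℝ) →
    (∀ φ : D, inner ℝ w φ = ∫ p, (S * fn v p ^ 3) * fn φ p) →
    ∀ (z : E4) (R : ℝ), 15 / 16 ≤ ∫ p in ball z R, fn v p ^ 4 →
    m2 v ≤ C * ((∫ p in ball z R, fn v p ^ 3) + ‖v - w‖ ^ 2) := by
  have hS := S_pos
  refine ⟨18 + 18 / S, by positivity, ?_⟩
  intro v w hv hv0 hs hw0 hw z R hz
  obtain ⟨hW, hI, h34⟩ := w83 hv hv0 hs hw0 hw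
  set E : Set E4 := {p | fn v p ≠ 0} with hEdef
  have hmv : Measurable (fn v : E4 → ℝ) := (Lp.stronglyMeasurable (fn v)).measurable
  have hmw : Measurable (fn w : E4 → ℝ) := (Lp.stronglyMeasurable (fn w)).measurable
  have hEm : MeasurableSet E := hmv (measurableSet_singleton (0:ℝ)).compl
  have hE : volume E < ⊤ := lt_of_le_of_lt hs (by norm_num)
  have hE0 : ∀ p, p ∉ E → fn v p = 0 := fun p hp => by
    by_contra h
    exact hp h
  -- the difference
  let h : E4 → ℝ := fn (v - w)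
  have hh : ∀ᵐ p ∂(volume : Measure E4), h p = fn v p - fn w p := by
    have h1 : fn (v - w) = fn v - fn w := map_sub _ _ _
    have h2 := Lp.coeFn_sub (fn v) (fn w)
    filter_upwards [h2] with p hp
    show fn (v - w) p = _
    rw [h1]
    exact hp
  have hmh : Measurable h := (Lp.stronglyMeasurable (fn (v - w))).measurable
  set d : ℝ := ‖fn (v - w)‖ with hd
  have hd0 : 0 ≤ d := norm_nonneg _
  have hd2 : d ^ 2 ≤ ‖v - w‖ ^ 2 / S := by
    rw [le_div_iff₀ hS]
    have := S_le (v - w)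
    linarith
  -- integrability
  have iv4 : Integrable (fun p => fn v p ^ 4) (volume : Measure E4) := integrable_pow4 _
  have ih4 : Integrable (fun p => h p ^ 4) (volume : Measure E4) := integrable_pow4 _
  have ev4 : ∫ p, fn v p ^ 4 = 1 := by rw [← norm4_eq, hv]; norm_num
  have eh4 : ∫ p, h p ^ 4 = d ^ 4 := by rw [← norm4_eq]
  set X8 : ℝ := ∫ p, fn w p ^ (8 / 3 : ℝ) with hX8
  have hW0 : 0 ≤ᵐ[volume] fun p => fn w p ^ (8 / 3 : ℝ) := by
    filter_upwards [hw0] with p h2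
    exact Real.rpow_nonneg h2 _
  have hX80 : 0 ≤ X8 := integral_nonneg_of_ae hW0
  set ξ : ℝ := X8 ^ (1 / 8 : ℝ) with hξ
  have hξ0 : 0 ≤ ξ := Real.rpow_nonneg hX80 _
  have hξ8 : ξ ^ 8 = X8 := by
    rw [hξ, ← Real.rpow_natCast, ← Real.rpow_mul hX80]
    norm_num
  have hξ4 : Real.sqrt X8 = ξ ^ 4 := by
    rw [← hξ8, show ξ ^ 8 = (ξ ^ 4) ^ 2 by ring, Real.sqrt_sq (by positivity)]
  -- powers of `w`
  let w1 : E4 → ℝ := fun p => fn w p ^ (1 / 3 : ℝ)
  let w2 : E4 → ℝ := fun p => fn w p ^ (2 / 3 : ℝ)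
  let w4 : E4 → ℝ := fun p => fn w p ^ (4 / 3 : ℝ)
  have mw1 : Measurable w1 := hmw.pow_const _
  have mw2 : Measurable w2 := hmw.pow_const _
  have mw4 : Measurable w4 := hmw.pow_const _
  have hae : ∀ᵐ p ∂(volume : Measure E4), 0 ≤ fn v p ∧ 0 ≤ fn w p ∧ 0 ≤ w1 p ∧ w1 p ^ 2 = w2 p ∧
      w2 p ^ 2 = w4 p ∧ w4 p ^ 2 = fn w p ^ (8 / 3 : ℝ) ∧ fn w p * w1 p = w4 p ∧
      w2 p * w4 p = fn w p ^ 2 ∧ h p = fn v p - fn w p := by
    filter_upwards [hv0, hw0, hh] with p a1 a2 a3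
    have a1' : 0 ≤ fn v p := a1
    have a2' : 0 ≤ fn w p := a2
    refine ⟨a1', a2', Real.rpow_nonneg a2' _, ?_, ?_, ?_, ?_, ?_, a3⟩
    · show (fn w p ^ (1 / 3 : ℝ)) ^ 2 = fn w p ^ (2 / 3 : ℝ)
      rw [← Real.rpow_natCast, ← Real.rpow_mul a2']; norm_num
    · show (fn w p ^ (2 / 3 : ℝ)) ^ 2 = fn w p ^ (4 / 3 : ℝ)
      rw [← Real.rpow_natCast, ← Real.rpow_mul a2']; norm_num
    · show (fn w p ^ (4 / 3 : ℝ)) ^ 2 = fn w p ^ (8 / 3 : ℝ)
      rw [← Real.rpow_natCast, ← Real.rpow_mul a2']; norm_num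
    · show fn w p * fn w p ^ (1 / 3 : ℝ) = fn w p ^ (4 / 3 : ℝ)
      have : fn w p ^ (4 / 3 : ℝ) = fn w p ^ ((1 : ℝ) + 1 / 3) := by norm_num
      rw [this, Real.rpow_add_of_nonneg a2' (by norm_num) (by norm_num), Real.rpow_one]
    · show fn w p ^ (2 / 3 : ℝ) * fn w p ^ (4 / 3 : ℝ) = fn w p ^ 2
      rw [← Real.rpow_add_of_nonneg a2' (by norm_num) (by norm_num), ← Real.rpow_natCast]
      norm_num
  -- basic integrals over subsets of `E`
  have res : ∀ {A : Set E4} {P : E4 → Prop}, (∀ᵐ p ∂(volume : Measure E4), P p) →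
      ∀ᵐ p ∂(volume.restrict A : Measure E4), P p := fun {A P} hP => ae_restrict_of_ae hP
  have : IsFiniteMeasure (volume.restrict E : Measure E4) := ⟨by
    rw [Measure.restrict_apply_univ]; exact hE⟩
  have iw8 : ∀ A : Set E4, Integrable (fun p => w4 p ^ 2) (volume.restrict A : Measure E4) := by
    intro A
    refine (hW.restrict (s := A)).congr ?_
    filter_upwards [res hae] with p hp
    exact hp.2.2.2.2.2.1.symm
  have ew8 : ∀ A : Set E4, ∫ p in A, w4 p ^ 2 ≤ ξ ^ 8 := by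
    intro A
    rw [hξ8, hX8]
    have h1 : ∫ p in A, w4 p ^ 2 = ∫ p in A, fn w p ^ (8 / 3 : ℝ) := by
      apply integral_congr_ae
      filter_upwards [res hae] with p hp
      exact hp.2.2.2.2.2.1
    rw [h1]
    exact setIntegral_le_integral hW hW0
  -- (i) `∫_E w^{4/3} ≤ ξ⁴`
  have iw4 : Integrable (fun p => w2 p ^ 2) (volume.restrict E : Measure E4) ∧
      ∫ p in E, w2 p ^ 2 ≤ ξ ^ 4 := by
    obtain ⟨c1, c2⟩ := l83_cs (μ := volume.restrict E) (f := fun _ => 1) (g := w4)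
      aestronglyMeasurable_const mw4.aestronglyMeasurable
      (by simpa using integrable_const (1:ℝ)) (iw8 E)
    have e1 : (fun p => w2 p ^ 2) =ᵐ[volume.restrict E] fun p => (fun _ => (1:ℝ)) p * w4 p := by
      filter_upwards [res hae] with p hp
      rw [one_mul]
      exact hp.2.2.2.2.1
    refine ⟨c1.congr e1.symm, ?_⟩
    rw [integral_congr_ae e1]
    refine c2.trans ?_
    have e2 : ∫ _ in E, (1:ℝ) ^ 2 ≤ 1 := by
      simp only [one_pow, integral_const, smul_eq_mul, mul_one]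
      rw [Measure.real, Measure.restrict_apply_univ]
      have := ENNReal.toReal_mono (by norm_num) hs
      simpa using this
    have e3 : Real.sqrt (∫ _ in E, (1:ℝ) ^ 2) ≤ 1 := Real.sqrt_le_one.2 e2
    have e4 : Real.sqrt (∫ p in E, w4 p ^ 2) ≤ ξ ^ 4 := by
      rw [Real.sqrt_le_left (by positivity)]
      refine (ew8 E).trans_eq ?_
      ring
    calc _ ≤ 1 * ξ ^ 4 := mul_le_mul e3 e4 (Real.sqrt_nonneg _) (by norm_num)
      _ = ξ ^ 4 := one_mul _
  -- `∫_A v⁴`
  have iv4' : ∀ A : Set E4, Integrable (fun p => (fn v p ^ 2) ^ 2) (volume.restrict A : Measure E4) := by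
    intro A
    refine (iv4.restrict (s := A)).congr (ae_of_all _ fun p => ?_)
    ring
  have ev4' : ∀ A : Set E4, ∫ p in A, (fn v p ^ 2) ^ 2 ≤ 1 := by
    intro A
    rw [← ev4]
    have h1 : ∫ p in A, (fn v p ^ 2) ^ 2 = ∫ p in A, fn v p ^ 4 := by
      congr 1; funext p; ring
    rw [h1]
    exact setIntegral_le_integral iv4 (ae_of_all _ fun p => by positivity)
  -- (ii)
  have c_ii : ∀ A : Set E4, Integrable (fun p => fn v p ^ 2 * w4 p) (volume.restrict A : Measure E4) ∧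
      ∫ p in A, fn v p ^ 2 * w4 p ≤ Real.sqrt (∫ p in A, (fn v p ^ 2) ^ 2) * ξ ^ 4 := by
    intro A
    obtain ⟨c1, c2⟩ := l83_cs (μ := volume.restrict A) (f := fun p => fn v p ^ 2) (g := w4)
      (hmv.pow_const 2).aestronglyMeasurable mw4.aestronglyMeasurable (iv4' A) (iw8 A)
    refine ⟨c1, c2.trans (mul_le_mul_of_nonneg_left ?_ (Real.sqrt_nonneg _))⟩
    rw [Real.sqrt_le_left (by positivity)]
    refine (ew8 A).trans_eq ?_
    ring
  have sq1 : ∀ A : Set E4, Real.sqrt (∫ p in A, (fn v p ^ 2) ^ 2) ≤ 1 := fun A =>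
    Real.sqrt_le_one.2 (ev4' A)
  -- `∫ v³ w^{2/3} ≤ ξ²`
  have c_iii : ∀ A : Set E4, Integrable (fun p => fn v p ^ 2 * (fn v p * w2 p))
      (volume.restrict A : Measure E4) ∧
      ∫ p in A, fn v p ^ 2 * (fn v p * w2 p) ≤ ξ ^ 2 := by
    intro A
    have i1 : Integrable (fun p => (fn v p * w2 p) ^ 2) (volume.restrict A : Measure E4) := by
      refine (c_ii A).1.congr ?_
      filter_upwards [res hae] with p hp
      rw [mul_pow, hp.2.2.2.2.1]
    obtain ⟨c1, c2⟩ := l83_cs (μ := volume.restrict A) (f := fun p => fn v p ^ 2)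
      (g := fun p => fn v p * w2 p)
      (hmv.pow_const 2).aestronglyMeasurable (hmv.mul mw2).aestronglyMeasurable (iv4' A) i1
    refine ⟨c1, c2.trans ?_⟩
    have e1 : ∫ p in A, (fn v p * w2 p) ^ 2 = ∫ p in A, fn v p ^ 2 * w4 p := by
      apply integral_congr_ae
      filter_upwards [res hae] with p hp
      rw [mul_pow, hp.2.2.2.2.1]
    have e2 : Real.sqrt (∫ p in A, (fn v p * w2 p) ^ 2) ≤ ξ ^ 2 := by
      rw [Real.sqrt_le_left (by positivity), e1]
      calc _ ≤ Real.sqrt (∫ p in A, (fn v p ^ 2) ^ 2) * ξ ^ 4 := (c_ii A).2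
        _ ≤ 1 * ξ ^ 4 := mul_le_mul_of_nonneg_right (sq1 A) (by positivity)
        _ = (ξ ^ 2) ^ 2 := by ring
    calc _ ≤ 1 * ξ ^ 2 := mul_le_mul (sq1 A) e2 (Real.sqrt_nonneg _) (by norm_num)
      _ = ξ ^ 2 := one_mul _
  -- `v³` is integrable
  have hv3 : Integrable (fun p => fn v p ^ 3) (volume : Measure E4) := by
    have h1 := (memLp_of_support (fn v) hEm hE (ae_of_all _ hE0) (r := 3)
      (by norm_num)).integrable_norm_pow (p := 3) (by norm_num)
    refine h1.mono (hmv.pow_const 3).aestronglyMeasurable (ae_of_all _ fun p => ?_)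
    simp
  set Bz : Set E4 := ball z R with hBz
  have hBm : MeasurableSet Bz := measurableSet_ball
  set J : ℝ := ∫ p in Bz, fn v p ^ 3 with hJ
  have hJ0 : 0 ≤ J := by
    refine integral_nonneg_of_ae ?_
    filter_upwards [res hae] with p hp
    have := hp.1
    show 0 ≤ fn v p ^ 3
    positivity
  -- (iii)
  have c3 : ∫ p in Bz, fn v p ^ 3 * w1 p ≤ Real.sqrt J * ξ := by
    have i1 : Integrable (fun p => (Real.sqrt (fn v p ^ 3)) ^ 2)
        (volume.restrict Bz : Measure E4) := by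
      refine (hv3.restrict (s := Bz)).congr ?_
      filter_upwards [res hae] with p hp
      have := hp.1
      rw [Real.sq_sqrt (by positivity)]
    have i2 : Integrable (fun p => (Real.sqrt (fn v p ^ 3) * w1 p) ^ 2)
        (volume.restrict Bz : Measure E4) := by
      refine (c_iii Bz).1.congr ?_
      filter_upwards [res hae] with p hp
      have := hp.1
      rw [mul_pow, Real.sq_sqrt (by positivity), hp.2.2.2.1]
      ring
    have ms : Measurable fun p => Real.sqrt (fn v p ^ 3) := (hmv.pow_const 3).sqrt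
    obtain ⟨_, c2⟩ := l83_cs (μ := volume.restrict Bz) (f := fun p => Real.sqrt (fn v p ^ 3))
      (g := fun p => Real.sqrt (fn v p ^ 3) * w1 p) ms.aestronglyMeasurable
      (ms.mul mw1).aestronglyMeasurable i1 i2
    have e0 : ∫ p in Bz, fn v p ^ 3 * w1 p =
        ∫ p in Bz, Real.sqrt (fn v p ^ 3) * (Real.sqrt (fn v p ^ 3) * w1 p) := by
      apply integral_congr_ae
      filter_upwards [res hae] with p hp
      have := hp.1
      rw [← mul_assoc, Real.mul_self_sqrt (by positivity)]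
    have e1 : ∫ p in Bz, (Real.sqrt (fn v p ^ 3)) ^ 2 = J := by
      apply integral_congr_ae
      filter_upwards [res hae] with p hp
      have := hp.1
      rw [Real.sq_sqrt (by positivity)]
    have e2 : ∫ p in Bz, (Real.sqrt (fn v p ^ 3) * w1 p) ^ 2 ≤ ξ ^ 2 := by
      refine le_trans (le_of_eq ?_) (c_iii Bz).2
      apply integral_congr_ae
      filter_upwards [res hae] with p hp
      have := hp.1
      rw [mul_pow, Real.sq_sqrt (by positivity), hp.2.2.2.1]
      ring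
    rw [e0]
    refine c2.trans ?_
    rw [e1]
    refine mul_le_mul_of_nonneg_left ?_ (Real.sqrt_nonneg _)
    rw [Real.sqrt_le_left hξ0]
    exact e2
  -- `∫_A (|h| w^{1/3})² ≤ d² ξ²`, `A ⊆ E`
  have ih4' : ∀ A : Set E4, Integrable (fun p => (h p ^ 2) ^ 2) (volume.restrict A : Measure E4) := by
    intro A
    refine (ih4.restrict (s := A)).congr (ae_of_all _ fun p => ?_)
    ring
  have eh4' : ∀ A : Set E4, Real.sqrt (∫ p in A, (h p ^ 2) ^ 2) ≤ d ^ 2 := by
    intro A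
    rw [Real.sqrt_le_left (by positivity)]
    have h1 : ∫ p in A, (h p ^ 2) ^ 2 = ∫ p in A, h p ^ 4 := by
      congr 1; funext p; ring
    rw [h1]
    calc _ ≤ ∫ p, h p ^ 4 := setIntegral_le_integral ih4 (ae_of_all _ fun p => by positivity)
      _ = (d ^ 2) ^ 2 := by rw [eh4]; ring
  have c_h : Integrable (fun p => h p ^ 2 * w2 p) (volume.restrict E : Measure E4) ∧
      ∫ p in E, h p ^ 2 * w2 p ≤ d ^ 2 * ξ ^ 2 := by
    obtain ⟨c1, c2⟩ := l83_cs (μ := volume.restrict E) (f := fun p => h p ^ 2) (g := w2)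
      (hmh.pow_const 2).aestronglyMeasurable mw2.aestronglyMeasurable (ih4' E) iw4.1
    refine ⟨c1, c2.trans ?_⟩
    refine mul_le_mul (eh4' E) ?_ (Real.sqrt_nonneg _) (by positivity)
    rw [Real.sqrt_le_left (by positivity)]
    refine iw4.2.trans_eq ?_
    ring
  have c_hE : Integrable (fun p => fn v p ^ 2 * (|h p| * w1 p)) (volume.restrict E : Measure E4) ∧
      ∫ p in E, fn v p ^ 2 * (|h p| * w1 p) ≤ d * ξ := by
    have i1 : Integrable (fun p => (|h p| * w1 p) ^ 2) (volume.restrict E : Measure E4) := by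
      refine c_h.1.congr ?_
      filter_upwards [res hae] with p hp
      rw [mul_pow, sq_abs, hp.2.2.2.1]
    obtain ⟨c1, c2⟩ := l83_cs (μ := volume.restrict E) (f := fun p => fn v p ^ 2)
      (g := fun p => |h p| * w1 p)
      (hmv.pow_const 2).aestronglyMeasurable (hmh.abs.mul mw1).aestronglyMeasurable (iv4' E) i1
    refine ⟨c1, c2.trans ?_⟩
    have e1 : ∫ p in E, (|h p| * w1 p) ^ 2 = ∫ p in E, h p ^ 2 * w2 p := by
      apply integral_congr_ae
      filter_upwards [res hae] with p hp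
      rw [mul_pow, sq_abs, hp.2.2.2.1]
    have e2 : Real.sqrt (∫ p in E, (|h p| * w1 p) ^ 2) ≤ d * ξ := by
      rw [Real.sqrt_le_left (by positivity), e1]
      refine c_h.2.trans_eq ?_
      ring
    calc _ ≤ 1 * (d * ξ) := mul_le_mul (sq1 E) e2 (Real.sqrt_nonneg _) (by norm_num)
      _ = d * ξ := one_mul _
  -- (iv)
  have hout : ∫ p in Bzᶜ, (fn v p ^ 2) ^ 2 ≤ 1 / 16 := by
    have h1 : ∫ p in Bzᶜ, (fn v p ^ 2) ^ 2 = ∫ p in Bzᶜ, fn v p ^ 4 := by
      congr 1; funext p; ring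
    rw [h1]
    have := integral_add_compl hBm iv4
    rw [ev4] at this
    linarith
  have c4 : ∫ p in Bzᶜ, fn v p ^ 3 * w1 p ≤ (1 / 4) * ξ ^ 4 + d * ξ := by
    have k1 : ∫ p in Bzᶜ, fn v p ^ 2 * w4 p ≤ (1 / 4) * ξ ^ 4 := by
      refine (c_ii Bzᶜ).2.trans (mul_le_mul_of_nonneg_right ?_ (by positivity))
      rw [Real.sqrt_le_left (by norm_num)]
      refine hout.trans (by norm_num)
    -- the second integrand vanishes off `E`
    have i2 : Integrable (fun p => fn v p ^ 2 * (|h p| * w1 p)) (volume : Measure E4) := by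
      have := c_hE.1
      rw [← IntegrableOn, integrableOn_iff_integrable_of_support_subset] at this
      · exact this
      · intro p hp
        by_contra hpE
        apply hp
        simp [hE0 p hpE]
    have e2 : ∫ p, fn v p ^ 2 * (|h p| * w1 p) = ∫ p in E, fn v p ^ 2 * (|h p| * w1 p) := by
      symm
      apply setIntegral_eq_integral_of_forall_compl_eq_zero
      intro p hp
      simp [hE0 p hp]
    have k2 : ∫ p in Bzᶜ, fn v p ^ 2 * (|h p| * w1 p) ≤ d * ξ := by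
      refine le_trans ?_ c_hE.2
      rw [← e2]
      refine setIntegral_le_integral i2 ?_
      filter_upwards [hae] with p hp
      have := hp.2.2.1
      show 0 ≤ fn v p ^ 2 * (|h p| * w1 p)
      positivity
    have k3 : ∫ p in Bzᶜ, fn v p ^ 3 * w1 p ≤
        ∫ p in Bzᶜ, (fn v p ^ 2 * w4 p + fn v p ^ 2 * (|h p| * w1 p)) := by
      refine integral_mono_ae hI.restrict ((c_ii Bzᶜ).1.add i2.restrict) ?_
      filter_upwards [res hae] with p hp
      obtain ⟨a1, a2, a3, _, _, _, a7, _, a9⟩ := hp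
      show fn v p ^ 3 * w1 p ≤ fn v p ^ 2 * w4 p + fn v p ^ 2 * (|h p| * w1 p)
      rw [← a7]
      have b1 : fn v p ≤ fn w p + |h p| := by
        have := le_abs_self (h p)
        linarith
      calc fn v p ^ 3 * w1 p = fn v p ^ 2 * (fn v p * w1 p) := by ring
        _ ≤ fn v p ^ 2 * ((fn w p + |h p|) * w1 p) := by
            refine mul_le_mul_of_nonneg_left (mul_le_mul_of_nonneg_right b1 a3) (by positivity)
        _ = _ := by ring
    rw [integral_add (c_ii Bzᶜ).1 i2.restrict] at k3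
    linarith
  have hsum : ∫ p, fn v p ^ 3 * fn w p ^ (1 / 3 : ℝ) =
      (∫ p in Bz, fn v p ^ 3 * w1 p) + ∫ p in Bzᶜ, fn v p ^ 3 * w1 p :=
    (integral_add_compl hBm hI).symm
  -- the main inequality
  have hmain : (1 / 2) * ξ ^ 4 ≤ (Real.sqrt J + d) * ξ := by
    rw [hξ4, hsum] at h34
    nlinarith
  have hξ3 : ξ ^ 3 ≤ 2 * (Real.sqrt J + d) := by
    rcases hξ0.eq_or_lt with h0 | h0
    · rw [← h0]
      have := Real.sqrt_nonneg J
      simp only [ne_eq, OfNat.ofNat_ne_zero, not_false_eq_true, zero_pow]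
      positivity
    · have h1 : ((1 / 2) * ξ ^ 3) * ξ ≤ (Real.sqrt J + d) * ξ := by nlinarith
      have := le_of_mul_le_mul_right h1 h0
      linarith
  have hξ6 : ξ ^ 6 ≤ 8 * (J + d ^ 2) := by
    have h1 : (ξ ^ 3) ^ 2 ≤ (2 * (Real.sqrt J + d)) ^ 2 :=
      pow_le_pow_left₀ (by positivity) hξ3 2
    have h2 : Real.sqrt J ^ 2 = J := Real.sq_sqrt hJ0
    have h3 := sq_nonneg (Real.sqrt J - d)
    calc ξ ^ 6 = (ξ ^ 3) ^ 2 := by ring
      _ ≤ (2 * (Real.sqrt J + d)) ^ 2 := h1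
      _ ≤ 8 * (J + d ^ 2) := by nlinarith
  -- (v)
  have c5 : Integrable (fun p => fn w p ^ 2) (volume.restrict E : Measure E4) ∧
      ∫ p in E, fn w p ^ 2 ≤ ξ ^ 6 := by
    obtain ⟨c1, c2⟩ := l83_cs (μ := volume.restrict E) (f := w2) (g := w4)
      mw2.aestronglyMeasurable mw4.aestronglyMeasurable iw4.1 (iw8 E)
    have e1 : (fun p => w2 p * w4 p) =ᵐ[volume.restrict E] fun p => fn w p ^ 2 := by
      filter_upwards [res hae] with p hp
      exact hp.2.2.2.2.2.2.2.1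
    refine ⟨c1.congr e1, ?_⟩
    rw [← integral_congr_ae e1]
    refine c2.trans ?_
    have e2 : Real.sqrt (∫ p in E, w2 p ^ 2) ≤ ξ ^ 2 := by
      rw [Real.sqrt_le_left (by positivity)]
      refine iw4.2.trans_eq ?_
      ring
    have e3 : Real.sqrt (∫ p in E, w4 p ^ 2) ≤ ξ ^ 4 := by
      rw [Real.sqrt_le_left (by positivity)]
      refine (ew8 E).trans_eq ?_
      ring
    calc _ ≤ ξ ^ 2 * ξ ^ 4 := mul_le_mul e2 e3 (Real.sqrt_nonneg _) (by positivity)
      _ = ξ ^ 6 := by ring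
  have c6 : Integrable (fun p => h p ^ 2) (volume.restrict E : Measure E4) ∧
      ∫ p in E, h p ^ 2 ≤ d ^ 2 := by
    refine ⟨integrableOn_sq _ hE, ?_⟩
    have h1 := setIntegral_sq_le (fn (v - w)) hEm hE
    refine h1.trans ?_
    have h3 : Real.sqrt (volume E).toReal ≤ 1 := by
      rw [Real.sqrt_le_one]
      have := ENNReal.toReal_mono (by norm_num) hs
      simpa using this
    have : Real.sqrt (volume E).toReal * d ^ 2 ≤ 1 * d ^ 2 :=
      mul_le_mul_of_nonneg_right h3 (by positivity)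
    linarith
  have hm2 : m2 v ≤ 2 * ξ ^ 6 + 2 * d ^ 2 := by
    have e1 : m2 v = ∫ p in E, fn v p ^ 2 := by
      unfold m2
      symm
      apply setIntegral_eq_integral_of_forall_compl_eq_zero
      intro p hp
      simp [hE0 p hp]
    rw [e1]
    have k : ∫ p in E, fn v p ^ 2 ≤ ∫ p in E, (2 * fn w p ^ 2 + 2 * h p ^ 2) := by
      refine integral_mono_ae (integrableOn_sq _ hE) ((c5.1.const_mul 2).add (c6.1.const_mul 2)) ?_
      filter_upwards [res hae] with p hp
      have a9 := hp.2.2.2.2.2.2.2.2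
      show fn v p ^ 2 ≤ 2 * fn w p ^ 2 + 2 * h p ^ 2
      have : fn v p = fn w p + h p := by linarith
      rw [this]
      nlinarith [sq_nonneg (fn w p - h p)]
    rw [integral_add (c5.1.const_mul 2) (c6.1.const_mul 2), integral_const_mul,
      integral_const_mul] at k
    linarith [c5.2, c6.2]
  calc m2 v ≤ 2 * ξ ^ 6 + 2 * d ^ 2 := hm2
    _ ≤ 18 * J + 18 * d ^ 2 := by nlinarith
    _ ≤ 18 * J + 18 * (‖v - w‖ ^ 2 / S) := by linarith
    _ ≤ (18 + 18 / S) * (J + ‖v - w‖ ^ 2) := by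
        have h1 : 0 ≤ 18 / S * J := by positivity
        have h2 : 0 ≤ ‖v - w‖ ^ 2 := by positivity
        have h3 : 18 * (‖v - w‖ ^ 2 / S) = 18 / S * ‖v - w‖ ^ 2 := by ring
        rw [h3]
        nlinarith

end Pool.Agent.H57.BN
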