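import Pool.Agent.H57.BN.SConst
import Pool.Agent.H57.BN.Scale

set_option autoImplicit false

open MeasureTheory Filter Topology Metric Set
open scoped ENNReal NNReal ContDiff

namespace Pool.Agent.H57.BN

theorem levy_int (v : D) : Integrable (fun p => fn v p ^ 4) (volume : Measure E4) := by
  have h1 := (memLp_fn v).integrable_norm_pow (by norm_num : (4:ℕ) ≠ 0)
  refine h1.congr (Eventually.of_forall fun p => ?_)
  simp only [Real.norm_eq_abs]
  exact (Even.pow_abs (by decide) _)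

theorem levy_small (v : D) : ∃ ρ : ℝ, 0 < ρ ∧ ∀ z : E4, ∫ p in ball z ρ, fn v p ^ 4 ≤ 1 / 4 := by
  have hint := levy_int v
  have hfin : ∫⁻ p, ENNReal.ofReal (fn v p ^ 4) ≠ ⊤ := by
    rw [← ofReal_integral_eq_lintegral_ofReal hint (Eventually.of_forall fun p => by positivity)]
    exact ENNReal.ofReal_ne_top
  obtain ⟨δ, hδ, hδ'⟩ := exists_pos_setLIntegral_lt_of_measure_lt hfin
    (ε := ENNReal.ofReal (1 / 4)) (by simp)
  -- choose ρ with small volume
  have hvol : Tendsto (fun ρ : ℝ => ENNReal.ofReal (ρ ^ 4) * volume (ball (0 : E4) 1)) (𝓝[>] 0)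
      (𝓝 0) := by
    have h1 : Tendsto (fun ρ : ℝ => ρ ^ 4) (𝓝[>] 0) (𝓝 0) := by
      have : Tendsto (fun ρ : ℝ => ρ ^ 4) (𝓝 0) (𝓝 (0 ^ 4)) := (continuous_pow 4).tendsto 0
      simp only [ne_eq, OfNat.ofNat_ne_zero, not_false_eq_true, zero_pow] at this
      exact this.mono_left nhdsWithin_le_nhds
    have h2 := ENNReal.tendsto_ofReal h1
    have h3 := ENNReal.Tendsto.mul_const (b := volume (ball (0 : E4) 1)) h2
      (Or.inr measure_ball_lt_top.ne)
    simpa using h3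
  obtain ⟨ρ, h1, h2⟩ := ((hvol.eventually_lt_const hδ).and self_mem_nhdsWithin).exists
  have hρ : (0:ℝ) < ρ := h2
  refine ⟨ρ, hρ, fun z => ?_⟩
  have h3 : volume (ball z ρ) < δ := by
    rw [Measure.addHaar_ball (volume : Measure E4) z hρ.le]
    simpa only [finrank_euclideanSpace, Fintype.card_fin] using h1
  have h4 := hδ' _ h3
  rw [← ofReal_integral_eq_lintegral_ofReal hint.integrableOn
    (Eventually.of_forall fun p => by positivity)] at h4
  exact (ENNReal.ofReal_le_ofReal_iff (by norm_num)).1 h4.le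

theorem levy_large {v : D} (hv : ‖fn v‖ = 1) {ρ : ℝ} (hρ : 0 < ρ) :
    ∃ n : ℕ, ∃ z : E4, 1 / 4 < ∫ p in ball z (ρ * 2 ^ n), fn v p ^ 4 := by
  have hint := levy_int v
  have h1 : Tendsto (fun n : ℕ => ρ * (2:ℝ) ^ n) atTop atTop :=
    (tendsto_pow_atTop_atTop_of_one_lt (by norm_num)).const_mul_atTop hρ
  have h2 := (aecover_ball (μ := (volume : Measure E4)) (x := 0) h1).integral_tendsto_of_countably_generated
    hint
  have h3 : ∫ p, fn v p ^ 4 = 1 := by
    have : m4 v = 1 := by rw [m4_eq, hv]; norm_num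
    exact this
  rw [h3] at h2
  obtain ⟨n, hn⟩ := (h2.eventually_const_lt (show (1:ℝ) / 4 < 1 by norm_num)).exists
  exact ⟨n, 0, hn⟩

/-- Lévy normalisation by scaling: for `v` with `‖v‖₄ = 1` choose `r` with all balls of radius `r` of mass
`≤ 1/4` but some ball of radius `2r` of mass `≥ 1/4`; rescale. -/
theorem levy {v : D} (hv : ‖fn v‖ = 1) : ∃ x : D, ‖fn x‖ = 1 ∧ ‖x‖ = ‖v‖ ∧
    (∀ z : E4, ∫ p in ball z 1, fn x p ^ 4 ≤ 1 / 4) ∧ 1 / 4 ≤ ∫ p in ball (0:E4) 2, fn x p ^ 4 := by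
  classical
  obtain ⟨ρ, hρ, hsm⟩ := levy_small v
  have hex := levy_large hv hρ
  set n0 := Nat.find hex with hn0
  have hP := Nat.find_spec hex
  have hn0pos : n0 ≠ 0 := by
    intro h0
    rw [← hn0, h0] at hP
    obtain ⟨z, hz⟩ := hP
    rw [pow_zero, mul_one] at hz
    exact absurd (hsm z) (not_le.2 hz)
  obtain ⟨m, hm⟩ := Nat.exists_eq_succ_of_ne_zero hn0pos
  have hmin : ¬ ∃ z : E4, 1 / 4 < ∫ p in ball z (ρ * 2 ^ m), fn v p ^ 4 :=
    Nat.find_min hex (by omega)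
  push Not at hmin
  obtain ⟨z, hz⟩ := hP
  set r : ℝ := ρ * 2 ^ m with hr
  have hr0 : 0 < r := by positivity
  have hr2 : ρ * 2 ^ n0 = r * 2 := by rw [hm, hr, pow_succ]; ring
  rw [← hn0, hr2] at hz
  obtain ⟨x, hx1, hx2, hx3, -⟩ := exists_scale v z hr0
  have hball : ∀ (c : E4) (s : ℝ), ∫ p in ball c s, fn x p ^ 4 =
      ∫ p in ball (z + r • c) (r * s), fn v p ^ 4 := by
    intro c s
    have e1 : ∫ p in ball c s, fn x p ^ 4 =
        ∫ p in ball c s, (fun p => r ^ 4 * fn v p ^ 4) (z + r • p) := by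
      refine integral_congr_ae (ae_restrict_of_ae ?_)
      filter_upwards [hx1] with p hp
      rw [hp]; ring
    rw [e1, setIntegral_scale (fun p => r ^ 4 * fn v p ^ 4) z c hr0, integral_const_mul]
    field_simp
  refine ⟨x, by rw [hx3, hv], hx2, fun c => ?_, ?_⟩
  · rw [hball, mul_one]
    exact hmin _
  · rw [hball, smul_zero, add_zero]
    exact hz.le

end Pool.Agent.H57.BN
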