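import Pool.Agent.H57.BN.Rellich

set_option autoImplicit false

open MeasureTheory Filter Topology Metric Set
open scoped ENNReal NNReal ContDiff

namespace Pool.Agent.H57.BN

/-! Consequences of local compactness. -/

theorem limA_memLp {x : D} (hx : x ∈ H B) : MemLp (fn x) 2 (volume : Measure E4) :=
  memLp_of_support (fn x) measurableSet_ball measure_ball_lt_top (fn_outside measurableSet_ball hx)
    (by norm_num)

/-- the element of `L²` -/
noncomputable def limA_L2 {x : D} (hx : x ∈ H B) : Lp ℝ 2 (volume : Measure E4) :=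
  (limA_memLp hx).toLp (fn x)

theorem limA_coe {x : D} (hx : x ∈ H B) : (limA_L2 hx : E4 → ℝ) =ᵐ[volume] fn x :=
  MemLp.coeFn_toLp _

theorem limA_inner {x y : D} (hx : x ∈ H B) (hy : y ∈ H B) :
    inner ℝ (limA_L2 hx) (limA_L2 hy) = ∫ p, fn x p * fn y p := by
  rw [L2.inner_def]
  refine integral_congr_ae ?_
  filter_upwards [limA_coe hx, limA_coe hy] with p h1 h2
  rw [h1, h2, RCLike.inner_apply', conj_trivial]

theorem limA_norm {x : D} (hx : x ∈ H B) : ‖limA_L2 hx‖ ^ 2 = m2 x := by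
  rw [← real_inner_self_eq_norm_sq, limA_inner hx hx]
  exact integral_congr_ae (Eventually.of_forall fun p => by simp [sq])

theorem limA_sub {x y : D} (hx : x ∈ H B) (hy : y ∈ H B) :
    limA_L2 hx - limA_L2 hy = limA_L2 (Submodule.sub_mem _ hx hy) := by
  rw [limA_L2, limA_L2, limA_L2, ← MemLp.toLp_sub]
  refine MemLp.toLp_congr _ _ ?_
  have h1 : fn (x - y) =ᵐ[volume] fn x - fn y := by
    rw [map_sub]; exact Lp.coeFn_sub _ _
  exact h1.symm

theorem tendsto_m2_sub {x : ℕ → D} {y : D} (h : WeakTo x y) (hx : ∀ n, x n ∈ H B) :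
    Tendsto (fun n => m2 (x n - y)) atTop (𝓝 0) := by
  refine (rellich h 1).congr (fun n => ?_)
  have hy : y ∈ H B := h.mem hx
  have h1 : fn (x n - y) =ᵐ[volume] fn (x n) - fn y := by
    rw [map_sub]; exact Lp.coeFn_sub _ _
  have h2 := fn_outside (Ω := B) measurableSet_ball (Submodule.sub_mem _ (hx n) hy)
  rw [m2, ← integral_indicator measurableSet_ball]
  refine integral_congr_ae ?_
  filter_upwards [h1, h2] with p h3 h4
  by_cases hp : p ∈ ball (0 : E4) 1
  · rw [indicator_of_mem hp, h3]; rfl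
  · rw [indicator_of_notMem hp, h4 hp]; simp

theorem limA_tendsto {x : ℕ → D} {y : D} (h : WeakTo x y) (hx : ∀ n, x n ∈ H B) :
    Tendsto (fun n => limA_L2 (hx n)) atTop (𝓝 (limA_L2 (h.mem hx))) := by
  rw [tendsto_iff_norm_sub_tendsto_zero]
  have h1 := (tendsto_m2_sub h hx).sqrt
  rw [Real.sqrt_zero] at h1
  refine h1.congr (fun n => ?_)
  rw [limA_sub, ← limA_norm, Real.sqrt_sq (norm_nonneg _)]

theorem tendsto_m2 {x : ℕ → D} {y : D} (h : WeakTo x y) (hx : ∀ n, x n ∈ H B) :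
    Tendsto (fun n => m2 (x n)) atTop (𝓝 (m2 y)) := by
  have h1 := ((limA_tendsto h hx).norm.pow 2)
  simpa only [limA_norm] using h1

theorem tendsto_mul {x : ℕ → D} {y : D} (h : WeakTo x y) (hx : ∀ n, x n ∈ H B) {φ : D}
    (hφ : φ ∈ H B) :
    Tendsto (fun n => ∫ p, fn (x n) p * fn φ p) atTop (𝓝 (∫ p, fn y p * fn φ p)) := by
  have h1 := (limA_tendsto h hx).inner (𝕜 := ℝ) (tendsto_const_nhds (x := limA_L2 hφ))
  simpa only [limA_inner] using h1

theorem tendsto_PB (lam : ℝ) {x : ℕ → D} {y : D} (h : WeakTo x y) (hx : ∀ n, x n ∈ H B) {φ : D}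
    (hφ : φ ∈ H B) : Tendsto (fun n => PB lam (x n) φ) atTop (𝓝 (PB lam y φ)) :=
  (h φ).sub ((tendsto_mul h hx hφ).const_mul lam)

end Pool.Agent.H57.BN
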