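import Pool.Agent.H57.BN.Comp
import Pool.Agent.H57.BN.CutE
import Pool.Agent.H57.BN.Eig

set_option autoImplicit false

open MeasureTheory Filter Topology Metric Set
open scoped ENNReal NNReal ContDiff

namespace Pool.Agent.H57.BN

theorem logT_prim {g : ℝ → ℝ} (hg : Continuous g) :
    ContDiff ℝ 1 (fun t => ∫ s in (0:ℝ)..t, g s) ∧
      ∀ t, deriv (fun t => ∫ s in (0:ℝ)..t, g s) t = g t := by
  have hd : ∀ t, HasDerivAt (fun t => ∫ s in (0:ℝ)..t, g s) (g t) t := fun t =>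
    intervalIntegral.integral_hasDerivAt_right (hg.intervalIntegrable _ _)
      (hg.stronglyMeasurableAtFilter _ _) hg.continuousAt
  refine ⟨?_, fun t => (hd t).deriv⟩
  rw [contDiff_one_iff_deriv]
  refine ⟨fun t => (hd t).differentiableAt, ?_⟩
  have : deriv (fun t => ∫ s in (0:ℝ)..t, g s) = g := funext fun t => (hd t).deriv
  rw [this]
  exact hg

/-- the logarithm `F(t) = log(1+t/ε)` for `t ≥ 0`, extended to a `C¹` function -/
theorem logT_F {ε : ℝ} (hε : 0 < ε) : ∃ F : ℝ → ℝ, ContDiff ℝ 1 F ∧ F 0 = 0 ∧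
    (∀ t, |deriv F t| ≤ ε⁻¹) ∧ (∀ t, 0 ≤ t → F t = Real.log (1 + t / ε)) ∧
    (∀ t, 0 ≤ t → deriv F t = (ε + t)⁻¹) := by
  have hpos : ∀ s : ℝ, 0 < ε + max s 0 := fun s => by
    have := le_max_right s 0
    linarith
  have hg : Continuous (fun s : ℝ => (ε + max s 0)⁻¹) := by
    apply Continuous.inv₀
    · fun_prop
    · intro s; exact (hpos s).ne'
  obtain ⟨h1, h2⟩ := logT_prim hg
  refine ⟨_, h1, by simp, fun t => ?_, fun t ht => ?_, fun t ht => ?_⟩
  · rw [h2, abs_of_pos (inv_pos.mpr (hpos t))]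
    apply inv_anti₀ hε
    have := le_max_right t 0
    linarith
  · have h3 : ∫ s in (0:ℝ)..t, (ε + max s 0)⁻¹ = Real.log (1 + t / ε) - Real.log (1 + 0 / ε) := by
      refine intervalIntegral.integral_eq_sub_of_hasDerivAt (f := fun s => Real.log (1 + s / ε))
        (fun s hs => ?_) (hg.intervalIntegrable _ _)
      rw [uIcc_of_le ht] at hs
      have hs0 : max s 0 = s := max_eq_left hs.1
      rw [hs0]
      have h4 : 0 < 1 + s / ε := by
        have := div_nonneg hs.1 hε.le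
        linarith
      have h5 : HasDerivAt (fun s : ℝ => 1 + s / ε) (1 / ε) s := by
        simpa using ((hasDerivAt_id s).div_const ε).const_add 1
      have h6 := h5.log h4.ne'
      have h7 : 0 < ε + s := by linarith [hs.1]
      have h8 : (ε + s)⁻¹ = 1 / ε / (1 + s / ε) := by
        have h9 : ε * (1 + s / ε) = ε + s := by
          rw [mul_add, mul_one, mul_div_cancel₀ _ hε.ne']
        rw [div_div, h9, one_div]
      rw [h8]
      exact h6
    simpa using h3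
  · rw [h2, max_eq_left ht]

/-- `G(t) = 1/ε - 1/(ε+t)` for `t ≥ 0`, extended to a `C¹` function -/
theorem logT_G {ε : ℝ} (hε : 0 < ε) : ∃ F : ℝ → ℝ, ContDiff ℝ 1 F ∧ F 0 = 0 ∧
    (∀ t, |deriv F t| ≤ (ε ^ 2)⁻¹) ∧ (∀ t, 0 ≤ t → F t = ε⁻¹ - (ε + t)⁻¹) ∧
    (∀ t, 0 ≤ t → deriv F t = ((ε + t) ^ 2)⁻¹) := by
  have hpos : ∀ s : ℝ, 0 < ε + max s 0 := fun s => by
    have := le_max_right s 0
    linarith
  have hg : Continuous (fun s : ℝ => ((ε + max s 0) ^ 2)⁻¹) := by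
    apply Continuous.inv₀
    · fun_prop
    · intro s; exact (pow_pos (hpos s) 2).ne'
  obtain ⟨h1, h2⟩ := logT_prim hg
  refine ⟨_, h1, by simp, fun t => ?_, fun t ht => ?_, fun t ht => ?_⟩
  · rw [h2, abs_of_pos (inv_pos.mpr (pow_pos (hpos t) 2))]
    apply inv_anti₀ (by positivity)
    apply pow_le_pow_left₀ hε.le
    have := le_max_right t 0
    linarith
  · have h3 : ∫ s in (0:ℝ)..t, ((ε + max s 0) ^ 2)⁻¹ = -(ε + t)⁻¹ - (-(ε + 0)⁻¹) := by
      refine intervalIntegral.integral_eq_sub_of_hasDerivAt (f := fun s => -(ε + s)⁻¹)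
        (fun s hs => ?_) (hg.intervalIntegrable _ _)
      rw [uIcc_of_le ht] at hs
      have hs0 : max s 0 = s := max_eq_left hs.1
      rw [hs0]
      have h7 : 0 < ε + s := by linarith [hs.1]
      have h5 : HasDerivAt (fun s : ℝ => ε + s) 1 s := by
        simpa using (hasDerivAt_id s).const_add ε
      have h6 := (h5.inv h7.ne').neg
      have h8 : ((ε + s) ^ 2)⁻¹ = -(-1 / (ε + s) ^ 2) := by
        rw [neg_div, neg_neg, one_div]
      rw [h8]
      exact h6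
    rw [h3]
    ring
  · rw [h2, max_eq_left ht]

/-- Logarithmic test: `u ≥ 0` in `H B` with `-Δu + b v² u ≥ 0`; then for every `ρ < 1` the functions
`ℓ_ε = log(1 + u/ε) ∈ H B` have `∫_{B_ρ} |∇ℓ_ε|² ≤ C` uniformly in `ε > 0`
(test with `χ²/(u+ε)`, `χ` a smooth cutoff equal to one on `B_ρ`, supported in `B`). -/
theorem log_test {x : D} (hx : x ∈ H B) (hx0 : 0 ≤ᵐ[volume] (fn x : E4 → ℝ)) {y : D} {b : ℝ}
    (hb : 0 < b)
    (hs : ∀ φ ∈ H B, 0 ≤ᵐ[volume] (fn φ : E4 → ℝ) →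
      0 ≤ inner ℝ x φ + b * ∫ p, fn x p * fn y p ^ 2 * fn φ p) {ρ : ℝ} (hρ : 0 < ρ) (hρ1 : ρ < 1) :
    ∃ C : ℝ, 0 < C ∧ ∀ ε : ℝ, 0 < ε → ∃ l : D, (fn l =ᵐ[volume] fun p => Real.log (1 + fn x p / ε)) ∧
      ∫ p in ball (0:E4) ρ, ‖gr l p‖ ^ 2 ≤ C := by
  -- the cutoff
  let fb : ContDiffBump (0:E4) := ⟨ρ, (1 + ρ) / 2, hρ, by linarith⟩
  set χ : E4 → ℝ := ⇑fb with hχdef
  have hχs : ContDiff ℝ ∞ χ := fb.contDiff
  have hχc : HasCompactSupport χ := fb.hasCompactSupport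
  have hχt : tsupport χ ⊆ B := by
    rw [hχdef, fb.tsupport_eq]
    exact closedBall_subset_ball (by show (1 + ρ) / 2 < 1; linarith)
  have hχ0 : ∀ p, 0 ≤ χ p := fun p => fb.nonneg
  have hχ1 : ∀ p, χ p ≤ 1 := fun p => fb.le_one
  have hχone : ∀ p ∈ ball (0:E4) ρ, χ p = 1 := fun p hp =>
    fb.one_of_mem_closedBall (ball_subset_closedBall hp)
  have htest : IsTest B χ := ⟨hχs, hχc, hχt⟩
  set χ2 : E4 → ℝ := fun p => χ p ^ 2 with hχ2def
  have hχ2s : ContDiff ℝ ∞ χ2 := hχs.pow 2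
  have hsupp1 : Function.support χ2 ⊆ Function.support χ := by
    intro p hp
    simp only [hχ2def, Function.mem_support, ne_eq] at hp ⊢
    intro h0
    exact hp (by simp [h0])
  have hsupp2 : tsupport χ2 ⊆ tsupport χ := closure_mono hsupp1
  have hχ2c : HasCompactSupport χ2 := hχc.mono hsupp1
  have hχ2t : tsupport χ2 ⊆ B := hsupp2.trans hχt
  have htest2 : IsTest B χ2 := ⟨hχ2s, hχ2c, hχ2t⟩
  have hgrad2 : ∀ p, gradient χ2 p = (2 * χ p) • gradient χ p := by
    intro p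
    have h1 : HasGradientAt χ (gradient χ p) p :=
      ((hχs.differentiable (by simp)) p).hasGradientAt
    have h2 : HasGradientAt χ2 ((2 * χ p) • gradient χ p) p := by
      rw [hasGradientAt_iff_hasFDerivAt] at h1 ⊢
      have h3 := h1.pow 2
      have h4 : (InnerProductSpace.toDual ℝ E4) ((2 * χ p) • gradient χ p) =
          (2 • χ p ^ (2 - 1)) • (InnerProductSpace.toDual ℝ E4) (gradient χ p) := by
        rw [map_smul]
        simp
      rw [h4]
      exact h3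
    exact h2.gradient
  -- integrability
  have hIχg : Integrable (fun p => ‖gradient χ p‖ ^ 2) volume := htest.memGrad.integrable_norm_pow (by norm_num)
  have hIχy : Integrable (fun p => χ p ^ 2 * fn y p ^ 2) volume := by
    have h1 := integrable_mul4 (fn (toD htest)) (fn (toD htest)) (fn y) (fn y)
    refine h1.congr ?_
    filter_upwards [fn_toD_ae htest] with p hp
    rw [hp]; ring
  refine ⟨4 * (∫ p, ‖gradient χ p‖ ^ 2) + 2 * b * (∫ p, χ p ^ 2 * fn y p ^ 2) + 1, ?_, ?_⟩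
  · have h1 : 0 ≤ ∫ p, ‖gradient χ p‖ ^ 2 := integral_nonneg fun p => by positivity
    have h2 : 0 ≤ ∫ p, χ p ^ 2 * fn y p ^ 2 := integral_nonneg fun p => by positivity
    positivity
  intro ε hε
  obtain ⟨F, hF1, hF0, hFb, hFv, hFd⟩ := logT_F hε
  obtain ⟨G, hG1, hG0, hGb, hGv, hGd⟩ := logT_G hε
  obtain ⟨l, hl1, hl2, -⟩ := exists_comp hF1 hF0 hFb x
  obtain ⟨k, hk1, hk2, -⟩ := exists_comp hG1 hG0 hGb x
  obtain ⟨w, hw1, hw2, -, hw4⟩ := exists_cut hχ2s hχ2c k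
  have hwB : w ∈ H B := hw4 B hχ2t
  -- the test function
  set φ : D := ε⁻¹ • toD htest2 - w with hφdef
  have hφB : φ ∈ H B := (H B).sub_mem ((H B).smul_mem _ (toD_mem htest2)) hwB
  have hφfn : fn φ =ᵐ[volume] fun p => χ p ^ 2 * (ε + fn x p)⁻¹ := by
    have h1 : fn φ = ε⁻¹ • fn (toD htest2) - fn w := by
      rw [hφdef, map_sub, map_smul]
    rw [h1]
    filter_upwards [Lp.coeFn_sub (ε⁻¹ • fn (toD htest2)) (fn w), Lp.coeFn_smul ε⁻¹ (fn (toD htest2)),
      fn_toD_ae htest2, hw1, hk1, hx0] with p h2 h3 h4 h5 h6 h7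
    rw [h2, Pi.sub_apply, h3, Pi.smul_apply, h4, h5, h6, hGv _ h7]
    simp only [hχ2def, smul_eq_mul]
    ring
  have hφgr : gr φ =ᵐ[volume] fun p => (2 * χ p) • ((ε + fn x p)⁻¹ • gradient χ p) -
      (χ p ^ 2 * ((ε + fn x p) ^ 2)⁻¹) • gr x p := by
    have h1 : gr φ = ε⁻¹ • gr (toD htest2) - gr w := by
      rw [hφdef]; rfl
    rw [h1]
    filter_upwards [Lp.coeFn_sub (ε⁻¹ • gr (toD htest2)) (gr w), Lp.coeFn_smul ε⁻¹ (gr (toD htest2)),
      gr_toD_ae htest2, hw2, hk1, hk2, hx0] with p h2 h3 h4 h5 h6 h6' h7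
    rw [h2, Pi.sub_apply, h3, Pi.smul_apply, h4, h5, h6, h6', hGv _ h7, hGd _ h7, hgrad2]
    simp only [hχ2def, smul_smul, ← sub_smul, sub_add_eq_sub_sub_swap]
    congr 1
    congr 1
    ring
  have hφ0 : 0 ≤ᵐ[volume] (fn φ : E4 → ℝ) := by
    filter_upwards [hφfn, hx0] with p h1 h2
    have h2' : 0 ≤ fn x p := h2
    rw [Pi.zero_apply, h1]
    positivity
  have hkey := hs φ hφB hφ0
  have hlg : ∀ᵐ p ∂(volume : Measure E4), gr l p = (ε + fn x p)⁻¹ • gr x p := by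
    filter_upwards [hl2, hx0] with p h1 h2
    rw [h1, hFd _ h2]
  -- integrability of the terms
  have hIl : Integrable (fun p => ‖gr l p‖ ^ 2) volume :=
    (memLp_gr l).integrable_norm_pow (by norm_num)
  have hmχ : AEStronglyMeasurable (fun p => χ p ^ 2) (volume : Measure E4) :=
    (hχs.continuous.pow 2).aestronglyMeasurable
  have hIχl : Integrable (fun p => χ p ^ 2 * ‖gr l p‖ ^ 2) volume := by
    refine hIl.mono' (hmχ.mul hIl.aestronglyMeasurable) ?_
    filter_upwards with p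
    have h1 : χ p ^ 2 ≤ 1 := by nlinarith [hχ0 p, hχ1 p]
    rw [Real.norm_of_nonneg (by positivity)]
    nlinarith [sq_nonneg ‖gr l p‖]
  have hinner : inner ℝ x φ = ∫ p, (2 * χ p * inner ℝ (gr l p) (gradient χ p) -
      χ p ^ 2 * ‖gr l p‖ ^ 2) := by
    rw [inner_eq]
    apply integral_congr_ae
    filter_upwards [hφgr, hlg] with p h1 h2
    rw [h1, h2, inner_sub_right, real_inner_smul_right, real_inner_smul_right,
      real_inner_smul_right, real_inner_smul_left, real_inner_self_eq_norm_sq, norm_smul,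
      Real.norm_eq_abs, mul_pow, sq_abs, ← inv_pow]
    ring
  have hIinner : Integrable (fun p => (2 * χ p * inner ℝ (gr l p) (gradient χ p) -
      χ p ^ 2 * ‖gr l p‖ ^ 2)) volume := by
    have h1 : Integrable (fun p => (inner ℝ (gr x p) (gr φ p) : ℝ)) volume :=
      MeasureTheory.L2.integrable_inner (gr x) (gr φ)
    refine h1.congr ?_
    filter_upwards [hφgr, hlg] with p h1 h2
    rw [h1, h2, inner_sub_right, real_inner_smul_right, real_inner_smul_right,
      real_inner_smul_right, real_inner_smul_left, real_inner_self_eq_norm_sq, norm_smul,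
      Real.norm_eq_abs, mul_pow, sq_abs, ← inv_pow]
    ring
  have hle1 : inner ℝ x φ ≤ ∫ p, (2 * ‖gradient χ p‖ ^ 2 - (1 / 2) * (χ p ^ 2 * ‖gr l p‖ ^ 2)) := by
    rw [hinner]
    apply integral_mono hIinner ((hIχg.const_mul 2).sub (hIχl.const_mul (1 / 2)))
    intro p
    have h1 : inner ℝ (gr l p) (gradient χ p) ≤ ‖gr l p‖ * ‖gradient χ p‖ :=
      real_inner_le_norm _ _
    have h2 : 2 * χ p * inner ℝ (gr l p) (gradient χ p) ≤
        2 * χ p * (‖gr l p‖ * ‖gradient χ p‖) :=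
      mul_le_mul_of_nonneg_left h1 (by linarith [hχ0 p])
    show 2 * χ p * inner ℝ (gr l p) (gradient χ p) - χ p ^ 2 * ‖gr l p‖ ^ 2 ≤
      2 * ‖gradient χ p‖ ^ 2 - 1 / 2 * (χ p ^ 2 * ‖gr l p‖ ^ 2)
    nlinarith [sq_nonneg (χ p * ‖gr l p‖ - 2 * ‖gradient χ p‖)]
  have hle2 : ∫ p, fn x p * fn y p ^ 2 * fn φ p ≤ ∫ p, χ p ^ 2 * fn y p ^ 2 := by
    apply integral_mono_ae _ hIχy
    · filter_upwards [hφfn, hx0] with p h1 h2
      have h2' : 0 ≤ fn x p := h2
      rw [h1]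
      have h3 : fn x p * (ε + fn x p)⁻¹ ≤ 1 := by
        rw [← div_eq_mul_inv, div_le_one (by linarith)]
        linarith
      have h4 : 0 ≤ χ p ^ 2 * fn y p ^ 2 := by positivity
      calc fn x p * fn y p ^ 2 * (χ p ^ 2 * (ε + fn x p)⁻¹) =
          (χ p ^ 2 * fn y p ^ 2) * (fn x p * (ε + fn x p)⁻¹) := by ring
        _ ≤ (χ p ^ 2 * fn y p ^ 2) * 1 := mul_le_mul_of_nonneg_left h3 h4
        _ = χ p ^ 2 * fn y p ^ 2 := by ring
    · have h1 := integrable_mul4 (fn x) (fn y) (fn y) (fn φ)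
      refine h1.congr ?_
      filter_upwards with p
      ring
  refine ⟨l, ?_, ?_⟩
  · filter_upwards [hl1, hx0] with p h1 h2
    rw [h1, hFv _ h2]
  · rw [integral_sub (hIχg.const_mul 2) (hIχl.const_mul (1 / 2)), integral_const_mul,
      integral_const_mul] at hle1
    have h5 : ∫ p in ball (0:E4) ρ, ‖gr l p‖ ^ 2 ≤ ∫ p, χ p ^ 2 * ‖gr l p‖ ^ 2 := by
      rw [← integral_indicator measurableSet_ball]
      apply integral_mono (hIl.indicator measurableSet_ball) hIχl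
      intro p
      by_cases hp : p ∈ ball (0:E4) ρ
      · rw [indicator_of_mem hp]
        show ‖gr l p‖ ^ 2 ≤ χ p ^ 2 * ‖gr l p‖ ^ 2
        rw [hχone p hp]
        simp
      · rw [indicator_of_notMem hp]
        positivity
    have h6 : b * ∫ p, fn x p * fn y p ^ 2 * fn φ p ≤ b * ∫ p, χ p ^ 2 * fn y p ^ 2 :=
      mul_le_mul_of_nonneg_left hle2 hb.le
    linarith

end Pool.Agent.H57.BN
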