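import Pool.Agent.H57.BN.BrSys
import Pool.Agent.H57.BN.Min
import Pool.Agent.H57.BN.MinPos
import Pool.Agent.H57.BN.LimA

set_option autoImplicit false

open MeasureTheory Filter Topology Metric Set
open scoped ENNReal NNReal ContDiff

namespace Pool.Agent.H57.BN

open Plain (mu H01)

/-- the limit is a positive least energy solution -/
theorem leastEnergy_of {lam : ℝ} (h0 : 0 < lam) (h1 : lam < Lam) {u : D} (hu : u ∈ H B)
    (hne : u ≠ 0) (hu0 : 0 ≤ᵐ[volume] (fn u : E4 → ℝ)) (hP : P lam u = q lam ^ 2)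
    (h4 : m4 u = q lam ^ 2) {W : H01} (hW : Rel W u) : Plain.IsPosLeastEnergy (-lam) 1 W := by
  have heq : ∀ φ ∈ H B, PB lam u φ = ∫ p, fn u p ^ 3 * fn φ p := fun φ hφ =>
    min_eq h0 h1 hu h4 hP hφ
  have hq := q_pos h0 h1
  refine ⟨(hW.scalar lam).2 heq, hW.pos.2 (sol_pos h0 hu hne hu0 heq), ?_⟩
  intro Z hZ hZne
  obtain ⟨z, hz, hz1, hz2⟩ := ofH01 Z
  have hRz : Rel Z z := ⟨hz, hz1, hz2⟩
  have hzne : z ≠ 0 := hRz.nonzero.1 hZne
  have hze := (hRz.scalar lam).1 hZ z hz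
  rw [hW.scalarEnergy, hRz.scalarEnergy, hP, h4]
  have hPz : P lam z = m4 z := by
    rw [P_self] at hze
    rw [hze]
    unfold m4
    exact integral_congr_ae (Eventually.of_forall fun p => by simp only; ring)
  have hn : 0 < ‖fn z‖ := norm_pos_iff.mpr fun h => hzne (fn_inj h)
  have hle := q_le h0 h1 hz
  rw [hPz, m4_eq] at hle
  have h2 : q lam ≤ ‖fn z‖ ^ 2 := by
    have h3 : q lam * ‖fn z‖ ^ 2 ≤ ‖fn z‖ ^ 2 * ‖fn z‖ ^ 2 := by
      calc q lam * ‖fn z‖ ^ 2 ≤ ‖fn z‖ ^ 4 := hle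
        _ = _ := by ring
    exact le_of_mul_le_mul_right h3 (by positivity)
  have h5 : q lam ^ 2 ≤ ‖fn z‖ ^ 4 := by
    calc q lam ^ 2 ≤ (‖fn z‖ ^ 2) ^ 2 := pow_le_pow_left₀ hq.le h2 2
      _ = _ := by ring
  rw [hPz, m4_eq]
  linarith

theorem mainB_fn_sub (x y : D) : fn (x - y) =ᵐ[volume] fun p => fn x p - fn y p := by
  rw [map_sub]
  exact Lp.coeFn_sub _ _

theorem mainB_gr_sub (x y : D) : gr (x - y) =ᵐ[volume] fun p => gr x p - gr y p :=
  Lp.coeFn_sub (gr x) (gr y)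

theorem strong_of {x : ℕ → D} {u : D} (hx : Tendsto x atTop (𝓝 u)) {U : ℕ → H01} {W : H01}
    (hU : ∀ n, Rel (U n) (x n)) (hW : Rel W u) : Plain.StrongTo U W := by
  have hmem : ∀ n, x n - u ∈ H B := fun n => (H B).sub_mem (hU n).1 hW.1
  have hlim : Tendsto (fun n => ‖x n - u‖ ^ 2) atTop (𝓝 0) := by
    have h1 := (tendsto_iff_norm_sub_tendsto_zero.1 hx).pow 2
    simpa using h1
  constructor
  · have h2 : ∀ n, ∫ p, ((U n).u p - W.u p) ^ 2 ∂mu = m2 (x n - u) := by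
      intro n
      have h3 : ∫ p, ((U n).u p - W.u p) ^ 2 ∂mu = ∫ p, fn (x n - u) p ^ 2 ∂mu := by
        refine integral_congr_ae ?_
        filter_upwards [(hU n).2.1, hW.2.1,
          ae_restrict_of_ae (s := Plain.Om) (mainB_fn_sub (x n) u)] with p h4 h5 h6
        rw [h6, h4, h5]
      rw [h3]
      exact int_B (hmem n) (fun s => s ^ 2) (by norm_num)
    simp only [h2]
    have hL := Lam_pos
    have h5 := hlim.div_const Lam
    rw [zero_div] at h5
    refine squeeze_zero (fun n => m2_nonneg _) (fun n => ?_) h5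
    rw [le_div_iff₀ hL, mul_comm]
    exact Lam_le (hmem n)
  · have h2 : ∀ n, ∫ p, ‖(U n).g p - W.g p‖ ^ 2 ∂mu = ‖x n - u‖ ^ 2 := by
      intro n
      have h3 : ∫ p, ‖(U n).g p - W.g p‖ ^ 2 ∂mu
          = ∫ p, inner ℝ (gr (x n - u) p) (gr (x n - u) p) ∂mu := by
        refine integral_congr_ae ?_
        filter_upwards [(hU n).2.2, hW.2.2,
          ae_restrict_of_ae (s := Plain.Om) (mainB_gr_sub (x n) u)] with p h4 h5 h6
        rw [h6, h4, h5, real_inner_self_eq_norm_sq]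
      rw [h3, int_gr (hmem n), real_inner_self_eq_norm_sq]
    simp only [h2]
    exact hlim

theorem weak_of {y : ℕ → D} (hy : WeakTo y 0) {V : ℕ → H01} (hV : ∀ n, Rel (V n) (y n)) :
    Plain.WeakToZero V := by
  intro W
  obtain ⟨w, hw, hw1, hw2⟩ := ofH01 W
  have hyB : ∀ n, y n ∈ H B := fun n => (hV n).1
  have h1 : ∀ n, ∫ p, (inner ℝ ((V n).g p) (W.g p) + (V n).u p * W.u p) ∂mu
      = inner ℝ (y n) w + ∫ p, fn (y n) p * fn w p := by
    intro n
    have h2 : ∫ p, (inner ℝ ((V n).g p) (W.g p) + (V n).u p * W.u p) ∂mu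
        = ∫ p, (inner ℝ (gr (y n) p) (gr w p) + fn (y n) p * fn w p) ∂mu := by
      refine integral_congr_ae ?_
      filter_upwards [(hV n).2.1, (hV n).2.2, hw1, hw2] with p h3 h4 h5 h6
      rw [h3, h4, h5, h6]
    have h7 : Integrable (fun p => inner ℝ (gr (y n) p) (gr w p)) (volume : Measure E4) :=
      L2.integrable_inner (𝕜 := ℝ) (gr (y n)) (gr w)
    have h8 := integrable_mul_B (hyB n) hw
    have h9 : ∫ p, fn (y n) p * fn w p ∂mu = ∫ p, fn (y n) p * fn w p :=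
      int_B2 (hyB n) w (fun s t => s * t) (by intro s; ring)
    rw [h2, integral_add h7.restrict h8.restrict, int_gr (hyB n), h9]
  simp only [h1]
  have h10 := hy w
  have h11 := tendsto_mul hy hyB hw
  have h12 : (∫ p, fn (0 : D) p * fn w p) = 0 := by
    have : fn (0 : D) =ᵐ[volume] fun _ => (0 : ℝ) := by
      rw [map_zero]
      exact Lp.coeFn_zero _ _ _
    rw [integral_congr_ae (g := fun _ => (0 : ℝ))]
    · simp
    · filter_upwards [this] with p hp
      rw [hp, zero_mul]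
  rw [h12] at h11
  have h13 := h10.add h11
  rwa [inner_zero_left, add_zero] at h13

end Pool.Agent.H57.BN
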