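import Pool.Agent.H57.BN.MainA
import Pool.Agent.H57.BN.MainB
import Pool.Agent.H57.BN.GS
import Pool.Agent.H57.BN.Asym
import Pool.Agent.H57.BN.BNl
import Pool.Agent.H57.BN.Plain

set_option autoImplicit false

open MeasureTheory Filter Topology Metric Set
open scoped ENNReal NNReal ContDiff

namespace Pool.Agent.H57.BN

open Plain (mu H01)

theorem main : Plain.Statement := by
  unfold Plain.Statement
  rw [Lam_eq]
  refine ⟨Lam_pos, ?_⟩
  intro l1 hl1 hl1'
  obtain ⟨lam, rfl⟩ : ∃ lam : ℝ, l1 = -lam := ⟨-l1, by ring⟩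
  have h0 : 0 < lam := by linarith
  have h1 : lam < Lam := by linarith
  obtain ⟨θ0, hθ0, hθ1, hasym⟩ := asym h0 h1
  refine ⟨θ0, hθ0, hθ1.trans h1, ?_⟩
  intro l2 hl2 hl2'
  obtain ⟨th, rfl⟩ : ∃ th : ℝ, l2 = -th := ⟨-l2, by ring⟩
  have h2 : 0 < th := by linarith
  have hth : th ≤ θ0 := by linarith
  have h3 : th < lam := lt_of_le_of_lt hth hθ1
  constructor
  · intro β hβ
    obtain ⟨b, rfl⟩ : ∃ b : ℝ, β = -b := ⟨-β, by ring⟩
    have hb : 0 < b := by linarith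
    obtain ⟨x, y, hg⟩ := exists_gs h0 h1 h2 h3 hb
    exact posGS_of h0 h2 hb hg
  · intro β hβ hlim U V hUV
    have hbn : ∀ n, 0 < - β n := fun n => by linarith [hβ n]
    have hblim : Tendsto (fun n => - β n) atTop atTop := tendsto_neg_atBot_atTop.comp hlim
    choose x hxB hx1 hx2 using fun n => ofH01 (U n)
    choose y hyB hy1 hy2 using fun n => ofH01 (V n)
    have hRx : ∀ n, Rel (U n) (x n) := fun n => ⟨hxB n, hx1 n, hx2 n⟩
    have hRy : ∀ n, Rel (V n) (y n) := fun n => ⟨hyB n, hy1 n, hy2 n⟩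
    have hg : ∀ n, IsGS lam th (- β n) (x n) (y n) := by
      intro n
      refine isGS_of ?_ (hRx n) (hRy n)
      rw [neg_neg]
      exact hUV n
    obtain ⟨ψ, hψ, u, huB, hxu, hyw, hu0, hun, hPu, hmu⟩ :=
      hasym th h2 hth (fun n => - β n) hbn hblim x y hg
    obtain ⟨W, hW1, hW2⟩ := toH01 huB
    have hRW : Rel W u := by
      refine ⟨huB, ?_, ?_⟩
      · rw [hW1]
      · rw [hW2]
    exact ⟨ψ, hψ, ⟨W, leastEnergy_of h0 h1 huB hu0 hun hPu hmu hRW,
      strong_of hxu (fun n => hRx (ψ n)) hRW⟩, weak_of hyw (fun n => hRy (ψ n))⟩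

end Pool.Agent.H57.BN
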