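import Pool.Agent.H57.BN.BrSys
import Pool.Agent.H57.BN.GSPos

set_option autoImplicit false

open MeasureTheory Filter Topology Metric Set
open scoped ENNReal NNReal ContDiff

namespace Pool.Agent.H57.BN

open Plain (mu H01)

theorem maina_mem_Nb {lam th b : ℝ} {x y : D} (hx : x ∈ H B) (hy : y ∈ H B) (nx : x ≠ 0)
    (ny : y ≠ 0) (h : IsSol lam th b x y) : (x, y) ∈ Nb lam th b := by
  refine ⟨hx, hy, nx, ny, ?_, ?_⟩
  · have h1 := h.1 x hx
    have e0 : PB lam x x = P lam x := by
      unfold PB P m2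
      rw [real_inner_self_eq_norm_sq]
      congr 2
      exact integral_congr_ae (Eventually.of_forall fun p => by simp only; ring)
    rw [e0] at h1
    simp only
    rw [h1]
    have e1 : (∫ p, fn x p ^ 3 * fn x p) = m4 x := by
      unfold m4
      exact integral_congr_ae (Eventually.of_forall fun p => by simp only; ring)
    have e2 : (∫ p, fn x p * fn y p ^ 2 * fn x p) = X x y := by
      unfold X
      exact integral_congr_ae (Eventually.of_forall fun p => by simp only; ring)
    rw [e1, e2]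
  · have h1 := h.2 y hy
    have e0 : PB th y y = P th y := by
      unfold PB P m2
      rw [real_inner_self_eq_norm_sq]
      congr 2
      exact integral_congr_ae (Eventually.of_forall fun p => by simp only; ring)
    rw [e0] at h1
    simp only
    rw [h1]
    have e1 : (∫ p, fn y p ^ 3 * fn y p) = m4 y := by
      unfold m4
      exact integral_congr_ae (Eventually.of_forall fun p => by simp only; ring)
    have e2 : (∫ p, fn x p ^ 2 * fn y p * fn y p) = X x y := by
      unfold X
      exact integral_congr_ae (Eventually.of_forall fun p => by simp only; ring)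
    rw [e1, e2]

theorem maina_ne_zero {x : D} (h : ∀ᵐ p ∂(volume : Measure E4), p ∈ B → 0 < fn x p) : x ≠ 0 := by
  intro h0
  subst h0
  have e : (fn (0 : D) : E4 → ℝ) =ᵐ[volume] 0 := by
    rw [map_zero]
    exact Lp.coeFn_zero _ _ _
  have h1 : ∀ᵐ p ∂(volume : Measure E4), p ∉ B := by
    filter_upwards [h, e] with p hp hp' hpB
    have h2 := hp hpB
    rw [hp'] at h2
    exact lt_irrefl _ h2
  have h3 : volume B = 0 := by
    have h4 := (ae_iff.1 h1)
    have h5 : {a : E4 | ¬ a ∉ B} = B := by
      ext a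
      simp only [Set.mem_setOf_eq, not_not]
    rwa [h5] at h4
  exact (measure_ball_pos volume (0 : E4) one_pos).ne' h3

theorem maina_nonneg {x : D} (hx : x ∈ H B)
    (h : ∀ᵐ p ∂(volume : Measure E4), p ∈ B → 0 < fn x p) :
    0 ≤ᵐ[volume] (fn x : E4 → ℝ) := by
  filter_upwards [h, fn_outside measurableSet_ball hx] with p hp hp'
  by_cases hpB : p ∈ B
  · exact (hp hpB).le
  · exact (hp' hpB).ge

/-- positive ground states in the sense of `Plain` are ground states in the sense of `IsGS` -/
theorem isGS_of {lam th b : ℝ} {U V : H01} (h : Plain.IsPosGroundState (-lam) (-th) 1 1 (-b) U V)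
    {x y : D} (hx : Rel U x) (hy : Rel V y) : IsGS lam th b x y := by
  obtain ⟨hsol, hU, hV, hen⟩ := h
  have hs := (hx.solution hy lam th b).1 hsol
  have px := hx.pos.1 hU
  have py := hy.pos.1 hV
  have nx := maina_ne_zero px
  have ny := maina_ne_zero py
  have hN := maina_mem_Nb hx.1 hy.1 nx ny hs
  refine ⟨hx.1, hy.1, nx, ny, maina_nonneg hx.1 px, maina_nonneg hy.1 py, hs, ?_⟩
  rw [hx.energy hy lam th b, least_eq] at hen
  rw [← hen]
  have h1 := hN.2.2.2.2.1
  have h2 := hN.2.2.2.2.2
  simp only at h1 h2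
  linarith

theorem posGS_of {lam th b : ℝ} (h0 : 0 < lam) (h2 : 0 < th) (hb : 0 < b) {x y : D}
    (h : IsGS lam th b x y) :
    ∃ U V : H01, Plain.IsPosGroundState (-lam) (-th) 1 1 (-b) U V := by
  obtain ⟨U, hU1, hU2⟩ := toH01 h.hx
  obtain ⟨V, hV1, hV2⟩ := toH01 h.hy
  have hx : Rel U x := ⟨h.hx, by rw [hU1], by rw [hU2]⟩
  have hy : Rel V y := ⟨h.hy, by rw [hV1], by rw [hV2]⟩
  obtain ⟨px, py⟩ := h.pos h0 h2 hb
  refine ⟨U, V, (hx.solution hy lam th b).2 h.sol, hx.pos.2 px, hy.pos.2 py, ?_⟩
  rw [hx.energy hy lam th b, least_eq, ← h.en]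
  have hN := maina_mem_Nb h.hx h.hy h.nx h.ny h.sol
  have h1 := hN.2.2.2.2.1
  have h2 := hN.2.2.2.2.2
  simp only at h1 h2
  linarith

end Pool.Agent.H57.BN
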