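import Pool.Agent.H57.BN.Approx

set_option autoImplicit false

open MeasureTheory Filter Topology Metric Set
open scoped ENNReal NNReal ContDiff Convolution

namespace Pool.Agent.H57.BN

/-- a continuous function with compact support is uniformly continuous, metric form -/
theorem unif_of_cs {F : Type*} [NormedAddCommGroup F] {g : E4 → F} (hg : Continuous g)
    (hc : HasCompactSupport g) {ε : ℝ} (hε : 0 < ε) :
    ∃ δ > 0, ∀ x y : E4, dist x y < δ → dist (g x) (g y) < ε :=
  Metric.uniformContinuous_iff.mp (hc.uniformContinuous_of_continuous hg) ε hε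

theorem exists_mollified {Ω : Set E4} (hΩ : IsOpen Ω) {f : E4 → ℝ} (hf : ContDiff ℝ 1 f)
    (hc : HasCompactSupport f) (hs : tsupport f ⊆ Ω) :
    ∃ K : Set E4, IsCompact K ∧ tsupport f ⊆ K ∧ ∀ ε : ℝ, 0 < ε → ∃ φ : E4 → ℝ, IsTest Ω φ ∧
      tsupport φ ⊆ K ∧ (∀ p, |φ p - f p| ≤ ε) ∧ ∀ p, ‖gradient φ p - gradient f p‖ ≤ ε := by
  have hK : IsCompact (tsupport f) := hc
  obtain ⟨δ, hδ, hδΩ⟩ := hK.exists_cthickening_subset_open hΩ hs
  have hfc : Continuous f := hf.continuous
  have hdc : Continuous (fderiv ℝ f) := hf.continuous_fderiv (by norm_num)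
  have hdcs : HasCompactSupport (fderiv ℝ f) := hc.fderiv ℝ
  refine ⟨cthickening δ (tsupport f), hK.cthickening, self_subset_cthickening _, ?_⟩
  intro ε hε
  obtain ⟨δ1, hδ1, h1⟩ := unif_of_cs hfc hc hε
  obtain ⟨δ2, hδ2, h2⟩ := unif_of_cs hdc hdcs hε
  let s : ℝ := min δ (min δ1 δ2)
  have hs0 : 0 < s := lt_min hδ (lt_min hδ1 hδ2)
  let ρ : ContDiffBump (0 : E4) := ⟨s / 4, s / 2, by positivity, by linarith⟩
  have hρ : ρ.rOut = s / 2 := rfl
  have hsupp : Function.support (ρ.normed volume ⋆[ContinuousLinearMap.lsmul ℝ ℝ, volume] f) ⊆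
      cthickening δ (tsupport f) := by
    intro x hx
    have h3 := support_convolution_subset (ContinuousLinearMap.lsmul ℝ ℝ) hx
    obtain ⟨a, ha, b, hb, rfl⟩ := h3
    rw [ρ.support_normed_eq] at ha
    have hb' : b ∈ tsupport f := subset_tsupport _ hb
    rw [mem_ball, dist_zero_right, hρ] at ha
    apply mem_cthickening_of_dist_le _ b _ _ hb'
    have : dist (a + b) b = ‖a‖ := by simp [dist_eq_norm]
    show dist (a + b) b ≤ δ
    rw [this]
    have : s ≤ δ := min_le_left _ _
    linarith
  have hts : tsupport (ρ.normed volume ⋆[ContinuousLinearMap.lsmul ℝ ℝ, volume] f) ⊆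
      cthickening δ (tsupport f) := closure_minimal hsupp isClosed_cthickening
  have hder : ∀ p, fderiv ℝ (ρ.normed volume ⋆[ContinuousLinearMap.lsmul ℝ ℝ, volume] f) p =
      (ρ.normed volume ⋆[ContinuousLinearMap.lsmul ℝ ℝ, volume] (fderiv ℝ f)) p := by
    intro p
    have h4 := hc.hasFDerivAt_convolution_right (ContinuousLinearMap.lsmul ℝ ℝ)
      (f := ρ.normed (volume : Measure E4)) (μ := (volume : Measure E4))
      ((ρ.continuous_normed (μ := (volume : Measure E4))).locallyIntegrable) hf p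
    rw [h4.fderiv]
    rfl
  refine ⟨ρ.normed volume ⋆[ContinuousLinearMap.lsmul ℝ ℝ, volume] f, ⟨?_, ?_, hts.trans hδΩ⟩, hts,
    ?_, ?_⟩
  · exact ρ.hasCompactSupport_normed.contDiff_convolution_left _ ρ.contDiff_normed
      hfc.locallyIntegrable
  · exact HasCompactSupport.of_support_subset_isCompact hK.cthickening hsupp
  · intro p
    rw [← Real.norm_eq_abs, ← dist_eq_norm]
    apply ρ.dist_normed_convolution_le hfc.aestronglyMeasurable
    intro x hx
    apply (h1 x p _).le
    rw [mem_ball, hρ] at hx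
    have : s ≤ δ1 := (min_le_right _ _).trans (min_le_left _ _)
    linarith
  · intro p
    have h5 : ‖gradient (ρ.normed volume ⋆[ContinuousLinearMap.lsmul ℝ ℝ, volume] f) p -
        gradient f p‖ = dist ((ρ.normed volume ⋆[ContinuousLinearMap.lsmul ℝ ℝ, volume]
          (fderiv ℝ f)) p) (fderiv ℝ f p) := by
      rw [gradient, gradient, ← map_sub, LinearIsometryEquiv.norm_map, hder, dist_eq_norm]
    rw [h5]
    apply ρ.dist_normed_convolution_le hdc.aestronglyMeasurable
    intro x hx
    apply (h2 x p _).le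
    rw [mem_ball, hρ] at hx
    have : s ≤ δ2 := (min_le_right _ _).trans (min_le_right _ _)
    linarith

/-- `C¹` functions with compact support in an open set `Ω` belong to `H Ω` (mollification:
`φ_n = ρ_n ⋆ f`, `∇φ_n = ρ_n ⋆ ∇f → ∇f` uniformly with supports in a fixed compact subset of `Ω`). -/
theorem mem_of_C1 {Ω : Set E4} (hΩ : IsOpen Ω) {f : E4 → ℝ} (hf : ContDiff ℝ 1 f)
    (hc : HasCompactSupport f) (hs : tsupport f ⊆ Ω) :
    ∃ x ∈ H Ω, fn x =ᵐ[volume] f ∧ gr x =ᵐ[volume] gradient f := by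
  obtain ⟨K, hK, hfK, hmol⟩ := exists_mollified hΩ hf hc hs
  have hpos : ∀ n : ℕ, (0:ℝ) < 1 / ((n:ℝ) + 1) := fun n => by positivity
  choose φ hφ hφK h1 h2 using fun n : ℕ => hmol _ (hpos n)
  have hlim0 : Tendsto (fun n : ℕ => 1 / ((n:ℝ) + 1)) atTop (𝓝 0) :=
    tendsto_one_div_add_atTop_nhds_zero_nat
  have hgc : Continuous (gradient f) := continuous_gradient hf
  have hg : MemLp (gradient f) 2 (volume : Measure E4) :=
    hgc.memLp_of_hasCompactSupport (hasCompactSupport_gradient hc)
  have hgz : ∀ {ψ : E4 → ℝ}, tsupport ψ ⊆ K → ∀ p, p ∉ K → gradient ψ p = 0 := by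
    intro ψ hψ p hp
    have : fderiv ℝ ψ p = 0 := by
      by_contra hne
      exact hp (hψ (tsupport_fderiv_subset ℝ (subset_tsupport _ hne)))
    rw [gradient, this, map_zero]
  obtain ⟨hh1, hh2⟩ := tendsto_eLpNorm_of_dom (r := 2) (by norm_num) (by norm_num)
    (G := fun n => gradient (φ n)) (g := gradient f)
    (b := fun p => K.indicator (fun p => ‖gradient f p‖ + 1) p)
    (fun n => (continuous_gradient ((hφ n).smooth.of_le (by norm_cast))).aestronglyMeasurable)
    hgc.aestronglyMeasurable
    (by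
      rw [memLp_indicator_iff_restrict hK.measurableSet]
      have : ContinuousOn (fun p => ‖gradient f p‖ + 1) K :=
        (hgc.norm.add continuous_const).continuousOn
      obtain ⟨M, hM⟩ := hK.exists_bound_of_continuousOn this
      haveI : IsFiniteMeasure ((volume : Measure E4).restrict K) :=
        ⟨by rw [Measure.restrict_apply_univ]; exact hK.measure_lt_top⟩
      exact MemLp.of_bound (hgc.norm.add continuous_const).aestronglyMeasurable M
        ((ae_restrict_iff' hK.measurableSet).mpr (Eventually.of_forall hM)))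
    (by
      intro n
      refine Eventually.of_forall fun p => ?_
      by_cases hp : p ∈ K
      · rw [indicator_of_mem hp]
        have h3 := h2 n p
        have h4 : 1 / ((n:ℝ) + 1) ≤ 1 := by
          rw [div_le_one (by positivity)]; linarith [(Nat.cast_nonneg n : (0:ℝ) ≤ n)]
        have h5 := norm_le_norm_add_norm_sub' (gradient (φ n) p) (gradient f p)
        rw [norm_sub_rev] at h5
        rw [norm_sub_rev] at h3
        linarith
      · rw [indicator_of_notMem hp, hgz (hφK n) p hp, norm_zero])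
    (by
      refine Eventually.of_forall fun p => ?_
      rw [tendsto_iff_norm_sub_tendsto_zero]
      exact squeeze_zero (fun n => norm_nonneg _) (fun n => h2 n p) hlim0)
  obtain ⟨x, hx, hx1, hx2, -⟩ := exists_of_test hφ hg hh2 (f := f) (by
    refine Eventually.of_forall fun p => ?_
    rw [tendsto_iff_norm_sub_tendsto_zero]
    exact squeeze_zero (fun n => norm_nonneg _) (fun n => h1 n p) hlim0)
  exact ⟨x, hx, hx1, hx2⟩

end Pool.Agent.H57.BN
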