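import Pool.Agent.H57.BN.Star

set_option autoImplicit false

open MeasureTheory Filter Topology Metric Set
open scoped ENNReal NNReal ContDiff

namespace Pool.Agent.H57.BN

/-- nonnegative ground states (least energy solutions), `β = -b` -/
structure IsGS (lam th b : ℝ) (x y : D) : Prop where
  hx : x ∈ H B
  hy : y ∈ H B
  nx : x ≠ 0
  ny : y ≠ 0
  x0 : 0 ≤ᵐ[volume] (fn x : E4 → ℝ)
  y0 : 0 ≤ᵐ[volume] (fn y : E4 → ℝ)
  sol : IsSol lam th b x y
  en : (P lam x + P th y) / 4 = A lam th b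

theorem minseq_abs {lam th b : ℝ} {z : D × D} (hz : z ∈ Nb lam th b) :
    ∃ w : D × D, w ∈ Nb lam th b ∧ 0 ≤ᵐ[volume] (fn w.1 : E4 → ℝ) ∧
      0 ≤ᵐ[volume] (fn w.2 : E4 → ℝ) ∧
      (P lam w.1 + P th w.2) / 4 = (P lam z.1 + P th z.2) / 4 := by
  obtain ⟨hx, hy, nx, ny, e1, e2⟩ := hz
  obtain ⟨x', hx', ax, nxx, -, -, m4x, Px, Xx, -⟩ := exists_abs_B hx
  obtain ⟨y', hy', ay, nyy, -, -, m4y, Py, -, Xy⟩ := exists_abs_B hy
  have hX : X x' y' = X z.1 z.2 := by rw [Xx, Xy]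
  refine ⟨(x', y'), ⟨hx', hy', ?_, ?_, ?_, ?_⟩, ?_, ?_, ?_⟩
  · intro h
    simp only at h
    rw [h, norm_zero] at nxx
    exact nx (norm_eq_zero.mp nxx.symm)
  · intro h
    simp only at h
    rw [h, norm_zero] at nyy
    exact ny (norm_eq_zero.mp nyy.symm)
  · simp only
    rw [Px, m4x, hX]
    exact e1
  · simp only
    rw [Py, m4y, hX]
    exact e2
  · filter_upwards [ax] with p hp
    rw [hp]
    exact abs_nonneg _
  · filter_upwards [ay] with p hp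
    rw [hp]
    exact abs_nonneg _
  · simp only
    rw [Px, Py]

/-- a minimizing sequence in `N_b`, nonnegative -/
theorem exists_minseq {lam th b : ℝ} (h0 : 0 < lam) (h1 : lam < Lam) (h2 : 0 < th) (h3 : th < Lam)
    (hb : 0 < b) : ∃ x y : ℕ → D, (∀ n, (x n, y n) ∈ Nb lam th b) ∧
    (∀ n, 0 ≤ᵐ[volume] (fn (x n) : E4 → ℝ)) ∧ (∀ n, 0 ≤ᵐ[volume] (fn (y n) : E4 → ℝ)) ∧
    Tendsto (fun n => (P lam (x n) + P th (y n)) / 4) atTop (𝓝 (A lam th b)) := by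
  have hPn : ∀ {l : ℝ}, 0 < l → l < Lam → ∀ {x : D}, x ∈ H B → 0 ≤ P l x := by
    intro l hl hl1 x hx
    refine le_trans ?_ (P_coer hl hl1 hx)
    have hL := Lam_pos
    have : 0 ≤ 1 - l / Lam := by
      rw [sub_nonneg, div_le_one hL]
      exact hl1.le
    positivity
  have hne : ((fun z : D × D => (P lam z.1 + P th z.2) / 4) '' Nb lam th b).Nonempty :=
    (Nb_nonempty h0 h1 h2 h3 hb).image _
  have hbd : BddBelow ((fun z : D × D => (P lam z.1 + P th z.2) / 4) '' Nb lam th b) := by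
    refine ⟨0, ?_⟩
    rintro s ⟨z, hz, rfl⟩
    have := hPn h0 h1 hz.1
    have := hPn h2 h3 hz.2.1
    simp only
    positivity
  obtain ⟨u, -, hu, hmem⟩ := exists_seq_tendsto_sInf hne hbd
  choose z hz hzu using hmem
  have hw : ∀ n, ∃ w : D × D, w ∈ Nb lam th b ∧ 0 ≤ᵐ[volume] (fn w.1 : E4 → ℝ) ∧
      0 ≤ᵐ[volume] (fn w.2 : E4 → ℝ) ∧ (P lam w.1 + P th w.2) / 4 = u n := by
    intro n
    obtain ⟨w, h4, h5, h6, h7⟩ := minseq_abs (hz n)
    exact ⟨w, h4, h5, h6, h7.trans (hzu n)⟩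
  choose w hw1 hw2 hw3 hw4 using hw
  refine ⟨fun n => (w n).1, fun n => (w n).2, fun n => hw1 n, hw2, hw3, ?_⟩
  have e : (fun n => (P lam (w n).1 + P th (w n).2) / 4) = u := funext hw4
  rw [e]
  exact hu

end Pool.Agent.H57.BN
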