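import Pool.Agent.H57.BN.CutE
import Pool.Agent.H57.BN.SConst
import Pool.Agent.H57.BN.Eig

set_option autoImplicit false

open MeasureTheory Filter Topology Metric Set
open scoped ENNReal NNReal ContDiff

namespace Pool.Agent.H57.BN

/-- averages over balls, integrated over the centre -/
theorem nv_avg {w : E4 → ℝ} (hw : Integrable w (volume : Measure E4)) (r : ℝ) :
    Integrable (fun z : E4 => ∫ p in ball z r, w p) (volume : Measure E4) ∧
    ∫ z : E4, ∫ p in ball z r, w p = (volume (ball (0:E4) r)).toReal * ∫ p, w p := by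
  let φ : E4 → ℝ := indicator (ball (0:E4) r) (fun _ => (1:ℝ))
  have hφ : Integrable φ (volume : Measure E4) := by
    rw [integrable_indicator_iff measurableSet_ball]
    exact integrableOn_const (measure_ball_lt_top.ne)
  have hc : (fun z : E4 => ∫ p in ball z r, w p)
      = convolution w φ (ContinuousLinearMap.mul ℝ ℝ) volume := by
    funext z
    rw [convolution_def]
    rw [← integral_indicator measurableSet_ball]
    apply integral_congr_ae
    refine ae_of_all _ fun p => ?_
    simp only [ContinuousLinearMap.mul_apply', φ]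
    by_cases hp : p ∈ ball z r
    · have h1 : z - p ∈ ball (0:E4) r := by
        rw [mem_ball, dist_eq_norm] at hp
        rw [mem_ball_zero_iff, ← norm_neg]
        simpa using hp
      rw [indicator_of_mem hp, indicator_of_mem h1, mul_one]
    · have h1 : z - p ∉ ball (0:E4) r := by
        intro h1
        apply hp
        rw [mem_ball, dist_eq_norm]
        rw [mem_ball_zero_iff, ← norm_neg] at h1
        simpa using h1
      rw [indicator_of_notMem hp, indicator_of_notMem h1, mul_zero]
  constructor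
  · rw [hc]
    exact hw.integrable_convolution (ContinuousLinearMap.mul ℝ ℝ) hφ
  · rw [hc, integral_convolution (ContinuousLinearMap.mul ℝ ℝ) hw hφ]
    simp only [ContinuousLinearMap.mul_apply', φ]
    rw [integral_indicator measurableSet_ball]
    simp [Measure.real, mul_comm]

/-- No vanishing.  `χ_z` a fixed cutoff translated to `z`: `S‖χ_z v‖₄² ≤ ‖∇(χ_z v)‖²`; integrate in `z`:
`∫_z ‖∇(χ_z v)‖² ≤ C (‖v‖² + ∫v²) ≤ C'` and `∫_z ‖χ_z v‖₄⁴ = c`; if all `‖χ_z v‖₄⁴ ≤ s` then
`c ≤ s^{1/2} C'/S`. -/
theorem nonvan : ∃ c0 : ℝ, 0 < c0 ∧ c0 ≤ 1 ∧ ∀ v : D, ‖fn v‖ = 1 → ‖v‖ ^ 2 ≤ 2 * S →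
    volume {p | fn v p ≠ 0} ≤ 1 → ∃ z : E4, c0 ≤ ∫ p in ball z 1, fn v p ^ 4 := by
  obtain ⟨C, hC, hcut⟩ := exists_cutoff
  have hS := S_pos
  set b : ℝ := (volume (ball (0:E4) 1)).toReal with hb
  set a : ℝ := (volume (ball (0:E4) (1/2))).toReal with ha
  have ha0 : 0 < a := ENNReal.toReal_pos (measure_ball_pos _ _ (by norm_num)).ne'
    measure_ball_lt_top.ne
  have hb0 : 0 < b := ENNReal.toReal_pos (measure_ball_pos _ _ (by norm_num)).ne'
    measure_ball_lt_top.ne
  set C' : ℝ := (2 * b * (2 * S) + 2 * (2 * C) ^ 2 * b) / S with hC'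
  have hC'0 : 0 < C' := by positivity
  set e : ℝ := min 1 (a / (2 * C')) with he
  have he0 : 0 < e := by positivity
  have he1 : e ≤ 1 := min_le_left _ _
  have he2 : e * C' < a := by
    have h1 : e ≤ a / (2 * C') := min_le_right _ _
    calc e * C' ≤ a / (2 * C') * C' := mul_le_mul_of_nonneg_right h1 hC'0.le
      _ = a / 2 := by field_simp
      _ < a := by linarith
  refine ⟨e ^ 2, by positivity, by nlinarith, ?_⟩
  intro v hv1 hv2 hv3
  by_contra hcon
  push Not at hcon
  -- integrability
  have hw4 : Integrable (fun p => fn v p ^ 4) (volume : Measure E4) := integrable_pow4 _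
  have hwg : Integrable (fun p => ‖gr v p‖ ^ 2) (volume : Measure E4) :=
    (memLp_gr v).integrable_norm_pow (by norm_num)
  have hEm : MeasurableSet {p | fn v p ≠ 0} :=
    (Lp.stronglyMeasurable (fn v)).measurable (measurableSet_singleton (0:ℝ)).compl
  have hE : volume {p | fn v p ≠ 0} < ⊤ := lt_of_le_of_lt hv3 (by norm_num)
  have hsupp : ∀ᵐ p ∂(volume : Measure E4), p ∉ {p | fn v p ≠ 0} → fn v p = 0 :=
    ae_of_all _ fun p hp => by
      by_contra h
      exact hp h
  have hw2 : Integrable (fun p => fn v p ^ 2) (volume : Measure E4) := by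
    have := (memLp_of_support (fn v) hEm hE hsupp (r := 2) (by norm_num)).integrable_sq
    exact this
  have hi2 : ∫ p, fn v p ^ 2 ≤ 1 := by
    have h1 := setIntegral_sq_le (fn v) hEm hE
    rw [hv1] at h1
    have h2 : ∫ p in {p | fn v p ≠ 0}, fn v p ^ 2 = ∫ p, fn v p ^ 2 := by
      rw [← integral_indicator hEm]
      congr 1
      funext p
      by_cases hp : fn v p = 0
      · rw [indicator_of_notMem (by simpa using hp)]
        simp [hp]
      · rw [indicator_of_mem (by simpa using hp)]
    rw [h2] at h1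
    have h3 : Real.sqrt (volume {p | fn v p ≠ 0}).toReal ≤ 1 := by
      rw [Real.sqrt_le_one]
      have := ENNReal.toReal_mono (by norm_num) hv3
      simpa using this
    nlinarith
  have hig : ∫ p, ‖gr v p‖ ^ 2 ≤ 2 * S := by rw [← norm_sq]; exact hv2
  have hi4 : ∫ p, fn v p ^ 4 = 1 := by rw [← norm4_eq, hv1]; norm_num
  -- the local inequality
  have hloc : ∀ z : E4, ∫ p in ball z (1/2), fn v p ^ 4 ≤
      (e / S) * (2 * (∫ p in ball z 1, ‖gr v p‖ ^ 2) +
        2 * (2 * C) ^ 2 * ∫ p in ball z 1, fn v p ^ 2) := by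
    intro z
    obtain ⟨χ, h1, h2, h3, h4, h5, h6, h7, h8, h9⟩ := hcut z (1/2) (by norm_num)
    obtain ⟨y, hy1, hy2, _, _⟩ := exists_cut h1 h2 v
    have h21 : (2:ℝ) * (1/2) = 1 := by norm_num
    rw [h21] at h6 h8
    -- the gradient
    have hg : ‖y‖ ^ 2 ≤ 2 * (∫ p in ball z 1, ‖gr v p‖ ^ 2) +
        2 * (2 * C) ^ 2 * ∫ p in ball z 1, fn v p ^ 2 := by
      rw [norm_sq, ← integral_const_mul, ← integral_const_mul, ← integral_add
        ((hwg.integrableOn).const_mul _) ((hw2.integrableOn).const_mul _)]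
      rw [← integral_indicator measurableSet_ball]
      refine integral_mono_of_nonneg (ae_of_all _ fun p => by positivity) ?_ ?_
      · rw [integrable_indicator_iff measurableSet_ball]
        exact ((hwg.integrableOn).const_mul _).add ((hw2.integrableOn).const_mul _)
      · filter_upwards [hy2] with p hp
        rw [hp]
        by_cases hpb : p ∈ ball z 1
        · rw [indicator_of_mem hpb]
          have i1 : ‖χ p • gr v p‖ ≤ ‖gr v p‖ := by
            rw [norm_smul, Real.norm_eq_abs, abs_of_nonneg (h4 p).1]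
            exact mul_le_of_le_one_left (norm_nonneg _) (h4 p).2
          have i2 : ‖fn v p • gradient χ p‖ ≤ |fn v p| * (2 * C) := by
            rw [norm_smul, Real.norm_eq_abs]
            refine mul_le_mul_of_nonneg_left ?_ (abs_nonneg _)
            have := h7 p
            have h22 : C / (1/2) = 2 * C := by ring
            rwa [h22] at this
          have i3 : ‖χ p • gr v p + fn v p • gradient χ p‖ ≤ ‖gr v p‖ + |fn v p| * (2 * C) :=
            (norm_add_le _ _).trans (add_le_add i1 i2)
          have i4 : ‖χ p • gr v p + fn v p • gradient χ p‖ ^ 2 ≤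
              (‖gr v p‖ + |fn v p| * (2 * C)) ^ 2 :=
            pow_le_pow_left₀ (norm_nonneg _) i3 2
          refine i4.trans ?_
          have i5 : |fn v p| ^ 2 = fn v p ^ 2 := sq_abs _
          have i6 := sq_nonneg (‖gr v p‖ - |fn v p| * (2 * C))
          nlinarith
        · rw [indicator_of_notMem hpb, h6 p hpb, h8 p hpb]
          simp
    -- the L⁴ norm
    have hf4 : ‖fn y‖ ^ 4 = ∫ p, χ p ^ 4 * fn v p ^ 4 := by
      rw [norm4_eq]
      apply integral_congr_ae
      filter_upwards [hy1] with p hp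
      rw [hp, mul_pow]
    have hint : Integrable (fun p => χ p ^ 4 * fn v p ^ 4) (volume : Measure E4) := by
      refine hw4.mono ((h1.continuous.pow 4).aestronglyMeasurable.mul hw4.1)
        (ae_of_all _ fun p => ?_)
      rw [norm_mul]
      refine mul_le_of_le_one_left (norm_nonneg _) ?_
      rw [Real.norm_eq_abs, abs_of_nonneg (by have := (h4 p).1; positivity)]
      exact pow_le_one₀ (h4 p).1 (h4 p).2
    have hlow : ∫ p in ball z (1/2), fn v p ^ 4 ≤ ‖fn y‖ ^ 4 := by
      rw [hf4, ← integral_indicator measurableSet_ball]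
      refine integral_mono_of_nonneg (ae_of_all _ fun p => ?_) hint (ae_of_all _ fun p => ?_)
      · exact indicator_nonneg (fun p _ => by positivity) p
      · by_cases hpb : p ∈ ball z (1/2)
        · simp only [indicator_of_mem hpb, h5 p hpb]
          simp
        · simp only [indicator_of_notMem hpb]
          have := (h4 p).1
          positivity
    have hup : ‖fn y‖ ^ 4 ≤ e ^ 2 := by
      refine le_trans ?_ (hcon z).le
      rw [hf4, ← integral_indicator measurableSet_ball]
      refine integral_mono_of_nonneg (ae_of_all _ fun p => ?_) ?_ (ae_of_all _ fun p => ?_)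
      · have := (h4 p).1
        positivity
      · rw [integrable_indicator_iff measurableSet_ball]
        exact hw4.integrableOn
      · by_cases hpb : p ∈ ball z 1
        · simp only [indicator_of_mem hpb]
          refine mul_le_of_le_one_left (by positivity) (pow_le_one₀ (h4 p).1 (h4 p).2)
        · simp only [indicator_of_notMem hpb, h6 p hpb]
          simp
    have hsob := S_le y
    have hup2 : ‖fn y‖ ^ 2 ≤ e := by
      have : (‖fn y‖ ^ 2) ^ 2 ≤ e ^ 2 := by rw [← pow_mul]; exact hup
      exact (pow_le_pow_iff_left₀ (by positivity) he0.le two_ne_zero).1 this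
    have h10 : ‖fn y‖ ^ 2 ≤ ‖y‖ ^ 2 / S := by
      rw [le_div_iff₀ hS]; linarith
    calc ∫ p in ball z (1/2), fn v p ^ 4 ≤ ‖fn y‖ ^ 4 := hlow
      _ = ‖fn y‖ ^ 2 * ‖fn y‖ ^ 2 := by ring
      _ ≤ e * (‖y‖ ^ 2 / S) := mul_le_mul hup2 h10 (by positivity) he0.le
      _ = (e / S) * ‖y‖ ^ 2 := by ring
      _ ≤ _ := mul_le_mul_of_nonneg_left hg (by positivity)
  -- integrate
  obtain ⟨j1, k1⟩ := nv_avg hw4 (1/2)
  obtain ⟨j2, k2⟩ := nv_avg hwg 1
  obtain ⟨j3, k3⟩ := nv_avg hw2 1
  have hfin := integral_mono j1 (((j2.const_mul 2).add (j3.const_mul (2 * (2 * C) ^ 2))).const_mul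
    (e / S)) hloc
  simp only [Pi.add_apply] at hfin
  rw [k1, hi4, integral_const_mul, integral_add (j2.const_mul 2) (j3.const_mul _),
    integral_const_mul, integral_const_mul, k2, k3, ← ha, ← hb] at hfin
  have h11 : (e / S) * (2 * (b * ∫ p, ‖gr v p‖ ^ 2) + 2 * (2 * C) ^ 2 * (b * ∫ p, fn v p ^ 2))
      ≤ e * C' := by
    have h12 : 2 * (b * ∫ p, ‖gr v p‖ ^ 2) ≤ 2 * b * (2 * S) := by nlinarith
    have h13 : 2 * (2 * C) ^ 2 * (b * ∫ p, fn v p ^ 2) ≤ 2 * (2 * C) ^ 2 * b := by
      have : b * ∫ p, fn v p ^ 2 ≤ b := by nlinarith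
      exact mul_le_mul_of_nonneg_left this (by positivity)
    calc _ ≤ (e / S) * (2 * b * (2 * S) + 2 * (2 * C) ^ 2 * b) :=
          mul_le_mul_of_nonneg_left (add_le_add h12 h13) (by positivity)
      _ = e * C' := by rw [hC']; ring
  linarith

end Pool.Agent.H57.BN
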