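import Pool.Agent.H57.BN.Base

set_option autoImplicit false

open MeasureTheory Filter Topology Metric Set
open scoped ENNReal NNReal ContDiff

namespace Pool.Agent.H57.BN

/-- `Φ_r(z) = |z|⁻²` for `|z| ≥ r`, `2r⁻² - |z|² r⁻⁴` for `|z| < r`: a `C¹` function with
`-ΔΦ_r = 8 r⁻⁴ 1_{B_r}`. -/
noncomputable def Phi (r : ℝ) (z : E4) : ℝ :=
  if r ≤ ‖z‖ then (‖z‖ ^ 2)⁻¹ else 2 * (r ^ 2)⁻¹ - ‖z‖ ^ 2 * (r ^ 4)⁻¹

/-- the profile of `Phi` as a function of `|z|²` -/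
noncomputable def phiProf (q s : ℝ) : ℝ := if q ≤ s then s⁻¹ else 2 * q⁻¹ - s * (q ^ 2)⁻¹

theorem phiProf_deriv {q : ℝ} (hq : 0 < q) (s : ℝ) :
    HasDerivAt (phiProf q) (-((max s q) ^ 2)⁻¹) s := by
  have hinv : ∀ t : ℝ, q ≤ t → HasDerivAt (fun s : ℝ => s⁻¹) (-(t ^ 2)⁻¹) t := fun t ht =>
    hasDerivAt_inv (lt_of_lt_of_le hq ht).ne'
  have hlin : ∀ t : ℝ, HasDerivAt (fun s : ℝ => 2 * q⁻¹ - s * (q ^ 2)⁻¹) (-(q ^ 2)⁻¹) t := by
    intro t
    have := ((hasDerivAt_id t).mul_const ((q ^ 2)⁻¹)).const_sub (2 * q⁻¹)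
    simpa using this
  rcases lt_trichotomy s q with h | h | h
  · rw [max_eq_right h.le]
    refine (hlin s).congr_of_eventuallyEq ?_
    filter_upwards [Iio_mem_nhds h] with t ht
    rw [phiProf, if_neg (not_le.2 ht)]
  · subst h
    rw [max_self]
    have h1 : HasDerivWithinAt (phiProf s) (-(s ^ 2)⁻¹) (Iic s) s := by
      refine (hlin s).hasDerivWithinAt.congr_of_mem (fun t ht => ?_) (mem_Iic.2 le_rfl)
      rcases eq_or_lt_of_le (mem_Iic.1 ht) with h2 | h2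
      · rw [phiProf, h2, if_pos le_rfl]; field_simp; ring
      · rw [phiProf, if_neg (not_le.2 h2)]
    have h2 : HasDerivWithinAt (phiProf s) (-(s ^ 2)⁻¹) (Ici s) s := by
      refine (hinv s le_rfl).hasDerivWithinAt.congr_of_mem (fun t ht => ?_) (mem_Ici.2 le_rfl)
      rw [phiProf, if_pos (mem_Ici.1 ht)]
    have h3 := h1.union h2
    rw [Iic_union_Ici] at h3
    exact hasDerivWithinAt_univ.1 h3
  · rw [max_eq_left h.le]
    refine (hinv s h.le).congr_of_eventuallyEq ?_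
    filter_upwards [Ioi_mem_nhds h] with t ht
    rw [phiProf, if_pos (le_of_lt ht)]

theorem Phi_eq_prof {r : ℝ} (hr : 0 < r) (z : E4) : Phi r z = phiProf (r ^ 2) (‖z‖ ^ 2) := by
  unfold Phi phiProf
  by_cases h : r ≤ ‖z‖
  · rw [if_pos h, if_pos (pow_le_pow_left₀ hr.le h 2)]
  · have h' : ‖z‖ < r := not_le.1 h
    have h2 : ‖z‖ ^ 2 < r ^ 2 := pow_lt_pow_left₀ h' (norm_nonneg z) (by norm_num)
    rw [if_neg h, if_neg (not_le.2 h2)]
    ring_nf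

theorem Phi_fderiv {r : ℝ} (hr : 0 < r) (z : E4) :
    HasFDerivAt (Phi r) ((InnerProductSpace.toDual ℝ E4) ((-2 * ((max ‖z‖ r) ^ 4)⁻¹) • z)) z := by
  have h1 : HasFDerivAt (fun x : E4 => ‖x‖ ^ 2) (2 • (innerSL ℝ z)) z :=
    (hasStrictFDerivAt_norm_sq z).hasFDerivAt
  have h2 := (phiProf_deriv (by positivity : (0 : ℝ) < r ^ 2) (‖z‖ ^ 2)).comp_hasFDerivAt z h1
  have h3 : (phiProf (r ^ 2) ∘ fun x : E4 => ‖x‖ ^ 2) = Phi r := by
    funext x; rw [Phi_eq_prof hr]; rfl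
  rw [h3] at h2
  convert! h2 using 1
  have hmax : max (‖z‖ ^ 2) (r ^ 2) = (max ‖z‖ r) ^ 2 := by
    rcases le_total ‖z‖ r with h | h
    · rw [max_eq_right h, max_eq_right (pow_le_pow_left₀ (norm_nonneg z) h 2)]
    · rw [max_eq_left h, max_eq_left (pow_le_pow_left₀ hr.le h 2)]
  rw [hmax]
  ext v
  simp only [map_smul, ContinuousLinearMap.smul_apply, InnerProductSpace.toDual_apply_apply,
    innerSL_apply_apply, smul_eq_mul, nsmul_eq_mul]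
  ring

theorem Phi_grad {r : ℝ} (hr : 0 < r) (z : E4) :
    HasGradientAt (Phi r) ((-2 * ((max ‖z‖ r) ^ 4)⁻¹) • z) z :=
  hasGradientAt_iff_hasFDerivAt.2 (Phi_fderiv hr z)

theorem Phi_C1 {r : ℝ} (hr : 0 < r) : ContDiff ℝ 1 (Phi r) := by
  rw [contDiff_one_iff_fderiv]
  refine ⟨fun z => (Phi_fderiv hr z).differentiableAt, ?_⟩
  have h : fderiv ℝ (Phi r) =
      fun z => (InnerProductSpace.toDual ℝ E4) ((-2 * ((max ‖z‖ r) ^ 4)⁻¹) • z) := by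
    funext z; exact (Phi_fderiv hr z).fderiv
  rw [h]
  have hi : Continuous fun z : E4 => ((max ‖z‖ r) ^ 4)⁻¹ := by
    refine Continuous.inv₀ (by fun_prop) fun z => ?_
    have : 0 < max ‖z‖ r := lt_max_of_lt_right hr
    positivity
  have hc : Continuous fun z : E4 => (-2 * ((max ‖z‖ r) ^ 4)⁻¹) • z :=
    (continuous_const.mul hi).smul continuous_id
  exact (InnerProductSpace.toDual ℝ E4).continuous.comp hc

theorem Phi_lower {r : ℝ} (hr : 0 < r) (z : E4) : ((max ‖z‖ r) ^ 2)⁻¹ ≤ Phi r z := by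
  unfold Phi
  split_ifs with h
  · rw [max_eq_left h]
  · have h' : ‖z‖ < r := not_le.1 h
    rw [max_eq_right h'.le]
    have h2 : ‖z‖ ^ 2 * (r ^ 4)⁻¹ ≤ (r ^ 2)⁻¹ := by
      rw [show (r ^ 2)⁻¹ = r ^ 2 * (r ^ 4)⁻¹ by field_simp]
      exact mul_le_mul_of_nonneg_right (pow_le_pow_left₀ (norm_nonneg z) h'.le 2) (by positivity)
    linarith

theorem Phi_upper {r : ℝ} (hr : 0 < r) (z : E4) : Phi r z ≤ 2 * ((max ‖z‖ r) ^ 2)⁻¹ := by
  unfold Phi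
  split_ifs with h
  · rw [max_eq_left h]
    have : 0 ≤ (‖z‖ ^ 2)⁻¹ := by positivity
    linarith
  · have h' : ‖z‖ < r := not_le.1 h
    rw [max_eq_right h'.le]
    have : 0 ≤ ‖z‖ ^ 2 * (r ^ 4)⁻¹ := by positivity
    linarith

end Pool.Agent.H57.BN
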