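import Pool.Agent.H57.BN.Phi

set_option autoImplicit false

open MeasureTheory Filter Topology Metric Set
open scoped ENNReal NNReal ContDiff

namespace Pool.Agent.H57.BN

/-- the gradient field of `Phi r` -/
noncomputable def PV (r : ℝ) (z : E4) : E4 := (-2 * ((max ‖z‖ r) ^ 4)⁻¹) • z

theorem PV_lip_aux {r a b : ℝ} (hr : 0 < r) (ha : r ≤ a) (hb : r ≤ b) :
    b * |(a ^ 4)⁻¹ - (b ^ 4)⁻¹| ≤ 4 * (r ^ 4)⁻¹ * |a - b| := by
  have ha0 : 0 < a := lt_of_lt_of_le hr ha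
  have hb0 : 0 < b := lt_of_lt_of_le hr hb
  have h1 : (a ^ 4)⁻¹ - (b ^ 4)⁻¹ = (b - a) * ((a ^ 3 + a ^ 2 * b + a * b ^ 2 + b ^ 3) / (a ^ 4 * b ^ 4)) := by
    field_simp
    ring
  rw [h1, abs_mul, abs_sub_comm b a, abs_of_nonneg (a := _ / _) (by positivity)]
  have h2 : b * ((a ^ 3 + a ^ 2 * b + a * b ^ 2 + b ^ 3) / (a ^ 4 * b ^ 4)) =
      1 / (a * b ^ 3) + 1 / (a ^ 2 * b ^ 2) + 1 / (a ^ 3 * b) + 1 / a ^ 4 := by
    field_simp
  have e1 : 1 / (a * b ^ 3) ≤ (r ^ 4)⁻¹ := by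
    rw [← one_div]
    refine one_div_le_one_div_of_le (by positivity) ?_
    calc r ^ 4 = r * r ^ 3 := by ring
      _ ≤ a * b ^ 3 := by gcongr
  have e2 : 1 / (a ^ 2 * b ^ 2) ≤ (r ^ 4)⁻¹ := by
    rw [← one_div]
    refine one_div_le_one_div_of_le (by positivity) ?_
    calc r ^ 4 = r ^ 2 * r ^ 2 := by ring
      _ ≤ a ^ 2 * b ^ 2 := by gcongr
  have e3 : 1 / (a ^ 3 * b) ≤ (r ^ 4)⁻¹ := by
    rw [← one_div]
    refine one_div_le_one_div_of_le (by positivity) ?_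
    calc r ^ 4 = r ^ 3 * r := by ring
      _ ≤ a ^ 3 * b := by gcongr
  have e4 : 1 / a ^ 4 ≤ (r ^ 4)⁻¹ := by
    rw [← one_div]
    refine one_div_le_one_div_of_le (by positivity) ?_
    gcongr
  calc b * (|a - b| * ((a ^ 3 + a ^ 2 * b + a * b ^ 2 + b ^ 3) / (a ^ 4 * b ^ 4))) =
        |a - b| * (b * ((a ^ 3 + a ^ 2 * b + a * b ^ 2 + b ^ 3) / (a ^ 4 * b ^ 4))) := by ring
    _ = |a - b| * (1 / (a * b ^ 3) + 1 / (a ^ 2 * b ^ 2) + 1 / (a ^ 3 * b) + 1 / a ^ 4) := by rw [h2]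
    _ ≤ |a - b| * (4 * (r ^ 4)⁻¹) := mul_le_mul_of_nonneg_left (by linarith) (abs_nonneg _)
    _ = _ := by ring

theorem PV_lip {r : ℝ} (hr : 0 < r) (z w : E4) :
    ‖PV r z - PV r w‖ ≤ 10 * (r ^ 4)⁻¹ * ‖z - w‖ := by
  set a := max ‖z‖ r with ha
  set b := max ‖w‖ r with hb
  have ha1 : r ≤ a := le_max_right _ _
  have hb1 : r ≤ b := le_max_right _ _
  have hwb : ‖w‖ ≤ b := le_max_left _ _
  have ha0 : 0 < a := lt_of_lt_of_le hr ha1
  have hab : |a - b| ≤ ‖z - w‖ := by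
    have h1 : |a - b| ≤ |‖z‖ - ‖w‖| := by
      have := abs_max_sub_max_le_abs ‖z‖ ‖w‖ r
      exact this
    exact h1.trans (abs_norm_sub_norm_le z w)
  have h1 : PV r z - PV r w = (-2 : ℝ) • ((a ^ 4)⁻¹ • (z - w) + ((a ^ 4)⁻¹ - (b ^ 4)⁻¹) • w) := by
    rw [PV, PV, ← ha, ← hb]
    module
  have h2 : ‖(a ^ 4)⁻¹ • (z - w)‖ ≤ (r ^ 4)⁻¹ * ‖z - w‖ := by
    rw [norm_smul, Real.norm_of_nonneg (by positivity)]
    refine mul_le_mul_of_nonneg_right ?_ (norm_nonneg _)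
    gcongr
  have h3 : ‖((a ^ 4)⁻¹ - (b ^ 4)⁻¹) • w‖ ≤ 4 * (r ^ 4)⁻¹ * ‖z - w‖ := by
    rw [norm_smul, Real.norm_eq_abs, mul_comm]
    calc ‖w‖ * |(a ^ 4)⁻¹ - (b ^ 4)⁻¹| ≤ b * |(a ^ 4)⁻¹ - (b ^ 4)⁻¹| :=
          mul_le_mul_of_nonneg_right hwb (abs_nonneg _)
      _ ≤ 4 * (r ^ 4)⁻¹ * |a - b| := PV_lip_aux hr ha1 hb1
      _ ≤ 4 * (r ^ 4)⁻¹ * ‖z - w‖ := mul_le_mul_of_nonneg_left hab (by positivity)
  rw [h1, norm_smul]
  have h4 := norm_add_le ((a ^ 4)⁻¹ • (z - w)) (((a ^ 4)⁻¹ - (b ^ 4)⁻¹) • w)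
  have h5 : ‖(-2 : ℝ)‖ = 2 := by norm_num
  rw [h5]
  linarith

theorem PV_lipschitz {r : ℝ} (hr : 0 < r) (x b : E4) :
    ∃ C : ℝ≥0, LipschitzWith C fun p => inner ℝ b (PV r (p - x)) := by
  refine ⟨Real.toNNReal (‖b‖ * (10 * (r ^ 4)⁻¹)), LipschitzWith.of_dist_le_mul fun p q => ?_⟩
  rw [Real.coe_toNNReal _ (by positivity), Real.dist_eq, dist_eq_norm, ← inner_sub_right]
  refine (abs_real_inner_le_norm _ _).trans ?_
  rw [mul_assoc]
  refine mul_le_mul_of_nonneg_left ?_ (norm_nonneg _)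
  have := PV_lip hr (p - x) (q - x)
  rwa [sub_sub_sub_cancel_right] at this

theorem PV_in {r : ℝ} (x b : E4) {p : E4} (hp : ‖p - x‖ < r) :
    HasFDerivAt (fun p => inner ℝ b (PV r (p - x))) ((-2 * (r ^ 4)⁻¹) • innerSL ℝ b) p := by
  have h1 : (fun p => inner ℝ b (PV r (p - x))) =ᶠ[𝓝 p]
      fun p => (-2 * (r ^ 4)⁻¹) * (inner ℝ b p - inner ℝ b x) := by
    have h2 : {q : E4 | ‖q - x‖ < r} ∈ 𝓝 p :=
      (isOpen_lt (by fun_prop) continuous_const).mem_nhds hp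
    filter_upwards [h2] with q hq
    rw [PV, max_eq_right (le_of_lt hq), inner_smul_right, inner_sub_right]
  refine HasFDerivAt.congr_of_eventuallyEq ?_ h1
  exact ((innerSL ℝ b).hasFDerivAt.sub_const _).const_mul _

theorem PV_out {r : ℝ} (hr : 0 < r) (x b : E4) {p : E4} (hp : r < ‖p - x‖) :
    HasFDerivAt (fun p => inner ℝ b (PV r (p - x)))
      ((8 * (‖p - x‖ ^ 6)⁻¹ * inner ℝ b (p - x)) • innerSL ℝ (p - x) -
        (2 * (‖p - x‖ ^ 4)⁻¹) • innerSL ℝ b) p := by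
  have hz : ‖p - x‖ ≠ 0 := (hr.trans hp).ne'
  have h1 : (fun p => inner ℝ b (PV r (p - x))) =ᶠ[𝓝 p]
      fun p => (-2 * ((‖p - x‖ ^ 2) ^ 2)⁻¹) * inner ℝ b (p - x) := by
    have h2 : {q : E4 | r < ‖q - x‖} ∈ 𝓝 p :=
      (isOpen_lt continuous_const (by fun_prop)).mem_nhds hp
    filter_upwards [h2] with q hq
    rw [PV, max_eq_left (le_of_lt hq), inner_smul_right, ← pow_mul]
  refine HasFDerivAt.congr_of_eventuallyEq ?_ h1
  have h3 : HasFDerivAt (fun p : E4 => ‖p - x‖ ^ 2) (2 • (innerSL ℝ (p - x))) p := by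
    have h4 := (hasStrictFDerivAt_norm_sq (p - x)).hasFDerivAt
    have h5 := h4.comp p ((hasFDerivAt_id p).sub_const x)
    refine HasFDerivAt.congr_fderiv h5 ?_
    ext v
    simp
  have h6 : HasDerivAt (fun t : ℝ => -2 * (t ^ 2)⁻¹) (4 * (‖p - x‖ ^ 6)⁻¹) (‖p - x‖ ^ 2) := by
    have h7 := (((hasDerivAt_pow 2 (‖p - x‖ ^ 2)).inv (by positivity)).const_mul (-2 : ℝ))
    refine h7.congr_deriv ?_
    simp only [Nat.cast_ofNat, Nat.add_one_sub_one, pow_one]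
    field_simp
    norm_num
  have h8 := (h6.comp_hasFDerivAt p h3).mul
    (((innerSL ℝ b).hasFDerivAt).comp p ((hasFDerivAt_id p).sub_const x))
  refine HasFDerivAt.congr_fderiv h8 ?_
  ext v
  simp only [add_apply, sub_apply, smul_apply, innerSL_apply_apply, smul_eq_mul, Function.comp]
  simp only [ContinuousLinearMap.comp_apply, innerSL_apply_apply, ContinuousLinearMap.id_apply,
    nsmul_eq_mul, Nat.cast_ofNat, id]
  field_simp
  ring

/-- Weak equation `-ΔΦ_r(· - x) = 8 r⁻⁴ 1_{B_r(x)}` (the vector field `-2 z / max(|z|,r)⁴` is Lipschitz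
and bounded, differentiable off the sphere `|z| = r`; coordinatewise integration by parts, e.g.
`LipschitzWith.integral_lineDeriv_mul_eq`). -/
theorem Phi_eq {r : ℝ} (hr : 0 < r) (x : E4) {φ : E4 → ℝ} (h : IsTest univ φ) :
    ∫ p, inner ℝ (gradient (Phi r) (p - x)) (gradient φ p) = 8 * (r ^ 4)⁻¹ * ∫ p in ball x r, φ p := by
  set b := EuclideanSpace.basisFun (Fin 4) ℝ with hb
  have hC1 : ContDiff ℝ 1 φ := h.smooth.of_le (by norm_cast)
  have hdiff : Differentiable ℝ φ := hC1.differentiable (by norm_num)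
  have hφc : Continuous φ := h.smooth.continuous
  have hφi : Integrable φ := hφc.integrable_of_hasCompactSupport h.comp
  obtain ⟨Cφ, hφL⟩ := hC1.lipschitzWith_of_hasCompactSupport h.comp (by norm_num)
  have e1 : ∀ p, inner ℝ (gradient (Phi r) (p - x)) (gradient φ p) =
      ∑ i, inner ℝ (b i) (PV r (p - x)) * fderiv ℝ φ p (b i) := by
    intro p
    rw [(Phi_grad hr (p - x)).gradient, ← b.sum_inner_mul_inner]
    refine Finset.sum_congr rfl fun i _ => ?_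
    rw [PV, real_inner_comm (b i), ← inner_gradient_left, real_inner_comm (b i) (gradient φ p)]
  have i1 : ∀ i, Integrable (fun p => inner ℝ (b i) (PV r (p - x)) * fderiv ℝ φ p (b i)) := by
    intro i
    obtain ⟨C, hC⟩ := PV_lipschitz hr x (b i)
    refine Continuous.integrable_of_hasCompactSupport ?_ ?_
    · exact hC.continuous.mul ((hC1.continuous_fderiv (by norm_num)).clm_apply continuous_const)
    · exact (h.comp.fderiv_apply ℝ (b i)).mul_left
  have i2 : ∀ i, Integrable (fun p => lineDeriv ℝ (fun p => inner ℝ (b i) (PV r (p - x))) p (b i) *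
      φ p) := by
    intro i
    obtain ⟨C, hC⟩ := PV_lipschitz hr x (b i)
    exact hφi.mul_of_top_right (hC.memLp_lineDeriv (b i))
  have e2 : ∀ i, ∫ p, inner ℝ (b i) (PV r (p - x)) * fderiv ℝ φ p (b i) =
      -∫ p, lineDeriv ℝ (fun p => inner ℝ (b i) (PV r (p - x))) p (b i) * φ p := by
    intro i
    obtain ⟨C, hC⟩ := PV_lipschitz hr x (b i)
    rw [hC.integral_lineDeriv_mul_eq hφL h.comp (b i), ← integral_neg]
    refine integral_congr_ae (Eventually.of_forall fun p => ?_)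
    simp only
    rw [(hdiff p).lineDeriv_eq_fderiv, map_neg]
    ring
  simp only [e1]
  rw [integral_finsetSum _ fun i _ => i1 i]
  simp only [e2]
  rw [Finset.sum_neg_distrib, ← integral_finsetSum _ fun i _ => i2 i, ← integral_neg,
    ← integral_const_mul, ← integral_indicator measurableSet_ball]
  refine integral_congr_ae ?_
  have hs : ∀ᵐ p ∂(volume : Measure E4), p ∉ sphere x r := by
    exact measure_eq_zero_iff_ae_notMem.1 (Measure.addHaar_sphere volume x r)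
  filter_upwards [hs] with p hp
  rw [mem_sphere, dist_eq_norm] at hp
  rw [← Finset.sum_mul]
  rcases lt_or_gt_of_ne hp with h1 | h1
  · rw [indicator_of_mem (by rwa [mem_ball, dist_eq_norm])]
    have h2 : ∀ i, lineDeriv ℝ (fun p => inner ℝ (b i) (PV r (p - x))) p (b i) =
        -2 * (r ^ 4)⁻¹ := by
      intro i
      rw [(PV_in x (b i) h1).hasLineDerivAt (b i) |>.lineDeriv]
      simp only [smul_apply, innerSL_apply_apply, smul_eq_mul]
      rw [real_inner_self_eq_norm_sq, b.norm_eq_one i]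
      ring
    simp only [h2, Finset.sum_const, Finset.card_univ, Fintype.card_fin, nsmul_eq_mul]
    push_cast
    ring
  · rw [indicator_of_notMem (by rw [mem_ball, dist_eq_norm]; exact not_lt.2 h1.le)]
    have hz : ‖p - x‖ ≠ 0 := (hr.trans h1).ne'
    have h2 : ∀ i, lineDeriv ℝ (fun p => inner ℝ (b i) (PV r (p - x))) p (b i) =
        8 * (‖p - x‖ ^ 6)⁻¹ * (inner ℝ (p - x) (b i) * inner ℝ (b i) (p - x)) -
          2 * (‖p - x‖ ^ 4)⁻¹ := by
      intro i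
      rw [(PV_out hr x (b i) h1).hasLineDerivAt (b i) |>.lineDeriv]
      simp only [sub_apply, smul_apply, innerSL_apply_apply, smul_eq_mul]
      rw [real_inner_self_eq_norm_sq, b.norm_eq_one i]
      ring
    rw [Finset.sum_congr rfl fun i _ => h2 i, Finset.sum_sub_distrib, ← Finset.mul_sum,
      b.sum_inner_mul_inner, real_inner_self_eq_norm_sq]
    simp only [Finset.sum_const, Finset.card_univ, Fintype.card_fin, nsmul_eq_mul]
    have h3 : 8 * (‖p - x‖ ^ 6)⁻¹ * ‖p - x‖ ^ 2 - ((4 : ℕ) : ℝ) * (2 * (‖p - x‖ ^ 4)⁻¹) = 0 := by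
      push_cast
      field_simp
      norm_num
    rw [h3]
    simp

end Pool.Agent.H57.BN
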