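import Pool.Agent.H57.BN.Defs

set_option autoImplicit false

open MeasureTheory Filter Topology Metric Set
open scoped ENNReal NNReal ContDiff

namespace Pool.Agent.H57.BN

/-- scaling of the Lebesgue integral on `ℝ⁴` -/
theorem poincC_lintegral_affine {G : E4 → ℝ≥0∞} (hG : Measurable G) {c : ℝ} (hc : 1 / 2 ≤ c)
    (w : E4) : ∫⁻ p, G (c • p + w) ≤ 16 * ∫⁻ p, G p := by
  have hc0 : c ≠ 0 := by
    have : 0 < c := by linarith
    exact this.ne'
  have h1 : ∫⁻ p : E4, G (c • p + w) = ∫⁻ z, G (z + w) ∂(Measure.map (c • ·) (volume : Measure E4)) := by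
    have h0 : ∫⁻ z : E4, (fun z => G (z + w)) z ∂(Measure.map (c • ·) (volume : Measure E4)) =
        ∫⁻ p : E4, G (c • p + w) :=
      lintegral_map (μ := (volume : Measure E4)) (f := fun z : E4 => G (z + w))
        (g := fun p : E4 => c • p) (hG.comp (measurable_add_const w)) (measurable_const_smul c)
    exact h0.symm
  rw [h1, Measure.map_addHaar_smul _ hc0, lintegral_smul_measure]
  have h2 : ∫⁻ z : E4, G (z + w) = ∫⁻ p, G p := lintegral_add_right_eq_self G w
  rw [h2]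
  have h3 : ENNReal.ofReal |(c ^ Module.finrank ℝ E4)⁻¹| ≤ 16 := by
    have h4 : Module.finrank ℝ E4 = 4 := by simp
    rw [h4]
    have h5 : |(c ^ 4)⁻¹| ≤ 16 := by
      rw [abs_of_nonneg (by positivity)]
      have h6 : (1 / 2 : ℝ) ^ 4 ≤ c ^ 4 := pow_le_pow_left₀ (by norm_num) hc 4
      have h7 : (c ^ 4)⁻¹ ≤ ((1 / 2 : ℝ) ^ 4)⁻¹ := inv_anti₀ (by norm_num) h6
      calc (c ^ 4)⁻¹ ≤ ((1 / 2 : ℝ) ^ 4)⁻¹ := h7
        _ = 16 := by norm_num
    calc ENNReal.ofReal |(c ^ 4)⁻¹| ≤ ENNReal.ofReal 16 := ENNReal.ofReal_le_ofReal h5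
      _ = 16 := by norm_num
  rw [smul_eq_mul]
  gcongr

/-- the pointwise bound along the segment -/
theorem poincC_segment {ρ : ℝ} (hρ : 0 < ρ) {f : E4 → ℝ} (hf : ContDiff ℝ 1 f) {p p' : E4}
    (hp : p ∈ ball (0:E4) ρ) (hp' : p' ∈ ball (0:E4) ρ) :
    ENNReal.ofReal |f p - f p'| ≤ ENNReal.ofReal (2 * ρ) *
      ∫⁻ t in Ioc (0:ℝ) 1, (ball (0:E4) ρ).indicator
        (fun z => ENNReal.ofReal ‖gradient f z‖) ((1 - t) • p + t • p') := by
  have hdiff : Differentiable ℝ f := hf.differentiable (by norm_num)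
  have hcurve : ∀ t : ℝ, HasDerivAt (fun t : ℝ => (1 - t) • p + t • p') (p' - p) t := by
    intro t
    have h1 : HasDerivAt (fun t : ℝ => (1 - t)) (-1) t := by
      simpa using (hasDerivAt_id t).const_sub 1
    have h2 := h1.smul_const p
    have h3 := (hasDerivAt_id t).smul_const p'
    have h4 := h2.add h3
    have h5 : p' - p = (-1:ℝ) • p + (1:ℝ) • p' := by
      rw [neg_smul, one_smul, one_smul]; abel
    rw [h5]
    exact h4
  have hder : ∀ t : ℝ, HasDerivAt (fun t : ℝ => f ((1 - t) • p + t • p'))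
      (inner ℝ (gradient f ((1 - t) • p + t • p')) (p' - p)) t := by
    intro t
    have h1 := (hdiff ((1 - t) • p + t • p')).hasGradientAt.hasFDerivAt
    have h2 := h1.comp_hasDerivAt t (hcurve t)
    have h3 : (InnerProductSpace.toDual ℝ E4) (gradient f ((1 - t) • p + t • p')) (p' - p) =
        inner ℝ (gradient f ((1 - t) • p + t • p')) (p' - p) := InnerProductSpace.toDual_apply_apply
    rw [← h3]
    exact h2
  have hcg : Continuous (gradient f) := continuous_gradient hf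
  have hcc : Continuous (fun t : ℝ => (1 - t) • p + t • p') := by fun_prop
  have hcont : Continuous (fun t : ℝ => (inner ℝ (gradient f ((1 - t) • p + t • p')) (p' - p) : ℝ)) :=
    (hcg.comp hcc).inner continuous_const
  have hint : ∫ t in (0:ℝ)..1, (inner ℝ (gradient f ((1 - t) • p + t • p')) (p' - p) : ℝ)
      = f p' - f p := by
    rw [intervalIntegral.integral_eq_sub_of_hasDerivAt (fun t _ => hder t)
      (hcont.intervalIntegrable 0 1)]
    simp
  rw [intervalIntegral.integral_of_le zero_le_one] at hint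
  have h1 : ENNReal.ofReal |f p - f p'| = ‖f p' - f p‖ₑ := by
    rw [abs_sub_comm, Real.enorm_eq_ofReal_abs]
  rw [h1, ← hint]
  refine (enorm_integral_le_lintegral_enorm _).trans ?_
  rw [← lintegral_const_mul']
  · refine setLIntegral_mono' measurableSet_Ioc ?_
    intro t ht
    have hmem : (1 - t) • p + t • p' ∈ ball (0:E4) ρ :=
      (convex_ball (0:E4) ρ) hp hp' (by linarith [ht.2]) (by linarith [ht.1]) (by ring)
    rw [indicator_of_mem hmem, Real.enorm_eq_ofReal_abs, ← ENNReal.ofReal_mul (by positivity)]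
    apply ENNReal.ofReal_le_ofReal
    have h2 : |(inner ℝ (gradient f ((1 - t) • p + t • p')) (p' - p) : ℝ)| ≤
        ‖gradient f ((1 - t) • p + t • p')‖ * ‖p' - p‖ := abs_real_inner_le_norm _ _
    have h3 : ‖p' - p‖ ≤ 2 * ρ := by
      have h4 : ‖p' - p‖ ≤ ‖p'‖ + ‖p‖ := norm_sub_le _ _
      have h5 : ‖p'‖ < ρ := by simpa using hp'
      have h6 : ‖p‖ < ρ := by simpa using hp
      linarith
    calc |(inner ℝ (gradient f ((1 - t) • p + t • p')) (p' - p) : ℝ)| ≤
        ‖gradient f ((1 - t) • p + t • p')‖ * ‖p' - p‖ := h2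
      _ ≤ ‖gradient f ((1 - t) • p + t • p')‖ * (2 * ρ) := by gcongr
      _ = 2 * ρ * ‖gradient f ((1 - t) • p + t • p')‖ := by ring
  · exact ENNReal.ofReal_ne_top

/-- `L¹` Poincaré inequality on balls, double-integral form, for `C¹` functions: for `p, p'` in the ball
`|f(p)-f(p')| ≤ |p-p'| ∫₀¹ |∇f(p+t(p'-p))| dt`; substitute `z = p+t(p'-p)` in `p` if `t ≤ 1/2`,
in `p'` if `t ≥ 1/2` (Jacobian `≥ 1/16`). -/
theorem poinc_C1 {ρ : ℝ} (hρ : 0 < ρ) : ∃ C : ℝ, 0 < C ∧ ∀ f : E4 → ℝ, ContDiff ℝ 1 f →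
    ∫⁻ p in ball (0:E4) ρ, ∫⁻ p' in ball (0:E4) ρ, ENNReal.ofReal |f p - f p'| ≤
      ENNReal.ofReal C * ∫⁻ p in ball (0:E4) ρ, ENNReal.ofReal ‖gradient f p‖ := by
  have hvol : volume (ball (0:E4) ρ) < ⊤ := measure_ball_lt_top
  refine ⟨2 * ρ * (16 * ((volume (ball (0:E4) ρ)).toReal + 1)), by positivity, fun f hf => ?_⟩
  set G : E4 → ℝ≥0∞ := (ball (0:E4) ρ).indicator (fun z => ENNReal.ofReal ‖gradient f z‖) with hGdef
  have hG : Measurable G :=
    ((continuous_gradient hf).norm.measurable.ennreal_ofReal).indicator measurableSet_ball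
  have hGint : ∫⁻ p, G p = ∫⁻ p in ball (0:E4) ρ, ENNReal.ofReal ‖gradient f p‖ := by
    rw [hGdef, lintegral_indicator measurableSet_ball]
  rw [← hGint]
  -- measurability of the kernel
  have hmeas3 : Measurable (fun z : (E4 × E4) × ℝ => G ((1 - z.2) • z.1.1 + z.2 • z.1.2)) := by
    apply hG.comp
    have : Continuous (fun z : (E4 × E4) × ℝ => (1 - z.2) • z.1.1 + z.2 • z.1.2) := by fun_prop
    exact this.measurable
  have hmeas2 : ∀ t : ℝ, Measurable (fun z : E4 × E4 => G ((1 - t) • z.1 + t • z.2)) := by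
    intro t
    apply hG.comp
    have : Continuous (fun z : E4 × E4 => (1 - t) • z.1 + t • z.2) := by fun_prop
    exact this.measurable
  have hV : volume (ball (0:E4) ρ) ≤ ENNReal.ofReal ((volume (ball (0:E4) ρ)).toReal + 1) := by
    rw [← ENNReal.ofReal_toReal hvol.ne]
    apply ENNReal.ofReal_le_ofReal
    rw [ENNReal.toReal_ofReal ENNReal.toReal_nonneg]
    linarith
  -- bound for fixed t
  have hfix : ∀ t ∈ Ioc (0:ℝ) 1, ∫⁻ p in ball (0:E4) ρ, ∫⁻ p' in ball (0:E4) ρ,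
      G ((1 - t) • p + t • p') ≤
      ENNReal.ofReal ((volume (ball (0:E4) ρ)).toReal + 1) * (16 * ∫⁻ p, G p) := by
    intro t ht
    rcases le_total t (1/2) with h | h
    · rw [lintegral_lintegral_swap (hmeas2 t).aemeasurable]
      calc ∫⁻ p' in ball (0:E4) ρ, ∫⁻ p in ball (0:E4) ρ, G ((1 - t) • p + t • p')
          ≤ ∫⁻ p' in ball (0:E4) ρ, (16 * ∫⁻ p, G p) := by
            apply lintegral_mono
            intro p'
            exact (setLIntegral_le_lintegral _ _).trans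
              (poincC_lintegral_affine hG (by linarith) (t • p'))
        _ = (16 * ∫⁻ p, G p) * volume (ball (0:E4) ρ) := by
            rw [setLIntegral_const]
        _ ≤ (16 * ∫⁻ p, G p) * ENNReal.ofReal ((volume (ball (0:E4) ρ)).toReal + 1) := by gcongr
        _ = _ := by ring
    · calc ∫⁻ p in ball (0:E4) ρ, ∫⁻ p' in ball (0:E4) ρ, G ((1 - t) • p + t • p')
          ≤ ∫⁻ p in ball (0:E4) ρ, (16 * ∫⁻ p, G p) := by
            apply lintegral_mono
            intro p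
            refine (setLIntegral_le_lintegral _ _).trans ?_
            have h1 := poincC_lintegral_affine hG h ((1 - t) • p)
            simpa only [add_comm] using h1
        _ = (16 * ∫⁻ p, G p) * volume (ball (0:E4) ρ) := by
            rw [setLIntegral_const]
        _ ≤ (16 * ∫⁻ p, G p) * ENNReal.ofReal ((volume (ball (0:E4) ρ)).toReal + 1) := by gcongr
        _ = _ := by ring
  have hswap : ∫⁻ p in ball (0:E4) ρ, ∫⁻ p' in ball (0:E4) ρ,
      ∫⁻ t in Ioc (0:ℝ) 1, G ((1 - t) • p + t • p') =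
      ∫⁻ t in Ioc (0:ℝ) 1, ∫⁻ p in ball (0:E4) ρ, ∫⁻ p' in ball (0:E4) ρ,
        G ((1 - t) • p + t • p') := by
    have h1 : ∀ t : ℝ, ∫⁻ p in ball (0:E4) ρ, ∫⁻ p' in ball (0:E4) ρ, G ((1 - t) • p + t • p') =
        ∫⁻ z, G ((1 - t) • z.1 + t • z.2)
          ∂((volume.restrict (ball (0:E4) ρ)).prod (volume.restrict (ball (0:E4) ρ))) := by
      intro t
      rw [lintegral_prod _ (hmeas2 t).aemeasurable]
    have h2 : ∫⁻ p in ball (0:E4) ρ, ∫⁻ p' in ball (0:E4) ρ,
        ∫⁻ t in Ioc (0:ℝ) 1, G ((1 - t) • p + t • p') =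
        ∫⁻ z : E4 × E4, (∫⁻ t in Ioc (0:ℝ) 1, G ((1 - t) • z.1 + t • z.2))
          ∂((volume.restrict (ball (0:E4) ρ)).prod (volume.restrict (ball (0:E4) ρ))) := by
      rw [lintegral_prod]
      exact (hmeas3.lintegral_prod_right').aemeasurable
    simp only [h1]
    rw [h2]
    exact lintegral_lintegral_swap (f := fun (z : E4 × E4) (t : ℝ) => G ((1 - t) • z.1 + t • z.2))
      hmeas3.aemeasurable
  calc ∫⁻ p in ball (0:E4) ρ, ∫⁻ p' in ball (0:E4) ρ, ENNReal.ofReal |f p - f p'|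
      ≤ ∫⁻ p in ball (0:E4) ρ, ∫⁻ p' in ball (0:E4) ρ, ENNReal.ofReal (2 * ρ) *
          ∫⁻ t in Ioc (0:ℝ) 1, G ((1 - t) • p + t • p') := by
        refine setLIntegral_mono' measurableSet_ball fun p hp => ?_
        refine setLIntegral_mono' measurableSet_ball fun p' hp' => ?_
        exact poincC_segment hρ hf hp hp'
    _ = ENNReal.ofReal (2 * ρ) * ∫⁻ p in ball (0:E4) ρ, ∫⁻ p' in ball (0:E4) ρ,
          ∫⁻ t in Ioc (0:ℝ) 1, G ((1 - t) • p + t • p') := by
        rw [← lintegral_const_mul' _ _ ENNReal.ofReal_ne_top]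
        congr 1
        ext p
        rw [← lintegral_const_mul' _ _ ENNReal.ofReal_ne_top]
    _ = ENNReal.ofReal (2 * ρ) * ∫⁻ t in Ioc (0:ℝ) 1, ∫⁻ p in ball (0:E4) ρ,
          ∫⁻ p' in ball (0:E4) ρ, G ((1 - t) • p + t • p') := by rw [hswap]
    _ ≤ ENNReal.ofReal (2 * ρ) * ∫⁻ t in Ioc (0:ℝ) 1,
          ENNReal.ofReal ((volume (ball (0:E4) ρ)).toReal + 1) * (16 * ∫⁻ p, G p) := by
        exact mul_le_mul_right (setLIntegral_mono' measurableSet_Ioc hfix) _
    _ = ENNReal.ofReal (2 * ρ) *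
          (ENNReal.ofReal ((volume (ball (0:E4) ρ)).toReal + 1) * (16 * ∫⁻ p, G p)) := by
        rw [setLIntegral_const]
        simp
    _ = ENNReal.ofReal (2 * ρ * (16 * ((volume (ball (0:E4) ρ)).toReal + 1))) * ∫⁻ p, G p := by
        rw [ENNReal.ofReal_mul (by positivity : (0:ℝ) ≤ 2 * ρ),
          ENNReal.ofReal_mul (by norm_num : (0:ℝ) ≤ 16)]
        have : ENNReal.ofReal 16 = 16 := by norm_num
        rw [this]
        ring

end Pool.Agent.H57.BN
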