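import Pool.Agent.H57.BN.Comp
import Pool.Agent.H57.BN.SConst
import Pool.Agent.H57.BN.Hol

set_option autoImplicit false

open MeasureTheory Filter Topology Metric Set
open scoped ENNReal NNReal ContDiff

namespace Pool.Agent.H57.BN

/-- extension of a `C¹` function on `[0,∞)` to a `C¹` function on `ℝ` with derivative `g (max t 0)` -/
theorem ext_C1 {G g : ℝ → ℝ} (hG : ∀ t, 0 ≤ t → HasDerivAt G (g t) t)
    (hg : ContinuousOn g (Ici 0)) (h0 : G 0 = 0) :
    ∃ F : ℝ → ℝ, ContDiff ℝ 1 F ∧ F 0 = 0 ∧ (∀ t, 0 ≤ t → F t = G t) ∧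
      ∀ t, deriv F t = g (max t 0) := by
  have hh : Continuous (fun s : ℝ => g (max s 0)) := by
    apply hg.comp_continuous (by fun_prop)
    intro s
    exact le_max_right s 0
  have hd : ∀ t, HasDerivAt (fun t => ∫ s in (0:ℝ)..t, g (max s 0)) (g (max t 0)) t := fun t =>
    intervalIntegral.integral_hasDerivAt_right (hh.intervalIntegrable _ _)
      (hh.stronglyMeasurableAtFilter _ _) hh.continuousAt
  refine ⟨fun t => ∫ s in (0:ℝ)..t, g (max s 0), ?_, by simp, ?_, fun t => (hd t).deriv⟩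
  · rw [contDiff_one_iff_deriv]
    refine ⟨fun t => (hd t).differentiableAt, ?_⟩
    have : deriv (fun t => ∫ s in (0:ℝ)..t, g (max s 0)) = fun t => g (max t 0) := by
      ext t; exact (hd t).deriv
    rw [this]; exact hh
  · intro t ht
    have h1 : ∫ s in (0:ℝ)..t, g (max s 0) = ∫ s in (0:ℝ)..t, g s := by
      apply intervalIntegral.integral_congr
      intro s hs
      rw [uIcc_of_le ht] at hs
      show g (max s 0) = g s
      rw [max_eq_left hs.1]
    show ∫ s in (0:ℝ)..t, g (max s 0) = G t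
    rw [h1, intervalIntegral.integral_eq_sub_of_hasDerivAt (f := G), h0, sub_zero]
    · intro s hs
      rw [uIcc_of_le ht] at hs
      exact hG s hs.1
    · apply ContinuousOn.intervalIntegrable
      rw [uIcc_of_le ht]
      exact hg.mono fun s hs => hs.1

/-- the functions `(u+ε)^s - ε^s`, `0 < s ≤ 1`, for `u ≥ 0` in `D` -/
theorem exists_pow {w : D} (hw0 : 0 ≤ᵐ[volume] (fn w : E4 → ℝ)) {s ε : ℝ} (h0 : 0 < s) (h1 : s ≤ 1)
    (hε : 0 < ε) : ∃ y : D, (fn y =ᵐ[volume] fun p => (fn w p + ε) ^ s - ε ^ s) ∧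
      (gr y =ᵐ[volume] fun p => (s * (fn w p + ε) ^ (s - 1)) • gr w p) := by
  obtain ⟨F, hF, hF0, hFG, hFd⟩ := ext_C1 (G := fun t => (t + ε) ^ s - ε ^ s)
    (g := fun t => s * (t + ε) ^ (s - 1))
    (by
      intro t ht
      have h2 : HasDerivAt (fun t : ℝ => t + ε) 1 t := (hasDerivAt_id t).add_const ε
      have h3 := h2.rpow_const (p := s) (Or.inl (by positivity : t + ε ≠ 0))
      have h4 := h3.sub_const (ε ^ s)
      simpa using h4)
    (by
      apply ContinuousOn.mul continuousOn_const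
      apply ContinuousOn.rpow_const (by fun_prop)
      intro t ht
      left
      have : (0:ℝ) ≤ t := ht
      positivity)
    (by simp)
  obtain ⟨y, hy1, hy2, -⟩ := exists_comp hF hF0 (L := s * ε ^ (s - 1)) (by
    intro t
    rw [hFd]
    have h2 : 0 ≤ max t 0 := le_max_right _ _
    rw [abs_of_nonneg (by positivity)]
    have h3 : (max t 0 + ε) ^ (s - 1) ≤ ε ^ (s - 1) :=
      Real.rpow_le_rpow_of_nonpos hε (by linarith) (by linarith)
    gcongr) w
  refine ⟨y, ?_, ?_⟩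
  · filter_upwards [hy1, hw0] with p hp hp0
    rw [hp, hFG _ hp0]
  · filter_upwards [hy2, hw0] with p hp hp0
    have : 0 ≤ fn w p := hp0
    rw [hp, hFd, max_eq_left this]

/-- Test `-Δw = f` with `(w+ε)^γ - ε^γ`. -/
theorem pow_test {w : D} {f : E4 → ℝ} (hf : MemLp f (ENNReal.ofReal (4 / 3)) volume)
    (hf0 : 0 ≤ᵐ[volume] f) (hw0 : 0 ≤ᵐ[volume] (fn w : E4 → ℝ))
    (hw : ∀ φ : D, inner ℝ w φ = ∫ p, f p * fn φ p) {γ ε : ℝ} (h0 : 0 < γ) (h1 : γ ≤ 1)
    (hε : 0 < ε) :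
    MemLp (fun p => (fn w p + ε) ^ ((1 + γ) / 2) - ε ^ ((1 + γ) / 2)) 4 volume ∧
    Integrable (fun p => f p * ((fn w p + ε) ^ γ - ε ^ γ)) volume ∧
    (4 * γ / (1 + γ) ^ 2) * S *
        Real.sqrt (∫ p, ((fn w p + ε) ^ ((1 + γ) / 2) - ε ^ ((1 + γ) / 2)) ^ 4) ≤
      ∫ p, f p * ((fn w p + ε) ^ γ - ε ^ γ) := by
  obtain ⟨y, hy1, hy2⟩ := exists_pow hw0 h0 h1 hε
  obtain ⟨z, hz1, hz2⟩ := exists_pow hw0 (s := (1 + γ) / 2) (by linarith) (by linarith) hε
  refine ⟨(memLp_congr_ae hz1).mp (memLp_fn z), ?_, ?_⟩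
  · refine (integrable_mul_43 hf (fn y)).congr ?_
    filter_upwards [hy1] with p hp
    rw [hp]
  · have e1 : ∫ p, f p * ((fn w p + ε) ^ γ - ε ^ γ) = inner ℝ w y := by
      rw [hw]
      apply integral_congr_ae
      filter_upwards [hy1] with p hp
      rw [hp]
    have e2 : inner ℝ w y = (4 * γ / (1 + γ) ^ 2) * ‖z‖ ^ 2 := by
      rw [inner_eq, norm_sq, ← integral_const_mul]
      apply integral_congr_ae
      filter_upwards [hy2, hz2, hw0] with p hp hp2 hp0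
      have hp0' : 0 ≤ fn w p := hp0
      have hpos : 0 < fn w p + ε := by positivity
      rw [hp, hp2, inner_smul_right, real_inner_self_eq_norm_sq, norm_smul, mul_pow,
        Real.norm_eq_abs, sq_abs, mul_pow]
      have h3 : ((fn w p + ε) ^ ((1 + γ) / 2 - 1)) ^ 2 = (fn w p + ε) ^ (γ - 1) := by
        rw [← Real.rpow_natCast, ← Real.rpow_mul hpos.le]
        congr 1
        push_cast
        ring
      rw [h3]
      have h4 : (1 + γ) ≠ 0 := by positivity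
      field_simp
      ring
    have e3 : Real.sqrt (∫ p, ((fn w p + ε) ^ ((1 + γ) / 2) - ε ^ ((1 + γ) / 2)) ^ 4) =
        ‖fn z‖ ^ 2 := by
      have : ∫ p, ((fn w p + ε) ^ ((1 + γ) / 2) - ε ^ ((1 + γ) / 2)) ^ 4 = ‖fn z‖ ^ 4 := by
        rw [norm4_eq]
        apply integral_congr_ae
        filter_upwards [hz1] with p hp
        rw [hp]
      rw [this, show ‖fn z‖ ^ 4 = (‖fn z‖ ^ 2) ^ 2 by ring, Real.sqrt_sq (by positivity)]
    rw [e1, e2, e3, mul_assoc]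
    gcongr
    exact S_le z

/-- `t ((t+ε)^γ - ε^γ) ≤ ((t+ε)^{(1+γ)/2} - ε^{(1+γ)/2})²` (AM–GM). -/
theorem pow_ineq {t ε γ : ℝ} (ht : 0 ≤ t) (hε : 0 < ε) (h0 : 0 < γ) (h1 : γ ≤ 1) :
    t * ((t + ε) ^ γ - ε ^ γ) ≤ ((t + ε) ^ ((1 + γ) / 2) - ε ^ ((1 + γ) / 2)) ^ 2 := by
  set a := t + ε with ha
  have hat : t = a - ε := by rw [ha]; ring
  have ha0 : 0 < a := by positivity
  rw [hat]
  have hA : (a ^ ((1 + γ) / 2)) ^ 2 = a * a ^ γ := by
    rw [← Real.rpow_natCast, ← Real.rpow_mul ha0.le]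
    rw [show (1 + γ) / 2 * ((2:ℕ):ℝ) = 1 + γ by push_cast; ring, Real.rpow_add ha0, Real.rpow_one]
  have hE : (ε ^ ((1 + γ) / 2)) ^ 2 = ε * ε ^ γ := by
    rw [← Real.rpow_natCast, ← Real.rpow_mul hε.le]
    rw [show (1 + γ) / 2 * ((2:ℕ):ℝ) = 1 + γ by push_cast; ring, Real.rpow_add hε, Real.rpow_one]
  set A := a ^ ((1 + γ) / 2)
  set E := ε ^ ((1 + γ) / 2)
  have hA0 : 0 < A := Real.rpow_pos_of_pos ha0 _
  have hE0 : 0 < E := Real.rpow_pos_of_pos hε _
  set x := a ^ γ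
  set y := ε ^ γ
  have hx0 : 0 < x := Real.rpow_pos_of_pos ha0 _
  have hy0 : 0 < y := Real.rpow_pos_of_pos hε _
  have h2 : 2 * (A * E) ≤ a * y + ε * x := by
    have h3 : (2 * (A * E)) ^ 2 ≤ (a * y + ε * x) ^ 2 := by
      have : (2 * (A * E)) ^ 2 = 4 * (a * y) * (ε * x) := by
        calc (2 * (A * E)) ^ 2 = 4 * (A ^ 2) * (E ^ 2) := by ring
          _ = _ := by rw [hA, hE]; ring
      rw [this]
      nlinarith [sq_nonneg (a * y - ε * x)]
    exact abs_le_of_sq_le_sq' h3 (by positivity) |>.2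
  nlinarith

end Pool.Agent.H57.BN
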