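import Pool.Agent.H57.BN.Base

set_option autoImplicit false

open MeasureTheory Filter Topology Metric Set
open scoped ENNReal NNReal ContDiff

namespace Pool.Agent.H57.BN

/-- bounded sequences have weakly convergent subsequences (`D` is a separable Hilbert space:
`WeakDual.isSeqCompact_closedBall` and the Riesz isomorphism `InnerProductSpace.toDual`). -/
theorem exists_weak_subseq {x : ℕ → D} {C : ℝ} (h : ∀ n, ‖x n‖ ≤ C) :
    ∃ ψ : ℕ → ℕ, StrictMono ψ ∧ ∃ y : D, WeakTo (x ∘ ψ) y := by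
  have : Fact ((2 : ℝ≥0∞) ≠ ⊤) := ⟨by norm_num⟩
  have : SecondCountableTopology LV := inferInstance
  have : TopologicalSpace.SeparableSpace D := inferInstance
  have hc := WeakDual.isSeqCompact_closedBall (𝕜 := ℝ) (E := D) 0 C
  have hx : ∀ n, StrongDual.toWeakDual (InnerProductSpace.toDual ℝ D (x n)) ∈
      (WeakDual.toStrongDual ⁻¹' Metric.closedBall (0 : StrongDual ℝ D) C) := by
    intro n
    have h0 : ‖InnerProductSpace.toDual ℝ D (x n)‖ ≤ C := by
      rw [LinearIsometryEquiv.norm_map]; exact h n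
    have h1 : dist (InnerProductSpace.toDual ℝ D (x n)) 0 ≤ C :=
      (dist_zero_right (InnerProductSpace.toDual ℝ D (x n))).le.trans h0
    exact h1
  obtain ⟨a, -, ψ, hψ, ha⟩ := hc hx
  refine ⟨ψ, hψ, (InnerProductSpace.toDual ℝ D).symm (WeakDual.toStrongDual a), ?_⟩
  intro z
  have h1 : Tendsto (fun n => (StrongDual.toWeakDual (InnerProductSpace.toDual ℝ D (x (ψ n)))) z)
      atTop (𝓝 (a z)) := ((WeakDual.eval_continuous z).tendsto a).comp ha
  have h2 : inner ℝ ((InnerProductSpace.toDual ℝ D).symm (WeakDual.toStrongDual a)) z = a z := by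
    rw [← InnerProductSpace.toDual_apply_apply (𝕜 := ℝ)]
    simp
  rw [h2]
  simpa using h1

theorem WeakTo.comp {x : ℕ → D} {y : D} (h : WeakTo x y) {ψ : ℕ → ℕ} (hψ : StrictMono ψ) :
    WeakTo (x ∘ ψ) y := fun z => (h z).comp hψ.tendsto_atTop

theorem WeakTo.bdd {x : ℕ → D} {y : D} (h : WeakTo x y) : ∃ C : ℝ, 0 < C ∧ ∀ n, ‖x n‖ ≤ C := by
  obtain ⟨C, hC⟩ := banach_steinhaus (𝕜 := ℝ) (𝕜₂ := ℝ) (σ₁₂ := RingHom.id ℝ) (E := D) (F := ℝ)
    (g := fun n => (InnerProductSpace.toDual ℝ D (x n))) (by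
      intro z
      obtain ⟨M, hM⟩ := (h z).norm.bddAbove_range
      refine ⟨M, fun i => ?_⟩
      have := hM ⟨i, rfl⟩
      simpa using this)
  refine ⟨max C 1, by positivity, fun n => ?_⟩
  have := hC n
  rw [LinearIsometryEquiv.norm_map] at this
  exact this.trans (le_max_left _ _)

theorem WeakTo.mem {Ω : Set E4} {x : ℕ → D} {y : D} (h : WeakTo x y) (hx : ∀ n, x n ∈ H Ω) :
    y ∈ H Ω := by
  have : CompleteSpace (H Ω) := (isClosed_H Ω).completeSpace_coe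
  rw [← Submodule.orthogonal_orthogonal (H Ω), Submodule.mem_orthogonal]
  intro u hu
  have h1 := h u
  have h2 : ∀ n, inner ℝ (x n) u = 0 := fun n => (Submodule.mem_orthogonal _ _).1 hu _ (hx n)
  simp only [h2] at h1
  rw [real_inner_comm]
  exact (tendsto_nhds_unique h1 tendsto_const_nhds)

theorem WeakTo.norm {x : ℕ → D} {y : D} (h : WeakTo x y) :
    Tendsto (fun n => ‖x n‖ ^ 2 - ‖x n - y‖ ^ 2) atTop (𝓝 (‖y‖ ^ 2)) := by
  have h1 := h y
  have h2 : ∀ n, ‖x n‖ ^ 2 - ‖x n - y‖ ^ 2 = 2 * inner ℝ (x n) y - ‖y‖ ^ 2 := by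
    intro n
    rw [norm_sub_sq_real]; ring
  simp only [h2]
  have h3 : (‖y‖ ^ 2) = 2 * inner ℝ y y - ‖y‖ ^ 2 := by
    rw [real_inner_self_eq_norm_sq]; ring
  have h4 := (h1.const_mul 2).sub_const (‖y‖ ^ 2)
  rw [← h3] at h4
  exact h4

theorem WeakTo.norm_le {x : ℕ → D} {y : D} (h : WeakTo x y) {c : ℝ}
    (hc : ∀ ε > 0, ∀ᶠ n in atTop, ‖x n‖ ^ 2 ≤ c + ε) : ‖y‖ ^ 2 ≤ c := by
  refine le_of_forall_pos_le_add (fun ε hε => ?_)
  refine le_of_tendsto h.norm ((hc ε hε).mono fun n hn => ?_)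
  have : 0 ≤ ‖x n - y‖ ^ 2 := by positivity
  linarith

end Pool.Agent.H57.BN
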