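import Pool.Agent.H57.BN.Transl
import Pool.Agent.H57.BN.Weak
import Pool.Agent.H57.BN.Hol

set_option autoImplicit false

open MeasureTheory Filter Topology Metric Set
open scoped ENNReal NNReal ContDiff

namespace Pool.Agent.H57.BN

theorem WeakTo.clm {x : ℕ → D} {y : D} (h : WeakTo x y) (T : D →L[ℝ] ℝ) :
    Tendsto (fun n => T (x n)) atTop (𝓝 (T y)) := by
  have h1 := h ((InnerProductSpace.toDual ℝ D).symm T)
  have h2 : ∀ z : D, inner ℝ z ((InnerProductSpace.toDual ℝ D).symm T) = T z := by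
    intro z
    rw [real_inner_comm, ← InnerProductSpace.toDual_apply_apply (𝕜 := ℝ)]
    simp
  simpa only [h2] using h1

theorem rell_memLp_shift (f : L4) (p : E4) :
    MemLp (fun h => f (p + h)) 4 (volume : Measure E4) :=
  (Lp.memLp f).comp_measurePreserving (measurePreserving_add_left volume p)

theorem rell_norm_shift (f : L4) (p : E4) :
    eLpNorm (fun h => f (p + h)) 4 (volume : Measure E4) = ENNReal.ofReal ‖f‖ := by
  have h1 := eLpNorm_comp_measurePreserving (p := 4) (Lp.aestronglyMeasurable f)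
    (measurePreserving_add_left (volume : Measure E4) p)
  have h2 : eLpNorm (fun h => f (p + h)) 4 (volume : Measure E4) = eLpNorm f 4 volume := h1
  rw [h2, Lp.norm_def, ENNReal.ofReal_toReal (Lp.eLpNorm_ne_top f)]

theorem rell_int (f : L4) (p : E4) {E : Set E4} (hE : volume E < ⊤) :
    Integrable (fun h => f (p + h)) (volume.restrict E) := by
  have : IsFiniteMeasure ((volume : Measure E4).restrict E) := ⟨by simpa using hE⟩
  exact ((rell_memLp_shift f p).restrict E).integrable (by norm_num)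

/-- constant in the bound for the average -/
noncomputable def rellC (E : Set E4) : ℝ := ((volume E) ^ ((3:ℝ)/4)).toReal

theorem rell_bd (f : L4) (p : E4) {E : Set E4} (hE : volume E < ⊤) :
    |∫ h in E, f (p + h)| ≤ rellC E * ‖f‖ := by
  have : IsFiniteMeasure ((volume : Measure E4).restrict E) := ⟨by simpa using hE⟩
  have h1 : ‖∫ h in E, f (p + h)‖ₑ ≤ eLpNorm (fun h => f (p + h)) 1 (volume.restrict E) := by
    rw [eLpNorm_one_eq_lintegral_enorm]
    exact enorm_integral_le_lintegral_enorm _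
  have h2 : eLpNorm (fun h => f (p + h)) 1 (volume.restrict E) ≤
      eLpNorm (fun h => f (p + h)) 4 (volume.restrict E) *
        (volume.restrict E) univ ^ (1 / (1:ℝ≥0∞).toReal - 1 / (4:ℝ≥0∞).toReal) :=
    eLpNorm_le_eLpNorm_mul_rpow_measure_univ (by norm_num)
      ((rell_memLp_shift f p).restrict E).aestronglyMeasurable
  have h3 : eLpNorm (fun h => f (p + h)) 4 (volume.restrict E) ≤ ENNReal.ofReal ‖f‖ :=
    (eLpNorm_mono_measure _ Measure.restrict_le_self).trans (rell_norm_shift f p).le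
  have h4 : (1 / (1:ℝ≥0∞).toReal - 1 / (4:ℝ≥0∞).toReal) = (3:ℝ)/4 := by norm_num
  rw [h4, Measure.restrict_apply_univ] at h2
  have h5 : ‖∫ h in E, f (p + h)‖ₑ ≤ ENNReal.ofReal ‖f‖ * (volume E) ^ ((3:ℝ)/4) :=
    h1.trans (h2.trans (by gcongr))
  have hfin : (volume E) ^ ((3:ℝ)/4) ≠ ⊤ := ENNReal.rpow_ne_top_of_nonneg (by norm_num) hE.ne
  have h6 := ENNReal.toReal_mono (ENNReal.mul_ne_top ENNReal.ofReal_ne_top hfin) h5
  rw [ENNReal.toReal_mul, ENNReal.toReal_ofReal (norm_nonneg _), toReal_enorm,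
    Real.norm_eq_abs] at h6
  rw [rellC, mul_comm]
  exact h6

/-- the functional `w ↦ ∫_E w(p+h) dh` -/
theorem rell_functional (p : E4) {E : Set E4} (hE : volume E < ⊤) :
    ∃ T : D →L[ℝ] ℝ, ∀ w : D, T w = ∫ h in E, fn w (p + h) := by
  have hq : Measure.QuasiMeasurePreserving (fun h : E4 => p + h) volume volume :=
    (measurePreserving_add_left (volume : Measure E4) p).quasiMeasurePreserving
  have hadd : ∀ w w' : D, (∫ h in E, fn (w + w') (p + h)) =
      (∫ h in E, fn w (p + h)) + ∫ h in E, fn w' (p + h) := by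
    intro w w'
    rw [← integral_add (rell_int _ p hE) (rell_int _ p hE)]
    have h1 : fn (w + w') =ᵐ[volume] fn w + fn w' := by
      rw [map_add]; exact Lp.coeFn_add _ _
    have h2 := hq.ae h1
    exact integral_congr_ae (ae_restrict_of_ae h2)
  have hsmul : ∀ (c : ℝ) (w : D), (∫ h in E, fn (c • w) (p + h)) =
      c * (∫ h in E, fn w (p + h)) := by
    intro c w
    rw [← integral_const_mul]
    have h1 : fn (c • w) =ᵐ[volume] c • fn w := by
      rw [map_smul]; exact Lp.coeFn_smul _ _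
    have h2 := hq.ae h1
    exact integral_congr_ae (ae_restrict_of_ae h2)
  refine ⟨LinearMap.mkContinuous
    { toFun := fun w => ∫ h in E, fn w (p + h)
      map_add' := hadd
      map_smul' := hsmul } (rellC E * ‖fn‖) ?_, fun w => rfl⟩
  intro w
  have h1 := rell_bd (fn w) p hE
  have h2 : ‖fn w‖ ≤ ‖fn‖ * ‖w‖ := fn.le_opNorm w
  have h3 : 0 ≤ rellC E := ENNReal.toReal_nonneg
  calc ‖∫ h in E, fn w (p + h)‖ ≤ rellC E * ‖fn w‖ := h1
    _ ≤ rellC E * (‖fn‖ * ‖w‖) := by gcongr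
    _ = _ := by ring

/-- Cauchy–Schwarz on a set of finite measure -/
theorem rell_cs {k : E4 → ℝ} (hk : Measurable k) (E : Set E4) :
    ENNReal.ofReal ((∫ h in E, k h) ^ 2) ≤ volume E * ∫⁻ h in E, ENNReal.ofReal (k h ^ 2) := by
  have h1 : ‖∫ h in E, k h‖ₑ ≤ eLpNorm k 1 (volume.restrict E) := by
    rw [eLpNorm_one_eq_lintegral_enorm]
    exact enorm_integral_le_lintegral_enorm _
  have h2 : eLpNorm k 1 (volume.restrict E) ≤ eLpNorm k 2 (volume.restrict E) *
        (volume.restrict E) univ ^ (1 / (1:ℝ≥0∞).toReal - 1 / (2:ℝ≥0∞).toReal) :=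
    eLpNorm_le_eLpNorm_mul_rpow_measure_univ (by norm_num) hk.aestronglyMeasurable
  have h4 : (1 / (1:ℝ≥0∞).toReal - 1 / (2:ℝ≥0∞).toReal) = (1:ℝ)/2 := by norm_num
  rw [h4, Measure.restrict_apply_univ] at h2
  have h5 := h1.trans h2
  have h6 : ‖∫ h in E, k h‖ₑ ^ 2 ≤ (eLpNorm k 2 (volume.restrict E) * volume E ^ ((1:ℝ)/2)) ^ 2 := by
    gcongr
  have h7 : (volume E ^ ((1:ℝ)/2)) ^ 2 = volume E := by
    rw [← ENNReal.rpow_natCast, ← ENNReal.rpow_mul]; norm_num
  have h8 : (eLpNorm k 2 (volume.restrict E)) ^ 2 = ∫⁻ h in E, ENNReal.ofReal (k h ^ 2) := by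
    have h9 := eLpNorm_nnreal_pow_eq_lintegral (f := k) (μ := volume.restrict E) (p := 2) (by norm_num)
    have h10 : eLpNorm k ((2:ℝ≥0) : ℝ≥0∞) (volume.restrict E) = eLpNorm k 2 (volume.restrict E) := by
      norm_num
    rw [h10] at h9
    have h11 : ((2:ℝ≥0):ℝ) = ((2:ℕ):ℝ) := by norm_num
    simp only [h11, ENNReal.rpow_natCast] at h9
    rw [h9]
    refine lintegral_congr (fun h => ?_)
    rw [← ofReal_norm, ← ENNReal.ofReal_pow (norm_nonneg _), Real.norm_eq_abs, sq_abs]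
  rw [mul_pow, h7, h8] at h6
  have h12 : ENNReal.ofReal ((∫ h in E, k h) ^ 2) = ‖∫ h in E, k h‖ₑ ^ 2 := by
    rw [← ofReal_norm, ← ENNReal.ofReal_pow (norm_nonneg _), Real.norm_eq_abs, sq_abs]
  rw [h12, mul_comm]
  exact h6

theorem rell_two {a b c : ℝ} (hb : 0 ≤ b) (hc : 0 ≤ c) (h : a ≤ 2 * b + 2 * c) :
    ENNReal.ofReal a ≤ 2 * ENNReal.ofReal b + 2 * ENNReal.ofReal c := by
  rw [show (2:ℝ≥0∞) = ENNReal.ofReal 2 by simp, ← ENNReal.ofReal_mul (by norm_num),
    ← ENNReal.ofReal_mul (by norm_num), ← ENNReal.ofReal_add (by positivity) (by positivity)]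
  exact ENNReal.ofReal_le_ofReal h

/-- the mollification error -/
theorem rell_err (w : D) {ε : ℝ} (hε : 0 < ε) :
    ∫⁻ p, ENNReal.ofReal ((∫ h in ball (0 : E4) ε, (fn w (p + h) - fn w p)) ^ 2) ≤
      volume (ball (0 : E4) ε) ^ 2 * ENNReal.ofReal (ε ^ 2 * ‖w‖ ^ 2) := by
  set E : Set E4 := ball 0 ε
  have hm : Measurable (fn w) := (Lp.stronglyMeasurable (fn w)).measurable
  calc ∫⁻ p, ENNReal.ofReal ((∫ h in E, (fn w (p + h) - fn w p)) ^ 2)
      ≤ ∫⁻ p, volume E * ∫⁻ h in E, ENNReal.ofReal ((fn w (p + h) - fn w p) ^ 2) := by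
        refine lintegral_mono (fun p => rell_cs ?_ E)
        fun_prop
    _ = volume E * ∫⁻ p, ∫⁻ h in E, ENNReal.ofReal ((fn w (p + h) - fn w p) ^ 2) := by
        rw [lintegral_const_mul' _ _ measure_ball_lt_top.ne]
    _ = volume E * ∫⁻ h in E, ∫⁻ p, ENNReal.ofReal ((fn w (p + h) - fn w p) ^ 2) := by
        congr 1
        refine lintegral_lintegral_swap ?_
        refine Measurable.aemeasurable ?_
        have h1 : Measurable (fun z : E4 × E4 => fn w (z.1 + z.2)) :=
          hm.comp (measurable_fst.add measurable_snd)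
        have h2 : Measurable (fun z : E4 × E4 => fn w z.1) := hm.comp measurable_fst
        exact ((h1.sub h2).pow_const 2).ennreal_ofReal
    _ ≤ volume E * ∫⁻ h in E, ENNReal.ofReal (ε ^ 2 * ‖w‖ ^ 2) := by
        gcongr volume E * ?_
        refine setLIntegral_mono' measurableSet_ball (fun h hh => ?_)
        refine (transl w h).trans (ENNReal.ofReal_le_ofReal ?_)
        have : ‖h‖ < ε := by simpa [E] using hh
        gcongr
    _ = _ := by
        rw [setLIntegral_const, sq]; ring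

/-- Local compactness.  With a mollifier `ρ_ε` (a normed bump function): `w_n = u_n - u ⇀ 0`,
`(w_n ⋆ ρ_ε)(p) → 0` for every `p` (bounded functional on `D`), bounded uniformly on balls, so
`→ 0` in `L²(ball)` by dominated convergence; `‖w_n ⋆ ρ_ε - w_n‖_{L²} ≤ ε ‖∇w_n‖₂` by `transl`. -/
theorem rellich {x : ℕ → D} {y : D} (h : WeakTo x y) (R : ℝ) :
    Tendsto (fun n => ∫ p in ball (0 : E4) R, (fn (x n) p - fn y p) ^ 2) atTop (𝓝 0) := by
  obtain ⟨C, hC0, hC⟩ := h.bdd
  have hw : ∀ n, ‖x n - y‖ ≤ C + ‖y‖ := fun n => (norm_sub_le _ _).trans (by linarith [hC n])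
  have hsub : ∀ n, fn (x n - y) =ᵐ[volume] fun p => fn (x n) p - fn y p := by
    intro n
    rw [map_sub]; exact Lp.coeFn_sub _ _
  have hEq : ∀ n, ∫ p in ball (0 : E4) R, (fn (x n) p - fn y p) ^ 2 =
      (∫⁻ p in ball (0 : E4) R, ENNReal.ofReal (fn (x n - y) p ^ 2)).toReal := by
    intro n
    have hm : Measurable (fn (x n - y)) := (Lp.stronglyMeasurable _).measurable
    rw [← integral_eq_lintegral_of_nonneg_ae]
    · refine integral_congr_ae (ae_restrict_of_ae ?_)
      filter_upwards [hsub n] with p hp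
      rw [hp]
    · exact Eventually.of_forall (fun p => by positivity)
    · exact ((hm.pow_const 2)).aestronglyMeasurable
  simp only [hEq]
  rw [show (0:ℝ) = (0:ℝ≥0∞).toReal by simp]
  refine (ENNReal.tendsto_toReal (by simp)).comp ?_
  rw [ENNReal.tendsto_nhds_zero]
  intro δ hδ
  -- choose ε
  obtain ⟨ε, hε, hεδ⟩ : ∃ ε : ℝ, 0 < ε ∧
      2 * ENNReal.ofReal (ε ^ 2 * (C + ‖y‖) ^ 2) ≤ δ / 2 := by
    have hlim : Tendsto (fun ε : ℝ => 2 * ENNReal.ofReal (ε ^ 2 * (C + ‖y‖) ^ 2)) (𝓝[>] 0) (𝓝 0) := by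
      have h1 : Tendsto (fun ε : ℝ => ε ^ 2 * (C + ‖y‖) ^ 2) (𝓝[>] 0) (𝓝 0) := by
        have : Tendsto (fun ε : ℝ => ε ^ 2 * (C + ‖y‖) ^ 2) (𝓝 0) (𝓝 (0 ^ 2 * (C + ‖y‖) ^ 2)) :=
          (Continuous.tendsto (by fun_prop) 0)
        simp only [ne_eq, OfNat.ofNat_ne_zero, not_false_eq_true, zero_pow, zero_mul] at this
        exact this.mono_left nhdsWithin_le_nhds
      have h2 := ENNReal.tendsto_ofReal h1
      have h3 := ENNReal.Tendsto.const_mul (a := 2) h2 (Or.inr (by norm_num))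
      simpa using h3
    have h4 : ∀ᶠ ε : ℝ in 𝓝[>] 0, 2 * ENNReal.ofReal (ε ^ 2 * (C + ‖y‖) ^ 2) ≤ δ / 2 :=
      (ENNReal.tendsto_nhds_zero.1 hlim) (δ / 2) (ENNReal.half_pos hδ.ne')
    obtain ⟨ε, h5, h6⟩ := (h4.and self_mem_nhdsWithin).exists
    exact ⟨ε, h6, h5⟩
  set E : Set E4 := ball 0 ε
  have hEfin : volume E < ⊤ := measure_ball_lt_top
  have hEpos : 0 < volume E := measure_ball_pos volume 0 hε
  set V : ℝ := (volume E).toReal
  have hVpos : 0 < V := ENNReal.toReal_pos hEpos.ne' hEfin.ne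
  have hV : ENNReal.ofReal V = volume E := ENNReal.ofReal_toReal hEfin.ne
  -- the mollified sequence
  let M : ℕ → E4 → ℝ := fun n p => ∫ h in E, fn (x n - y) (p + h)
  have hMmeas : ∀ n, StronglyMeasurable (M n) := by
    intro n
    have hm : StronglyMeasurable (fn (x n - y)) := Lp.stronglyMeasurable _
    have h1 : StronglyMeasurable (fun z : E4 × E4 => fn (x n - y) (z.1 + z.2)) :=
      hm.comp_measurable (measurable_fst.add measurable_snd)
    exact h1.integral_prod_right (ν := volume.restrict E)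
  have hM0 : ∀ p, Tendsto (fun n => M n p) atTop (𝓝 0) := by
    intro p
    obtain ⟨T, hT⟩ := rell_functional p hEfin
    have h1 := h.clm T
    have h2 : Tendsto (fun n => T (x n) - T y) atTop (𝓝 (T y - T y)) := h1.sub_const _
    rw [sub_self] at h2
    refine h2.congr (fun n => ?_)
    rw [← map_sub, hT]
  have hMb : ∀ n p, |M n p| ≤ rellC E * (‖fn‖ * (C + ‖y‖)) := by
    intro n p
    refine (rell_bd _ p hEfin).trans ?_
    have h3 : 0 ≤ rellC E := ENNReal.toReal_nonneg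
    have h2 : ‖fn (x n - y)‖ ≤ ‖fn‖ * ‖x n - y‖ := fn.le_opNorm _
    have := hw n
    gcongr
    exact h2.trans (by gcongr)
  have hMlim : Tendsto (fun n => ∫⁻ p in ball (0 : E4) R, ENNReal.ofReal (M n p ^ 2)) atTop (𝓝 0) := by
    have h1 : Tendsto (fun n => ∫⁻ p in ball (0 : E4) R, ENNReal.ofReal (M n p ^ 2)) atTop
        (𝓝 (∫⁻ p in ball (0 : E4) R, 0)) := by
      refine tendsto_lintegral_of_dominated_convergence
        (fun _ => ENNReal.ofReal ((rellC E * (‖fn‖ * (C + ‖y‖))) ^ 2)) ?_ ?_ ?_ ?_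
      · intro n
        exact ((hMmeas n).measurable.pow_const 2).ennreal_ofReal
      · intro n
        refine Eventually.of_forall (fun p => ENNReal.ofReal_le_ofReal ?_)
        exact sq_le_sq' (by linarith [(abs_le.1 (hMb n p)).1]) (abs_le.1 (hMb n p)).2
      · rw [setLIntegral_const]
        exact ENNReal.mul_ne_top ENNReal.ofReal_ne_top measure_ball_lt_top.ne
      · refine Eventually.of_forall (fun p => ?_)
        have h2 := ENNReal.tendsto_ofReal ((hM0 p).pow 2)
        simpa using h2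
    simpa using h1
  -- pointwise inequality
  have hkey : ∀ n, volume E ^ 2 * ∫⁻ p in ball (0 : E4) R, ENNReal.ofReal (fn (x n - y) p ^ 2) ≤
      2 * (volume E ^ 2 * ENNReal.ofReal (ε ^ 2 * (C + ‖y‖) ^ 2)) +
      2 * ∫⁻ p in ball (0 : E4) R, ENNReal.ofReal (M n p ^ 2) := by
    intro n
    have hm : Measurable (fn (x n - y)) := (Lp.stronglyMeasurable _).measurable
    have hpt : ∀ p, ENNReal.ofReal (V ^ 2 * fn (x n - y) p ^ 2) ≤
        2 * ENNReal.ofReal ((∫ h in E, (fn (x n - y) (p + h) - fn (x n - y) p)) ^ 2) +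
        2 * ENNReal.ofReal (M n p ^ 2) := by
      intro p
      have h1 : (∫ h in E, (fn (x n - y) (p + h) - fn (x n - y) p)) =
          M n p - V * fn (x n - y) p := by
        have : IsFiniteMeasure ((volume : Measure E4).restrict E) := ⟨by simpa using hEfin⟩
        rw [integral_sub (rell_int _ p hEfin) (integrable_const _), setIntegral_const]
        rfl
      rw [h1]
      refine rell_two (by positivity) (by positivity) ?_
      nlinarith [sq_nonneg (M n p - V * fn (x n - y) p + M n p)]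
    calc volume E ^ 2 * ∫⁻ p in ball (0 : E4) R, ENNReal.ofReal (fn (x n - y) p ^ 2)
        = ∫⁻ p in ball (0 : E4) R, ENNReal.ofReal (V ^ 2 * fn (x n - y) p ^ 2) := by
          rw [← hV, ← ENNReal.ofReal_pow hVpos.le, ← lintegral_const_mul' _ _ ENNReal.ofReal_ne_top]
          refine lintegral_congr (fun p => ?_)
          rw [ENNReal.ofReal_mul (by positivity)]
      _ ≤ ∫⁻ p in ball (0 : E4) R,
          (2 * ENNReal.ofReal ((∫ h in E, (fn (x n - y) (p + h) - fn (x n - y) p)) ^ 2) +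
            2 * ENNReal.ofReal (M n p ^ 2)) := lintegral_mono hpt
      _ = (∫⁻ p in ball (0 : E4) R,
          2 * ENNReal.ofReal ((∫ h in E, (fn (x n - y) (p + h) - fn (x n - y) p)) ^ 2)) +
          ∫⁻ p in ball (0 : E4) R, 2 * ENNReal.ofReal (M n p ^ 2) := by
          rw [lintegral_add_right]
          exact (((hMmeas n).measurable.pow_const 2).ennreal_ofReal).const_mul 2
      _ ≤ 2 * (∫⁻ p,
          ENNReal.ofReal ((∫ h in E, (fn (x n - y) (p + h) - fn (x n - y) p)) ^ 2)) +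
          2 * ∫⁻ p in ball (0 : E4) R, ENNReal.ofReal (M n p ^ 2) := by
          rw [lintegral_const_mul' _ _ (by norm_num), lintegral_const_mul' _ _ (by norm_num)]
          gcongr
          exact Measure.restrict_le_self
      _ ≤ _ := by
          have h2 := rell_err (x n - y) hε
          have h3 : ENNReal.ofReal (ε ^ 2 * ‖x n - y‖ ^ 2) ≤
              ENNReal.ofReal (ε ^ 2 * (C + ‖y‖) ^ 2) := by
            refine ENNReal.ofReal_le_ofReal ?_
            have := hw n
            gcongr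
          gcongr
          exact h2.trans (by gcongr)
  -- conclusion
  have hlast : Tendsto (fun n => (volume E ^ 2)⁻¹ *
      (2 * ∫⁻ p in ball (0 : E4) R, ENNReal.ofReal (M n p ^ 2))) atTop (𝓝 0) := by
    have h1 := ENNReal.Tendsto.const_mul (a := 2) hMlim (Or.inr (by norm_num))
    have h2 := ENNReal.Tendsto.const_mul (a := (volume E ^ 2)⁻¹) h1
      (Or.inr (by simp [hEpos.ne']))
    simpa using h2
  have h7 := (ENNReal.tendsto_nhds_zero.1 hlast) (δ / 2) (ENNReal.half_pos hδ.ne')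
  filter_upwards [h7] with n hn
  have hE2 : volume E ^ 2 ≠ 0 := by simp [hEpos.ne']
  have hE3 : volume E ^ 2 ≠ ⊤ := ENNReal.pow_ne_top hEfin.ne
  have h8 : ∫⁻ p in ball (0 : E4) R, ENNReal.ofReal (fn (x n - y) p ^ 2) =
      (volume E ^ 2)⁻¹ * (volume E ^ 2 *
        ∫⁻ p in ball (0 : E4) R, ENNReal.ofReal (fn (x n - y) p ^ 2)) := by
    rw [← mul_assoc, ENNReal.inv_mul_cancel hE2 hE3, one_mul]
  rw [h8]
  calc (volume E ^ 2)⁻¹ * (volume E ^ 2 *
        ∫⁻ p in ball (0 : E4) R, ENNReal.ofReal (fn (x n - y) p ^ 2))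
      ≤ (volume E ^ 2)⁻¹ * (2 * (volume E ^ 2 * ENNReal.ofReal (ε ^ 2 * (C + ‖y‖) ^ 2)) +
      2 * ∫⁻ p in ball (0 : E4) R, ENNReal.ofReal (M n p ^ 2)) := by
        gcongr; exact hkey n
    _ = 2 * ENNReal.ofReal (ε ^ 2 * (C + ‖y‖) ^ 2) + (volume E ^ 2)⁻¹ *
      (2 * ∫⁻ p in ball (0 : E4) R, ENNReal.ofReal (M n p ^ 2)) := by
        rw [mul_add, show (volume E ^ 2)⁻¹ * (2 * (volume E ^ 2 * ENNReal.ofReal (ε ^ 2 * (C + ‖y‖) ^ 2)))
          = ((volume E ^ 2)⁻¹ * volume E ^ 2) * (2 * ENNReal.ofReal (ε ^ 2 * (C + ‖y‖) ^ 2)) by ring,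
          ENNReal.inv_mul_cancel hE2 hE3, one_mul]
    _ ≤ δ / 2 + δ / 2 := add_le_add hεδ hn
    _ = δ := ENNReal.add_halves δ

end Pool.Agent.H57.BN
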