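import Pool.Agent.H57.BN.Defs

set_option autoImplicit false

open MeasureTheory Filter Topology Metric Set
open scoped ENNReal NNReal ContDiff

namespace Pool.Agent.H57.BN

theorem norm_gradient_eq (φ : E4 → ℝ) (p : E4) : ‖gradient φ p‖ = ‖fderiv ℝ φ p‖ := by
  rw [gradient, LinearIsometryEquiv.norm_map]

/-- Sobolev inequality for test functions (Mathlib: `MeasureTheory.eLpNorm_le_eLpNorm_fderiv_of_eq` with
`p = 2`, `p' = 4`, `n = 4`). -/
theorem sobolev_test : ∃ C : ℝ, 0 < C ∧ ∀ (φ : E4 → ℝ) (h : IsTest univ φ),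
    ‖h.mem4.toLp φ‖ ≤ C * ‖toD h‖ := by
  refine ⟨SNormLESNormFDerivOfEqConst ℝ (volume : Measure E4) 2 + 1, by positivity, ?_⟩
  intro φ h
  have h1 := eLpNorm_le_eLpNorm_fderiv_of_eq (volume : Measure E4) (u := φ) (p := 2) (p' := 4)
    (h.smooth.of_le (by norm_cast)) h.comp (by norm_num) (by simp)
    (by rw [finrank_euclideanSpace]; norm_num)
  have h2 : ‖toD h‖ = (eLpNorm (fderiv ℝ φ) 2 volume).toReal := by
    show ‖gradLp h‖ = _
    rw [gradLp, Lp.norm_toLp]
    congr 1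
    apply eLpNorm_congr_norm_ae
    exact Eventually.of_forall fun p => norm_gradient_eq φ p
  have hfin : eLpNorm (fderiv ℝ φ) 2 volume ≠ ⊤ := by
    have := h.memGrad.2
    rw [eLpNorm_congr_norm_ae (g := fderiv ℝ φ)
      (Eventually.of_forall fun p => norm_gradient_eq φ p)] at this
    exact this.ne
  rw [Lp.norm_toLp, h2]
  have h3 : (eLpNorm φ 4 volume).toReal ≤
      (SNormLESNormFDerivOfEqConst ℝ (volume : Measure E4) 2 : ℝ) *
        (eLpNorm (fderiv ℝ φ) 2 volume).toReal := by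
    have h4 := ENNReal.toReal_mono (ENNReal.mul_ne_top ENNReal.coe_ne_top hfin) h1
    rw [ENNReal.toReal_mul, ENNReal.coe_toReal] at h4
    simpa using h4
  refine h3.trans ?_
  have : 0 ≤ (eLpNorm (fderiv ℝ φ) 2 volume).toReal := ENNReal.toReal_nonneg
  nlinarith

theorem IsTest.zero (Ω : Set E4) : IsTest Ω (0 : E4 → ℝ) :=
  ⟨contDiff_const, HasCompactSupport.zero, by simp [tsupport]⟩

theorem IsTest.add {Ω : Set E4} {φ ψ : E4 → ℝ} (h : IsTest Ω φ) (h' : IsTest Ω ψ) :
    IsTest Ω (φ + ψ) :=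
  ⟨h.smooth.add h'.smooth, h.comp.add h'.comp,
    (tsupport_add φ ψ).trans (union_subset h.supp h'.supp)⟩

theorem IsTest.smul {Ω : Set E4} {φ : E4 → ℝ} (c : ℝ) (h : IsTest Ω φ) : IsTest Ω (c • φ) := by
  refine ⟨h.smooth.const_smul c, ?_, ?_⟩
  · exact h.comp.smul_left (f := fun _ => c)
  · exact (closure_mono (by
      intro p hp
      simp only [Function.mem_support, Pi.smul_apply, smul_eq_mul] at hp ⊢
      exact fun h0 => hp (by rw [h0, mul_zero]))).trans h.supp

/-- the space of test functions -/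
def TestSp (Ω : Set E4) : Submodule ℝ (E4 → ℝ) where
  carrier := {φ | IsTest Ω φ}
  add_mem' := fun h h' => h.add h'
  zero_mem' := IsTest.zero Ω
  smul_mem' := fun c _ h => h.smul c

theorem IsTest.differentiable {Ω : Set E4} {φ : E4 → ℝ} (h : IsTest Ω φ) : Differentiable ℝ φ :=
  h.smooth.differentiable (by norm_cast)

theorem gradient_add_test {Ω : Set E4} {φ ψ : E4 → ℝ} (h : IsTest Ω φ) (h' : IsTest Ω ψ) (p : E4) :
    gradient (φ + ψ) p = gradient φ p + gradient ψ p := by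
  simp only [gradient]
  rw [fderiv_add (h.differentiable p) (h'.differentiable p), map_add]

theorem gradient_smul_test {Ω : Set E4} {φ : E4 → ℝ} (c : ℝ) (h : IsTest Ω φ) (p : E4) :
    gradient (c • φ) p = c • gradient φ p := by
  simp only [gradient]
  rw [fderiv_const_smul (h.differentiable p), map_smulₛₗ]
  simp

/-- test functions to `D`, linear -/
noncomputable def toDL (Ω : Set E4) : TestSp Ω →ₗ[ℝ] D where
  toFun φ := toD φ.2
  map_add' φ ψ := by
    apply Subtype.ext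
    show gradLp (φ.2.add ψ.2) = gradLp φ.2 + gradLp ψ.2
    rw [gradLp, gradLp, gradLp, ← MemLp.toLp_add]
    congr 1
    ext1 p
    exact gradient_add_test φ.2 ψ.2 p
  map_smul' c φ := by
    apply Subtype.ext
    show gradLp (φ.2.smul c) = c • gradLp φ.2
    rw [gradLp, gradLp, ← MemLp.toLp_const_smul]
    congr 1
    ext1 p
    exact gradient_smul_test c φ.2 p

theorem toDL_apply (Ω : Set E4) (φ : TestSp Ω) : toDL Ω φ = toD φ.2 := rfl

/-- test functions to `L⁴`, linear -/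
noncomputable def toL4 (Ω : Set E4) : TestSp Ω →ₗ[ℝ] L4 where
  toFun φ := φ.2.mem4.toLp φ.1
  map_add' φ ψ := MemLp.toLp_add _ _
  map_smul' c φ := MemLp.toLp_const_smul _ _

theorem range_toDL (Ω : Set E4) :
    ((toDL Ω).range : Set D) = {x : D | ∃ φ : E4 → ℝ, ∃ h : IsTest Ω φ, x = toD h} := by
  ext x
  constructor
  · rintro ⟨φ, rfl⟩
    exact ⟨φ.1, φ.2, rfl⟩
  · rintro ⟨φ, h, rfl⟩
    exact ⟨⟨φ, h⟩, rfl⟩

theorem H_eq (Ω : Set E4) : H Ω = (toDL Ω).range.topologicalClosure := by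
  rw [H, ← range_toDL, Submodule.span_eq]

theorem dense_toDL : DenseRange (toDL univ) := by
  intro x
  have hx : (x : LV) ∈ closure (Submodule.span ℝ
      {x : LV | ∃ φ : E4 → ℝ, ∃ h : IsTest univ φ, x = gradLp h} : Set LV) := x.2
  have hs : (Submodule.span ℝ {x : LV | ∃ φ : E4 → ℝ, ∃ h : IsTest univ φ, x = gradLp h} : Set LV) =
      Subtype.val '' (Set.range (toDL univ)) := by
    have : ((toDL univ).range.map DD.subtype : Set LV) =
        {x : LV | ∃ φ : E4 → ℝ, ∃ h : IsTest univ φ, x = gradLp h} := by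
      ext y
      constructor
      · rintro ⟨z, ⟨φ, rfl⟩, rfl⟩
        exact ⟨φ.1, φ.2, rfl⟩
      · rintro ⟨φ, h, rfl⟩
        exact ⟨toD h, ⟨⟨φ, h⟩, rfl⟩, rfl⟩
    rw [← this, Submodule.span_eq]
    ext y
    simp
  rw [hs] at hx
  rw [Topology.IsInducing.subtypeVal.closure_eq_preimage_closure_image]
  exact hx

/-- The map gradient ↦ function extends to a continuous linear map `D → L⁴`. -/
theorem exists_fn : ∃ T : D →L[ℝ] L4, ∀ (φ : E4 → ℝ) (h : IsTest univ φ),
    T (toD h) = h.mem4.toLp φ := by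
  obtain ⟨C, hC, hC'⟩ := sobolev_test
  refine ⟨(toL4 univ).extendOfNorm (toDL univ), fun φ h => ?_⟩
  exact LinearMap.extendOfNorm_eq dense_toDL ⟨C, fun x => hC' x.1 x.2⟩ (⟨φ, h⟩ : TestSp univ)

end Pool.Agent.H57.BN
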