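import Pool.Agent.H57.BN.Base

set_option autoImplicit false

open MeasureTheory Filter Topology Metric Set
open scoped ENNReal NNReal ContDiff

namespace Pool.Agent.H57.BN

theorem transl_inner_fderiv (φ : E4 → ℝ) (p h : E4) :
    fderiv ℝ φ p h = inner ℝ (gradient φ p) h := by
  rw [gradient]
  exact (InnerProductSpace.toDual_symm_apply).symm

/-- pointwise inequality for `C¹` functions -/
theorem transl_pt {φ : E4 → ℝ} (hφ : ContDiff ℝ 1 φ) (p h : E4) :
    (φ (p + h) - φ p) ^ 2 ≤ ∫ t in (0:ℝ)..1, ‖h‖ ^ 2 * ‖gradient φ (p + t • h)‖ ^ 2 := by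
  set f : ℝ → ℝ := fun t => inner ℝ (gradient φ (p + t • h)) h with hf
  have hcg : Continuous (gradient φ) := continuous_gradient hφ
  have hline : Continuous (fun t : ℝ => p + t • h) := by fun_prop
  have hfc : Continuous f := (hcg.comp hline).inner continuous_const
  have hd : ∀ t : ℝ, HasDerivAt (fun t : ℝ => φ (p + t • h)) (f t) t := by
    intro t
    have h1 : HasFDerivAt φ (fderiv ℝ φ (p + t • h)) (p + t • h) :=
      (hφ.differentiable (by norm_num)).differentiableAt.hasFDerivAt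
    have h2 : HasDerivAt (fun t : ℝ => p + t • h) h t := by
      have := ((hasDerivAt_id t).smul_const h).const_add p
      simpa using this
    have h3 := h1.comp_hasDerivAt t h2
    rw [transl_inner_fderiv] at h3
    exact h3
  have h1 : ∫ t in (0:ℝ)..1, f t = φ (p + h) - φ p := by
    rw [intervalIntegral.integral_eq_sub_of_hasDerivAt (fun t _ => hd t)
      (hfc.intervalIntegrable _ _)]
    simp
  set c : ℝ := φ (p + h) - φ p with hc
  have h2 : 0 ≤ ∫ t in (0:ℝ)..1, (f t - c) ^ 2 :=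
    intervalIntegral.integral_nonneg (by norm_num) (fun t _ => by positivity)
  have h3 : ∫ t in (0:ℝ)..1, (f t - c) ^ 2 = (∫ t in (0:ℝ)..1, f t ^ 2) - c ^ 2 := by
    have h4 : ∀ t, (f t - c) ^ 2 = (f t ^ 2 - (2 * c) * f t) + c ^ 2 := fun t => by ring
    simp only [h4]
    rw [intervalIntegral.integral_add, intervalIntegral.integral_sub,
      intervalIntegral.integral_const_mul, h1, intervalIntegral.integral_const]
    · simp; ring
    · exact (hfc.pow 2).intervalIntegrable _ _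
    · exact (continuous_const.mul hfc).intervalIntegrable _ _
    · exact ((hfc.pow 2).sub (continuous_const.mul hfc)).intervalIntegrable _ _
    · exact continuous_const.intervalIntegrable _ _
  have h5 : ∫ t in (0:ℝ)..1, f t ^ 2 ≤
      ∫ t in (0:ℝ)..1, ‖h‖ ^ 2 * ‖gradient φ (p + t • h)‖ ^ 2 := by
    refine intervalIntegral.integral_mono_on (by norm_num) ((hfc.pow 2).intervalIntegrable _ _)
      ((continuous_const.mul ((hcg.comp hline).norm.pow 2)).intervalIntegrable _ _) ?_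
    intro t _
    have h6 : |f t| ≤ ‖gradient φ (p + t • h)‖ * ‖h‖ := abs_real_inner_le_norm _ _
    calc f t ^ 2 = |f t| ^ 2 := (sq_abs _).symm
      _ ≤ (‖gradient φ (p + t • h)‖ * ‖h‖) ^ 2 := by gcongr
      _ = _ := by ring
  linarith

theorem transl_test {φ : E4 → ℝ} (hφ : IsTest univ φ) (h : E4) :
    ∫⁻ p, ENNReal.ofReal ((φ (p + h) - φ p) ^ 2) ≤ ENNReal.ofReal (‖h‖ ^ 2 * ‖toD hφ‖ ^ 2) := by
  have hφ1 : ContDiff ℝ 1 φ := hφ.smooth.of_le (by norm_cast)
  have hcg : Continuous (gradient φ) := continuous_gradient hφ1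
  have hnorm : ‖toD hφ‖ ^ 2 = ∫ p, ‖gradient φ p‖ ^ 2 := by
    rw [norm_sq]
    refine integral_congr_ae ?_
    filter_upwards [gr_toD_ae hφ] with p hp
    rw [hp]
  have hint : Integrable (fun p => ‖gradient φ p‖ ^ 2) (volume : Measure E4) := by
    exact (memLp_two_iff_integrable_sq_norm hcg.aestronglyMeasurable).1 hφ.memGrad
  have hlin : ∫⁻ p, ENNReal.ofReal (‖gradient φ p‖ ^ 2) = ENNReal.ofReal (‖toD hφ‖ ^ 2) := by
    rw [hnorm, ofReal_integral_eq_lintegral_ofReal hint (Eventually.of_forall fun p => by positivity)]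
  have hmeas : Measurable (fun z : E4 × ℝ =>
      ENNReal.ofReal (‖h‖ ^ 2 * ‖gradient φ (z.1 + z.2 • h)‖ ^ 2)) := by
    have : Continuous (fun z : E4 × ℝ => ‖h‖ ^ 2 * ‖gradient φ (z.1 + z.2 • h)‖ ^ 2) := by
      have hc : Continuous (fun z : E4 × ℝ => z.1 + z.2 • h) := by fun_prop
      exact continuous_const.mul ((hcg.comp hc).norm.pow 2)
    exact this.measurable.ennreal_ofReal
  calc ∫⁻ p, ENNReal.ofReal ((φ (p + h) - φ p) ^ 2)
      ≤ ∫⁻ p, ∫⁻ t in Ioc (0:ℝ) 1,
          ENNReal.ofReal (‖h‖ ^ 2 * ‖gradient φ (p + t • h)‖ ^ 2) := by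
        refine lintegral_mono (fun p => ?_)
        refine (ENNReal.ofReal_le_ofReal (transl_pt hφ1 p h)).trans ?_
        rw [intervalIntegral.integral_of_le (by norm_num), ofReal_integral_eq_lintegral_ofReal]
        · have hc : Continuous (fun t : ℝ => ‖h‖ ^ 2 * ‖gradient φ (p + t • h)‖ ^ 2) := by
            have hc' : Continuous (fun t : ℝ => p + t • h) := by fun_prop
            exact continuous_const.mul ((hcg.comp hc').norm.pow 2)
          exact (hc.integrableOn_Icc).mono_set Ioc_subset_Icc_self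
        · exact Eventually.of_forall fun t => by positivity
    _ = ∫⁻ t in Ioc (0:ℝ) 1, ∫⁻ p,
          ENNReal.ofReal (‖h‖ ^ 2 * ‖gradient φ (p + t • h)‖ ^ 2) :=
        lintegral_lintegral_swap hmeas.aemeasurable
    _ = ∫⁻ t in Ioc (0:ℝ) 1, ENNReal.ofReal (‖h‖ ^ 2 * ‖toD hφ‖ ^ 2) := by
        refine lintegral_congr (fun t => ?_)
        have h1 : ∫⁻ p, ENNReal.ofReal (‖h‖ ^ 2 * ‖gradient φ (p + t • h)‖ ^ 2) =
            ∫⁻ p, ENNReal.ofReal (‖h‖ ^ 2 * ‖gradient φ p‖ ^ 2) :=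
          lintegral_add_right_eq_self
            (fun p => ENNReal.ofReal (‖h‖ ^ 2 * ‖gradient φ p‖ ^ 2)) (t • h)
        rw [h1]
        have h2 : ∀ p, ENNReal.ofReal (‖h‖ ^ 2 * ‖gradient φ p‖ ^ 2) =
            ENNReal.ofReal (‖h‖ ^ 2) * ENNReal.ofReal (‖gradient φ p‖ ^ 2) :=
          fun p => ENNReal.ofReal_mul (by positivity)
        simp only [h2]
        rw [lintegral_const_mul' _ _ ENNReal.ofReal_ne_top, hlin, ENNReal.ofReal_mul (by positivity)]
    _ = ENNReal.ofReal (‖h‖ ^ 2 * ‖toD hφ‖ ^ 2) := by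
        rw [setLIntegral_const]; simp

/-- `‖u(· + h) - u‖₂ ≤ |h| ‖∇u‖₂` for `u ∈ D` (test functions: `u(p+h)-u(p) = ∫₀¹ ∇u(p+th)·h dt`;
general case: a.e. convergent subsequence and Fatou). -/
theorem transl (x : D) (h : E4) :
    ∫⁻ p, ENNReal.ofReal ((fn x (p + h) - fn x p) ^ 2) ≤ ENNReal.ofReal (‖h‖ ^ 2 * ‖x‖ ^ 2) := by
  obtain ⟨φ, hφ, hlim, h1, -⟩ := exists_test_ae (mem_H_univ x)
  have hq : Measure.QuasiMeasurePreserving (fun p : E4 => p + h) volume volume :=
    (measurePreserving_add_right (volume : Measure E4) h).quasiMeasurePreserving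
  have h2 := hq.ae h1
  have h3 : ∫⁻ p, ENNReal.ofReal ((fn x (p + h) - fn x p) ^ 2) ≤
      liminf (fun n => ∫⁻ p, ENNReal.ofReal ((φ n (p + h) - φ n p) ^ 2)) atTop := by
    refine le_trans ?_ (lintegral_liminf_le (fun n => ?_))
    · refine lintegral_mono_ae ?_
      filter_upwards [h1, h2] with p hp hp'
      exact ((ENNReal.tendsto_ofReal ((hp'.sub hp).pow 2)).liminf_eq).ge
    · have hc : Continuous (φ n) := (hφ n).smooth.continuous
      have : Continuous (fun p => (φ n (p + h) - φ n p) ^ 2) := by fun_prop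
      exact this.measurable.ennreal_ofReal
  have h4 : Tendsto (fun n => ENNReal.ofReal (‖h‖ ^ 2 * ‖toD (hφ n)‖ ^ 2)) atTop
      (𝓝 (ENNReal.ofReal (‖h‖ ^ 2 * ‖x‖ ^ 2))) :=
    ENNReal.tendsto_ofReal ((hlim.norm.pow 2).const_mul _)
  refine h3.trans ?_
  rw [← h4.liminf_eq]
  exact liminf_le_liminf (Eventually.of_forall fun n => transl_test (hφ n) h)

end Pool.Agent.H57.BN
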