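import Pool.Agent.H57.BN.Pow
import Pool.Agent.H57.BN.Eig

set_option autoImplicit false

open MeasureTheory Filter Topology Metric Set
open scoped ENNReal NNReal ContDiff

namespace Pool.Agent.H57.BN

/-- `(t+ε)^{1/3} - ε^{1/3} ≤ t^{1/3}` -/
theorem w83_sub {t ε : ℝ} (ht : 0 ≤ t) (hε : 0 < ε) :
    (t + ε) ^ (1 / 3 : ℝ) - ε ^ (1 / 3 : ℝ) ≤ t ^ (1 / 3 : ℝ) := by
  have := Real.rpow_add_le_add_rpow ht hε.le (p := (1 / 3 : ℝ)) (by norm_num) (by norm_num)
  linarith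

theorem w83_le {t : ℝ} (ht : 0 ≤ t) : t ^ (1 / 3 : ℝ) ≤ 1 + t := by
  rcases le_total t 1 with h | h
  · have := Real.rpow_le_one ht h (z := (1 / 3 : ℝ)) (by norm_num)
    linarith
  · have := Real.rpow_le_rpow_of_exponent_le h (show (1 / 3 : ℝ) ≤ 1 by norm_num)
    rw [Real.rpow_one] at this
    linarith

/-- `w ∈ L^{8/3}` and `(3/4)‖w‖_{8/3}^{4/3} ≤ ∫ v³ w^{1/3}` (`pow_test` with `γ = 1/3`, `ε → 0`). -/
theorem w83 {v w : D} (hv : ‖fn v‖ = 1) (hv0 : 0 ≤ᵐ[volume] (fn v : E4 → ℝ))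
    (hs : volume {p | fn v p ≠ 0} ≤ 1) (hw0 : 0 ≤ᵐ[volume] (fn w : E4 → ℝ))
    (hw : ∀ φ : D, inner ℝ w φ = ∫ p, (S * fn v p ^ 3) * fn φ p) :
    Integrable (fun p => fn w p ^ (8 / 3 : ℝ)) volume ∧
    Integrable (fun p => fn v p ^ 3 * fn w p ^ (1 / 3 : ℝ)) volume ∧
    (3 / 4) * Real.sqrt (∫ p, fn w p ^ (8 / 3 : ℝ)) ≤ ∫ p, fn v p ^ 3 * fn w p ^ (1 / 3 : ℝ) := by
  have hS := S_pos
  have hEm : MeasurableSet {p | fn v p ≠ 0} :=
    (Lp.stronglyMeasurable (fn v)).measurable (measurableSet_singleton (0:ℝ)).compl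
  have hE : volume {p | fn v p ≠ 0} < ⊤ := lt_of_le_of_lt hs (by norm_num)
  have hsupp : ∀ᵐ p ∂(volume : Measure E4), p ∉ {p | fn v p ≠ 0} → fn v p = 0 :=
    ae_of_all _ fun p hp => by
      by_contra h
      exact hp h
  have hmv : Measurable (fn v : E4 → ℝ) := (Lp.stronglyMeasurable (fn v)).measurable
  have hmw : Measurable (fn w : E4 → ℝ) := (Lp.stronglyMeasurable (fn w)).measurable
  have hv3 : Integrable (fun p => fn v p ^ 3) (volume : Measure E4) := by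
    have h1 := (memLp_of_support (fn v) hEm hE hsupp (r := 3) (by norm_num)).integrable_norm_pow
      (p := 3) (by norm_num)
    refine h1.mono (hmv.pow_const 3).aestronglyMeasurable (ae_of_all _ fun p => ?_)
    simp
  have hv3w : Integrable (fun p => fn v p ^ 3 * fn w p) (volume : Measure E4) :=
    integrable_cube_mul _ _
  have hI : Integrable (fun p => fn v p ^ 3 * fn w p ^ (1 / 3 : ℝ)) (volume : Measure E4) := by
    refine (hv3.add hv3w).mono ((hmv.pow_const 3).mul (hmw.pow_const _)).aestronglyMeasurable ?_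
    filter_upwards [hv0, hw0] with p h1 h2
    have h1' : 0 ≤ fn v p := h1
    have h2' : 0 ≤ fn w p := h2
    have h3 := w83_le h2'
    have h4 : 0 ≤ fn w p ^ (1 / 3 : ℝ) := Real.rpow_nonneg h2' _
    have h5 : 0 ≤ fn v p ^ 3 := by positivity
    rw [Real.norm_of_nonneg (mul_nonneg h5 h4)]
    simp only [Pi.add_apply]
    rw [Real.norm_of_nonneg (by positivity)]
    calc fn v p ^ 3 * fn w p ^ (1 / 3 : ℝ) ≤ fn v p ^ 3 * (1 + fn w p) :=
          mul_le_mul_of_nonneg_left h3 h5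
      _ = _ := by ring
  set K : ℝ := (4 / 3) * ∫ p, fn v p ^ 3 * fn w p ^ (1 / 3 : ℝ) with hK
  have hK0 : 0 ≤ K := by
    rw [hK]
    refine mul_nonneg (by norm_num) (integral_nonneg_of_ae ?_)
    filter_upwards [hv0, hw0] with p h1 h2
    have h1' : 0 ≤ fn v p := h1
    have h2' : 0 ≤ fn w p := h2
    have h4 : 0 ≤ fn w p ^ (1 / 3 : ℝ) := Real.rpow_nonneg h2' _
    show 0 ≤ fn v p ^ 3 * fn w p ^ (1 / 3 : ℝ)
    positivity
  let e : ℕ → ℝ := fun n => 1 / ((n:ℝ) + 1)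
  have he : ∀ n, 0 < e n := fun n => by positivity
  have he0 : Tendsto e atTop (𝓝 0) := tendsto_one_div_add_atTop_nhds_zero_nat
  let F : ℕ → E4 → ℝ := fun n p => ((fn w p + e n) ^ (2 / 3 : ℝ) - (e n) ^ (2 / 3 : ℝ)) ^ 4
  have hf : MemLp (fun p => S * fn v p ^ 3) (ENNReal.ofReal (4 / 3)) (volume : Measure E4) :=
    (memLp_cube (fn v)).const_mul S
  have hf0 : 0 ≤ᵐ[volume] fun p => S * fn v p ^ 3 := by
    filter_upwards [hv0] with p h1
    have h1' : 0 ≤ fn v p := h1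
    show 0 ≤ S * fn v p ^ 3
    positivity
  have h23 : ((1:ℝ) + 1 / 3) / 2 = 2 / 3 := by norm_num
  have hFint : ∀ n, Integrable (F n) (volume : Measure E4) ∧ ∫ p, F n p ≤ K ^ 2 := by
    intro n
    obtain ⟨t1, t2, t3⟩ := pow_test hf hf0 hw0 hw (γ := 1 / 3) (ε := e n) (by norm_num)
      (by norm_num) (he n)
    rw [h23] at t1 t3
    have hF0 : ∀ p, 0 ≤ F n p := fun p => by
      show 0 ≤ ((fn w p + e n) ^ (2 / 3 : ℝ) - (e n) ^ (2 / 3 : ℝ)) ^ 4
      positivity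
    have i1 : Integrable (F n) (volume : Measure E4) := by
      have := t1.integrable_norm_pow (p := 4) (by norm_num)
      refine this.congr (ae_of_all _ fun p => ?_)
      show ‖(fn w p + e n) ^ (2 / 3 : ℝ) - (e n) ^ (2 / 3 : ℝ)‖ ^ 4
        = ((fn w p + e n) ^ (2 / 3 : ℝ) - (e n) ^ (2 / 3 : ℝ)) ^ 4
      rw [Real.norm_eq_abs]
      exact Even.pow_abs (by decide) _
    refine ⟨i1, ?_⟩
    have i2 : ∫ p, (S * fn v p ^ 3) * ((fn w p + e n) ^ (1 / 3 : ℝ) - (e n) ^ (1 / 3 : ℝ))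
        ≤ S * ∫ p, fn v p ^ 3 * fn w p ^ (1 / 3 : ℝ) := by
      rw [← integral_const_mul]
      refine integral_mono_ae t2 (hI.const_mul S) ?_
      filter_upwards [hv0, hw0] with p h1 h2
      have h1' : 0 ≤ fn v p := h1
      have h2' : 0 ≤ fn w p := h2
      have h3 := w83_sub h2' (he n)
      show (S * fn v p ^ 3) * ((fn w p + e n) ^ (1 / 3 : ℝ) - (e n) ^ (1 / 3 : ℝ))
        ≤ S * (fn v p ^ 3 * fn w p ^ (1 / 3 : ℝ))
      rw [← mul_assoc]
      exact mul_le_mul_of_nonneg_left h3 (by positivity)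
    have i3 := t3.trans i2
    have i4 : Real.sqrt (∫ p, F n p) ≤ K := by
      have c1 : 4 * (1 / 3 : ℝ) / (1 + 1 / 3) ^ 2 = 3 / 4 := by norm_num
      rw [c1] at i3
      have i5 : S * ((3 / 4) * Real.sqrt (∫ p, F n p)) ≤
          S * ∫ p, fn v p ^ 3 * fn w p ^ (1 / 3 : ℝ) := by
        calc S * ((3 / 4) * Real.sqrt (∫ p, F n p)) = 3 / 4 * S * Real.sqrt (∫ p, F n p) := by ring
          _ ≤ _ := i3
      have i6 := le_of_mul_le_mul_left i5 hS
      rw [hK]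
      linarith
    exact (Real.sqrt_le_left hK0).1 i4
  -- Fatou
  have hlim : ∀ᵐ p ∂(volume : Measure E4), ENNReal.ofReal (fn w p ^ (8 / 3 : ℝ)) =
      liminf (fun n => ENNReal.ofReal (F n p)) atTop := by
    filter_upwards [hw0] with p h2
    have h2' : 0 ≤ fn w p := h2
    symm
    apply Tendsto.liminf_eq
    refine (ENNReal.continuous_ofReal.tendsto _).comp ?_
    have h3 : Tendsto (fun n => fn w p + e n) atTop (𝓝 (fn w p + 0)) := he0.const_add _
    have h4 : Tendsto (fun n => (fn w p + e n) ^ (2 / 3 : ℝ)) atTop (𝓝 ((fn w p + 0) ^ (2 / 3 : ℝ))) :=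
      h3.rpow_const (Or.inr (by norm_num))
    have h5 : Tendsto (fun n => (e n) ^ (2 / 3 : ℝ)) atTop (𝓝 ((0:ℝ) ^ (2 / 3 : ℝ))) :=
      he0.rpow_const (Or.inr (by norm_num))
    have h6 := (h4.sub h5).pow 4
    have h7 : ((fn w p + 0) ^ (2 / 3 : ℝ) - (0:ℝ) ^ (2 / 3 : ℝ)) ^ 4 = fn w p ^ (8 / 3 : ℝ) := by
      rw [add_zero, Real.zero_rpow (by norm_num), sub_zero, ← Real.rpow_natCast,
        ← Real.rpow_mul h2']
      norm_num
    rw [h7] at h6
    exact h6
  have hFm : ∀ n, Measurable (F n) := fun n =>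
    (((hmw.add_const _).pow_const _).sub_const _).pow_const 4
  have hfat : ∫⁻ p, ENNReal.ofReal (fn w p ^ (8 / 3 : ℝ)) ∂(volume : Measure E4) ≤
      ENNReal.ofReal (K ^ 2) := by
    calc ∫⁻ p, ENNReal.ofReal (fn w p ^ (8 / 3 : ℝ)) ∂(volume : Measure E4)
        = ∫⁻ p, liminf (fun n => ENNReal.ofReal (F n p)) atTop ∂(volume : Measure E4) :=
          lintegral_congr_ae hlim
      _ ≤ liminf (fun n => ∫⁻ p, ENNReal.ofReal (F n p) ∂(volume : Measure E4)) atTop :=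
          lintegral_liminf_le fun n => (hFm n).ennreal_ofReal
      _ ≤ ENNReal.ofReal (K ^ 2) := by
          have : ∀ n, ∫⁻ p, ENNReal.ofReal (F n p) ∂(volume : Measure E4) ≤
              ENNReal.ofReal (K ^ 2) := by
            intro n
            rw [← ofReal_integral_eq_lintegral_ofReal (hFint n).1 (ae_of_all _ fun p => by
              show 0 ≤ ((fn w p + e n) ^ (2 / 3 : ℝ) - (e n) ^ (2 / 3 : ℝ)) ^ 4
              positivity)]
            exact ENNReal.ofReal_le_ofReal (hFint n).2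
          calc _ ≤ liminf (fun _ : ℕ => ENNReal.ofReal (K ^ 2)) atTop :=
                liminf_le_liminf (Eventually.of_forall this)
            _ = ENNReal.ofReal (K ^ 2) := liminf_const _
  have hpos : 0 ≤ᵐ[volume] fun p => fn w p ^ (8 / 3 : ℝ) := by
    filter_upwards [hw0] with p h2
    exact Real.rpow_nonneg h2 _
  have hint : Integrable (fun p => fn w p ^ (8 / 3 : ℝ)) (volume : Measure E4) := by
    refine ⟨(hmw.pow_const _).aestronglyMeasurable, ?_⟩
    rw [hasFiniteIntegral_iff_ofReal hpos]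
    exact lt_of_le_of_lt hfat ENNReal.ofReal_lt_top
  refine ⟨hint, hI, ?_⟩
  have h8 : ∫ p, fn w p ^ (8 / 3 : ℝ) ≤ K ^ 2 := by
    rw [integral_eq_lintegral_of_nonneg_ae hpos (hmw.pow_const _).aestronglyMeasurable]
    exact ENNReal.toReal_le_of_le_ofReal (by positivity) hfat
  have h9 : Real.sqrt (∫ p, fn w p ^ (8 / 3 : ℝ)) ≤ K := by
    rw [Real.sqrt_le_left hK0]
    exact h8
  rw [hK] at h9
  linarith

end Pool.Agent.H57.BN
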